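import Mathlib

/-!
MP_d9b062_al: merged modules (to shorten the build).
-/

set_option autoImplicit false

/-! ## from `MP_d9b062_al.Defs` -/

section
/-!
# Milnor representations: definitions

`V N` is `ℝ^N`, `Op N` the algebra of its linear operators (`N × N` matrices); `star` is the
transpose (adjoint).  A connected semisimple group with an irreducible representation is given by its
image `G ⊆ GL_N(ℝ)`, in an inner product for which it is self-adjoint.
-/

namespace Pool.Agent.Lib.MP_d9b062_al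

open NormedSpace

/-- `ℝ^N` with its Euclidean structure. -/
abbrev V (N : ℕ) : Type := EuclideanSpace ℝ (Fin N)

/-- The algebra of linear operators of `ℝ^N`, i.e. of `N × N` matrices; `star` is the transpose. -/
abbrev Op (N : ℕ) : Type := V N →L[ℝ] V N

/-- The value at the operator `T` of a polynomial in the `N × N` matrix entries. -/
noncomputable def polyVal {N : ℕ} (p : MvPolynomial (Fin N × Fin N) ℝ) (T : Op N) : ℝ :=
  MvPolynomial.eval (fun ij => T (EuclideanSpace.single ij.2 1) ij.1) p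

/-- The Lie algebra of a linear group: all `Z` with `exp (t Z)` in the group for every real `t`. -/
def lieAlg {N : ℕ} (G : Subgroup (Op N)ˣ) : Set (Op N) :=
  {Z | ∀ t : ℝ, ∃ g ∈ G, (g : Op N) = exp (t • Z)}

/-- `G` is (the group of real points of) a connected semisimple linear algebraic group, acting
irreducibly on `ℝ^N`, and self-adjoint for the Euclidean inner product. -/
structure IsConnectedSemisimple {N : ℕ} (G : Subgroup (Op N)ˣ) : Prop where
  /-- `G` is Zariski closed in `GL_N(ℝ)`. -/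
  closed : ∀ g : (Op N)ˣ, (∀ p : MvPolynomial (Fin N × Fin N) ℝ,
    (∀ h ∈ G, polyVal p (h : Op N) = 0) → polyVal p (g : Op N) = 0) → g ∈ G
  /-- `G` is connected: the group generated by its one-parameter subgroups is Zariski dense. -/
  connected : ∀ p : MvPolynomial (Fin N × Fin N) ℝ,
    (∀ l : List (Op N), (∀ Z ∈ l, Z ∈ lieAlg G) → polyVal p (l.map exp).prod = 0) →
    ∀ g ∈ G, polyVal p (g : Op N) = 0
  /-- `G` is stable under transposition. -/
  star_mem : ∀ g ∈ G, star g ∈ G
  /-- `ℝ^N` is an irreducible representation of `G`. -/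
  irreducible : 0 < N ∧ ∀ W : Submodule ℝ (V N),
    (∀ g ∈ G, ∀ v ∈ W, (g : Op N) v ∈ W) → W = ⊥ ∨ W = ⊤
  /-- The (reductive) Lie algebra of `G` has trivial centre, that is, it is semisimple. -/
  semisimple : ∀ Z ∈ lieAlg G, (∀ X ∈ lieAlg G, Z * X = X * Z) → Z = 0

/-- `A` is a Cartan subspace of the Lie algebra of `G`: a maximal commuting space of symmetric
elements of the Lie algebra. -/
structure IsCartan {N : ℕ} (G : Subgroup (Op N)ˣ) (A : Submodule ℝ (Op N)) : Prop where
  mem_lieAlg : ∀ X ∈ A, X ∈ lieAlg G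
  symmetric : ∀ X ∈ A, star X = X
  commute : ∀ X ∈ A, ∀ Y ∈ A, X * Y = Y * X
  maximal : ∀ Y ∈ lieAlg G, star Y = Y → (∀ X ∈ A, X * Y = Y * X) → Y ∈ A

/-- `α` is a restricted root of `(G, A)`. -/
def IsRoot {N : ℕ} (G : Subgroup (Op N)ˣ) (A : Submodule ℝ (Op N)) (α : A →ₗ[ℝ] ℝ) : Prop :=
  α ≠ 0 ∧ ∃ Z ∈ lieAlg G, Z ≠ 0 ∧ ∀ X : A, (X : Op N) * Z - Z * (X : Op N) = α X • Z

/-- `H` is a regular element of `A`; it determines the positive system of the roots `α` with
`0 < α H`. -/
def IsRegular {N : ℕ} (G : Subgroup (Op N)ˣ) (A : Submodule ℝ (Op N)) (H : A) : Prop :=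
  ∀ α : A →ₗ[ℝ] ℝ, IsRoot G A α → α H ≠ 0

/-- The centralizer `L` of `A` in `G`. -/
def centralizer {N : ℕ} (G : Subgroup (Op N)ˣ) (A : Submodule ℝ (Op N)) : Set (Op N)ˣ :=
  {g | g ∈ G ∧ ∀ X ∈ A, (g : Op N) * X = X * (g : Op N)}

/-- `w ∈ G` represents the longest element `w₀` of the restricted Weyl group with respect to the
positive system given by `H`: it normalizes `A` and maps positive roots to negative roots. -/
def IsLongest {N : ℕ} (G : Subgroup (Op N)ˣ) (A : Submodule ℝ (Op N)) (H : A) (w : (Op N)ˣ) :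
    Prop :=
  w ∈ G ∧ ∃ hw : ∀ X ∈ A, ((w⁻¹ : (Op N)ˣ) : Op N) * X * (w : Op N) ∈ A,
    ∀ α : A →ₗ[ℝ] ℝ, IsRoot G A α → 0 < α H →
      α ⟨((w⁻¹ : (Op N)ˣ) : Op N) * (H : Op N) * (w : Op N), hw _ H.2⟩ < 0

/-- Condition (S): some vector fixed by `L` is not fixed by the representative `w` of `w₀`. -/
def CondS {N : ℕ} (G : Subgroup (Op N)ˣ) (A : Submodule ℝ (Op N)) (w : (Op N)ˣ) : Prop :=
  ∃ v : V N, (∀ l ∈ centralizer G A, (l : Op N) v = v) ∧ (w : Op N) v ≠ v

/-- The affine maps `v ↦ g v + u` of a normed space, as pairs `(g, u)`. -/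
@[ext]
structure Aff (E : Type*) [NormedAddCommGroup E] [NormedSpace ℝ E] where
  /-- the linear part -/
  lin : (E →L[ℝ] E)ˣ
  /-- the translation part -/
  tr : E

namespace Aff

variable {E : Type*} [NormedAddCommGroup E] [NormedSpace ℝ E]

noncomputable instance : One (Aff E) := ⟨⟨1, 0⟩⟩
noncomputable instance : Mul (Aff E) :=
  ⟨fun x y => ⟨x.lin * y.lin, x.tr + (x.lin : E →L[ℝ] E) y.tr⟩⟩
noncomputable instance : Inv (Aff E) :=
  ⟨fun x => ⟨x.lin⁻¹, -(((x.lin⁻¹ : (E →L[ℝ] E)ˣ) : E →L[ℝ] E) x.tr)⟩⟩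

@[simp] lemma one_lin : (1 : Aff E).lin = 1 := rfl
@[simp] lemma one_tr : (1 : Aff E).tr = 0 := rfl
@[simp] lemma mul_lin (x y : Aff E) : (x * y).lin = x.lin * y.lin := rfl
@[simp] lemma mul_tr (x y : Aff E) : (x * y).tr = x.tr + (x.lin : E →L[ℝ] E) y.tr := rfl
@[simp] lemma inv_lin (x : Aff E) : (x⁻¹).lin = x.lin⁻¹ := rfl
@[simp] lemma inv_tr (x : Aff E) :
    (x⁻¹).tr = -(((x.lin⁻¹ : (E →L[ℝ] E)ˣ) : E →L[ℝ] E) x.tr) := rfl

noncomputable instance : Group (Aff E) where
  mul_assoc x y z := by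
    ext1
    · simp [mul_assoc]
    · simp [add_assoc]
  one_mul x := by ext1 <;> simp
  mul_one x := by ext1 <;> simp
  inv_mul_cancel x := by
    ext1
    · simp
    · simp

/-- The affine action on the space. -/
noncomputable def act (x : Aff E) (v : E) : E := (x.lin : E →L[ℝ] E) v + x.tr

end Aff

/-- `G` (with its representation on `ℝ^N`) is *Milnor*: no group `Γ` of affine maps with linear
parts in `G` is non-abelian free, has Zariski dense linear part in `G`, and acts properly
discontinuously on `ℝ^N`. -/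
def IsMilnor {N : ℕ} (G : Subgroup (Op N)ˣ) : Prop :=
  ¬ ∃ Γ : Subgroup (Aff (V N)),
    (∃ (κ : Type) (_ : Nontrivial κ), Nonempty (Γ ≃* FreeGroup κ)) ∧
    (∀ γ ∈ Γ, γ.lin ∈ G) ∧
    (∀ p : MvPolynomial (Fin N × Fin N) ℝ,
      (∀ γ ∈ Γ, polyVal p (γ.lin : Op N) = 0) → ∀ g ∈ G, polyVal p (g : Op N) = 0) ∧
    (∀ K : Set (V N), IsCompact K → {γ : Aff (V N) | γ ∈ Γ ∧ (γ.act '' K ∩ K).Nonempty}.Finite)

end Pool.Agent.Lib.MP_d9b062_al

end

/-! ## from `MP_d9b062_al.Defs2` -/

section
/-!
# Semisimple groups without the self-adjointness assumption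
-/

namespace Pool.Agent.Lib.MP_d9b062_al

open NormedSpace

attribute [local instance 100] LieRing.ofAssociativeRing

/-- `X` is hyperbolic: diagonalizable over `ℝ`. -/
def IsHyperbolic {N : ℕ} (X : Op N) : Prop :=
  ∃ b : Module.Basis (Fin N) ℝ (V N), ∀ i, ∃ a : ℝ, X (b i) = a • b i

/-- `G ⊆ GL_N(ℝ)` is (the group of real points of) a connected semisimple linear algebraic group
acting irreducibly on `ℝ^N`. -/
structure IsSemisimpleIrr {N : ℕ} (G : Subgroup (Op N)ˣ) : Prop where
  /-- `G` is Zariski closed in `GL_N(ℝ)`. -/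
  closed : ∀ g : (Op N)ˣ, (∀ p : MvPolynomial (Fin N × Fin N) ℝ,
    (∀ h ∈ G, polyVal p (h : Op N) = 0) → polyVal p (g : Op N) = 0) → g ∈ G
  /-- `G` is connected: the group generated by its one-parameter subgroups is Zariski dense. -/
  connected : ∀ p : MvPolynomial (Fin N × Fin N) ℝ,
    (∀ l : List (Op N), (∀ Z ∈ l, Z ∈ lieAlg G) → polyVal p (l.map exp).prod = 0) →
    ∀ g ∈ G, polyVal p (g : Op N) = 0
  /-- `ℝ^N` is an irreducible representation of `G`. -/
  irreducible : 0 < N ∧ ∀ W : Submodule ℝ (V N),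
    (∀ g ∈ G, ∀ v ∈ W, (g : Op N) v ∈ W) → W = ⊥ ∨ W = ⊤
  /-- The Lie algebra of `G` is semisimple. -/
  semisimple : ∃ 𝔤 : LieSubalgebra ℝ (Op N), (𝔤 : Set (Op N)) = lieAlg G ∧
    LieAlgebra.IsSemisimple ℝ 𝔤

end Pool.Agent.Lib.MP_d9b062_al

end

/-! ## from `MP_d9b062_al.Poly` -/

section
/-!
# Polynomial functions on finite-dimensional spaces
-/

namespace Pool.Agent.Lib.MP_d9b062_al

open scoped Topology

/-- The algebra of polynomial functions on a real vector space. -/
def PolyFun (W : Type*) [AddCommGroup W] [Module ℝ W] : Subalgebra ℝ (W → ℝ) :=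
  Algebra.adjoin ℝ {f | ∃ φ : W →ₗ[ℝ] ℝ, f = φ}

/-- A map between real vector spaces all of whose linear functionals are polynomial. -/
def IsPolyMap {W W' : Type*} [AddCommGroup W] [Module ℝ W] [AddCommGroup W'] [Module ℝ W']
    (f : W → W') : Prop :=
  ∀ φ : W' →ₗ[ℝ] ℝ, (fun x => φ (f x)) ∈ PolyFun W

section

variable {W W' W'' : Type*} [AddCommGroup W] [Module ℝ W] [AddCommGroup W'] [Module ℝ W']
  [AddCommGroup W''] [Module ℝ W'']

lemma PolyFun.linear (φ : W →ₗ[ℝ] ℝ) : (φ : W → ℝ) ∈ PolyFun W :=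
  Algebra.subset_adjoin ⟨φ, rfl⟩

lemma PolyFun.const (c : ℝ) : (fun _ : W => c) ∈ PolyFun W :=
  (PolyFun W).algebraMap_mem c

/-- Induction principle. -/
lemma PolyFun.induction {p : (W → ℝ) → Prop} (hl : ∀ φ : W →ₗ[ℝ] ℝ, p φ)
    (hc : ∀ c : ℝ, p (fun _ => c)) (ha : ∀ f g, p f → p g → p (fun x => f x + g x))
    (hm : ∀ f g, p f → p g → p (fun x => f x * g x)) {F : W → ℝ} (hF : F ∈ PolyFun W) : p F := by
  induction hF using Algebra.adjoin_induction with
  | mem x hx => obtain ⟨φ, rfl⟩ := hx; exact hl φ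
  | algebraMap r => exact hc r
  | add x y _ _ hx hy => exact ha x y hx hy
  | mul x y _ _ hx hy => exact hm x y hx hy

lemma PolyFun.add {f g : W → ℝ} (hf : f ∈ PolyFun W) (hg : g ∈ PolyFun W) :
    (fun x => f x + g x) ∈ PolyFun W := (PolyFun W).add_mem hf hg

lemma PolyFun.mul {f g : W → ℝ} (hf : f ∈ PolyFun W) (hg : g ∈ PolyFun W) :
    (fun x => f x * g x) ∈ PolyFun W := (PolyFun W).mul_mem hf hg

lemma PolyFun.sub {f g : W → ℝ} (hf : f ∈ PolyFun W) (hg : g ∈ PolyFun W) :
    (fun x => f x - g x) ∈ PolyFun W := (PolyFun W).sub_mem hf hg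

lemma PolyFun.pow {f : W → ℝ} (hf : f ∈ PolyFun W) (n : ℕ) :
    (fun x => f x ^ n) ∈ PolyFun W := (PolyFun W).pow_mem hf n

lemma PolyFun.sum {κ : Type*} (s : Finset κ) {f : κ → W → ℝ} (hf : ∀ i ∈ s, f i ∈ PolyFun W) :
    (fun x => ∑ i ∈ s, f i x) ∈ PolyFun W := by
  have := (PolyFun W).sum_mem hf
  convert this using 1
  ext x
  simp

lemma PolyFun.prod {κ : Type*} (s : Finset κ) {f : κ → W → ℝ} (hf : ∀ i ∈ s, f i ∈ PolyFun W) :
    (fun x => ∏ i ∈ s, f i x) ∈ PolyFun W := by
  have := (PolyFun W).prod_mem hf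
  convert this using 1
  ext x
  simp

lemma IsPolyMap.linear (A : W →ₗ[ℝ] W') : IsPolyMap (A : W → W') :=
  fun φ => PolyFun.linear (φ ∘ₗ A)

lemma IsPolyMap.const (c : W') : IsPolyMap (fun _ : W => c) := fun φ => PolyFun.const (φ c)

lemma IsPolyMap.id : IsPolyMap (fun x : W => x) := fun φ => PolyFun.linear φ

lemma IsPolyMap.add {f g : W → W'} (hf : IsPolyMap f) (hg : IsPolyMap g) :
    IsPolyMap (fun x => f x + g x) := fun φ => by
  simpa using PolyFun.add (hf φ) (hg φ)

lemma IsPolyMap.sub {f g : W → W'} (hf : IsPolyMap f) (hg : IsPolyMap g) :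
    IsPolyMap (fun x => f x - g x) := fun φ => by
  simpa using PolyFun.sub (hf φ) (hg φ)

lemma IsPolyMap.sum {κ : Type*} (s : Finset κ) {f : κ → W → W'}
    (hf : ∀ i ∈ s, IsPolyMap (f i)) : IsPolyMap (fun x => ∑ i ∈ s, f i x) := fun φ => by
  simpa using PolyFun.sum s (fun i hi => hf i hi φ)

lemma IsPolyMap.smul {f : W → ℝ} {g : W → W'} (hf : f ∈ PolyFun W) (hg : IsPolyMap g) :
    IsPolyMap (fun x => f x • g x) := fun φ => by
  simpa using PolyFun.mul hf (hg φ)

lemma IsPolyMap.of_polyFun {f : W → ℝ} (hf : f ∈ PolyFun W) : IsPolyMap f := fun φ => by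
  have : (fun x => φ (f x)) = fun x => φ 1 * f x := by
    ext x
    have := φ.map_smul (f x) 1
    simp only [smul_eq_mul, mul_one] at this
    rw [this, mul_comm]
  rw [this]
  exact PolyFun.mul (PolyFun.const _) hf

lemma IsPolyMap.polyFun {f : W → ℝ} (hf : IsPolyMap f) : f ∈ PolyFun W := hf LinearMap.id

/-- composition of a polynomial function with a polynomial map -/
lemma PolyFun.comp {F : W' → ℝ} (hF : F ∈ PolyFun W') {f : W → W'} (hf : IsPolyMap f) :
    (fun x => F (f x)) ∈ PolyFun W := by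
  refine PolyFun.induction (p := fun F => (fun x => F (f x)) ∈ PolyFun W) (fun φ => hf φ)
    (fun c => PolyFun.const c) (fun f g hf hg => PolyFun.add hf hg)
    (fun f g hf hg => PolyFun.mul hf hg) hF

lemma IsPolyMap.comp {g : W' → W''} (hg : IsPolyMap g) {f : W → W'} (hf : IsPolyMap f) :
    IsPolyMap (fun x => g (f x)) := fun φ => PolyFun.comp (hg φ) hf

lemma IsPolyMap.linear_comp (A : W' →ₗ[ℝ] W'') {f : W → W'} (hf : IsPolyMap f) :
    IsPolyMap (fun x => A (f x)) := (IsPolyMap.linear A).comp hf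

/-- bilinear combination of polynomial maps -/
lemma IsPolyMap.bilin {V₁ V₂ V₃ : Type*} [AddCommGroup V₁] [Module ℝ V₁] [AddCommGroup V₂]
    [Module ℝ V₂] [AddCommGroup V₃] [Module ℝ V₃] [FiniteDimensional ℝ V₁]
    (B : V₁ →ₗ[ℝ] V₂ →ₗ[ℝ] V₃) {f : W → V₁} {g : W → V₂}
    (hf : IsPolyMap f) (hg : IsPolyMap g) : IsPolyMap (fun x => B (f x) (g x)) := by
  intro φ
  let b := Module.finBasis ℝ V₁
  have key : (fun x => φ (B (f x) (g x))) =
      fun x => ∑ i, b.coord i (f x) * φ (B (b i) (g x)) := by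
    ext x
    have h : B (f x) (g x) = ∑ i, b.coord i (f x) • B (b i) (g x) := by
      conv_lhs => rw [← b.sum_repr (f x)]
      rw [map_sum, LinearMap.sum_apply]
      refine Finset.sum_congr rfl fun i _ => ?_
      rw [map_smul, LinearMap.smul_apply, Module.Basis.coord_apply]
    rw [h, map_sum]
    refine Finset.sum_congr rfl fun i _ => ?_
    rw [map_smul, smul_eq_mul]
  rw [key]
  exact PolyFun.sum _ fun i _ =>
    PolyFun.mul (hf (b.coord i)) (hg (φ ∘ₗ B (b i)))

end

section End

variable {W : Type*} [AddCommGroup W] [Module ℝ W]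
variable {E : Type*} [NormedAddCommGroup E] [NormedSpace ℝ E] [FiniteDimensional ℝ E]

lemma IsPolyMap.mul {f g : W → E →L[ℝ] E} (hf : IsPolyMap f) (hg : IsPolyMap g) :
    IsPolyMap (fun x => f x * g x) :=
  IsPolyMap.bilin (LinearMap.mul ℝ (E →L[ℝ] E)) hf hg

lemma IsPolyMap.pow {f : W → E →L[ℝ] E} (hf : IsPolyMap f) (n : ℕ) :
    IsPolyMap (fun x => f x ^ n) := by
  induction n with
  | zero => simpa using IsPolyMap.const (1 : E →L[ℝ] E)
  | succ n ih => simpa [pow_succ] using ih.mul hf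

lemma IsPolyMap.apply {f : W → E →L[ℝ] E} {g : W → E} (hf : IsPolyMap f) (hg : IsPolyMap g) :
    IsPolyMap (fun x => f x (g x)) := by
  let B : (E →L[ℝ] E) →ₗ[ℝ] E →ₗ[ℝ] E :=
    LinearMap.mk₂ ℝ (fun T v => T v) (by intros; simp) (by intros; simp) (by intros; simp)
      (by intros; simp)
  exact IsPolyMap.bilin B hf hg

/-- Polynomial functions on a finite-dimensional normed space are continuous. -/
lemma PolyFun.continuous {F : E → ℝ} (hF : F ∈ PolyFun E) : Continuous F := by
  refine PolyFun.induction (p := fun F => Continuous F)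
    (fun φ => φ.continuous_of_finiteDimensional) (fun c => continuous_const)
    (fun f g hf hg => hf.add hg) (fun f g hf hg => hf.mul hg) hF

/-- Polynomial functions on a finite-dimensional normed space are smooth. -/
lemma PolyFun.contDiff {F : E → ℝ} (hF : F ∈ PolyFun E) {n : WithTop ℕ∞} : ContDiff ℝ n F := by
  refine PolyFun.induction (p := fun F => ContDiff ℝ n F)
    (fun φ => (LinearMap.toContinuousLinearMap φ).contDiff) (fun c => contDiff_const)
    (fun f g hf hg => hf.add hg) (fun f g hf hg => hf.mul hg) hF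

end End

end Pool.Agent.Lib.MP_d9b062_al

end

/-! ## from `MP_d9b062_al.Grading` -/

section
/-!
# Gradings (orthogonal idempotents) and block LU decomposition in a ring
-/

set_option linter.unusedSectionVars false
set_option linter.unusedVariables false
set_option linter.unusedSimpArgs false

namespace Pool.Agent.Lib.MP_d9b062_al

open Finset

section Ring

variable {R : Type*} [Ring R] {ι : Type*} [Fintype ι]

/-- `P` is a complete family of orthogonal idempotents. -/
structure IsGrading (P : ι → R) : Prop where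
  idem : ∀ i, P i * P i = P i
  orth : ∀ i j, i ≠ j → P i * P j = 0
  sum_eq : ∑ i, P i = 1

/-- block diagonal part `1`, other blocks supported on the relation `s`. -/
def Unip (P : ι → R) (s : ι → ι → Prop) (T : R) : Prop :=
  (∀ i, P i * T * P i = P i) ∧ ∀ i j, i ≠ j → ¬ s i j → P i * T * P j = 0

/-- all blocks supported on the relation `s`. -/
def Supp (P : ι → R) (s : ι → ι → Prop) (T : R) : Prop :=
  ∀ i j, ¬ s i j → P i * T * P j = 0

/-- block diagonal -/
def Diag (P : ι → R) (T : R) : Prop := ∀ i, P i * T = T * P i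

variable {P : ι → R} {s : ι → ι → Prop}

lemma IsGrading.mul_ite [DecidableEq ι] (hP : IsGrading P) (i j : ι) :
    P i * P j = if i = j then P i else 0 := by
  split_ifs with h
  · subst h; exact hP.idem i
  · exact hP.orth i j h

lemma IsGrading.mul_sum (hP : IsGrading P) (T : R) : T = ∑ j, T * P j := by
  rw [← Finset.mul_sum, hP.sum_eq, mul_one]

lemma IsGrading.sum_mul (hP : IsGrading P) (T : R) : T = ∑ j, P j * T := by
  rw [← Finset.sum_mul, hP.sum_eq, one_mul]

lemma IsGrading.block_mul (hP : IsGrading P) (S T : R) (i j : ι) :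
    P i * (S * T) * P j = ∑ k, (P i * S * P k) * (P k * T * P j) := by
  have : ∀ k, (P i * S * P k) * (P k * T * P j) = (P i * S) * P k * (T * P j) := by
    intro k
    rw [show (P i * S * P k) * (P k * T * P j) = (P i * S) * (P k * P k) * (T * P j) by
      noncomm_ring, hP.idem]
  simp only [this]
  rw [← Finset.sum_mul, ← Finset.mul_sum, hP.sum_eq, mul_one]
  noncomm_ring

/-- equality of all blocks -/
lemma IsGrading.ext (hP : IsGrading P) {S T : R} (h : ∀ i j, P i * S * P j = P i * T * P j) :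
    S = T := by
  rw [hP.sum_mul S, hP.sum_mul T]
  refine Finset.sum_congr rfl fun i _ => ?_
  rw [hP.mul_sum (P i * S), hP.mul_sum (P i * T)]
  exact Finset.sum_congr rfl fun j _ => h i j

lemma IsGrading.block_one (hP : IsGrading P) {i j : ι} (h : i ≠ j) : P i * 1 * P j = 0 := by
  rw [mul_one, hP.orth i j h]

lemma Unip.one (hP : IsGrading P) : Unip P s (1 : R) :=
  ⟨fun i => by rw [mul_one, hP.idem], fun i j h _ => hP.block_one h⟩

/-- multiplication of unipotents (for a strict order) -/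
lemma Unip.mul (hP : IsGrading P) (hs : ∀ i j k, s i j → s j k → s i k) (hi : ∀ i, ¬ s i i)
    {S T : R} (hS : Unip P s S) (hT : Unip P s T) : Unip P s (S * T) := by
  classical
  constructor
  · intro i
    rw [hP.block_mul, Finset.sum_eq_single i]
    · rw [hS.1, hT.1, hP.idem]
    · intro k _ hk
      by_cases h1 : s i k
      · have h2 : ¬ s k i := fun h => hi i (hs i k i h1 h)
        rw [hT.2 k i hk h2, mul_zero]
      · rw [hS.2 i k (Ne.symm hk) h1, zero_mul]
    · intro h; exact absurd (Finset.mem_univ i) h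
  · intro i j hij hn
    rw [hP.block_mul]
    refine Finset.sum_eq_zero fun k _ => ?_
    by_cases hik : i = k
    · subst hik
      rw [hT.2 i j hij hn, mul_zero]
    · by_cases h1 : s i k
      · by_cases hkj : k = j
        · subst hkj; exact absurd h1 hn
        · have h2 : ¬ s k j := fun h => hn (hs i k j h1 h)
          rw [hT.2 k j hkj h2, mul_zero]
      · rw [hS.2 i k hik h1, zero_mul]

lemma Supp.mul (hP : IsGrading P) (hs : ∀ i j k, s i j → s j k → s i k)
    {S T : R} (hS : Supp P s S) (hT : Supp P s T) : Supp P s (S * T) := by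
  intro i j hn
  rw [hP.block_mul]
  refine Finset.sum_eq_zero fun k _ => ?_
  by_cases h1 : s i k
  · have h2 : ¬ s k j := fun h => hn (hs i k j h1 h)
    rw [hT k j h2, mul_zero]
  · rw [hS i k h1, zero_mul]

lemma Unip.supp (hP : IsGrading P) (hi : ∀ i, ¬ s i i) {T : R} (hT : Unip P s T) :
    Supp P s (1 - T) := by
  intro i j hn
  rw [mul_sub, sub_mul, mul_one]
  by_cases hij : i = j
  · subst hij; rw [hT.1, hP.idem, sub_self]
  · rw [hT.2 i j hij hn, hP.orth i j hij, sub_self]

lemma Supp.unip (hP : IsGrading P) (hi : ∀ i, ¬ s i i) {T : R} (hT : Supp P s T) :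
    Unip P s (1 + T) := by
  constructor
  · intro i
    rw [mul_add, add_mul, mul_one, hP.idem, hT i i (hi i), add_zero]
  · intro i j hij hn
    rw [mul_add, add_mul, mul_one, hP.orth i j hij, hT i j hn, add_zero]

lemma Supp.pow_zero_of_card (hP : IsGrading P) (hs : ∀ i j k, s i j → s j k → s i k)
    (hi : ∀ i, ¬ s i i) {T : R} (hT : Supp P s T) : T ^ (Fintype.card ι + 1) = 0 := by
  classical
  have key : ∀ (k : ℕ) (i j : ι), (Finset.univ.filter (fun m => s i m)).card < k →
      P i * T ^ k * P j = 0 := by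
    intro k
    induction k with
    | zero => intro i j h; exact absurd h (Nat.not_lt_zero _)
    | succ k ih =>
      intro i j h
      rw [pow_succ', hP.block_mul]
      refine Finset.sum_eq_zero fun l _ => ?_
      by_cases h1 : s i l
      · have hlt : (Finset.univ.filter (fun m => s l m)).card <
            (Finset.univ.filter (fun m => s i m)).card := by
          apply Finset.card_lt_card
          rw [Finset.ssubset_iff_of_subset]
          · exact ⟨l, by simp [h1], by simp [hi l]⟩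
          · intro m hm
            simp only [Finset.mem_filter, Finset.mem_univ, true_and] at hm ⊢
            exact hs i l m h1 hm
        rw [ih l j (by omega), mul_zero]
      · rw [hT i l h1, zero_mul]
  apply hP.ext
  intro i j
  rw [key (Fintype.card ι + 1) i j (Nat.lt_succ_of_le (Finset.card_le_univ _))]
  simp

/-- the inverse of a unipotent as a polynomial in it -/
noncomputable def unipInv (ι : Type*) [Fintype ι] (T : R) : R :=
  ∑ k ∈ Finset.range (Fintype.card ι + 1), (1 - T) ^ k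

lemma Unip.mul_unipInv (hP : IsGrading P) (hs : ∀ i j k, s i j → s j k → s i k)
    (hi : ∀ i, ¬ s i i) {T : R} (hT : Unip P s T) : T * unipInv ι T = 1 := by
  have h0 := (hT.supp hP hi).pow_zero_of_card hP hs hi
  have h := mul_neg_geom_sum (1 - T) (Fintype.card ι + 1)
  rw [h0, sub_zero, sub_sub_cancel] at h
  exact h

lemma Unip.unipInv_mul (hP : IsGrading P) (hs : ∀ i j k, s i j → s j k → s i k)
    (hi : ∀ i, ¬ s i i) {T : R} (hT : Unip P s T) : unipInv ι T * T = 1 := by
  have h0 := (hT.supp hP hi).pow_zero_of_card hP hs hi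
  have h := geom_sum_mul_neg (1 - T) (Fintype.card ι + 1)
  rw [h0, sub_zero, sub_sub_cancel] at h
  exact h

lemma Unip.isUnit (hP : IsGrading P) (hs : ∀ i j k, s i j → s j k → s i k)
    (hi : ∀ i, ¬ s i i) {T : R} (hT : Unip P s T) : IsUnit T :=
  ⟨⟨T, unipInv ι T, hT.mul_unipInv hP hs hi, hT.unipInv_mul hP hs hi⟩, rfl⟩

lemma Unip.inverse_eq (hP : IsGrading P) (hs : ∀ i j k, s i j → s j k → s i k)
    (hi : ∀ i, ¬ s i i) {T : R} (hT : Unip P s T) : Ring.inverse T = unipInv ι T := by
  let u : Rˣ := ⟨T, unipInv ι T, hT.mul_unipInv hP hs hi, hT.unipInv_mul hP hs hi⟩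
  have h : Ring.inverse (u : R) = ((u⁻¹ : Rˣ) : R) := Ring.inverse_unit u
  exact h

lemma Unip.unipInv_unip (hP : IsGrading P) (hs : ∀ i j k, s i j → s j k → s i k)
    (hi : ∀ i, ¬ s i i) {T : R} (hT : Unip P s T) : Unip P s (unipInv ι T) := by
  have h1 : Supp P s (1 - T) := hT.supp hP hi
  have hpow : ∀ k : ℕ, Supp P s ((1 - T) ^ (k + 1)) := by
    intro k
    induction k with
    | zero => simpa using h1
    | succ k ih => rw [pow_succ]; exact ih.mul hP hs h1
  have h2 : unipInv ι T = 1 + ∑ k ∈ Finset.range (Fintype.card ι), (1 - T) ^ (k + 1) := by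
    rw [unipInv, Finset.sum_range_succ', pow_zero, add_comm]
  rw [h2]
  apply Supp.unip hP hi
  intro i j hn
  rw [Finset.mul_sum, Finset.sum_mul]
  exact Finset.sum_eq_zero fun k _ => hpow k i j hn

lemma Unip.units_inv (hP : IsGrading P) (hs : ∀ i j k, s i j → s j k → s i k)
    (hi : ∀ i, ¬ s i i) {T : Rˣ} (hT : Unip P s (T : R)) : Unip P s ((T⁻¹ : Rˣ) : R) := by
  have h : ((T⁻¹ : Rˣ) : R) = unipInv ι (T : R) := by
    rw [← Ring.inverse_unit, hT.inverse_eq hP hs hi]
  rw [h]
  exact hT.unipInv_unip hP hs hi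

/-- conjugation by a block diagonal unit preserves unipotents -/
lemma Unip.conj {T : R} (hT : Unip P s T) {l : Rˣ} (hl : Diag P (l : R)) :
    Unip P s ((l : R) * T * ((l⁻¹ : Rˣ) : R)) := by
  have hl' : ∀ i, P i * ((l⁻¹ : Rˣ) : R) = ((l⁻¹ : Rˣ) : R) * P i := by
    intro i
    have := hl i
    calc P i * ((l⁻¹ : Rˣ) : R) = ((l⁻¹ : Rˣ) : R) * ((l : R) * P i) * ((l⁻¹ : Rˣ) : R) := by
          rw [← mul_assoc, Units.inv_mul, one_mul]
      _ = ((l⁻¹ : Rˣ) : R) * (P i * (l : R)) * ((l⁻¹ : Rˣ) : R) := by rw [this]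
      _ = ((l⁻¹ : Rˣ) : R) * P i := by rw [mul_assoc, mul_assoc, Units.mul_inv, mul_one]
  have key : ∀ i j, P i * ((l : R) * T * ((l⁻¹ : Rˣ) : R)) * P j =
      (l : R) * (P i * T * P j) * ((l⁻¹ : Rˣ) : R) := by
    intro i j
    calc P i * ((l : R) * T * ((l⁻¹ : Rˣ) : R)) * P j
        = (P i * (l : R)) * T * (((l⁻¹ : Rˣ) : R) * P j) := by noncomm_ring
      _ = ((l : R) * P i) * T * (P j * ((l⁻¹ : Rˣ) : R)) := by rw [hl i, hl' j]
      _ = _ := by noncomm_ring
  constructor
  · intro i
    rw [key, hT.1, ← hl i, mul_assoc, Units.mul_inv, mul_one]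
  · intro i j hij hn
    rw [key, hT.2 i j hij hn, mul_zero, zero_mul]

lemma Unip.mono {s' : ι → ι → Prop} (h : ∀ i j, s i j → s' i j) {T : R} (hT : Unip P s T) :
    Unip P s' T :=
  ⟨hT.1, fun i j hij hn => hT.2 i j hij fun h' => hn (h i j h')⟩

lemma Diag.one : Diag P (1 : R) := fun i => by simp
lemma Diag.mul {S T : R} (hS : Diag P S) (hT : Diag P T) : Diag P (S * T) := fun i => by
  rw [← mul_assoc, hS i, mul_assoc, hT i, mul_assoc]
lemma Diag.inv {T : Rˣ} (hT : Diag P (T : R)) : Diag P ((T⁻¹ : Rˣ) : R) := fun i => by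
  calc P i * ((T⁻¹ : Rˣ) : R) = ((T⁻¹ : Rˣ) : R) * ((T : R) * P i) * ((T⁻¹ : Rˣ) : R) := by
        rw [← mul_assoc, Units.inv_mul, one_mul]
    _ = ((T⁻¹ : Rˣ) : R) * (P i * (T : R)) * ((T⁻¹ : Rˣ) : R) := by rw [hT i]
    _ = ((T⁻¹ : Rˣ) : R) * P i := by rw [mul_assoc, mul_assoc, Units.mul_inv, mul_one]

lemma IsGrading.diag (hP : IsGrading P) (k : ι) : Diag P (P k) := by
  classical
  intro i
  rw [hP.mul_ite, hP.mul_ite]
  by_cases h : i = k
  · subst h; rfl
  · rw [if_neg h, if_neg (Ne.symm h)]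

end Ring

/-! ### LU decomposition -/

section LU

variable {R : Type*} [Ring R] {ι : Type*} [Fintype ι] [LinearOrder ι] {P : ι → R}

/-- the projection on the blocks `≥ i` -/
def Qge (P : ι → R) (i : ι) : R := ∑ j ∈ univ.filter (fun j => i ≤ j), P j
/-- the projection on the blocks `< i` -/
def Qlt (P : ι → R) (i : ι) : R := ∑ j ∈ univ.filter (fun j => ¬ i ≤ j), P j

/-- compression to the blocks `≥ i`, extended by the identity -/
def Mi (P : ι → R) (i : ι) (T : R) : R := Qge P i * T * Qge P i + Qlt P i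

/-- all leading compressions are invertible -/
def Reg (P : ι → R) (T : R) : Prop := ∀ i, IsUnit (Mi P i T)

/-- the lower unipotent factor -/
noncomputable def yL (P : ι → R) (T : R) : R :=
  ∑ i, T * Qge P i * Ring.inverse (Mi P i T) * P i

lemma IsGrading.Q_add (hP : IsGrading P) (i : ι) : Qge P i + Qlt P i = 1 := by
  rw [Qge, Qlt, Finset.sum_filter_add_sum_filter_not, hP.sum_eq]

lemma IsGrading.P_Qge (hP : IsGrading P) (i j : ι) :
    P j * Qge P i = if i ≤ j then P j else 0 := by
  rw [Qge, Finset.mul_sum]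
  split_ifs with h
  · rw [Finset.sum_eq_single j]
    · exact hP.idem j
    · intro k _ hk; exact hP.orth j k (Ne.symm hk)
    · intro h'; simp [h] at h'
  · refine Finset.sum_eq_zero fun k hk => ?_
    simp only [Finset.mem_filter, Finset.mem_univ, true_and] at hk
    exact hP.orth j k fun e => h (e ▸ hk)

lemma IsGrading.Qge_P (hP : IsGrading P) (i j : ι) :
    Qge P i * P j = if i ≤ j then P j else 0 := by
  rw [Qge, Finset.sum_mul]
  split_ifs with h
  · rw [Finset.sum_eq_single j]
    · exact hP.idem j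
    · intro k _ hk; exact hP.orth k j hk
    · intro h'; simp [h] at h'
  · refine Finset.sum_eq_zero fun k hk => ?_
    simp only [Finset.mem_filter, Finset.mem_univ, true_and] at hk
    exact hP.orth k j fun e => h (e ▸ hk)

lemma IsGrading.P_Qlt (hP : IsGrading P) (i j : ι) :
    P j * Qlt P i = if i ≤ j then 0 else P j := by
  have h := congrArg (P j * ·) (hP.Q_add i)
  simp only [mul_add, mul_one] at h
  rw [hP.P_Qge] at h
  split_ifs at h ⊢ with h1
  · simpa using h
  · simpa using h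

lemma IsGrading.Qlt_P (hP : IsGrading P) (i j : ι) :
    Qlt P i * P j = if i ≤ j then 0 else P j := by
  have h := congrArg (· * P j) (hP.Q_add i)
  simp only [add_mul, one_mul] at h
  rw [hP.Qge_P] at h
  split_ifs at h ⊢ with h1
  · simpa using h
  · simpa using h

lemma IsGrading.Qge_idem (hP : IsGrading P) (i : ι) : Qge P i * Qge P i = Qge P i := by
  conv_lhs => rw [Qge, Finset.sum_mul]
  rw [Qge]
  refine Finset.sum_congr rfl fun j hj => ?_
  simp only [Finset.mem_filter, Finset.mem_univ, true_and] at hj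
  have := hP.P_Qge i j
  rw [if_pos hj] at this
  exact this

lemma IsGrading.Qge_Qlt (hP : IsGrading P) (i : ι) : Qge P i * Qlt P i = 0 := by
  have : Qlt P i = 1 - Qge P i := by rw [← hP.Q_add i]; abel
  rw [this, mul_sub, mul_one, hP.Qge_idem, sub_self]

lemma IsGrading.Qlt_Qge (hP : IsGrading P) (i : ι) : Qlt P i * Qge P i = 0 := by
  have : Qlt P i = 1 - Qge P i := by rw [← hP.Q_add i]; abel
  rw [this, sub_mul, one_mul, hP.Qge_idem, sub_self]

lemma IsGrading.Qlt_idem (hP : IsGrading P) (i : ι) : Qlt P i * Qlt P i = Qlt P i := by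
  have : Qlt P i = 1 - Qge P i := by rw [← hP.Q_add i]; abel
  rw [this, sub_mul, one_mul, mul_sub, mul_one, hP.Qge_idem, sub_self, sub_zero]

lemma IsGrading.Qge_Mi (hP : IsGrading P) (i : ι) (T : R) :
    Qge P i * Mi P i T = Qge P i * T * Qge P i := by
  rw [Mi, mul_add, hP.Qge_Qlt, add_zero, ← mul_assoc, ← mul_assoc, hP.Qge_idem]

lemma IsGrading.Mi_Qge (hP : IsGrading P) (i : ι) (T : R) :
    Mi P i T * Qge P i = Qge P i * T * Qge P i := by
  rw [Mi, add_mul, hP.Qlt_Qge, add_zero, mul_assoc, hP.Qge_idem]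

lemma IsGrading.Qge_comm_inverse (hP : IsGrading P) {i : ι} {T : R} (h : IsUnit (Mi P i T)) :
    Qge P i * Ring.inverse (Mi P i T) = Ring.inverse (Mi P i T) * Qge P i := by
  obtain ⟨u, hu⟩ := h
  have hc : Qge P i * (u : R) = (u : R) * Qge P i := by
    rw [hu, hP.Qge_Mi, hP.Mi_Qge]
  rw [← hu, Ring.inverse_unit]
  calc Qge P i * ((u⁻¹ : Rˣ) : R)
      = ((u⁻¹ : Rˣ) : R) * ((u : R) * Qge P i) * ((u⁻¹ : Rˣ) : R) := by
        rw [← mul_assoc, Units.inv_mul, one_mul]
    _ = ((u⁻¹ : Rˣ) : R) * (Qge P i * (u : R)) * ((u⁻¹ : Rˣ) : R) := by rw [hc]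
    _ = ((u⁻¹ : Rˣ) : R) * Qge P i := by rw [mul_assoc, mul_assoc, Units.mul_inv, mul_one]

lemma yL_P (hP : IsGrading P) (T : R) (i : ι) :
    yL P T * P i = T * Qge P i * Ring.inverse (Mi P i T) * P i := by
  rw [yL, Finset.sum_mul, Finset.sum_eq_single i]
  · rw [mul_assoc, hP.idem]
  · intro k _ hk; rw [mul_assoc, hP.orth k i hk, mul_zero]
  · intro h; exact absurd (Finset.mem_univ i) h

lemma Qge_yL_P (hP : IsGrading P) {T : R} {i : ι} (h : IsUnit (Mi P i T)) :
    Qge P i * yL P T * P i = P i := by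
  rw [mul_assoc, yL_P hP]
  calc Qge P i * (T * Qge P i * Ring.inverse (Mi P i T) * P i)
      = (Qge P i * T * Qge P i) * Ring.inverse (Mi P i T) * P i := by noncomm_ring
    _ = Qge P i * (Mi P i T * Ring.inverse (Mi P i T)) * P i := by
        rw [← hP.Qge_Mi, ← mul_assoc]
    _ = P i := by
        rw [Ring.mul_inverse_cancel _ h, mul_one, hP.Qge_P, if_pos le_rfl]

/-- the factor `y` is lower unipotent -/
lemma yL_unip (hP : IsGrading P) {T : R} (h : Reg P T) :
    Unip P (fun i j => i < j) (yL P T) := by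
  have key : ∀ i j, j ≤ i → P i * yL P T * P j = P i * P j := by
    intro i j hij
    have h1 := Qge_yL_P hP (h j)
    calc P i * yL P T * P j = (P i * Qge P j) * yL P T * P j := by
          rw [hP.P_Qge, if_pos hij]
      _ = P i * (Qge P j * yL P T * P j) := by noncomm_ring
      _ = P i * P j := by rw [h1]
  constructor
  · intro i; rw [key i i le_rfl, hP.idem]
  · intro i j hij hn
    rw [key i j (not_lt.mp hn), hP.orth i j hij]

lemma lt_trans' : ∀ i j k : ι, i < j → j < k → i < k := fun _ _ _ => lt_trans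
lemma gt_trans' : ∀ i j k : ι, j < i → k < j → k < i := fun _ _ _ h h' => lt_trans h' h

lemma IsGrading.Qge_eq_sum (i : ι) :
    Qge P i = ∑ j ∈ univ.filter (fun j => i ≤ j), P j := rfl

/-- a map which is lower block triangular satisfies `Q y = Q y Q` -/
lemma Unip.Qge_mul (hP : IsGrading P) {y : R} (hy : Unip P (fun i j => i < j) y) (i : ι) :
    Qge P i * y * Qlt P i = 0 := by
  rw [Qge, Qlt, Finset.sum_mul, Finset.sum_mul]
  refine Finset.sum_eq_zero fun j hj => ?_
  rw [Finset.mul_sum]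
  refine Finset.sum_eq_zero fun k hk => ?_
  simp only [Finset.mem_filter, Finset.mem_univ, true_and, not_le] at hj hk
  have : k < j := lt_of_lt_of_le hk hj
  exact hy.2 j k this.ne' (not_lt.mpr this.le)

lemma Unip.Qlt_mul (hP : IsGrading P) {x : R} (hx : Unip P (fun i j => j < i) x) (i : ι) :
    Qlt P i * x * Qge P i = 0 := by
  rw [Qge, Qlt, Finset.sum_mul, Finset.sum_mul]
  refine Finset.sum_eq_zero fun j hj => ?_
  rw [Finset.mul_sum]
  refine Finset.sum_eq_zero fun k hk => ?_
  simp only [Finset.mem_filter, Finset.mem_univ, true_and, not_le] at hj hk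
  have : j < k := lt_of_lt_of_le hj hk
  exact hx.2 j k this.ne (not_lt.mpr this.le)

/-- compressions of a lower unipotent are unipotent -/
lemma Unip.Mi_unip (hP : IsGrading P) {s : ι → ι → Prop} {y : R} (hy : Unip P s y) (i : ι) :
    Unip P s (Mi P i y) := by
  have key : ∀ a b, P a * Mi P i y * P b =
      if i ≤ a then (if i ≤ b then P a * y * P b else 0) else (if i ≤ b then 0 else P a * P b) := by
    intro a b
    have e : P a * Mi P i y * P b = (P a * Qge P i) * y * (Qge P i * P b) +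
        (P a * Qlt P i) * P b := by
      rw [Mi]; noncomm_ring
    rw [e, hP.P_Qge, hP.Qge_P, hP.P_Qlt]
    split_ifs with h1 h2 h2
    · simp
    · simp
    · simp only [zero_mul, zero_add]
      exact hP.orth a b fun h => h1 (h ▸ h2)
    · simp
  constructor
  · intro a
    rw [key]
    split_ifs with h
    · exact hy.1 a
    · exact hP.idem a
  · intro a b hab hn
    rw [key]
    split_ifs with h1 h2 h2
    · exact hy.2 a b hab hn
    · rfl
    · rfl
    · exact hP.orth a b hab

lemma IsGrading.diag_Qge (hP : IsGrading P) {d : R} (hd : Diag P d) (i : ι) :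
    Qge P i * d = d * Qge P i := by
  rw [Qge, Finset.sum_mul, Finset.mul_sum]
  exact Finset.sum_congr rfl fun j _ => hd j

lemma IsGrading.diag_Qlt (hP : IsGrading P) {d : R} (hd : Diag P d) (i : ι) :
    Qlt P i * d = d * Qlt P i := by
  rw [Qlt, Finset.sum_mul, Finset.mul_sum]
  exact Finset.sum_congr rfl fun j _ => hd j

lemma Diag.Mi_isUnit (hP : IsGrading P) {d : Rˣ} (hd : Diag P (d : R)) (i : ι) :
    IsUnit (Mi P i (d : R)) := by
  have hd' := hd.inv
  have e1 : Mi P i (d : R) = d * Qge P i + Qlt P i := by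
    rw [Mi, hP.diag_Qge hd, mul_assoc, hP.Qge_idem]
  have e2 : Mi P i ((d⁻¹ : Rˣ) : R) = ((d⁻¹ : Rˣ) : R) * Qge P i + Qlt P i := by
    rw [Mi, hP.diag_Qge hd', mul_assoc, hP.Qge_idem]
  have h1 : Mi P i (d : R) * Mi P i ((d⁻¹ : Rˣ) : R) = 1 := by
    rw [e1, e2]
    have a1 : (d : R) * Qge P i * (((d⁻¹ : Rˣ) : R) * Qge P i) = Qge P i := by
      rw [← hP.diag_Qge hd']
      calc (d : R) * Qge P i * (Qge P i * ((d⁻¹ : Rˣ) : R))
          = (d : R) * (Qge P i * Qge P i) * ((d⁻¹ : Rˣ) : R) := by noncomm_ring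
        _ = Qge P i := by rw [hP.Qge_idem, ← hP.diag_Qge hd, mul_assoc, Units.mul_inv, mul_one]
    have a2 : (d : R) * Qge P i * Qlt P i = 0 := by rw [mul_assoc, hP.Qge_Qlt, mul_zero]
    have a3 : Qlt P i * (((d⁻¹ : Rˣ) : R) * Qge P i) = 0 := by
      rw [← hP.diag_Qge hd', ← mul_assoc, hP.Qlt_Qge, zero_mul]
    rw [add_mul, mul_add, mul_add, a1, a2, a3, hP.Qlt_idem, add_zero, zero_add, hP.Q_add]
  have h2 : Mi P i ((d⁻¹ : Rˣ) : R) * Mi P i (d : R) = 1 := by
    rw [e1, e2]
    have a1 : ((d⁻¹ : Rˣ) : R) * Qge P i * ((d : R) * Qge P i) = Qge P i := by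
      rw [← hP.diag_Qge hd]
      calc ((d⁻¹ : Rˣ) : R) * Qge P i * (Qge P i * (d : R))
          = ((d⁻¹ : Rˣ) : R) * (Qge P i * Qge P i) * (d : R) := by noncomm_ring
        _ = Qge P i := by rw [hP.Qge_idem, ← hP.diag_Qge hd', mul_assoc, Units.inv_mul, mul_one]
    have a2 : ((d⁻¹ : Rˣ) : R) * Qge P i * Qlt P i = 0 := by
      rw [mul_assoc, hP.Qge_Qlt, mul_zero]
    have a3 : Qlt P i * ((d : R) * Qge P i) = 0 := by
      rw [← hP.diag_Qge hd, ← mul_assoc, hP.Qlt_Qge, zero_mul]
    rw [add_mul, mul_add, mul_add, a1, a2, a3, hP.Qlt_idem, add_zero, zero_add, hP.Q_add]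
  exact ⟨⟨_, _, h1, h2⟩, rfl⟩

/-- `M_i` is multiplicative on products `y d x` -/
lemma Mi_mul (hP : IsGrading P) {y d x : R} (hy : Unip P (fun i j => i < j) y)
    (hd : Diag P d) (hx : Unip P (fun i j => j < i) x) (i : ι) :
    Mi P i (y * d * x) = Mi P i y * Mi P i d * Mi P i x := by
  have h1 : Qge P i * y = Qge P i * y * Qge P i := by
    have := hy.Qge_mul hP i
    calc Qge P i * y = Qge P i * y * (Qge P i + Qlt P i) := by rw [hP.Q_add, mul_one]
      _ = _ := by rw [mul_add, this, add_zero]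
  have h2 : x * Qge P i = Qge P i * x * Qge P i := by
    have := hx.Qlt_mul hP i
    calc x * Qge P i = (Qge P i + Qlt P i) * x * Qge P i := by rw [hP.Q_add, one_mul]
      _ = _ := by rw [add_mul, add_mul, this, add_zero]
  have hQ := hP.Qge_idem i
  have hd1 := hP.diag_Qge hd i
  have e1 : Qge P i * (y * d * x) * Qge P i =
      (Qge P i * y * Qge P i) * (Qge P i * d * Qge P i) * (Qge P i * x * Qge P i) := by
    calc Qge P i * (y * d * x) * Qge P i = (Qge P i * y) * d * (x * Qge P i) := by noncomm_ring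
      _ = (Qge P i * y * Qge P i) * d * (Qge P i * x * Qge P i) := by rw [← h1, ← h2]
      _ = (Qge P i * y * (Qge P i * Qge P i)) * d * ((Qge P i * Qge P i) * x * Qge P i) := by
          rw [hQ]
      _ = _ := by noncomm_ring
  have o1 := hP.Qge_Qlt i
  have o2 := hP.Qlt_Qge i
  have o3 := hP.Qlt_idem i
  simp only [Mi]
  rw [e1]
  set A := Qge P i * y * Qge P i with hA
  set B := Qge P i * d * Qge P i with hB
  set C := Qge P i * x * Qge P i with hC
  set L := Qlt P i with hL
  have hAL : A * L = 0 := by rw [hA, mul_assoc, o1, mul_zero]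
  have hLB : L * B = 0 := by rw [hB, ← mul_assoc, ← mul_assoc, o2, zero_mul, zero_mul]
  have hBL : B * L = 0 := by rw [hB, mul_assoc, o1, mul_zero]
  have hLC : L * C = 0 := by rw [hC, ← mul_assoc, ← mul_assoc, o2, zero_mul, zero_mul]
  have : (A + L) * (B + L) * (C + L) = A * B * C + L := by
    have s1 : (A + L) * (B + L) = A * B + L := by
      rw [add_mul, mul_add, mul_add, hAL, hLB, o3, add_zero, zero_add]
    have s2 : A * B * L = 0 := by rw [mul_assoc, hBL, mul_zero]
    rw [s1, add_mul, mul_add, mul_add, s2, hLC, o3, add_zero, zero_add]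
  rw [this]

/-- uniqueness of the lower factor -/
lemma yL_eq (hP : IsGrading P) {y x : R} {d : Rˣ} (hy : Unip P (fun i j => i < j) y)
    (hd : Diag P (d : R)) (hx : Unip P (fun i j => j < i) x) :
    Reg P (y * d * x) ∧ yL P (y * d * x) = y := by
  have hreg : Reg P (y * d * x) := by
    intro i
    rw [Mi_mul hP hy hd hx]
    have h1 := (hy.Mi_unip hP i).isUnit hP lt_trans' (fun i => lt_irrefl i)
    have h2 := (hx.Mi_unip hP i).isUnit hP gt_trans' (fun i => lt_irrefl i)
    exact (h1.mul (Diag.Mi_isUnit hP hd i)).mul h2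
  refine ⟨hreg, ?_⟩
  set T := y * (d : R) * x with hT
  have hxi := hx.mul_unipInv hP gt_trans' (fun i => lt_irrefl i)
  have hxu := hx.unipInv_unip hP gt_trans' (fun i => lt_irrefl i)
  rw [hP.mul_sum (yL P T), hP.mul_sum y]
  refine Finset.sum_congr rfl fun i _ => ?_
  rw [yL_P hP]
  set u : R := unipInv ι x * ((d⁻¹ : Rˣ) : R) * P i with hu
  have hu1 : T * u = y * P i := by
    calc T * u = y * (d : R) * (x * unipInv ι x) * ((d⁻¹ : Rˣ) : R) * P i := by
          rw [hT, hu]; noncomm_ring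
      _ = y * P i := by rw [hxi, mul_one, mul_assoc y, Units.mul_inv, mul_one]
  have hd' := hd.inv
  have hu2 : Qlt P i * u = 0 := by
    have h := hxu.Qlt_mul hP i
    calc Qlt P i * u = Qlt P i * unipInv ι x * (((d⁻¹ : Rˣ) : R) * P i) := by
          rw [hu]; noncomm_ring
      _ = Qlt P i * unipInv ι x * (Qge P i * P i * ((d⁻¹ : Rˣ) : R)) := by
          rw [← hd' i, hP.Qge_P, if_pos le_rfl]
      _ = (Qlt P i * unipInv ι x * Qge P i) * (P i * ((d⁻¹ : Rˣ) : R)) := by noncomm_ring
      _ = 0 := by rw [h, zero_mul]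
  have hu3 : Qge P i * u = u := by
    calc Qge P i * u = Qge P i * u + Qlt P i * u := by rw [hu2, add_zero]
      _ = u := by rw [← add_mul, hP.Q_add, one_mul]
  have hu4 : Mi P i T * u = P i := by
    have hyP : Qge P i * y * P i = P i := by
      have h1 := (hy.Qge_mul hP i)
      rw [Qge, Finset.sum_mul, Finset.sum_mul, Finset.sum_eq_single i]
      · exact hy.1 i
      · intro k hk hki
        simp only [Finset.mem_filter, Finset.mem_univ, true_and] at hk
        exact hy.2 k i hki (not_lt.mpr hk)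
      · intro h; simp at h
    calc Mi P i T * u = Qge P i * T * (Qge P i * u) + Qlt P i * u := by
          rw [Mi, add_mul]; noncomm_ring
      _ = Qge P i * (T * u) := by rw [hu3, hu2, add_zero, mul_assoc]
      _ = P i := by rw [hu1, ← mul_assoc, hyP]
  have hu5 : Ring.inverse (Mi P i T) * P i = u := by
    rw [← hu4, ← mul_assoc, Ring.inverse_mul_cancel _ (hreg i), one_mul]
  calc T * Qge P i * Ring.inverse (Mi P i T) * P i = T * (Qge P i * (Ring.inverse (Mi P i T) * P i)) := by
        noncomm_ring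
    _ = y * P i := by rw [hu5, hu3, hu1]

/-- `y⁻¹ T` is upper block triangular -/
lemma Qlt_yinv_T (hP : IsGrading P) {T : R} (h : Reg P T) (i : ι) :
    Qlt P i * (Ring.inverse (yL P T) * T) * Qge P i = 0 := by
  set y := yL P T with hy
  have hyu := yL_unip hP h
  rw [← hy] at hyu
  have hQ := hP.Qge_idem i
  set M := Mi P i T with hM
  -- `y Q = T Q Z` with `Z = Q Z`
  set Z : R := ∑ j ∈ univ.filter (fun j => i ≤ j), Qge P j * Ring.inverse (Mi P j T) * P j with hZ
  have hQQ : ∀ j, i ≤ j → Qge P i * Qge P j = Qge P j := by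
    intro j hij
    conv_lhs => rw [Qge.eq_1 P j, Finset.mul_sum]
    conv_rhs => rw [Qge]
    refine Finset.sum_congr rfl fun k hk => ?_
    simp only [Finset.mem_filter, Finset.mem_univ, true_and] at hk
    rw [hP.Qge_P, if_pos (hij.trans hk)]
  have hQZ : Qge P i * Z = Z := by
    rw [hZ, Finset.mul_sum]
    refine Finset.sum_congr rfl fun j hj => ?_
    simp only [Finset.mem_filter, Finset.mem_univ, true_and] at hj
    rw [← mul_assoc, ← mul_assoc, hQQ j hj]
  have hyQ : y * Qge P i = T * Z := by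
    conv_lhs => rw [Qge, Finset.mul_sum]
    rw [hZ, Finset.mul_sum]
    refine Finset.sum_congr rfl fun j hj => ?_
    rw [hy, yL_P hP]; noncomm_ring
  -- `T Q M⁻¹ (Q y Q) = y Q`
  have hu := h i
  have hcomm := hP.Qge_comm_inverse hu
  have e1 : T * Qge P i * Ring.inverse M * (Qge P i * y * Qge P i) = y * Qge P i := by
    have : Qge P i * y * Qge P i = M * Z := by
      calc Qge P i * y * Qge P i = Qge P i * T * Z := by rw [mul_assoc, hyQ, mul_assoc]
        _ = Qge P i * T * (Qge P i * Z) + Qlt P i * Z := by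
            have h0 : Qlt P i * Z = 0 := by
              rw [← hQZ, ← mul_assoc, hP.Qlt_Qge, zero_mul]
            rw [h0, add_zero, hQZ]
        _ = M * Z := by rw [hM, Mi]; noncomm_ring
    rw [this]
    calc T * Qge P i * Ring.inverse M * (M * Z)
        = T * Qge P i * (Ring.inverse M * M) * Z := by noncomm_ring
      _ = T * (Qge P i * Z) := by rw [Ring.inverse_mul_cancel _ hu, mul_one, mul_assoc]
      _ = y * Qge P i := by rw [hQZ, hyQ]
  -- `(Q y Q + Q')` is a unit
  have hYu := (hyu.Mi_unip hP i).isUnit hP lt_trans' (fun i => lt_irrefl i)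
  set Y := Mi P i y with hYdef
  have hYQ : Y * Qge P i = Qge P i * y * Qge P i := hP.Mi_Qge i y
  have e2 : T * Qge P i = y * Qge P i * Ring.inverse Y * M * Qge P i := by
    -- from e1: T Q M⁻¹ Y Q = y Q
    have e3 : T * Qge P i * Ring.inverse M * Qge P i = y * Qge P i * Ring.inverse Y * Qge P i := by
      have hYc := hP.Qge_comm_inverse hYu
      calc T * Qge P i * Ring.inverse M * Qge P i
          = T * Qge P i * Ring.inverse M * ((Y * Ring.inverse Y) * Qge P i) := by
            rw [Ring.mul_inverse_cancel _ hYu, one_mul]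
        _ = T * Qge P i * Ring.inverse M * (Y * (Ring.inverse Y * Qge P i)) := by noncomm_ring
        _ = T * Qge P i * Ring.inverse M * (Y * (Qge P i * Ring.inverse Y)) := by
            rw [hYdef, ← hYc]
        _ = T * Qge P i * Ring.inverse M * ((Y * Qge P i) * Ring.inverse Y) := by noncomm_ring
        _ = T * Qge P i * Ring.inverse M * ((Y * (Qge P i * Qge P i)) * Ring.inverse Y) := by
            rw [hQ]
        _ = (T * Qge P i * Ring.inverse M * (Qge P i * y * Qge P i)) *
              (Qge P i * Ring.inverse Y) := by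
            rw [← mul_assoc Y, hYQ]; noncomm_ring
        _ = y * Qge P i * (Qge P i * Ring.inverse Y) := by rw [e1]
        _ = y * (Qge P i * (Qge P i * Ring.inverse Y)) := by noncomm_ring
        _ = y * (Qge P i * (Ring.inverse Y * Qge P i)) := by rw [hYdef, hYc]
        _ = y * Qge P i * Ring.inverse Y * Qge P i := by noncomm_ring
    calc T * Qge P i = T * (Qge P i * Qge P i) := by rw [hQ]
      _ = T * Qge P i * ((Ring.inverse M * M) * Qge P i) := by
          rw [Ring.inverse_mul_cancel _ hu, one_mul, mul_assoc]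
      _ = T * (Qge P i * Ring.inverse M) * (M * Qge P i) := by noncomm_ring
      _ = T * ((Qge P i * Qge P i) * Ring.inverse M) * (M * Qge P i) := by rw [hQ]
      _ = T * (Qge P i * (Qge P i * Ring.inverse M)) * (M * Qge P i) := by noncomm_ring
      _ = T * (Qge P i * (Ring.inverse M * Qge P i)) * (M * Qge P i) := by rw [hM, hcomm]
      _ = (T * Qge P i * Ring.inverse M * Qge P i) * (M * Qge P i) := by noncomm_ring
      _ = (y * Qge P i * Ring.inverse Y * Qge P i) * (M * Qge P i) := by rw [e3]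
      _ = y * Qge P i * Ring.inverse Y * (Qge P i * M * Qge P i) := by noncomm_ring
      _ = y * Qge P i * Ring.inverse Y * (M * Qge P i) := by
          rw [hM, hP.Qge_Mi, hP.Mi_Qge, mul_assoc (Qge P i * T), hQ]
      _ = _ := by noncomm_ring
  have hyunit := hyu.isUnit hP lt_trans' (fun i => lt_irrefl i)
  calc Qlt P i * (Ring.inverse y * T) * Qge P i
      = Qlt P i * Ring.inverse y * (T * Qge P i) := by noncomm_ring
    _ = Qlt P i * Ring.inverse y * (y * Qge P i * Ring.inverse Y * M * Qge P i) := by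
        conv_lhs => rw [e2]
    _ = Qlt P i * (Ring.inverse y * y) * Qge P i * (Ring.inverse Y * M * Qge P i) := by
        noncomm_ring
    _ = 0 := by rw [Ring.inverse_mul_cancel _ hyunit, mul_one, hP.Qlt_Qge, zero_mul]

end LU

end Pool.Agent.Lib.MP_d9b062_al

end

/-! ## from `MP_d9b062_al.LU` -/

section
/-!
# Block LU decomposition in a star ring
-/

set_option linter.unusedSectionVars false
set_option linter.unusedVariables false
set_option linter.unusedSimpArgs false

namespace Pool.Agent.Lib.MP_d9b062_al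

open Finset

section

variable {R : Type*} [Ring R] {ι : Type*} [Fintype ι] {P : ι → R}

/-- a block triangular element of both types is block diagonal -/
lemma IsGrading.diag_of (hP : IsGrading P) {T : R} (h : ∀ i j, i ≠ j → P i * T * P j = 0) :
    Diag P T := by
  intro i
  have h1 : P i * T = P i * T * P i := by
    conv_lhs => rw [hP.mul_sum (P i * T)]
    rw [Finset.sum_eq_single i]
    · intro j _ hj; exact h i j hj.symm
    · intro hi; exact absurd (Finset.mem_univ i) hi
  have h2 : T * P i = P i * T * P i := by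
    conv_lhs => rw [hP.sum_mul (T * P i)]
    rw [Finset.sum_eq_single i]
    · rw [← mul_assoc]
    · intro j _ hj; rw [← mul_assoc]; exact h j i hj
    · intro hi; exact absurd (Finset.mem_univ i) hi
  rw [h1, h2]

lemma Diag.block (hP : IsGrading P) {T : R} (hT : Diag P T) {i j : ι} (hij : i ≠ j) :
    P i * T * P j = 0 := by
  rw [hT i, mul_assoc, hP.orth i j hij, mul_zero]

lemma Diag.sum {κ : Type*} (s : Finset κ) {f : κ → R} (h : ∀ k ∈ s, Diag P (f k)) :
    Diag P (∑ k ∈ s, f k) := fun i => by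
  rw [Finset.mul_sum, Finset.sum_mul]
  exact Finset.sum_congr rfl fun k hk => h k hk i

lemma Diag.smul {A : Type*} [CommSemiring A] [Algebra A R] (a : A) {T : R} (h : Diag P T) :
    Diag P (a • T) := fun i => by
  rw [mul_smul_comm, smul_mul_assoc, h i]

end

section Star

variable {R : Type*} [Ring R] [StarRing R] {ι : Type*} [Fintype ι] [LinearOrder ι] {P : ι → R}

/-- the upper unipotent factor -/
noncomputable def xU (P : ι → R) (T : R) : R := star (yL P (star T))

/-- the block diagonal factor -/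
noncomputable def dD (P : ι → R) (T : R) : R :=
  Ring.inverse (yL P T) * T * Ring.inverse (xU P T)

lemma Qge_star (hs : ∀ i, star (P i) = P i) (i : ι) : star (Qge P i) = Qge P i := by
  rw [Qge, star_sum]; exact Finset.sum_congr rfl fun j _ => hs j

lemma Qlt_star (hs : ∀ i, star (P i) = P i) (i : ι) : star (Qlt P i) = Qlt P i := by
  rw [Qlt, star_sum]; exact Finset.sum_congr rfl fun j _ => hs j

lemma Mi_star (hs : ∀ i, star (P i) = P i) (i : ι) (T : R) :
    star (Mi P i T) = Mi P i (star T) := by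
  rw [Mi, Mi, star_add, star_mul, star_mul, Qge_star hs, Qlt_star hs, mul_assoc]

lemma Reg.star (hs : ∀ i, star (P i) = P i) {T : R} (h : Reg P T) : Reg P (star T) := by
  intro i
  rw [← Mi_star hs]
  exact (h i).star

lemma Unip.star (hs : ∀ i, star (P i) = P i) {s : ι → ι → Prop} {T : R} (h : Unip P s T) :
    Unip P (fun i j => s j i) (star T) := by
  constructor
  · intro i
    have := congrArg Star.star (h.1 i)
    rw [star_mul, star_mul, hs, ← mul_assoc] at this
    exact this
  · intro i j hij hn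
    have := congrArg Star.star (h.2 j i hij.symm hn)
    rw [star_mul, star_mul, hs, hs, ← mul_assoc, star_zero] at this
    exact this

lemma Diag.star (hs : ∀ i, star (P i) = P i) {T : R} (h : Diag P T) : Diag P (star T) := by
  intro i
  have := congrArg Star.star (h i)
  rw [star_mul, star_mul, hs] at this
  exact this.symm

lemma Supp.star (hs : ∀ i, star (P i) = P i) {s : ι → ι → Prop} {T : R} (h : Supp P s T) :
    Supp P (fun i j => s j i) (star T) := by
  intro i j hn
  have := congrArg Star.star (h j i hn)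
  rw [star_mul, star_mul, hs, hs, ← mul_assoc, star_zero] at this
  exact this

lemma xU_unip (hP : IsGrading P) (hs : ∀ i, star (P i) = P i) {T : R} (h : Reg P T) :
    Unip P (fun i j => j < i) (xU P T) :=
  (yL_unip hP (h.star hs)).star hs

lemma yL_isUnit (hP : IsGrading P) {T : R} (h : Reg P T) : IsUnit (yL P T) :=
  (yL_unip hP h).isUnit hP lt_trans' (fun i => lt_irrefl i)

lemma xU_isUnit (hP : IsGrading P) (hs : ∀ i, star (P i) = P i) {T : R} (h : Reg P T) :
    IsUnit (xU P T) :=
  (xU_unip hP hs h).isUnit hP gt_trans' (fun i => lt_irrefl i)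

lemma supp_le_of_unip (hP : IsGrading P) {x : R} (hx : Unip P (fun i j => j < i) x) :
    Supp P (fun i j => j ≤ i) x := by
  intro i j hn
  have : i < j := not_le.mp hn
  exact hx.2 i j this.ne (not_lt.mpr this.le)

lemma supp_ge_of_unip (hP : IsGrading P) {x : R} (hx : Unip P (fun i j => i < j) x) :
    Supp P (fun i j => i ≤ j) x := by
  intro i j hn
  have : j < i := not_le.mp hn
  exact hx.2 i j this.ne' (not_lt.mpr this.le)

lemma le_trans' : ∀ i j k : ι, i ≤ j → j ≤ k → i ≤ k := fun _ _ _ => le_trans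
lemma ge_trans' : ∀ i j k : ι, j ≤ i → k ≤ j → k ≤ i := fun _ _ _ h h' => le_trans h' h

/-- `y⁻¹ T` is upper block triangular -/
lemma supp_yinv_T (hP : IsGrading P) {T : R} (h : Reg P T) :
    Supp P (fun i j => j ≤ i) (Ring.inverse (yL P T) * T) := by
  intro i j hn
  have hij : i < j := not_le.mp hn
  have h1 := Qlt_yinv_T hP h j
  calc P i * (Ring.inverse (yL P T) * T) * P j
      = (P i * Qlt P j) * (Ring.inverse (yL P T) * T) * (Qge P j * P j) := by
        rw [hP.P_Qlt, if_neg (not_le.mpr hij), hP.Qge_P, if_pos le_rfl]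
    _ = P i * (Qlt P j * (Ring.inverse (yL P T) * T) * Qge P j) * P j := by noncomm_ring
    _ = 0 := by rw [h1, mul_zero, zero_mul]

lemma inverse_star {T : R} (h : IsUnit T) : Ring.inverse (star T) = star (Ring.inverse T) := by
  obtain ⟨u, rfl⟩ := h
  rw [Ring.inverse_unit]
  have : star (u : R) = ((star u : Rˣ) : R) := rfl
  rw [this, Ring.inverse_unit]
  rfl

/-- `T x⁻¹` is lower block triangular -/
lemma supp_T_xinv (hP : IsGrading P) (hs : ∀ i, star (P i) = P i) {T : R} (h : Reg P T) :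
    Supp P (fun i j => i ≤ j) (T * Ring.inverse (xU P T)) := by
  have h1 := (supp_yinv_T hP (h.star hs)).star hs
  have hu := yL_isUnit hP (h.star hs)
  rw [star_mul, star_star, ← inverse_star hu] at h1
  exact h1

lemma dD_diag (hP : IsGrading P) (hs : ∀ i, star (P i) = P i) {T : R} (h : Reg P T) :
    Diag P (dD P T) := by
  have hx := xU_unip hP hs h
  have hy := yL_unip hP h
  have hxi := hx.unipInv_unip hP gt_trans' (fun i => lt_irrefl i)
  have hyi := hy.unipInv_unip hP lt_trans' (fun i => lt_irrefl i)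
  rw [← hx.inverse_eq hP gt_trans' (fun i => lt_irrefl i)] at hxi
  rw [← hy.inverse_eq hP lt_trans' (fun i => lt_irrefl i)] at hyi
  have h1 : Supp P (fun i j => j ≤ i) (dD P T) :=
    (supp_yinv_T hP h).mul hP ge_trans' (supp_le_of_unip hP hxi)
  have h2 : Supp P (fun i j => i ≤ j) (dD P T) := by
    rw [dD, mul_assoc]
    exact (supp_ge_of_unip hP hyi).mul hP le_trans' (supp_T_xinv hP hs h)
  apply hP.diag_of
  intro i j hij
  rcases lt_or_gt_of_ne hij with h3 | h3
  · exact h1 i j (not_le.mpr h3)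
  · exact h2 i j (not_le.mpr h3)

lemma LU_eq (hP : IsGrading P) (hs : ∀ i, star (P i) = P i) {T : R} (h : Reg P T) :
    T = yL P T * dD P T * xU P T := by
  have h1 := yL_isUnit hP h
  have h2 := xU_isUnit hP hs h
  calc T = (yL P T * Ring.inverse (yL P T)) * T * (Ring.inverse (xU P T) * xU P T) := by
        rw [Ring.mul_inverse_cancel _ h1, Ring.inverse_mul_cancel _ h2, one_mul, mul_one]
    _ = _ := by rw [dD]; noncomm_ring

/-- uniqueness of all three factors -/
lemma LU_unique (hP : IsGrading P) (hs : ∀ i, star (P i) = P i) {y x : R} {d : Rˣ}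
    (hy : Unip P (fun i j => i < j) y) (hd : Diag P (d : R))
    (hx : Unip P (fun i j => j < i) x) :
    Reg P (y * d * x) ∧ yL P (y * d * x) = y ∧ dD P (y * d * x) = d ∧ xU P (y * d * x) = x := by
  obtain ⟨h1, h2⟩ := yL_eq hP hy hd hx
  have hds : Diag P ((star d : Rˣ) : R) := hd.star hs
  have h3 : xU P (y * d * x) = x := by
    have := (yL_eq hP (d := star d) (hx.star hs) hds (hy.star hs)).2
    rw [xU, star_mul, star_mul, ← mul_assoc]
    have e : star (d : R) = ((star d : Rˣ) : R) := rfl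
    rw [e, this, star_star]
  refine ⟨h1, h2, ?_, h3⟩
  have hyu := hy.isUnit hP lt_trans' (fun i => lt_irrefl i)
  have hxu := hx.isUnit hP gt_trans' (fun i => lt_irrefl i)
  rw [dD, h2, h3]
  calc Ring.inverse y * (y * d * x) * Ring.inverse x
      = (Ring.inverse y * y) * d * (x * Ring.inverse x) := by noncomm_ring
    _ = d := by rw [Ring.inverse_mul_cancel _ hyu, Ring.mul_inverse_cancel _ hxu, one_mul, mul_one]

end Star

end Pool.Agent.Lib.MP_d9b062_al

end

/-! ## from `MP_d9b062_al.Interface` -/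

section
/-!
# The structural data of a self-adjoint group used in the proof
-/

namespace Pool.Agent.Lib.MP_d9b062_al

open NormedSpace

/-- `S` is Zariski dense in `G`. -/
def ZDense {N : ℕ} (S G : Set (Op N)ˣ) : Prop :=
  ∀ F ∈ PolyFun (Op N), (∀ s ∈ S, F (s : Op N) = 0) → ∀ g ∈ G, F (g : Op N) = 0

section Weights

variable {N : ℕ} (G : Subgroup (Op N)ˣ) (A : Submodule ℝ (Op N)) (ι : Type) [Fintype ι]
  [LinearOrder ι]

/-- The weight decomposition of a space `A` of commuting symmetric operators, indexed in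
increasing order of the values of the weights at a generic element `H0`.  The index `o` is that of
the zero weight (`P o` may be `0`). -/
structure WeightData where
  P : ι → Op N
  o : ι
  m : A →ₗ[ℝ] (ι → ℝ)
  H0 : A
  grading : IsGrading P
  star_P : ∀ i, star (P i) = P i
  P_ne : ∀ i, i ≠ o → P i ≠ 0
  eq_sum : ∀ H : A, (H : Op N) = ∑ i, m H i • P i
  m_o : ∀ H, m H o = 0
  strictMono : StrictMono (m H0)
  sep : ∀ i j k l, m H0 i - m H0 j = m H0 k - m H0 l → ∀ H, m H i - m H j = m H k - m H l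

variable {A ι}

/-- positive root pairs -/
def WeightData.Pos (W : WeightData A ι) (i j : ι) : Prop :=
  i < j ∧ ∃ Z ∈ lieAlg G, W.P j * Z * W.P i ≠ 0

/-- the order relation on the weights: `m i < m j` on the open Weyl chamber -/
def WeightData.r (W : WeightData A ι) (i j : ι) : Prop :=
  ∀ H : A, (∀ a b, W.Pos G a b → W.m H a < W.m H b) → W.m H i < W.m H j

/-- the closed Weyl chamber -/
def WeightData.Chamber (W : WeightData A ι) : Set A :=
  {H | ∀ a b, W.Pos G a b → W.m H a ≤ W.m H b}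

end Weights

/-- The structural data of `G` which is used in the dynamical part of the proof.  The blocks of
`y` in `N⁻` are `P i * y * P j` with `r i j` (so `i < j`). -/
structure Cell {N : ℕ} (G : Subgroup (Op N)ˣ) (ι : Type) [Fintype ι] [LinearOrder ι] where
  /-- projections on the weight spaces -/
  P : ι → Op N
  /-- index of the zero weight -/
  o : ι
  /-- the strict order relation on weights -/
  r : ι → ι → Prop
  /-- the weights of a generic dominant element -/
  μ : ι → ℝ
  /-- the weight vectors of the elements of the closed Weyl chamber -/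
  C : Set (ι → ℝ)
  /-- representative of the longest element -/
  w : (Op N)ˣ
  /-- its action on the weights -/
  π : ι → ι
  grading : IsGrading P
  star_P : ∀ i, star (P i) = P i
  P_ne : ∀ i, i ≠ o → P i ≠ 0
  exists_ne : ∃ i, i ≠ o
  r_lt : ∀ i j, r i j → i < j
  r_trans : ∀ i j k, r i j → r j k → r i k
  μ_o : μ o = 0
  μ_mono : StrictMono μ
  μ_mem : ∀ t : ℝ, 0 ≤ t → t • μ ∈ C
  C_o : ∀ m ∈ C, m o = 0
  C_exp : ∀ m ∈ C, ∃ g ∈ G, (g : Op N) = ∑ i, Real.exp (m i) • P i
  C_le : ∀ m ∈ C, ∀ i j, r i j → m i ≤ m j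
  C_root : ∃ c > 0, ∀ m ∈ C, ∀ R : ℝ, 0 ≤ R →
    (∀ i j, i ≠ j → (∃ x ∈ G, Unip P (fun i j => r j i) (x : Op N) ∧ P j * (x : Op N) * P i ≠ 0) →
      R ≤ m j - m i) → ∀ i j, r i j → c * R ≤ m j - m i
  closed : ∀ g : (Op N)ˣ, (∀ F ∈ PolyFun (Op N), (∀ h ∈ G, F (h : Op N) = 0) →
    F (g : Op N) = 0) → g ∈ G
  star_mem : ∀ g ∈ G, star g ∈ G
  irr : ∀ W : Submodule ℝ (V N), (∀ g ∈ G, ∀ v ∈ W, (g : Op N) v ∈ W) → W = ⊥ ∨ W = ⊤
  zirr : ∀ F ∈ PolyFun (Op N), ∀ F' ∈ PolyFun (Op N),
    (∀ g ∈ G, F (g : Op N) * F' (g : Op N) = 0) →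
      (∀ g ∈ G, F (g : Op N) = 0) ∨ ∀ g ∈ G, F' (g : Op N) = 0
  conf : ∀ l ∈ G, Diag P (l : Op N) →
    ∃ τ : ι → ℝ, τ o = 0 ∧ ∀ i v, ‖(l : Op N) (P i v)‖ = Real.exp (τ i) * ‖P i v‖
  fac : ∀ g ∈ G, Reg P (g : Op N) → ∃ y ∈ G, ∃ l ∈ G, ∃ x ∈ G, Unip P r (y : Op N) ∧
    Diag P (l : Op N) ∧ Unip P (fun i j => r j i) (x : Op N) ∧ (g : Op N) = y * l * x
  kak : ∀ g ∈ G, ∃ k ∈ G, ∃ k' ∈ G, ∃ m ∈ C, star (k : Op N) * k = 1 ∧
    star (k' : Op N) * k' = 1 ∧ (g : Op N) = k * (∑ i, Real.exp (m i) • P i) * k'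
  w_mem : w ∈ G
  w_P : ∀ i, (w : Op N) * P i = P (π i) * w
  π_o : π o = o
  π_anti : ∀ i j, r i j → r (π j) (π i)
  w_fix : ∀ v, (∀ l ∈ G, Diag P (l : Op N) → (l : Op N) v = v) → (w : Op N) v = v

end Pool.Agent.Lib.MP_d9b062_al

end

/-! ## from `MP_d9b062_al.CellDefs` -/

section
/-!
# Subgroups, Cartan vectors and loxodromic elements attached to a `Cell`
-/

namespace Pool.Agent.Lib.MP_d9b062_al

namespace Cell

variable {N : ℕ} {G : Subgroup (Op N)ˣ} {ι : Type} [Fintype ι] [LinearOrder ι] (c : Cell G ι)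

/-- the block diagonal subgroup `L` (centralizer of `A`) -/
def L : Subgroup (Op N)ˣ where
  carrier := {g | g ∈ G ∧ Diag c.P (g : Op N)}
  mul_mem' := fun {a b} ha hb => ⟨G.mul_mem ha.1 hb.1, ha.2.mul hb.2⟩
  one_mem' := ⟨G.one_mem, Diag.one⟩
  inv_mem' := fun {a} ha => ⟨G.inv_mem ha.1, ha.2.inv⟩

/-- the lower unipotent subgroup `N⁻` -/
def Nm : Subgroup (Op N)ˣ where
  carrier := {g | g ∈ G ∧ Unip c.P c.r (g : Op N)}
  mul_mem' := fun {a b} ha hb => ⟨G.mul_mem ha.1 hb.1,
    ha.2.mul c.grading c.r_trans (fun i h => lt_irrefl _ (c.r_lt i i h)) hb.2⟩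
  one_mem' := ⟨G.one_mem, Unip.one c.grading⟩
  inv_mem' := fun {a} ha => ⟨G.inv_mem ha.1,
    Unip.units_inv c.grading c.r_trans (fun i h => lt_irrefl _ (c.r_lt i i h)) ha.2⟩

/-- the upper unipotent subgroup `N⁺` -/
def Np : Subgroup (Op N)ˣ where
  carrier := {g | g ∈ G ∧ Unip c.P (fun i j => c.r j i) (g : Op N)}
  mul_mem' := fun {a b} ha hb => ⟨G.mul_mem ha.1 hb.1,
    ha.2.mul c.grading (fun i j k h h' => c.r_trans k j i h' h)
      (fun i h => lt_irrefl _ (c.r_lt i i h)) hb.2⟩
  one_mem' := ⟨G.one_mem, Unip.one c.grading⟩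
  inv_mem' := fun {a} ha => ⟨G.inv_mem ha.1,
    Unip.units_inv c.grading (fun i j k h h' => c.r_trans k j i h' h)
      (fun i h => lt_irrefl _ (c.r_lt i i h)) ha.2⟩

open Classical in
/-- the logarithms of the conformal factors of a block diagonal operator -/
noncomputable def tau (l : Op N) (i : ι) : ℝ := if c.P i = 0 then 0 else Real.log ‖l * c.P i‖

open Classical in
/-- contraction factor of `y ↦ l y l⁻¹` on `N⁻` -/
noncomputable def kap (l : Op N) : ℝ :=
  ∑ i, ∑ j, if c.r i j then Real.exp (c.tau l i - c.tau l j) else 0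

/-- dominant elements -/
def Dom (l : Op N) : Prop := ∀ i j, c.r i j → c.tau l i < c.tau l j

/-- `V`-regular elements -/
def VReg (l : Op N) : Prop := ∀ i, i ≠ c.o → c.tau l i ≠ 0

/-- the vectors fixed by `L` -/
def EL : Submodule ℝ (V N) where
  carrier := {v | ∀ l ∈ c.L, (l : Op N) v = v}
  add_mem' := fun {v w} hv hw l hl => by rw [map_add, hv l hl, hw l hl]
  zero_mem' := fun l _ => map_zero _
  smul_mem' := fun a v hv l hl => by rw [map_smul, hv l hl]

/-- the orthogonal projection on the vectors fixed by `L` -/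
noncomputable def PL : Op N := c.EL.starProjection

/-- the element `g` is loxodromic with frame `f` and diagonal part `l` -/
structure LinLox (g f l : (Op N)ˣ) : Prop where
  f_mem : f ∈ G
  l_mem : l ∈ c.L
  dom : c.Dom (l : Op N)
  eq : g = f * l * f⁻¹

/-- the affine map `γ` is `V`-regular loxodromic with normal form `(l, t)` in the frame `F` -/
structure ALox (γ F : Aff (V N)) (l : (Op N)ˣ) (t : V N) : Prop where
  F_mem : F.lin ∈ G
  l_mem : l ∈ c.L
  dom : c.Dom (l : Op N)
  vreg : c.VReg (l : Op N)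
  P_t : c.P c.o t = t
  l_t : (l : Op N) t = t
  eq : γ = F * ⟨l, t⟩ * F⁻¹

/-- the translation invariant of an affine map with respect to a frame of its linear part -/
noncomputable def T (f : (Op N)ˣ) (γ : Aff (V N)) : V N :=
  c.PL (((f⁻¹ : (Op N)ˣ) : Op N) γ.tr)

/-- Zariski dense groups of affine maps in which no `V`-regular loxodromic element has a fixed
point. -/
structure Good (Γ : Subgroup (Aff (V N))) : Prop where
  lin_mem : ∀ γ ∈ Γ, γ.lin ∈ G
  dense : ZDense {g | ∃ γ ∈ Γ, γ.lin = g} (G : Set (Op N)ˣ)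
  nofix : ∀ γ ∈ Γ, ∀ F l t, c.ALox γ F l t → t ≠ 0

end Cell

end Pool.Agent.Lib.MP_d9b062_al

end
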