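import Mathlib
import Pool.Agent.Lib.MP_d9b062_al_m.MBase

/-!
MP_d9b062_al: merged modules (to shorten the build).
-/

set_option autoImplicit false

/-! ## from `MP_d9b062_al_h64.Struct` -/

section
/-!
# Structure of self-adjoint Zariski closed groups: the Lie algebra

Everything is done for an abstract finite-dimensional inner product space `E`; the concrete case is
`E = V N` (simp works much better for abstract `E`).
-/

namespace Pool.Agent.Lib.MP_d9b062_al.H64

open NormedSpace Filter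
open scoped Topology

set_option linter.unusedSectionVars false

section Abstract

variable {E : Type*} [NormedAddCommGroup E] [InnerProductSpace ℝ E] [CompleteSpace E]
  [FiniteDimensional ℝ E]

/-- Lie algebra of a linear group -/
def lieA (G : Subgroup (E →L[ℝ] E)ˣ) : Set (E →L[ℝ] E) :=
  {Z | ∀ t : ℝ, ∃ g ∈ G, (g : E →L[ℝ] E) = exp (t • Z)}

/-- connected, Zariski closed, self-adjoint linear groups (`PolyFun` version) -/
structure SG (G : Subgroup (E →L[ℝ] E)ˣ) : Prop where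
  closed : ∀ g : (E →L[ℝ] E)ˣ, (∀ F ∈ PolyFun (E →L[ℝ] E),
    (∀ k ∈ G, F (k : E →L[ℝ] E) = 0) → F (g : E →L[ℝ] E) = 0) → g ∈ G
  connected : ∀ F ∈ PolyFun (E →L[ℝ] E),
    (∀ l : List (E →L[ℝ] E), (∀ Z ∈ l, Z ∈ lieA G) → F (l.map exp).prod = 0) →
    ∀ g ∈ G, F (g : E →L[ℝ] E) = 0
  star_mem : ∀ g ∈ G, star g ∈ G

variable {G : Subgroup (E →L[ℝ] E)ˣ}

/-! ### the exponential -/

lemma exp_add_op {x y : (E →L[ℝ] E)} (h : x * y = y * x) : exp (x + y) = exp x * exp y := by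
  let : NormedAlgebra ℚ (E →L[ℝ] E) := NormedAlgebra.restrictScalars ℚ ℝ (E →L[ℝ] E)
  exact exp_add_of_commute h

lemma exp_conj_op (x : (E →L[ℝ] E)) (y : (E →L[ℝ] E)ˣ) :
    exp ((y : (E →L[ℝ] E)) * x * ((y⁻¹ : (E →L[ℝ] E)ˣ) : (E →L[ℝ] E))) = y * exp x * ((y⁻¹ : (E →L[ℝ] E)ˣ) : (E →L[ℝ] E)) := by
  let : NormedAlgebra ℚ (E →L[ℝ] E) := NormedAlgebra.restrictScalars ℚ ℝ (E →L[ℝ] E)
  exact exp_units_conj y x

lemma exp_neg_mul_self (x : (E →L[ℝ] E)) : exp (-x) * exp x = 1 := by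
  rw [← exp_add_op (by simp), neg_add_cancel, exp_zero]

lemma exp_mul_neg_self (x : (E →L[ℝ] E)) : exp x * exp (-x) = 1 := by
  rw [← exp_add_op (by simp), add_neg_cancel, exp_zero]

/-- the exponential as a unit -/
noncomputable def uexp (x : (E →L[ℝ] E)) : (E →L[ℝ] E)ˣ :=
  ⟨exp x, exp (-x), exp_mul_neg_self x, exp_neg_mul_self x⟩

@[simp] lemma uexp_val (x : (E →L[ℝ] E)) : (uexp x : (E →L[ℝ] E)) = exp x := rfl
@[simp] lemma uexp_inv_val (x : (E →L[ℝ] E)) : ((uexp x)⁻¹ : (E →L[ℝ] E)ˣ) = uexp (-x) := by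
  ext1
  rfl

lemma continuous_exp_op : Continuous (exp : (E →L[ℝ] E) → (E →L[ℝ] E)) := by
  let : NormedAlgebra ℚ (E →L[ℝ] E) := NormedAlgebra.restrictScalars ℚ ℝ (E →L[ℝ] E)
  exact exp_continuous

lemma mem_lieA {Z : (E →L[ℝ] E)} : Z ∈ lieA G ↔ ∀ t : ℝ, uexp (t • Z) ∈ G := by
  constructor
  · intro h t
    obtain ⟨g, hg, he⟩ := h t
    have : g = uexp (t • Z) := by ext1; exact he
    rwa [← this]
  · intro h t
    exact ⟨_, h t, rfl⟩

/-- The right invariant derivation attached to `Z`. -/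
noncomputable def RD (Z : (E →L[ℝ] E)) (F : (E →L[ℝ] E) → ℝ) (T : (E →L[ℝ] E)) : ℝ := fderiv ℝ F T (T * Z)

lemma PolyFun.differentiable {E : Type*} [NormedAddCommGroup E] [NormedSpace ℝ E]
    [FiniteDimensional ℝ E] {F : E → ℝ} (hF : F ∈ PolyFun E) : Differentiable ℝ F :=
  (PolyFun.contDiff hF (n := 1)).differentiable one_ne_zero

lemma RD_mem (Z : (E →L[ℝ] E)) {F : (E →L[ℝ] E) → ℝ} (hF : F ∈ PolyFun (E →L[ℝ] E)) : RD Z F ∈ PolyFun (E →L[ℝ] E) := by
  have key : ∀ F ∈ PolyFun (E →L[ℝ] E), RD Z F ∈ PolyFun (E →L[ℝ] E) := by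
    intro F hF
    have : F ∈ PolyFun (E →L[ℝ] E) ∧ RD Z F ∈ PolyFun (E →L[ℝ] E) := by
      refine PolyFun.induction (p := fun F => F ∈ PolyFun (E →L[ℝ] E) ∧ RD Z F ∈ PolyFun (E →L[ℝ] E))
        ?_ ?_ ?_ ?_ hF
      · intro φ
        refine ⟨PolyFun.linear φ, ?_⟩
        have e : RD Z φ = fun T => φ (T * Z) := by
          ext T
          have : (φ : (E →L[ℝ] E) → ℝ) = (LinearMap.toContinuousLinearMap φ : (E →L[ℝ] E) → ℝ) := rfl
          rw [RD, this, ContinuousLinearMap.fderiv]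
        rw [e]
        let ψ : (E →L[ℝ] E) →ₗ[ℝ] ℝ := φ ∘ₗ (LinearMap.mulRight ℝ Z)
        exact PolyFun.linear ψ
      · intro c
        refine ⟨PolyFun.const c, ?_⟩
        have e : RD Z (fun _ => c) = fun _ => (0 : ℝ) := by
          ext T; simp [RD]
        rw [e]
        exact PolyFun.const 0
      · rintro f g ⟨hf, hf'⟩ ⟨hg, hg'⟩
        refine ⟨PolyFun.add hf hg, ?_⟩
        have e : RD Z (fun x => f x + g x) = fun T => RD Z f T + RD Z g T := by
          ext T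
          simp only [RD]
          rw [fderiv_fun_add (PolyFun.differentiable hf T) (PolyFun.differentiable hg T)]
          rfl
        rw [e]
        exact PolyFun.add hf' hg'
      · rintro f g ⟨hf, hf'⟩ ⟨hg, hg'⟩
        refine ⟨PolyFun.mul hf hg, ?_⟩
        have e : RD Z (fun x => f x * g x) = fun T => f T * RD Z g T + g T * RD Z f T := by
          ext T
          simp only [RD]
          rw [fderiv_fun_mul (PolyFun.differentiable hf T) (PolyFun.differentiable hg T)]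
          rfl
        rw [e]
        exact PolyFun.add (PolyFun.mul hf hg') (PolyFun.mul hg hf')
    exact this.2
  exact key F hF

lemma hasDerivAt_RD (Z : (E →L[ℝ] E)) {F : (E →L[ℝ] E) → ℝ} (hF : F ∈ PolyFun (E →L[ℝ] E)) (T : (E →L[ℝ] E)) (t : ℝ) :
    HasDerivAt (fun t : ℝ => F (T * exp (t • Z))) (RD Z F (T * exp (t • Z))) t := by
  have h1 : HasDerivAt (fun t : ℝ => T * exp (t • Z)) (T * (exp (t • Z) * Z)) t :=
    (hasDerivAt_exp_smul_const Z t).const_mul T
  have h2 := (PolyFun.differentiable hF (T * exp (t • Z))).hasFDerivAt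
  have h3 := h2.comp_hasDerivAt t h1
  rw [← mul_assoc] at h3
  exact h3

/-- the ideal of `G` is stable under `RD Z` -/
def IdealStable (G : Subgroup (E →L[ℝ] E)ˣ) (Z : (E →L[ℝ] E)) : Prop :=
  ∀ F ∈ PolyFun (E →L[ℝ] E), (∀ g ∈ G, F (g : (E →L[ℝ] E)) = 0) → ∀ g ∈ G, RD Z F (g : (E →L[ℝ] E)) = 0

lemma idealStable_of_mem {Z : (E →L[ℝ] E)} (hZ : Z ∈ lieA G) : IdealStable G Z := by
  intro F hF h g hg
  have h1 := hasDerivAt_RD Z hF (g : (E →L[ℝ] E)) 0
  have h2 : (fun t : ℝ => F ((g : (E →L[ℝ] E)) * exp (t • Z))) = fun _ => 0 := by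
    ext t
    exact h (g * uexp (t • Z)) (G.mul_mem hg (mem_lieA.1 hZ t))
  rw [h2] at h1
  have h3 := h1.unique (hasDerivAt_const (0 : ℝ) (0 : ℝ))
  simpa using h3

/-- an analytic function of one variable all of whose derivatives vanish at a point -/
lemma eq_zero_of_derivs {f : ℕ → ℝ → ℝ} (hf : ∀ k t, HasDerivAt (f k) (f (k + 1) t) t)
    (ha : AnalyticOnNhd ℝ (f 0) Set.univ) (h0 : ∀ k, f k 0 = 0) (t : ℝ) : f 0 t = 0 := by
  have hit : ∀ k j, iteratedDeriv k (f j) = f (j + k) := by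
    intro k
    induction k with
    | zero => intro j; simp
    | succ k ih =>
      intro j
      rw [iteratedDeriv_succ']
      have : deriv (f j) = f (j + 1) := by ext t; exact (hf j t).deriv
      rw [this, ih]
      congr 1; ring
  have h1 := (ha 0 (Set.mem_univ _)).hasFPowerSeriesAt
  have h2 : (FormalMultilinearSeries.ofScalars ℝ
      (fun n => iteratedDeriv n (f 0) 0 / n.factorial) : FormalMultilinearSeries ℝ ℝ ℝ) = 0 := by
    ext n
    simp [hit, h0]
  rw [h2] at h1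
  have h3 : ∀ᶠ z in 𝓝 (0 : ℝ), f 0 z = 0 := h1.eventually_eq_zero
  have h4 := ha.eqOn_zero_of_preconnected_of_eventuallyEq_zero isPreconnected_univ
    (Set.mem_univ _) h3
  exact h4 (Set.mem_univ t)

lemma mem_of_idealStable (hG : SG G) {Z : (E →L[ℝ] E)} (h : IdealStable G Z) :
    Z ∈ lieA G := by
  rw [mem_lieA]
  intro t
  apply hG.closed
  intro F hF hv
  have hm : ∀ k, ((RD Z)^[k]) F ∈ PolyFun (E →L[ℝ] E) ∧ ∀ g ∈ G, ((RD Z)^[k]) F (g : (E →L[ℝ] E)) = 0 := by
    intro k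
    induction k with
    | zero => exact ⟨hF, hv⟩
    | succ k ih =>
      rw [Function.iterate_succ_apply']
      exact ⟨RD_mem Z ih.1, h _ ih.1 ih.2⟩
  have ha : AnalyticOnNhd ℝ (fun t : ℝ => F ((1 : (E →L[ℝ] E)) * exp (t • Z))) Set.univ := by
    have h1 : ContDiff ℝ ⊤ F := PolyFun.contDiff hF
    have h2 : AnalyticOnNhd ℝ F Set.univ := by
      intro x _
      exact (h1.contDiffAt (x := x)).analyticAt
    have h3 : ∀ x : (E →L[ℝ] E), AnalyticAt ℝ (exp : (E →L[ℝ] E) → (E →L[ℝ] E)) x := fun x => exp_analytic x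
    intro s _
    have h4 : AnalyticAt ℝ (fun t : ℝ => exp (t • Z)) s := by
      have h5 : AnalyticAt ℝ (fun t : ℝ => t • Z) s := analyticAt_id.smul analyticAt_const
      exact (h3 _).comp h5
    have h6 : AnalyticAt ℝ (fun t : ℝ => (1 : (E →L[ℝ] E)) * exp (t • Z)) s := analyticAt_const.mul h4
    exact (h2 _ (Set.mem_univ _)).comp h6
  have := eq_zero_of_derivs (f := fun k t => ((RD Z)^[k]) F ((1 : (E →L[ℝ] E)) * exp (t • Z)))
    (fun k s => by
      have := hasDerivAt_RD Z (hm k).1 1 s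
      simp only [Function.iterate_succ_apply']
      exact this) ha
    (fun k => by
      simp only [zero_smul, exp_zero, mul_one]
      exact (hm k).2 1 G.one_mem) t
  simpa using this

lemma mem_lieA_iff (hG : SG G) {Z : (E →L[ℝ] E)} :
    Z ∈ lieA G ↔ IdealStable G Z := ⟨idealStable_of_mem, mem_of_idealStable hG⟩

/-- the Lie algebra as a subspace -/
def lieSub (hG : SG G) : Submodule ℝ (E →L[ℝ] E) where
  carrier := lieA G
  add_mem' := by
    intro a b ha hb
    apply mem_of_idealStable hG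
    intro F hF h g hg
    have h1 := idealStable_of_mem ha F hF h g hg
    have h2 := idealStable_of_mem hb F hF h g hg
    simp only [RD] at h1 h2 ⊢
    rw [mul_add, map_add, h1, h2, add_zero]
  zero_mem' := by
    rw [mem_lieA]
    intro t
    have : uexp (t • (0 : (E →L[ℝ] E))) = 1 := by ext1; simp
    rw [this]
    exact G.one_mem
  smul_mem' := by
    intro c a ha
    rw [mem_lieA] at ha ⊢
    intro t
    rw [smul_smul]
    exact ha _

@[simp] lemma mem_lieSub (hG : SG G) {Z : (E →L[ℝ] E)} :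
    Z ∈ lieSub hG ↔ Z ∈ lieA G := Iff.rfl

lemma lieA_conj {Z : (E →L[ℝ] E)} (hZ : Z ∈ lieA G) {g : (E →L[ℝ] E)ˣ} (hg : g ∈ G) :
    (g : (E →L[ℝ] E)) * Z * ((g⁻¹ : (E →L[ℝ] E)ˣ) : (E →L[ℝ] E)) ∈ lieA G := by
  rw [mem_lieA] at hZ ⊢
  intro t
  have : uexp (t • ((g : (E →L[ℝ] E)) * Z * ((g⁻¹ : (E →L[ℝ] E)ˣ) : (E →L[ℝ] E)))) = g * uexp (t • Z) * g⁻¹ := by
    ext1
    simp only [Units.val_mul, uexp_val]
    rw [← exp_conj_op]
    congr 1
    simp
  rw [this]
  exact G.mul_mem (G.mul_mem hg (hZ t)) (G.inv_mem hg)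

lemma lieA_star (hG : SG G) {Z : (E →L[ℝ] E)} (hZ : Z ∈ lieA G) :
    star Z ∈ lieA G := by
  rw [mem_lieA] at hZ ⊢
  intro t
  have : uexp (t • star Z) = star (uexp (t • Z)) := by
    ext1
    simp only [uexp_val, Units.coe_star]
    rw [star_exp]
    simp
  rw [this]
  exact hG.star_mem _ (hZ t)

/-- the derivative at `0` of a curve in the Lie algebra is in the Lie algebra -/
lemma deriv_mem_lieSub (hG : SG G) {c : ℝ → (E →L[ℝ] E)} {Z : (E →L[ℝ] E)} {s : ℝ}
    (hc : HasDerivAt c Z s) (hm : ∀ t, c t ∈ lieA G) : Z ∈ lieA G := by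
  have hcl : IsClosed ((lieSub hG : Submodule ℝ (E →L[ℝ] E)) : Set (E →L[ℝ] E)) :=
    Submodule.closed_of_finiteDimensional _
  have h1 := hasDerivAt_iff_tendsto_slope.1 hc
  have : Z ∈ ((lieSub hG : Submodule ℝ (E →L[ℝ] E)) : Set (E →L[ℝ] E)) := by
    refine hcl.mem_of_tendsto h1 (Eventually.of_forall fun t => ?_)
    rw [slope_def_module]
    exact (lieSub hG).smul_mem _ ((lieSub hG).sub_mem (hm t) (hm s))
  exact this

lemma lieA_bracket (hG : SG G) {X Z : (E →L[ℝ] E)} (hX : X ∈ lieA G)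
    (hZ : Z ∈ lieA G) : X * Z - Z * X ∈ lieA G := by
  have h1 : HasDerivAt (fun t : ℝ => exp (t • X) * Z * exp (t • (-X)))
      ((X * exp ((0 : ℝ) • X)) * Z * exp ((0 : ℝ) • (-X))
        + exp ((0 : ℝ) • X) * Z * ((-X) * exp ((0 : ℝ) • (-X)))) 0 :=
    ((hasDerivAt_exp_smul_const' X 0).mul_const Z).mul (hasDerivAt_exp_smul_const' (-X) 0)
  have h2 := deriv_mem_lieSub hG h1 (fun t => by
    have := lieA_conj hZ (mem_lieA.1 hX t)
    rw [uexp_inv_val, uexp_val, uexp_val] at this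
    rwa [smul_neg])
  simp only [zero_smul, exp_zero, mul_one, one_mul] at h2
  rw [mul_neg, ← sub_eq_add_neg] at h2
  exact h2

end Abstract

end Pool.Agent.Lib.MP_d9b062_al.H64

end

/-! ## from `MP_d9b062_al_h64.Polar` -/

section
/-!
# Polar decomposition in self-adjoint Zariski closed groups
-/

namespace Pool.Agent.Lib.MP_d9b062_al.H64

open NormedSpace Filter
open scoped Topology InnerProductSpace

set_option linter.unusedSectionVars false

/-! ### finite sums of real exponentials -/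

/-- finite sums of exponentials -/
def ES : Set (ℝ → ℝ) := {f | ∃ (s : Finset ℝ) (c : ℝ → ℝ), ∀ t, f t = ∑ ρ ∈ s, c ρ * Real.exp (ρ * t)}

lemma ES_iff_span {f : ℝ → ℝ} :
    f ∈ ES ↔ f ∈ Submodule.span ℝ (Set.range fun (ρ : ℝ) (t : ℝ) => Real.exp (ρ * t)) := by
  constructor
  · rintro ⟨s, c, h⟩
    have : f = ∑ ρ ∈ s, c ρ • (fun t => Real.exp (ρ * t)) := by
      ext t
      rw [h t, Finset.sum_apply]
      rfl
    rw [this]
    exact Submodule.sum_mem _ fun ρ _ => Submodule.smul_mem _ _ (Submodule.subset_span ⟨ρ, rfl⟩)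
  · intro h
    obtain ⟨c, rfl⟩ := Finsupp.mem_span_range_iff_exists_finsupp.1 h
    refine ⟨c.support, c, fun t => ?_⟩
    simp only [Finsupp.sum, Finset.sum_apply, Pi.smul_apply, smul_eq_mul]

lemma ES.add {f g : ℝ → ℝ} (hf : f ∈ ES) (hg : g ∈ ES) : (fun t => f t + g t) ∈ ES := by
  rw [ES_iff_span] at hf hg ⊢
  exact Submodule.add_mem _ hf hg

lemma ES.const (c : ℝ) : (fun _ => c) ∈ ES := ⟨{0}, fun _ => c, fun t => by simp⟩

lemma ES.exp (c ρ : ℝ) : (fun t => c * Real.exp (ρ * t)) ∈ ES :=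
  ⟨{ρ}, fun _ => c, fun t => by simp⟩

lemma ES.sum {κ : Type*} (s : Finset κ) {f : κ → ℝ → ℝ} (hf : ∀ i ∈ s, f i ∈ ES) :
    (fun t => ∑ i ∈ s, f i t) ∈ ES := by
  classical
  induction s using Finset.induction_on with
  | empty => simpa using ES.const 0
  | insert a s ha ih =>
    simp only [Finset.sum_insert ha]
    exact ES.add (hf a (Finset.mem_insert_self _ _))
      (ih fun i hi => hf i (Finset.mem_insert_of_mem hi))

lemma ES.mul {f g : ℝ → ℝ} (hf : f ∈ ES) (hg : g ∈ ES) : (fun t => f t * g t) ∈ ES := by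
  obtain ⟨s, c, hf⟩ := hf
  obtain ⟨s', c', hg⟩ := hg
  have : (fun t => f t * g t) = fun t => ∑ ρ ∈ s, ∑ ρ' ∈ s', (c ρ * c' ρ') *
      Real.exp ((ρ + ρ') * t) := by
    ext t
    rw [hf, hg, Finset.sum_mul_sum]
    refine Finset.sum_congr rfl fun ρ _ => Finset.sum_congr rfl fun ρ' _ => ?_
    rw [add_mul, Real.exp_add]; ring
  rw [this]
  exact ES.sum _ fun ρ _ => ES.sum _ fun ρ' _ => ES.exp _ _

/-- an exponential sum vanishing on the natural numbers is zero -/
lemma ES.eq_zero {f : ℝ → ℝ} (hf : f ∈ ES) (h : ∀ n : ℕ, f n = 0) (t : ℝ) : f t = 0 := by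
  obtain ⟨s, c, hf⟩ := hf
  have hc : ∀ ρ ∈ s, c ρ = 0 := by
    have hli := linearIndependent_monoidHom (Multiplicative ℕ) ℝ
    let χ : ℝ → (Multiplicative ℕ →* ℝ) := fun ρ => powersHom ℝ (Real.exp ρ)
    have hinj : Function.Injective χ := by
      intro a b hab
      have := congrArg (fun φ : Multiplicative ℕ →* ℝ => φ (Multiplicative.ofAdd 1)) hab
      simp only [χ, powersHom_apply, toAdd_ofAdd, pow_one] at this
      exact Real.exp_injective this
    have hli2 := hli.comp χ hinj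
    have h3 : ∑ ρ ∈ s, c ρ • ((fun f : Multiplicative ℕ →* ℝ => (f : Multiplicative ℕ → ℝ)) ∘ χ) ρ
        = 0 := by
      ext n
      rw [Finset.sum_apply]
      have := h (Multiplicative.toAdd n)
      rw [hf] at this
      simp only [Pi.smul_apply, Function.comp_apply, χ, powersHom_apply, smul_eq_mul, Pi.zero_apply]
      rw [← this]
      refine Finset.sum_congr rfl fun ρ _ => ?_
      rw [← Real.exp_nat_mul, mul_comm ρ]
    exact fun ρ hρ => linearIndependent_iff'.1 hli2 s c h3 ρ hρ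
  rw [hf]
  exact Finset.sum_eq_zero fun ρ hρ => by rw [hc ρ hρ, zero_mul]

section Abstract

variable {E : Type*} [NormedAddCommGroup E] [InnerProductSpace ℝ E] [CompleteSpace E]
  [FiniteDimensional ℝ E]

lemma opmul_apply (S T : E →L[ℝ] E) (v : E) : (S * T) v = S (T v) := rfl

/-! ### diagonal operators -/

section diag

variable {κ : Type*} [Fintype κ] (b : OrthonormalBasis κ ℝ E)

/-- diagonal operator in an orthonormal basis -/
noncomputable def dg (f : κ → ℝ) : E →L[ℝ] E :=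
  ∑ i, f i • (innerSL ℝ (b i)).smulRight (b i)

lemma dg_apply (f : κ → ℝ) (v : E) : dg b f v = ∑ i, (f i * ⟪b i, v⟫_ℝ) • b i := by
  simp [dg, smul_smul]

lemma dg_basis (f : κ → ℝ) (j : κ) : dg b f (b j) = f j • b j := by
  classical
  rw [dg_apply]
  simp [OrthonormalBasis.inner_eq_ite]

lemma dg_ext {S T : E →L[ℝ] E} (h : ∀ j, S (b j) = T (b j)) : S = T := by
  have : (S : E →ₗ[ℝ] E) = T := b.toBasis.ext fun j => by simpa using h j
  ext v
  exact LinearMap.congr_fun this v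

lemma dg_mul (f g : κ → ℝ) : dg b f * dg b g = dg b (f * g) := by
  apply dg_ext b
  intro j
  rw [opmul_apply, dg_basis, map_smul, dg_basis, dg_basis, smul_smul]
  simp [mul_comm]

lemma dg_one : dg b 1 = 1 := by
  apply dg_ext b
  intro j
  rw [dg_basis]; simp

lemma dg_add (f g : κ → ℝ) : dg b (f + g) = dg b f + dg b g := by
  simp [dg, add_smul, Finset.sum_add_distrib]

lemma dg_smul (c : ℝ) (f : κ → ℝ) : dg b (c • f) = c • dg b f := by
  simp [dg, Finset.smul_sum, smul_smul]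

lemma dg_star (f : κ → ℝ) : star (dg b f) = dg b f := by
  rw [ContinuousLinearMap.star_eq_adjoint]
  symm
  rw [ContinuousLinearMap.eq_adjoint_iff]
  intro x y
  rw [dg_apply, dg_apply, sum_inner, inner_sum]
  refine Finset.sum_congr rfl fun i _ => ?_
  rw [inner_smul_left, inner_smul_right, real_inner_comm x (b i)]
  simp; ring

/-- the ring homomorphism -/
noncomputable def dgHom : (κ → ℝ) →+* (E →L[ℝ] E) where
  toFun := dg b
  map_one' := dg_one b
  map_mul' f g := (dg_mul b f g).symm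
  map_zero' := by simp [dg]
  map_add' := dg_add b

lemma dg_exp (f : κ → ℝ) : exp (dg b f) = dg b (fun i => Real.exp (f i)) := by
  let : NormedAlgebra ℚ (E →L[ℝ] E) := NormedAlgebra.restrictScalars ℚ ℝ (E →L[ℝ] E)
  have hc : Continuous (dgHom b) := by
    have : Continuous (dg b) := by
      unfold dg
      fun_prop
    exact this
  have h := map_exp (dgHom b) hc f
  have h1 : dgHom b f = dg b f := rfl
  rw [← h1, ← h]
  show dg b (exp f) = _
  congr 1
  ext i
  rw [Pi.exp_def, Real.exp_eq_exp_ℝ]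

/-- polynomial functions along a diagonal one-parameter group -/
lemma polyFun_dg_mem_ES {F : (E →L[ℝ] E) → ℝ} (hF : F ∈ PolyFun (E →L[ℝ] E)) (a : κ → ℝ) :
    (fun t : ℝ => F (dg b (fun i => Real.exp (a i * t)))) ∈ ES := by
  refine PolyFun.induction
    (p := fun F => (fun t : ℝ => F (dg b (fun i => Real.exp (a i * t)))) ∈ ES) ?_ ?_ ?_ ?_ hF
  · intro φ
    have : (fun t : ℝ => φ (dg b (fun i => Real.exp (a i * t)))) =
        fun t : ℝ => ∑ i, φ ((innerSL ℝ (b i)).smulRight (b i)) * Real.exp (a i * t) := by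
      ext t
      rw [dg, map_sum]
      refine Finset.sum_congr rfl fun i _ => ?_
      rw [map_smul, smul_eq_mul, mul_comm]
    rw [this]
    exact ES.sum _ fun i _ => ES.exp _ _
  · exact fun c => ES.const c
  · exact fun f g hf hg => ES.add hf hg
  · exact fun f g hf hg => ES.mul hf hg

end diag

variable {G : Subgroup (E →L[ℝ] E)ˣ}

lemma uexp_nsmul (S : E →L[ℝ] E) (n : ℕ) : uexp ((n : ℝ) • S) = uexp S ^ n := by
  induction n with
  | zero => ext1; simp
  | succ n ih =>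
    rw [pow_succ, ← ih]
    ext1
    simp only [Nat.cast_add, Nat.cast_one, Units.val_mul, uexp_val]
    rw [add_smul, one_smul, exp_add_op (by simp)]

/-- logarithm of positive elements of `G` -/
theorem exists_log (hG : SG G) {P : (E →L[ℝ] E)ˣ} (hP : P ∈ G)
    (hsym : star (P : E →L[ℝ] E) = P) (hpos : ∀ v : E, v ≠ 0 → 0 < ⟪(P : E →L[ℝ] E) v, v⟫_ℝ) :
    ∃ S ∈ lieA G, star S = S ∧ uexp S = P := by
  have hs : LinearMap.IsSymmetric ((P : E →L[ℝ] E) : E →ₗ[ℝ] E) := by
    rw [← ContinuousLinearMap.isSelfAdjoint_iff_isSymmetric]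
    exact hsym
  obtain ⟨n, hn⟩ : ∃ n, Module.finrank ℝ E = n := ⟨_, rfl⟩
  set b := hs.eigenvectorBasis hn with hb
  set lam := hs.eigenvalues hn with hlam
  have hPb : ∀ i, (P : E →L[ℝ] E) (b i) = lam i • b i := fun i =>
    hs.apply_eigenvectorBasis hn i
  have hlpos : ∀ i, 0 < lam i := by
    intro i
    have h1 := hpos (b i) (b.orthonormal.ne_zero i)
    rw [hPb, inner_smul_left, real_inner_self_eq_norm_sq, b.orthonormal.1 i] at h1
    simpa using h1
  have hPd : (P : E →L[ℝ] E) = dg b lam := by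
    apply dg_ext b
    intro j
    rw [hPb, dg_basis]
  set S : E →L[ℝ] E := dg b (fun i => Real.log (lam i)) with hS
  have hexp : ∀ t : ℝ, exp (t • S) = dg b (fun i => Real.exp (Real.log (lam i) * t)) := by
    intro t
    rw [hS, ← dg_smul, dg_exp]
    congr 1
    ext i
    simp [mul_comm]
  have hu : uexp S = P := by
    ext1
    rw [uexp_val]
    have := hexp 1
    rw [one_smul] at this
    rw [this, hPd]
    congr 1
    ext i
    rw [mul_one, Real.exp_log (hlpos i)]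
  refine ⟨S, ?_, dg_star b _, hu⟩
  rw [mem_lieA]
  intro t
  apply hG.closed
  intro F hF hv
  rw [uexp_val, hexp]
  refine ES.eq_zero (polyFun_dg_mem_ES b hF fun i => Real.log (lam i)) (fun n => ?_) t
  rw [← hexp, ← uexp_val, uexp_nsmul, hu]
  exact hv _ (G.pow_mem hP n)

/-- **polar decomposition** -/
theorem polar (hG : SG G) {g : (E →L[ℝ] E)ˣ} (hg : g ∈ G) :
    ∃ k ∈ G, ∃ S ∈ lieA G, star (k : E →L[ℝ] E) * k = 1 ∧ star S = S ∧ g = k * uexp S := by
  have hgs := hG.star_mem g hg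
  have hP : star g * g ∈ G := G.mul_mem hgs hg
  obtain ⟨S, hS, hSs, hSe⟩ := exists_log hG hP (by simp) (by
    intro v hv
    simp only [Units.val_mul, Units.coe_star]
    rw [opmul_apply, ContinuousLinearMap.star_eq_adjoint,
      ContinuousLinearMap.adjoint_inner_left, real_inner_self_eq_norm_sq]
    have : (g : E →L[ℝ] E) v ≠ 0 := by
      intro h0
      apply hv
      have h1 : ((g⁻¹ : (E →L[ℝ] E)ˣ) : E →L[ℝ] E) ((g : E →L[ℝ] E) v) = v := by
        rw [← opmul_apply, ← Units.val_mul, inv_mul_cancel]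
        rfl
      rw [h0, map_zero] at h1
      exact h1.symm
    have := norm_pos_iff.2 this
    positivity)
  have hT : (1 / 2 : ℝ) • S ∈ lieA G := (lieSub hG).smul_mem _ hS
  set T : E →L[ℝ] E := (1 / 2 : ℝ) • S with hTdef
  have hTT : T + T = S := by rw [hTdef, ← add_smul]; norm_num
  have hTs : star T = T := by rw [hTdef, star_smul, hSs]; simp
  have hTe : ∀ t : ℝ, uexp (t • T) ∈ G := mem_lieA.1 hT
  have h1 : uexp T ∈ G := by simpa using hTe 1
  refine ⟨g * uexp (-T), G.mul_mem hg (by rw [← uexp_inv_val]; exact G.inv_mem h1), T, hT, ?_, hTs,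
    ?_⟩
  · have e1 : star (uexp (-T)) = uexp (-T) := by
      ext1
      rw [Units.coe_star, uexp_val, star_exp, star_neg, hTs]
    have e2 : (star (g * uexp (-T)) : (E →L[ℝ] E)ˣ) * (g * uexp (-T)) = 1 := by
      rw [star_mul, e1]
      have : uexp (-T) * star g * (g * uexp (-T)) = uexp (-T) * (star g * g) * uexp (-T) := by
        group
      rw [this, ← hSe]
      ext1
      simp only [Units.val_mul, uexp_val, Units.val_one]
      rw [← hTT, exp_add_op rfl]
      calc exp (-T) * (exp T * exp T) * exp (-T)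
          = (exp (-T) * exp T) * (exp T * exp (-T)) := by simp only [mul_assoc]
        _ = 1 := by rw [exp_neg_mul_self, exp_mul_neg_self, one_mul]
    have := congrArg (fun u : (E →L[ℝ] E)ˣ => (u : E →L[ℝ] E)) e2
    simpa using this
  · rw [mul_assoc]
    have : uexp (-T) * uexp T = 1 := by
      ext1
      simp only [Units.val_mul, uexp_val, Units.val_one]
      exact exp_neg_mul_self T
    rw [this, mul_one]

end Abstract

end Pool.Agent.Lib.MP_d9b062_al.H64

end

/-! ## from `MP_d9b062_al_h64.Alg0` -/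

section
/-!
# Analyticity, irreducibility, logarithm
-/

namespace Pool.Agent.Lib.MP_d9b062_al.H64

open NormedSpace Filter
open scoped Topology InnerProductSpace

set_option linter.unusedSectionVars false

variable {E : Type*} [NormedAddCommGroup E] [InnerProductSpace ℝ E] [CompleteSpace E]
  [FiniteDimensional ℝ E]

lemma analyticAt_exp_smul (Z : E →L[ℝ] E) {f : ℝ → ℝ} {s : ℝ} (hf : AnalyticAt ℝ f s) :
    AnalyticAt ℝ (fun t : ℝ => (exp (f t • Z) : E →L[ℝ] E)) s := by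
  have h3 : ∀ x : (E →L[ℝ] E), AnalyticAt ℝ (exp : (E →L[ℝ] E) → (E →L[ℝ] E)) x :=
    fun x => exp_analytic x
  have h5 : AnalyticAt ℝ (fun t : ℝ => f t • Z) s := hf.smul analyticAt_const
  exact (h3 _).comp h5

lemma analyticAt_polyFun {F : (E →L[ℝ] E) → ℝ} (hF : F ∈ PolyFun (E →L[ℝ] E))
    {c : ℝ → (E →L[ℝ] E)} {s : ℝ} (hc : AnalyticAt ℝ c s) :
    AnalyticAt ℝ (fun t => F (c t)) s := by
  have h1 : ContDiff ℝ ⊤ F := PolyFun.contDiff hF
  have h2 : AnalyticAt ℝ F (c s) := (h1.contDiffAt (x := c s)).analyticAt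
  exact h2.comp hc

theorem exp_eq_zeroA {I : Set ((E →L[ℝ] E) → ℝ)} {S : Set (E →L[ℝ] E)} {Z : E →L[ℝ] E}
    (hI : ∀ F ∈ I, F ∈ PolyFun (E →L[ℝ] E)) (hder : ∀ F ∈ I, RD Z F ∈ I)
    (h0 : ∀ F ∈ I, ∀ s ∈ S, F s = 0) :
    ∀ F ∈ I, ∀ s ∈ S, ∀ t : ℝ, F (s * exp (t • Z)) = 0 := by
  intro F hF T hT t
  have hm : ∀ k, ((RD Z)^[k]) F ∈ I := by
    intro k
    induction k with
    | zero => exact hF
    | succ k ih =>
      rw [Function.iterate_succ_apply']
      exact hder _ ih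
  have ha : AnalyticOnNhd ℝ (fun t : ℝ => F (T * exp (t • Z))) Set.univ := by
    intro s _
    exact analyticAt_polyFun (hI F hF)
      (analyticAt_const.mul (analyticAt_exp_smul Z analyticAt_id))
  have := eq_zero_of_derivs (f := fun k t => ((RD Z)^[k]) F (T * exp (t • Z)))
    (fun k s => by
      have := hasDerivAt_RD Z (hI _ (hm k)) T s
      simp only [Function.iterate_succ_apply']
      exact this) ha
    (fun k => by
      simp only [zero_smul, exp_zero, mul_one]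
      exact h0 _ (hm k) T hT) t
  simpa using this

lemma analyticAt_list_prod (l : List (E →L[ℝ] E)) {f : ℝ → ℝ} {s : ℝ} (hf : AnalyticAt ℝ f s) :
    AnalyticAt ℝ (fun t : ℝ => (l.map fun Z => (exp (f t • Z) : E →L[ℝ] E)).prod) s := by
  induction l with
  | nil => simpa using analyticAt_const
  | cons Z l ih =>
    simp only [List.map_cons, List.prod_cons]
    exact (analyticAt_exp_smul Z hf).mul ih

variable {G : Subgroup (E →L[ℝ] E)ˣ}

lemma list_prod_mem {l : List (E →L[ℝ] E)} (hl : ∀ Z ∈ l, Z ∈ lieA G) (c : ℝ) :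
    ∃ g ∈ G, (g : E →L[ℝ] E) = (l.map fun Z => (exp (c • Z) : E →L[ℝ] E)).prod := by
  induction l with
  | nil => exact ⟨1, G.one_mem, by simp⟩
  | cons Z l ih =>
    obtain ⟨g, hg, h1⟩ := ih fun Z' h' => hl Z' (List.mem_cons_of_mem _ h')
    refine ⟨uexp (c • Z) * g, G.mul_mem (mem_lieA.1 (hl Z List.mem_cons_self) c) hg, ?_⟩
    simp only [Units.val_mul, uexp_val, List.map_cons, List.prod_cons, h1]

theorem zariski_irreducibleA (hG : SG G) {F F' : (E →L[ℝ] E) → ℝ}
    (hF : F ∈ PolyFun (E →L[ℝ] E)) (hF' : F' ∈ PolyFun (E →L[ℝ] E))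
    (h : ∀ g ∈ G, F (g : E →L[ℝ] E) * F' (g : E →L[ℝ] E) = 0) :
    (∀ g ∈ G, F (g : E →L[ℝ] E) = 0) ∨ ∀ g ∈ G, F' (g : E →L[ℝ] E) = 0 := by
  by_contra hcon
  push Not at hcon
  obtain ⟨⟨g, hg, h1⟩, ⟨g', hg', h2⟩⟩ := hcon
  have e1 : ∃ l : List (E →L[ℝ] E), (∀ Z ∈ l, Z ∈ lieA G) ∧ F (l.map exp).prod ≠ 0 := by
    by_contra hc
    push Not at hc
    exact h1 (hG.connected F hF hc g hg)
  have e2 : ∃ l : List (E →L[ℝ] E), (∀ Z ∈ l, Z ∈ lieA G) ∧ F' (l.map exp).prod ≠ 0 := by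
    by_contra hc
    push Not at hc
    exact h2 (hG.connected F' hF' hc g' hg')
  obtain ⟨l, hl, h3⟩ := e1
  obtain ⟨l', hl', h4⟩ := e2
  let q : ℝ → (E →L[ℝ] E) := fun s =>
    (l.map fun Z => (exp ((1 - s) • Z) : E →L[ℝ] E)).prod *
      (l'.map fun Z => (exp (s • Z) : E →L[ℝ] E)).prod
  have hq : ∀ s, AnalyticAt ℝ q s := fun s =>
    (analyticAt_list_prod l (analyticAt_const.sub analyticAt_id)).mul
      (analyticAt_list_prod l' analyticAt_id)
  have hqG : ∀ s, F (q s) * F' (q s) = 0 := by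
    intro s
    obtain ⟨a, ha, ha'⟩ := list_prod_mem hl (1 - s)
    obtain ⟨b, hb, hb'⟩ := list_prod_mem hl' s
    have := h (a * b) (G.mul_mem ha hb)
    rw [Units.val_mul, ha', hb'] at this
    exact this
  have key := AnalyticOnNhd.eq_zero_or_eq_zero_of_mul_eq_zero (U := Set.univ)
    (f := fun s => F (q s)) (g := fun s => F' (q s))
    (fun s _ => analyticAt_polyFun hF (hq s)) (fun s _ => analyticAt_polyFun hF' (hq s))
    (fun s _ => hqG s) isPreconnected_univ
  rcases key with key | key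
  · apply h3
    have := key 0 (Set.mem_univ _)
    simpa [q] using this
  · apply h4
    have := key 1 (Set.mem_univ _)
    simpa [q] using this

/-! ### commutation with functions of a diagonal operator -/

section diag

variable {κ : Type*} [Fintype κ] (b : OrthonormalBasis κ ℝ E)

lemma dg_commute {f g : κ → ℝ} (hfg : ∀ i j, f i = f j → g i = g j) {T : E →L[ℝ] E}
    (h : T * dg b f = dg b f * T) : T * dg b g = dg b g * T := by
  classical
  have h1 : ∀ i j, f j * ⟪b i, T (b j)⟫_ℝ = f i * ⟪b i, T (b j)⟫_ℝ := by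
    intro i j
    have e := congrArg (fun S : E →L[ℝ] E => ⟪b i, S (b j)⟫_ℝ) h
    simp only [opmul_apply] at e
    rw [dg_basis, map_smul, inner_smul_right, dg_apply] at e
    rw [e, inner_sum]
    simp only [inner_smul_right, OrthonormalBasis.inner_eq_ite]
    simp
  apply dg_ext b
  intro j
  rw [opmul_apply, opmul_apply, dg_basis, map_smul, dg_apply]
  conv_lhs => rw [← b.sum_repr' (T (b j)), Finset.smul_sum]
  refine Finset.sum_congr rfl fun i _ => ?_
  rw [smul_smul]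
  congr 1
  by_cases h2 : ⟪b i, T (b j)⟫_ℝ = 0
  · rw [h2]; simp
  · rw [hfg i j (mul_right_cancel₀ h2 (h1 i j)).symm]

end diag

/-- logarithm of positive elements of `G`, with commutation -/
theorem exists_logA (hG : SG G) {P : (E →L[ℝ] E)ˣ} (hP : P ∈ G)
    (hsym : star (P : E →L[ℝ] E) = P) (hpos : ∀ v : E, v ≠ 0 → 0 < ⟪(P : E →L[ℝ] E) v, v⟫_ℝ) :
    ∃ S ∈ lieA G, star S = S ∧ uexp S = P ∧
      ∀ T : E →L[ℝ] E, T * P = P * T → T * S = S * T := by
  have hs : LinearMap.IsSymmetric ((P : E →L[ℝ] E) : E →ₗ[ℝ] E) := by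
    rw [← ContinuousLinearMap.isSelfAdjoint_iff_isSymmetric]
    exact hsym
  obtain ⟨n, hn⟩ : ∃ n, Module.finrank ℝ E = n := ⟨_, rfl⟩
  set b := hs.eigenvectorBasis hn with hb
  set lam := hs.eigenvalues hn with hlam
  have hPb : ∀ i, (P : E →L[ℝ] E) (b i) = lam i • b i := fun i =>
    hs.apply_eigenvectorBasis hn i
  have hlpos : ∀ i, 0 < lam i := by
    intro i
    have h1 := hpos (b i) (b.orthonormal.ne_zero i)
    rw [hPb, inner_smul_left, real_inner_self_eq_norm_sq, b.orthonormal.1 i] at h1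
    simpa using h1
  have hPd : (P : E →L[ℝ] E) = dg b lam := by
    apply dg_ext b
    intro j
    rw [hPb, dg_basis]
  set S : E →L[ℝ] E := dg b (fun i => Real.log (lam i)) with hS
  have hexp : ∀ t : ℝ, exp (t • S) = dg b (fun i => Real.exp (Real.log (lam i) * t)) := by
    intro t
    rw [hS, ← dg_smul, dg_exp]
    congr 1
    ext i
    simp [mul_comm]
  have hu : uexp S = P := by
    ext1
    rw [uexp_val]
    have := hexp 1
    rw [one_smul] at this
    rw [this, hPd]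
    congr 1
    ext i
    rw [mul_one, Real.exp_log (hlpos i)]
  refine ⟨S, ?_, dg_star b _, hu, ?_⟩
  · rw [mem_lieA]
    intro t
    apply hG.closed
    intro F hF hv
    rw [uexp_val, hexp]
    refine ES.eq_zero (polyFun_dg_mem_ES b hF fun i => Real.log (lam i)) (fun n => ?_) t
    rw [← hexp, ← uexp_val, uexp_nsmul, hu]
    exact hv _ (G.pow_mem hP n)
  · intro T hT
    rw [hPd] at hT
    exact dg_commute b (fun i j hij => by rw [hij]) hT

lemma star_mul_self_pos (g : (E →L[ℝ] E)ˣ) (v : E) (hv : v ≠ 0) :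
    0 < ⟪(star (g : E →L[ℝ] E) * g) v, v⟫_ℝ := by
  rw [opmul_apply, ContinuousLinearMap.star_eq_adjoint,
    ContinuousLinearMap.adjoint_inner_left, real_inner_self_eq_norm_sq]
  have : (g : E →L[ℝ] E) v ≠ 0 := by
    intro h0
    apply hv
    have h1 : ((g⁻¹ : (E →L[ℝ] E)ˣ) : E →L[ℝ] E) ((g : E →L[ℝ] E) v) = v := by
      rw [← opmul_apply, ← Units.val_mul, inv_mul_cancel]
      rfl
    rw [h0, map_zero] at h1
    exact h1.symm
  have := norm_pos_iff.2 this
  positivity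

/-- logarithm of `g* g` -/
theorem exists_log2A (hG : SG G) {g : (E →L[ℝ] E)ˣ} (hg : g ∈ G) :
    ∃ Y ∈ lieA G, star Y = Y ∧ star (g : E →L[ℝ] E) * g = exp ((2 : ℝ) • Y) ∧
      ∀ T : E →L[ℝ] E, T * (star (g : E →L[ℝ] E) * g) = (star (g : E →L[ℝ] E) * g) * T →
        T * Y = Y * T := by
  obtain ⟨S, hS, hSs, hSe, hSc⟩ := exists_logA hG (G.mul_mem (hG.star_mem g hg) hg) (by simp)
    (fun v hv => by
      simpa only [Units.val_mul, Units.coe_star] using star_mul_self_pos g v hv)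
  refine ⟨(1 / 2 : ℝ) • S, (lieSub hG).smul_mem _ hS, ?_, ?_, ?_⟩
  · rw [star_smul, hSs]; simp
  · rw [smul_smul]
    have := congrArg (fun u : (E →L[ℝ] E)ˣ => (u : E →L[ℝ] E)) hSe
    simp only [uexp_val, Units.val_mul, Units.coe_star] at this
    rw [← this]
    norm_num
  · intro T hT
    have := hSc T (by simpa only [Units.val_mul, Units.coe_star] using hT)
    rw [mul_smul_comm, smul_mul_assoc, this]

end Pool.Agent.Lib.MP_d9b062_al.H64

end

/-! ## from `MP_d9b062_al_h64.Alg` -/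

section
/-!
# Task ALG: the statements for `V N`
-/

namespace Pool.Agent.Lib.MP_d9b062_al

open NormedSpace Filter
open scoped Topology

namespace H64

variable {N : ℕ}

/-- an entry of the matrix, as a linear functional -/
noncomputable def entry (ij : Fin N × Fin N) : Op N →ₗ[ℝ] ℝ where
  toFun T := T (EuclideanSpace.single ij.2 1) ij.1
  map_add' _ _ := rfl
  map_smul' _ _ := rfl

lemma entry_apply (ij : Fin N × Fin N) (T : Op N) :
    entry ij T = T (EuclideanSpace.single ij.2 1) ij.1 := rfl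

/-- matrix units -/
noncomputable def mUnit (ij : Fin N × Fin N) : Op N :=
  (innerSL ℝ (EuclideanSpace.single ij.2 (1 : ℝ))).smulRight (EuclideanSpace.single ij.1 1)

lemma V_sum (v : V N) : v = ∑ j, v j • (EuclideanSpace.single j (1 : ℝ) : V N) := by
  ext k
  simp [Finset.sum_apply, Pi.single_apply]

lemma mUnit_single (ij : Fin N × Fin N) (k : Fin N) :
    mUnit ij (EuclideanSpace.single k 1) = if ij.2 = k then EuclideanSpace.single ij.1 (1 : ℝ) else 0 := by
  have : mUnit ij (EuclideanSpace.single k 1) =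
    inner ℝ (EuclideanSpace.single ij.2 (1 : ℝ)) (EuclideanSpace.single k (1 : ℝ)) • EuclideanSpace.single ij.1 (1 : ℝ) := rfl
  rw [this, EuclideanSpace.inner_single_left]
  by_cases h : ij.2 = k
  · simp [h]
  · simp [h]

lemma op_ext {S T : Op N} (h : ∀ k, S (EuclideanSpace.single k 1) = T (EuclideanSpace.single k 1)) :
    S = T := by
  ext1 v
  rw [V_sum v, map_sum, map_sum]
  refine Finset.sum_congr rfl fun j _ => ?_
  rw [map_smul, map_smul, h]

lemma mUnit_sum (T : Op N) : T = ∑ ij : Fin N × Fin N, entry ij T • mUnit ij := by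
  apply op_ext
  intro k
  have e1 : (∑ ij : Fin N × Fin N, entry ij T • mUnit ij) (EuclideanSpace.single k 1) =
      ∑ ij : Fin N × Fin N, entry ij T • mUnit ij (EuclideanSpace.single k 1) := by
    rw [sum_apply]
    rfl
  rw [e1]
  simp only [mUnit_single]
  rw [Fintype.sum_prod_type]
  conv_lhs => rw [V_sum (T (EuclideanSpace.single k 1))]
  refine Finset.sum_congr rfl fun i _ => ?_
  rw [Finset.sum_eq_single k]
  · simp [entry_apply]
  · intro b _ hb
    simp [hb]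
  · simp

end H64

open H64

section ALG

variable {N : ℕ} {G : Subgroup (Op N)ˣ}

theorem polyVal_mem (p : MvPolynomial (Fin N × Fin N) ℝ) :
    (fun T : Op N => polyVal p T) ∈ PolyFun (Op N) := by
  induction p using MvPolynomial.induction_on with
  | C a => 
    simp only [polyVal, MvPolynomial.eval_C]
    exact PolyFun.const a
  | add p q hp hq =>
    have e : (fun T : Op N => polyVal (p + q) T) = fun T => polyVal p T + polyVal q T := by
      ext T; simp only [polyVal, map_add]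
    rw [e]
    exact PolyFun.add hp hq
  | mul_X p i hp =>
    have e : (fun T : Op N => polyVal (p * MvPolynomial.X i) T) = fun T => polyVal p T * entry i T := by
      ext T; simp only [polyVal, map_mul, MvPolynomial.eval_X, entry_apply]
    rw [e]
    exact PolyFun.mul hp (PolyFun.linear (entry i))

theorem exists_polyVal {F : Op N → ℝ} (hF : F ∈ PolyFun (Op N)) :
    ∃ p : MvPolynomial (Fin N × Fin N) ℝ, ∀ T, F T = polyVal p T := by
  refine PolyFun.induction
    (p := fun F => ∃ p : MvPolynomial (Fin N × Fin N) ℝ, ∀ T, F T = polyVal p T)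
    ?_ ?_ ?_ ?_ hF
  · intro φ
    refine ⟨∑ ij : Fin N × Fin N, MvPolynomial.C (φ (mUnit ij)) * MvPolynomial.X ij, ?_⟩
    intro T
    conv_lhs => rw [mUnit_sum T]
    rw [map_sum]
    simp only [polyVal, map_sum, map_mul, MvPolynomial.eval_C, MvPolynomial.eval_X]
    refine Finset.sum_congr rfl fun ij _ => ?_
    rw [map_smul, smul_eq_mul, mul_comm]
    rfl
  · intro c
    exact ⟨MvPolynomial.C c, fun T => by simp only [polyVal, MvPolynomial.eval_C]⟩
  · rintro f g ⟨p, hp⟩ ⟨q, hq⟩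
    exact ⟨p + q, fun T => by show f T + g T = _; rw [hp, hq]; simp only [polyVal, map_add]⟩
  · rintro f g ⟨p, hp⟩ ⟨q, hq⟩
    exact ⟨p * q, fun T => by show f T * g T = _; rw [hp, hq]; simp only [polyVal, map_mul]⟩

/-- The derivative of `t ↦ F (h * exp (t • Z))` at `0` is again polynomial. -/
theorem PolyFun.deriv_mem {F : Op N → ℝ} (hF : F ∈ PolyFun (Op N)) (Z : Op N) :
    (fun h : Op N => fderiv ℝ F h (h * Z)) ∈ PolyFun (Op N) := RD_mem Z hF

/-- A family of polynomials vanishing on `S` and stable under `F ↦ d/dt F (h * exp (t Z))`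
vanishes on `S * exp (t Z)` (analyticity). -/
theorem PolyFun.exp_eq_zero {I : Set (Op N → ℝ)} {S : Set (Op N)} {Z : Op N}
    (hI : ∀ F ∈ I, F ∈ PolyFun (Op N))
    (hder : ∀ F ∈ I, (fun h : Op N => fderiv ℝ F h (h * Z)) ∈ I)
    (h0 : ∀ F ∈ I, ∀ s ∈ S, F s = 0) :
    ∀ F ∈ I, ∀ s ∈ S, ∀ t : ℝ, F (s * exp (t • Z)) = 0 := exp_eq_zeroA hI hder h0

/-- the abstract version of the hypotheses -/
theorem IsConnectedSemisimple.sg (hG : IsConnectedSemisimple G) : SG G where
  closed g h := by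
    refine hG.closed g fun p hp => ?_
    exact h _ (polyVal_mem p) hp
  connected F hF h := by
    obtain ⟨p, hp⟩ := exists_polyVal hF
    intro g hg
    rw [hp]
    refine hG.connected p (fun l hl => ?_) g hg
    rw [← hp]
    exact h l hl
  star_mem := hG.star_mem

/-- `Z` is in the Lie algebra iff `F ↦ d/dt F (h * exp (t Z))` preserves the ideal of `G`. -/
theorem mem_lieAlg_iff (hG : IsConnectedSemisimple G) (Z : Op N) :
    Z ∈ lieAlg G ↔ ∀ F ∈ PolyFun (Op N), (∀ g ∈ G, F (g : Op N) = 0) →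
      ∀ g ∈ G, fderiv ℝ F (g : Op N) ((g : Op N) * Z) = 0 := mem_lieA_iff hG.sg

theorem lieAlg_add (hG : IsConnectedSemisimple G) {Y Z : Op N} (hY : Y ∈ lieAlg G)
    (hZ : Z ∈ lieAlg G) : Y + Z ∈ lieAlg G := (lieSub hG.sg).add_mem hY hZ

theorem lieAlg_smul {Z : Op N} (c : ℝ) (hZ : Z ∈ lieAlg G) : c • Z ∈ lieAlg G := by
  intro t
  obtain ⟨g, hg, h⟩ := hZ (t * c)
  exact ⟨g, hg, by rw [h, smul_smul]⟩

theorem lieAlg_bracket (hG : IsConnectedSemisimple G) {Y Z : Op N} (hY : Y ∈ lieAlg G)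
    (hZ : Z ∈ lieAlg G) : Y * Z - Z * Y ∈ lieAlg G := lieA_bracket hG.sg hY hZ

theorem lieAlg_star (hG : IsConnectedSemisimple G) {Z : Op N} (hZ : Z ∈ lieAlg G) :
    star Z ∈ lieAlg G := lieA_star hG.sg hZ

theorem lieAlg_conj {g : (Op N)ˣ} (hg : g ∈ G) {Z : Op N} (hZ : Z ∈ lieAlg G) :
    (g : Op N) * Z * ((g⁻¹ : (Op N)ˣ) : Op N) ∈ lieAlg G := lieA_conj hZ hg

/-- logarithm of `g* g` (the powers of a positive element of an algebraic group are in it) -/
theorem exists_log (hG : IsConnectedSemisimple G) {g : (Op N)ˣ} (hg : g ∈ G) :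
    ∃ Y ∈ lieAlg G, star Y = Y ∧ star (g : Op N) * g = exp ((2 : ℝ) • Y) ∧
      ∀ T : Op N, T * (star (g : Op N) * g) = (star (g : Op N) * g) * T → T * Y = Y * T :=
  exists_log2A hG.sg hg

/-- a connected group is Zariski irreducible -/
theorem zariski_irreducible (hG : IsConnectedSemisimple G) {F F' : Op N → ℝ}
    (hF : F ∈ PolyFun (Op N)) (hF' : F' ∈ PolyFun (Op N))
    (h : ∀ g ∈ G, F (g : Op N) * F' (g : Op N) = 0) :
    (∀ g ∈ G, F (g : Op N) = 0) ∨ ∀ g ∈ G, F' (g : Op N) = 0 :=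
  zariski_irreducibleA hG.sg hF hF' h

end ALG

end Pool.Agent.Lib.MP_d9b062_al

end

/-! ## from `MP_d9b062_al.Conj` -/

section
/-!
# Conjugation invariance
-/

namespace Pool.Agent.Lib.MP_d9b062_al

open NormedSpace

variable {N : ℕ}

/-- conjugation by `g` as a linear map -/
noncomputable def cjL (g : (Op N)ˣ) : Op N →ₗ[ℝ] Op N where
  toFun T := (g : Op N) * T * ((g⁻¹ : (Op N)ˣ) : Op N)
  map_add' S T := by rw [mul_add, add_mul]
  map_smul' a T := by
    rw [RingHom.id_apply]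
    ext v
    simp

lemma cjL_apply (g : (Op N)ˣ) (T : Op N) :
    cjL g T = (g : Op N) * T * ((g⁻¹ : (Op N)ˣ) : Op N) := rfl

lemma cjL_mul (g : (Op N)ˣ) (S T : Op N) : cjL g (S * T) = cjL g S * cjL g T := by
  simp only [cjL_apply]
  calc (g : Op N) * (S * T) * ((g⁻¹ : (Op N)ˣ) : Op N)
      = (g : Op N) * S * 1 * T * ((g⁻¹ : (Op N)ˣ) : Op N) := by noncomm_ring
    _ = (g : Op N) * S * (((g⁻¹ : (Op N)ˣ) : Op N) * g) * T * ((g⁻¹ : (Op N)ˣ) : Op N) := by
        rw [Units.inv_mul]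
    _ = _ := by noncomm_ring

lemma cjL_inv (g : (Op N)ˣ) (T : Op N) : cjL g⁻¹ (cjL g T) = T := by
  simp only [cjL_apply, inv_inv]
  calc ((g⁻¹ : (Op N)ˣ) : Op N) * ((g : Op N) * T * ((g⁻¹ : (Op N)ˣ) : Op N)) * (g : Op N)
      = (((g⁻¹ : (Op N)ˣ) : Op N) * (g : Op N)) * T * (((g⁻¹ : (Op N)ˣ) : Op N) * (g : Op N)) := by
        noncomm_ring
    _ = T := by rw [Units.inv_mul, one_mul, mul_one]

lemma cjL_inv' (g : (Op N)ˣ) (T : Op N) : cjL g (cjL g⁻¹ T) = T := by
  have := cjL_inv g⁻¹ T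
  rwa [inv_inv] at this

lemma cjL_injective (g : (Op N)ˣ) : Function.Injective (cjL g) :=
  Function.LeftInverse.injective (cjL_inv g)

lemma cjL_exp (g : (Op N)ˣ) (T : Op N) : exp (cjL g T) = cjL g (exp T) := by
  let _ : NormedAlgebra ℚ (Op N) := .restrictScalars ℚ ℝ _
  exact exp_units_conj g T

lemma cjL_exp_prod (g : (Op N)ˣ) (l : List (Op N)) :
    ((l.map (cjL g)).map exp).prod = cjL g (l.map exp).prod := by
  induction l with
  | nil =>
    simp only [List.map_nil, List.prod_nil, cjL_apply, mul_one]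
    rw [Units.mul_inv]
  | cons a l ih =>
    simp only [List.map_cons, List.prod_cons] at ih ⊢
    rw [ih, cjL_exp, ← cjL_mul]

/-- the conjugated group -/
def cjG (g : (Op N)ˣ) (G : Subgroup (Op N)ˣ) : Subgroup (Op N)ˣ :=
  G.map (MulAut.conj g).toMonoidHom

lemma mem_cjG {g : (Op N)ˣ} {G : Subgroup (Op N)ˣ} {h : (Op N)ˣ} :
    h ∈ cjG g G ↔ g⁻¹ * h * g ∈ G := by
  constructor
  · rintro ⟨x, hx, rfl⟩
    have : g⁻¹ * ((MulAut.conj g).toMonoidHom x) * g = x := by
      change g⁻¹ * (g * x * g⁻¹) * g = x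
      group
    rw [this]; exact hx
  · intro hh
    refine ⟨g⁻¹ * h * g, hh, ?_⟩
    change g * (g⁻¹ * h * g) * g⁻¹ = h
    group

lemma conj_mem_cjG {g : (Op N)ˣ} {G : Subgroup (Op N)ˣ} {h : (Op N)ˣ} (hh : h ∈ G) :
    g * h * g⁻¹ ∈ cjG g G := by
  rw [mem_cjG]
  have : g⁻¹ * (g * h * g⁻¹) * g = h := by group
  rw [this]; exact hh

lemma lieAlg_cjG {g : (Op N)ˣ} {G : Subgroup (Op N)ˣ} {Z : Op N} :
    cjL g Z ∈ lieAlg (cjG g G) ↔ Z ∈ lieAlg G := by
  constructor
  · intro h t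
    obtain ⟨x, hx, hxe⟩ := h t
    refine ⟨g⁻¹ * x * g, mem_cjG.mp hx, ?_⟩
    have h1 : cjL g (exp (t • Z)) = (x : Op N) := by
      rw [← cjL_exp, map_smul, hxe]
    calc ((g⁻¹ * x * g : (Op N)ˣ) : Op N) = cjL g⁻¹ (x : Op N) := by
          rw [cjL_apply, inv_inv, Units.val_mul, Units.val_mul]
      _ = exp (t • Z) := by rw [← h1, cjL_inv]
  · intro h t
    obtain ⟨x, hx, hxe⟩ := h t
    refine ⟨g * x * g⁻¹, conj_mem_cjG hx, ?_⟩
    rw [← map_smul, cjL_exp, ← hxe, cjL_apply, Units.val_mul, Units.val_mul]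

lemma lieAlg_cjG' {g : (Op N)ˣ} {G : Subgroup (Op N)ˣ} {Z : Op N} :
    Z ∈ lieAlg (cjG g G) ↔ cjL g⁻¹ Z ∈ lieAlg G := by
  have := lieAlg_cjG (g := g) (G := G) (Z := cjL g⁻¹ Z)
  rwa [cjL_inv'] at this

/-- polynomials and conjugation -/
lemma exists_polyVal_conj (g : (Op N)ˣ) (p : MvPolynomial (Fin N × Fin N) ℝ) :
    ∃ q : MvPolynomial (Fin N × Fin N) ℝ, ∀ T, polyVal p (cjL g T) = polyVal q T := by
  have h : (fun T => (fun S => polyVal p S) (cjL g T)) ∈ PolyFun (Op N) :=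
    PolyFun.comp (polyVal_mem p) (IsPolyMap.linear (cjL g))
  exact exists_polyVal h

/-- `G` is closed iff its conjugate is -/
lemma closed_cjG {g : (Op N)ˣ} {G : Subgroup (Op N)ˣ}
    (hG : ∀ g : (Op N)ˣ, (∀ p : MvPolynomial (Fin N × Fin N) ℝ,
      (∀ h ∈ G, polyVal p (h : Op N) = 0) → polyVal p (g : Op N) = 0) → g ∈ G) :
    ∀ h : (Op N)ˣ, (∀ p : MvPolynomial (Fin N × Fin N) ℝ,
      (∀ x ∈ cjG g G, polyVal p (x : Op N) = 0) → polyVal p (h : Op N) = 0) → h ∈ cjG g G := by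
  intro h hh
  rw [mem_cjG]
  apply hG
  intro p hp
  obtain ⟨q, hq⟩ := exists_polyVal_conj g⁻¹ p
  have h1 : polyVal q (h : Op N) = 0 := by
    apply hh
    intro x hx
    rw [← hq]
    have := hp _ (mem_cjG.mp hx)
    rw [Units.val_mul, Units.val_mul] at this
    rw [cjL_apply, inv_inv]
    exact this
  rw [← hq, cjL_apply, inv_inv] at h1
  rw [Units.val_mul, Units.val_mul]
  exact h1

lemma connected_cjG {g : (Op N)ˣ} {G : Subgroup (Op N)ˣ}
    (hG : ∀ p : MvPolynomial (Fin N × Fin N) ℝ,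
      (∀ l : List (Op N), (∀ Z ∈ l, Z ∈ lieAlg G) → polyVal p (l.map exp).prod = 0) →
      ∀ g ∈ G, polyVal p (g : Op N) = 0) :
    ∀ p : MvPolynomial (Fin N × Fin N) ℝ,
      (∀ l : List (Op N), (∀ Z ∈ l, Z ∈ lieAlg (cjG g G)) → polyVal p (l.map exp).prod = 0) →
      ∀ h ∈ cjG g G, polyVal p (h : Op N) = 0 := by
  intro p hp h hh
  obtain ⟨q, hq⟩ := exists_polyVal_conj g p
  have h1 := hG q (fun l hl => by
    rw [← hq, ← cjL_exp_prod]
    apply hp
    intro Z hZ
    obtain ⟨Y, hY, rfl⟩ := List.mem_map.mp hZ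
    exact lieAlg_cjG.mpr (hl Y hY)) _ (mem_cjG.mp hh)
  rw [← hq, Units.val_mul, Units.val_mul] at h1
  have h2 : cjL g (((g⁻¹ : (Op N)ˣ) : Op N) * (h : Op N) * (g : Op N)) = (h : Op N) := by
    have := cjL_inv' g (h : Op N)
    rw [cjL_apply g⁻¹, inv_inv] at this
    exact this
  rwa [h2] at h1

lemma irreducible_cjG {g : (Op N)ˣ} {G : Subgroup (Op N)ˣ}
    (hG : ∀ W : Submodule ℝ (V N), (∀ g ∈ G, ∀ v ∈ W, (g : Op N) v ∈ W) → W = ⊥ ∨ W = ⊤) :
    ∀ W : Submodule ℝ (V N), (∀ h ∈ cjG g G, ∀ v ∈ W, (h : Op N) v ∈ W) → W = ⊥ ∨ W = ⊤ := by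
  intro W hW
  have hgg : ∀ v, ((g⁻¹ : (Op N)ˣ) : Op N) ((g : Op N) v) = v := by
    intro v
    have : (((g⁻¹ : (Op N)ˣ) : Op N) * (g : Op N)) v = v := by rw [Units.inv_mul]; rfl
    exact this
  have hgg' : ∀ v, (g : Op N) (((g⁻¹ : (Op N)ˣ) : Op N) v) = v := by
    intro v
    have : ((g : Op N) * ((g⁻¹ : (Op N)ˣ) : Op N)) v = v := by rw [Units.mul_inv]; rfl
    exact this
  have h1 := hG (W.comap ((g : Op N) : V N →ₗ[ℝ] V N)) (fun x hx v hv => by
    rw [Submodule.mem_comap] at hv ⊢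
    have := hW _ (conj_mem_cjG (g := g) hx) _ hv
    rw [Units.val_mul, Units.val_mul] at this
    change (g : Op N) ((x : Op N) (((g⁻¹ : (Op N)ˣ) : Op N) ((g : Op N) v))) ∈ W at this
    rw [hgg] at this
    exact this)
  rcases h1 with h1 | h1
  · left
    rw [Submodule.eq_bot_iff] at h1 ⊢
    intro v hv
    have := h1 (((g⁻¹ : (Op N)ˣ) : Op N) v) (by
      rw [Submodule.mem_comap]
      change (g : Op N) (((g⁻¹ : (Op N)ˣ) : Op N) v) ∈ W
      rw [hgg']; exact hv)
    rw [← hgg' v, this, map_zero]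
  · right
    rw [Submodule.eq_top_iff'] at h1 ⊢
    intro v
    have := h1 (((g⁻¹ : (Op N)ˣ) : Op N) v)
    rw [Submodule.mem_comap] at this
    change (g : Op N) (((g⁻¹ : (Op N)ˣ) : Op N) v) ∈ W at this
    rwa [hgg'] at this

/-- the conjugate of a space of operators -/
noncomputable def cjA (g : (Op N)ˣ) (A : Submodule ℝ (Op N)) : Submodule ℝ (Op N) := A.map (cjL g)

lemma mem_cjA {g : (Op N)ˣ} {A : Submodule ℝ (Op N)} {X : Op N} :
    X ∈ cjA g A ↔ cjL g⁻¹ X ∈ A := by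
  constructor
  · rintro ⟨Y, hY, rfl⟩
    rw [cjL_inv]; exact hY
  · intro h
    exact ⟨_, h, cjL_inv' g X⟩

lemma cjL_mem_cjA {g : (Op N)ˣ} {A : Submodule ℝ (Op N)} {X : Op N} (h : X ∈ A) :
    cjL g X ∈ cjA g A := ⟨X, h, rfl⟩

/-- the identification of `A` with its conjugate -/
noncomputable def cjE (g : (Op N)ˣ) (A : Submodule ℝ (Op N)) : A →ₗ[ℝ] cjA g A :=
  (cjL g).restrict (fun _ h => cjL_mem_cjA h)

lemma cjE_apply (g : (Op N)ˣ) (A : Submodule ℝ (Op N)) (X : A) :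
    ((cjE g A X : cjA g A) : Op N) = cjL g X := rfl

lemma cjE_surj (g : (Op N)ˣ) (A : Submodule ℝ (Op N)) (X : cjA g A) :
    ∃ Y : A, cjE g A Y = X := by
  obtain ⟨Y, hY, h⟩ := X.2
  exact ⟨⟨Y, hY⟩, Subtype.ext h⟩

lemma isRoot_cj {g : (Op N)ˣ} {G : Subgroup (Op N)ˣ} {A : Submodule ℝ (Op N)}
    {α : cjA g A →ₗ[ℝ] ℝ} : IsRoot (cjG g G) (cjA g A) α → IsRoot G A (α ∘ₗ cjE g A) := by
  rintro ⟨hne, Z, hZ, hZ0, h⟩
  refine ⟨?_, cjL g⁻¹ Z, lieAlg_cjG'.mp hZ, ?_, ?_⟩
  · intro h0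
    apply hne
    ext X
    obtain ⟨Y, rfl⟩ := cjE_surj g A X
    exact LinearMap.congr_fun h0 Y
  · intro h0
    apply hZ0
    rw [← cjL_inv' g Z, h0, map_zero]
  · intro X
    apply cjL_injective g
    rw [map_sub, cjL_mul, cjL_mul, cjL_inv', map_smul, cjL_inv']
    exact h (cjE g A X)

lemma isRoot_cj' {g : (Op N)ˣ} {G : Subgroup (Op N)ˣ} {A : Submodule ℝ (Op N)}
    {α : A →ₗ[ℝ] ℝ} (hα : IsRoot G A α) {β : cjA g A →ₗ[ℝ] ℝ} (hβ : β ∘ₗ cjE g A = α) :
    IsRoot (cjG g G) (cjA g A) β := by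
  obtain ⟨hne, Z, hZ, hZ0, h⟩ := hα
  refine ⟨?_, cjL g Z, lieAlg_cjG.mpr hZ, ?_, ?_⟩
  · rintro rfl
    apply hne
    rw [← hβ, LinearMap.zero_comp]
  · intro h0
    apply hZ0
    rw [← cjL_inv g Z, h0, map_zero]
  · intro X
    obtain ⟨Y, rfl⟩ := cjE_surj g A X
    have := congrArg (cjL g) (h Y)
    rw [map_sub, cjL_mul, cjL_mul, map_smul] at this
    rw [cjE_apply, this]
    have h2 : β (cjE g A Y) = α Y := by rw [← hβ]; rfl
    rw [h2]

end Pool.Agent.Lib.MP_d9b062_al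

end

/-! ## from `MP_d9b062_al_h9.Sym` -/

section
/-!
# Simultaneous diagonalization over `ℝ`
-/

namespace Pool.Agent.Lib.MP_d9b062_al

open NormedSpace Module

/-- for a diagonalizable operator, generalized eigenvectors are eigenvectors -/
theorem IsHyperbolic.eigen {N : ℕ} {X : Op N} (hX : IsHyperbolic X) {μ : ℝ} {v : V N}
    (hv : v ∈ Module.End.maxGenEigenspace (X : V N →ₗ[ℝ] V N) μ) : X v = μ • v := by
  obtain ⟨b, hb⟩ := hX
  choose a ha using hb
  rw [Module.End.mem_maxGenEigenspace] at hv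
  obtain ⟨k, hk⟩ := hv
  set T : V N →ₗ[ℝ] V N := (X : V N →ₗ[ℝ] V N) - μ • 1 with hT
  have hTb : ∀ i, T (b i) = (a i - μ) • b i := by
    intro i
    have h1 : T (b i) = X (b i) - μ • b i := rfl
    rw [h1, ha, sub_smul]
  have hTk : ∀ (k : ℕ) i, (T ^ k) (b i) = (a i - μ) ^ k • b i := by
    intro k i
    induction k with
    | zero => simp
    | succ k ih =>
      rw [pow_succ, Module.End.mul_apply, hTb, map_smul, ih, smul_smul, pow_succ, mul_comm]
  have h1 : ∀ i, b.repr v i * (a i - μ) ^ k = 0 := by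
    have h2 : (T ^ k) v = ∑ i, (b.repr v i * (a i - μ) ^ k) • b i := by
      conv_lhs => rw [← b.sum_repr v]
      rw [map_sum]
      refine Finset.sum_congr rfl fun i _ => ?_
      rw [map_smul, hTk, smul_smul]
    rw [h2] at hk
    have h3 := Fintype.linearIndependent_iff.1 b.linearIndependent _ hk
    exact h3
  have h2 : X v - μ • v = 0 := by
    have h3 : T v = ∑ i, (b.repr v i * (a i - μ)) • b i := by
      conv_lhs => rw [← b.sum_repr v]
      rw [map_sum]
      refine Finset.sum_congr rfl fun i _ => ?_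
      rw [map_smul, hTb, smul_smul]
    have h4 : T v = X v - μ • v := rfl
    rw [← h4, h3]
    refine Finset.sum_eq_zero fun i _ => ?_
    rcases mul_eq_zero.1 (h1 i) with h5 | h5
    · rw [h5, zero_mul, zero_smul]
    · have h6 : a i - μ = 0 := by
        by_contra h7
        exact pow_ne_zero k h7 h5
      rw [h6, mul_zero, zero_smul]
  exact sub_eq_zero.1 h2

/-- simultaneous diagonalization over `ℝ` -/
theorem exists_joint_basis {N : ℕ} (A : Submodule ℝ (Op N)) (hA : ∀ X ∈ A, IsHyperbolic X)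
    (hAc : ∀ X ∈ A, ∀ Y ∈ A, X * Y = Y * X) :
    ∃ b : Basis (Fin N) ℝ (V N), ∀ X ∈ A, ∀ i, ∃ a : ℝ, X (b i) = a • b i := by
  have htop : ∀ X : A, ⨆ μ, Module.End.maxGenEigenspace ((X : Op N) : V N →ₗ[ℝ] V N) μ = ⊤ := by
    intro X
    obtain ⟨b, hb⟩ := hA X X.2
    rw [eq_top_iff, ← b.span_eq, Submodule.span_le]
    rintro _ ⟨i, rfl⟩
    obtain ⟨a, ha⟩ := hb i
    refine Submodule.mem_iSup_of_mem a ?_
    rw [Module.End.mem_maxGenEigenspace]
    refine ⟨1, ?_⟩
    rw [pow_one]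
    have h1 : (((X : Op N) : V N →ₗ[ℝ] V N) - a • 1) (b i) = (X : Op N) (b i) - a • b i := rfl
    rw [h1, ha, sub_self]
  have h1 := Module.End.iSup_iInf_maxGenEigenspace_eq_top_of_iSup_maxGenEigenspace_eq_top_of_commute
    (fun X : A => (((X : Op N) : V N →ₗ[ℝ] V N) : Module.End ℝ (V N))) (by
      intro X Y _
      show ((X : Op N) : V N →ₗ[ℝ] V N) * ((Y : Op N) : V N →ₗ[ℝ] V N) =
        ((Y : Op N) : V N →ₗ[ℝ] V N) * ((X : Op N) : V N →ₗ[ℝ] V N)
      ext1 v
      exact congrArg (fun T : Op N => T v) (hAc X X.2 Y Y.2)) htop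
  set S : Set (V N) := {v | ∀ X ∈ A, ∃ a : ℝ, X v = a • v} with hS
  have hspan : ⊤ ≤ Submodule.span ℝ S := by
    rw [← h1, iSup_le_iff]
    intro χ v hv
    apply Submodule.subset_span
    intro X hX
    refine ⟨χ ⟨X, hX⟩, ?_⟩
    have h2 := (Submodule.mem_iInf _).1 hv ⟨X, hX⟩
    exact (hA X hX).eigen h2
  let b' := Basis.ofSpan hspan
  have hb' : ∀ i, b' i ∈ S := fun i => Basis.ofSpan_subset hspan ⟨i, rfl⟩
  let e := b'.indexEquiv (EuclideanSpace.basisFun (Fin N) ℝ).toBasis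
  refine ⟨b'.reindex e, fun X hX i => ?_⟩
  rw [Basis.reindex_apply]
  exact hb' _ X hX

/-- simultaneous diagonalization over `ℝ` -/
theorem exists_symmetrizing {N : ℕ} (A : Submodule ℝ (Op N)) (hA : ∀ X ∈ A, IsHyperbolic X)
    (hAc : ∀ X ∈ A, ∀ Y ∈ A, X * Y = Y * X) :
    ∃ g : (Op N)ˣ, ∀ X ∈ A, star ((g : Op N) * X * ((g⁻¹ : (Op N)ˣ) : Op N)) =
      (g : Op N) * X * ((g⁻¹ : (Op N)ˣ) : Op N) := by
  obtain ⟨b, hb⟩ := exists_joint_basis A hA hAc
  let o := EuclideanSpace.basisFun (Fin N) ℝ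
  let e : V N ≃ₗ[ℝ] V N := b.equiv o.toBasis (Equiv.refl _)
  have he : ∀ i, e (b i) = o i := fun i => by
    have := b.equiv_apply i o.toBasis (Equiv.refl _)
    rw [Equiv.refl_apply, OrthonormalBasis.coe_toBasis] at this
    exact this
  have hes : ∀ i, e.symm (o i) = b i := fun i => by rw [← he, e.symm_apply_apply]
  let g : (Op N)ˣ :=
    ⟨LinearMap.toContinuousLinearMap (e : V N →ₗ[ℝ] V N),
      LinearMap.toContinuousLinearMap (e.symm : V N →ₗ[ℝ] V N), by
        ext1 v; exact e.apply_symm_apply v, by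
        ext1 v; exact e.symm_apply_apply v⟩
  refine ⟨g, fun X hX => ?_⟩
  choose a ha using hb X hX
  have h1 : (g : Op N) * X * ((g⁻¹ : (Op N)ˣ) : Op N) = H64.dg o a := by
    apply H64.dg_ext o
    intro j
    rw [H64.dg_basis]
    have h2 : ((g : Op N) * X * ((g⁻¹ : (Op N)ˣ) : Op N)) (o j) = e (X (e.symm (o j))) := rfl
    rw [h2, hes, ha, map_smul, he]
  rw [h1, H64.dg_star]

end Pool.Agent.Lib.MP_d9b062_al

end
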