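import Mathlib
import Pool.Agent.Lib.MP_d9b062_al_m.MBase

/-!
MP_d9b062_al: merged modules (to shorten the build).
-/

set_option autoImplicit false

/-! ## from `MP_d9b062_al.Asy` -/

section
/-!
# Sequences with asymptotic expansions in real exponentials

(Task ASY of the `MP_d9b062_al` project.)
-/

namespace Pool.Agent.Lib.MP_d9b062_al

set_option linter.unusedSectionVars false

open Filter Asymptotics
open scoped Topology

section Asy

variable {E : Type*} [NormedAddCommGroup E] [InnerProductSpace ℝ E] [CompleteSpace E]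
  [FiniteDimensional ℝ E]
variable {F : Type*} [NormedAddCommGroup F] [NormedSpace ℝ F]

/-- finite sums `∑ exp (ρ n) • A_ρ (m ^ n)` with continuous `A_ρ`. -/
def ExpSum (m : E →L[ℝ] E) (f : ℕ → F) : Prop :=
  ∃ (s : Finset ℝ) (A : ℝ → (E →L[ℝ] E) → F), (∀ ρ, Continuous (A ρ)) ∧
    ∀ n : ℕ, f n = ∑ ρ ∈ s, Real.exp (ρ * n) • A ρ (m ^ n)

/-- sequences which are an `ExpSum` up to an arbitrarily small exponential error. -/
def Asy (m : E →L[ℝ] E) (f : ℕ → F) : Prop :=
  ∀ b : ℝ, ∃ g : ℕ → F, ExpSum m g ∧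
    (fun n => f n - g n) =O[atTop] fun n : ℕ => Real.exp (b * n)

variable {m : E →L[ℝ] E}

/-! ### exponential sums -/

omit [CompleteSpace E] [FiniteDimensional ℝ E] in
/-- an index set with repeated exponents is allowed -/
lemma ExpSum.of_index {ι : Type*} (t : Finset ι) (r : ι → ℝ)
    (A : ι → (E →L[ℝ] E) → F)
    (hA : ∀ i, Continuous (A i)) {f : ℕ → F}
    (h : ∀ n : ℕ, f n = ∑ i ∈ t, Real.exp (r i * n) • A i (m ^ n)) : ExpSum m f := by
  classical
  refine ⟨t.image r, fun ρ x => ∑ i ∈ t with r i = ρ, A i x, fun ρ => ?_, fun n => ?_⟩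
  · exact continuous_finsetSum _ fun i _ => hA i
  · rw [h n, ← Finset.sum_fiberwise_of_maps_to
      (fun i hi => Finset.mem_image_of_mem r hi)]
    refine Finset.sum_congr rfl fun ρ _ => ?_
    rw [Finset.smul_sum]
    refine Finset.sum_congr rfl fun i hi => ?_
    rw [(Finset.mem_filter.1 hi).2]

lemma ExpSum.asy {f : ℕ → F} (hf : ExpSum m f) : Asy m f := fun b =>
  ⟨f, hf, by simpa using isBigO_zero _ _⟩

lemma ExpSum.const (c : F) : ExpSum m (fun _ => c) :=
  ⟨{0}, fun _ _ => c, fun _ => continuous_const, fun n => by simp⟩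

lemma ExpSum.add {f g : ℕ → F} (hf : ExpSum m f) (hg : ExpSum m g) :
    ExpSum m (fun n => f n + g n) := by
  obtain ⟨s, A, hA, hf⟩ := hf
  obtain ⟨t, B, hB, hg⟩ := hg
  refine ExpSum.of_index (s.disjSum t) (Sum.elim id id) (Sum.elim A B) ?_ fun n => ?_
  · rintro (i | i)
    · exact hA i
    · exact hB i
  · rw [Finset.sum_disjSum, hf n, hg n]
    rfl

/-- apply a continuous bilinear map -/
lemma ExpSum.bilin {F₁ F₂ : Type*} [NormedAddCommGroup F₁] [NormedSpace ℝ F₁]
    [NormedAddCommGroup F₂] [NormedSpace ℝ F₂] (B : F₁ →L[ℝ] F₂ →L[ℝ] F)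
    {f : ℕ → F₁} {g : ℕ → F₂} (hf : ExpSum m f) (hg : ExpSum m g) :
    ExpSum m (fun n => B (f n) (g n)) := by
  obtain ⟨s, A, hA, hf⟩ := hf
  obtain ⟨t, A', hA', hg⟩ := hg
  refine ExpSum.of_index (s ×ˢ t) (fun i => i.1 + i.2) (fun i x => B (A i.1 x) (A' i.2 x)) ?_
    fun n => ?_
  · intro i
    exact (B.continuous.comp (hA i.1)).clm_apply (hA' i.2)
  · simp only [hf n, hg n, map_sum, map_smul, _root_.sum_apply,
      _root_.smul_apply, Finset.sum_product, Finset.smul_sum, smul_smul]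
    rw [Finset.sum_comm]
    refine Finset.sum_congr rfl fun a _ => Finset.sum_congr rfl fun b _ => ?_
    rw [← Real.exp_add]
    congr 2
    ring

lemma ExpSum.clm {F' : Type*} [NormedAddCommGroup F'] [NormedSpace ℝ F'] (T : F →L[ℝ] F')
    {f : ℕ → F} (hf : ExpSum m f) : ExpSum m (fun n => T (f n)) := by
  obtain ⟨s, A, hA, hf⟩ := hf
  refine ⟨s, fun ρ x => T (A ρ x), fun ρ => T.continuous.comp (hA ρ), fun n => ?_⟩
  simp [hf n, map_sum]

/-- polynomial functions of a finite-dimensional vector valued `ExpSum` -/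
lemma ExpSum.polyFun [FiniteDimensional ℝ F] {Q : F → ℝ} (hQ : Q ∈ PolyFun F) {f : ℕ → F}
    (hf : ExpSum m f) : ExpSum m (fun n => Q (f n)) := by
  refine PolyFun.induction (p := fun Q => ExpSum m (fun n => Q (f n))) (fun φ => ?_)
    (fun c => ExpSum.const c) (fun Q₁ Q₂ h₁ h₂ => h₁.add h₂) (fun Q₁ Q₂ h₁ h₂ => ?_) hQ
  · exact hf.clm (LinearMap.toContinuousLinearMap φ)
  · exact ExpSum.bilin (ContinuousLinearMap.mul ℝ ℝ) h₁ h₂

/-! ### expansions -/

lemma exp_isBigO {a b : ℝ} (hab : a ≤ b) :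
    (fun n : ℕ => Real.exp (a * n)) =O[atTop] fun n : ℕ => Real.exp (b * n) := by
  refine IsBigO.of_bound 1 (Eventually.of_forall fun n => ?_)
  rw [Real.norm_of_nonneg (Real.exp_pos _).le, Real.norm_of_nonneg (Real.exp_pos _).le, one_mul]
  exact Real.exp_le_exp.2 (mul_le_mul_of_nonneg_right hab n.cast_nonneg)

lemma Asy.const (c : F) : Asy m (fun _ => c) := (ExpSum.const c).asy

lemma Asy.add {f g : ℕ → F} (hf : Asy m f) (hg : Asy m g) : Asy m (fun n => f n + g n) := by
  intro b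
  obtain ⟨f', hf', hf⟩ := hf b
  obtain ⟨g', hg', hg⟩ := hg b
  refine ⟨_, hf'.add hg', (hf.add hg).congr_left fun n => ?_⟩
  dsimp only
  abel

lemma Asy.clm {F' : Type*} [NormedAddCommGroup F'] [NormedSpace ℝ F'] (T : F →L[ℝ] F')
    {f : ℕ → F} (hf : Asy m f) : Asy m (fun n => T (f n)) := by
  intro b
  obtain ⟨f', hf', hf⟩ := hf b
  refine ⟨_, hf'.clm T, ?_⟩
  refine ((T.isBigO_comp _ _).trans hf).congr_left fun n => ?_
  simp

lemma Asy.sub {f g : ℕ → F} (hf : Asy m f) (hg : Asy m g) : Asy m (fun n => f n - g n) := by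
  have := hf.add (hg.clm (-ContinuousLinearMap.id ℝ F))
  simpa [sub_eq_add_neg] using this

lemma Asy.sum {κ : Type*} (s : Finset κ) {f : κ → ℕ → F} (hf : ∀ i ∈ s, Asy m (f i)) :
    Asy m (fun n => ∑ i ∈ s, f i n) := by
  classical
  induction s using Finset.induction_on with
  | empty => simpa using Asy.const (m := m) (0 : F)
  | insert a s ha ih =>
    simp only [Finset.sum_insert ha]
    exact (hf a (Finset.mem_insert_self _ _)).add
      (ih fun i hi => hf i (Finset.mem_insert_of_mem hi))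

lemma Asy.congr' {f g : ℕ → F} (hf : Asy m f) (h : ∀ᶠ n in atTop, f n = g n) : Asy m g := by
  intro b
  obtain ⟨f', hf', hf⟩ := hf b
  refine ⟨f', hf', hf.congr' ?_ EventuallyEq.rfl⟩
  filter_upwards [h] with n hn
  rw [hn]

/-- it suffices to approximate by sequences with expansions -/
lemma Asy.of_approx {f : ℕ → F} (h : ∀ b : ℝ, ∃ g : ℕ → F, Asy m g ∧
    (fun n => f n - g n) =O[atTop] fun n : ℕ => Real.exp (b * n)) : Asy m f := by
  intro b
  obtain ⟨g, hg, hfg⟩ := h b
  obtain ⟨g', hg', hgg⟩ := hg b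
  exact ⟨g', hg', (hfg.add hgg).congr_left fun n => by abel⟩

/-! ### isometries -/

lemma norm_pow_apply (hm : star m * m = 1) (n : ℕ) (v : E) : ‖(m ^ n) v‖ = ‖v‖ := by
  have h1 : ∀ v, ‖m v‖ = ‖v‖ := by
    intro v
    have h2 : inner ℝ (m v) (m v) = inner ℝ v v := by
      have h3 : (star m) (m v) = v := by
        have := congrArg (fun T : E →L[ℝ] E => T v) hm
        simpa using this
      calc inner ℝ (m v) (m v) = inner ℝ ((ContinuousLinearMap.adjoint m) (m v)) v := by
            rw [ContinuousLinearMap.adjoint_inner_left]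
        _ = inner ℝ v v := by
            rw [← ContinuousLinearMap.star_eq_adjoint, h3]
    rw [real_inner_self_eq_norm_sq, real_inner_self_eq_norm_sq] at h2
    exact (pow_left_inj₀ (norm_nonneg _) (norm_nonneg _) two_ne_zero).1 h2
  induction n generalizing v with
  | zero => simp
  | succ n ih => rw [pow_succ, mul_apply_eq_comp, ih, h1]

lemma norm_pow_le_one (hm : star m * m = 1) (n : ℕ) : ‖m ^ n‖ ≤ 1 :=
  ContinuousLinearMap.opNorm_le_bound _ zero_le_one fun v => by
    rw [norm_pow_apply hm, one_mul]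

lemma norm_le_pow_mul (hm : star m * m = 1) (n : ℕ) (T : E →L[ℝ] E) : ‖T‖ ≤ ‖m ^ n * T‖ :=
  ContinuousLinearMap.opNorm_le_bound _ (norm_nonneg _) fun v => by
    rw [← norm_pow_apply hm n (T v)]
    exact (m ^ n * T).le_opNorm v

/-- recurrence of isometries -/
theorem exists_pow_tendsto_one (hm : star m * m = 1) :
    ∃ φ : ℕ → ℕ, StrictMono φ ∧ Tendsto (fun k => m ^ φ k) atTop (𝓝 1) := by
  have key : ∀ ε > 0, ∀ N : ℕ, ∃ n ≥ N, ‖m ^ n - 1‖ < ε := by
    intro ε hε N
    have : ProperSpace (E →L[ℝ] E) := FiniteDimensional.proper ℝ _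
    obtain ⟨x, -, ψ, hψ, hx⟩ := (isCompact_closedBall (0 : E →L[ℝ] E) 1).tendsto_subseq
      (x := fun n => m ^ n) (fun n => by
        rw [mem_closedBall_zero_iff]
        exact norm_pow_le_one hm n)
    have hc := hx.cauchySeq
    rw [Metric.cauchySeq_iff] at hc
    obtain ⟨M, hM⟩ := hc ε hε
    have h1 := hM (M + N) (by omega) M le_rfl
    have h2 : ψ M + N ≤ ψ (M + N) := by
      clear * - hψ
      induction N with
      | zero => simp
      | succ N ih =>
        have := hψ (show M + N < M + (N + 1) by omega)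
        omega
    refine ⟨ψ (M + N) - ψ M, by omega, ?_⟩
    refine (norm_le_pow_mul hm (ψ M) _).trans_lt ?_
    rw [mul_sub, mul_one, ← pow_add, Nat.add_sub_cancel' (by omega)]
    simpa [dist_eq_norm] using h1
  have : MapClusterPt (1 : E →L[ℝ] E) atTop (fun n : ℕ => m ^ n) := by
    rw [mapClusterPt_iff_frequently]
    intro s hs
    obtain ⟨ε, hε, hs⟩ := Metric.mem_nhds_iff.1 hs
    rw [frequently_atTop]
    intro N
    obtain ⟨n, hn, hn'⟩ := key ε hε N
    exact ⟨n, hn, hs (by rwa [Metric.mem_ball, dist_eq_norm])⟩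
  obtain ⟨φ, hφ, h⟩ := this.tendsto_subseq
  exact ⟨φ, hφ, h⟩

/-- continuous functions are bounded along the powers of an isometry -/
lemma exists_bound (hm : star m * m = 1) {A : (E →L[ℝ] E) → F} (hA : Continuous A) :
    ∃ C : ℝ, 0 ≤ C ∧ ∀ n : ℕ, ‖A (m ^ n)‖ ≤ C := by
  have : ProperSpace (E →L[ℝ] E) := FiniteDimensional.proper ℝ _
  obtain ⟨C, hC⟩ := (isCompact_closedBall (0 : E →L[ℝ] E) 1).exists_bound_of_continuousOn
    hA.continuousOn
  refine ⟨C, (norm_nonneg _).trans (hC 0 (by simp)), fun n => hC _ ?_⟩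
  rw [mem_closedBall_zero_iff]
  exact norm_pow_le_one hm n

lemma ExpSum.growth (hm : star m * m = 1) {f : ℕ → F} (hf : ExpSum m f) :
    ∃ c : ℝ, f =O[atTop] fun n : ℕ => Real.exp (c * n) := by
  obtain ⟨s, A, hA, hf⟩ := hf
  obtain ⟨c, hc⟩ := s.bddAbove
  refine ⟨c, ?_⟩
  have : f = fun n : ℕ => ∑ ρ ∈ s, Real.exp (ρ * n) • A ρ (m ^ n) := funext hf
  rw [this]
  refine IsBigO.fun_sum fun ρ hρ => ?_
  obtain ⟨C, hC0, hC⟩ := exists_bound hm (hA ρ)
  have h1 : (fun n : ℕ => A ρ (m ^ n)) =O[atTop] fun _ : ℕ => (1 : ℝ) :=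
    IsBigO.of_bound C (Eventually.of_forall fun n => by simpa using hC n)
  have h2 := (exp_isBigO (hc hρ)).smul h1
  simpa using h2

lemma Asy.growth (hm : star m * m = 1) {f : ℕ → F} (hf : Asy m f) :
    ∃ c : ℝ, f =O[atTop] fun n : ℕ => Real.exp (c * n) := by
  obtain ⟨g, hg, hfg⟩ := hf 0
  obtain ⟨c, hc⟩ := hg.growth hm
  refine ⟨max 0 c, ?_⟩
  have := (hfg.trans (exp_isBigO (le_max_left 0 c))).add (hc.trans (exp_isBigO (le_max_right 0 c)))
  simpa using this

/-- bilinear maps; here `m` is an isometry, so that an `ExpSum` has at most exponential growth -/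
lemma Asy.bilin (hm : star m * m = 1) {F₁ F₂ : Type*} [NormedAddCommGroup F₁] [NormedSpace ℝ F₁]
    [NormedAddCommGroup F₂] [NormedSpace ℝ F₂] (B : F₁ →L[ℝ] F₂ →L[ℝ] F)
    {f : ℕ → F₁} {g : ℕ → F₂} (hf : Asy m f) (hg : Asy m g) :
    Asy m (fun n => B (f n) (g n)) := by
  intro b
  obtain ⟨c, hc⟩ := hg.growth hm
  obtain ⟨f', hf', hff⟩ := hf (b - c)
  obtain ⟨c', hc'⟩ := hf'.growth hm
  obtain ⟨g', hg', hgg⟩ := hg (b - c')
  refine ⟨_, hf'.bilin B hg', ?_⟩
  have key : ∀ (u : ℕ → F₁) (v : ℕ → F₂) (a a' : ℝ), (u =O[atTop] fun n : ℕ => Real.exp (a * n)) →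
      (v =O[atTop] fun n : ℕ => Real.exp (a' * n)) → a + a' = b →
      (fun n => B (u n) (v n)) =O[atTop] fun n : ℕ => Real.exp (b * n) := by
    intro u v a a' hu hv h
    have h1 : (fun n => B (u n) (v n)) =O[atTop] fun n => ‖u n‖ * ‖v n‖ := by
      refine IsBigO.of_bound ‖B‖ (Eventually.of_forall fun n => ?_)
      rw [Real.norm_of_nonneg (by positivity), ← mul_assoc]
      exact B.le_opNorm₂ _ _
    refine (h1.trans (hu.norm_left.mul hv.norm_left)).congr_right fun n => ?_
    rw [← Real.exp_add, ← add_mul, h]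
  have h1 := key (fun n => f n - f' n) g (b - c) c hff hc (by ring)
  have h2 := key f' (fun n => g n - g' n) c' (b - c') hc' hgg (by ring)
  refine (h1.add h2).congr_left fun n => ?_
  simp only [map_sub, _root_.sub_apply]
  abel

lemma Asy.mul (hm : star m * m = 1) {R : Type*} [NormedRing R] [NormedAlgebra ℝ R]
    {f g : ℕ → R} (hf : Asy m f) (hg : Asy m g) : Asy m (fun n => f n * g n) :=
  Asy.bilin hm (ContinuousLinearMap.mul ℝ R) hf hg

lemma Asy.pow (hm : star m * m = 1) {R : Type*} [NormedRing R] [NormedAlgebra ℝ R]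
    {f : ℕ → R} (hf : Asy m f) (k : ℕ) : Asy m (fun n => f n ^ k) := by
  induction k with
  | zero => simpa using Asy.const (m := m) (1 : R)
  | succ k ih => simpa only [pow_succ] using ih.mul hm hf

lemma isBigO_pow_exp {R : Type*} [NormedRing R] {x : ℕ → R} {c : ℝ} (hc : c < 0)
    (hx : x =O[atTop] fun n : ℕ => Real.exp (c * n)) (b : ℝ) :
    ∃ K : ℕ, ∀ k ≥ K, (fun n => x n ^ k) =O[atTop] fun n : ℕ => Real.exp (b * n) := by
  obtain ⟨K, hK⟩ := exists_nat_ge (b / c)
  refine ⟨K + 1, fun k hk => ?_⟩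
  have h1 : (fun n => x n ^ k) =O[atTop] fun n : ℕ => Real.exp (c * n) ^ k := by
    obtain ⟨j, rfl⟩ : ∃ j, k = j + 1 := ⟨k - 1, by omega⟩
    clear hk
    induction j with
    | zero => simpa using hx
    | succ j ih =>
      simpa only [pow_succ _ (j + 1)] using ih.mul hx
  have h2 : ∀ n : ℕ, Real.exp (c * n) ^ k = Real.exp ((k * c) * n) := by
    intro n
    rw [← Real.exp_nat_mul]
    congr 1
    ring
  simp only [h2] at h1
  refine h1.trans (exp_isBigO ?_)
  have h3 : b / c ≤ k := hK.trans (by exact_mod_cast (by omega : K ≤ k))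
  rwa [div_le_iff_of_neg hc] at h3

/-- inverse in a Banach algebra -/
lemma Asy.inverse (hm : star m * m = 1) {R : Type*} [NormedRing R] [NormedAlgebra ℝ R]
    [CompleteSpace R] {f : ℕ → R} (hf : Asy m f) (u : Rˣ) {c : ℝ} (hc : c < 0)
    (hlim : (fun n => f n - u) =O[atTop] fun n : ℕ => Real.exp (c * n)) :
    Asy m (fun n => Ring.inverse (f n)) := by
  have hexp : Tendsto (fun n : ℕ => Real.exp (c * n)) atTop (𝓝 0) := by
    refine Real.tendsto_exp_atBot.comp ?_
    exact tendsto_natCast_atTop_atTop.const_mul_atTop_of_neg hc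
  have hft : Tendsto f atTop (𝓝 (u : R)) := by
    have := hlim.trans_tendsto hexp
    simpa using this.add_const (u : R)
  have hunit : ∀ᶠ n in atTop, IsUnit (f n) :=
    hft.eventually (Units.isOpen.mem_nhds u.isUnit)
  have hinv : Tendsto (fun n => Ring.inverse (f n)) atTop (𝓝 (Ring.inverse (u : R))) :=
    (NormedRing.inverse_continuousAt u).tendsto.comp hft
  have hbdd : (fun n => Ring.inverse (f n)) =O[atTop] fun _ : ℕ => (1 : ℝ) :=
    hinv.isBigO_one ℝ
  set x : ℕ → R := fun n => 1 - ((u⁻¹ : Rˣ) : R) * f n with hx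
  have hxO : x =O[atTop] fun n : ℕ => Real.exp (c * n) := by
    have h1 : x = fun n => (-((u⁻¹ : Rˣ) : R)) * (f n - u) := by
      funext n
      rw [hx]
      simp only [mul_sub, neg_mul, Units.inv_mul]
      abel
    rw [h1]
    have h2 : (fun _ : ℕ => (-((u⁻¹ : Rˣ) : R))) =O[atTop] fun _ : ℕ => (1 : ℝ) :=
      isBigO_const_one ℝ _ _
    simpa using h2.mul hlim
  have hxA : Asy m x := (Asy.const (1 : R)).sub ((Asy.const ((u⁻¹ : Rˣ) : R)).mul hm hf)
  refine Asy.of_approx fun b => ?_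
  obtain ⟨K, hK⟩ := isBigO_pow_exp hc hxO b
  refine ⟨fun n => (∑ k ∈ Finset.range K, x n ^ k) * ((u⁻¹ : Rˣ) : R),
    (Asy.sum _ fun k _ => hxA.pow hm k).mul hm (Asy.const _), ?_⟩
  have h1 := (hK K le_rfl).mul hbdd
  simp only [mul_one] at h1
  refine h1.congr' ?_ EventuallyEq.rfl
  filter_upwards [hunit] with n hn
  have h2 : ((∑ k ∈ Finset.range K, x n ^ k) * ((u⁻¹ : Rˣ) : R)) * f n = 1 - x n ^ K := by
    have h3 : ((u⁻¹ : Rˣ) : R) * f n = 1 - x n := by simp [hx]
    rw [mul_assoc, h3]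
    have := geom_sum_mul_neg (x n) K
    exact this
  have h4 : f n * Ring.inverse (f n) = 1 := Ring.mul_inverse_cancel _ hn
  calc x n ^ K * Ring.inverse (f n)
      = Ring.inverse (f n) - (1 - x n ^ K) * Ring.inverse (f n) := by noncomm_ring
    _ = Ring.inverse (f n) - (∑ k ∈ Finset.range K, x n ^ k) * ((u⁻¹ : Rˣ) : R) := by
        rw [← h2, mul_assoc, h4, mul_one]

/-- logarithm -/
lemma Asy.log (hm : star m * m = 1) {f : ℕ → ℝ} (hf : Asy m f) {u : ℝ} (hu : u ≠ 0) {c : ℝ}
    (hc : c < 0) (hlim : (fun n => f n - u) =O[atTop] fun n : ℕ => Real.exp (c * n)) :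
    Asy m (fun n => Real.log |f n|) := by
  have hexp : Tendsto (fun n : ℕ => Real.exp (c * n)) atTop (𝓝 0) := by
    refine Real.tendsto_exp_atBot.comp ?_
    exact tendsto_natCast_atTop_atTop.const_mul_atTop_of_neg hc
  set x : ℕ → ℝ := fun n => 1 - u⁻¹ * f n with hx
  have hxO : x =O[atTop] fun n : ℕ => Real.exp (c * n) := by
    have h1 : x = fun n => (-u⁻¹) * (f n - u) := by
      funext n
      rw [hx]
      field_simp
      ring
    rw [h1]
    exact hlim.const_mul_left _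
  have hx0 : Tendsto x atTop (𝓝 0) := hxO.trans_tendsto hexp
  have hxA : Asy m x := (Asy.const (1 : ℝ)).sub ((Asy.const u⁻¹).mul hm hf)
  have hsmall : ∀ᶠ n in atTop, |x n| < 1 / 2 := by
    have := hx0.abs
    rw [abs_zero] at this
    exact this.eventually (gt_mem_nhds (by norm_num))
  refine Asy.of_approx fun b => ?_
  obtain ⟨K, hK⟩ := isBigO_pow_exp hc hxO b
  refine ⟨fun n => Real.log |u| - ∑ k ∈ Finset.range K, ((k : ℝ) + 1)⁻¹ * x n ^ (k + 1),
    (Asy.const _).sub (Asy.sum _ fun k _ => (Asy.const _).mul hm (hxA.pow hm (k + 1))), ?_⟩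
  refine IsBigO.trans ?_ (hK (K + 1) (by omega))
  refine IsBigO.of_bound 2 ?_
  filter_upwards [hsmall] with n hn
  have h1 : |f n| = |u| * |1 - x n| := by
    rw [← abs_mul]
    congr 1
    rw [hx]
    field_simp
    ring
  have hpos : 0 < 1 - x n := by
    have := (abs_lt.1 hn).2
    linarith
  have h2 : Real.log |f n| = Real.log |u| + Real.log (1 - x n) := by
    rw [h1, Real.log_mul (abs_ne_zero.2 hu) (abs_ne_zero.2 hpos.ne'), abs_of_pos hpos]
  have h3 := Real.abs_log_sub_add_sum_range_le (x := x n) (by linarith) K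
  have h4 : ∑ i ∈ Finset.range K, x n ^ (i + 1) / (i + 1)
      = ∑ k ∈ Finset.range K, ((k : ℝ) + 1)⁻¹ * x n ^ (k + 1) :=
    Finset.sum_congr rfl fun i _ => by rw [div_eq_mul_inv, mul_comm]
  rw [h4] at h3
  have h5 : Real.log |f n| - (Real.log |u| - ∑ k ∈ Finset.range K, ((k : ℝ) + 1)⁻¹ * x n ^ (k + 1))
      = ∑ k ∈ Finset.range K, ((k : ℝ) + 1)⁻¹ * x n ^ (k + 1) + Real.log (1 - x n) := by
    rw [h2]; ring
  rw [h5, Real.norm_eq_abs, Real.norm_eq_abs, abs_pow]
  refine h3.trans ?_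
  rw [div_le_iff₀ (by linarith)]
  nlinarith [pow_nonneg (abs_nonneg (x n)) (K + 1)]

/-! ### uniqueness -/

lemma tendsto_exp_zero {c : ℝ} (hc : c < 0) :
    Tendsto (fun n : ℕ => Real.exp (c * n)) atTop (𝓝 0) :=
  Real.tendsto_exp_atBot.comp (tendsto_natCast_atTop_atTop.const_mul_atTop_of_neg hc)

lemma tendsto_nat_mul_exp {c : ℝ} (hc : c < 0) :
    Tendsto (fun n : ℕ => (n : ℝ) * Real.exp (c * n)) atTop (𝓝 0) := by
  have h := (Real.tendsto_pow_mul_exp_neg_atTop_nhds_zero 1).comp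
    ((tendsto_natCast_atTop_atTop (R := ℝ)).const_mul_atTop (neg_pos.2 hc))
  have h2 := h.const_mul (-c)⁻¹
  rw [mul_zero] at h2
  refine h2.congr fun n => ?_
  have h3 : -c ≠ 0 := (neg_pos.2 hc).ne'
  simp only [Function.comp, pow_one, neg_neg, neg_mul]
  have h4 : c ≠ 0 := hc.ne
  have h5 : (-c)⁻¹ * -(c * (n : ℝ) * Real.exp (c * n)) =
      ((-c)⁻¹ * (-c)) * ((n : ℝ) * Real.exp (c * n)) := by ring
  rw [h5, inv_mul_cancel₀ h3, one_mul]

/-- the coefficients of a vanishing expansion vanish -/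
lemma coeff_eq_zero (hm : star m * m = 1) {A B : (E →L[ℝ] E) → ℝ} (hA : Continuous A)
    (hB : Continuous B)
    (h : Tendsto (fun n : ℕ => (n : ℝ) * A (m ^ n) + B (m ^ n)) atTop (𝓝 0)) (k : ℕ) :
    A (m ^ k) = 0 ∧ B (m ^ k) = 0 := by
  obtain ⟨φ, hφ, hφ1⟩ := exists_pow_tendsto_one hm
  have recur : ∀ {X : (E →L[ℝ] E) → ℝ}, Continuous X →
      Tendsto (fun n : ℕ => X (m ^ n)) atTop (𝓝 0) → ∀ k, X (m ^ k) = 0 := by
    intro X hX h k
    have h1 : Tendsto (fun j => X (m ^ (k + φ j))) atTop (𝓝 0) :=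
      h.comp (tendsto_atTop_mono (fun j => Nat.le_add_left _ _) hφ.tendsto_atTop)
    have h2 : Tendsto (fun j => X (m ^ (k + φ j))) atTop (𝓝 (X (m ^ k * 1))) := by
      simp only [pow_add]
      exact (hX.tendsto _).comp (hφ1.const_mul (m ^ k))
    rw [mul_one] at h2
    exact tendsto_nhds_unique h2 h1
  obtain ⟨C, hC0, hC⟩ := exists_bound hm hB
  have hA0 : ∀ k, A (m ^ k) = 0 := by
    refine recur hA ?_
    have h1 : Tendsto (fun n : ℕ => ((n : ℝ))⁻¹) atTop (𝓝 0) :=
      tendsto_inv_atTop_zero.comp tendsto_natCast_atTop_atTop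
    have h2 := h.mul h1
    have h3 : Tendsto (fun n : ℕ => B (m ^ n) * ((n : ℝ))⁻¹) atTop (𝓝 0) := by
      refine squeeze_zero_norm (a := fun n : ℕ => C * ((n : ℝ))⁻¹) (fun n => ?_) ?_
      · rw [norm_mul, norm_inv, Real.norm_natCast]
        exact mul_le_mul_of_nonneg_right (hC n) (by positivity)
      · simpa using h1.const_mul C
    have h4 := h2.sub h3
    simp only [mul_zero, sub_zero] at h4
    refine h4.congr' ?_
    filter_upwards [eventually_gt_atTop 0] with n hn
    have : (n : ℝ) ≠ 0 := by positivity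
    field_simp
    ring
  refine ⟨hA0 k, recur hB ?_ k⟩
  simpa [hA0] using h

/-- the leading terms of a small expansion vanish -/
lemma expansion_unique (hm : star m * m = 1) (b : ℝ) (s : Finset ℝ) :
    ∀ (A B : ℝ → (E →L[ℝ] E) → ℝ), (∀ ρ, Continuous (A ρ)) → (∀ ρ, Continuous (B ρ)) →
    ((fun n : ℕ => (n : ℝ) * ∑ ρ ∈ s, Real.exp (ρ * n) • A ρ (m ^ n) +
      ∑ ρ ∈ s, Real.exp (ρ * n) • B ρ (m ^ n)) =O[atTop] fun n : ℕ => Real.exp (b * n)) →
    ∀ ρ ∈ s, b < ρ → ∀ k : ℕ, A ρ (m ^ k) = 0 ∧ B ρ (m ^ k) = 0 := by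
  induction s using Finset.induction_on_max with
  | empty => simp
  | insert a s hs ih =>
    intro A B hA hB h
    by_cases hab : a ≤ b
    · intro ρ hρ hbρ
      rcases Finset.mem_insert.1 hρ with rfl | hρ
      · exact absurd hbρ (not_lt.2 hab)
      · exact absurd hbρ (not_lt.2 ((hs ρ hρ).le.trans hab))
    · rw [not_le] at hab
      have ha : a ∉ s := fun h => lt_irrefl _ (hs a h)
      have key : ∀ k : ℕ, A a (m ^ k) = 0 ∧ B a (m ^ k) = 0 := by
        refine coeff_eq_zero hm (hA a) (hB a) ?_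
        have hexp := tendsto_exp_zero (show b - a < 0 by linarith)
        have h1 : Tendsto (fun n : ℕ => Real.exp (-a * n) *
            ((n : ℝ) * ∑ ρ ∈ insert a s, Real.exp (ρ * n) • A ρ (m ^ n) +
            ∑ ρ ∈ insert a s, Real.exp (ρ * n) • B ρ (m ^ n))) atTop (𝓝 0) := by
          refine IsBigO.trans_tendsto (((isBigO_refl _ _).mul h).congr_right fun n => ?_) hexp
          rw [← Real.exp_add]
          congr 1
          ring
        have h2 : ∀ (X : ℝ → (E →L[ℝ] E) → ℝ), (∀ ρ, Continuous (X ρ)) → ∀ ρ ∈ s,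
            Tendsto (fun n : ℕ => (n : ℝ) * (Real.exp ((ρ - a) * n) * X ρ (m ^ n))) atTop (𝓝 0) ∧
            Tendsto (fun n : ℕ => Real.exp ((ρ - a) * n) * X ρ (m ^ n)) atTop (𝓝 0) := by
          intro X hX ρ hρ
          obtain ⟨C, hC0, hC⟩ := exists_bound hm (hX ρ)
          have hρa : ρ - a < 0 := by linarith [hs ρ hρ]
          constructor
          · refine squeeze_zero_norm
              (a := fun n : ℕ => C * ((n : ℝ) * Real.exp ((ρ - a) * n))) (fun n => ?_) ?_
            · rw [norm_mul, norm_mul, Real.norm_natCast, Real.norm_of_nonneg (Real.exp_pos _).le]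
              have := mul_le_mul_of_nonneg_left (hC n)
                (show 0 ≤ (n : ℝ) * Real.exp ((ρ - a) * n) by positivity)
              linarith
            · simpa using (tendsto_nat_mul_exp hρa).const_mul C
          · refine squeeze_zero_norm
              (a := fun n : ℕ => C * Real.exp ((ρ - a) * n)) (fun n => ?_) ?_
            · rw [norm_mul, Real.norm_of_nonneg (Real.exp_pos _).le]
              have := mul_le_mul_of_nonneg_left (hC n)
                (show 0 ≤ Real.exp ((ρ - a) * n) by positivity)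
              linarith
            · simpa using (tendsto_exp_zero hρa).const_mul C
        have h3 := tendsto_finsetSum s fun ρ hρ => (h2 A hA ρ hρ).1
        have h4 := tendsto_finsetSum s fun ρ hρ => (h2 B hB ρ hρ).2
        have h5 := (h1.sub h3).sub h4
        simp only [Finset.sum_const_zero, sub_zero] at h5
        refine h5.congr fun n => ?_
        rw [Finset.sum_insert ha, Finset.sum_insert ha]
        simp only [smul_eq_mul]
        have e1 : ∀ ρ : ℝ, Real.exp ((ρ - a) * n) = Real.exp (-a * n) * Real.exp (ρ * n) := by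
          intro ρ
          rw [← Real.exp_add]
          congr 1
          ring
        have e2 : Real.exp (-a * n) * Real.exp (a * n) = 1 := by
          rw [← Real.exp_add]
          simp
        simp only [e1, mul_assoc, ← Finset.mul_sum]
        linear_combination (n * A a (m ^ n) + B a (m ^ n)) * e2
      intro ρ hρ hbρ
      rcases Finset.mem_insert.1 hρ with rfl | hρ
      · exact key
      · refine ih A B hA hB (h.congr_left fun n => ?_) ρ hρ hbρ
        rw [Finset.sum_insert ha, Finset.sum_insert ha, (key n).1, (key n).2]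
        simp

/-- extend the index set of an `ExpSum` -/
lemma extend_sum (s t : Finset ℝ) (hst : s ⊆ t) (A : ℝ → (E →L[ℝ] E) → ℝ)
    (hA : ∀ ρ, Continuous (A ρ)) :
    ∃ A' : ℝ → (E →L[ℝ] E) → ℝ, (∀ ρ, Continuous (A' ρ)) ∧ (∀ ρ ∈ s, A' ρ = A ρ) ∧
      (∀ ρ ∉ s, A' ρ = 0) ∧
      ∀ n : ℕ, ∑ ρ ∈ s, Real.exp (ρ * n) • A ρ (m ^ n) =
        ∑ ρ ∈ t, Real.exp (ρ * n) • A' ρ (m ^ n) := by
  classical
  refine ⟨fun ρ x => if ρ ∈ s then A ρ x else 0, fun ρ => ?_, fun ρ hρ => ?_,
    fun ρ hρ => ?_, fun n => ?_⟩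
  · by_cases h : ρ ∈ s
    · simpa [h] using hA ρ
    · simpa [h] using continuous_const
  · funext x
    exact if_pos hρ
  · funext x
    exact if_neg hρ
  · rw [← Finset.sum_subset hst]
    · refine Finset.sum_congr rfl fun ρ hρ => ?_
      simp only [if_pos hρ]
    · intro ρ _ hρ
      simp only [if_neg hρ, smul_zero]

/-- uniqueness of expansions: no cancellation between `n * f n` and `g n` -/
theorem Asy.unique (hm : star m * m = 1) {f g : ℕ → ℝ} (hf : Asy m f) (hg : Asy m g)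
    (h : ∀ᶠ n : ℕ in atTop, n * f n + g n = 0) (b : ℝ) :
    f =O[atTop] fun n : ℕ => Real.exp (b * n) := by
  classical
  obtain ⟨f', ⟨s, A, hA, hf'⟩, hff⟩ := hf (b - 1)
  obtain ⟨g', ⟨t, B, hB, hg'⟩, hgg⟩ := hg (b - 1)
  obtain ⟨A', hA', hA1, hA2, hA3⟩ := extend_sum (m := m) s (s ∪ t) Finset.subset_union_left A hA
  obtain ⟨B', hB', hB1, hB2, hB3⟩ := extend_sum (m := m) t (s ∪ t) Finset.subset_union_right B hB
  have hn : (fun n : ℕ => (n : ℝ) * Real.exp ((b - 1) * n)) =O[atTop]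
      fun n : ℕ => Real.exp (b * n) := by
    have h1 : (fun n : ℕ => (n : ℝ) * Real.exp ((-1 : ℝ) * n)) =O[atTop] fun _ : ℕ => (1 : ℝ) :=
      (tendsto_nat_mul_exp (by norm_num)).isBigO_one ℝ
    have h2 := h1.mul (isBigO_refl (fun n : ℕ => Real.exp (b * n)) atTop)
    refine (h2.congr_left fun n => ?_).congr_right fun n => by rw [one_mul]
    rw [mul_assoc, ← Real.exp_add]
    congr 2
    ring
  have h1 : (fun n : ℕ => (n : ℝ) * ∑ ρ ∈ s ∪ t, Real.exp (ρ * n) • A' ρ (m ^ n) +
      ∑ ρ ∈ s ∪ t, Real.exp (ρ * n) • B' ρ (m ^ n)) =O[atTop] fun n : ℕ => Real.exp (b * n) := by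
    have h2 : (fun n : ℕ => (n : ℝ) * (f n - f' n)) =O[atTop] fun n : ℕ => Real.exp (b * n) :=
      ((isBigO_refl _ _).mul hff).trans hn
    have h3 := (h2.add (hgg.trans (exp_isBigO (by linarith : b - 1 ≤ b)))).neg_left
    refine h3.congr' ?_ EventuallyEq.rfl
    filter_upwards [h] with n hn
    rw [← hA3, ← hB3, ← hf', ← hg']
    linear_combination -hn
  have h2 := expansion_unique hm b (s ∪ t) A' B' hA' hB' h1
  have h3 : f' =O[atTop] fun n : ℕ => Real.exp (b * n) := by
    have h4 : f' = fun n : ℕ => ∑ ρ ∈ s ∪ t, Real.exp (ρ * n) • A' ρ (m ^ n) :=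
      funext fun n => by rw [hf', hA3]
    rw [h4]
    refine IsBigO.fun_sum fun ρ hρ => ?_
    by_cases hbρ : b < ρ
    · refine IsBigO.of_bound 0 (Eventually.of_forall fun n => ?_)
      rw [(h2 ρ hρ hbρ n).1]
      simp
    · rw [not_lt] at hbρ
      obtain ⟨C, hC0, hC⟩ := exists_bound hm (hA' ρ)
      have h5 : (fun n : ℕ => A' ρ (m ^ n)) =O[atTop] fun _ : ℕ => (1 : ℝ) :=
        IsBigO.of_bound C (Eventually.of_forall fun n => by simpa using hC n)
      simpa using (exp_isBigO hbρ).smul h5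
  have h4 := (hff.trans (exp_isBigO (by linarith : b - 1 ≤ b))).add h3
  simpa using h4

/-- an `ExpSum` which decays faster than every exponential vanishes identically -/
theorem ExpSum.eq_zero (hm : star m * m = 1) {f : ℕ → ℝ} (hf : ExpSum m f)
    (h : ∀ b : ℝ, f =O[atTop] fun n : ℕ => Real.exp (b * n)) (n : ℕ) : f n = 0 := by
  obtain ⟨s, A, hA, hf⟩ := hf
  obtain ⟨b, hb⟩ := s.bddBelow
  have h1 := expansion_unique hm (b - 1) s (fun _ _ => 0) A (fun _ => continuous_const) hA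
    ((h (b - 1)).congr_left fun n => by simp [hf n])
  rw [hf n]
  refine Finset.sum_eq_zero fun ρ hρ => ?_
  rw [(h1 ρ hρ (by linarith [hb hρ]) n).2, smul_zero]

end Asy

end Pool.Agent.Lib.MP_d9b062_al

end

/-! ## from `MP_d9b062_al_h94.AsyOp` -/

section
/-!
# Asymptotic expansions of the factors of the block LU decomposition

(Part of task NOREL of the `MP_d9b062_al` project.)
-/

set_option linter.unusedSectionVars false

namespace Pool.Agent.Lib.MP_d9b062_al

open Filter Asymptotics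
open scoped Topology

variable {E : Type*} [NormedAddCommGroup E] [InnerProductSpace ℝ E] [CompleteSpace E]
  [FiniteDimensional ℝ E] {m : E →L[ℝ] E}

section Ring

variable {R : Type*} [NormedRing R] [NormedAlgebra ℝ R] {ι : Type*} [Fintype ι] [LinearOrder ι]
  {P : ι → R}

lemma ExpSum.mul {f g : ℕ → R} (hf : ExpSum m f) (hg : ExpSum m g) :
    ExpSum m (fun n => f n * g n) :=
  ExpSum.bilin (ContinuousLinearMap.mul ℝ R) hf hg

lemma Asy.mul_const (hm : star m * m = 1) {f : ℕ → R} (hf : Asy m f) (a : R) :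
    Asy m (fun n => f n * a) := hf.mul hm (Asy.const a)

lemma Asy.const_mul (hm : star m * m = 1) {f : ℕ → R} (hf : Asy m f) (a : R) :
    Asy m (fun n => a * f n) := (Asy.const a).mul hm hf

lemma Asy.Mi (hm : star m * m = 1) {f : ℕ → R} (hf : Asy m f) (i : ι) :
    Asy m (fun n => Mi P i (f n)) :=
  ((hf.const_mul hm (Qge P i)).mul_const hm (Qge P i)).add (Asy.const _)

lemma isBigO_Mi {f : ℕ → R} {T₀ : R} {g : ℕ → ℝ} (h : (fun n => f n - T₀) =O[atTop] g) (i : ι) :
    (fun n => MP_d9b062_al.Mi P i (f n) - MP_d9b062_al.Mi P i T₀) =O[atTop] g := by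
  have h1 : (fun n => MP_d9b062_al.Mi P i (f n) - MP_d9b062_al.Mi P i T₀) =
      fun n => Qge P i * (f n - T₀) * Qge P i := by
    funext n
    rw [MP_d9b062_al.Mi, MP_d9b062_al.Mi]
    noncomm_ring
  rw [h1]
  have h2 : (fun _ : ℕ => Qge P i) =O[atTop] fun _ : ℕ => (1 : ℝ) := isBigO_const_one ℝ _ _
  simpa using (h2.mul h).mul h2

lemma tendsto_of_isBigO_exp {F : Type*} [NormedAddCommGroup F] {f : ℕ → F} {T₀ : F} {c : ℝ}
    (hc : c < 0) (h : (fun n => f n - T₀) =O[atTop] fun n : ℕ => Real.exp (c * n)) :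
    Tendsto f atTop (𝓝 T₀) := by
  have := (h.trans_tendsto (tendsto_exp_zero hc)).add_const T₀
  simpa using this

lemma eventually_reg [CompleteSpace R] {f : ℕ → R} {T₀ : R} (h₀ : Reg P T₀)
    (h : Tendsto f atTop (𝓝 T₀)) : ∀ᶠ n in atTop, Reg P (f n) := by
  have : ∀ i : ι, ∀ᶠ n in atTop, IsUnit (MP_d9b062_al.Mi P i (f n)) := by
    intro i
    have h1 : Tendsto (fun n => MP_d9b062_al.Mi P i (f n)) atTop
        (𝓝 (MP_d9b062_al.Mi P i T₀)) :=
      ((h.const_mul (Qge P i)).mul_const (Qge P i)).add_const (Qlt P i)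
    exact h1.eventually (Units.isOpen.mem_nhds (h₀ i))
  exact eventually_all.2 this

lemma Asy.yL (hm : star m * m = 1) [CompleteSpace R] {f : ℕ → R} (hf : Asy m f) {T₀ : R}
    (h₀ : Reg P T₀) {c : ℝ} (hc : c < 0)
    (h : (fun n => f n - T₀) =O[atTop] fun n : ℕ => Real.exp (c * n)) :
    Asy m (fun n => yL P (f n)) := by
  unfold MP_d9b062_al.yL
  refine Asy.sum _ fun i _ => ?_
  refine Asy.mul_const hm (Asy.mul hm (hf.mul_const hm _) ?_) _
  obtain ⟨u, hu⟩ := h₀ i
  refine Asy.inverse hm (hf.Mi hm i) u hc ?_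
  rw [hu]
  exact isBigO_Mi h i

lemma Asy.unipInv (hm : star m * m = 1) {f : ℕ → R} (hf : Asy m f) :
    Asy m (fun n => unipInv ι (f n)) := by
  unfold MP_d9b062_al.unipInv
  exact Asy.sum _ fun k _ => Asy.pow hm ((Asy.const (1 : R)).sub hf) k

lemma Asy.yL_inverse (hm : star m * m = 1) [CompleteSpace R] (hP : IsGrading P) {f : ℕ → R}
    (hf : Asy m f) {T₀ : R} (h₀ : Reg P T₀) {c : ℝ} (hc : c < 0)
    (h : (fun n => f n - T₀) =O[atTop] fun n : ℕ => Real.exp (c * n)) :
    Asy m (fun n => Ring.inverse (MP_d9b062_al.yL P (f n))) := by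
  refine (Asy.unipInv (ι := ι) hm (hf.yL hm h₀ hc h)).congr' ?_
  filter_upwards [eventually_reg h₀ (tendsto_of_isBigO_exp hc h)] with n hn
  rw [(yL_unip hP hn).inverse_eq hP lt_trans' (fun i => lt_irrefl i)]

variable [StarRing R] [ContinuousStar R] [StarModule ℝ R]

lemma Asy.star {f : ℕ → R} (hf : Asy m f) : Asy m (fun n => star (f n)) :=
  hf.clm ((starL' ℝ : R ≃L[ℝ] R) : R →L[ℝ] R)

lemma isBigO_star {f : ℕ → R} {T₀ : R} {g : ℕ → ℝ} (h : (fun n => f n - T₀) =O[atTop] g) :
    (fun n => Star.star (f n) - Star.star T₀) =O[atTop] g := by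
  have h1 := (((starL' ℝ : R ≃L[ℝ] R) : R →L[ℝ] R).isBigO_comp (fun n => f n - T₀) atTop).trans h
  refine h1.congr_left fun n => ?_
  simp

lemma Asy.xU_inverse (hm : Star.star m * m = 1) [CompleteSpace R] (hP : IsGrading P)
    (hs : ∀ i, Star.star (P i) = P i) {f : ℕ → R} (hf : Asy m f) {T₀ : R} (h₀ : Reg P T₀) {c : ℝ}
    (hc : c < 0) (h : (fun n => f n - T₀) =O[atTop] fun n : ℕ => Real.exp (c * n)) :
    Asy m (fun n => Ring.inverse (xU P (f n))) := by
  have h1 := (Asy.yL_inverse hm hP hf.star (h₀.star hs) hc (isBigO_star h)).star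
  refine h1.congr' ?_
  filter_upwards [eventually_reg (h₀.star hs) (tendsto_of_isBigO_exp hc (isBigO_star h))]
    with n hn
  rw [xU, inverse_star (yL_isUnit hP hn)]

lemma Asy.dD (hm : Star.star m * m = 1) [CompleteSpace R] (hP : IsGrading P)
    (hs : ∀ i, Star.star (P i) = P i) {f : ℕ → R} (hf : Asy m f) {T₀ : R} (h₀ : Reg P T₀) {c : ℝ}
    (hc : c < 0) (h : (fun n => f n - T₀) =O[atTop] fun n : ℕ => Real.exp (c * n)) :
    Asy m (fun n => dD P (f n)) :=
  ((hf.yL_inverse hm hP h₀ hc h).mul hm hf).mul hm (hf.xU_inverse hm hP hs h₀ hc h)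

end Ring

end Pool.Agent.Lib.MP_d9b062_al

end

/-! ## from `MP_d9b062_al_h31.Compact` -/

section
/-!
# Free groups of isometries do not act properly discontinuously on `ℝ^N`

A group of isometries of `ℝ^N` acting properly discontinuously has polynomial growth, because the
orbit of the origin meets every ball in boundedly many points; a non-abelian free group has
exponential growth.
-/

namespace Pool.Agent.Lib.MP_d9b062_al

namespace H31

open Filter Topology

variable {N : ℕ}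

/-- Length of the translation part is subadditive. -/
theorem norm_tr_mul_le (Γ : Subgroup (Aff (V N)))
    (hiso : ∀ γ ∈ Γ, ∀ v, ‖(γ.lin : Op N) v‖ = ‖v‖) (x y : Aff (V N)) (hx : x ∈ Γ) :
    ‖(x * y).tr‖ ≤ ‖x.tr‖ + ‖y.tr‖ := by
  rw [Aff.mul_tr]
  refine (norm_add_le _ _).trans ?_
  rw [hiso x hx]

theorem norm_inv_mul_tr (Γ : Subgroup (Aff (V N)))
    (hiso : ∀ γ ∈ Γ, ∀ v, ‖(γ.lin : Op N) v‖ = ‖v‖) (x y : Aff (V N)) (hx : x ∈ Γ) :
    ‖(x⁻¹ * y).tr‖ = ‖y.tr - x.tr‖ := by
  rw [Aff.mul_tr, Aff.inv_tr, Aff.inv_lin]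
  have h := hiso x⁻¹ (Γ.inv_mem hx) (y.tr - x.tr)
  rw [Aff.inv_lin] at h
  rw [← h, map_sub]
  congr 1
  abel

/-- Positive words in two letters. -/
def word {κ : Type} (c : Bool → κ) (l : List Bool) : FreeGroup κ :=
  FreeGroup.mk (l.map (fun b => (c b, true)))

theorem word_injective {κ : Type} (c : Bool → κ) (hc : Function.Injective c) :
    Function.Injective (word c) := by
  classical
  have hred : ∀ l : List Bool, FreeGroup.IsReduced (l.map (fun b => (c b, true))) := by
    intro l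
    unfold FreeGroup.IsReduced
    induction l with
    | nil => simp
    | cons b l ih =>
        cases l with
        | nil => simp
        | cons b' l =>
            simp only [List.map_cons] at ih ⊢
            exact List.isChain_cons_cons.2 ⟨fun _ => rfl, ih⟩
  intro l l' h
  have h1 := congrArg FreeGroup.toWord h
  unfold word at h1
  rw [FreeGroup.toWord_mk, FreeGroup.toWord_mk, (hred l).reduce_eq, (hred l').reduce_eq] at h1
  have hinj : Function.Injective (fun b => (c b, true)) := by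
    intro b b' hb
    exact hc (Prod.ext_iff.1 hb).1
  exact List.map_injective_iff.2 hinj h1

theorem word_cons {κ : Type} (c : Bool → κ) (b : Bool) (l : List Bool) :
    word c (b :: l) = FreeGroup.of (c b) * word c l := by
  unfold word FreeGroup.of
  rw [FreeGroup.mul_mk]
  rfl

theorem poly_lt_exp (M A B N : ℕ) (h : ∀ k : ℕ, 2 ^ k ≤ M * (A * k + B) ^ N) : False := by
  have h1 : ∀ k : ℕ, 1 ≤ k → (2 : ℝ) ^ k ≤ (M * (A + B + 1) ^ N : ℝ) * (k : ℝ) ^ N := by
    intro k hk
    have h2 : 2 ^ k ≤ M * ((A + B + 1) * k) ^ N := by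
      refine (h k).trans ?_
      apply Nat.mul_le_mul_left
      apply Nat.pow_le_pow_left
      nlinarith
    have h3 : ((2 ^ k : ℕ) : ℝ) ≤ ((M * ((A + B + 1) * k) ^ N : ℕ) : ℝ) := by exact_mod_cast h2
    push_cast at h3
    rw [mul_pow] at h3
    linarith
  have hlim := tendsto_pow_const_div_const_pow_of_one_lt N (by norm_num : (1 : ℝ) < 2)
  have hC : (0 : ℝ) < (M * (A + B + 1) ^ N : ℝ) + 1 := by positivity
  have hev := hlim.eventually (gt_mem_nhds (show (0 : ℝ) < 1 / ((M * (A + B + 1) ^ N : ℝ) + 1) by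
    positivity))
  obtain ⟨k, hk1, hk2⟩ := (hev.and (eventually_ge_atTop 1)).exists
  have h4 := h1 k hk2
  have hpow : (0 : ℝ) < 2 ^ k := by positivity
  rw [div_lt_div_iff₀ hpow hC, one_mul] at hk1
  have h5 : (0 : ℝ) ≤ (k : ℝ) ^ N := by positivity
  nlinarith

end H31

open H31 in
/-- TASK CPT (compact case): a nonabelian free group cannot act properly discontinuously on `ℝ^N`
by isometries. -/
theorem no_free_isometric {N : ℕ} (Γ : Subgroup (Aff (V N)))
    (hfree : ∃ (κ : Type) (_ : Nontrivial κ), Nonempty (Γ ≃* FreeGroup κ))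
    (hiso : ∀ γ ∈ Γ, ∀ v, ‖(γ.lin : Op N) v‖ = ‖v‖)
    (hpd : ∀ K : Set (V N), IsCompact K →
      {γ : Aff (V N) | γ ∈ Γ ∧ (γ.act '' K ∩ K).Nonempty}.Finite) : False := by
  classical
  obtain ⟨κ, hκ, ⟨e⟩⟩ := hfree
  obtain ⟨x, y, hxy⟩ := exists_pair_ne κ
  let c : Bool → κ := fun b => if b then x else y
  have hc : Function.Injective c := by
    intro b b' h
    cases b <;> cases b' <;> simp_all [c]
  -- elements with small translation part
  have hF : {γ : Aff (V N) | γ ∈ Γ ∧ ‖γ.tr‖ ≤ 1}.Finite := by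
    apply (hpd (Metric.closedBall 0 1) (isCompact_closedBall 0 1)).subset
    rintro γ ⟨h1, h2⟩
    refine ⟨h1, γ.tr, ⟨0, by simp, by simp [Aff.act]⟩, by simpa using h2⟩
  set F := hF.toFinset with hFdef
  have hFmem : ∀ γ, γ ∈ F ↔ γ ∈ Γ ∧ ‖γ.tr‖ ≤ 1 := by
    intro γ
    rw [hFdef, Set.Finite.mem_toFinset]
    rfl
  -- words
  let W : List Bool → Aff (V N) := fun l => ((e.symm (word c l) : Γ) : Aff (V N))
  have hWΓ : ∀ l, W l ∈ Γ := fun l => (e.symm (word c l)).2
  have hWinj : Function.Injective W := by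
    intro l l' h
    exact word_injective c hc (e.symm.injective (Subtype.ext h))
  obtain ⟨m, hm⟩ : ∃ m : ℕ, ∀ b : Bool,
      ‖((e.symm (FreeGroup.of (c b)) : Γ) : Aff (V N)).tr‖ ≤ m := by
    obtain ⟨m, hm⟩ := exists_nat_ge (max ‖((e.symm (FreeGroup.of (c true)) : Γ) : Aff (V N)).tr‖
      ‖((e.symm (FreeGroup.of (c false)) : Γ) : Aff (V N)).tr‖)
    refine ⟨m, fun b => ?_⟩
    cases b
    · exact (le_max_right _ _).trans hm
    · exact (le_max_left _ _).trans hm
  have hWnorm : ∀ l : List Bool, ‖(W l).tr‖ ≤ l.length * m := by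
    intro l
    induction l with
    | nil =>
        have : W [] = 1 := by
          simp only [W, word, List.map_nil]
          have : (FreeGroup.mk [] : FreeGroup κ) = 1 := rfl
          rw [this, map_one]
          rfl
        rw [this]
        simp
    | cons b l ih =>
        have h1 : W (b :: l) = ((e.symm (FreeGroup.of (c b)) : Γ) : Aff (V N)) * W l := by
          simp only [W, word_cons, map_mul]
          rfl
        rw [h1]
        refine (norm_tr_mul_le Γ hiso _ _ (e.symm (FreeGroup.of (c b))).2).trans ?_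
        have := hm b
        push_cast [List.length_cons]
        linarith
  -- cells
  let cell : V N → Fin N → ℤ := fun v i => ⌊((N : ℝ) + 1) * v i⌋
  have hcell : ∀ v w : V N, cell v = cell w → ‖w - v‖ ≤ 1 := by
    intro v w h
    rw [EuclideanSpace.norm_eq, Real.sqrt_le_left (by norm_num), one_pow]
    have h1 : ∀ i, ‖(w - v) i‖ ^ 2 ≤ 1 / ((N : ℝ) + 1) := by
      intro i
      have h2 := congrFun h i
      simp only [cell] at h2
      have h3 := Int.abs_sub_lt_one_of_floor_eq_floor h2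
      have hN : (0 : ℝ) < (N : ℝ) + 1 := by positivity
      rw [← mul_sub, abs_mul, abs_of_pos hN] at h3
      have h4 : ‖(w - v) i‖ < 1 / ((N : ℝ) + 1) := by
        rw [lt_div_iff₀ hN, Real.norm_eq_abs]
        have : (w - v) i = -(v i - w i) := by simp
        rw [this, abs_neg]
        linarith
      have h5 : 1 / ((N : ℝ) + 1) ≤ 1 := by
        rw [div_le_one hN]
        linarith [(Nat.cast_nonneg N : (0 : ℝ) ≤ N)]
      have h6 := norm_nonneg ((w - v) i)
      nlinarith
    calc ∑ i, ‖(w - v) i‖ ^ 2 ≤ ∑ _i : Fin N, 1 / ((N : ℝ) + 1) := Finset.sum_le_sum fun i _ => h1 i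
      _ = N / ((N : ℝ) + 1) := by simp [div_eq_mul_inv]
      _ ≤ 1 := by
          rw [div_le_one (by positivity)]
          linarith
  apply poly_lt_exp F.card (2 * (N + 1) * m) 3 N
  intro k
  -- pigeonhole
  let T : Finset (Fin N → ℤ) := Fintype.piFinset (fun _ => Finset.Icc
    (-(((N + 1) * (k * m) + 1 : ℕ) : ℤ)) (((N + 1) * (k * m) + 1 : ℕ) : ℤ))
  have hTcard : T.card = (2 * (N + 1) * m * k + 3) ^ N := by
    simp only [T, Fintype.card_piFinset, Int.card_Icc, Finset.prod_const, Finset.card_univ,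
      Fintype.card_fin]
    congr 1
    push_cast
    have : ((N : ℤ) + 1) * (k * m) + 1 + 1 - -((N + 1) * (k * m) + 1) =
        ((2 * (N + 1) * m * k + 3 : ℕ) : ℤ) := by push_cast; ring
    rw [this]
    exact Int.toNat_natCast _
  have hpig := Finset.card_le_mul_card_image_of_maps_to (s := (Finset.univ : Finset (Fin k → Bool)))
    (t := T) (f := fun u => cell (W (List.ofFn u)).tr) ?_ F.card ?_
  · rw [hTcard] at hpig
    simpa using hpig
  · intro u _
    simp only [T, Fintype.mem_piFinset, Finset.mem_Icc]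
    intro i
    have h1 : ‖(W (List.ofFn u)).tr i‖ ≤ k * m := by
      refine (PiLp.norm_apply_le _ i).trans ?_
      have := hWnorm (List.ofFn u)
      rwa [List.length_ofFn] at this
    rw [Real.norm_eq_abs, abs_le] at h1
    have hN : (0 : ℝ) < (N : ℝ) + 1 := by positivity
    constructor
    · rw [Int.le_floor]
      push_cast
      nlinarith
    · rw [Int.floor_le_iff]
      push_cast
      nlinarith
  · intro b _
    -- a fibre injects into `F`
    by_cases hemp : (Finset.univ.filter (fun u : Fin k → Bool =>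
        cell (W (List.ofFn u)).tr = b)).Nonempty
    · obtain ⟨u₀, hu₀⟩ := hemp
      rw [Finset.mem_filter] at hu₀
      apply Finset.card_le_card_of_injOn (fun u => (W (List.ofFn u₀))⁻¹ * W (List.ofFn u))
      · intro u hu
        simp only [Finset.coe_filter, Finset.mem_univ, true_and, Set.mem_ofPred_eq] at hu
        simp only [Finset.mem_coe]
        rw [hFmem]
        refine ⟨Γ.mul_mem (Γ.inv_mem (hWΓ _)) (hWΓ _), ?_⟩
        rw [norm_inv_mul_tr Γ hiso _ _ (hWΓ _)]
        apply hcell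
        rw [hu₀.2, hu]
      · intro u _ u' _ h
        have h1 : W (List.ofFn u) = W (List.ofFn u') := mul_left_cancel h
        exact List.ofFn_injective (hWinj h1)
    · rw [Finset.not_nonempty_iff_eq_empty] at hemp
      rw [hemp]
      simp

end Pool.Agent.Lib.MP_d9b062_al

end

/-! ## from `MP_d9b062_al_helper62.Convex` -/

section
/-!
# The convexity argument for the cone of translation data
-/

set_option autoImplicit false
set_option linter.unusedSectionVars false

namespace Pool.Agent.Lib.MP_d9b062_al.CONE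

open Filter
open scoped Topology

variable {ι : Type*} [Fintype ι] {E : Type*} [NormedAddCommGroup E] [InnerProductSpace ℝ E]
  [FiniteDimensional ℝ E]

/-- the open cone over a set -/
def cone (D : Set ((ι → ℝ) × E)) : Set ((ι → ℝ) × E) :=
  {p | ∃ s : ℝ, 0 < s ∧ ∃ d ∈ D, p = s • d}

/-- the axioms of the set of translation data -/
structure Data (o : ι) (EL : Submodule ℝ E) (D : Set ((ι → ℝ) × E)) : Prop where
  ne : D.Nonempty
  el : ∀ p ∈ D, p.2 ∈ EL
  reg : ∀ p ∈ D, ∀ i, i ≠ o → p.1 i ≠ 0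
  sum : ∀ p ∈ D, ∀ p' ∈ D, ∀ n m : ℕ, 0 < n → 0 < m →
    (∀ i, i ≠ o → (n : ℝ) * p.1 i + (m : ℝ) * p'.1 i ≠ 0) →
    (n : ℝ) • p + (m : ℝ) • p' ∈ closure (cone D)
  sigma : ∀ p ∈ D, ∃ X : ι → ℝ, (X, -p.2) ∈ D
  norel : ∀ e ∈ EL, ∀ φ : (ι → ℝ) →ₗ[ℝ] ℝ, (∀ p ∈ D, inner ℝ p.2 e = φ p.1) → e = 0

variable {o : ι} {EL : Submodule ℝ E} {D : Set ((ι → ℝ) × E)}

theorem smul_mem_closure_cone {p : (ι → ℝ) × E} (hp : p ∈ closure (cone D)) {s : ℝ}
    (hs : 0 < s) : s • p ∈ closure (cone D) := by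
  refine map_mem_closure (continuous_const_smul s) hp ?_
  rintro _ ⟨t, ht, d, hd, rfl⟩
  exact ⟨s * t, by positivity, d, hd, by rw [smul_smul]⟩

theorem mem_cone_of_mem {p : (ι → ℝ) × E} (hp : p ∈ D) : p ∈ cone D :=
  ⟨1, one_pos, p, hp, by rw [one_smul]⟩

theorem Data.zero_mem (h : Data o EL D) : (0 : (ι → ℝ) × E) ∈ closure (cone D) := by
  obtain ⟨d, hd⟩ := h.ne
  have h1 : (0 : ℝ) ∈ closure (Set.Ioi (0 : ℝ)) := by
    rw [closure_Ioi]; exact Set.self_mem_Ici
  have h2 : Continuous (fun s : ℝ => s • d) := continuous_id.smul continuous_const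
  have h3 : Set.MapsTo (fun s : ℝ => s • d) (Set.Ioi 0) (cone D) := fun s hs => ⟨s, hs, d, hd, rfl⟩
  have := map_mem_closure h2 h1 h3
  simpa using this

theorem Data.smul_mem (h : Data o EL D) {p : (ι → ℝ) × E} (hp : p ∈ closure (cone D)) {s : ℝ}
    (hs : 0 ≤ s) : s • p ∈ closure (cone D) := by
  rcases hs.lt_or_eq with hs | rfl
  · exact smul_mem_closure_cone hp hs
  · rw [zero_smul]; exact h.zero_mem

/-- positive rational ratios avoiding a finite set are dense -/
theorem mem_closure_ratio {B : Set ℝ} (hB : B.Finite) {r : ℝ} (hr : 0 < r) :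
    r ∈ closure (Set.Ioi (0 : ℝ) ∩ (Set.range ((↑) : ℚ → ℝ) \ B)) := by
  have h1 : Dense (Set.range ((↑) : ℚ → ℝ) \ B) :=
    Dense.sdiff_finite Rat.denseRange_cast hB
  exact h1.open_subset_closure_inter isOpen_Ioi hr

theorem Data.add_cone (h : Data o EL D) {p p' : (ι → ℝ) × E} (hp : p ∈ D) (hp' : p' ∈ D)
    {r : ℝ} (hr : 0 < r) : p + r • p' ∈ closure (cone D) := by
  classical
  set B : Set ℝ := Set.range (fun i => -p.1 i / p'.1 i) with hB
  have hBf : B.Finite := Set.finite_range _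
  have h1 := mem_closure_ratio hBf hr
  have h2 : Continuous (fun r : ℝ => p + r • p') :=
    continuous_const.add (continuous_id.smul continuous_const)
  rw [← closure_closure (s := cone D)]
  refine map_mem_closure (f := fun r : ℝ => p + r • p') h2 h1 ?_
  rintro _ ⟨hx0, ⟨x, rfl⟩, hxB⟩
  have hx : 0 < x := by
    have : (0 : ℝ) < x := hx0
    exact_mod_cast this
  have hn : 0 < x.den := x.den_pos
  have hm : 0 < x.num.toNat := by
    have := Rat.num_pos.mpr hx
    omega
  have hnum : ((x.num.toNat : ℕ) : ℝ) = (x.num : ℝ) := by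
    have : ((x.num.toNat : ℕ) : ℤ) = x.num := Int.toNat_of_nonneg (Rat.num_pos.mpr hx).le
    exact_mod_cast this
  have hnR : (0 : ℝ) < (x.den : ℝ) := by exact_mod_cast hn
  have hxe : (x : ℝ) = (x.num.toNat : ℝ) / (x.den : ℝ) := by
    rw [hnum]
    exact Rat.cast_def x
  have h3 := h.sum p hp p' hp' x.den x.num.toNat hn hm (by
    intro i hi hcon
    apply hxB
    refine ⟨i, ?_⟩
    have h4 := h.reg p' hp' i hi
    show -p.1 i / p'.1 i = (x : ℝ)
    rw [hxe, div_eq_div_iff h4 hnR.ne']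
    linarith)
  have h4 := smul_mem_closure_cone h3 (inv_pos.mpr hnR)
  have h5 : (x.den : ℝ)⁻¹ • ((x.den : ℝ) • p + (x.num.toNat : ℝ) • p') = p + (x : ℝ) • p' := by
    rw [smul_add, smul_smul, smul_smul, inv_mul_cancel₀ hnR.ne', one_smul, hxe]
    congr 2
    field_simp
  rw [h5] at h4
  exact h4

theorem Data.add_mem (h : Data o EL D) {p p' : (ι → ℝ) × E} (hp : p ∈ closure (cone D))
    (hp' : p' ∈ closure (cone D)) : p + p' ∈ closure (cone D) := by
  rw [← closure_closure (s := cone D)]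
  refine map_mem_closure₂ continuous_add hp hp' ?_
  rintro _ ⟨s, hs, d, hd, rfl⟩ _ ⟨s', hs', d', hd', rfl⟩
  have h1 := smul_mem_closure_cone (h.add_cone hd hd' (r := s' / s) (by positivity)) hs
  rwa [smul_add, smul_smul, mul_div_cancel₀ _ hs.ne'] at h1

theorem Data.sum_mem (h : Data o EL D) {κ : Type*} (s : Finset κ) (f : κ → (ι → ℝ) × E)
    (hf : ∀ i ∈ s, f i ∈ closure (cone D)) : ∑ i ∈ s, f i ∈ closure (cone D) := by
  classical
  induction s using Finset.induction_on with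
  | empty => simpa using h.zero_mem
  | insert a s ha ih =>
    rw [Finset.sum_insert ha]
    exact h.add_mem (hf a (Finset.mem_insert_self a s))
      (ih fun i hi => hf i (Finset.mem_insert_of_mem hi))

/-- vectors that become members after adding some `(X, 0)`, with both signs -/
def Data.absorbed (h : Data o EL D) : Submodule ℝ ((ι → ℝ) × E) where
  carrier := {v | ∃ X : ι → ℝ, ((X, 0) : (ι → ℝ) × E) + v ∈ closure (cone D) ∧
    ((X, 0) : (ι → ℝ) × E) - v ∈ closure (cone D)}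
  add_mem' := by
    rintro v v' ⟨X, h1, h2⟩ ⟨X', h1', h2'⟩
    refine ⟨X + X', ?_, ?_⟩
    · have := h.add_mem h1 h1'
      have e : ((X + X', 0) : (ι → ℝ) × E) + (v + v') = (X, 0) + v + ((X', 0) + v') := by
        ext <;> simp [add_assoc, add_left_comm]
      rwa [e]
    · have := h.add_mem h2 h2'
      have e : ((X + X', 0) : (ι → ℝ) × E) - (v + v') = (X, 0) - v + ((X', 0) - v') := by
        ext
        · simp; ring
        · simp; abel
      rwa [e]
  zero_mem' := ⟨0, by
    rw [Prod.mk_zero_zero, add_zero]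
    exact h.zero_mem, by
    rw [Prod.mk_zero_zero, sub_zero]
    exact h.zero_mem⟩
  smul_mem' := by
    rintro a v ⟨X, h1, h2⟩
    rcases le_total 0 a with ha | ha
    · refine ⟨a • X, ?_, ?_⟩
      · have := h.smul_mem h1 ha
        have e : ((a • X, 0) : (ι → ℝ) × E) + a • v = a • ((X, 0) + v) := by
          rw [smul_add]; simp
        rwa [e]
      · have := h.smul_mem h2 ha
        have e : ((a • X, 0) : (ι → ℝ) × E) - a • v = a • ((X, 0) - v) := by
          rw [smul_sub]; simp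
        rwa [e]
    · refine ⟨(-a) • X, ?_, ?_⟩
      · have := h.smul_mem h2 (neg_nonneg.mpr ha)
        have e : (((-a) • X, 0) : (ι → ℝ) × E) + a • v = (-a) • ((X, 0) - v) := by
          rw [smul_sub]; simp
        rwa [e]
      · have := h.smul_mem h1 (neg_nonneg.mpr ha)
        have e : (((-a) • X, 0) : (ι → ℝ) × E) - a • v = (-a) • ((X, 0) + v) := by
          rw [smul_add]; simp [sub_eq_add_neg]
        rwa [e]

theorem Data.mem_absorbed (h : Data o EL D) {d : (ι → ℝ) × E} (hd : d ∈ D) :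
    d ∈ h.absorbed := by
  obtain ⟨X, hX⟩ := h.sigma d hd
  have h1 : d ∈ closure (cone D) := subset_closure (mem_cone_of_mem hd)
  have h2 : ((X, -d.2) : (ι → ℝ) × E) ∈ closure (cone D) := subset_closure (mem_cone_of_mem hX)
  refine ⟨d.1 + X, ?_, ?_⟩
  · have e : ((d.1 + X, 0) : (ι → ℝ) × E) + d = (d + d) + (X, -d.2) := by
      ext
      · simp; ring
      · simp
    rw [e]
    exact h.add_mem (h.add_mem h1 h1) h2
  · have e : ((d.1 + X, 0) : (ι → ℝ) × E) - d = (X, -d.2) := by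
      ext
      · simp
      · simp
    rw [e]
    exact h2

theorem Data.span_le (h : Data o EL D) : Submodule.span ℝ D ≤ h.absorbed :=
  Submodule.span_le.mpr fun _ hd => h.mem_absorbed hd

theorem Data.mem_span (h : Data o EL D) {s : E} (hs : s ∈ EL) :
    ((0, s) : (ι → ℝ) × E) ∈ Submodule.span ℝ D := by
  by_contra hcon
  obtain ⟨f, hf, hle⟩ := Submodule.exists_le_ker_of_notMem hcon
  set g : E →ₗ[ℝ] ℝ := f.comp (LinearMap.inr ℝ (ι → ℝ) E) with hg
  set φ : (ι → ℝ) →ₗ[ℝ] ℝ := -f.comp (LinearMap.inl ℝ (ι → ℝ) E) with hφ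
  set e₁ : E := (InnerProductSpace.toDual ℝ E).symm (LinearMap.toContinuousLinearMap g) with he₁
  have hin : ∀ v : E, inner ℝ v e₁ = g v := by
    intro v
    rw [real_inner_comm, he₁, InnerProductSpace.toDual_symm_apply]
    rfl
  set e : E := EL.starProjection e₁ with he
  have hee : ∀ v ∈ EL, inner ℝ v e = g v := by
    intro v hv
    rw [← hin v, he]
    rw [← Submodule.inner_starProjection_left_eq_right, Submodule.starProjection_eq_self_iff.mpr hv]
  have hsplit : ∀ p : (ι → ℝ) × E, f p = f (p.1, 0) + g p.2 := by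
    intro p
    rw [hg, LinearMap.comp_apply, LinearMap.inr_apply, ← map_add]
    congr 1
    ext <;> simp
  have h0 : e = 0 := by
    refine h.norel e (EL.starProjection_apply_mem _) φ fun p hp => ?_
    have h1 : f p = 0 := hle (Submodule.subset_span hp)
    rw [hsplit] at h1
    rw [hee p.2 (h.el p hp), hφ]
    simp only [LinearMap.neg_apply, LinearMap.comp_apply, LinearMap.inl_apply]
    linarith
  apply hf
  rw [hsplit]
  have h2 := hee s hs
  rw [h0, inner_zero_right] at h2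
  rw [← h2, add_zero]
  exact map_zero f

/-- one vector `X₀` for all small vectors of `EL` -/
theorem Data.exists_box (h : Data o EL D) : ∃ (n : ℕ) (b : Module.Basis (Fin n) ℝ EL) (X₀ : ι → ℝ),
    ∀ a : Fin n → ℝ, (∀ j, |a j| ≤ 1) →
      ((X₀, ∑ j, a j • (b j : E)) : (ι → ℝ) × E) ∈ closure (cone D) := by
  set b := Module.finBasis ℝ EL with hb
  have h1 : ∀ j, ∃ X : ι → ℝ, ((X, 0) : (ι → ℝ) × E) + (0, (b j : E)) ∈ closure (cone D) ∧
      ((X, 0) : (ι → ℝ) × E) - (0, (b j : E)) ∈ closure (cone D) := fun j =>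
    h.span_le (h.mem_span (b j).2)
  choose X hX1 hX2 using h1
  refine ⟨Module.finrank ℝ EL, b, ∑ j, X j, fun a ha => ?_⟩
  have e : ((∑ j, X j, ∑ j, a j • (b j : E)) : (ι → ℝ) × E) =
      ∑ j, (((1 + a j) / 2) • (((X j, 0) : (ι → ℝ) × E) + (0, (b j : E))) +
        ((1 - a j) / 2) • (((X j, 0) : (ι → ℝ) × E) - (0, (b j : E)))) := by
    rw [Prod.ext_iff]
    constructor
    · rw [Prod.fst_sum]
      show ∑ j, X j = _
      refine Finset.sum_congr rfl fun j _ => ?_
      simp only [Prod.fst_add, Prod.smul_fst, Prod.fst_sub, add_zero, sub_zero]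
      rw [← add_smul]
      have : (1 + a j) / 2 + (1 - a j) / 2 = 1 := by ring
      rw [this, one_smul]
    · rw [Prod.snd_sum]
      show ∑ j, a j • (b j : E) = _
      refine Finset.sum_congr rfl fun j _ => ?_
      simp only [Prod.snd_add, Prod.smul_snd, Prod.snd_sub, zero_add, zero_sub, smul_neg]
      rw [← sub_eq_add_neg, ← sub_smul]
      congr 1
      ring
  rw [e]
  refine h.sum_mem _ _ fun j _ => h.add_mem (h.smul_mem (hX1 j) ?_) (h.smul_mem (hX2 j) ?_)
  · have := (abs_le.mp (ha j)).1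
    linarith
  · have := (abs_le.mp (ha j)).2
    linarith

theorem Data.exists_ray (h : Data o EL D) : ∃ X : ι → ℝ, (∀ i, i ≠ o → X i ≠ 0) ∧
    ∀ e ∈ EL, ∃ τ : ℝ, 0 < τ ∧ ((X, τ • e) : (ι → ℝ) × E) ∈ closure (cone D) := by
  obtain ⟨n, b, X₀, hbox⟩ := h.exists_box
  obtain ⟨d, hd⟩ := h.ne
  set α := b.repr ⟨d.2, h.el d hd⟩ with hα
  have hdsum : d.2 = ∑ j, α j • (b j : E) := by
    have := b.sum_repr ⟨d.2, h.el d hd⟩
    have h2 := congrArg (fun v : EL => (v : E)) this
    simp only [Submodule.coe_sum, Submodule.coe_smul] at h2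
    exact h2.symm
  -- a bound
  have hbd : ∀ a : Fin n → ℝ, ∃ τ : ℝ, 0 < τ ∧ ∀ t, 0 < t → t ≤ τ → ∀ j, |t * a j| ≤ 1 / 2 := by
    intro a
    set M := ∑ j, |a j| with hM
    have hM0 : 0 ≤ M := Finset.sum_nonneg fun j _ => abs_nonneg _
    refine ⟨1 / (2 * (M + 1)), by positivity, fun t ht htM j => ?_⟩
    have h1 : |a j| ≤ M := Finset.single_le_sum (f := fun j => |a j|)
      (fun j _ => abs_nonneg _) (Finset.mem_univ j)
    rw [abs_mul, abs_of_pos ht]
    calc t * |a j| ≤ 1 / (2 * (M + 1)) * (M + 1) :=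
          mul_le_mul htM (by linarith) (abs_nonneg _) (by positivity)
      _ = 1 / 2 := by field_simp
  obtain ⟨ε₁, hε₁, hε⟩ := hbd (fun j => α j)
  -- a generic `ε`
  obtain ⟨ε, hεm, hεB⟩ : ∃ ε ∈ Set.Ioc 0 ε₁, ε ∉ Set.range (fun i => -X₀ i / d.1 i) :=
    (Set.Ioc_infinite hε₁).exists_notMem_finite (Set.finite_range _)
  refine ⟨X₀ + ε • d.1, fun i hi hcon => ?_, fun e he => ?_⟩
  · apply hεB
    refine ⟨i, ?_⟩
    have h1 := h.reg d hd i hi
    simp only [Pi.add_apply, Pi.smul_apply, smul_eq_mul] at hcon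
    show -X₀ i / d.1 i = ε
    rw [div_eq_iff h1]
    linarith
  · set β := b.repr ⟨e, he⟩ with hβ
    have hesum : e = ∑ j, β j • (b j : E) := by
      have := b.sum_repr ⟨e, he⟩
      have h2 := congrArg (fun v : EL => (v : E)) this
      simp only [Submodule.coe_sum, Submodule.coe_smul] at h2
      exact h2.symm
    obtain ⟨τ, hτ, hτb⟩ := hbd (fun j => β j)
    refine ⟨τ, hτ, ?_⟩
    have h1 := hbox (fun j => τ * β j - ε * α j) (fun j => by
      have h2 := hτb τ hτ le_rfl j
      have h3 := hε ε hεm.1 hεm.2 j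
      have := abs_sub (τ * β j) (ε * α j)
      linarith)
    have h2 := h.add_mem h1 (smul_mem_closure_cone (subset_closure (mem_cone_of_mem hd)) hεm.1)
    have e1 : ((X₀, ∑ j, (τ * β j - ε * α j) • (b j : E)) : (ι → ℝ) × E) + ε • d =
        (X₀ + ε • d.1, τ • e) := by
      rw [Prod.ext_iff]
      refine ⟨rfl, ?_⟩
      show ∑ j, (τ * β j - ε * α j) • (b j : E) + ε • d.2 = τ • e
      rw [hdsum, hesum, Finset.smul_sum, Finset.smul_sum, ← Finset.sum_add_distrib]
      refine Finset.sum_congr rfl fun j _ => ?_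
      rw [sub_smul, smul_smul, smul_smul]
      abel
    rwa [e1] at h2

theorem Data.conclusion (h : Data o EL D) : ∃ X : ι → ℝ, (∀ i, i ≠ o → X i ≠ 0) ∧
    (∃ p ∈ D, ∀ i, i ≠ o → 0 < X i * p.1 i) ∧
    ∀ e ∈ EL, e ≠ 0 → ∃ p ∈ D, (∀ i, i ≠ o → 0 < X i * p.1 i) ∧ 0 < inner ℝ p.2 e := by
  obtain ⟨X, hX, hray⟩ := h.exists_ray
  have hev : ∀ v : E, ∀ᶠ p in 𝓝 ((X, v) : (ι → ℝ) × E), ∀ i, i ≠ o → 0 < X i * p.1 i := by
    intro v
    rw [eventually_all]
    intro i
    by_cases hi : i = o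
    · exact Eventually.of_forall fun p hp => absurd hi hp
    · have hc : Continuous (fun p : (ι → ℝ) × E => X i * p.1 i) :=
        continuous_const.mul ((continuous_apply i).comp continuous_fst)
      have h1 : 0 < X i * ((X, v) : (ι → ℝ) × E).1 i := mul_self_pos.mpr (hX i hi)
      filter_upwards [hc.continuousAt.eventually (lt_mem_nhds h1)] with p hp _
      exact hp
  have hscale : ∀ (s : ℝ) (d : (ι → ℝ) × E), 0 < s → (∀ i, i ≠ o → 0 < X i * (s • d).1 i) →
      ∀ i, i ≠ o → 0 < X i * d.1 i := by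
    intro s d hs hd i hi
    have h1 := hd i hi
    have h2 : X i * (s • d).1 i = s * (X i * d.1 i) := by
      simp only [Prod.smul_fst, Pi.smul_apply, smul_eq_mul]
      ring
    rw [h2] at h1
    exact (pos_iff_pos_of_mul_pos h1).mp hs
  refine ⟨X, hX, ?_, fun e he he0 => ?_⟩
  · obtain ⟨τ, -, hτ⟩ := hray 0 EL.zero_mem
    obtain ⟨p, hp, hp'⟩ := ((mem_closure_iff_frequently.mp hτ).and_eventually (hev _)).exists
    obtain ⟨s, hs, d, hd, rfl⟩ := hp
    exact ⟨d, hd, hscale s d hs hp'⟩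
  · obtain ⟨τ, hτ0, hτ⟩ := hray e he
    have hc : Continuous (fun p : (ι → ℝ) × E => inner ℝ p.2 e) :=
      continuous_snd.inner continuous_const
    have h1 : 0 < inner ℝ ((X, τ • e) : (ι → ℝ) × E).2 e := by
      show 0 < inner ℝ (τ • e) e
      rw [real_inner_smul_left]
      exact mul_pos hτ0 (real_inner_self_pos.mpr he0)
    have h2 := hc.continuousAt.eventually (lt_mem_nhds h1)
    obtain ⟨p, hp, hp', hp''⟩ :=
      ((mem_closure_iff_frequently.mp hτ).and_eventually ((hev _).and h2)).exists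
    obtain ⟨s, hs, d, hd, rfl⟩ := hp
    refine ⟨d, hd, hscale s d hs hp', ?_⟩
    have h3 : inner ℝ (s • d).2 e = s * inner ℝ d.2 e := by
      rw [Prod.smul_snd, real_inner_smul_left]
    rw [h3] at hp''
    exact (pos_iff_pos_of_mul_pos hp'').mp hs

end Pool.Agent.Lib.MP_d9b062_al.CONE

end
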