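import Mathlib
import Pool.Agent.Lib.MP_d9b062_al_m.MBase

/-!
MP_d9b062_al: merged modules (to shorten the build).
-/

set_option autoImplicit false

/-! ## from `MP_d9b062_al_h61.Tensor` -/

section
/-!
# Kronecker powers, polynomials as tensors, wedges (for Chevalley's theorem)
-/

set_option autoImplicit false

namespace Pool.Agent.Lib.MP_d9b062_al.H61C

open Matrix Finset

/-- Kronecker power of a matrix. -/
def kpow {I : Type*} [Fintype I] [DecidableEq I] (n : ℕ) :
    Matrix I I ℝ →* Matrix (Fin n → I) (Fin n → I) ℝ where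
  toFun M := Matrix.of fun s t => ∏ j, M (s j) (t j)
  map_one' := by
    ext s t
    simp only [of_apply, one_apply]
    rw [Finset.prod_ite_zero]
    simp [funext_iff]
  map_mul' M M' := by
    ext s t
    simp only [of_apply, mul_apply]
    rw [prod_univ_sum, Fintype.piFinset_univ]
    refine sum_congr rfl (fun x _ => ?_)
    rw [prod_mul_distrib]

lemma kpow_apply {I : Type*} [Fintype I] [DecidableEq I] (n : ℕ) (M : Matrix I I ℝ)
    (s t : Fin n → I) : kpow n M s t = ∏ j, M (s j) (t j) := rfl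

lemma kpow_conjTranspose {I : Type*} [Fintype I] [DecidableEq I] (n : ℕ) (M : Matrix I I ℝ) :
    kpow n (Mᴴ) = (kpow n M)ᴴ := by
  ext s t
  simp [kpow_apply, conjTranspose_apply]

/-- The index set of the affine coordinates of an `N × N` matrix. -/
abbrev Ix (N : ℕ) := (Fin N × Fin N) ⊕ Unit

/-- right multiplication by a matrix, in the affine coordinates -/
def bmap (N : ℕ) : Matrix (Fin N) (Fin N) ℝ →* Matrix (Ix N) (Ix N) ℝ where
  toFun T := fromBlocks (Matrix.of fun p q => if p.1 = q.1 then T p.2 q.2 else 0) 0 0 1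
  map_one' := by
    rw [← fromBlocks_one]
    congr 1
    ext p q
    obtain ⟨i, j⟩ := p
    obtain ⟨i', j'⟩ := q
    simp only [of_apply, one_apply, Prod.mk.injEq]
    split_ifs <;> simp_all
  map_mul' T T' := by
    rw [fromBlocks_multiply]
    simp only [Matrix.mul_zero, Matrix.zero_mul, add_zero, zero_add, Matrix.mul_one]
    congr 1
    ext p q
    obtain ⟨i, j⟩ := p
    obtain ⟨i', j'⟩ := q
    simp only [of_apply, mul_apply, Fintype.sum_prod_type]
    symm
    rw [Finset.sum_eq_single i]
    · by_cases h : i = i'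
      · simp [h]
      · simp [h]
    · intro b _ hb
      refine sum_eq_zero (fun x _ => ?_)
      rw [if_neg (Ne.symm hb), zero_mul]
    · simp

lemma bmap_apply (N : ℕ) (T : Matrix (Fin N) (Fin N) ℝ) :
    bmap N T = fromBlocks (Matrix.of fun p q => if p.1 = q.1 then T p.2 q.2 else 0) 0 0 1 := rfl

lemma bmap_conjTranspose (N : ℕ) (T : Matrix (Fin N) (Fin N) ℝ) :
    bmap N (Tᴴ) = (bmap N T)ᴴ := by
  rw [bmap_apply, bmap_apply, fromBlocks_conjTranspose]
  simp only [conjTranspose_zero, conjTranspose_one]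
  congr 1
  ext p q
  simp only [of_apply, conjTranspose_apply, eq_comm (a := p.1)]
  split_ifs <;> simp

/-- affine coordinates of a matrix -/
def tl {N : ℕ} (X : Matrix (Fin N) (Fin N) ℝ) : Ix N → ℝ :=
  Sum.elim (fun ij => X ij.1 ij.2) (fun _ => 1)

lemma tl_mul {N : ℕ} (X T : Matrix (Fin N) (Fin N) ℝ) (s : Ix N) :
    tl (X * T) s = ∑ u, tl X u * bmap N T u s := by
  rw [bmap_apply, Fintype.sum_sum_type]
  rcases s with ⟨i, j⟩ | ⟨⟩
  · simp only [tl, Sum.elim_inl, mul_apply, fromBlocks_apply₁₁, fromBlocks_apply₂₁, of_apply,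
      Fintype.sum_prod_type, Matrix.zero_apply, mul_zero, sum_const_zero, add_zero]
    symm
    rw [Finset.sum_eq_single i]
    · simp
    · intro b _ hb
      refine sum_eq_zero (fun x _ => ?_)
      rw [if_neg hb, mul_zero]
    · simp
  · simp [tl]

/-- the polynomial function of a tensor -/
def FF {N : ℕ} (d : ℕ) (a : (Fin d → Ix N) → ℝ) (X : Matrix (Fin N) (Fin N) ℝ) : ℝ :=
  ∑ s, a s * ∏ j, tl X (s j)

lemma FF_add {N : ℕ} (d : ℕ) (a b : (Fin d → Ix N) → ℝ) (X : Matrix (Fin N) (Fin N) ℝ) :
    FF d (a + b) X = FF d a X + FF d b X := by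
  simp only [FF, Pi.add_apply, add_mul, sum_add_distrib]

lemma FF_smul {N : ℕ} (d : ℕ) (c : ℝ) (a : (Fin d → Ix N) → ℝ) (X : Matrix (Fin N) (Fin N) ℝ) :
    FF d (c • a) X = c * FF d a X := by
  simp only [FF, Pi.smul_apply, smul_eq_mul, mul_sum, mul_assoc]

lemma FF_mulVec {N : ℕ} (d : ℕ) (a : (Fin d → Ix N) → ℝ) (X T : Matrix (Fin N) (Fin N) ℝ) :
    FF d (kpow d (bmap N T) *ᵥ a) X = FF d a (X * T) := by
  simp only [FF, mulVec, dotProduct, kpow_apply, sum_mul]
  rw [sum_comm]
  refine sum_congr rfl (fun s _ => ?_)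
  have : ∏ j, tl (X * T) (s j) =
      ∑ u : Fin d → Ix N, ∏ j, (tl X (u j) * bmap N T (u j) (s j)) := by
    simp only [tl_mul]
    rw [prod_univ_sum, Fintype.piFinset_univ]
  rw [this, mul_sum]
  refine sum_congr rfl (fun u _ => ?_)
  rw [prod_mul_distrib]
  ring

/-- multiplication of a tensor by a linear form -/
def consT {N : ℕ} {d : ℕ} (c : Ix N → ℝ) (a : (Fin d → Ix N) → ℝ) :
    (Fin (d + 1) → Ix N) → ℝ := fun s => c (s 0) * a (fun j => s j.succ)

lemma FF_consT {N : ℕ} {d : ℕ} (c : Ix N → ℝ) (a : (Fin d → Ix N) → ℝ)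
    (X : Matrix (Fin N) (Fin N) ℝ) :
    FF (d + 1) (consT c a) X = (∑ u, c u * tl X u) * FF d a X := by
  unfold FF
  rw [← (Fin.consEquiv (fun _ : Fin (d + 1) => Ix N)).sum_comp, Fintype.sum_prod_type, sum_mul_sum]
  refine sum_congr rfl (fun u _ => sum_congr rfl (fun s _ => ?_))
  simp only [consT, Fin.consEquiv_apply, Fin.cons_zero, Fin.cons_succ, Fin.prod_univ_succ]
  ring

lemma sum_single_tl {N : ℕ} (u : Ix N) (X : Matrix (Fin N) (Fin N) ℝ) :
    ∑ v, (Pi.single u 1 : Ix N → ℝ) v * tl X v = tl X u := by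
  rw [Finset.sum_eq_single u]
  · simp
  · intro b _ hb
    simp [Pi.single_eq_of_ne hb]
  · simp

/-- every polynomial comes from tensors of all large orders -/
lemma exists_FF {N : ℕ} (p : MvPolynomial (Fin N × Fin N) ℝ) :
    ∃ d : ℕ, ∀ d', d ≤ d' → ∃ a : (Fin d' → Ix N) → ℝ, ∀ X : Matrix (Fin N) (Fin N) ℝ,
      FF d' a X = MvPolynomial.eval (fun ij => X ij.1 ij.2) p := by
  induction p using MvPolynomial.induction_on with
  | C r =>
    refine ⟨0, fun d' _ => ?_⟩
    induction d' with
    | zero =>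
      refine ⟨fun _ => r, fun X => ?_⟩
      simp [FF]
    | succ d' ih =>
      obtain ⟨a, ha⟩ := ih (Nat.zero_le _)
      refine ⟨consT (Pi.single (Sum.inr ()) 1) a, fun X => ?_⟩
      rw [FF_consT, sum_single_tl, ha]
      simp [tl]
  | add p q hp hq =>
    obtain ⟨d, hd⟩ := hp
    obtain ⟨d1, hd1⟩ := hq
    refine ⟨max d d1, fun d' hd' => ?_⟩
    obtain ⟨a, ha⟩ := hd d' (le_trans (le_max_left _ _) hd')
    obtain ⟨b, hb⟩ := hd1 d' (le_trans (le_max_right _ _) hd')
    refine ⟨a + b, fun X => ?_⟩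
    rw [FF_add, ha, hb, map_add]
  | mul_X p i hp =>
    obtain ⟨d, hd⟩ := hp
    refine ⟨d + 1, fun d' hd' => ?_⟩
    obtain ⟨d', rfl⟩ : ∃ k, d' = k + 1 := ⟨d' - 1, by omega⟩
    obtain ⟨a, ha⟩ := hd d' (by omega)
    refine ⟨consT (Pi.single (Sum.inl i) 1) a, fun X => ?_⟩
    rw [FF_consT, sum_single_tl, ha, map_mul, MvPolynomial.eval_X, mul_comm]
    rfl

/-- multilinearity of the determinant -/
lemma ml {S : Type*} [Fintype S] {k : ℕ} (c f : Fin k → S → ℝ) :
    ∑ s : Fin k → S, (∏ j, c j (s j)) * (Matrix.of fun j i => f i (s j)).det =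
      (Matrix.of fun j i => ∑ x, c j x * f i x).det := by
  have h := (detRowAlternating (n := Fin k) (R := ℝ)).toMultilinearMap.map_sum
    (g := fun (j : Fin k) (x : S) => c j x • (fun i => f i x))
  have e1 : (fun j => ∑ x, c j x • (fun i => f i x)) =
      (fun j i => ∑ x, c j x * f i x) := by
    funext j i
    simp [Finset.sum_apply]
  rw [e1] at h
  change (Matrix.of fun j i => ∑ x, c j x * f i x).det = _ at h
  rw [h]
  refine sum_congr rfl (fun s _ => ?_)
  rw [MultilinearMap.map_smul_univ]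
  rfl

/-- the wedge of `k` functions, as a function on `S ^ k` -/
def wedge {S : Type*} {k : ℕ} (f : Fin k → S → ℝ) : (Fin k → S) → ℝ :=
  fun s => (Matrix.of fun j i => f i (s j)).det

lemma kpow_mulVec_wedge {S : Type*} [Fintype S] [DecidableEq S] {k : ℕ} (M : Matrix S S ℝ)
    (f : Fin k → S → ℝ) : kpow k M *ᵥ wedge f = wedge (fun i => M *ᵥ f i) := by
  funext s
  simp only [mulVec, dotProduct, kpow_apply, wedge]
  rw [ml (fun j => M (s j)) f]

lemma wedge_comb {S : Type*} {k : ℕ} (f f' : Fin k → S → ℝ) (C : Matrix (Fin k) (Fin k) ℝ)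
    (h : ∀ i x, f' i x = ∑ l, C i l * f l x) : wedge f' = C.det • wedge f := by
  funext s
  have : (Matrix.of fun j i => f' i (s j)) = (Matrix.of fun j i => f i (s j)) * Cᵀ := by
    ext j i
    simp only [of_apply, mul_apply, transpose_apply, h]
    exact sum_congr rfl (fun l _ => mul_comm _ _)
  simp only [wedge, Pi.smul_apply, smul_eq_mul]
  rw [this, det_mul, det_transpose, mul_comm]

lemma exists_dual {S : Type*} [Fintype S] [DecidableEq S] {k : ℕ} (f : Fin k → S → ℝ)
    (hf : LinearIndependent ℝ f) :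
    ∃ c : Fin k → S → ℝ, ∀ j i, ∑ x, c j x * f i x = if j = i then 1 else 0 := by
  obtain ⟨g, hg⟩ := LinearMap.exists_leftInverse_of_injective
    (Fintype.linearCombination ℝ f)
    (LinearMap.ker_eq_bot.mpr hf.fintypeLinearCombination_injective)
  refine ⟨fun j x => g (Pi.single x 1) j, fun j i => ?_⟩
  have h1 : g (f i) = Pi.single i 1 := by
    have := LinearMap.congr_fun hg (Pi.single i 1)
    simpa [Fintype.linearCombination_apply_single] using this
  have h2 : f i = ∑ x, f i x • (Pi.single x 1 : S → ℝ) := by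
    ext y
    simp [Finset.sum_apply, Pi.single_apply]
  have h3 : g (f i) j = ∑ x, f i x * g (Pi.single x 1) j := by
    conv_lhs => rw [h2]
    simp [map_sum, Finset.sum_apply]
  calc ∑ x, g (Pi.single x 1) j * f i x = g (f i) j := by
        rw [h3]; exact sum_congr rfl (fun x _ => mul_comm _ _)
    _ = if j = i then 1 else 0 := by rw [h1, Pi.single_apply]

lemma wedge_ne_zero {S : Type*} [Fintype S] [DecidableEq S] {k : ℕ} (f : Fin k → S → ℝ)
    (hf : LinearIndependent ℝ f) : wedge f ≠ 0 := by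
  obtain ⟨c, hc⟩ := exists_dual f hf
  intro h0
  have h := ml c f
  have e1 : (Matrix.of fun j i => ∑ x, c j x * f i x) = 1 := by
    ext j i
    rw [of_apply, hc, one_apply]
  rw [e1, det_one] at h
  have : ∑ s : Fin k → S, (∏ j, c j (s j)) * (Matrix.of fun j i => f i (s j)).det = 0 := by
    refine sum_eq_zero (fun s _ => ?_)
    have : (Matrix.of fun j i => f i (s j)).det = 0 := congr_fun h0 s
    rw [this, mul_zero]
  rw [this] at h
  exact zero_ne_one h

lemma mem_span_of_wedge {S : Type*} [Fintype S] [DecidableEq S] {k : ℕ} (f f' : Fin k → S → ℝ)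
    (hf : LinearIndependent ℝ f) (α : ℝ) (hα : α ≠ 0) (h : wedge f' = α • wedge f) (i0 : Fin k) :
    f i0 ∈ Submodule.span ℝ (Set.range f') := by
  obtain ⟨c, hc⟩ := exists_dual f hf
  set K : Fin k → ℝ := fun i =>
    cramer (Matrix.of fun j i => ∑ x, c j x * f' i x)ᵀ (Pi.single i 1) i0 with hK
  have key : ∀ x : S, ∑ i, f' i x * K i = α * f i0 x := by
    intro x
    have h1 := ml (Function.update c i0 (Pi.single x 1)) f'
    have h2 := ml (Function.update c i0 (Pi.single x 1)) f
    have e1 : (Matrix.of fun j i => ∑ y, Function.update c i0 (Pi.single x 1) j y * f' i y) =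
        updateRow (Matrix.of fun j i => ∑ x, c j x * f' i x) i0 (fun i => f' i x) := by
      ext j i
      by_cases hj : j = i0
      · subst hj
        simp [Pi.single_apply]
      · simp [updateRow_ne hj, Function.update_of_ne hj]
    have e2 : (Matrix.of fun j i => ∑ y, Function.update c i0 (Pi.single x 1) j y * f i y) =
        updateRow 1 i0 (fun i => f i x) := by
      ext j i
      by_cases hj : j = i0
      · subst hj
        simp [Pi.single_apply]
      · simp only [of_apply, updateRow_ne hj, Function.update_of_ne hj, hc, one_apply]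
    rw [e1, ← cramer_transpose_apply] at h1
    rw [e2, ← cramer_transpose_apply, transpose_one, cramer_one] at h2
    have e3 : ∑ s : Fin k → S, (∏ j, Function.update c i0 (Pi.single x 1) j (s j)) *
        (Matrix.of fun j i => f' i (s j)).det = α *
        ∑ s : Fin k → S, (∏ j, Function.update c i0 (Pi.single x 1) j (s j)) *
        (Matrix.of fun j i => f i (s j)).det := by
      rw [mul_sum]
      refine sum_congr rfl (fun s _ => ?_)
      have : (Matrix.of fun j i => f' i (s j)).det =
          α * (Matrix.of fun j i => f i (s j)).det := congr_fun h s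
      rw [this]; ring
    rw [h1, h2] at e3
    have e4 : (1 : (Fin k → ℝ) →ₗ[ℝ] (Fin k → ℝ)) (fun i => f i x) i0 = f i0 x := rfl
    rw [e4] at e3
    rw [← e3, LinearMap.pi_apply_eq_sum_univ]
    simp only [Finset.sum_apply, Pi.smul_apply, smul_eq_mul, hK]
    refine sum_congr rfl (fun i _ => ?_)
    have e5 : (Pi.single i 1 : Fin k → ℝ) = fun j => if i = j then 1 else 0 := by
      funext j
      simp [Pi.single_apply, eq_comm]
    rw [e5]
  have h5 : f i0 = ∑ i, (α⁻¹ * K i) • f' i := by
    funext x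
    simp only [Finset.sum_apply, Pi.smul_apply, smul_eq_mul]
    have := key x
    calc f i0 x = α⁻¹ * (α * f i0 x) := by field_simp
      _ = α⁻¹ * ∑ i, f' i x * K i := by rw [this]
      _ = _ := by
        rw [mul_sum]
        exact sum_congr rfl (fun i _ => by ring)
  rw [h5]
  exact Submodule.sum_mem _ (fun i _ => Submodule.smul_mem _ _ (Submodule.subset_span ⟨i, rfl⟩))

end Pool.Agent.Lib.MP_d9b062_al.H61C

end

/-! ## from `MP_d9b062_al_h61.Chevalley` -/

section
/-!
# MOS1: a Zariski closed group is the stabilizer of a line (Chevalley)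
-/

set_option autoImplicit false

namespace Pool.Agent.Lib.MP_d9b062_al

open Matrix Finset

namespace H61C

/-- matrices as operators -/
noncomputable abbrev EC (m : ℕ) : Matrix (Fin m) (Fin m) ℝ ≃⋆ₐ[ℝ] Op m :=
  Matrix.toEuclideanCLM (𝕜 := ℝ) (n := Fin m)

lemma EC_symm_apply {N : ℕ} (T : Op N) (i j : Fin N) :
    (EC N).symm T i j = T (EuclideanSpace.single j 1) i := by
  obtain ⟨M, hM⟩ : ∃ M, EC N M = T := ⟨(EC N).symm T, (EC N).apply_symm_apply T⟩
  subst hM
  rw [StarAlgEquiv.symm_apply_apply]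
  have h : (EC N M (EuclideanSpace.single j 1)) i = (M *ᵥ Pi.single j 1) i := rfl
  rw [h, mulVec_single_one]
  rfl

lemma polyVal_eq {N : ℕ} (p : MvPolynomial (Fin N × Fin N) ℝ) (T : Op N) :
    polyVal p T = MvPolynomial.eval (fun ij => (EC N).symm T ij.1 ij.2) p := by
  unfold polyVal
  have h : (fun ij : Fin N × Fin N => T (EuclideanSpace.single ij.2 1) ij.1) =
      fun ij => (EC N).symm T ij.1 ij.2 := by
    funext ij
    exact (EC_symm_apply T ij.1 ij.2).symm
  rw [h]

/-- the representation on wedges of tensors, as matrices -/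
noncomputable def rho (N d k : ℕ) :
    Op N →* Matrix (Fin k → Fin d → Ix N) (Fin k → Fin d → Ix N) ℝ :=
  (kpow k).comp ((kpow d).comp ((bmap N).comp ((EC N).symm : Op N →* _)))

lemma rho_apply (N d k : ℕ) (T : Op N) :
    rho N d k T = kpow k (kpow d (bmap N ((EC N).symm T))) := rfl

/-- the representation on wedges of tensors, as operators -/
noncomputable def RR (N d k m : ℕ) (e : (Fin k → Fin d → Ix N) ≃ Fin m) : Op N →* Op m where
  toFun T := EC m (Matrix.reindex e e (rho N d k T))
  map_one' := by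
    rw [map_one]
    simp
  map_mul' T T' := by
    rw [MonoidHom.map_mul, reindex_apply, reindex_apply, reindex_apply,
      ← map_mul (EC m), Matrix.submatrix_mul_equiv]

lemma RR_apply (N d k m : ℕ) (e : (Fin k → Fin d → Ix N) ≃ Fin m) (T : Op N) :
    RR N d k m e T = EC m (Matrix.reindex e e (rho N d k T)) := rfl

/-- vectors of the representation -/
noncomputable def vec {N d k m : ℕ} (e : (Fin k → Fin d → Ix N) ≃ Fin m)
    (v : (Fin k → Fin d → Ix N) → ℝ) : V m := WithLp.toLp 2 (v ∘ e.symm)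

lemma RR_vec {N d k m : ℕ} (e : (Fin k → Fin d → Ix N) ≃ Fin m) (T : Op N)
    (v : (Fin k → Fin d → Ix N) → ℝ) : RR N d k m e T (vec e v) = vec e (rho N d k T *ᵥ v) := by
  rw [RR_apply, vec, vec, toEuclideanCLM_toLp, reindex_apply, submatrix_mulVec_equiv,
    Equiv.symm_symm, Function.comp_assoc, Equiv.symm_comp_self, Function.comp_id]

lemma vec_injective {N d k m : ℕ} (e : (Fin k → Fin d → Ix N) ≃ Fin m) :
    Function.Injective (vec e) := by
  intro v v' h
  have h1 : v ∘ e.symm = v' ∘ e.symm := WithLp.toLp_injective 2 h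
  funext s
  have := congr_fun h1 (e s)
  simpa using this

lemma vec_smul {N d k m : ℕ} (e : (Fin k → Fin d → Ix N) ≃ Fin m) (a : ℝ)
    (v : (Fin k → Fin d → Ix N) → ℝ) : vec e (a • v) = a • vec e v := rfl

lemma RR_star (N d k m : ℕ) (e : (Fin k → Fin d → Ix N) ≃ Fin m) (T : Op N) :
    RR N d k m e (star T) = star (RR N d k m e T) := by
  have h1 : (EC N).symm (star T) = ((EC N).symm T)ᴴ := map_star (EC N).symm T
  have h2 : star (EC m (Matrix.reindex e e (rho N d k T))) =
      EC m (Matrix.reindex e e (rho N d k T))ᴴ := (map_star (EC m) _).symm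
  rw [RR_apply, RR_apply, h2, rho_apply, rho_apply, h1, bmap_conjTranspose, kpow_conjTranspose,
    kpow_conjTranspose, conjTranspose_reindex]

lemma polyFun_entry (N d k : ℕ) (s t : Fin k → Fin d → Ix N) :
    (fun T : Op N => rho N d k T s t) ∈ PolyFun (Op N) := by
  have h : (fun T : Op N => rho N d k T s t) = fun T =>
      ∏ j ∈ (univ : Finset (Fin k)), ∏ l ∈ (univ : Finset (Fin d)),
        bmap N ((EC N).symm T) (s j l) (t j l) := rfl
  rw [h]
  refine PolyFun.prod _ (fun j _ => PolyFun.prod _ (fun l _ => ?_))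
  rcases s j l with p | u <;> rcases t j l with q | u'
  · by_cases hpq : p.1 = q.1
    · let φ : Op N →ₗ[ℝ] ℝ :=
        { toFun := fun T => (EC N).symm T p.2 q.2
          map_add' := fun T T' => by rw [map_add]; rfl
          map_smul' := fun c T => by rw [map_smul]; rfl }
      have : (fun T : Op N => bmap N ((EC N).symm T) (Sum.inl p) (Sum.inl q)) = φ := by
        funext T
        rw [bmap_apply, fromBlocks_apply₁₁, of_apply, if_pos hpq]
        rfl
      rw [this]
      exact PolyFun.linear φ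
    · have : (fun T : Op N => bmap N ((EC N).symm T) (Sum.inl p) (Sum.inl q)) = fun _ => 0 := by
        funext T
        rw [bmap_apply, fromBlocks_apply₁₁, of_apply, if_neg hpq]
      rw [this]
      exact PolyFun.const 0
  · have : (fun T : Op N => bmap N ((EC N).symm T) (Sum.inl p) (Sum.inr u')) = fun _ => 0 := by
      funext T
      rw [bmap_apply, fromBlocks_apply₁₂, Matrix.zero_apply]
    rw [this]
    exact PolyFun.const 0
  · have : (fun T : Op N => bmap N ((EC N).symm T) (Sum.inr u) (Sum.inl q)) = fun _ => 0 := by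
      funext T
      rw [bmap_apply, fromBlocks_apply₂₁, Matrix.zero_apply]
    rw [this]
    exact PolyFun.const 0
  · have : (fun T : Op N => bmap N ((EC N).symm T) (Sum.inr u) (Sum.inr u')) =
        fun _ => (1 : Matrix Unit Unit ℝ) u u' := by
      funext T
      rw [bmap_apply, fromBlocks_apply₂₂]
    rw [this]
    exact PolyFun.const _

lemma RR_isPolyMap (N d k m : ℕ) (e : (Fin k → Fin d → Ix N) ≃ Fin m) :
    IsPolyMap (RR N d k m e : Op N → Op m) := by
  have h : (RR N d k m e : Op N → Op m) = fun T => ∑ i ∈ (univ : Finset (Fin m)),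
      ∑ j ∈ (univ : Finset (Fin m)),
        (rho N d k T (e.symm i) (e.symm j)) • EC m (Matrix.single i j 1) := by
    funext T
    rw [RR_apply]
    conv_lhs => rw [matrix_eq_sum_single (Matrix.reindex e e (rho N d k T))]
    rw [map_sum]
    refine sum_congr rfl (fun i _ => ?_)
    rw [map_sum]
    refine sum_congr rfl (fun j _ => ?_)
    rw [← map_smul, smul_single, smul_eq_mul, mul_one]
    rfl
  rw [h]
  exact IsPolyMap.sum _ (fun i _ => IsPolyMap.sum _ (fun j _ =>
    IsPolyMap.smul (polyFun_entry N d k _ _) (IsPolyMap.const _)))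

end H61C

open H61C in
/-- A Zariski closed group is the stabilizer of a line in a self-adjoint polynomial
representation. -/
theorem exists_chevalley {N : ℕ} (G : Subgroup (Op N)ˣ)
    (hcl : ∀ g : (Op N)ˣ, (∀ p : MvPolynomial (Fin N × Fin N) ℝ,
      (∀ h ∈ G, polyVal p (h : Op N) = 0) → polyVal p (g : Op N) = 0) → g ∈ G) :
    ∃ (m : ℕ) (R : Op N →* Op m) (w : V m), w ≠ 0 ∧ (∀ T, R (star T) = star (R T)) ∧
      IsPolyMap (R : Op N → Op m) ∧
      ∀ g : (Op N)ˣ, g ∈ G ↔ ∃ a : ℝ, R (g : Op N) w = a • w := by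
  classical
  let J : Ideal (MvPolynomial (Fin N × Fin N) ℝ) :=
    { carrier := {p | ∀ h ∈ G, polyVal p (h : Op N) = 0}
      add_mem' := fun {p q} hp hq h hh => by
        have := hp h hh
        have := hq h hh
        simp_all [polyVal]
      zero_mem' := fun h _ => by simp [polyVal]
      smul_mem' := fun c {p} hp h hh => by
        have := hp h hh
        simp_all [polyVal] }
  obtain ⟨gens, hgens⟩ := (inferInstance :
    IsNoetherianRing (MvPolynomial (Fin N × Fin N) ℝ)).noetherian J
  choose dd hdd using exists_FF (N := N)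
  obtain ⟨d, hd⟩ : ∃ d, ∀ p ∈ gens, dd p ≤ d := ⟨gens.sup dd, fun p hp => Finset.le_sup hp⟩
  let U : Submodule ℝ ((Fin d → Ix N) → ℝ) :=
    { carrier := {a | ∀ h ∈ G, FF d a ((EC N).symm (h : Op N)) = 0}
      add_mem' := fun {a b} ha hb h hh => by rw [FF_add, ha h hh, hb h hh, add_zero]
      zero_mem' := fun h _ => by simp [FF]
      smul_mem' := fun c {a} ha h hh => by rw [FF_smul, ha h hh, mul_zero] }
  have hUmul : ∀ g ∈ G, ∀ a ∈ U, kpow d (bmap N ((EC N).symm (g : Op N))) *ᵥ a ∈ U := by
    intro g hg a ha h hh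
    rw [FF_mulVec, ← map_mul]
    have := ha (h * g) (G.mul_mem hh hg)
    rwa [Units.val_mul] at this
  let k := Module.finrank ℝ U
  let b := Module.finBasis ℝ U
  let f : Fin k → (Fin d → Ix N) → ℝ := fun i => (b i : (Fin d → Ix N) → ℝ)
  have hf : LinearIndependent ℝ f := b.linearIndependent.map' U.subtype U.ker_subtype
  have hfU : ∀ i, f i ∈ U := fun i => (b i).2
  have hrepr : ∀ a ∈ U, ∃ c : Fin k → ℝ, ∀ x, a x = ∑ l, c l * f l x := by
    intro a ha
    refine ⟨fun l => b.repr ⟨a, ha⟩ l, fun x => ?_⟩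
    have h1 := congrArg (fun u : U => (u : (Fin d → Ix N) → ℝ) x) (b.sum_repr ⟨a, ha⟩)
    simp only [Submodule.coe_sum, Submodule.coe_smul, Finset.sum_apply, Pi.smul_apply,
      smul_eq_mul] at h1
    exact h1.symm
  let e := Fintype.equivFin (Fin k → Fin d → Ix N)
  refine ⟨_, RR N d k _ e, vec e (wedge f), ?_, RR_star N d k _ e, RR_isPolyMap N d k _ e,
    fun g => ⟨fun hg => ?_, ?_⟩⟩
  · intro h0
    exact wedge_ne_zero f hf (vec_injective e (h0.trans (by ext; rfl)))
  · choose c hc using fun i => hrepr _ (hUmul g hg _ (hfU i))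
    refine ⟨(Matrix.of c).det, ?_⟩
    rw [RR_vec, rho_apply, kpow_mulVec_wedge, wedge_comb f _ (Matrix.of c) hc, vec_smul]
  · rintro ⟨a, ha⟩
    rw [RR_vec, ← vec_smul] at ha
    have ha1 := vec_injective e ha
    have ha0 : a ≠ 0 := by
      rintro rfl
      rw [zero_smul] at ha1
      have h2 : rho N d k ((g⁻¹ : (Op N)ˣ) : Op N) *ᵥ (rho N d k (g : Op N) *ᵥ wedge f) =
          wedge f := by
        rw [mulVec_mulVec, ← map_mul, Units.inv_mul, map_one, one_mulVec]
      rw [ha1, mulVec_zero] at h2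
      exact wedge_ne_zero f hf h2.symm
    rw [rho_apply, kpow_mulVec_wedge] at ha1
    set M := kpow d (bmap N ((EC N).symm (g : Op N))) with hM
    have hle : U ≤ U.map M.mulVecLin := by
      intro x hx
      obtain ⟨c, hc⟩ := hrepr x hx
      have h1 : x = ∑ l, c l • f l := by
        funext y
        rw [hc y]
        simp [Finset.sum_apply]
      rw [h1]
      refine Submodule.sum_mem _ (fun l _ => Submodule.smul_mem _ _ ?_)
      have h2 := mem_span_of_wedge f (fun i => M *ᵥ f i) hf a ha0 ha1 l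
      refine (Submodule.span_le.mpr ?_) h2
      rintro _ ⟨i, rfl⟩
      exact ⟨f i, hfU i, rfl⟩
    have heq : U = U.map M.mulVecLin :=
      Submodule.eq_of_le_of_finrank_le hle (Submodule.finrank_map_le _ _)
    have hMU : ∀ x ∈ U, M *ᵥ x ∈ U := by
      intro x hx
      rw [heq]
      exact ⟨x, hx, rfl⟩
    apply hcl
    have hJ : J ≤ RingHom.ker (MvPolynomial.eval (fun ij : Fin N × Fin N =>
        (EC N).symm (g : Op N) ij.1 ij.2)) := by
      rw [← hgens, Submodule.span_le]
      intro p hp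
      have hpJ : p ∈ J := by rw [← hgens]; exact Submodule.subset_span hp
      obtain ⟨x, hx⟩ := hdd p d (hd p hp)
      have hxU : x ∈ U := by
        intro h hh
        rw [hx, ← polyVal_eq]
        exact hpJ h hh
      have h3 := hMU x hxU 1 G.one_mem
      rw [hM, FF_mulVec, Units.val_one, map_one, one_mul, hx] at h3
      exact h3
    intro p hp
    rw [polyVal_eq]
    exact hJ hp

end Pool.Agent.Lib.MP_d9b062_al

end
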