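import Mathlib
import Pool.Agent.Lib.MP_d9b062_al_m.MBase

/-!
MP_d9b062_al: merged modules (to shorten the build).
-/

set_option autoImplicit false

/-! ## from `MP_d9b062_al_h64.Basic1` -/

section
/-!
# Basic lemmas on cells, part 1: conformal factors and contraction factors
-/

set_option linter.unusedSectionVars false
set_option linter.unusedVariables false
set_option linter.unusedSimpArgs false

namespace Pool.Agent.Lib.MP_d9b062_al

open Filter
open scoped Topology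

namespace H64B

section Abstract

variable {E : Type*} [NormedAddCommGroup E] [NormedSpace ℝ E]

lemma mul_apply' (S T : E →L[ℝ] E) (v : E) : (S * T) v = S (T v) := rfl

/-- an operator that scales the norm on the image of `P` -/
lemma norm_mul_eq {l P : E →L[ℝ] E} (hP : P * P = P) (hP1 : ‖P‖ ≤ 1) (h0 : P ≠ 0) {t : ℝ}
    (h : ∀ v, ‖l (P v)‖ = Real.exp t * ‖P v‖) : ‖l * P‖ = Real.exp t := by
  apply le_antisymm
  · refine ContinuousLinearMap.opNorm_le_bound _ (Real.exp_nonneg _) fun v => ?_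
    rw [mul_apply', h]
    refine mul_le_mul_of_nonneg_left ?_ (Real.exp_nonneg _)
    calc ‖P v‖ ≤ ‖P‖ * ‖v‖ := P.le_opNorm v
      _ ≤ 1 * ‖v‖ := mul_le_mul_of_nonneg_right hP1 (norm_nonneg _)
      _ = ‖v‖ := one_mul _
  · obtain ⟨v, hv⟩ : ∃ v, P v ≠ 0 := by
      by_contra hc
      push Not at hc
      exact h0 (ContinuousLinearMap.ext fun v => by rw [hc v]; rfl)
    have hPP : P (P v) = P v := by rw [← mul_apply', hP]
    have h1 := (l * P).le_opNorm (P v)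
    rw [mul_apply', hPP, h] at h1
    exact le_of_mul_le_mul_right h1 (norm_pos_iff.mpr hv)

lemma mul_le_of_exp {a b C : ℝ} (hC : 0 < C) (h : ∀ n : ℕ, Real.exp (n * a) ≤ C * Real.exp (n * b)) :
    a ≤ b := by
  by_contra hab
  push Not at hab
  obtain ⟨n, hn⟩ := exists_nat_gt (Real.log C / (a - b))
  have h1 := h n
  rw [← Real.exp_log hC, ← Real.exp_add, Real.exp_le_exp] at h1
  have h2 : Real.log C < n * (a - b) := by
    rwa [div_lt_iff₀ (sub_pos.mpr hab)] at hn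
  linarith

end Abstract

lemma sum_mul_le {κ : Type*} (s : Finset κ) (f g : κ → ℝ) (hf : ∀ k ∈ s, 0 ≤ f k)
    (hg : ∀ k ∈ s, 0 ≤ g k) : ∑ k ∈ s, f k * g k ≤ (∑ k ∈ s, f k) * ∑ k ∈ s, g k := by
  rw [Finset.sum_mul]
  exact Finset.sum_le_sum fun k hk =>
    mul_le_mul_of_nonneg_left (Finset.single_le_sum hg hk) (hf k hk)

lemma exists_pos_le {κ : Type*} [Fintype κ] (f : κ → ℝ) (hf : ∀ k, 0 < f k) :
    ∃ a > 0, ∀ k, a ≤ f k := by
  classical
  have key : ∀ s : Finset κ, ∃ a > 0, ∀ k ∈ s, a ≤ f k := by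
    intro s
    induction s using Finset.induction_on with
    | empty => exact ⟨1, one_pos, fun k hk => absurd hk (Finset.notMem_empty k)⟩
    | insert k s hk ih =>
      obtain ⟨a, ha, h⟩ := ih
      refine ⟨min a (f k), lt_min ha (hf k), fun j hj => ?_⟩
      rcases Finset.mem_insert.mp hj with rfl | hj
      · exact min_le_right _ _
      · exact (min_le_left _ _).trans (h j hj)
  obtain ⟨a, ha, h⟩ := key Finset.univ
  exact ⟨a, ha, fun k => h k (Finset.mem_univ k)⟩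

end H64B

open H64B

namespace Cell

variable {N : ℕ} {G : Subgroup (Op N)ˣ} {ι : Type} [Fintype ι] [LinearOrder ι] (c : Cell G ι)

section BASIC

variable {l l' g : (Op N)ˣ}

theorem norm_P_le (i : ι) : ‖c.P i‖ ≤ 1 := by
  have h := CStarRing.norm_star_mul_self (x := c.P i)
  rw [c.star_P, c.grading.idem] at h
  rcases eq_or_lt_of_le (norm_nonneg (c.P i)) with h0 | h0
  · rw [← h0]; exact zero_le_one
  · have : ‖c.P i‖ * 1 = ‖c.P i‖ * ‖c.P i‖ := by rw [mul_one]; exact h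
    exact (mul_left_cancel₀ h0.ne' this).symm.le

/-- the conformal factors are characterized by their defining property -/
theorem tau_eq_of {i : ι} (hi : c.P i ≠ 0) {T : Op N} {t : ℝ}
    (h : ∀ v, ‖T (c.P i v)‖ = Real.exp t * ‖c.P i v‖) : c.tau T i = t := by
  rw [tau, if_neg hi, norm_mul_eq (c.grading.idem i) (c.norm_P_le i) hi h, Real.log_exp]

theorem tau_spec (hl : l ∈ c.L) (i : ι) (v : V N) :
    ‖(l : Op N) (c.P i v)‖ = Real.exp (c.tau l i) * ‖c.P i v‖ := by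
  obtain ⟨τ, hτ, h⟩ := c.conf l hl.1 hl.2
  by_cases hi : c.P i = 0
  · rw [hi]; simp
  · rw [c.tau_eq_of hi (h i)]; exact h i v

theorem norm_mul_P (hl : l ∈ c.L) {i : ι} (hi : c.P i ≠ 0) :
    ‖(l : Op N) * c.P i‖ = Real.exp (c.tau l i) :=
  norm_mul_eq (c.grading.idem i) (c.norm_P_le i) hi (c.tau_spec hl i)

theorem tau_of_P_eq {i : ι} (hi : c.P i = 0) (T : Op N) : c.tau T i = 0 := if_pos hi

theorem tau_o (hl : l ∈ c.L) : c.tau l c.o = 0 := by
  obtain ⟨τ, hτ, h⟩ := c.conf l hl.1 hl.2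
  by_cases hi : c.P c.o = 0
  · exact c.tau_of_P_eq hi _
  · rw [c.tau_eq_of hi (h c.o), hτ]

theorem norm_o (hl : l ∈ c.L) {v : V N} (hv : c.P c.o v = v) : ‖(l : Op N) v‖ = ‖v‖ := by
  have h := c.tau_spec hl c.o v
  rw [hv, c.tau_o hl, Real.exp_zero, one_mul] at h
  exact h

theorem tau_one : c.tau (1 : Op N) = 0 := by
  funext i
  by_cases hi : c.P i = 0
  · exact c.tau_of_P_eq hi _
  · refine c.tau_eq_of hi fun v => ?_
    rw [Pi.zero_apply, Real.exp_zero, one_mul]; rfl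

theorem tau_mul (hl : l ∈ c.L) (hl' : l' ∈ c.L) :
    c.tau ((l : Op N) * l') = c.tau l + c.tau l' := by
  funext i
  by_cases hi : c.P i = 0
  · rw [Pi.add_apply, c.tau_of_P_eq hi, c.tau_of_P_eq hi, c.tau_of_P_eq hi, add_zero]
  · refine c.tau_eq_of hi fun v => ?_
    have h1 : (l' : Op N) (c.P i v) = c.P i ((l' : Op N) v) := by
      rw [← mul_apply', ← mul_apply', hl'.2 i]
    rw [mul_apply', h1, c.tau_spec hl, ← h1, c.tau_spec hl', Pi.add_apply, Real.exp_add]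
    ring

theorem tau_inv (hl : l ∈ c.L) : c.tau ((l⁻¹ : (Op N)ˣ) : Op N) = -c.tau l := by
  have h := c.tau_mul (c.L.inv_mem hl) hl
  rw [← Units.val_mul, inv_mul_cancel, Units.val_one, c.tau_one] at h
  exact eq_neg_of_add_eq_zero_left h.symm

theorem tau_pow (hl : l ∈ c.L) (n : ℕ) : c.tau ((l : Op N) ^ n) = (n : ℝ) • c.tau l := by
  induction n with
  | zero => rw [pow_zero, c.tau_one, Nat.cast_zero, zero_smul]
  | succ n ih =>
    have h := c.tau_mul (c.L.pow_mem hl n) hl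
    rw [Units.val_pow_eq_pow_val, ← pow_succ] at h
    rw [h, ih, Nat.cast_succ, add_smul, one_smul]

theorem tau_continuousAt (hl : l ∈ c.L) : ContinuousAt c.tau (l : Op N) := by
  rw [continuousAt_pi]
  intro i
  by_cases hi : c.P i = 0
  · have : (fun T : Op N => c.tau T i) = fun _ => 0 := by
      funext T; exact c.tau_of_P_eq hi T
    rw [this]; exact continuousAt_const
  · have : (fun T : Op N => c.tau T i) = fun T => Real.log ‖T * c.P i‖ := by
      funext T; exact if_neg hi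
    rw [this]
    have h1 : ContinuousAt (fun T : Op N => ‖T * c.P i‖) (l : Op N) :=
      (continuous_id.mul continuous_const).norm.continuousAt
    refine h1.log ?_
    rw [c.norm_mul_P hl hi]
    exact (Real.exp_pos _).ne'

theorem kap_nonneg (T : Op N) : 0 ≤ c.kap T := by
  refine Finset.sum_nonneg fun i _ => Finset.sum_nonneg fun j _ => ?_
  split_ifs
  · exact Real.exp_nonneg _
  · exact le_rfl

open Classical in
/-- `kap` as a sum over pairs -/
theorem kap_eq (T : Op N) : c.kap T =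
    ∑ p : ι × ι, if c.r p.1 p.2 then Real.exp (c.tau T p.1 - c.tau T p.2) else 0 := by
  rw [kap, Fintype.sum_prod_type]

theorem le_kap (T : Op N) {i j : ι} (h : c.r i j) :
    Real.exp (c.tau T i - c.tau T j) ≤ c.kap T := by
  classical
  rw [c.kap_eq]
  have h1 := Finset.single_le_sum (s := Finset.univ)
    (f := fun p : ι × ι => if c.r p.1 p.2 then Real.exp (c.tau T p.1 - c.tau T p.2) else 0)
    (fun p _ => by split_ifs <;> [exact Real.exp_nonneg _; exact le_rfl])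
    (Finset.mem_univ (i, j))
  dsimp only at h1
  rw [if_pos h] at h1
  exact h1

theorem kap_mul (hl : l ∈ c.L) (hl' : l' ∈ c.L) :
    c.kap ((l : Op N) * l') ≤ c.kap l * c.kap l' := by
  classical
  rw [c.kap_eq, c.kap_eq, c.kap_eq]
  refine le_trans (le_of_eq ?_) (sum_mul_le Finset.univ
    (fun p : ι × ι => if c.r p.1 p.2 then Real.exp (c.tau (l : Op N) p.1 - c.tau (l : Op N) p.2)
      else 0)
    (fun p : ι × ι => if c.r p.1 p.2 then Real.exp (c.tau (l' : Op N) p.1 -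
      c.tau (l' : Op N) p.2) else 0)
    (fun p _ => by split_ifs <;> [exact Real.exp_nonneg _; exact le_rfl])
    (fun p _ => by split_ifs <;> [exact Real.exp_nonneg _; exact le_rfl]))
  refine Finset.sum_congr rfl fun p _ => ?_
  split_ifs
  · rw [← Real.exp_add, c.tau_mul hl hl', Pi.add_apply, Pi.add_apply]
    congr 1; ring
  · rw [mul_zero]

theorem kap_pow (hl : l ∈ c.L) (hd : c.Dom (l : Op N)) :
    ∃ C > 0, ∃ a > 0, ∀ n : ℕ, c.kap ((l : Op N) ^ n) ≤ C * Real.exp (-a * n) := by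
  classical
  obtain ⟨a, ha, h⟩ := exists_pos_le
    (fun p : ι × ι => if c.r p.1 p.2 then c.tau (l : Op N) p.2 - c.tau (l : Op N) p.1 else 1)
    (fun p => by
      split_ifs with h
      · exact sub_pos.mpr (hd _ _ h)
      · exact one_pos)
  refine ⟨(Finset.univ : Finset (ι × ι)).card + 1, by positivity, a, ha, fun n => ?_⟩
  rw [c.kap_eq]
  calc ∑ p : ι × ι, (if c.r p.1 p.2 then
        Real.exp (c.tau ((l : Op N) ^ n) p.1 - c.tau ((l : Op N) ^ n) p.2) else 0)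
      ≤ ∑ p : ι × ι, Real.exp (-a * n) := by
        refine Finset.sum_le_sum fun p _ => ?_
        split_ifs with hr
        · rw [Real.exp_le_exp, c.tau_pow hl, Pi.smul_apply, Pi.smul_apply, smul_eq_mul,
            smul_eq_mul]
          have h1 := h p
          rw [if_pos hr] at h1
          have h2 : (0 : ℝ) ≤ n := Nat.cast_nonneg n
          nlinarith [mul_le_mul_of_nonneg_left h1 h2]
        · exact Real.exp_nonneg _
    _ = (Finset.univ : Finset (ι × ι)).card * Real.exp (-a * n) := by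
        rw [Finset.sum_const, nsmul_eq_mul]
    _ ≤ _ := by
        refine mul_le_mul_of_nonneg_right ?_ (Real.exp_nonneg _)
        linarith

/-- if `kap l < 1` then `l` is dominant -/
theorem dom_of_kap (T : Op N) (h : c.kap T < 1) : c.Dom T := by
  intro i j hr
  have h1 := (c.le_kap T hr).trans_lt h
  rw [Real.exp_lt_one_iff] at h1
  linarith

theorem norm_inv_mul_P (hl : l ∈ c.L) {i : ι} (hi : c.P i ≠ 0) :
    ‖((l⁻¹ : (Op N)ˣ) : Op N) * c.P i‖ = Real.exp (-c.tau l i) := by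
  rw [c.norm_mul_P (c.L.inv_mem hl) hi, c.tau_inv hl, Pi.neg_apply]

/-- conjugation of a lower block triangular operator -/
theorem norm_conj_le (hl : l ∈ c.L) {Z : Op N} (hZ : Supp c.P c.r Z) :
    ‖(l : Op N) * Z * ((l⁻¹ : (Op N)ˣ) : Op N)‖ ≤ c.kap l * ‖Z‖ := by
  classical
  have hli := (c.L.inv_mem hl).2
  have h1 : (l : Op N) * Z * ((l⁻¹ : (Op N)ˣ) : Op N) =
      ∑ p : ι × ι, (l : Op N) * (c.P p.1 * Z * c.P p.2) * ((l⁻¹ : (Op N)ˣ) : Op N) := by
    rw [Fintype.sum_prod_type]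
    have h2 : Z = ∑ i, ∑ j, c.P i * Z * c.P j := by
      conv_lhs => rw [c.grading.sum_mul Z]
      refine Finset.sum_congr rfl fun i _ => ?_
      exact c.grading.mul_sum _
    conv_lhs => rw [h2]
    simp only [Finset.mul_sum, Finset.sum_mul]
  rw [h1, c.kap_eq, Finset.sum_mul]
  refine (norm_sum_le _ _).trans (Finset.sum_le_sum fun p _ => ?_)
  split_ifs with hr
  · by_cases hi : c.P p.1 = 0
    · rw [hi, zero_mul, zero_mul, mul_zero, zero_mul, norm_zero]; positivity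
    by_cases hj : c.P p.2 = 0
    · rw [hj, mul_zero, mul_zero, zero_mul, norm_zero]; positivity
    have h3 : (l : Op N) * (c.P p.1 * Z * c.P p.2) * ((l⁻¹ : (Op N)ˣ) : Op N) =
        ((l : Op N) * c.P p.1) * Z * (((l⁻¹ : (Op N)ˣ) : Op N) * c.P p.2) := by
      rw [← hli p.2]; noncomm_ring
    rw [h3]
    calc ‖((l : Op N) * c.P p.1) * Z * (((l⁻¹ : (Op N)ˣ) : Op N) * c.P p.2)‖
        ≤ ‖(l : Op N) * c.P p.1‖ * ‖Z‖ * ‖((l⁻¹ : (Op N)ˣ) : Op N) * c.P p.2‖ :=
          (norm_mul_le _ _).trans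
            (mul_le_mul_of_nonneg_right (norm_mul_le _ _) (norm_nonneg _))
      _ = Real.exp (c.tau (l : Op N) p.1 - c.tau (l : Op N) p.2) * ‖Z‖ := by
          rw [c.norm_mul_P hl hi, c.norm_inv_mul_P hl hj, sub_eq_add_neg, Real.exp_add]; ring
  · rw [hZ _ _ hr, mul_zero, zero_mul, norm_zero, zero_mul]

/-- conjugation of an upper block triangular operator -/
theorem norm_conj_le' (hl : l ∈ c.L) {Z : Op N} (hZ : Supp c.P (fun i j => c.r j i) Z) :
    ‖((l⁻¹ : (Op N)ˣ) : Op N) * Z * (l : Op N)‖ ≤ c.kap l * ‖Z‖ := by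
  classical
  have hli := hl.2
  have h1 : ((l⁻¹ : (Op N)ˣ) : Op N) * Z * (l : Op N) =
      ∑ p : ι × ι, ((l⁻¹ : (Op N)ˣ) : Op N) * (c.P p.2 * Z * c.P p.1) * (l : Op N) := by
    rw [Fintype.sum_prod_type_right]
    have h2 : Z = ∑ i, ∑ j, c.P i * Z * c.P j := by
      conv_lhs => rw [c.grading.sum_mul Z]
      refine Finset.sum_congr rfl fun i _ => ?_
      exact c.grading.mul_sum _
    conv_lhs => rw [h2]
    simp only [Finset.mul_sum, Finset.sum_mul]
  rw [h1, c.kap_eq, Finset.sum_mul]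
  refine (norm_sum_le _ _).trans (Finset.sum_le_sum fun p _ => ?_)
  split_ifs with hr
  · by_cases hi : c.P p.1 = 0
    · rw [hi, mul_zero, mul_zero, zero_mul, norm_zero]; positivity
    by_cases hj : c.P p.2 = 0
    · rw [hj, zero_mul, zero_mul, mul_zero, zero_mul, norm_zero]; positivity
    have h3 : ((l⁻¹ : (Op N)ˣ) : Op N) * (c.P p.2 * Z * c.P p.1) * (l : Op N) =
        (((l⁻¹ : (Op N)ˣ) : Op N) * c.P p.2) * Z * ((l : Op N) * c.P p.1) := by
      rw [← hli p.1]; noncomm_ring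
    rw [h3]
    calc ‖(((l⁻¹ : (Op N)ˣ) : Op N) * c.P p.2) * Z * ((l : Op N) * c.P p.1)‖
        ≤ ‖((l⁻¹ : (Op N)ˣ) : Op N) * c.P p.2‖ * ‖Z‖ * ‖(l : Op N) * c.P p.1‖ :=
          (norm_mul_le _ _).trans
            (mul_le_mul_of_nonneg_right (norm_mul_le _ _) (norm_nonneg _))
      _ = Real.exp (c.tau (l : Op N) p.1 - c.tau (l : Op N) p.2) * ‖Z‖ := by
          rw [c.norm_mul_P hl hi, c.norm_inv_mul_P hl hj, sub_eq_add_neg, Real.exp_add]; ring
  · have h4 := hZ p.2 p.1 hr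
    rw [h4, mul_zero, zero_mul, norm_zero, zero_mul]

theorem conj_Nm (hl : l ∈ c.L) {y : Op N} (hy : Unip c.P c.r y) :
    ‖(l : Op N) * y * ((l⁻¹ : (Op N)ˣ) : Op N) - 1‖ ≤ c.kap l * ‖y - 1‖ := by
  have h1 := c.norm_conj_le hl (hy.supp c.grading (fun i h => lt_irrefl _ (c.r_lt i i h)))
  have h2 : (l : Op N) * (1 - y) * ((l⁻¹ : (Op N)ˣ) : Op N) =
      -((l : Op N) * y * ((l⁻¹ : (Op N)ˣ) : Op N) - 1) := by
    rw [mul_sub, sub_mul, mul_one, Units.mul_inv]; abel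
  rw [h2, norm_neg, norm_sub_rev 1 y] at h1
  exact h1

theorem conj_Np (hl : l ∈ c.L) {x : Op N} (hx : Unip c.P (fun i j => c.r j i) x) :
    ‖((l⁻¹ : (Op N)ˣ) : Op N) * x * (l : Op N) - 1‖ ≤ c.kap l * ‖x - 1‖ := by
  have h1 := c.norm_conj_le' hl (Unip.supp (s := fun i j => c.r j i) c.grading
    (fun i h => lt_irrefl _ (c.r_lt i i h)) hx)
  have h2 : ((l⁻¹ : (Op N)ˣ) : Op N) * (1 - x) * (l : Op N) =
      -(((l⁻¹ : (Op N)ˣ) : Op N) * x * (l : Op N) - 1) := by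
    rw [mul_sub, sub_mul, mul_one, Units.inv_mul]; abel
  rw [h2, norm_neg, norm_sub_rev 1 x] at h1
  exact h1

theorem exists_LU (hg : g ∈ G) (hr : Reg c.P (g : Op N)) :
    ∃ y ∈ c.Nm, ∃ d ∈ c.L, ∃ x ∈ c.Np, g = y * d * x ∧ (y : Op N) = yL c.P (g : Op N) ∧
      (d : Op N) = dD c.P (g : Op N) ∧ (x : Op N) = xU c.P (g : Op N) := by
  obtain ⟨y, hy, l, hl, x, hx, hy1, hl1, hx1, he⟩ := c.fac g hg hr
  obtain ⟨-, h2, h3, h4⟩ := LU_unique c.grading c.star_P (hy1.mono c.r_lt) hl1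
    (hx1.mono (fun i j h => c.r_lt j i h))
  rw [← he] at h2 h3 h4
  refine ⟨y, ⟨hy, hy1⟩, l, ⟨hl, hl1⟩, x, ⟨hx, hx1⟩, ?_, h2.symm, h3.symm, h4.symm⟩
  exact Units.ext he

theorem LU_val {y d x : (Op N)ˣ} (hy : y ∈ c.Nm) (hd : d ∈ c.L) (hx : x ∈ c.Np) :
    Reg c.P ((y * d * x : (Op N)ˣ) : Op N) ∧ yL c.P ((y * d * x : (Op N)ˣ) : Op N) = y ∧
      dD c.P ((y * d * x : (Op N)ˣ) : Op N) = d ∧
      xU c.P ((y * d * x : (Op N)ˣ) : Op N) = x :=
  LU_unique c.grading c.star_P (hy.2.mono c.r_lt) hd.2 (hx.2.mono (fun i j h => c.r_lt j i h))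

include c in
theorem mem_of_tendsto {u : ℕ → (Op N)ˣ} (hu : ∀ n, u n ∈ G) {g : (Op N)ˣ}
    (h : Tendsto (fun n => (u n : Op N)) atTop (𝓝 (g : Op N))) : g ∈ G := by
  refine c.closed g fun F hF hG => ?_
  have h1 := ((PolyFun.continuous hF).tendsto (g : Op N)).comp h
  have h2 : (F ∘ fun n => (u n : Op N)) = fun _ => 0 := by
    funext n; exact hG _ (hu n)
  rw [h2] at h1
  exact (tendsto_nhds_unique h1 tendsto_const_nhds)

theorem star_L (hl : l ∈ c.L) : star l ∈ c.L :=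
  ⟨c.star_mem l hl.1, Diag.star c.star_P hl.2⟩

end BASIC

end Cell

end Pool.Agent.Lib.MP_d9b062_al

end

/-! ## from `MP_d9b062_al_h64.Basic` -/

section
/-!
# Basic lemmas on cells, part 2: fixed vectors of `L`, the longest element, normal forms
-/

set_option linter.unusedSectionVars false
set_option linter.unusedVariables false
set_option linter.unusedSimpArgs false

namespace Pool.Agent.Lib.MP_d9b062_al

open Filter
open scoped Topology

namespace H64B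

section Abstract

variable {E : Type*} [NormedAddCommGroup E] [InnerProductSpace ℝ E] [CompleteSpace E]

lemma inner_star_left (T : E →L[ℝ] E) (v w : E) : inner ℝ (star T v) w = inner ℝ v (T w) := by
  rw [ContinuousLinearMap.star_eq_adjoint, ContinuousLinearMap.adjoint_inner_left]

lemma inner_star_right (T : E →L[ℝ] E) (v w : E) : inner ℝ v (star T w) = inner ℝ (T v) w := by
  rw [ContinuousLinearMap.star_eq_adjoint, ContinuousLinearMap.adjoint_inner_right]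

lemma mul_smul_op (S T : E →L[ℝ] E) (a : ℝ) : S * (a • T) = a • (S * T) := mul_smul_comm a S T

lemma norm_star_op (T : E →L[ℝ] E) : ‖star T‖ = ‖T‖ := norm_star T

/-- a vector fixed by the adjoint whose norm is preserved is fixed -/
lemma fixed_of_star {T : E →L[ℝ] E} {e : E} (h : star T e = e) (hn : ‖T e‖ = ‖e‖) : T e = e := by
  have h1 : ‖T e - e‖ ^ 2 = 0 := by
    rw [norm_sub_sq_real, ← inner_star_right T e e, h, real_inner_self_eq_norm_sq, hn]
    ring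
  have h2 : ‖T e - e‖ = 0 := by
    rwa [sq_eq_zero_iff] at h1
  exact sub_eq_zero.mp (norm_eq_zero.mp h2)

end Abstract

section Det

variable {E : Type*} [NormedAddCommGroup E] [NormedSpace ℝ E] [FiniteDimensional ℝ E]

/-- the determinant of a polynomial family of operators -/
theorem exists_det_poly {W : Type*} [AddCommGroup W] [Module ℝ W] {f : W → E →L[ℝ] E}
    (hf : IsPolyMap f) :
    ∃ D ∈ PolyFun W, ∀ x, (IsUnit (f x) ↔ D x ≠ 0) ∧ (f x = 1 → D x = 1) := by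
  classical
  let b := Module.finBasis ℝ E
  let Φ : (E →L[ℝ] E) ≃ₐ[ℝ] Matrix (Fin (Module.finrank ℝ E)) (Fin (Module.finrank ℝ E)) ℝ :=
    (Module.End.toContinuousLinearMap E).symm.trans (LinearMap.toMatrixAlgEquiv b)
  refine ⟨fun x => (Φ (f x)).det, ?_, fun x => ⟨?_, ?_⟩⟩
  · have h1 : (fun x => (Φ (f x)).det) = fun x => ∑ σ : Equiv.Perm (Fin (Module.finrank ℝ E)),
        ((Equiv.Perm.sign σ : ℤ) : ℝ) * ∏ i, Φ (f x) (σ i) i := by
      funext x
      rw [Matrix.det_apply']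
    rw [h1]
    refine PolyFun.sum _ fun σ _ => PolyFun.mul (PolyFun.const _) (PolyFun.prod _ fun i _ => ?_)
    let φ : (E →L[ℝ] E) →ₗ[ℝ] ℝ :=
      { toFun := fun T => Φ T (σ i) i
        map_add' := fun S T => by rw [map_add]; rfl
        map_smul' := fun a T => by rw [map_smul]; rfl }
    exact hf φ
  · rw [← isUnit_iff_ne_zero, ← Matrix.isUnit_iff_isUnit_det]
    constructor
    · intro h; exact h.map Φ
    · intro h
      have := h.map Φ.symm
      rwa [AlgEquiv.symm_apply_apply] at this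
  · intro h
    show (Φ (f x)).det = 1
    rw [h, map_one, Matrix.det_one]

end Det

end H64B

open H64B

namespace Cell

variable {N : ℕ} {G : Subgroup (Op N)ˣ} {ι : Type} [Fintype ι] [LinearOrder ι] (c : Cell G ι)

section BASIC

variable {l l' g : (Op N)ˣ}

theorem sum_P_apply (v : V N) : ∑ i, c.P i v = v := by
  have h := congrArg (fun T : Op N => T v) c.grading.sum_eq
  simp only [sum_apply] at h
  exact h

theorem P_of_mem_EL {v : V N} (hv : v ∈ c.EL) : c.P c.o v = v := by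
  obtain ⟨g, hg, he⟩ := c.C_exp ((1 : ℝ) • c.μ) (c.μ_mem 1 zero_le_one)
  have hd : Diag c.P (g : Op N) := by
    rw [he]
    exact Diag.sum _ fun k _ => Diag.smul _ (c.grading.diag k)
  have h1 : (g : Op N) v = v := hv g ⟨hg, hd⟩
  have h2 : ∀ j, j ≠ c.o → c.P j v = 0 := by
    intro j hj
    have h3 : c.P j * (g : Op N) = Real.exp (((1 : ℝ) • c.μ) j) • c.P j := by
      rw [he, Finset.mul_sum, Finset.sum_eq_single j]
      · rw [mul_smul_op, c.grading.idem]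
      · intro k _ hk
        rw [mul_smul_op, c.grading.orth j k hk.symm, smul_zero]
      · intro h; exact absurd (Finset.mem_univ j) h
    have h4 : c.P j v = Real.exp (((1 : ℝ) • c.μ) j) • c.P j v := by
      have := congrArg (fun T : Op N => T v) h3
      have h5 : (c.P j * (g : Op N)) v = c.P j v := by rw [mul_apply', h1]
      exact h5.symm.trans this
    have h6 : (1 - Real.exp (((1 : ℝ) • c.μ) j)) • c.P j v = 0 := by
      rw [sub_smul, one_smul, ← h4, sub_self]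
    rcases smul_eq_zero.mp h6 with h7 | h7
    · exfalso
      have h8 : Real.exp (((1 : ℝ) • c.μ) j) = 1 := by linarith
      rw [Real.exp_eq_one_iff, one_smul, ← c.μ_o] at h8
      exact hj (c.μ_mono.injective h8)
    · exact h7
  conv_rhs => rw [← c.sum_P_apply v]
  rw [Finset.sum_eq_single c.o]
  · intro j _ hj; exact h2 j hj
  · intro h; exact absurd (Finset.mem_univ _) h

theorem PL_mem (v : V N) : c.PL v ∈ c.EL := Submodule.starProjection_apply_mem _ _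

theorem PL_of_mem {v : V N} (hv : v ∈ c.EL) : c.PL v = v :=
  Submodule.starProjection_eq_self_iff.mpr hv

theorem PL_star : star c.PL = c.PL := isSelfAdjoint_starProjection c.EL

theorem P_mul_PL : c.P c.o * c.PL = c.PL :=
  ContinuousLinearMap.ext fun v => c.P_of_mem_EL (c.PL_mem v)

theorem PL_mul_P : c.PL * c.P c.o = c.PL := by
  have h := congrArg star c.P_mul_PL
  rw [star_mul, c.PL_star, c.star_P] at h
  exact h

theorem PL_mul_P_ne {i : ι} (hi : i ≠ c.o) : c.PL * c.P i = 0 := by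
  rw [← c.PL_mul_P, mul_assoc, c.grading.orth c.o i hi.symm, mul_zero]

theorem l_mul_PL (hl : l ∈ c.L) : (l : Op N) * c.PL = c.PL :=
  ContinuousLinearMap.ext fun v => c.PL_mem v l hl

theorem PL_mul_l (hl : l ∈ c.L) : c.PL * l = c.PL := by
  have h := congrArg star (c.l_mul_PL (c.star_L hl))
  have e : star ((star l : (Op N)ˣ) : Op N) = (l : Op N) := by
    rw [Units.coe_star, star_star]
  rw [star_mul, c.PL_star, e] at h
  exact h

theorem w_mul_PL : (c.w : Op N) * c.PL = c.PL :=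
  ContinuousLinearMap.ext fun v =>
    c.w_fix (c.PL v) fun l hl hd => c.PL_mem v l ⟨hl, hd⟩

theorem star_w_mul_w_mem : star c.w * c.w ∈ c.L := by
  refine ⟨G.mul_mem (c.star_mem _ c.w_mem) c.w_mem, fun i => ?_⟩
  have h1 := c.w_P i
  have h2 : c.P i * star (c.w : Op N) = star (c.w : Op N) * c.P (c.π i) := by
    have := congrArg star h1
    rw [star_mul, star_mul, c.star_P, c.star_P] at this
    exact this
  rw [Units.val_mul, Units.coe_star, ← mul_assoc, h2, mul_assoc, ← h1, ← mul_assoc]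

theorem PL_mul_w : c.PL * c.w = c.PL := by
  have h1 := c.l_mul_PL c.star_w_mul_w_mem
  rw [Units.val_mul, Units.coe_star, mul_assoc, c.w_mul_PL] at h1
  have h := congrArg star h1
  rw [star_mul, star_star, c.PL_star] at h
  exact h

theorem PL_unip {s : ι → ι → Prop} {y : Op N} (hy : Unip c.P s y) :
    c.PL * y * c.P c.o = c.PL := by
  calc c.PL * y * c.P c.o = c.PL * (c.P c.o * y * c.P c.o) := by
        conv_lhs => rw [← c.PL_mul_P]
        noncomm_ring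
    _ = c.PL := by rw [hy.1, c.PL_mul_P]

/-- `PL` is at most `1` in norm -/
theorem norm_PL_le : ‖c.PL‖ ≤ 1 := Submodule.starProjection_norm_le _

theorem P_π_ne {i : ι} : c.P i ≠ 0 ↔ c.P (c.π i) ≠ 0 := by
  have h := c.w_P i
  rw [not_iff_not]
  constructor
  · intro h0
    rw [h0, mul_zero] at h
    have := congrArg (fun T : Op N => T * ((c.w⁻¹ : (Op N)ˣ) : Op N)) h
    simp only [zero_mul, mul_assoc, Units.mul_inv, mul_one] at this
    exact this.symm
  · intro h0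
    rw [h0, zero_mul] at h
    have := congrArg (fun T : Op N => ((c.w⁻¹ : (Op N)ˣ) : Op N) * T) h
    simp only [mul_zero, ← mul_assoc, Units.inv_mul, one_mul] at this
    exact this

/-- conjugation by `w` -/
theorem w_conj_mem (hl : l ∈ c.L) : c.w⁻¹ * l⁻¹ * c.w ∈ c.L ∧
    ∀ i, c.P i ≠ 0 → c.tau ((c.w⁻¹ * l⁻¹ * c.w : (Op N)ˣ) : Op N) i = -c.tau l (c.π i) := by
  have hli := c.L.inv_mem hl
  have hwi : ∀ i, c.P i * ((c.w⁻¹ : (Op N)ˣ) : Op N) = ((c.w⁻¹ : (Op N)ˣ) : Op N) * c.P (c.π i) := by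
    intro i
    have h := c.w_P i
    calc c.P i * ((c.w⁻¹ : (Op N)ˣ) : Op N)
        = ((c.w⁻¹ : (Op N)ˣ) : Op N) * ((c.w : Op N) * c.P i) * ((c.w⁻¹ : (Op N)ˣ) : Op N) := by
          rw [← mul_assoc, Units.inv_mul, one_mul]
      _ = ((c.w⁻¹ : (Op N)ˣ) : Op N) * c.P (c.π i) := by
          rw [h, mul_assoc, mul_assoc, Units.mul_inv, mul_one]
  have hk : c.w⁻¹ * l⁻¹ * c.w ∈ c.L := by
    refine ⟨G.mul_mem (G.mul_mem (G.inv_mem c.w_mem) (G.inv_mem hl.1)) c.w_mem, fun i => ?_⟩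
    rw [Units.val_mul, Units.val_mul]
    calc c.P i * (((c.w⁻¹ : (Op N)ˣ) : Op N) * ((l⁻¹ : (Op N)ˣ) : Op N) * (c.w : Op N))
        = (c.P i * ((c.w⁻¹ : (Op N)ˣ) : Op N)) * ((l⁻¹ : (Op N)ˣ) : Op N) * (c.w : Op N) := by
          noncomm_ring
      _ = ((c.w⁻¹ : (Op N)ˣ) : Op N) * (c.P (c.π i) * ((l⁻¹ : (Op N)ˣ) : Op N)) * (c.w : Op N) := by
          rw [hwi]; noncomm_ring
      _ = ((c.w⁻¹ : (Op N)ˣ) : Op N) * ((l⁻¹ : (Op N)ˣ) : Op N) * (c.P (c.π i) * (c.w : Op N)) := by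
          rw [hli.2]; noncomm_ring
      _ = _ := by rw [← c.w_P i]; noncomm_ring
  refine ⟨hk, fun i hi => ?_⟩
  set k := c.w⁻¹ * l⁻¹ * c.w with hkdef
  have hpow : ∀ n : ℕ, c.w * k ^ n = (l⁻¹) ^ n * c.w := by
    intro n
    induction n with
    | zero => rw [pow_zero, pow_zero, mul_one, one_mul]
    | succ n ih =>
      rw [pow_succ, ← mul_assoc, ih, pow_succ, hkdef]
      group
  have hpow' : ∀ n : ℕ, (c.w : Op N) * (k : Op N) ^ n =
      ((l⁻¹ : (Op N)ˣ) : Op N) ^ n * (c.w : Op N) := by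
    intro n
    have := congrArg Units.val (hpow n)
    rw [Units.val_mul, Units.val_mul, Units.val_pow_eq_pow_val, Units.val_pow_eq_pow_val] at this
    exact this
  have hπ : c.P (c.π i) ≠ 0 := (c.P_π_ne).mp hi
  have hn1 : ∀ n : ℕ, ‖(k : Op N) ^ n * c.P i‖ = Real.exp (n * c.tau (k : Op N) i) := by
    intro n
    have := c.norm_mul_P (c.L.pow_mem hk n) hi
    rw [Units.val_pow_eq_pow_val, c.tau_pow hk] at this
    exact this
  have hn2 : ∀ n : ℕ, ‖((l⁻¹ : (Op N)ˣ) : Op N) ^ n * c.P (c.π i)‖ =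
      Real.exp (n * -c.tau (l : Op N) (c.π i)) := by
    intro n
    have := c.norm_mul_P (c.L.pow_mem hli n) hπ
    rw [Units.val_pow_eq_pow_val, c.tau_pow hli, c.tau_inv hl] at this
    exact this
  have hw0 : ‖(c.w : Op N)‖ * ‖((c.w⁻¹ : (Op N)ˣ) : Op N)‖ + 1 > 0 := by positivity
  have key : ∀ n : ℕ, (c.w : Op N) * ((k : Op N) ^ n * c.P i) =
      (((l⁻¹ : (Op N)ˣ) : Op N) ^ n * c.P (c.π i)) * (c.w : Op N) := by
    intro n
    rw [← mul_assoc, hpow', mul_assoc, c.w_P, ← mul_assoc]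
  have key1 : ∀ n : ℕ, (k : Op N) ^ n * c.P i = ((c.w⁻¹ : (Op N)ˣ) : Op N) *
      ((((l⁻¹ : (Op N)ˣ) : Op N) ^ n * c.P (c.π i)) * (c.w : Op N)) := by
    intro n
    rw [← key, ← mul_assoc ((c.w⁻¹ : (Op N)ˣ) : Op N), Units.inv_mul, one_mul]
  have key2 : ∀ n : ℕ, ((l⁻¹ : (Op N)ˣ) : Op N) ^ n * c.P (c.π i) =
      ((c.w : Op N) * ((k : Op N) ^ n * c.P i)) * ((c.w⁻¹ : (Op N)ˣ) : Op N) := by
    intro n
    rw [key, mul_assoc _ (c.w : Op N), Units.mul_inv, mul_one]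
  apply le_antisymm
  · refine mul_le_of_exp hw0 fun n => ?_
    rw [← hn1, ← hn2]
    conv_lhs => rw [key1]
    calc ‖((c.w⁻¹ : (Op N)ˣ) : Op N) *
          ((((l⁻¹ : (Op N)ˣ) : Op N) ^ n * c.P (c.π i)) * (c.w : Op N))‖
        ≤ ‖((c.w⁻¹ : (Op N)ˣ) : Op N)‖ *
          (‖((l⁻¹ : (Op N)ˣ) : Op N) ^ n * c.P (c.π i)‖ * ‖(c.w : Op N)‖) :=
          (norm_mul_le _ _).trans (mul_le_mul_of_nonneg_left (norm_mul_le _ _) (norm_nonneg _))
      _ = (‖(c.w : Op N)‖ * ‖((c.w⁻¹ : (Op N)ˣ) : Op N)‖) *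
          ‖((l⁻¹ : (Op N)ˣ) : Op N) ^ n * c.P (c.π i)‖ := by ring
      _ ≤ _ := mul_le_mul_of_nonneg_right (by linarith) (norm_nonneg _)
  · refine mul_le_of_exp hw0 fun n => ?_
    rw [← hn1, ← hn2]
    conv_lhs => rw [key2]
    calc ‖((c.w : Op N) * ((k : Op N) ^ n * c.P i)) * ((c.w⁻¹ : (Op N)ˣ) : Op N)‖
        ≤ ‖(c.w : Op N)‖ * ‖(k : Op N) ^ n * c.P i‖ * ‖((c.w⁻¹ : (Op N)ˣ) : Op N)‖ :=
          (norm_mul_le _ _).trans (mul_le_mul_of_nonneg_right (norm_mul_le _ _) (norm_nonneg _))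
      _ = (‖(c.w : Op N)‖ * ‖((c.w⁻¹ : (Op N)ˣ) : Op N)‖) * ‖(k : Op N) ^ n * c.P i‖ := by ring
      _ ≤ _ := mul_le_mul_of_nonneg_right (by linarith) (norm_nonneg _)

/-- the polynomial `D` whose nonvanishing is regularity -/
theorem exists_reg_poly : ∃ D ∈ PolyFun (Op N), D 1 ≠ 0 ∧ ∀ T : Op N, Reg c.P T ↔ D T ≠ 0 := by
  classical
  have h : ∀ i, ∃ D ∈ PolyFun (Op N), ∀ T : Op N,
      (IsUnit (Mi c.P i T) ↔ D T ≠ 0) ∧ (Mi c.P i T = 1 → D T = 1) := by
    intro i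
    refine exists_det_poly (E := V N) (f := fun T : Op N => Mi c.P i T) ?_
    exact (((IsPolyMap.const (Qge c.P i)).mul IsPolyMap.id).mul
      (IsPolyMap.const (Qge c.P i))).add (IsPolyMap.const (Qlt c.P i))
  choose D hD h1 using h
  refine ⟨fun T => ∏ i, D i T, PolyFun.prod _ fun i _ => hD i, ?_, fun T => ?_⟩
  · have : ∀ i, D i 1 = 1 := by
      intro i
      apply (h1 i 1).2
      rw [Mi, mul_one, c.grading.Qge_idem, c.grading.Q_add]
    simp only [this, Finset.prod_const_one]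
    exact one_ne_zero
  · rw [Finset.prod_ne_zero_iff]
    exact ⟨fun h i _ => (h1 i T).1.mp (h i), fun h i => (h1 i T).1.mpr (h i (Finset.mem_univ i))⟩

theorem T_eq {γ F : Aff (V N)} {l : (Op N)ˣ} {t : V N} (h : c.ALox γ F l t) :
    c.T F.lin γ = c.PL t := by
  have h1 : ((F.lin⁻¹ : (Op N)ˣ) : Op N) γ.tr =
      ((F.lin⁻¹ : (Op N)ˣ) : Op N) F.tr + t -
        (l : Op N) (((F.lin⁻¹ : (Op N)ˣ) : Op N) F.tr) := by
    have hf : ∀ v, ((F.lin⁻¹ : (Op N)ˣ) : Op N) ((F.lin : Op N) v) = v := by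
      intro v; rw [← mul_apply', Units.inv_mul]; rfl
    rw [h.eq, Aff.mul_tr, Aff.mul_tr, Aff.mul_lin, Aff.inv_tr, map_add, map_add, hf, map_neg,
      map_neg, Units.val_mul, mul_apply', hf, sub_eq_add_neg]
  rw [T, h1, map_sub, map_add, ← mul_apply' c.PL (l : Op N), c.PL_mul_l h.l_mem]
  abel

/-- the conformal factors of the transpose -/
theorem tau_star (hl : l ∈ c.L) : c.tau ((star l : (Op N)ˣ) : Op N) = c.tau l := by
  funext i
  by_cases hi : c.P i = 0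
  · rw [c.tau_of_P_eq hi, c.tau_of_P_eq hi]
  · have h1 := c.norm_mul_P (c.star_L hl) hi
    have h2 := c.norm_mul_P hl hi
    have h3 : ((star l : (Op N)ˣ) : Op N) * c.P i = star ((l : Op N) * c.P i) := by
      rw [star_mul, c.star_P, ← (c.star_L hl).2 i]; rfl
    rw [h3, norm_star_op, h2, Real.exp_eq_exp] at h1
    exact h1.symm

/-- decomposition used in the normal form -/
theorem exists_decomp (hl : l ∈ c.L) (hv : c.VReg (l : Op N)) (v : V N) :
    ∃ u t : V N, c.P c.o t = t ∧ (l : Op N) t = t ∧ v = u - (l : Op N) u + t := by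
  let W₁ : Submodule ℝ (V N) := LinearMap.range ((1 - (l : Op N) : Op N) : V N →ₗ[ℝ] V N)
  let W₂ : Submodule ℝ (V N) :=
    { carrier := {t | c.P c.o t = t ∧ (l : Op N) t = t}
      add_mem' := fun {a b} ha hb => ⟨by rw [map_add, ha.1, hb.1], by rw [map_add, ha.2, hb.2]⟩
      zero_mem' := ⟨map_zero _, map_zero _⟩
      smul_mem' := fun a b hb => ⟨by rw [map_smul, hb.1], by rw [map_smul, hb.2]⟩ }
  have key : W₁ ⊔ W₂ = ⊤ := by
    rw [← Submodule.orthogonal_eq_bot_iff, eq_bot_iff]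
    intro e he
    rw [Submodule.mem_bot]
    have h1 : star (l : Op N) e = e := by
      have : ∀ u, inner ℝ (star (l : Op N) e - e) u = 0 := by
        intro u
        have h2 : u - (l : Op N) u ∈ W₁ ⊔ W₂ :=
          Submodule.mem_sup_left ⟨u, rfl⟩
        have h3 := Submodule.inner_left_of_mem_orthogonal h2 he
        rw [inner_sub_left, inner_star_left]
        rw [inner_sub_right] at h3
        linarith
      exact sub_eq_zero.mp (inner_self_eq_zero.mp (this _))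
    have hst := c.star_L hl
    have h4 : ∀ i, i ≠ c.o → c.P i e = 0 := by
      intro i hi
      have h5 : star (l : Op N) (c.P i e) = c.P i e := by
        have h6 := hst.2 i
        rw [Units.coe_star] at h6
        rw [← mul_apply', ← h6, mul_apply', h1]
      have h7 := c.tau_spec hst i e
      rw [Units.coe_star, h5, ← Units.coe_star, c.tau_star hl] at h7
      by_contra hne
      have h8 : Real.exp (c.tau (l : Op N) i) = 1 := by
        have h9 := norm_pos_iff.mpr hne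
        have : (Real.exp (c.tau (l : Op N) i) - 1) * ‖c.P i e‖ = 0 := by linarith
        rcases mul_eq_zero.mp this with h | h
        · linarith
        · exact absurd h h9.ne'
      rw [Real.exp_eq_one_iff] at h8
      exact hv i hi h8
    have h10 : c.P c.o e = e := by
      conv_rhs => rw [← c.sum_P_apply e]
      rw [Finset.sum_eq_single c.o]
      · intro j _ hj; exact h4 j hj
      · intro h; exact absurd (Finset.mem_univ _) h
    have h11 : (l : Op N) e = e := fixed_of_star h1 (c.norm_o hl h10)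
    have h12 : e ∈ W₁ ⊔ W₂ := Submodule.mem_sup_right ⟨h10, h11⟩
    exact inner_self_eq_zero.mp (Submodule.inner_left_of_mem_orthogonal h12 he)
  have h1 : v ∈ W₁ ⊔ W₂ := by rw [key]; exact Submodule.mem_top
  obtain ⟨a, ⟨u, hu⟩, t, ht, hat⟩ := Submodule.mem_sup.mp h1
  refine ⟨u, t, ht.1, ht.2, ?_⟩
  rw [← hat, ← hu]
  rfl

/-- normal form of a `V`-regular loxodromic affine map -/
theorem exists_alox {γ : Aff (V N)} {f l : (Op N)ˣ} (h : c.LinLox γ.lin f l)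
    (hv : c.VReg (l : Op N)) : ∃ (F : Aff (V N)) (t : V N), F.lin = f ∧ c.ALox γ F l t := by
  obtain ⟨u, t, h1, h2, h3⟩ := c.exists_decomp h.l_mem hv (((f⁻¹ : (Op N)ˣ) : Op N) γ.tr)
  refine ⟨⟨f, (f : Op N) u⟩, t, rfl, ⟨h.f_mem, h.l_mem, h.dom, hv, h1, h2, ?_⟩⟩
  have hf : ∀ v, ((f⁻¹ : (Op N)ˣ) : Op N) ((f : Op N) v) = v := by
    intro v; rw [← mul_apply', Units.inv_mul]; rfl
  have hf' : ∀ v, (f : Op N) (((f⁻¹ : (Op N)ˣ) : Op N) v) = v := by
    intro v; rw [← mul_apply', Units.mul_inv]; rfl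
  refine Aff.ext h.eq ?_
  rw [Aff.mul_tr, Aff.mul_tr, Aff.mul_lin, Aff.inv_tr]
  show γ.tr = (f : Op N) u + (f : Op N) t +
    ((f * l : (Op N)ˣ) : Op N) (-(((f⁻¹ : (Op N)ˣ) : Op N) ((f : Op N) u)))
  rw [hf, map_neg, Units.val_mul, mul_apply', ← map_add, ← sub_eq_add_neg, ← map_sub]
  rw [← hf' γ.tr, h3]
  congr 1
  abel

end BASIC

end Cell

end Pool.Agent.Lib.MP_d9b062_al

end

/-! ## from `MP_d9b062_al_h11.Lip` -/

section
/-!
# Local Lipschitz bounds for the block LU decomposition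
-/

set_option linter.unusedSectionVars false

namespace Pool.Agent.Lib.MP_d9b062_al

open Filter
open scoped Topology

namespace H11

section Abstract

variable {R : Type*} [NormedRing R] [NormedAlgebra ℝ R] [CompleteSpace R] [StarRing R]
  [ContinuousStar R] [StarModule ℝ R]
variable {ι : Type} [Fintype ι] [LinearOrder ι] {P : ι → R}

lemma contDiffAt_inv {f : R → R} {T₀ : R} (hf : ContDiffAt ℝ 1 f T₀) (hu : IsUnit (f T₀)) :
    ContDiffAt ℝ 1 (fun T => Ring.inverse (f T)) T₀ := by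
  obtain ⟨u, hu⟩ := hu
  have h1 : ContDiffAt ℝ 1 (Ring.inverse : R → R) (f T₀) := by
    rw [← hu]; exact contDiffAt_ringInverse ℝ u
  exact h1.comp T₀ hf

lemma contDiff_Mi (i : ι) : ContDiff ℝ 1 (fun T : R => Mi P i T) := by
  unfold Mi
  exact ((contDiff_const.mul contDiff_id).mul contDiff_const).add contDiff_const

lemma contDiffAt_yL {T₀ : R} (h : Reg P T₀) : ContDiffAt ℝ 1 (fun T : R => yL P T) T₀ := by
  unfold yL
  apply ContDiffAt.sum
  intro i _
  exact ((contDiffAt_id.mul contDiffAt_const).mul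
    (contDiffAt_inv (contDiff_Mi i).contDiffAt (h i))).mul contDiffAt_const

lemma contDiff_star : ContDiff ℝ 1 (fun T : R => star T) :=
  (starL' ℝ : R ≃L[ℝ] R).contDiff

lemma contDiffAt_xU (hs : ∀ i, star (P i) = P i) {T₀ : R} (h : Reg P T₀) :
    ContDiffAt ℝ 1 (fun T : R => xU P T) T₀ := by
  unfold xU
  have h1 : ContDiffAt ℝ 1 (fun T : R => yL P T) (star T₀) := contDiffAt_yL (h.star hs)
  exact contDiff_star.contDiffAt.comp T₀ (h1.comp T₀ contDiff_star.contDiffAt)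

lemma contDiffAt_dD (hP : IsGrading P) (hs : ∀ i, star (P i) = P i) {T₀ : R} (h : Reg P T₀) :
    ContDiffAt ℝ 1 (fun T : R => dD P T) T₀ := by
  unfold dD
  exact ((contDiffAt_inv (contDiffAt_yL h) (yL_isUnit hP h)).mul contDiffAt_id).mul
    (contDiffAt_inv (contDiffAt_xU hs h) (xU_isUnit hP hs h))

lemma dD_isUnit (hP : IsGrading P) (hs : ∀ i, star (P i) = P i) {T₀ : R} (h : Reg P T₀)
    (hu : IsUnit T₀) : IsUnit (dD P T₀) := by
  unfold dD
  exact ((yL_isUnit hP h).ringInverse.mul hu).mul (xU_isUnit hP hs h).ringInverse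

lemma reg_eventually {T₀ : R} (h : Reg P T₀) : ∀ᶠ T in 𝓝 T₀, Reg P T := by
  unfold Reg
  rw [Filter.eventually_all]
  intro i
  have h1 : ContinuousAt (fun T : R => Mi P i T) T₀ := (contDiff_Mi i).continuous.continuousAt
  exact h1.eventually (Units.isOpen.mem_nhds (h i))

/-- the six functions -/
noncomputable def F6 (P : ι → R) (T : R) : Fin 6 → R :=
  ![yL P T, Ring.inverse (yL P T), xU P T, Ring.inverse (xU P T), dD P T,
    Ring.inverse (dD P T)]

lemma contDiffAt_F6 (hP : IsGrading P) (hs : ∀ i, star (P i) = P i) {T₀ : R} (h : Reg P T₀)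
    (hu : IsUnit T₀) : ContDiffAt ℝ 1 (F6 P) T₀ := by
  rw [contDiffAt_pi]
  intro k
  fin_cases k
  · exact contDiffAt_yL h
  · exact contDiffAt_inv (contDiffAt_yL h) (yL_isUnit hP h)
  · exact contDiffAt_xU hs h
  · exact contDiffAt_inv (contDiffAt_xU hs h) (xU_isUnit hP hs h)
  · exact contDiffAt_dD hP hs h
  · exact contDiffAt_inv (contDiffAt_dD hP hs h) (dD_isUnit hP hs h hu)

/-- locally Lipschitz and bounded -/
lemma exists_lip_of_contDiffAt {E F : Type*} [NormedAddCommGroup E] [NormedSpace ℝ E]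
    [NormedAddCommGroup F] [NormedSpace ℝ F] {f : E → F} {T₀ : E} (hf : ContDiffAt ℝ 1 f T₀) :
    ∃ K > 0, ∃ δ > 0, ∀ T T' : E, ‖T - T₀‖ < δ → ‖T' - T₀‖ < δ →
      ‖f T - f T'‖ ≤ K * ‖T - T'‖ ∧ ‖f T‖ ≤ K := by
  obtain ⟨K, t, ht, hK⟩ := hf.exists_lipschitzOnWith
  obtain ⟨δ, hδ, hb⟩ := Metric.mem_nhds_iff.mp ht
  refine ⟨K + ‖f T₀‖ + 1, by positivity, min δ 1, lt_min hδ one_pos, fun T T' hT hT' => ?_⟩
  have h1 : T ∈ t := hb (by rw [Metric.mem_ball, dist_eq_norm]; exact hT.trans_le (min_le_left _ _))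
  have h2 : T' ∈ t :=
    hb (by rw [Metric.mem_ball, dist_eq_norm]; exact hT'.trans_le (min_le_left _ _))
  have h3 : T₀ ∈ t := mem_of_mem_nhds ht
  have h4 := hK.dist_le_mul T h1 T' h2
  have h5 := hK.dist_le_mul T h1 T₀ h3
  rw [dist_eq_norm, dist_eq_norm] at h4 h5
  have hK0 : (0 : ℝ) ≤ K := K.2
  constructor
  · refine h4.trans ?_
    apply mul_le_mul_of_nonneg_right _ (norm_nonneg _)
    have := norm_nonneg (f T₀)
    linarith
  · have h6 : ‖f T‖ ≤ ‖f T - f T₀‖ + ‖f T₀‖ := by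
      have := norm_add_le (f T - f T₀) (f T₀)
      rwa [sub_add_cancel] at this
    have h7 : ‖T - T₀‖ ≤ 1 := (hT.trans_le (min_le_right _ _)).le
    have h8 : (K : ℝ) * ‖T - T₀‖ ≤ K * 1 := mul_le_mul_of_nonneg_left h7 hK0
    linarith

lemma exists_lip6 (hP : IsGrading P) (hs : ∀ i, star (P i) = P i) {T₀ : R} (h : Reg P T₀)
    (hu : IsUnit T₀) :
    ∃ K > 0, ∃ δ > 0, ∀ T T' : R, ‖T - T₀‖ < δ → ‖T' - T₀‖ < δ →
      Reg P T ∧ ∀ k, ‖F6 P T k - F6 P T' k‖ ≤ K * ‖T - T'‖ ∧ ‖F6 P T k‖ ≤ K := by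
  obtain ⟨K, hK, δ, hδ, hl⟩ := exists_lip_of_contDiffAt (contDiffAt_F6 hP hs h hu)
  obtain ⟨δ', hδ', hb⟩ := Metric.mem_nhds_iff.mp (reg_eventually h)
  refine ⟨K, hK, min δ δ', lt_min hδ hδ', fun T T' hT hT' => ⟨?_, fun k => ?_⟩⟩
  · exact hb (by rw [Metric.mem_ball, dist_eq_norm]; exact hT.trans_le (min_le_right _ _))
  · obtain ⟨h1, h2⟩ := hl T T' (hT.trans_le (min_le_left _ _)) (hT'.trans_le (min_le_left _ _))
    exact ⟨(norm_le_pi_norm (F6 P T - F6 P T') k).trans h1, (norm_le_pi_norm (F6 P T) k).trans h2⟩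

lemma exists_lip3 (hP : IsGrading P) (hs : ∀ i, star (P i) = P i) {T₀ : R} (h : Reg P T₀) :
    ∃ K > 0, ∃ δ > 0, ∀ T T' : R, ‖T - T₀‖ < δ → ‖T' - T₀‖ < δ →
      Reg P T ∧ ‖yL P T - yL P T'‖ ≤ K * ‖T - T'‖ ∧ ‖xU P T - xU P T'‖ ≤ K * ‖T - T'‖ ∧
      ‖dD P T - dD P T'‖ ≤ K * ‖T - T'‖ := by
  have hc : ContDiffAt ℝ 1 (fun T : R => (yL P T, xU P T, dD P T)) T₀ :=
    (contDiffAt_yL h).prodMk ((contDiffAt_xU hs h).prodMk (contDiffAt_dD hP hs h))
  obtain ⟨K, hK, δ, hδ, hl⟩ := exists_lip_of_contDiffAt hc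
  obtain ⟨δ', hδ', hb⟩ := Metric.mem_nhds_iff.mp (reg_eventually h)
  refine ⟨K, hK, min δ δ', lt_min hδ hδ', fun T T' hT hT' => ⟨?_, ?_⟩⟩
  · exact hb (by rw [Metric.mem_ball, dist_eq_norm]; exact hT.trans_le (min_le_right _ _))
  · obtain ⟨h1, h2⟩ := hl T T' (hT.trans_le (min_le_left _ _)) (hT'.trans_le (min_le_left _ _))
    have h3 := norm_fst_le ((yL P T, xU P T, dD P T) - (yL P T', xU P T', dD P T'))
    have h4 := norm_snd_le ((yL P T, xU P T, dD P T) - (yL P T', xU P T', dD P T'))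
    have h5 := norm_fst_le ((yL P T, xU P T, dD P T) - (yL P T', xU P T', dD P T')).2
    have h6 := norm_snd_le ((yL P T, xU P T, dD P T) - (yL P T', xU P T', dD P T')).2
    exact ⟨h3.trans h1, (h5.trans h4).trans h1, (h6.trans h4).trans h1⟩

end Abstract

end H11

theorem exists_lipschitz {N : ℕ} {ι : Type} [Fintype ι] [LinearOrder ι] {P : ι → Op N}
    (hP : IsGrading P) (hs : ∀ i, star (P i) = P i) {T₀ : Op N} (h : Reg P T₀) :
    ∃ K > 0, ∃ δ > 0, ∀ T T' : Op N, ‖T - T₀‖ < δ → ‖T' - T₀‖ < δ →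
      Reg P T ∧ ‖yL P T - yL P T'‖ ≤ K * ‖T - T'‖ ∧ ‖xU P T - xU P T'‖ ≤ K * ‖T - T'‖ ∧
      ‖dD P T - dD P T'‖ ≤ K * ‖T - T'‖ :=
  H11.exists_lip3 hP hs h

end Pool.Agent.Lib.MP_d9b062_al

end

/-! ## from `MP_d9b062_al_h46.Affine` -/

section
/-!
# Affine unipotent groups attached to a sign pattern
-/

namespace Pool.Agent.Lib.MP_d9b062_al

open Filter
open scoped Topology

namespace Aff

variable {E : Type*} [NormedAddCommGroup E] [NormedSpace ℝ E]

/-- distance of an affine map to the identity -/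
noncomputable def nrm46 (x : Aff E) : ℝ := ‖(x.lin : E →L[ℝ] E) - 1‖ + ‖x.tr‖

lemma nrm_nonneg46 (x : Aff E) : 0 ≤ nrm46 x := add_nonneg (norm_nonneg _) (norm_nonneg _)

lemma norm_lin_sub_le46 (x : Aff E) : ‖(x.lin : E →L[ℝ] E) - 1‖ ≤ nrm46 x :=
  le_add_of_nonneg_right (norm_nonneg _)

lemma norm_tr_le46 (x : Aff E) : ‖x.tr‖ ≤ nrm46 x := le_add_of_nonneg_left (norm_nonneg _)

lemma norm_one_le46 : ‖(1 : E →L[ℝ] E)‖ ≤ 1 := ContinuousLinearMap.norm_id_le

lemma norm_lin_le46 (x : Aff E) : ‖(x.lin : E →L[ℝ] E)‖ ≤ 1 + nrm46 x := by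
  calc ‖(x.lin : E →L[ℝ] E)‖ = ‖((x.lin : E →L[ℝ] E) - 1) + 1‖ := by rw [sub_add_cancel]
    _ ≤ ‖(x.lin : E →L[ℝ] E) - 1‖ + ‖(1 : E →L[ℝ] E)‖ := norm_add_le _ _
    _ ≤ nrm46 x + 1 := add_le_add (norm_lin_sub_le46 x) norm_one_le46
    _ = 1 + nrm46 x := add_comm _ _

lemma nrm_one46 : nrm46 (1 : Aff E) = 0 := by simp [nrm46]

lemma nrm_mul_le46 (x y : Aff E) : nrm46 (x * y) ≤ nrm46 x + (1 + nrm46 x) * nrm46 y := by
  have h1 : ((x * y).lin : E →L[ℝ] E) - 1
      = ((x.lin : E →L[ℝ] E) - 1) + (x.lin : E →L[ℝ] E) * ((y.lin : E →L[ℝ] E) - 1) := by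
    rw [mul_lin, Units.val_mul, mul_sub, mul_one]; abel
  have h2 : ‖((x * y).lin : E →L[ℝ] E) - 1‖ ≤ ‖(x.lin : E →L[ℝ] E) - 1‖ +
      ‖(x.lin : E →L[ℝ] E)‖ * ‖(y.lin : E →L[ℝ] E) - 1‖ := by
    rw [h1]
    exact (norm_add_le _ _).trans (add_le_add le_rfl (norm_mul_le _ _))
  have h3 : ‖(x * y).tr‖ ≤ ‖x.tr‖ + ‖(x.lin : E →L[ℝ] E)‖ * ‖y.tr‖ := by
    rw [mul_tr]
    exact (norm_add_le _ _).trans (add_le_add le_rfl (ContinuousLinearMap.le_opNorm _ _))
  have h4 := norm_lin_le46 x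
  calc nrm46 (x * y) ≤ (‖(x.lin : E →L[ℝ] E) - 1‖ +
      ‖(x.lin : E →L[ℝ] E)‖ * ‖(y.lin : E →L[ℝ] E) - 1‖) +
      (‖x.tr‖ + ‖(x.lin : E →L[ℝ] E)‖ * ‖y.tr‖) := add_le_add h2 h3
    _ = nrm46 x + ‖(x.lin : E →L[ℝ] E)‖ * nrm46 y := by rw [nrm46, nrm46]; ring
    _ ≤ nrm46 x + (1 + nrm46 x) * nrm46 y :=
        add_le_add le_rfl (mul_le_mul_of_nonneg_right h4 (nrm_nonneg46 y))

/-- conjugation by a bounded affine map -/
lemma nrm_conj_le46 (x y : Aff E) {R : ℝ} (hx : nrm46 x ≤ R)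
    (hx' : ‖((x.lin⁻¹ : (E →L[ℝ] E)ˣ) : E →L[ℝ] E)‖ ≤ R) :
    nrm46 (x⁻¹ * y * x) ≤ R * (1 + 2 * R) * nrm46 y := by
  have hR : 0 ≤ R := (nrm_nonneg46 x).trans hx
  set a : E →L[ℝ] E := (x.lin : E →L[ℝ] E) with ha
  set a' : E →L[ℝ] E := ((x.lin⁻¹ : (E →L[ℝ] E)ˣ) : E →L[ℝ] E) with ha'
  set b : E →L[ℝ] E := (y.lin : E →L[ℝ] E) with hb
  have haa : a' * a = 1 := by rw [ha, ha']; exact Units.inv_mul _
  have h1 : ((x⁻¹ * y * x).lin : E →L[ℝ] E) - 1 = a' * (b - 1) * a := by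
    rw [mul_lin, mul_lin, inv_lin, Units.val_mul, Units.val_mul, mul_sub, sub_mul, mul_one, haa]
  have h2 : (x⁻¹ * y * x).tr = a' (y.tr + (b - 1) x.tr) := by
    rw [mul_tr, mul_tr, mul_lin, inv_lin, inv_tr, Units.val_mul]
    change -(a' x.tr) + a' y.tr + a' (b x.tr) = a' (y.tr + (b x.tr - x.tr))
    rw [map_add, map_sub]; abel
  have h3 : ‖a' * (b - 1) * a‖ ≤ R * ‖b - 1‖ * (1 + R) := by
    calc ‖a' * (b - 1) * a‖ ≤ ‖a' * (b - 1)‖ * ‖a‖ := norm_mul_le _ _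
      _ ≤ (‖a'‖ * ‖b - 1‖) * ‖a‖ := mul_le_mul_of_nonneg_right (norm_mul_le _ _) (norm_nonneg _)
      _ ≤ (R * ‖b - 1‖) * (1 + R) := by
          apply mul_le_mul _ _ (norm_nonneg _) (mul_nonneg hR (norm_nonneg _))
          · exact mul_le_mul_of_nonneg_right hx' (norm_nonneg _)
          · exact (norm_lin_le46 x).trans (by linarith)
  have h4 : ‖a' (y.tr + (b - 1) x.tr)‖ ≤ R * (‖y.tr‖ + ‖b - 1‖ * R) := by
    calc ‖a' (y.tr + (b - 1) x.tr)‖ ≤ ‖a'‖ * ‖y.tr + (b - 1) x.tr‖ :=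
          ContinuousLinearMap.le_opNorm _ _
      _ ≤ R * (‖y.tr‖ + ‖b - 1‖ * R) := by
          apply mul_le_mul hx' _ (norm_nonneg _) hR
          refine (norm_add_le _ _).trans (add_le_add le_rfl ?_)
          refine (ContinuousLinearMap.le_opNorm _ _).trans ?_
          exact mul_le_mul_of_nonneg_left ((norm_tr_le46 x).trans hx) (norm_nonneg _)
  have h5 : nrm46 y = ‖b - 1‖ + ‖y.tr‖ := rfl
  have h6 : nrm46 (x⁻¹ * y * x) ≤ R * ‖b - 1‖ * (1 + R) + R * (‖y.tr‖ + ‖b - 1‖ * R) := by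
    rw [nrm46, h1, h2]; exact add_le_add h3 h4
  refine h6.trans ?_
  rw [h5]
  have h7 : 0 ≤ R * R * ‖y.tr‖ := by positivity
  nlinarith

end Aff

namespace Cell

variable {N : ℕ} {G : Subgroup (Op N)ˣ} {ι : Type} [Fintype ι] [LinearOrder ι] (c : Cell G ι)

/-- a sign pattern, increasing for the order on the weights -/
structure Sgn46 (X : ι → ℝ) : Prop where
  o : X c.o = 0
  ne : ∀ i, i ≠ c.o → X i ≠ 0
  mono : ∀ i j, c.r i j → X i < X j

lemma P_P_apply46 (i : ι) (v : V N) : c.P i (c.P i v) = c.P i v :=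
  congrArg (fun T : Op N => T v) (c.grading.idem i)

lemma P_P_ne46 {i j : ι} (h : i ≠ j) (v : V N) : c.P i (c.P j v) = 0 :=
  congrArg (fun T : Op N => T v) (c.grading.orth i j h)

/-- a vector all of whose images vanish -/
lemma apply_eq_zero46 {T : Op N} {v : V N} (h : ∀ j, T (c.P j v) = 0) : T v = 0 := by
  have h1 : T v = ∑ j, T (c.P j v) := by rw [← map_sum, c.sum_P_apply]
  rw [h1]
  exact Finset.sum_eq_zero fun j _ => h j

lemma Nm_apply46 {X : ι → ℝ} (hX : c.Sgn46 X) {y : (Op N)ˣ} (hy : y ∈ c.Nm) {v : V N}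
    (hv : ∀ i, 0 ≤ X i → c.P i v = 0) : ∀ i, 0 ≤ X i → c.P i ((y : Op N) v) = 0 := by
  intro i hi
  have : (c.P i * (y : Op N)) v = 0 := by
    apply c.apply_eq_zero46
    intro j
    by_cases hj : 0 ≤ X j
    · rw [hv j hj, map_zero]
    · have hij : i ≠ j := fun h => hj (h ▸ hi)
      have hr : ¬ c.r i j := fun h => hj (hi.trans (hX.mono i j h).le)
      exact congrArg (fun T : Op N => T v) (hy.2.2 i j hij hr)
  exact this

lemma Np_apply46 {X : ι → ℝ} (hX : c.Sgn46 X) {x : (Op N)ˣ} (hx : x ∈ c.Np) {v : V N}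
    (hv : ∀ i, X i ≤ 0 → c.P i v = 0) : ∀ i, X i ≤ 0 → c.P i ((x : Op N) v) = 0 := by
  intro i hi
  have : (c.P i * (x : Op N)) v = 0 := by
    apply c.apply_eq_zero46
    intro j
    by_cases hj : X j ≤ 0
    · rw [hv j hj, map_zero]
    · have hij : i ≠ j := fun h => hj (h ▸ hi)
      have hr : ¬ c.r j i := fun h => hj ((hX.mono j i h).le.trans hi)
      exact congrArg (fun T : Op N => T v) (hx.2.2 i j hij hr)
  exact this

lemma L_comm46 {l : (Op N)ˣ} (hl : l ∈ c.L) (i : ι) (v : V N) :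
    c.P i ((l : Op N) v) = (l : Op N) (c.P i v) :=
  congrArg (fun T : Op N => T v) (hl.2 i)

/-- affine maps with linear part in `N⁻` and translation in the negative blocks -/
def Um46 {X : ι → ℝ} (hX : c.Sgn46 X) : Subgroup (Aff (V N)) where
  carrier := {T | T.lin ∈ c.Nm ∧ ∀ i, 0 ≤ X i → c.P i T.tr = 0}
  mul_mem' := fun {a b} ha hb => ⟨c.Nm.mul_mem ha.1 hb.1, fun i hi => by
    rw [Aff.mul_tr, map_add, ha.2 i hi, c.Nm_apply46 hX ha.1 hb.2 i hi, add_zero]⟩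
  one_mem' := ⟨c.Nm.one_mem, fun i _ => map_zero _⟩
  inv_mem' := fun {a} ha => ⟨c.Nm.inv_mem ha.1, fun i hi => by
    rw [Aff.inv_tr, map_neg, c.Nm_apply46 hX (c.Nm.inv_mem ha.1) ha.2 i hi, neg_zero]⟩

/-- affine maps with linear part in `L` and translation in the block `o` -/
def Mo46 : Subgroup (Aff (V N)) where
  carrier := {T | T.lin ∈ c.L ∧ c.P c.o T.tr = T.tr}
  mul_mem' := fun {a b} ha hb => ⟨c.L.mul_mem ha.1 hb.1, by
    rw [Aff.mul_tr, map_add, ha.2, c.L_comm46 ha.1, hb.2]⟩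
  one_mem' := ⟨c.L.one_mem, map_zero _⟩
  inv_mem' := fun {a} ha => ⟨c.L.inv_mem ha.1, by
    rw [Aff.inv_tr, map_neg, c.L_comm46 (c.L.inv_mem ha.1), ha.2]⟩

/-- affine maps with linear part in `N⁺` and translation in the positive blocks -/
def Up46 {X : ι → ℝ} (hX : c.Sgn46 X) : Subgroup (Aff (V N)) where
  carrier := {T | T.lin ∈ c.Np ∧ ∀ i, X i ≤ 0 → c.P i T.tr = 0}
  mul_mem' := fun {a b} ha hb => ⟨c.Np.mul_mem ha.1 hb.1, fun i hi => by
    rw [Aff.mul_tr, map_add, ha.2 i hi, c.Np_apply46 hX ha.1 hb.2 i hi, add_zero]⟩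
  one_mem' := ⟨c.Np.one_mem, fun i _ => map_zero _⟩
  inv_mem' := fun {a} ha => ⟨c.Np.inv_mem ha.1, fun i hi => by
    rw [Aff.inv_tr, map_neg, c.Np_apply46 hX (c.Np.inv_mem ha.1) ha.2 i hi, neg_zero]⟩

end Cell

end Pool.Agent.Lib.MP_d9b062_al

end

/-! ## from `MP_d9b062_al_h46.ExReg` -/

section
/-!
# Transversal elements
-/

namespace Pool.Agent.Lib.MP_d9b062_al

namespace Cell

variable {N : ℕ} {G : Subgroup (Op N)ˣ} {ι : Type} [Fintype ι] [LinearOrder ι]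

/-- transversal elements -/
theorem Good.exists_reg46 {c : Cell G ι} {Γ : Subgroup (Aff (V N))} (hΓ : c.Good Γ)
    {f f' : (Op N)ˣ} (hf : f ∈ G) (hf' : f' ∈ G) :
    ∃ η ∈ Γ, Reg c.P ((f * η.lin * f' : (Op N)ˣ) : Op N) := by
  obtain ⟨D, hD, hD1, hDr⟩ := c.exists_reg_poly
  by_contra hcon
  push Not at hcon
  have hpoly : (fun T : Op N => D ((f : Op N) * T * (f' : Op N))) ∈ PolyFun (Op N) :=
    PolyFun.comp hD (((IsPolyMap.const (f : Op N)).mul IsPolyMap.id).mul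
      (IsPolyMap.const (f' : Op N)))
  have h0 := hΓ.dense _ hpoly (by
    rintro s ⟨γ, hγ, rfl⟩
    by_contra hne
    exact hcon γ hγ ((hDr _).2 hne)) (f⁻¹ * f'⁻¹) (G.mul_mem (G.inv_mem hf) (G.inv_mem hf'))
  have h1 : (f : Op N) * ((f⁻¹ * f'⁻¹ : (Op N)ˣ) : Op N) * (f' : Op N) = 1 := by
    have : f * (f⁻¹ * f'⁻¹) * f' = 1 := by group
    calc (f : Op N) * ((f⁻¹ * f'⁻¹ : (Op N)ˣ) : Op N) * (f' : Op N)
        = ((f * (f⁻¹ * f'⁻¹) * f' : (Op N)ˣ) : Op N) := rfl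
      _ = 1 := by rw [this]; rfl
  have h2 : D ((f : Op N) * ((f⁻¹ * f'⁻¹ : (Op N)ˣ) : Op N) * (f' : Op N)) = 0 := h0
  rw [h1] at h2
  exact hD1 h2

end Cell

end Pool.Agent.Lib.MP_d9b062_al

end
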