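import Mathlib

/-!
MP_d9b062_al: merged modules (to shorten the build).
-/

set_option autoImplicit false

/-! ## from `MP_d9b062_al_h46.Steer` -/

section
/-!
# Steering lemma (task STEER of MP_d9b062_al)
-/

namespace Pool.Agent.Lib.MP_d9b062_al

namespace Steer

open Filter
open scoped Topology

set_option linter.unusedSectionVars false

variable {F : Type*} [NormedAddCommGroup F] [InnerProductSpace ℝ F] [FiniteDimensional ℝ F]

lemma pow_isom (g : F ≃ₗᵢ[ℝ] F) (n : ℕ) (v : F) : (g ^ n) v = (g : F → F)^[n] v := by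
  induction n generalizing v with
  | zero => simp
  | succ n ih =>
    rw [pow_succ, LinearIsometryEquiv.coe_mul, Function.comp_apply, ih, Function.iterate_succ,
      Function.comp_apply]

/-- recurrence of isometries -/
lemma recur (g : F ≃ₗᵢ[ℝ] F) {ε : ℝ} (hε : 0 < ε) (N : ℕ) :
    ∃ n ≥ N, ∀ v, ‖(g ^ n) v - v‖ ≤ ε * ‖v‖ := by
  classical
  let G : ℕ → (F →L[ℝ] F) := fun n => ((g ^ n : F ≃ₗᵢ[ℝ] F) : F ≃L[ℝ] F)
  have hG : ∀ n v, G n v = (g ^ n) v := fun n v => rfl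
  have hb : ∀ n, G n ∈ Metric.closedBall (0 : F →L[ℝ] F) 1 := by
    intro n
    rw [mem_closedBall_zero_iff]
    refine ContinuousLinearMap.opNorm_le_bound _ zero_le_one (fun v => ?_)
    rw [hG, LinearIsometryEquiv.norm_map, one_mul]
  obtain ⟨a, -, φ, hφ, ha⟩ := tendsto_subseq_of_bounded Metric.isBounded_closedBall hb
  have hc := ha.cauchySeq
  rw [Metric.cauchySeq_iff] at hc
  obtain ⟨K, hK⟩ := hc ε hε
  have h1 : K + N ≤ φ (K + N) := hφ.id_le _
  have h2 : φ K + N ≤ φ (K + N) := by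
    have := hφ.add_le_nat N K
    rw [add_comm N K] at this
    omega
  refine ⟨φ (K + N) - φ K, by omega, fun v => ?_⟩
  have h3 := (hK (K + N) (by omega) K le_rfl).le
  rw [dist_eq_norm] at h3
  have h4 : ‖(G (φ (K + N)) - G (φ K)) v‖ ≤ ε * ‖v‖ :=
    (ContinuousLinearMap.le_opNorm _ _).trans (mul_le_mul_of_nonneg_right h3 (norm_nonneg _))
  have h5 : (G (φ (K + N)) - G (φ K)) v = (g ^ φ K) ((g ^ (φ (K + N) - φ K)) v - v) := by
    rw [sub_apply, hG, hG, map_sub]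
    congr 1
    rw [← Function.comp_apply (f := (g ^ φ K : F ≃ₗᵢ[ℝ] F)), ← LinearIsometryEquiv.coe_mul,
      ← pow_add]
    congr 3
    omega
  rw [h5, LinearIsometryEquiv.norm_map] at h4
  exact h4

/-- the set of limit directions of an unbounded map -/
def Dir {𝒲 : Type*} (β : 𝒲 → F) : Set F :=
  {d | ‖d‖ = 1 ∧ ∀ ε : ℝ, 0 < ε → ∀ R : ℝ, ∃ w, ∃ r : ℝ, R ≤ r ∧ 0 < r ∧ ‖β w - r • d‖ ≤ ε * r}

section

variable {𝒲 : Type*} {β : 𝒲 → F}

lemma Dir.of_approx {d : F} (h : ∀ ε : ℝ, 0 < ε → ∃ d' ∈ Dir β, ‖d' - d‖ ≤ ε) : d ∈ Dir β := by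
  refine ⟨?_, fun ε hε R => ?_⟩
  · refine le_antisymm ?_ ?_
    · refine le_of_forall_pos_le_add (fun ε hε => ?_)
      obtain ⟨d', hd', hdd⟩ := h ε hε
      have := norm_sub_norm_le d d'
      rw [norm_sub_rev] at this
      linarith [hd'.1]
    · refine le_of_forall_pos_le_add (fun ε hε => ?_)
      obtain ⟨d', hd', hdd⟩ := h ε hε
      have := norm_sub_norm_le d' d
      linarith [hd'.1]
  · obtain ⟨d', hd', hdd⟩ := h (ε / 2) (by positivity)
    obtain ⟨w, r, hr, hr0, hw⟩ := hd'.2 (ε / 2) (by positivity) R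
    refine ⟨w, r, hr, hr0, ?_⟩
    have e : β w - r • d = (β w - r • d') + r • (d' - d) := by
      rw [smul_sub]; abel
    rw [e]
    refine (norm_add_le _ _).trans ?_
    rw [norm_smul, Real.norm_eq_abs, abs_of_pos hr0]
    nlinarith [mul_le_mul_of_nonneg_left hdd hr0.le]

/-- a direction invariance criterion -/
lemma Dir.map (g : F ≃ₗᵢ[ℝ] F)
    (h : ∀ ε : ℝ, 0 < ε → ∃ K : ℝ, ∀ w, ∃ w', ‖β w' - g (β w)‖ ≤ ε * ‖β w‖ + K)
    {d : F} (hd : d ∈ Dir β) : g d ∈ Dir β := by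
  refine ⟨by rw [LinearIsometryEquiv.norm_map]; exact hd.1, fun ε hε R => ?_⟩
  set ε' := min ε 1 with hε'
  have hε'0 : 0 < ε' := lt_min hε one_pos
  have hε'1 : ε' ≤ 1 := min_le_right _ _
  have hε'2 : ε' ≤ ε := min_le_left _ _
  obtain ⟨K, hK⟩ := h (ε' / 4) (by positivity)
  obtain ⟨w, r, hr, hr0, hw⟩ := hd.2 (ε' / 4) (by positivity) (max R (4 * K / ε'))
  obtain ⟨w', hw'⟩ := hK w
  refine ⟨w', r, (le_max_left _ _).trans hr, hr0, ?_⟩
  have hKr : 4 * K / ε' ≤ r := (le_max_right _ _).trans hr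
  rw [div_le_iff₀ hε'0] at hKr
  have e : β w' - r • g d = (β w' - g (β w)) + g (β w - r • d) := by
    rw [map_sub, map_smul]; abel
  have hn : ‖β w‖ ≤ 2 * r := by
    have h1 : ‖β w‖ ≤ ‖β w - r • d‖ + ‖r • d‖ := by
      have := norm_add_le (β w - r • d) (r • d)
      simpa using this
    rw [norm_smul, hd.1, Real.norm_eq_abs, abs_of_pos hr0, mul_one] at h1
    nlinarith
  rw [e]
  calc ‖(β w' - g (β w)) + g (β w - r • d)‖
      ≤ ‖β w' - g (β w)‖ + ‖g (β w - r • d)‖ := norm_add_le _ _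
    _ ≤ (ε' / 4 * ‖β w‖ + K) + ε' / 4 * r := by
        rw [LinearIsometryEquiv.norm_map]; exact add_le_add hw' hw
    _ ≤ ε * r := by
        have : ε' / 4 * ‖β w‖ ≤ ε' / 4 * (2 * r) := mul_le_mul_of_nonneg_left hn (by positivity)
        nlinarith

lemma Dir.symm_mem {g : F ≃ₗᵢ[ℝ] F} (h : ∀ d ∈ Dir β, g d ∈ Dir β) {d : F} (hd : d ∈ Dir β) :
    g.symm d ∈ Dir β := by
  have hpow : ∀ n : ℕ, (g ^ n) d ∈ Dir β := by
    intro n
    induction n with
    | zero => simpa using hd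
    | succ n ih =>
      rw [pow_succ', LinearIsometryEquiv.coe_mul, Function.comp_apply]
      exact h _ ih
  refine Dir.of_approx (fun ε hε => ?_)
  obtain ⟨n, hn, hv⟩ := recur g hε 1
  refine ⟨(g ^ (n - 1)) d, hpow _, ?_⟩
  have h1 : g ((g ^ (n - 1)) d - g.symm d) = (g ^ n) d - d := by
    rw [map_sub, LinearIsometryEquiv.apply_symm_apply]
    congr 1
    conv_rhs => rw [show n = (n - 1) + 1 by omega, pow_succ', LinearIsometryEquiv.coe_mul,
      Function.comp_apply]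
  have h2 := hv d
  rw [← h1, LinearIsometryEquiv.norm_map, hd.1, mul_one] at h2
  exact h2

/-- limit directions along a sequence -/
lemma Dir.exists_of_seq (w : ℕ → 𝒲) (hw : ∀ k : ℕ, (k : ℝ) ≤ ‖β (w k)‖) (e : F) (δ : ℝ)
    (he : ∀ k : ℕ, 1 ≤ k → δ * ‖β (w k)‖ ≤ inner ℝ (β (w k)) e) :
    ∃ d ∈ Dir β, δ ≤ inner ℝ d e := by
  let u : ℕ → F := fun k => ‖β (w (k + 1))‖⁻¹ • β (w (k + 1))
  have hpos : ∀ k : ℕ, 0 < ‖β (w (k + 1))‖ := fun k =>
    lt_of_lt_of_le (by positivity) (hw (k + 1))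
  have hu : ∀ k, ‖u k‖ = 1 := by
    intro k
    show ‖‖β (w (k + 1))‖⁻¹ • β (w (k + 1))‖ = 1
    rw [norm_smul, norm_inv, norm_norm, inv_mul_cancel₀ (hpos k).ne']
  obtain ⟨d, -, φ, hφ, hd⟩ := tendsto_subseq_of_bounded
    (Metric.isBounded_closedBall (x := (0 : F)) (r := 1)) (x := u)
    (fun k => by rw [mem_closedBall_zero_iff]; exact (hu k).le)
  have hd1 : ‖d‖ = 1 := by
    have h1 : Tendsto (fun k => ‖(u ∘ φ) k‖) atTop (𝓝 ‖d‖) := hd.norm
    have h2 : (fun k => ‖(u ∘ φ) k‖) = fun _ => (1 : ℝ) := by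
      ext k; exact hu _
    rw [h2] at h1
    exact (tendsto_nhds_unique tendsto_const_nhds h1).symm
  refine ⟨d, ⟨hd1, fun ε hε R => ?_⟩, ?_⟩
  · rw [Metric.tendsto_atTop] at hd
    obtain ⟨N, hN⟩ := hd ε hε
    obtain ⟨M, hM⟩ := exists_nat_ge R
    let k := φ (N + M)
    have hk : M ≤ k := by
      have := hφ.id_le (N + M)
      simp only [id] at this
      omega
    refine ⟨w (k + 1), ‖β (w (k + 1))‖, ?_, hpos k, ?_⟩
    · have h1 : (M : ℝ) ≤ ((k + 1 : ℕ) : ℝ) := by exact_mod_cast (by omega : M ≤ k + 1)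
      exact hM.trans (h1.trans (hw _))
    · have h1 := (hN (N + M) (by omega)).le
      rw [dist_eq_norm] at h1
      have h2 : β (w (k + 1)) = ‖β (w (k + 1))‖ • u k := by
        show _ = ‖β (w (k + 1))‖ • (‖β (w (k + 1))‖⁻¹ • β (w (k + 1)))
        rw [smul_smul, mul_inv_cancel₀ (hpos k).ne', one_smul]
      conv_lhs => rw [h2, ← h2]
      have h3 : β (w (k + 1)) - ‖β (w (k + 1))‖ • d = ‖β (w (k + 1))‖ • (u k - d) := by
        rw [smul_sub, ← h2]
      rw [h3, norm_smul, norm_norm, mul_comm]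
      exact mul_le_mul_of_nonneg_right h1 (hpos k).le
  · have h1 : Tendsto (fun k => inner ℝ ((u ∘ φ) k) e) atTop (𝓝 (inner ℝ d e)) :=
      hd.inner tendsto_const_nhds
    refine ge_of_tendsto' h1 (fun k => ?_)
    have h2 := he (φ k + 1) (by omega)
    show δ ≤ inner ℝ (‖β (w (φ k + 1))‖⁻¹ • β (w (φ k + 1))) e
    rw [real_inner_smul_left, ← div_eq_inv_mul, le_div_iff₀ (hpos _)]
    exact h2

end

/-- cone lemma -/
lemma cone_lemma (B : Set F) (hBc : IsClosed B) (hBconv : Convex ℝ B)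
    (hfix : ∀ z ∈ B, (∀ g : F ≃ₗᵢ[ℝ] F, (∀ y, g y ∈ B ↔ y ∈ B) → g z = z) → z = 0)
    {d e : F} (hd : ∀ y ∈ B, inner ℝ d y ≤ (0 : ℝ)) (hd1 : ‖d‖ = 1) (he : e ∈ B) :
    inner ℝ d e = (0 : ℝ) := by
  classical
  by_contra hne
  have hlt : inner ℝ d e < (0 : ℝ) := lt_of_le_of_ne (hd e he) hne
  set δ : ℝ := -inner ℝ d e with hδ
  have hδ0 : 0 < δ := by rw [hδ]; linarith
  let S : Set (F ≃ₗᵢ[ℝ] F) := {g | ∀ y, g y ∈ B ↔ y ∈ B}
  have hSsymm : ∀ g ∈ S, ∀ y, g.symm y ∈ B ↔ y ∈ B := by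
    intro g hg y
    have := hg (g.symm y)
    rw [LinearIsometryEquiv.apply_symm_apply] at this
    exact this.symm
  let O : Set F := {x | ∃ g ∈ S, x = g e}
  have hOB : O ⊆ B := by
    rintro x ⟨g, hg, rfl⟩
    exact (hg e).2 he
  have heO : e ∈ O := ⟨LinearIsometryEquiv.refl ℝ F, fun y => Iff.rfl, rfl⟩
  have hObd : Bornology.IsBounded O := by
    refine (Metric.isBounded_closedBall (x := (0 : F)) (r := ‖e‖)).subset ?_
    rintro x ⟨g, hg, rfl⟩
    rw [mem_closedBall_zero_iff, LinearIsometryEquiv.norm_map]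
  have hOtb : TotallyBounded O := (hObd.isCompact_closure.totallyBounded).subset subset_closure
  obtain ⟨k, hkO, hkf, hkc⟩ := hOtb.exists_subset (Metric.dist_mem_uniformity (half_pos hδ0))
  have hkO' : ∀ y ∈ k, ∃ g : F ≃ₗᵢ[ℝ] F, g ∈ S ∧ y = g e := fun y hy => by
    obtain ⟨g, hg, rfl⟩ := hkO hy
    exact ⟨g, hg, rfl⟩
  choose! γ hγS hγ using hkO'
  set d' : F := ∑ y ∈ hkf.toFinset, γ y d with hd'
  have hd'O : ∀ x ∈ O, inner ℝ d' x ≤ -(δ / 2) := by
    rintro x ⟨g, hg, rfl⟩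
    have hxO : g e ∈ O := ⟨g, hg, rfl⟩
    have h1 := hkc hxO
    simp only [Set.mem_iUnion, Set.mem_ofPred_eq, exists_prop] at h1
    obtain ⟨y, hyk, hy⟩ := h1
    have hterm : ∀ y ∈ hkf.toFinset, inner ℝ (γ y d) (g e) ≤ (0 : ℝ) := by
      intro y hy
      have hyk : y ∈ k := hkf.mem_toFinset.1 hy
      have h2 : inner ℝ (γ y d) (g e) = inner ℝ d ((γ y).symm (g e)) := by
        rw [← LinearIsometryEquiv.inner_map_map (γ y) d, LinearIsometryEquiv.apply_symm_apply]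
      rw [h2]
      exact hd _ ((hSsymm _ (hγS y hyk) _).2 ((hg e).2 he))
    have hy' : inner ℝ (γ y d) (g e) ≤ -(δ / 2) := by
      have h2 : inner ℝ (γ y d) (g e) = inner ℝ (γ y d) (γ y e) + inner ℝ (γ y d) (g e - γ y e) := by
        rw [← inner_add_right]; congr 1; abel
      have h3 : inner ℝ (γ y d) (g e - γ y e) ≤ δ / 2 := by
        refine (real_inner_le_norm _ _).trans ?_
        rw [LinearIsometryEquiv.norm_map, hd1, one_mul, ← hγ y hyk, ← dist_eq_norm]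
        exact hy.le
      rw [h2, LinearIsometryEquiv.inner_map_map]
      linarith
    rw [hd', sum_inner, ← Finset.add_sum_erase _ _ (hkf.mem_toFinset.2 hyk)]
    have h4 : ∑ x ∈ hkf.toFinset.erase y, inner ℝ (γ x d) (g e) ≤ (0 : ℝ) :=
      Finset.sum_nonpos (fun x hx => hterm x (Finset.mem_of_mem_erase hx))
    linarith
  let K : Set F := closure (convexHull ℝ O)
  have hKconv : Convex ℝ K := (convex_convexHull ℝ O).closure
  have hKB : K ⊆ B := closure_minimal (convexHull_min hOB hBconv) hBc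
  have hKd : ∀ z ∈ K, inner ℝ d' z ≤ -(δ / 2) := by
    have h1 : K ⊆ {z | inner ℝ d' z ≤ -(δ / 2)} := by
      refine closure_minimal (convexHull_min hd'O ?_) ?_
      · intro x hx y hy a b ha hb hab
        simp only [Set.mem_ofPred_eq] at hx hy ⊢
        rw [inner_add_right, real_inner_smul_right, real_inner_smul_right]
        have e1 : b = 1 - a := by linarith
        subst e1
        nlinarith [mul_le_mul_of_nonneg_left hx ha, mul_le_mul_of_nonneg_left hy hb]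
      · exact isClosed_le (continuous_const.inner continuous_id) continuous_const
    exact fun z hz => h1 hz
  have hKne : K.Nonempty := ⟨e, subset_closure (subset_convexHull ℝ O heO)⟩
  obtain ⟨z, hzK, hz⟩ := exists_norm_eq_iInf_of_complete_convex hKne
    (isClosed_closure.isComplete) hKconv 0
  rw [norm_eq_iInf_iff_real_inner_le_zero hKconv hzK] at hz
  have hz0 : z = 0 := by
    refine hfix z (hKB hzK) (fun g hg => ?_)
    have hgK : g z ∈ K := by
      have h1 : K ⊆ g ⁻¹' K := by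
        refine closure_minimal (convexHull_min ?_ ?_) (isClosed_closure.preimage g.continuous)
        · rintro x ⟨g', hg', rfl⟩
          refine subset_closure (subset_convexHull ℝ O ⟨g * g', ?_, rfl⟩)
          intro y
          rw [LinearIsometryEquiv.coe_mul, Function.comp_apply, hg, hg']
        · intro x hx y hy a b ha hb hab
          simp only [Set.mem_preimage, map_add, map_smul] at hx hy ⊢
          exact hKconv hx hy ha hb hab
      exact h1 hzK
    have h2 := hz _ hgK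
    rw [zero_sub, inner_neg_left, inner_sub_right, real_inner_self_eq_norm_sq] at h2
    have h3 : ‖g z - z‖ ^ 2 ≤ 0 := by
      rw [@norm_sub_sq_real, LinearIsometryEquiv.norm_map, real_inner_comm]
      linarith
    have h4 : ‖g z - z‖ = 0 := by
      have := sq_nonneg ‖g z - z‖
      exact pow_eq_zero_iff (two_ne_zero) |>.1 (le_antisymm h3 this)
    exact sub_eq_zero.1 (norm_eq_zero.1 h4)
  have h5 := hKd z hzK
  rw [hz0, inner_zero_right] at h5
  linarith

end Steer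

end Pool.Agent.Lib.MP_d9b062_al

end

/-! ## from `MP_d9b062_al_h46.SteerMain` -/

section
/-!
# Steering lemma (task STEER of MP_d9b062_al), main part
-/

namespace Pool.Agent.Lib.MP_d9b062_al

namespace Steer

open Filter
open scoped Topology

set_option linter.unusedSectionVars false

variable {F : Type*} [NormedAddCommGroup F] [InnerProductSpace ℝ F] [FiniteDimensional ℝ F]

section criteria

variable {𝒲 : Type*} {β : 𝒲 → F}

lemma Dir.inner_nonneg {e : F}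
    (h : ∀ ε : ℝ, 0 < ε → ∃ K : ℝ, ∀ w, -K - ε * ‖β w‖ ≤ inner ℝ (β w) e)
    {d : F} (hd : d ∈ Dir β) : 0 ≤ inner ℝ d e := by
  by_contra hlt
  rw [not_le] at hlt
  set δ := -inner ℝ d e with hδ
  have hδ0 : 0 < δ := by linarith
  -- choose ε
  obtain ⟨K, hK⟩ := h (δ / 8) (by positivity)
  set ε : ℝ := min 1 (δ / (4 * (1 + ‖e‖))) with hε
  have hε0 : 0 < ε := lt_min one_pos (by positivity)
  obtain ⟨w, r, hr, hr0, hw⟩ := hd.2 ε hε0 (4 * K / δ + 1)
  have h1 := hK w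
  have hβ : ‖β w‖ ≤ 2 * r := by
    have h2 : ‖β w‖ ≤ ‖β w - r • d‖ + ‖r • d‖ := by
      have := norm_add_le (β w - r • d) (r • d)
      simpa using this
    rw [norm_smul, hd.1, Real.norm_eq_abs, abs_of_pos hr0, mul_one] at h2
    have : ε ≤ 1 := min_le_left _ _
    nlinarith
  have h3 : inner ℝ (β w) e = inner ℝ (β w - r • d) e + r * inner ℝ d e := by
    rw [← real_inner_smul_left, ← inner_add_left]; congr 1; abel
  have h4 : inner ℝ (β w - r • d) e ≤ ε * r * ‖e‖ :=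
    (real_inner_le_norm _ _).trans (mul_le_mul_of_nonneg_right hw (norm_nonneg _))
  have h5 : ε * ‖e‖ ≤ δ / 4 := by
    have h6 : ε ≤ δ / (4 * (1 + ‖e‖)) := min_le_right _ _
    rw [le_div_iff₀ (by positivity)] at h6
    nlinarith [norm_nonneg e]
  have h7 : K ≤ δ / 4 * r := by
    have h8 : 4 * K / δ ≤ r := by linarith
    rw [div_le_iff₀ hδ0] at h8
    linarith
  have h9 : inner ℝ d e = -δ := by rw [hδ]; ring
  rw [h9] at h3
  have h10 : ε * r * ‖e‖ ≤ δ / 4 * r := by nlinarith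
  have h11 : δ / 8 * ‖β w‖ ≤ δ / 4 * r := by nlinarith
  nlinarith [mul_pos hδ0 hr0]

end criteria

/-- commutation of a projection with an isometry preserving the subspace -/
lemma proj_comm (B : Submodule ℝ F) (g : F ≃ₗᵢ[ℝ] F) (h1 : ∀ e ∈ B, g e ∈ B)
    (h2 : ∀ e ∈ B, g.symm e ∈ B) (v : F) :
    B.starProjection (g v) = g (B.starProjection v) := by
  apply Submodule.eq_starProjection_of_mem_of_inner_eq_zero
  · exact h1 _ (Submodule.starProjection_apply_mem _ _)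
  · intro w hw
    rw [← map_sub]
    have : inner ℝ (g (v - B.starProjection v)) w = inner ℝ (v - B.starProjection v) (g.symm w) := by
      rw [← LinearIsometryEquiv.inner_map_map g (v - B.starProjection v) (g.symm w),
        LinearIsometryEquiv.apply_symm_apply]
    rw [this]
    exact Submodule.starProjection_inner_eq_zero _ _ (h2 w hw)

lemma inner_proj (B : Submodule ℝ F) (v e : F) (he : e ∈ B) :
    inner ℝ (B.starProjection v) e = inner ℝ v e := by
  have := Submodule.starProjection_inner_eq_zero (K := B) v e he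
  rw [inner_sub_left, sub_eq_zero] at this
  exact this.symm

lemma norm_proj_le (B : Submodule ℝ F) (v : F) : ‖B.starProjection v‖ ≤ ‖v‖ := by
  have h := ContinuousLinearMap.le_opNorm B.starProjection v
  have h2 := Submodule.starProjection_norm_le (K := B)
  nlinarith [norm_nonneg v]

/-- steering data -/
structure SD (F : Type*) [NormedAddCommGroup F] [InnerProductSpace ℝ F] [FiniteDimensional ℝ F]
    (𝒲 : Type*) where
  b : 𝒲 → F
  M : 𝒲 → (F ≃ₗᵢ[ℝ] F)
  size : 𝒲 → ℝ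
  mul : 𝒲 → ℕ → 𝒲 → 𝒲
  Md : F ≃ₗᵢ[ℝ] F
  t : F
  ht : Md t = t
  C : ℝ
  hC : 0 ≤ C
  c : ℝ
  hc : 0 < c
  n₀ : ℕ
  hmul : ∀ p n w, n₀ ≤ n → ‖b (mul p n w) - (b p + M p ((n : ℝ) • t + (Md ^ n) (b w)))‖ ≤
    C * Real.exp (-c * n) * (1 + n + ‖b w‖)
  hL : ∀ e, (∀ p, M p e = e) → ∀ p n w, n₀ ≤ n → |inner ℝ (b (mul p n w)) e -
    (inner ℝ (b p) e + n * inner ℝ t e + inner ℝ (b w) e)| ≤ C * ‖e‖
  hpos : ∀ e, (∀ p, M p e = e) → ‖e‖ = 1 → ∀ R : ℝ, ∃ w, R ≤ inner ℝ (b w) e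
  hsize : ∀ p n w, n₀ ≤ n → size p + size w ≤ size (mul p n w)
  hsize' : ∀ w, 1 ≤ size w

namespace SD

variable {𝒲 : Type*} [Nonempty 𝒲] (D : SD F 𝒲)

lemma decay {ε : ℝ} (hε : 0 < ε) :
    ∃ N : ℕ, ∀ n : ℕ, N ≤ n → D.C * Real.exp (-D.c * n) * (1 + n) ≤ ε := by
  have h1 : Tendsto (fun n : ℕ => (n : ℝ) * Real.exp (-D.c) ^ n) atTop (𝓝 0) :=
    tendsto_self_mul_const_pow_of_lt_one (Real.exp_pos _).le (by
      rw [Real.exp_lt_one_iff]; linarith [D.hc])
  have h2 : Tendsto (fun n : ℕ => Real.exp (-D.c) ^ n) atTop (𝓝 0) :=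
    tendsto_pow_atTop_nhds_zero_of_lt_one (Real.exp_pos _).le (by
      rw [Real.exp_lt_one_iff]; linarith [D.hc])
  have h3 : Tendsto (fun n : ℕ => D.C * (Real.exp (-D.c) ^ n + (n : ℝ) * Real.exp (-D.c) ^ n)) atTop
      (𝓝 (D.C * (0 + 0))) := (h2.add h1).const_mul _
  rw [add_zero, mul_zero] at h3
  have h4 : ∀ᶠ n : ℕ in atTop,
      D.C * (Real.exp (-D.c) ^ n + (n : ℝ) * Real.exp (-D.c) ^ n) < ε :=
    h3.eventually (gt_mem_nhds hε)
  obtain ⟨N, hN⟩ := eventually_atTop.1 h4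
  refine ⟨N, fun n hn => ?_⟩
  have h5 := (hN n hn).le
  have h6 : Real.exp (-D.c * n) = Real.exp (-D.c) ^ n := by
    rw [mul_comm, Real.exp_nat_mul]
  rw [h6]
  calc D.C * Real.exp (-D.c) ^ n * (1 + n)
      = D.C * (Real.exp (-D.c) ^ n + (n : ℝ) * Real.exp (-D.c) ^ n) := by ring
    _ ≤ ε := h5

lemma err_le {ε : ℝ} {n : ℕ} (h : D.C * Real.exp (-D.c * n) * (1 + n) ≤ ε) {K : ℝ} (hK : 0 ≤ K) :
    D.C * Real.exp (-D.c * n) * (1 + n + K) ≤ ε * (1 + K) := by
  have h0 : 0 ≤ D.C * Real.exp (-D.c * n) := mul_nonneg D.hC (Real.exp_pos _).le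
  have hn : (0 : ℝ) ≤ n := Nat.cast_nonneg n
  calc D.C * Real.exp (-D.c * n) * (1 + n + K)
      ≤ D.C * Real.exp (-D.c * n) * ((1 + n) * (1 + K)) := by
        refine mul_le_mul_of_nonneg_left ?_ h0
        nlinarith [mul_nonneg hn hK]
    _ = D.C * Real.exp (-D.c * n) * (1 + n) * (1 + K) := by ring
    _ ≤ ε * (1 + K) := mul_le_mul_of_nonneg_right h (by linarith)

lemma Md_t (n : ℕ) : (D.Md ^ n) D.t = D.t := by
  induction n with
  | zero => simp
  | succ n ih => rw [pow_succ, LinearIsometryEquiv.coe_mul, Function.comp_apply, D.ht, ih]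

/-- invariance estimate for `b` itself -/
lemma inv0 (p : 𝒲) (j : ℕ) (ε : ℝ) (hε : 0 < ε) :
    ∃ K : ℝ, ∀ w, ∃ w', ‖D.b w' - (D.M p * D.Md ^ j) (D.b w)‖ ≤ ε * ‖D.b w‖ + K := by
  obtain ⟨N, hN⟩ := D.decay (half_pos hε)
  obtain ⟨n', hn', hv⟩ := recur D.Md (half_pos hε) (max N D.n₀)
  set n := n' + j with hn
  have hnN : N ≤ n := by have := le_max_left N D.n₀; omega
  have hn0 : D.n₀ ≤ n := by have := le_max_right N D.n₀; omega
  refine ⟨ε / 2 + ‖D.b p‖ + ‖(n : ℝ) • D.t‖, fun w => ⟨D.mul p n w, ?_⟩⟩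
  have h1 := (D.hmul p n w hn0).trans (D.err_le (hN n hnN) (norm_nonneg (D.b w)))
  have h2 : (D.Md ^ n) (D.b w) - (D.Md ^ j) (D.b w) =
      (D.Md ^ j) ((D.Md ^ n') (D.b w) - D.b w) := by
    rw [map_sub, hn, add_comm n' j, pow_add, LinearIsometryEquiv.coe_mul, Function.comp_apply]
  have h3 : ‖(D.Md ^ n) (D.b w) - (D.Md ^ j) (D.b w)‖ ≤ ε / 2 * ‖D.b w‖ := by
    rw [h2, LinearIsometryEquiv.norm_map]
    exact hv _
  have h4 : D.b (D.mul p n w) - (D.M p * D.Md ^ j) (D.b w) =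
      (D.b (D.mul p n w) - (D.b p + D.M p ((n : ℝ) • D.t + (D.Md ^ n) (D.b w)))) +
      (D.b p + (D.M p ((n : ℝ) • D.t) +
        D.M p ((D.Md ^ n) (D.b w) - (D.Md ^ j) (D.b w)))) := by
    rw [LinearIsometryEquiv.coe_mul, Function.comp_apply, map_sub, map_add]
    abel
  rw [h4]
  refine (norm_add_le _ _).trans ?_
  have h5 : ‖D.b p + (D.M p ((n : ℝ) • D.t) +
        D.M p ((D.Md ^ n) (D.b w) - (D.Md ^ j) (D.b w)))‖ ≤
      ‖D.b p‖ + (‖(n : ℝ) • D.t‖ + ε / 2 * ‖D.b w‖) := by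
    refine (norm_add_le _ _).trans (add_le_add le_rfl ((norm_add_le _ _).trans ?_))
    rw [LinearIsometryEquiv.norm_map, LinearIsometryEquiv.norm_map]
    exact add_le_add le_rfl h3
  linarith

/-- invariant subspaces -/
structure Inv (B : Submodule ℝ F) : Prop where
  M : ∀ p, ∀ e ∈ B, D.M p e ∈ B
  Ms : ∀ p, ∀ e ∈ B, (D.M p).symm e ∈ B
  Md : ∀ e ∈ B, D.Md e ∈ B
  Mds : ∀ e ∈ B, D.Md.symm e ∈ B

lemma Inv.pow {B : Submodule ℝ F} (h : D.Inv B) (n : ℕ) : ∀ e ∈ B, (D.Md ^ n) e ∈ B := by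
  induction n with
  | zero => intro e he; simpa using he
  | succ n ih =>
    intro e he
    rw [pow_succ, LinearIsometryEquiv.coe_mul, Function.comp_apply]
    exact ih _ (h.Md e he)

lemma Inv.proj_M {B : Submodule ℝ F} (h : D.Inv B) (p : 𝒲) (v : F) :
    B.starProjection (D.M p v) = D.M p (B.starProjection v) :=
  proj_comm B _ (h.M p) (h.Ms p) v

lemma Inv.proj_Md {B : Submodule ℝ F} (h : D.Inv B) (v : F) :
    B.starProjection (D.Md v) = D.Md (B.starProjection v) :=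
  proj_comm B _ h.Md h.Mds v

lemma Inv.proj_pow {B : Submodule ℝ F} (h : D.Inv B) (n : ℕ) (v : F) :
    B.starProjection ((D.Md ^ n) v) = (D.Md ^ n) (B.starProjection v) := by
  induction n generalizing v with
  | zero => simp
  | succ n ih =>
    rw [pow_succ, LinearIsometryEquiv.coe_mul, Function.comp_apply, Function.comp_apply, ih,
      h.proj_Md]

/-- the projected `b` -/
noncomputable def β (B : Submodule ℝ F) (w : 𝒲) : F := B.starProjection (D.b w)

/-- invariance estimate for the projection of `b` -/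
lemma inv1 {B : Submodule ℝ F} (hB : D.Inv B) (ht : ∀ e ∈ B, inner ℝ D.t e = (0 : ℝ))
    (p : 𝒲) (j : ℕ) (ε : ℝ) (hε : 0 < ε) :
    ∃ K : ℝ, ∀ w, ∃ w', ‖D.β B w' - (D.M p * D.Md ^ j) (D.β B w)‖ ≤ ε * ‖D.β B w‖ + K := by
  have hPt : B.starProjection D.t = 0 := by
    apply Submodule.eq_starProjection_of_mem_of_inner_eq_zero B.zero_mem
    intro w hw
    rw [sub_zero]
    exact ht w hw
  refine ⟨1 + ‖D.β B p‖, fun w => ?_⟩
  have hpos : 0 < 1 / (1 + ‖D.b w‖) := by positivity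
  obtain ⟨N, hN⟩ := D.decay hpos
  obtain ⟨n', hn', hv⟩ := recur D.Md hε (max N D.n₀)
  set n := n' + j with hn
  have hnN : N ≤ n := by have := le_max_left N D.n₀; omega
  have hn0 : D.n₀ ≤ n := by have := le_max_right N D.n₀; omega
  refine ⟨D.mul p n w, ?_⟩
  have h1 := (D.hmul p n w hn0).trans (D.err_le (hN n hnN) (norm_nonneg (D.b w)))
  rw [one_div, inv_mul_cancel₀ (by positivity)] at h1
  have h1' := (norm_proj_le B _).trans h1
  rw [map_sub, map_add, hB.proj_M, map_add, map_smul, hPt, smul_zero, zero_add,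
    hB.proj_pow] at h1'
  have h2 : (D.Md ^ n) (D.β B w) - (D.Md ^ j) (D.β B w) =
      (D.Md ^ j) ((D.Md ^ n') (D.β B w) - D.β B w) := by
    rw [map_sub, hn, add_comm n' j, pow_add, LinearIsometryEquiv.coe_mul, Function.comp_apply]
  have h3 : ‖(D.Md ^ n) (D.β B w) - (D.Md ^ j) (D.β B w)‖ ≤ ε * ‖D.β B w‖ := by
    rw [h2, LinearIsometryEquiv.norm_map]
    exact hv _
  have h4 : D.β B (D.mul p n w) - (D.M p * D.Md ^ j) (D.β B w) =
      (B.starProjection (D.b (D.mul p n w)) -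
        (B.starProjection (D.b p) + D.M p ((D.Md ^ n) (B.starProjection (D.b w))))) +
      (D.β B p + D.M p ((D.Md ^ n) (D.β B w) - (D.Md ^ j) (D.β B w))) := by
    rw [LinearIsometryEquiv.coe_mul, Function.comp_apply, map_sub]
    unfold SD.β
    abel
  rw [h4]
  refine (norm_add_le _ _).trans ?_
  have h5 : ‖D.β B p + D.M p ((D.Md ^ n) (D.β B w) - (D.Md ^ j) (D.β B w))‖ ≤
      ‖D.β B p‖ + ε * ‖D.β B w‖ := by
    refine (norm_add_le _ _).trans (add_le_add le_rfl ?_)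
    rw [LinearIsometryEquiv.norm_map]
    exact h3
  linarith

/-- powers of a word with large `⟪b, z⟫` -/
lemma powers {z : F} (hz : ∀ p, D.M p z = z) (hz1 : ‖z‖ = 1) :
    ∃ (w : ℕ → 𝒲) (K : ℝ), 0 < K ∧ ∀ k : ℕ, (k : ℝ) ≤ inner ℝ (D.b (w k)) z ∧
      ‖D.b (w k)‖ ≤ K * (k + 1) := by
  obtain ⟨w0, hw0⟩ := D.hpos z hz hz1 (1 + D.C + |D.n₀ * inner ℝ D.t z|)
  let w : ℕ → 𝒲 := fun k => Nat.rec w0 (fun _ v => D.mul v D.n₀ w0) k
  have hw_succ : ∀ k, w (k + 1) = D.mul (w k) D.n₀ w0 := fun k => rfl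
  set K1 : ℝ := ‖(D.n₀ : ℝ) • D.t‖ + ‖D.b w0‖ +
    D.C * Real.exp (-D.c * D.n₀) * (1 + D.n₀ + ‖D.b w0‖) with hK1
  have hK1' : 0 ≤ K1 := by
    have := D.hC
    positivity
  refine ⟨w, K1 + ‖D.b w0‖ + 1, by positivity, fun k => ?_⟩
  induction k with
  | zero =>
    refine ⟨?_, ?_⟩
    · have := D.hC
      have h2 := abs_nonneg (D.n₀ * inner ℝ D.t z)
      show ((0 : ℕ) : ℝ) ≤ inner ℝ (D.b w0) z
      rw [Nat.cast_zero]
      linarith
    · show ‖D.b w0‖ ≤ _
      rw [Nat.cast_zero]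
      linarith
  | succ k ih =>
    rw [hw_succ]
    refine ⟨?_, ?_⟩
    · have h1 := D.hL z hz (w k) D.n₀ w0 le_rfl
      rw [hz1, mul_one, abs_le] at h1
      have h2 := neg_abs_le (D.n₀ * inner ℝ D.t z)
      push_cast
      linarith [ih.1, h1.1]
    · have h1 := D.hmul (w k) D.n₀ w0 le_rfl
      have h2 : ‖D.b (D.mul (w k) D.n₀ w0)‖ ≤
          ‖D.b (D.mul (w k) D.n₀ w0) - (D.b (w k) + D.M (w k) ((D.n₀ : ℝ) • D.t +
            (D.Md ^ D.n₀) (D.b w0)))‖ + (‖D.b (w k)‖ + (‖(D.n₀ : ℝ) • D.t‖ + ‖D.b w0‖)) := by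
        have h3 : ‖D.b (w k) + D.M (w k) ((D.n₀ : ℝ) • D.t + (D.Md ^ D.n₀) (D.b w0))‖ ≤
            ‖D.b (w k)‖ + (‖(D.n₀ : ℝ) • D.t‖ + ‖D.b w0‖) := by
          refine (norm_add_le _ _).trans (add_le_add le_rfl ?_)
          rw [LinearIsometryEquiv.norm_map]
          refine (norm_add_le _ _).trans (add_le_add le_rfl ?_)
          rw [LinearIsometryEquiv.norm_map]
        have h4 := norm_add_le (D.b (D.mul (w k) D.n₀ w0) - (D.b (w k) + D.M (w k)
          ((D.n₀ : ℝ) • D.t + (D.Md ^ D.n₀) (D.b w0))))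
          (D.b (w k) + D.M (w k) ((D.n₀ : ℝ) • D.t + (D.Md ^ D.n₀) (D.b w0)))
        rw [sub_add_cancel] at h4
        linarith
      push_cast
      have h5 := ih.2
      have h6 : (K1 + ‖D.b w0‖ + 1) * ((k : ℝ) + 1 + 1) =
        (K1 + ‖D.b w0‖ + 1) * ((k : ℝ) + 1) + (K1 + ‖D.b w0‖ + 1) := by ring
      rw [h6]
      have := norm_nonneg (D.b w0)
      linarith

/-- no fixed vector in the polar cone -/
lemma fix_zero {B : Submodule ℝ F} {β : 𝒲 → F} (hβ : ∀ w, ∀ z ∈ B, inner ℝ (β w) z = inner ℝ (D.b w) z)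
    (hβn : ∀ w, ‖β w‖ ≤ ‖D.b w‖) {z : F} (hz : z ∈ B) (hfix : ∀ p, D.M p z = z)
    (hd : ∀ d ∈ Dir β, inner ℝ d z ≤ (0 : ℝ)) : z = 0 := by
  by_contra hne
  have hn : 0 < ‖z‖ := norm_pos_iff.2 hne
  set z' : F := ‖z‖⁻¹ • z with hz'
  have hz'1 : ‖z'‖ = 1 := by rw [hz', norm_smul, norm_inv, norm_norm, inv_mul_cancel₀ hn.ne']
  have hz'f : ∀ p, D.M p z' = z' := fun p => by rw [hz', map_smul, hfix]
  have hz'B : z' ∈ B := B.smul_mem _ hz
  obtain ⟨w, K, hK, hw⟩ := D.powers hz'f hz'1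
  have h1 : ∀ k : ℕ, (k : ℝ) ≤ ‖β (w k)‖ := by
    intro k
    refine (hw k).1.trans ?_
    rw [← hβ _ _ hz'B]
    refine (real_inner_le_norm _ _).trans ?_
    rw [hz'1, mul_one]
  obtain ⟨d, hdD, hdz⟩ := Dir.exists_of_seq w h1 z' (1 / (2 * K)) (by
    intro k hk
    have h2 : ‖β (w k)‖ ≤ K * (k + 1) := (hβn _).trans (hw k).2
    have hk' : (1 : ℝ) ≤ k := by exact_mod_cast hk
    rw [hβ _ _ hz'B]
    calc 1 / (2 * K) * ‖β (w k)‖ ≤ 1 / (2 * K) * (K * (k + 1)) :=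
          mul_le_mul_of_nonneg_left h2 (by positivity)
      _ = (k + 1) / 2 := by field_simp
      _ ≤ k := by linarith
      _ ≤ _ := (hw k).1)
  have h3 := hd d hdD
  rw [hz', real_inner_smul_right] at hdz
  have h4 : 0 < 1 / (2 * K) := by positivity
  have h5 : ‖z‖⁻¹ * inner ℝ d z ≤ 0 := mul_nonpos_of_nonneg_of_nonpos (by positivity) h3
  linarith

/-- the stability property of a set of directions -/
structure DirInv (β : 𝒲 → F) : Prop where
  M : ∀ p, ∀ d ∈ Dir β, D.M p d ∈ Dir β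
  Ms : ∀ p, ∀ d ∈ Dir β, (D.M p).symm d ∈ Dir β
  Md : ∀ d ∈ Dir β, D.Md d ∈ Dir β
  Mds : ∀ d ∈ Dir β, D.Md.symm d ∈ Dir β

lemma dirInv_of {β : 𝒲 → F} (h : ∀ p j, ∀ ε : ℝ, 0 < ε → ∃ K : ℝ, ∀ w, ∃ w',
    ‖β w' - (D.M p * D.Md ^ j) (β w)‖ ≤ ε * ‖β w‖ + K) : D.DirInv β := by
  have h0 : ∀ p, ∀ d ∈ Dir β, D.M p d ∈ Dir β := by
    intro p d hd
    have := Dir.map (D.M p * D.Md ^ 0) (h p 0) hd
    simpa using this
  have h1 : ∀ p, ∀ d ∈ Dir β, (D.M p).symm d ∈ Dir β := fun p d hd => Dir.symm_mem (h0 p) hd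
  have h2 : ∀ d ∈ Dir β, D.Md d ∈ Dir β := by
    intro d hd
    obtain ⟨p⟩ := ‹Nonempty 𝒲›
    have h3 := Dir.map (D.M p * D.Md ^ 1) (h p 1) hd
    rw [pow_one, LinearIsometryEquiv.coe_mul, Function.comp_apply] at h3
    have h4 := h1 p _ h3
    rwa [LinearIsometryEquiv.symm_apply_apply] at h4
  exact ⟨h0, h1, h2, fun d hd => Dir.symm_mem h2 hd⟩

/-- the polar cone is a subspace -/
lemma polar_eq {B : Submodule ℝ F} (hB : D.Inv B) {β : 𝒲 → F} (hD : D.DirInv β)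
    (hβ : ∀ w, ∀ z ∈ B, inner ℝ (β w) z = inner ℝ (D.b w) z) (hβn : ∀ w, ‖β w‖ ≤ ‖D.b w‖)
    {e : F} (he : e ∈ B) (hed : ∀ d ∈ Dir β, inner ℝ d e ≤ (0 : ℝ)) {d : F} (hd : d ∈ Dir β) :
    inner ℝ d e = (0 : ℝ) := by
  refine cone_lemma {e | e ∈ B ∧ ∀ d ∈ Dir β, inner ℝ d e ≤ (0 : ℝ)} ?_ ?_ ?_
    (fun y hy => hy.2 d hd) hd.1 ⟨he, hed⟩
  · have h1 : {e | e ∈ B ∧ ∀ d ∈ Dir β, inner ℝ d e ≤ (0 : ℝ)} =
        (B : Set F) ∩ ⋂ d ∈ Dir β, {e | inner ℝ d e ≤ (0 : ℝ)} := by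
      ext x; simp
    rw [h1]
    refine (Submodule.closed_of_finiteDimensional B).inter (isClosed_biInter fun d _ => ?_)
    exact isClosed_le (continuous_const.inner continuous_id) continuous_const
  · intro x hx y hy a b ha hb hab
    refine ⟨B.add_mem (B.smul_mem _ hx.1) (B.smul_mem _ hy.1), fun d hd => ?_⟩
    rw [inner_add_right, real_inner_smul_right, real_inner_smul_right]
    have h1 := mul_nonpos_of_nonneg_of_nonpos ha (hx.2 d hd)
    have h2 := mul_nonpos_of_nonneg_of_nonpos hb (hy.2 d hd)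
    linarith
  · intro z hz hfix
    refine D.fix_zero hβ hβn hz.1 (fun p => hfix (D.M p) (fun y => ?_)) hz.2
    constructor
    · rintro ⟨h1, h2⟩
      refine ⟨?_, fun d hd => ?_⟩
      · have := hB.Ms p _ h1
        rwa [LinearIsometryEquiv.symm_apply_apply] at this
      · rw [← LinearIsometryEquiv.inner_map_map (D.M p)]
        exact h2 _ (hD.M p d hd)
    · rintro ⟨h1, h2⟩
      refine ⟨hB.M p _ h1, fun d hd => ?_⟩
      rw [← LinearIsometryEquiv.apply_symm_apply (D.M p) d, LinearIsometryEquiv.inner_map_map]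
      exact h2 _ (hD.Ms p d hd)

/-- the functional inequality satisfied by the limit direction of near-minimisers -/
def Q (e : F) : Prop := ∀ n : ℕ, D.n₀ ≤ n → ∀ s,
  -1 - D.C * Real.exp (-D.c * n) * (1 + n + ‖D.b s‖) ≤
    inner ℝ e ((n : ℝ) • D.t + (D.Md ^ n) (D.b s))

/-- good subspaces -/
structure Good (B : Submodule ℝ F) : Prop where
  inv : D.Inv B
  perp : ∀ e ∈ B, inner ℝ D.t e = (0 : ℝ)
  q : ∀ e, D.Q e → e ∈ B

/-- orthogonal complement of invariant direction sets -/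
lemma inv_orth {B : Submodule ℝ F} (hB : D.Inv B) {β : 𝒲 → F} (hD : D.DirInv β) :
    D.Inv (B ⊓ (Submodule.span ℝ (Dir β))ᗮ) := by
  have key : ∀ e, e ∈ (Submodule.span ℝ (Dir β))ᗮ ↔ ∀ d ∈ Dir β, inner ℝ d e = (0 : ℝ) := by
    intro e
    rw [Submodule.mem_orthogonal]
    constructor
    · intro h d hd
      exact h d (Submodule.subset_span hd)
    · intro h u hu
      induction hu using Submodule.span_induction with
      | mem x hx => exact h x hx
      | zero => exact inner_zero_left _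
      | add x y _ _ hx hy => rw [inner_add_left, hx, hy, add_zero]
      | smul a x _ hx => rw [real_inner_smul_left, hx, mul_zero]
  have key2 : ∀ g : F ≃ₗᵢ[ℝ] F, (∀ d ∈ Dir β, g.symm d ∈ Dir β) →
      ∀ e ∈ (Submodule.span ℝ (Dir β))ᗮ, g e ∈ (Submodule.span ℝ (Dir β))ᗮ := by
    intro g hg e he
    rw [key] at he ⊢
    intro d hd
    rw [← LinearIsometryEquiv.apply_symm_apply g d, LinearIsometryEquiv.inner_map_map]
    exact he _ (hg d hd)
  refine ⟨fun p e he => ⟨hB.M p e he.1, key2 _ (hD.Ms p) e he.2⟩,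
    fun p e he => ⟨hB.Ms p e he.1, key2 _ ?_ e he.2⟩,
    fun e he => ⟨hB.Md e he.1, key2 _ hD.Mds e he.2⟩,
    fun e he => ⟨hB.Mds e he.1, key2 _ ?_ e he.2⟩⟩
  · intro d hd
    rw [LinearIsometryEquiv.symm_symm]
    exact hD.M p d hd
  · intro d hd
    rw [LinearIsometryEquiv.symm_symm]
    exact hD.Md d hd

lemma mem_orth_iff (S : Set F) (e : F) :
    e ∈ (Submodule.span ℝ S)ᗮ ↔ ∀ d ∈ S, inner ℝ d e = (0 : ℝ) := by
  rw [Submodule.mem_orthogonal]
  constructor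
  · intro h d hd
    exact h d (Submodule.subset_span hd)
  · intro h u hu
    induction hu using Submodule.span_induction with
    | mem x hx => exact h x hx
    | zero => exact inner_zero_left _
    | add x y _ _ hx hy => rw [inner_add_left, hx, hy, add_zero]
    | smul a x _ hx => rw [real_inner_smul_left, hx, mul_zero]

lemma inv_top : D.Inv (⊤ : Submodule ℝ F) :=
  ⟨fun _ _ _ => trivial, fun _ _ _ => trivial, fun _ _ => trivial, fun _ _ => trivial⟩

/-- the direction of `t` -/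
lemma t_dir (ht : D.t ≠ 0) : ‖D.t‖⁻¹ • D.t ∈ Dir D.b := by
  have hD : D.DirInv D.b := D.dirInv_of (fun p j ε hε => D.inv0 p j ε hε)
  have hn : 0 < ‖D.t‖ := norm_pos_iff.2 ht
  obtain ⟨p⟩ := ‹Nonempty 𝒲›
  have h1 : D.M p (‖D.t‖⁻¹ • D.t) ∈ Dir D.b := by
    refine ⟨by rw [LinearIsometryEquiv.norm_map, norm_smul, norm_inv, norm_norm,
      inv_mul_cancel₀ hn.ne'], fun ε hε R => ?_⟩
    obtain ⟨N, hN⟩ := D.decay one_pos
    set K := 1 * (1 + ‖D.b p‖) + (‖D.b p‖ + ‖D.b p‖) with hK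
    obtain ⟨n, hn1⟩ := exists_nat_ge ((max R (K / ε)) / ‖D.t‖ + 1 + N + D.n₀)
    have hq : (0 : ℝ) ≤ max R (K / ε) := by
      have : 0 ≤ K := by positivity
      exact le_max_of_le_right (by positivity)
    have hq2 : (0 : ℝ) ≤ max R (K / ε) / ‖D.t‖ := by positivity
    have hnN : N ≤ n := by
      have : (N : ℝ) ≤ n := by
        have : (0 : ℝ) ≤ D.n₀ := Nat.cast_nonneg _
        linarith
      exact_mod_cast this
    have hn0 : D.n₀ ≤ n := by
      have : (D.n₀ : ℝ) ≤ n := by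
        have : (0 : ℝ) ≤ N := Nat.cast_nonneg _
        linarith
      exact_mod_cast this
    have hn2 : max R (K / ε) ≤ n * ‖D.t‖ := by
      have h3 : max R (K / ε) / ‖D.t‖ ≤ n := by
        have h4 : (0 : ℝ) ≤ N := Nat.cast_nonneg _
        have h5 : (0 : ℝ) ≤ D.n₀ := Nat.cast_nonneg _
        linarith
      rwa [div_le_iff₀ hn] at h3
    have hnpos : (0 : ℝ) < n := by
      have h4 : (0 : ℝ) ≤ N := Nat.cast_nonneg _
      have h5 : (0 : ℝ) ≤ D.n₀ := Nat.cast_nonneg _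
      linarith
    refine ⟨D.mul p n p, n * ‖D.t‖, (le_max_left _ _).trans hn2, by positivity, ?_⟩
    have h2 := (D.hmul p n p hn0).trans (D.err_le (hN n hnN) (norm_nonneg (D.b p)))
    have h3 : D.b (D.mul p n p) - ((n : ℝ) * ‖D.t‖) • D.M p (‖D.t‖⁻¹ • D.t) =
        (D.b (D.mul p n p) - (D.b p + D.M p ((n : ℝ) • D.t + (D.Md ^ n) (D.b p)))) +
        (D.b p + D.M p ((D.Md ^ n) (D.b p))) := by
      rw [← map_smul, smul_smul, mul_assoc, mul_inv_cancel₀ hn.ne', mul_one, map_add]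
      abel
    rw [h3]
    refine (norm_add_le _ _).trans ?_
    have h4 : ‖D.b p + D.M p ((D.Md ^ n) (D.b p))‖ ≤ ‖D.b p‖ + ‖D.b p‖ := by
      refine (norm_add_le _ _).trans ?_
      rw [LinearIsometryEquiv.norm_map, LinearIsometryEquiv.norm_map]
    have h5 : K ≤ ε * (n * ‖D.t‖) := by
      have h6 : K / ε ≤ n * ‖D.t‖ := (le_max_right _ _).trans hn2
      rw [div_le_iff₀ hε] at h6
      linarith
    linarith
  have h2 := hD.Ms p _ h1
  rwa [LinearIsometryEquiv.symm_apply_apply] at h2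

/-- the first good subspace -/
lemma exists_good : ∃ B : Submodule ℝ F, D.Good B := by
  have hD : D.DirInv D.b := D.dirInv_of (fun p j ε hε => D.inv0 p j ε hε)
  refine ⟨⊤ ⊓ (Submodule.span ℝ (Dir D.b))ᗮ, D.inv_orth D.inv_top hD, ?_, ?_⟩
  · intro e he
    have he2 := (mem_orth_iff _ _).1 he.2
    by_cases ht : D.t = 0
    · rw [ht, inner_zero_left]
    · have h1 := he2 _ (D.t_dir ht)
      rw [real_inner_smul_left] at h1
      rcases mul_eq_zero.1 h1 with h2 | h2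
      · exact absurd h2 (inv_ne_zero (norm_ne_zero_iff.2 ht))
      · exact h2
  · intro e he
    refine ⟨trivial, (mem_orth_iff _ _).2 (fun d hd => ?_)⟩
    have h1 : ∀ d ∈ Dir D.b, 0 ≤ inner ℝ d e := by
      intro d hd
      refine Dir.inner_nonneg (fun ε hε => ?_) hd
      obtain ⟨N, hN⟩ := D.decay (half_pos hε)
      set ε' := ε / (2 * (1 + ‖e‖)) with hε'
      have hε'0 : 0 < ε' := by positivity
      obtain ⟨n, hn, hv⟩ := recur D.Md hε'0 (max N D.n₀)
      have hnN : N ≤ n := (le_max_left _ _).trans hn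
      have hn0 : D.n₀ ≤ n := (le_max_right _ _).trans hn
      refine ⟨1 + ε / 2 + |n * inner ℝ e D.t|, fun w => ?_⟩
      have h2 := he n hn0 w
      have h3 := D.err_le (hN n hnN) (norm_nonneg (D.b w))
      rw [inner_add_right, real_inner_smul_right] at h2
      have h4 : inner ℝ e ((D.Md ^ n) (D.b w)) =
          inner ℝ e ((D.Md ^ n) (D.b w) - D.b w) + inner ℝ (D.b w) e := by
        rw [real_inner_comm e (D.b w), ← inner_add_right]; congr 1; abel
      have h5 : inner ℝ e ((D.Md ^ n) (D.b w) - D.b w) ≤ ε / 2 * ‖D.b w‖ := by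
        refine (real_inner_le_norm _ _).trans ?_
        have h6 := mul_le_mul_of_nonneg_left (hv (D.b w)) (norm_nonneg e)
        have h7 : ‖e‖ * (ε' * ‖D.b w‖) ≤ ε / 2 * ‖D.b w‖ := by
          have h8 : ‖e‖ * ε' ≤ ε / 2 := by
            rw [hε', mul_div_assoc', div_le_div_iff₀ (by positivity) (by positivity)]
            nlinarith [norm_nonneg e]
          calc ‖e‖ * (ε' * ‖D.b w‖) = ‖e‖ * ε' * ‖D.b w‖ := by ring
            _ ≤ ε / 2 * ‖D.b w‖ := mul_le_mul_of_nonneg_right h8 (norm_nonneg _)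
        exact h6.trans h7
      have h9 := le_abs_self (n * inner ℝ e D.t)
      linarith
    have h2 := D.polar_eq (B := ⊤) D.inv_top hD (fun _ _ _ => rfl) (fun _ => le_rfl)
      (e := -e) trivial (fun d hd => by rw [inner_neg_right]; linarith [h1 d hd]) hd
    rw [inner_neg_right, neg_eq_zero] at h2
    exact h2

lemma Q.inner_ge {e : F} (he : D.Q e) (ht : inner ℝ D.t e = (0 : ℝ)) (w : 𝒲) :
    -1 ≤ inner ℝ e (D.b w) := by
  refine le_of_forall_pos_le_add (fun ε hε => ?_)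
  have hpos : 0 < ε / (2 * (1 + ‖D.b w‖)) := by positivity
  obtain ⟨N, hN⟩ := D.decay hpos
  have hpos2 : 0 < ε / (2 * (1 + ‖e‖) * (1 + ‖D.b w‖)) := by positivity
  obtain ⟨n, hn, hv⟩ := recur D.Md hpos2 (max N D.n₀)
  have hnN : N ≤ n := (le_max_left _ _).trans hn
  have hn0 : D.n₀ ≤ n := (le_max_right _ _).trans hn
  have h2 := he n hn0 w
  have h3 := D.err_le (hN n hnN) (norm_nonneg (D.b w))
  have h3' : ε / (2 * (1 + ‖D.b w‖)) * (1 + ‖D.b w‖) = ε / 2 := by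
    field_simp
  rw [h3'] at h3
  rw [inner_add_right, real_inner_smul_right, real_inner_comm, ht, mul_zero, zero_add] at h2
  have h4 : inner ℝ e ((D.Md ^ n) (D.b w)) =
      inner ℝ e ((D.Md ^ n) (D.b w) - D.b w) + inner ℝ e (D.b w) := by
    rw [← inner_add_right]; congr 1; abel
  have h5 : inner ℝ e ((D.Md ^ n) (D.b w) - D.b w) ≤ ε / 2 := by
    refine (real_inner_le_norm _ _).trans ?_
    have h6 := mul_le_mul_of_nonneg_left (hv (D.b w)) (norm_nonneg e)
    have h7 : ‖e‖ * (ε / (2 * (1 + ‖e‖) * (1 + ‖D.b w‖)) * ‖D.b w‖) ≤ ε / 2 := by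
      have h8 : ‖e‖ * (ε / (2 * (1 + ‖e‖) * (1 + ‖D.b w‖)) * ‖D.b w‖) =
          ε / 2 * ((‖e‖ / (1 + ‖e‖)) * (‖D.b w‖ / (1 + ‖D.b w‖))) := by
        field_simp
      rw [h8]
      have h9 : ‖e‖ / (1 + ‖e‖) ≤ 1 := by
        rw [div_le_one (by positivity)]; linarith
      have h10 : ‖D.b w‖ / (1 + ‖D.b w‖) ≤ 1 := by
        rw [div_le_one (by positivity)]; linarith
      have h11 : (‖e‖ / (1 + ‖e‖)) * (‖D.b w‖ / (1 + ‖D.b w‖)) ≤ 1 :=
        mul_le_one₀ h9 (by positivity) h10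
      nlinarith
    exact h6.trans h7
  linarith

/-- the descent step -/
lemma exists_smaller {B : Submodule ℝ F} (hB : D.Good B)
    (hunb : ∀ k : ℕ, ∃ w, (k : ℝ) ≤ ‖D.β B w‖) : ∃ B' : Submodule ℝ F, D.Good B' ∧ B' < B := by
  have hD : D.DirInv (D.β B) := D.dirInv_of (fun p j ε hε => D.inv1 hB.inv hB.perp p j ε hε)
  refine ⟨B ⊓ (Submodule.span ℝ (Dir (D.β B)))ᗮ, ⟨D.inv_orth hB.inv hD,
    fun e he => hB.perp e he.1, fun e he => ⟨hB.q e he, ?_⟩⟩, ?_⟩
  · refine (mem_orth_iff _ _).2 (fun d hd => ?_)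
    have heB := hB.q e he
    have h1 : ∀ d ∈ Dir (D.β B), 0 ≤ inner ℝ d e := by
      intro d hd
      refine Dir.inner_nonneg (fun ε hε => ⟨1, fun w => ?_⟩) hd
      have h2 := Q.inner_ge D he (hB.perp e heB) w
      have h3 : inner ℝ (D.β B w) e = inner ℝ (D.b w) e := inner_proj B _ _ heB
      rw [h3, real_inner_comm]
      have := norm_nonneg (D.β B w)
      nlinarith
    have h2 := D.polar_eq (B := B) hB.inv hD (fun w z hz => inner_proj B _ _ hz)
      (fun w => norm_proj_le B _) (e := -e) (B.neg_mem heB)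
      (fun d hd => by rw [inner_neg_right]; linarith [h1 d hd]) hd
    rw [inner_neg_right, neg_eq_zero] at h2
    exact h2
  · choose w hw using hunb
    obtain ⟨d, hd, -⟩ := Dir.exists_of_seq w hw 0 0 (fun k _ => by simp)
    refine lt_of_le_of_ne inf_le_left (fun heq => ?_)
    have hdB : d ∈ B := by
      have hcl : IsClosed (B : Set F) := Submodule.closed_of_finiteDimensional B
      have : d ∈ closure (B : Set F) := by
        rw [Metric.mem_closure_iff]
        intro ε hε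
        obtain ⟨w, r, -, hr0, hw⟩ := hd.2 (ε / 2) (by positivity) 0
        refine ⟨r⁻¹ • D.β B w, B.smul_mem _ (Submodule.starProjection_apply_mem _ _), ?_⟩
        rw [dist_eq_norm]
        have h1 : d - r⁻¹ • D.β B w = -(r⁻¹ • (D.β B w - r • d)) := by
          rw [smul_sub, smul_smul, inv_mul_cancel₀ hr0.ne', one_smul]; abel
        rw [h1, norm_neg, norm_smul, norm_inv, Real.norm_eq_abs, abs_of_pos hr0]
        have h2 : r⁻¹ * ‖D.β B w - r • d‖ ≤ r⁻¹ * (ε / 2 * r) :=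
          mul_le_mul_of_nonneg_left hw (by positivity)
        have h3 : r⁻¹ * (ε / 2 * r) = ε / 2 := by field_simp
        linarith
      rwa [hcl.closure_eq] at this
    rw [← heq] at hdB
    have h1 := (mem_orth_iff _ _).1 hdB.2 d hd
    rw [real_inner_self_eq_norm_sq, hd.1] at h1
    norm_num at h1

/-- a good subspace on which the projection of `b` is bounded -/
lemma exists_bounded : ∃ B : Submodule ℝ F, D.Good B ∧ ∃ R₀ : ℝ, ∀ w, ‖D.β B w‖ ≤ R₀ := by
  by_contra hcon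
  push Not at hcon
  have key : ∀ n : ℕ, ∀ B : Submodule ℝ F, D.Good B → Module.finrank ℝ B ≤ n → False := by
    intro n
    induction n with
    | zero =>
      intro B hB hn
      obtain ⟨B', hB', hlt⟩ := D.exists_smaller hB (fun k => by
        obtain ⟨w, hw⟩ := hcon B hB k
        exact ⟨w, hw.le⟩)
      have := Submodule.finrank_lt_finrank_of_lt hlt
      omega
    | succ n ih =>
      intro B hB hn
      obtain ⟨B', hB', hlt⟩ := D.exists_smaller hB (fun k => by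
        obtain ⟨w, hw⟩ := hcon B hB k
        exact ⟨w, hw.le⟩)
      have := Submodule.finrank_lt_finrank_of_lt hlt
      exact ih B' hB' (by omega)
  obtain ⟨B, hB⟩ := D.exists_good
  exact key _ B hB le_rfl

lemma size_unbounded (k : ℝ) : ∃ w, k ≤ D.size w := by
  obtain ⟨p⟩ := ‹Nonempty 𝒲›
  have h : ∀ n : ℕ, ∃ w, (n : ℝ) ≤ D.size w := by
    intro n
    induction n with
    | zero => exact ⟨p, by rw [Nat.cast_zero]; linarith [D.hsize' p]⟩
    | succ n ih =>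
      obtain ⟨w, hw⟩ := ih
      refine ⟨D.mul p D.n₀ w, ?_⟩
      have h1 := D.hsize p D.n₀ w le_rfl
      have h2 := D.hsize' p
      push_cast
      linarith
  obtain ⟨n, hn⟩ := exists_nat_ge k
  obtain ⟨w, hw⟩ := h n
  exact ⟨w, hn.trans hw⟩

lemma near_min {S : Set 𝒲} (hS : S.Nonempty) (f : 𝒲 → ℝ) (hf : ∀ w, 0 ≤ f w) :
    ∃ w ∈ S, ∀ w' ∈ S, f w ≤ f w' + 1 := by
  have hne : (f '' S).Nonempty := hS.image f
  have hbd : BddBelow (f '' S) := ⟨0, by rintro _ ⟨w, -, rfl⟩; exact hf w⟩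
  obtain ⟨_, ⟨w, hw, rfl⟩, hlt⟩ := exists_lt_of_csInf_lt hne (lt_add_one (sInf (f '' S)))
  refine ⟨w, hw, fun w' hw' => ?_⟩
  have := csInf_le hbd ⟨w', hw', rfl⟩
  linarith

lemma final (hcon : ∀ R : ℝ, ∃ k : ℝ, ∀ w, k ≤ D.size w → R < ‖D.b w‖) : False := by
  obtain ⟨B, hB, R₀, hR₀⟩ := D.exists_bounded
  let α : 𝒲 → F := fun w => D.b w - D.β B w
  have hα_norm : ∀ v : F, ‖v - B.starProjection v‖ ≤ ‖v‖ := by
    intro v
    rw [← Submodule.starProjection_orthogonal_val]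
    exact norm_proj_le _ v
  have hstep : ∀ j : ℕ, ∃ w, (j : ℝ) < ‖α w‖ ∧
      ∀ n, D.n₀ ≤ n → ∀ s, ‖α w‖ ≤ ‖α (D.mul w n s)‖ + 1 := by
    intro j
    obtain ⟨k, hk⟩ := hcon (j + R₀)
    obtain ⟨w1, hw1⟩ := D.size_unbounded k
    obtain ⟨w, hw, hmin⟩ := near_min (S := {w | k ≤ D.size w}) ⟨w1, hw1⟩ (fun w => ‖α w‖)
      (fun w => norm_nonneg _)
    refine ⟨w, ?_, fun n hn s => hmin _ ?_⟩
    · have h1 := hk w hw
      have h2 : ‖D.b w‖ ≤ ‖α w‖ + ‖D.β B w‖ := by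
        have := norm_add_le (α w) (D.β B w)
        simpa [α] using this
      linarith [hR₀ w]
    · have h1 := D.hsize w n s hn
      have h2 := D.hsize' s
      have h3 : k ≤ D.size w := hw
      show k ≤ D.size (D.mul w n s)
      linarith
  choose w hw1 hw2 using hstep
  have hρ : ∀ j, 0 < ‖α (w j)‖ := fun j => lt_of_le_of_lt (Nat.cast_nonneg j) (hw1 j)
  let e : ℕ → F := fun j => (D.M (w j)).symm (‖α (w j)‖⁻¹ • α (w j))
  have he1 : ∀ j, ‖e j‖ = 1 := by
    intro j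
    show ‖(D.M (w j)).symm (‖α (w j)‖⁻¹ • α (w j))‖ = 1
    rw [LinearIsometryEquiv.norm_map, norm_smul, norm_inv, norm_norm, inv_mul_cancel₀ (hρ j).ne']
  have heM : ∀ j, α (w j) = D.M (w j) (‖α (w j)‖ • e j) := by
    intro j
    show α (w j) = D.M (w j) (‖α (w j)‖ • (D.M (w j)).symm (‖α (w j)‖⁻¹ • α (w j)))
    rw [map_smul, LinearIsometryEquiv.apply_symm_apply, smul_smul, mul_inv_cancel₀ (hρ j).ne',
      one_smul]
  have heB : ∀ j, ∀ y ∈ B, inner ℝ (e j) y = (0 : ℝ) := by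
    intro j y hy
    show inner ℝ ((D.M (w j)).symm (‖α (w j)‖⁻¹ • α (w j))) y = (0 : ℝ)
    rw [← LinearIsometryEquiv.inner_map_map (D.M (w j)), LinearIsometryEquiv.apply_symm_apply,
      real_inner_smul_left]
    have : inner ℝ (α (w j)) (D.M (w j) y) = (0 : ℝ) :=
      Submodule.starProjection_inner_eq_zero _ _ (hB.inv.M _ y hy)
    rw [this, mul_zero]
  obtain ⟨e', -, φ, hφ, hlim⟩ := tendsto_subseq_of_bounded
    (Metric.isBounded_closedBall (x := (0 : F)) (r := 1)) (x := e)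
    (fun k => by rw [mem_closedBall_zero_iff]; exact (he1 k).le)
  have he'1 : ‖e'‖ = 1 := by
    have h1 : Tendsto (fun k => ‖(e ∘ φ) k‖) atTop (𝓝 ‖e'‖) := hlim.norm
    have h2 : (fun k => ‖(e ∘ φ) k‖) = fun _ => (1 : ℝ) := by
      ext k; exact he1 _
    rw [h2] at h1
    exact (tendsto_nhds_unique tendsto_const_nhds h1).symm
  have he'B : ∀ y ∈ B, inner ℝ e' y = (0 : ℝ) := by
    intro y hy
    have h1 : Tendsto (fun k => inner ℝ ((e ∘ φ) k) y) atTop (𝓝 (inner ℝ e' y)) :=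
      hlim.inner tendsto_const_nhds
    have h2 : (fun k => inner ℝ ((e ∘ φ) k) y) = fun _ => (0 : ℝ) := by
      ext k; exact heB _ y hy
    rw [h2] at h1
    exact (tendsto_nhds_unique tendsto_const_nhds h1).symm
  have hQ : D.Q e' := by
    intro n hn s
    set err : ℝ := D.C * Real.exp (-D.c * n) * (1 + n + ‖D.b s‖) with herr
    have herr0 : 0 ≤ err := by
      have := D.hC
      positivity
    set v : F := (n : ℝ) • D.t + (D.Md ^ n) (D.b s) with hv
    set y : F := v - B.starProjection v with hy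
    have key : ∀ j : ℕ, 1 + err ≤ j → -1 - err - ‖y‖ ^ 2 / (2 * j) ≤ inner ℝ (e j) y := by
      intro j hj
      have hj0 : (0 : ℝ) < j := by linarith
      have h1 := hα_norm (D.b (D.mul (w j) n s) - (D.b (w j) + D.M (w j) v))
      have h2 := h1.trans (D.hmul (w j) n s hn)
      have h3 : D.b (D.mul (w j) n s) - (D.b (w j) + D.M (w j) v) -
          B.starProjection (D.b (D.mul (w j) n s) - (D.b (w j) + D.M (w j) v)) =
          α (D.mul (w j) n s) - (α (w j) + D.M (w j) y) := by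
        rw [map_sub B.starProjection, map_add B.starProjection, hB.inv.proj_M D (w j) v, hy,
          map_sub (D.M (w j))]
        show _ = (D.b (D.mul (w j) n s) - B.starProjection (D.b (D.mul (w j) n s))) -
          ((D.b (w j) - B.starProjection (D.b (w j))) + _)
        abel
      rw [h3] at h2
      have h4 := hw2 j n hn s
      have h5 : ‖α (D.mul (w j) n s)‖ ≤ err + ‖α (w j) + D.M (w j) y‖ := by
        have := norm_add_le (α (D.mul (w j) n s) - (α (w j) + D.M (w j) y))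
          (α (w j) + D.M (w j) y)
        rw [sub_add_cancel] at this
        linarith
      have h6 : α (w j) + D.M (w j) y = D.M (w j) (‖α (w j)‖ • e j + y) := by
        rw [map_add, ← heM]
      rw [h6, LinearIsometryEquiv.norm_map] at h5
      set ρ := ‖α (w j)‖ with hρdef
      have hρj : (j : ℝ) < ρ := hw1 j
      have h7 : ρ - 1 - err ≤ ‖ρ • e j + y‖ := by linarith
      have h8 : 0 ≤ ρ - 1 - err := by linarith
      have h9 : (ρ - 1 - err) ^ 2 ≤ ‖ρ • e j + y‖ ^ 2 := pow_le_pow_left₀ h8 h7 2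
      rw [@norm_add_sq_real, norm_smul, he1, mul_one, Real.norm_eq_abs, sq_abs,
        real_inner_smul_left] at h9
      have h10 : 0 ≤ 2 * ρ * inner ℝ (e j) y + ‖y‖ ^ 2 + 2 * ρ * (1 + err) := by
        nlinarith [sq_nonneg (1 + err)]
      have h11 : -1 - err - ‖y‖ ^ 2 / (2 * ρ) ≤ inner ℝ (e j) y := by
        have hρ0 : 0 < 2 * ρ := by linarith
        have h12 : ‖y‖ ^ 2 / (2 * ρ) * (2 * ρ) = ‖y‖ ^ 2 := div_mul_cancel₀ _ hρ0.ne'
        by_contra hcon2
        rw [not_le] at hcon2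
        have h13 := mul_lt_mul_of_pos_right hcon2 hρ0
        nlinarith
      have h14 : ‖y‖ ^ 2 / (2 * ρ) ≤ ‖y‖ ^ 2 / (2 * j) := by
        apply div_le_div_of_nonneg_left (sq_nonneg _) (by positivity)
        linarith
      linarith
    have h1 : Tendsto (fun k => inner ℝ ((e ∘ φ) k) y) atTop (𝓝 (inner ℝ e' y)) :=
      hlim.inner tendsto_const_nhds
    have h2 : Tendsto (fun k => -1 - err - ‖y‖ ^ 2 / (2 * (φ k : ℝ))) atTop
        (𝓝 (-1 - err - 0)) := by
      refine Tendsto.sub tendsto_const_nhds ?_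
      apply Tendsto.div_atTop tendsto_const_nhds
      apply Tendsto.const_mul_atTop (by norm_num)
      exact tendsto_natCast_atTop_atTop.comp hφ.tendsto_atTop
    have h3 : -1 - err - 0 ≤ inner ℝ e' y := by
      refine le_of_tendsto_of_tendsto h2 h1 ?_
      obtain ⟨N, hN⟩ := exists_nat_ge (1 + err)
      filter_upwards [eventually_ge_atTop N] with k hk
      refine key (φ k) ?_
      have h4 : (N : ℝ) ≤ (φ k : ℝ) := by exact_mod_cast hk.trans (hφ.id_le k)
      linarith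
    have h4 : inner ℝ e' y = inner ℝ e' v := by
      rw [hy, inner_sub_right, he'B _ (Submodule.starProjection_apply_mem _ _), sub_zero]
    rw [h4] at h3
    linarith
  have h1 := he'B e' (hB.q e' hQ)
  rw [real_inner_self_eq_norm_sq, he'1] at h1
  norm_num at h1

end SD

end Steer

/-- Abstract steering lemma.  `𝒲` is a semigroup of words; `(m w, b w)` its almost multiplicative
cocycle into the isometries of `F`; `mul p n w` stands for the word `p δⁿ w` (`n ≥ n₀`), where `δ`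
acts on `F` by the isometry `v ↦ md v + t`.  `FL` are the common fixed vectors of the `m w`. -/
theorem steering {F : Type*} [NormedAddCommGroup F] [InnerProductSpace ℝ F]
    [FiniteDimensional ℝ F] {𝒲 : Type*} [Nonempty 𝒲]
    (b : 𝒲 → F) (m : 𝒲 → (F →L[ℝ] F)) (size : 𝒲 → ℝ) (mul : 𝒲 → ℕ → 𝒲 → 𝒲)
    (md : F →L[ℝ] F) (t : F) (ht : md t = t) (C c : ℝ) (hc : 0 < c) (n₀ : ℕ)
    (hm : ∀ w v, ‖m w v‖ = ‖v‖) (hmd : ∀ v, ‖md v‖ = ‖v‖)
    (hmul : ∀ p n w, n₀ ≤ n → ‖b (mul p n w) - (b p + m p ((n : ℝ) • t + (md ^ n) (b w)))‖ ≤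
      C * Real.exp (-c * n) * (1 + n + ‖b w‖))
    (FL : Submodule ℝ F) (hFL : ∀ v, v ∈ FL ↔ ∀ p, m p v = v)
    (hL : ∀ e ∈ FL, ∀ p n w, n₀ ≤ n → |inner ℝ (b (mul p n w)) e -
      (inner ℝ (b p) e + n * inner ℝ t e + inner ℝ (b w) e)| ≤ C * ‖e‖)
    (hpos : ∀ e ∈ FL, ‖e‖ = 1 → ∀ R : ℝ, ∃ w, R ≤ inner ℝ (b w) e)
    (hsize : ∀ p n w, n₀ ≤ n → size p + size w ≤ size (mul p n w)) (hsize' : ∀ w, 1 ≤ size w) :
    ∃ R : ℝ, ∀ k : ℝ, ∃ w, k ≤ size w ∧ ‖b w‖ ≤ R := by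
  classical
  by_contra hcon
  push Not at hcon
  let M : 𝒲 → (F ≃ₗᵢ[ℝ] F) := fun w =>
    LinearIsometry.toLinearIsometryEquiv ⟨(m w : F →ₗ[ℝ] F), hm w⟩ rfl
  let Md : F ≃ₗᵢ[ℝ] F := LinearIsometry.toLinearIsometryEquiv ⟨(md : F →ₗ[ℝ] F), hmd⟩ rfl
  have hM : ∀ w v, M w v = m w v := fun w v => rfl
  have hMd : ∀ v, Md v = md v := fun v => rfl
  have hMdp : ∀ n v, (Md ^ n) v = (md ^ n) v := by
    intro n
    induction n with
    | zero => intro v; simp
    | succ n ih =>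
      intro v
      rw [pow_succ, pow_succ, LinearIsometryEquiv.coe_mul, Function.comp_apply, hMd, ih,
        mul_apply_eq_comp]
  obtain ⟨p⟩ := ‹Nonempty 𝒲›
  have hC : 0 ≤ C := by
    have h1 := (norm_nonneg _).trans (hmul p n₀ p le_rfl)
    by_contra hneg
    rw [not_le] at hneg
    have h2 : 0 < Real.exp (-c * n₀) * (1 + n₀ + ‖b p‖) := by positivity
    nlinarith
  have : Nonempty 𝒲 := ⟨p⟩
  refine Steer.SD.final (F := F) (𝒲 := 𝒲)
    { b := b, M := M, size := size, mul := mul, Md := Md, t := t, ht := ht, C := C, hC := hC,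
      c := c, hc := hc, n₀ := n₀
      hmul := fun p n w hn => by
        rw [hM, hMdp]
        exact hmul p n w hn
      hL := fun e he => hL e ((hFL e).2 he)
      hpos := fun e he => hpos e ((hFL e).2 he)
      hsize := hsize, hsize' := hsize' } hcon

end Pool.Agent.Lib.MP_d9b062_al

end
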