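import Mathlib
import Pool.Agent.Lib.MP_d9b062_al_m.MBasic
import Pool.Agent.Lib.MP_d9b062_al_m.MRat
import Pool.Agent.Lib.MP_d9b062_al_m.MSteer

/-!
MP_d9b062_al: merged modules (to shorten the build).
-/

set_option autoImplicit false

/-! ## from `MP_d9b062_al_h46.Contr` -/

section
/-!
# Contraction factors of affine maps
-/

namespace Pool.Agent.Lib.MP_d9b062_al

open Filter
open scoped Topology

namespace Aff

variable {E : Type*} [NormedAddCommGroup E] [NormedSpace ℝ E]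

lemma pow_eq46 (l : (E →L[ℝ] E)ˣ) {t : E} (ht : (l : E →L[ℝ] E) t = t) (n : ℕ) :
    (⟨l, t⟩ : Aff E) ^ n = ⟨l ^ n, (n : ℝ) • t⟩ := by
  induction n with
  | zero => ext1 <;> simp
  | succ n ih =>
    rw [pow_succ', ih]
    ext1
    · rw [mul_lin, pow_succ']
    · rw [mul_tr]
      change t + (l : E →L[ℝ] E) ((n : ℝ) • t) = ((n + 1 : ℕ) : ℝ) • t
      rw [map_smul, ht, Nat.cast_add, Nat.cast_one, add_smul, one_smul, add_comm]

end Aff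

namespace Cell

variable {N : ℕ} {G : Subgroup (Op N)ˣ} {ι : Type} [Fintype ι] [LinearOrder ι] (c : Cell G ι)

/-- sign -/
noncomputable def sg46 (x : ℝ) : ℝ := if x < 0 then -1 else 1

/-- contraction factor on the block `i` -/
noncomputable def eX46 (X : ι → ℝ) (l : Op N) (i : ι) : ℝ :=
  if i = c.o then 0 else Real.exp (-(sg46 (X i) * c.tau l i))

lemma eX_nonneg46 (X : ι → ℝ) (l : Op N) (i : ι) : 0 ≤ c.eX46 X l i := by
  rw [eX46]; split_ifs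
  · exact le_rfl
  · exact (Real.exp_pos _).le

lemma eX_mul46 {X : ι → ℝ} {l l' : (Op N)ˣ} (hl : l ∈ c.L) (hl' : l' ∈ c.L) (i : ι) :
    c.eX46 X ((l : Op N) * l') i = c.eX46 X (l : Op N) i * c.eX46 X (l' : Op N) i := by
  rw [eX46, eX46, eX46]
  split_ifs with h
  · rw [mul_zero]
  · rw [c.tau_mul hl hl', ← Real.exp_add, Pi.add_apply]
    congr 1; ring

/-- contraction factor -/
noncomputable def kA46 (X : ι → ℝ) (l : Op N) : ℝ := c.kap l + ∑ i, c.eX46 X l i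

lemma sum_eX_nonneg46 (X : ι → ℝ) (l : Op N) : 0 ≤ ∑ i, c.eX46 X l i :=
  Finset.sum_nonneg fun i _ => c.eX_nonneg46 X l i

lemma kap_le_kA46 (X : ι → ℝ) (l : Op N) : c.kap l ≤ c.kA46 X l :=
  le_add_of_nonneg_right (c.sum_eX_nonneg46 X l)

lemma sum_eX_le_kA46 (X : ι → ℝ) (l : Op N) : ∑ i, c.eX46 X l i ≤ c.kA46 X l :=
  le_add_of_nonneg_left (c.kap_nonneg l)

lemma kA_pos46 (X : ι → ℝ) (l : Op N) : 0 < c.kA46 X l := by
  obtain ⟨i, hi⟩ := c.exists_ne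
  have h1 : 0 < c.eX46 X l i := by
    rw [eX46, if_neg hi]; exact Real.exp_pos _
  have h2 : c.eX46 X l i ≤ ∑ j, c.eX46 X l j :=
    Finset.single_le_sum (fun j _ => c.eX_nonneg46 X l j) (Finset.mem_univ i)
  have h3 := c.sum_eX_le_kA46 X l
  linarith

lemma kA_mul46 {X : ι → ℝ} {l l' : (Op N)ˣ} (hl : l ∈ c.L) (hl' : l' ∈ c.L) :
    c.kA46 X ((l : Op N) * l') ≤ c.kA46 X (l : Op N) * c.kA46 X (l' : Op N) := by
  have h1 := c.kap_mul hl hl'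
  have h2 : ∑ i, c.eX46 X ((l : Op N) * l') i ≤
      (∑ i, c.eX46 X (l : Op N) i) * ∑ i, c.eX46 X (l' : Op N) i := by
    rw [Finset.sum_mul]
    refine Finset.sum_le_sum fun i hi => ?_
    rw [c.eX_mul46 hl hl']
    exact mul_le_mul_of_nonneg_left
      (Finset.single_le_sum (fun j _ => c.eX_nonneg46 X (l' : Op N) j) hi) (c.eX_nonneg46 X _ i)
  have h3 := c.kap_nonneg (l : Op N)
  have h4 := c.kap_nonneg (l' : Op N)
  have h5 := c.sum_eX_nonneg46 X (l : Op N)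
  have h6 := c.sum_eX_nonneg46 X (l' : Op N)
  rw [kA46, kA46, kA46]
  nlinarith [mul_nonneg h3 h6, mul_nonneg h5 h4]

/-- contraction factor of a block diagonal affine map -/
noncomputable def kk46 (X : ι → ℝ) (D : Aff (V N)) : ℝ := (1 + ‖D.tr‖) * c.kA46 X (D.lin : Op N)

lemma kk_pos46 (X : ι → ℝ) (D : Aff (V N)) : 0 < c.kk46 X D :=
  mul_pos (by positivity) (c.kA_pos46 X _)

lemma kA_le_kk46 (X : ι → ℝ) (D : Aff (V N)) : c.kA46 X (D.lin : Op N) ≤ c.kk46 X D := by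
  rw [kk46]
  have := c.kA_pos46 X (D.lin : Op N)
  nlinarith [norm_nonneg D.tr]

lemma mem_Mo46 {D : Aff (V N)} : D ∈ c.Mo46 ↔ D.lin ∈ c.L ∧ c.P c.o D.tr = D.tr := Iff.rfl

lemma mem_Um46 {X : ι → ℝ} (hX : c.Sgn46 X) {D : Aff (V N)} :
    D ∈ c.Um46 hX ↔ D.lin ∈ c.Nm ∧ ∀ i, 0 ≤ X i → c.P i D.tr = 0 := Iff.rfl

lemma mem_Up46 {X : ι → ℝ} (hX : c.Sgn46 X) {D : Aff (V N)} :
    D ∈ c.Up46 hX ↔ D.lin ∈ c.Np ∧ ∀ i, X i ≤ 0 → c.P i D.tr = 0 := Iff.rfl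

lemma kk_mul46 {X : ι → ℝ} {D D' : Aff (V N)} (hD : D ∈ c.Mo46) (hD' : D' ∈ c.Mo46) :
    c.kk46 X (D * D') ≤ c.kk46 X D * c.kk46 X D' := by
  have h1 := c.kA_mul46 (X := X) hD.1 hD'.1
  have h2 : ‖(D * D').tr‖ ≤ ‖D.tr‖ + ‖D'.tr‖ := by
    rw [Aff.mul_tr]
    refine (norm_add_le _ _).trans (add_le_add le_rfl ?_)
    rw [c.norm_o hD.1 hD'.2]
  have h3 : 1 + ‖(D * D').tr‖ ≤ (1 + ‖D.tr‖) * (1 + ‖D'.tr‖) := by
    nlinarith [mul_nonneg (norm_nonneg D.tr) (norm_nonneg D'.tr)]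
  have h4 := c.kA_pos46 X (D.lin : Op N)
  have h5 := c.kA_pos46 X (D'.lin : Op N)
  calc c.kk46 X (D * D') = (1 + ‖(D * D').tr‖) * c.kA46 X ((D.lin : Op N) * D'.lin) := rfl
    _ ≤ ((1 + ‖D.tr‖) * (1 + ‖D'.tr‖)) * (c.kA46 X (D.lin : Op N) * c.kA46 X (D'.lin : Op N)) :=
        mul_le_mul h3 h1 (c.kA_pos46 X _).le (by positivity)
    _ = c.kk46 X D * c.kk46 X D' := by rw [kk46, kk46]; ring

lemma sg_neg46 {x : ℝ} (h : x < 0) : sg46 x = -1 := if_pos h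
lemma sg_pos46 {x : ℝ} (h : 0 < x) : sg46 x = 1 := if_neg (not_lt.mpr h.le)

lemma norm_L_apply_le46 {l : (Op N)ˣ} (v : V N) :
    ‖(l : Op N) v‖ ≤ ∑ i, ‖(l : Op N) (c.P i v)‖ := by
  have h : (l : Op N) v = ∑ i, (l : Op N) (c.P i v) := by
    rw [← map_sum, c.sum_P_apply]
  rw [h]
  exact norm_sum_le _ _

lemma norm_P_apply_le46 (i : ι) (v : V N) : ‖c.P i v‖ ≤ ‖v‖ := by
  calc ‖c.P i v‖ ≤ ‖c.P i‖ * ‖v‖ := ContinuousLinearMap.le_opNorm _ _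
    _ ≤ 1 * ‖v‖ := mul_le_mul_of_nonneg_right (c.norm_P_le i) (norm_nonneg _)
    _ = ‖v‖ := one_mul _

lemma L_apply_neg46 {X : ι → ℝ} (hX : c.Sgn46 X) {l : (Op N)ˣ} (hl : l ∈ c.L) {v : V N}
    (hv : ∀ i, 0 ≤ X i → c.P i v = 0) : ‖(l : Op N) v‖ ≤ (∑ i, c.eX46 X (l : Op N) i) * ‖v‖ := by
  refine (c.norm_L_apply_le46 v).trans ?_
  rw [Finset.sum_mul]
  refine Finset.sum_le_sum fun i _ => ?_
  by_cases hi : 0 ≤ X i
  · rw [hv i hi, map_zero, norm_zero]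
    exact mul_nonneg (c.eX_nonneg46 X _ i) (norm_nonneg _)
  · rw [not_le] at hi
    have hio : i ≠ c.o := fun h => by rw [h, hX.o] at hi; exact lt_irrefl _ hi
    rw [c.tau_spec hl, eX46, if_neg hio, sg_neg46 hi]
    refine mul_le_mul (le_of_eq ?_) (c.norm_P_apply_le46 i v) (norm_nonneg _) (Real.exp_pos _).le
    congr 1; ring

lemma L_inv_apply_pos46 {X : ι → ℝ} (hX : c.Sgn46 X) {l : (Op N)ˣ} (hl : l ∈ c.L) {v : V N}
    (hv : ∀ i, X i ≤ 0 → c.P i v = 0) :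
    ‖((l⁻¹ : (Op N)ˣ) : Op N) v‖ ≤ (∑ i, c.eX46 X (l : Op N) i) * ‖v‖ := by
  refine (c.norm_L_apply_le46 (l := l⁻¹) v).trans ?_
  rw [Finset.sum_mul]
  refine Finset.sum_le_sum fun i _ => ?_
  by_cases hi : X i ≤ 0
  · rw [hv i hi, map_zero, norm_zero]
    exact mul_nonneg (c.eX_nonneg46 X _ i) (norm_nonneg _)
  · rw [not_le] at hi
    have hio : i ≠ c.o := fun h => by rw [h, hX.o] at hi; exact lt_irrefl _ hi
    rw [c.tau_spec (c.L.inv_mem hl), eX46, if_neg hio, sg_pos46 hi, c.tau_inv hl]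
    refine mul_le_mul (le_of_eq ?_) (c.norm_P_apply_le46 i v) (norm_nonneg _) (Real.exp_pos _).le
    rw [Pi.neg_apply, one_mul]

lemma Nm_sub_o46 {X : ι → ℝ} (hX : c.Sgn46 X) {u : (Op N)ˣ} (hu : u ∈ c.Nm) {b : V N}
    (hb : c.P c.o b = b) : ∀ i, 0 ≤ X i → c.P i ((u : Op N) b - b) = 0 := by
  intro i hi
  rw [map_sub]
  have h1 : c.P i ((u : Op N) b) = (c.P i * (u : Op N) * c.P c.o) b := by
    change _ = c.P i ((u : Op N) (c.P c.o b)); rw [hb]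
  rw [h1]
  by_cases hio : i = c.o
  · subst hio
    rw [hu.2.1, sub_self]
  · have h2 : ¬ c.r i c.o := fun h => by
      have := hX.mono _ _ h
      rw [hX.o] at this; linarith
    rw [hu.2.2 i c.o hio h2]
    rw [← hb, c.P_P_ne46 hio, sub_zero]
    rfl

lemma Np_sub_o46 {X : ι → ℝ} (hX : c.Sgn46 X) {u : (Op N)ˣ} (hu : u ∈ c.Np) {b : V N}
    (hb : c.P c.o b = b) : ∀ i, X i ≤ 0 → c.P i ((u : Op N) b - b) = 0 := by
  intro i hi
  rw [map_sub]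
  have h1 : c.P i ((u : Op N) b) = (c.P i * (u : Op N) * c.P c.o) b := by
    change _ = c.P i ((u : Op N) (c.P c.o b)); rw [hb]
  rw [h1]
  by_cases hio : i = c.o
  · subst hio
    rw [hu.2.1, sub_self]
  · have h2 : ¬ c.r c.o i := fun h => by
      have := hX.mono _ _ h
      rw [hX.o] at this; linarith
    rw [hu.2.2 i c.o hio h2]
    rw [← hb, c.P_P_ne46 hio, sub_zero]
    rfl

lemma conj_mem_Nm46 {l y : (Op N)ˣ} (hl : l ∈ c.L) (hy : y ∈ c.Nm) : l * y * l⁻¹ ∈ c.Nm :=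
  ⟨G.mul_mem (G.mul_mem hl.1 hy.1) (G.inv_mem hl.1), by
    have := hy.2.conj hl.2
    simpa only [Units.val_mul] using this⟩

lemma conj_mem_Np46 {l x : (Op N)ˣ} (hl : l ∈ c.L) (hx : x ∈ c.Np) : l⁻¹ * x * l ∈ c.Np :=
  ⟨G.mul_mem (G.mul_mem (G.inv_mem hl.1) hx.1) hl.1, by
    have := hx.2.conj (l := l⁻¹) (c.L.inv_mem hl).2
    simpa only [Units.val_mul, inv_inv] using this⟩

lemma conj_Um_tr46 {D Y : Aff (V N)} :
    (D * Y * D⁻¹).tr = (D.lin : Op N) Y.tr -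
      (((D.lin * Y.lin * D.lin⁻¹ : (Op N)ˣ) : Op N) D.tr - D.tr) := by
  rw [Aff.mul_tr, Aff.mul_tr, Aff.mul_lin, Aff.inv_tr, map_neg]
  have : ((D.lin * Y.lin * D.lin⁻¹ : (Op N)ˣ) : Op N) D.tr =
      ((D.lin * Y.lin : (Op N)ˣ) : Op N) (((D.lin⁻¹ : (Op N)ˣ) : Op N) D.tr) := rfl
  rw [this]; abel

lemma conj_Up_tr46 {D Y : Aff (V N)} :
    (D⁻¹ * Y * D).tr = ((D.lin⁻¹ : (Op N)ˣ) : Op N) Y.tr +
      (((D.lin⁻¹ * Y.lin * D.lin : (Op N)ˣ) : Op N) (((D.lin⁻¹ : (Op N)ˣ) : Op N) D.tr) -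
        ((D.lin⁻¹ : (Op N)ˣ) : Op N) D.tr) := by
  rw [Aff.mul_tr, Aff.mul_tr, Aff.mul_lin, Aff.inv_tr, Aff.inv_lin]
  have : ((D.lin⁻¹ * Y.lin * D.lin : (Op N)ˣ) : Op N) (((D.lin⁻¹ : (Op N)ˣ) : Op N) D.tr) =
      ((D.lin⁻¹ * Y.lin : (Op N)ˣ) : Op N) D.tr := by
    have h : (D.lin : Op N) (((D.lin⁻¹ : (Op N)ˣ) : Op N) D.tr) = D.tr :=
      congrArg (fun T : Op N => T D.tr) (Units.mul_inv D.lin)
    change ((D.lin⁻¹ * Y.lin : (Op N)ˣ) : Op N) ((D.lin : Op N)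
      (((D.lin⁻¹ : (Op N)ˣ) : Op N) D.tr)) = _
    rw [h]
  rw [this]; abel

lemma conj_Um46 {X : ι → ℝ} (hX : c.Sgn46 X) {D Y : Aff (V N)} (hD : D ∈ c.Mo46)
    (hY : Y ∈ c.Um46 hX) : D * Y * D⁻¹ ∈ c.Um46 hX ∧ (D * Y * D⁻¹).nrm46 ≤ c.kk46 X D * Y.nrm46 := by
  have hu := c.conj_mem_Nm46 hD.1 hY.1
  constructor
  · refine ⟨hu, fun i hi => ?_⟩
    rw [conj_Um_tr46, map_sub, c.Nm_sub_o46 hX hu hD.2 i hi, sub_zero, c.L_comm46 hD.1, hY.2 i hi,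
      map_zero]
  · have h1 : ‖(((D * Y * D⁻¹).lin : (Op N)ˣ) : Op N) - 1‖ ≤
        c.kap (D.lin : Op N) * ‖(Y.lin : Op N) - 1‖ := by
      have := c.conj_Nm hD.1 hY.1.2
      exact this
    have h2 : ‖(D * Y * D⁻¹).tr‖ ≤ (∑ i, c.eX46 X (D.lin : Op N) i) * ‖Y.tr‖ +
        c.kap (D.lin : Op N) * ‖(Y.lin : Op N) - 1‖ * ‖D.tr‖ := by
      rw [conj_Um_tr46]
      refine (norm_sub_le _ _).trans (add_le_add (c.L_apply_neg46 hX hD.1 hY.2) ?_)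
      have h3 : ((D.lin * Y.lin * D.lin⁻¹ : (Op N)ˣ) : Op N) D.tr - D.tr =
          (((D.lin * Y.lin * D.lin⁻¹ : (Op N)ˣ) : Op N) - 1) D.tr := rfl
      rw [h3]
      exact (ContinuousLinearMap.le_opNorm _ _).trans
        (mul_le_mul_of_nonneg_right h1 (norm_nonneg _))
    have h4 := c.kap_nonneg (D.lin : Op N)
    have h5 := c.sum_eX_nonneg46 X (D.lin : Op N)
    have h6 : (D * Y * D⁻¹).nrm46 ≤ c.kap (D.lin : Op N) * ‖(Y.lin : Op N) - 1‖ +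
      ((∑ i, c.eX46 X (D.lin : Op N) i) * ‖Y.tr‖ +
        c.kap (D.lin : Op N) * ‖(Y.lin : Op N) - 1‖ * ‖D.tr‖) := add_le_add h1 h2
    refine h6.trans ?_
    rw [kk46, kA46, Aff.nrm46]
    have h7 := norm_nonneg ((Y.lin : Op N) - 1)
    have h8 := norm_nonneg Y.tr
    have h9 := norm_nonneg D.tr
    nlinarith [mul_nonneg h4 h8, mul_nonneg h5 h7, mul_nonneg (mul_nonneg h4 h8) h9,
      mul_nonneg (mul_nonneg h5 h7) h9, mul_nonneg (mul_nonneg h5 h8) h9]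

lemma conj_Up46 {X : ι → ℝ} (hX : c.Sgn46 X) {D Y : Aff (V N)} (hD : D ∈ c.Mo46)
    (hY : Y ∈ c.Up46 hX) : D⁻¹ * Y * D ∈ c.Up46 hX ∧ (D⁻¹ * Y * D).nrm46 ≤ c.kk46 X D * Y.nrm46 := by
  have hu := c.conj_mem_Np46 hD.1 hY.1
  have hLi := c.L.inv_mem hD.1
  have hb : c.P c.o (((D.lin⁻¹ : (Op N)ˣ) : Op N) D.tr) = ((D.lin⁻¹ : (Op N)ˣ) : Op N) D.tr := by
    rw [c.L_comm46 hLi, hD.2]
  have hbn : ‖((D.lin⁻¹ : (Op N)ˣ) : Op N) D.tr‖ = ‖D.tr‖ := c.norm_o hLi hD.2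
  constructor
  · refine ⟨hu, fun i hi => ?_⟩
    rw [conj_Up_tr46, map_add, c.Np_sub_o46 hX hu hb i hi, add_zero, c.L_comm46 hLi, hY.2 i hi,
      map_zero]
  · have h1 : ‖(((D⁻¹ * Y * D).lin : (Op N)ˣ) : Op N) - 1‖ ≤
        c.kap (D.lin : Op N) * ‖(Y.lin : Op N) - 1‖ := by
      have := c.conj_Np hD.1 hY.1.2
      exact this
    have h2 : ‖(D⁻¹ * Y * D).tr‖ ≤ (∑ i, c.eX46 X (D.lin : Op N) i) * ‖Y.tr‖ +
        c.kap (D.lin : Op N) * ‖(Y.lin : Op N) - 1‖ * ‖D.tr‖ := by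
      rw [conj_Up_tr46]
      refine (norm_add_le _ _).trans (add_le_add (c.L_inv_apply_pos46 hX hD.1 hY.2) ?_)
      have h3 : ((D.lin⁻¹ * Y.lin * D.lin : (Op N)ˣ) : Op N)
          (((D.lin⁻¹ : (Op N)ˣ) : Op N) D.tr) - ((D.lin⁻¹ : (Op N)ˣ) : Op N) D.tr =
          (((D.lin⁻¹ * Y.lin * D.lin : (Op N)ˣ) : Op N) - 1)
            (((D.lin⁻¹ : (Op N)ˣ) : Op N) D.tr) := rfl
      rw [h3]
      refine (ContinuousLinearMap.le_opNorm _ _).trans ?_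
      rw [hbn]
      exact mul_le_mul_of_nonneg_right h1 (norm_nonneg _)
    have h4 := c.kap_nonneg (D.lin : Op N)
    have h5 := c.sum_eX_nonneg46 X (D.lin : Op N)
    have h6 : (D⁻¹ * Y * D).nrm46 ≤ c.kap (D.lin : Op N) * ‖(Y.lin : Op N) - 1‖ +
      ((∑ i, c.eX46 X (D.lin : Op N) i) * ‖Y.tr‖ +
        c.kap (D.lin : Op N) * ‖(Y.lin : Op N) - 1‖ * ‖D.tr‖) := add_le_add h1 h2
    refine h6.trans ?_
    rw [kk46, kA46, Aff.nrm46]
    have h7 := norm_nonneg ((Y.lin : Op N) - 1)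
    have h8 := norm_nonneg Y.tr
    have h9 := norm_nonneg D.tr
    nlinarith [mul_nonneg h4 h8, mul_nonneg h5 h7, mul_nonneg (mul_nonneg h4 h8) h9,
      mul_nonneg (mul_nonneg h5 h7) h9, mul_nonneg (mul_nonneg h5 h8) h9]

/-- exponential decay of the contraction factors of powers -/
lemma exists_kk_pow46 {X : ι → ℝ} {l : (Op N)ˣ} (hl : l ∈ c.L)
    (hd : c.Dom (l : Op N)) (hs : ∀ i, i ≠ c.o → 0 < sg46 (X i) * c.tau (l : Op N) i) {t : V N}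
    (hlt : (l : Op N) t = t) :
    ∃ C > 0, ∃ a > 0, ∀ n : ℕ, c.kk46 X ((⟨l, t⟩ : Aff (V N)) ^ n) ≤ C * Real.exp (-a * n) := by
  classical
  obtain ⟨C₀, hC₀, a₀, ha₀, h₀⟩ := c.kap_pow hl hd
  obtain ⟨a₁, ha₁, h₁⟩ : ∃ a > 0, ∀ i, i ≠ c.o → a ≤ sg46 (X i) * c.tau (l : Op N) i := by
    obtain ⟨i₀, hi₀⟩ := c.exists_ne
    obtain ⟨j, hj, hmin⟩ := (Finset.univ.filter (fun i => i ≠ c.o)).exists_min_image
      (fun i => sg46 (X i) * c.tau (l : Op N) i) ⟨i₀, by simp [hi₀]⟩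
    refine ⟨sg46 (X j) * c.tau (l : Op N) j, hs j (Finset.mem_filter.1 hj).2, fun i hi => ?_⟩
    exact hmin i (Finset.mem_filter.2 ⟨Finset.mem_univ i, hi⟩)
  set a := min a₀ a₁ with ha
  have hapos : 0 < a := lt_min ha₀ ha₁
  set K : ℝ := C₀ + Fintype.card ι with hK
  have hKpos : 0 < K := by positivity
  have key : ∀ n : ℕ, c.kA46 X ((l ^ n : (Op N)ˣ) : Op N) ≤ K * Real.exp (-a * n) := by
    intro n
    have hn : (0 : ℝ) ≤ n := Nat.cast_nonneg n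
    have e1 : c.kap ((l ^ n : (Op N)ˣ) : Op N) ≤ C₀ * Real.exp (-a * n) := by
      have := h₀ n
      rw [← Units.val_pow_eq_pow_val] at this
      refine this.trans (mul_le_mul_of_nonneg_left (Real.exp_le_exp.2 ?_) hC₀.le)
      have : a ≤ a₀ := min_le_left _ _
      nlinarith
    have e2 : ∑ i, c.eX46 X ((l ^ n : (Op N)ˣ) : Op N) i ≤
        ∑ _i : ι, Real.exp (-a * n) := by
      refine Finset.sum_le_sum fun i _ => ?_
      rw [eX46]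
      split_ifs with hi
      · exact (Real.exp_pos _).le
      · apply Real.exp_le_exp.2
        rw [Units.val_pow_eq_pow_val, c.tau_pow hl, Pi.smul_apply, smul_eq_mul]
        have h2 := h₁ i hi
        have h3 : a ≤ a₁ := min_le_right _ _
        nlinarith
    rw [Finset.sum_const, Finset.card_univ, nsmul_eq_mul] at e2
    rw [kA46, hK, add_mul]
    exact add_le_add e1 e2
  refine ⟨K * (1 + 2 / a * ‖t‖), by positivity, a / 2, by positivity, fun n => ?_⟩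
  rw [Aff.pow_eq46 l hlt, kk46]
  change (1 + ‖(n : ℝ) • t‖) * c.kA46 X ((l ^ n : (Op N)ˣ) : Op N) ≤ _
  have hn : (0 : ℝ) ≤ n := Nat.cast_nonneg n
  rw [norm_smul, Real.norm_of_nonneg hn]
  have e3 : Real.exp (-a * n) = Real.exp (-(a / 2) * n) * Real.exp (-(a / 2) * n) := by
    rw [← Real.exp_add]; congr 1; ring
  have e4 : (n : ℝ) * Real.exp (-(a / 2) * n) ≤ 2 / a := by
    have h5 : a / 2 * n ≤ Real.exp (a / 2 * n) := by
      have := Real.add_one_le_exp (a / 2 * n); linarith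
    have h6 : Real.exp (-(a / 2) * n) * Real.exp (a / 2 * n) = 1 := by
      rw [← Real.exp_add]; simp
    have h7 : 0 < Real.exp (-(a / 2) * n) := Real.exp_pos _
    have h8 : a / 2 * n * Real.exp (-(a / 2) * n) ≤ 1 := by nlinarith
    rw [le_div_iff₀ hapos]
    nlinarith
  have e5 : Real.exp (-(a / 2) * n) ≤ 1 := by
    apply Real.exp_le_one_iff.2
    have : 0 ≤ a / 2 * n := by positivity
    linarith
  have e6 : (1 + n * ‖t‖) * Real.exp (-(a / 2) * n) ≤ 1 + 2 / a * ‖t‖ := by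
    have := mul_le_mul_of_nonneg_right e4 (norm_nonneg t)
    nlinarith
  calc (1 + n * ‖t‖) * c.kA46 X ((l ^ n : (Op N)ˣ) : Op N)
      ≤ (1 + n * ‖t‖) * (K * Real.exp (-a * n)) :=
        mul_le_mul_of_nonneg_left (key n) (by positivity)
    _ = K * ((1 + n * ‖t‖) * Real.exp (-(a / 2) * n)) * Real.exp (-(a / 2) * n) := by
        rw [e3]; ring
    _ ≤ K * (1 + 2 / a * ‖t‖) * Real.exp (-(a / 2) * n) := by
        apply mul_le_mul_of_nonneg_right _ (Real.exp_pos _).le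
        exact mul_le_mul_of_nonneg_left e6 hKpos.le

end Cell

end Pool.Agent.Lib.MP_d9b062_al

end

/-! ## from `MP_d9b062_al_h46.Prod` -/

section
/-!
# Affine LU decomposition and products
-/

namespace Pool.Agent.Lib.MP_d9b062_al

open Filter
open scoped Topology

lemma tendsto_exp_decay46 (C : ℝ) {a : ℝ} (ha : 0 < a) :
    Tendsto (fun n : ℕ => C * Real.exp (-a * n)) atTop (𝓝 0) := by
  have h1 : Tendsto (fun n : ℕ => a * (n : ℝ)) atTop atTop :=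
    tendsto_natCast_atTop_atTop.const_mul_atTop ha
  have h2 := (Real.tendsto_exp_neg_atTop_nhds_zero.comp h1).const_mul C
  rw [mul_zero] at h2
  refine h2.congr fun n => ?_
  simp only [Function.comp_apply, neg_mul]

lemma exists_exp_small46 (C : ℝ) {a ε : ℝ} (ha : 0 < a) (hε : 0 < ε) :
    ∃ n₀ : ℕ, ∀ n ≥ n₀, C * Real.exp (-a * n) ≤ ε := by
  have := (tendsto_exp_decay46 C ha).eventually (ge_mem_nhds hε)
  exact eventually_atTop.1 this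

lemma norm_inv_le_two46 {E : Type*} [NormedAddCommGroup E] [NormedSpace ℝ E]
    (u : (E →L[ℝ] E)ˣ) (h : ‖(u : E →L[ℝ] E) - 1‖ ≤ 1 / 2) :
    ‖((u⁻¹ : (E →L[ℝ] E)ˣ) : E →L[ℝ] E)‖ ≤ 2 := by
  have h1 : ((u⁻¹ : (E →L[ℝ] E)ˣ) : E →L[ℝ] E) =
      1 - ((u⁻¹ : (E →L[ℝ] E)ˣ) : E →L[ℝ] E) * ((u : E →L[ℝ] E) - 1) := by
    rw [mul_sub, Units.inv_mul, mul_one]; abel
  have h2 : ‖((u⁻¹ : (E →L[ℝ] E)ˣ) : E →L[ℝ] E)‖ ≤
      1 + ‖((u⁻¹ : (E →L[ℝ] E)ˣ) : E →L[ℝ] E)‖ * (1 / 2) := by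
    conv_lhs => rw [h1]
    refine (norm_sub_le _ _).trans (add_le_add Aff.norm_one_le46 ?_)
    exact (norm_mul_le _ _).trans (mul_le_mul_of_nonneg_left h (norm_nonneg _))
  linarith

lemma norm_le_two46 {E : Type*} [NormedAddCommGroup E] [NormedSpace ℝ E]
    (u : E →L[ℝ] E) (h : ‖u - 1‖ ≤ 1 / 2) : ‖u‖ ≤ 2 := by
  have : ‖u‖ ≤ ‖u - 1‖ + ‖(1 : E →L[ℝ] E)‖ := by
    calc ‖u‖ = ‖(u - 1) + 1‖ := by rw [sub_add_cancel]
      _ ≤ _ := norm_add_le _ _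
  have h1 : ‖(1 : E →L[ℝ] E)‖ ≤ 1 := Aff.norm_one_le46
  linarith

namespace Cell

variable {N : ℕ} {G : Subgroup (Op N)ˣ} {ι : Type} [Fintype ι] [LinearOrder ι] (c : Cell G ι)

open Classical in
/-- sum of the negative blocks -/
noncomputable def pN46 (X : ι → ℝ) (v : V N) : V N := ∑ i, if X i < 0 then c.P i v else 0

open Classical in
/-- sum of the positive blocks -/
noncomputable def pP46 (X : ι → ℝ) (v : V N) : V N := ∑ i, if 0 < X i then c.P i v else 0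

lemma pN_add46 {X : ι → ℝ} (hX : c.Sgn46 X) (v : V N) : c.pN46 X v + c.P c.o v + c.pP46 X v = v := by
  classical
  have h : c.P c.o v = ∑ i, if i = c.o then c.P i v else 0 := by
    rw [Finset.sum_ite_eq' Finset.univ c.o (fun i => c.P i v), if_pos (Finset.mem_univ _)]
  rw [h, pN46, pP46, ← Finset.sum_add_distrib, ← Finset.sum_add_distrib]
  conv_rhs => rw [← c.sum_P_apply v]
  refine Finset.sum_congr rfl fun i _ => ?_
  by_cases hi : i = c.o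
  · rw [if_pos hi, hi, hX.o]; simp
  · rw [if_neg hi]
    rcases lt_or_gt_of_ne (hX.ne i hi) with h1 | h1
    · rw [if_pos h1, if_neg (not_lt.mpr h1.le)]; simp
    · rw [if_pos h1, if_neg (not_lt.mpr h1.le)]; simp

lemma P_pN46 {X : ι → ℝ} {i : ι} (hi : 0 ≤ X i) (v : V N) : c.P i (c.pN46 X v) = 0 := by
  classical
  rw [pN46, map_sum]
  refine Finset.sum_eq_zero fun j _ => ?_
  split_ifs with hj
  · exact c.P_P_ne46 (fun h => by subst h; exact absurd hj (not_lt.mpr hi)) v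
  · exact map_zero _

lemma P_pP46 {X : ι → ℝ} {i : ι} (hi : X i ≤ 0) (v : V N) : c.P i (c.pP46 X v) = 0 := by
  classical
  rw [pP46, map_sum]
  refine Finset.sum_eq_zero fun j _ => ?_
  split_ifs with hj
  · exact c.P_P_ne46 (fun h => by subst h; exact absurd hj (not_lt.mpr hi)) v
  · exact map_zero _

lemma norm_pN_le46 (X : ι → ℝ) (v : V N) : ‖c.pN46 X v‖ ≤ Fintype.card ι * ‖v‖ := by
  classical
  rw [pN46]
  calc ‖∑ i, if X i < 0 then c.P i v else 0‖ ≤ ∑ _i : ι, ‖v‖ := by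
        refine norm_sum_le_of_le _ fun i _ => ?_
        split_ifs
        · exact c.norm_P_apply_le46 i v
        · rw [norm_zero]; exact norm_nonneg _
    _ = Fintype.card ι * ‖v‖ := by rw [Finset.sum_const, Finset.card_univ, nsmul_eq_mul]

lemma norm_pP_le46 (X : ι → ℝ) (v : V N) : ‖c.pP46 X v‖ ≤ Fintype.card ι * ‖v‖ := by
  classical
  rw [pP46]
  calc ‖∑ i, if 0 < X i then c.P i v else 0‖ ≤ ∑ _i : ι, ‖v‖ := by
        refine norm_sum_le_of_le _ fun i _ => ?_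
        split_ifs
        · exact c.norm_P_apply_le46 i v
        · rw [norm_zero]; exact norm_nonneg _
    _ = Fintype.card ι * ‖v‖ := by rw [Finset.sum_const, Finset.card_univ, nsmul_eq_mul]

/-- affine LU decomposition -/
lemma exists_affLU46 {X : ι → ℝ} (hX : c.Sgn46 X) {T : Aff (V N)} (hT : T.lin ∈ G)
    (hr : Reg c.P (T.lin : Op N)) :
    ∃ Y ∈ c.Um46 hX, ∃ D ∈ c.Mo46, ∃ Z ∈ c.Up46 hX, T = Y * D * Z ∧
      (Y.lin : Op N) = yL c.P (T.lin : Op N) ∧ (D.lin : Op N) = dD c.P (T.lin : Op N) ∧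
      (Z.lin : Op N) = xU c.P (T.lin : Op N) ∧
      ‖Y.tr‖ ≤ ‖(Y.lin : Op N)‖ * (Fintype.card ι *
        (‖((Y.lin⁻¹ : (Op N)ˣ) : Op N)‖ * ‖T.tr‖)) ∧
      ‖D.tr‖ ≤ ‖((Y.lin⁻¹ : (Op N)ˣ) : Op N)‖ * ‖T.tr‖ ∧
      ‖Z.tr‖ ≤ ‖((D.lin⁻¹ : (Op N)ˣ) : Op N)‖ * (Fintype.card ι *
        (‖((Y.lin⁻¹ : (Op N)ˣ) : Op N)‖ * ‖T.tr‖)) := by
  obtain ⟨y, hy, d, hd, x, hx, h, hy', hd', hx'⟩ := c.exists_LU hT hr
  set v : V N := ((y⁻¹ : (Op N)ˣ) : Op N) T.tr with hv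
  have hvn : ‖v‖ ≤ ‖((y⁻¹ : (Op N)ˣ) : Op N)‖ * ‖T.tr‖ := ContinuousLinearMap.le_opNorm _ _
  refine ⟨⟨y, (y : Op N) (c.pN46 X v)⟩, ⟨hy, ?_⟩, ⟨d, c.P c.o v⟩, ⟨hd, c.P_P_apply46 _ _⟩,
    ⟨x, ((d⁻¹ : (Op N)ˣ) : Op N) (c.pP46 X v)⟩, ⟨hx, ?_⟩, ?_, hy', hd', hx', ?_, ?_, ?_⟩
  · exact c.Nm_apply46 hX hy fun i hi => c.P_pN46 hi v
  · intro i hi
    change c.P i (((d⁻¹ : (Op N)ˣ) : Op N) (c.pP46 X v)) = 0
    rw [c.L_comm46 (c.L.inv_mem hd), c.P_pP46 hi, map_zero]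
  · ext1
    · exact h
    · rw [Aff.mul_tr, Aff.mul_tr, Aff.mul_lin]
      change T.tr = (y : Op N) (c.pN46 X v) + (y : Op N) (c.P c.o v) +
        (y : Op N) ((d : Op N) (((d⁻¹ : (Op N)ˣ) : Op N) (c.pP46 X v)))
      have h1 : (d : Op N) (((d⁻¹ : (Op N)ˣ) : Op N) (c.pP46 X v)) = c.pP46 X v :=
        congrArg (fun T : Op N => T (c.pP46 X v)) (Units.mul_inv d)
      have h2 : (y : Op N) (((y⁻¹ : (Op N)ˣ) : Op N) T.tr) = T.tr :=
        congrArg (fun S : Op N => S T.tr) (Units.mul_inv y)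
      rw [h1, ← map_add, ← map_add, c.pN_add46 hX, hv, h2]
  · refine (ContinuousLinearMap.le_opNorm _ _).trans
      (mul_le_mul_of_nonneg_left ?_ (norm_nonneg _))
    exact (c.norm_pN_le46 X v).trans (mul_le_mul_of_nonneg_left hvn (Nat.cast_nonneg _))
  · exact (c.norm_P_apply_le46 _ _).trans hvn
  · refine (ContinuousLinearMap.le_opNorm _ _).trans
      (mul_le_mul_of_nonneg_left ?_ (norm_nonneg _))
    exact (c.norm_pP_le46 X v).trans (mul_le_mul_of_nonneg_left hvn (Nat.cast_nonneg _))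

lemma reg_one46 : Reg c.P (1 : Op N) ∧ yL c.P (1 : Op N) = 1 ∧ dD c.P (1 : Op N) = 1 ∧
    xU c.P (1 : Op N) = 1 := by
  have h := c.LU_val c.Nm.one_mem c.L.one_mem c.Np.one_mem
  simpa only [one_mul, Units.val_one] using h

lemma exists_kA_bound46 (X : ι → ℝ) : ∃ K > 0, ∃ ρ > 0, ∀ d ∈ c.L, ‖(d : Op N) - 1‖ < ρ →
    c.kA46 X (d : Op N) ≤ K := by
  have h1 : ContinuousAt c.tau (1 : Op N) := by
    have := c.tau_continuousAt c.L.one_mem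
    simpa only [Units.val_one] using this
  obtain ⟨ρ, hρ, h2⟩ := Metric.continuousAt_iff.1 h1 1 one_pos
  have h0 : c.tau (1 : Op N) = 0 := c.tau_one
  refine ⟨(∑ _i : ι, ∑ _j : ι, Real.exp 2) + ∑ _i : ι, Real.exp 1 + 1, by positivity, ρ, hρ,
    fun d _ hd => ?_⟩
  have h3 : ∀ i, |c.tau (d : Op N) i| ≤ 1 := by
    intro i
    have h4 := h2 (x := (d : Op N)) (by rw [dist_eq_norm]; exact hd)
    rw [h0, dist_zero_right] at h4
    have h5 := norm_le_pi_norm (c.tau (d : Op N)) i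
    rw [Real.norm_eq_abs] at h5
    linarith
  have h6 : c.kap (d : Op N) ≤ ∑ _i : ι, ∑ _j : ι, Real.exp 2 := by
    classical
    rw [kap]
    refine Finset.sum_le_sum fun i _ => Finset.sum_le_sum fun j _ => ?_
    split_ifs
    · apply Real.exp_le_exp.2
      have := abs_le.1 (h3 i)
      have := abs_le.1 (h3 j)
      linarith
    · exact (Real.exp_pos _).le
  have h7 : ∑ i, c.eX46 X (d : Op N) i ≤ ∑ _i : ι, Real.exp 1 := by
    refine Finset.sum_le_sum fun i _ => ?_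
    rw [eX46]
    split_ifs
    · exact (Real.exp_pos _).le
    · apply Real.exp_le_exp.2
      have := abs_le.1 (h3 i)
      rw [sg46]
      split_ifs <;> linarith
  rw [kA46]
  linarith

/-- LU decomposition near the identity -/
lemma exists_near_one46 {X : ι → ℝ} (hX : c.Sgn46 X) : ∃ K > 0, ∃ ρ > 0, ∀ T : Aff (V N), T.lin ∈ G →
    T.nrm46 ≤ ρ → ∃ Y ∈ c.Um46 hX, ∃ D ∈ c.Mo46, ∃ Z ∈ c.Up46 hX, T = Y * D * Z ∧
      Y.nrm46 ≤ K * T.nrm46 ∧ D.nrm46 ≤ K * T.nrm46 ∧ Z.nrm46 ≤ K * T.nrm46 ∧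
      c.kA46 X (D.lin : Op N) ≤ K := by
  obtain ⟨h1, hy1, hd1, hx1⟩ := c.reg_one46
  obtain ⟨K₁, hK₁, δ₁, hδ₁, hlip⟩ := exists_lipschitz c.grading c.star_P h1
  obtain ⟨K₂, hK₂, ρ₂, hρ₂, hkA⟩ := c.exists_kA_bound46 X
  set n : ℝ := ((Fintype.card ι : ℕ) : ℝ) with hn
  have hn0 : 0 ≤ n := Nat.cast_nonneg _
  set K : ℝ := K₁ + 4 * n + 2 + K₂ with hK
  have hKpos : 0 < K := by positivity
  set ρ : ℝ := min (δ₁ / 2) (min (1 / (2 * K₁)) (ρ₂ / (2 * K₁))) with hρ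
  have hρpos : 0 < ρ := by
    refine lt_min (by positivity) (lt_min (by positivity) (by positivity))
  refine ⟨K, hKpos, ρ, hρpos, fun T hT hTn => ?_⟩
  have e0 : ‖(T.lin : Op N) - 1‖ ≤ ρ := (Aff.norm_lin_sub_le46 T).trans hTn
  have e1 : ‖(T.lin : Op N) - 1‖ < δ₁ := by
    have : ρ ≤ δ₁ / 2 := min_le_left _ _
    linarith
  have e2 : K₁ * ‖(T.lin : Op N) - 1‖ ≤ 1 / 2 := by
    have h : ρ ≤ 1 / (2 * K₁) := (min_le_right _ _).trans (min_le_left _ _)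
    calc K₁ * ‖(T.lin : Op N) - 1‖ ≤ K₁ * (1 / (2 * K₁)) :=
          mul_le_mul_of_nonneg_left (e0.trans h) hK₁.le
      _ = 1 / 2 := by field_simp
  have e3 : K₁ * ‖(T.lin : Op N) - 1‖ < ρ₂ := by
    have h : ρ ≤ ρ₂ / (2 * K₁) := (min_le_right _ _).trans (min_le_right _ _)
    calc K₁ * ‖(T.lin : Op N) - 1‖ ≤ K₁ * (ρ₂ / (2 * K₁)) :=
          mul_le_mul_of_nonneg_left (e0.trans h) hK₁.le
      _ = ρ₂ / 2 := by field_simp
      _ < ρ₂ := by linarith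
  obtain ⟨hr, hy, hx, hd⟩ := hlip (T.lin : Op N) 1 e1
    (by rw [sub_self, norm_zero]; exact hδ₁)
  rw [hy1] at hy
  rw [hx1] at hx
  rw [hd1] at hd
  obtain ⟨Y, hY, D, hD, Z, hZ, hTe, eY, eD, eZ, nY, nD, nZ⟩ := c.exists_affLU46 hX hT hr
  rw [← eY] at hy
  rw [← eD] at hd
  rw [← eZ] at hx
  have b1 : ‖(Y.lin : Op N)‖ ≤ 2 := norm_le_two46 _ (hy.trans e2)
  have b2 : ‖((Y.lin⁻¹ : (Op N)ˣ) : Op N)‖ ≤ 2 := norm_inv_le_two46 _ (hy.trans e2)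
  have b3 : ‖((D.lin⁻¹ : (Op N)ˣ) : Op N)‖ ≤ 2 := norm_inv_le_two46 _ (hd.trans e2)
  have t0 : 0 ≤ ‖T.tr‖ := norm_nonneg _
  have t1 : ‖((Y.lin⁻¹ : (Op N)ˣ) : Op N)‖ * ‖T.tr‖ ≤ 2 * ‖T.tr‖ :=
    mul_le_mul_of_nonneg_right b2 t0
  have t2 : n * (‖((Y.lin⁻¹ : (Op N)ˣ) : Op N)‖ * ‖T.tr‖) ≤ n * (2 * ‖T.tr‖) :=
    mul_le_mul_of_nonneg_left t1 hn0
  have t3 : 0 ≤ n * (‖((Y.lin⁻¹ : (Op N)ˣ) : Op N)‖ * ‖T.tr‖) := by positivity
  have r1 : ‖Y.tr‖ ≤ 4 * n * ‖T.tr‖ := by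
    calc ‖Y.tr‖ ≤ _ := nY
      _ ≤ 2 * (n * (2 * ‖T.tr‖)) := mul_le_mul b1 t2 t3 (by norm_num)
      _ = 4 * n * ‖T.tr‖ := by ring
  have r2 : ‖D.tr‖ ≤ 2 * ‖T.tr‖ := nD.trans t1
  have r3 : ‖Z.tr‖ ≤ 4 * n * ‖T.tr‖ := by
    calc ‖Z.tr‖ ≤ _ := nZ
      _ ≤ 2 * (n * (2 * ‖T.tr‖)) := mul_le_mul b3 t2 t3 (by norm_num)
      _ = 4 * n * ‖T.tr‖ := by ring
  have s0 : 0 ≤ ‖(T.lin : Op N) - 1‖ := norm_nonneg _
  have hTnrm : T.nrm46 = ‖(T.lin : Op N) - 1‖ + ‖T.tr‖ := rfl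
  have m1 : 0 ≤ n * ‖(T.lin : Op N) - 1‖ := by positivity
  have m2 : 0 ≤ K₁ * ‖T.tr‖ := by positivity
  have m3 : 0 ≤ n * ‖T.tr‖ := by positivity
  have m4 : 0 ≤ K₂ * ‖(T.lin : Op N) - 1‖ := by positivity
  have m5 : 0 ≤ K₂ * ‖T.tr‖ := by positivity
  refine ⟨Y, hY, D, hD, Z, hZ, hTe, ?_, ?_, ?_, ?_⟩
  · rw [hTnrm, hK]
    have : Y.nrm46 ≤ K₁ * ‖(T.lin : Op N) - 1‖ + 4 * n * ‖T.tr‖ := add_le_add hy r1
    nlinarith
  · rw [hTnrm, hK]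
    have : D.nrm46 ≤ K₁ * ‖(T.lin : Op N) - 1‖ + 2 * ‖T.tr‖ := add_le_add hd r2
    nlinarith
  · rw [hTnrm, hK]
    have : Z.nrm46 ≤ K₁ * ‖(T.lin : Op N) - 1‖ + 4 * n * ‖T.tr‖ := add_le_add hx r3
    nlinarith
  · refine (hkA D.lin hD.1 (hd.trans_lt e3)).trans ?_
    rw [hK]; nlinarith

/-- products -/
lemma exists_product46 {X : ι → ℝ} (hX : c.Sgn46 X) {δ : Aff (V N)} (hδ : δ ∈ c.Mo46) {C a : ℝ}
    (hC : 0 < C) (ha : 0 < a) (hk : ∀ n : ℕ, c.kk46 X (δ ^ n) ≤ C * Real.exp (-a * n))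
    {R : ℝ} (hR : 0 ≤ R) :
    ∃ C' > 0, ∃ n₀ : ℕ, ∀ n ≥ n₀, ∀ Ya ∈ c.Um46 hX, ∀ Da ∈ c.Mo46, ∀ Za ∈ c.Up46 hX, ∀ Yb ∈ c.Um46 hX,
      ∀ Db ∈ c.Mo46, ∀ Zb ∈ c.Up46 hX, Za.nrm46 ≤ R → Yb.nrm46 ≤ R →
      ‖((Yb.lin⁻¹ : (Op N)ˣ) : Op N)‖ ≤ R →
      ∃ Y1 ∈ c.Um46 hX, ∃ D1 ∈ c.Mo46, ∃ Z1 ∈ c.Up46 hX,
        (Ya * Da * Za) * δ ^ n * (Yb * Db * Zb) =
          (Ya * ((Da * δ ^ n) * (Yb * Y1) * (Da * δ ^ n)⁻¹)) * (Da * δ ^ n * D1 * Db) *
            ((Db⁻¹ * Z1 * Db) * Zb) ∧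
        Y1.nrm46 ≤ C' * Real.exp (-a * n) ∧ D1.nrm46 ≤ C' * Real.exp (-a * n) ∧
        Z1.nrm46 ≤ C' * Real.exp (-a * n) ∧ c.kA46 X (D1.lin : Op N) ≤ C' := by
  obtain ⟨K, hK, ρ, hρ, hnear⟩ := c.exists_near_one46 hX
  set B : ℝ := R * (1 + 2 * R) * (C * R) with hB
  have hB0 : 0 ≤ B := by positivity
  obtain ⟨n₀, hn₀⟩ := exists_exp_small46 B ha hρ
  refine ⟨K * B + K, by positivity, n₀, ?_⟩
  intro n hn Ya hYa Da hDa Za hZa Yb hYb Db hDb Zb hZb hZaR hYbR hYbR'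
  have hδn : δ ^ n ∈ c.Mo46 := c.Mo46.pow_mem hδ n
  obtain ⟨hZ', hZ'n⟩ := c.conj_Up46 hX hδn hZa
  set Z' : Aff (V N) := (δ ^ n)⁻¹ * Za * δ ^ n with hZ'def
  set T : Aff (V N) := Yb⁻¹ * Z' * Yb with hT
  have hE : 0 < Real.exp (-a * n) := Real.exp_pos _
  have hTn : T.nrm46 ≤ B * Real.exp (-a * n) := by
    have h1 := Aff.nrm_conj_le46 Yb Z' hYbR hYbR'
    have h2 : Z'.nrm46 ≤ C * Real.exp (-a * n) * R :=
      hZ'n.trans (mul_le_mul (hk n) hZaR (Aff.nrm_nonneg46 _) (by positivity))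
    calc T.nrm46 ≤ R * (1 + 2 * R) * Z'.nrm46 := h1
      _ ≤ R * (1 + 2 * R) * (C * Real.exp (-a * n) * R) :=
          mul_le_mul_of_nonneg_left h2 (by positivity)
      _ = B * Real.exp (-a * n) := by rw [hB]; ring
  have hTG : T.lin ∈ G := by
    rw [hT, Aff.mul_lin, Aff.mul_lin, Aff.inv_lin]
    exact G.mul_mem (G.mul_mem (G.inv_mem hYb.1.1) hZ'.1.1) hYb.1.1
  obtain ⟨Y1, hY1, D1, hD1, Z1, hZ1, hTe, n1, n2, n3, n4⟩ :=
    hnear T hTG (hTn.trans (hn₀ n hn))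
  have hKT : K * T.nrm46 ≤ (K * B + K) * Real.exp (-a * n) := by
    have h1 : K * T.nrm46 ≤ K * (B * Real.exp (-a * n)) := mul_le_mul_of_nonneg_left hTn hK.le
    have h2 : 0 ≤ K * Real.exp (-a * n) := by positivity
    calc K * T.nrm46 ≤ K * (B * Real.exp (-a * n)) := h1
      _ ≤ K * (B * Real.exp (-a * n)) + K * Real.exp (-a * n) := by linarith
      _ = (K * B + K) * Real.exp (-a * n) := by ring
  refine ⟨Y1, hY1, D1, hD1, Z1, hZ1, ?_, n1.trans hKT, n2.trans hKT, n3.trans hKT,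
    n4.trans (by nlinarith [mul_nonneg hK.le hB0])⟩
  have e1 : Yb * (Y1 * D1 * Z1) = Z' * Yb := by
    rw [← hTe, hT]; group
  have e2 : Za * δ ^ n = δ ^ n * Z' := by rw [hZ'def]; group
  calc (Ya * Da * Za) * δ ^ n * (Yb * Db * Zb)
      = Ya * Da * (Za * δ ^ n) * Yb * Db * Zb := by simp only [mul_assoc]
    _ = Ya * Da * δ ^ n * (Z' * Yb) * Db * Zb := by rw [e2]; simp only [mul_assoc]
    _ = Ya * Da * δ ^ n * (Yb * (Y1 * D1 * Z1)) * Db * Zb := by rw [e1]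
    _ = _ := by group

end Cell

end Pool.Agent.Lib.MP_d9b062_al

end

/-! ## from `MP_d9b062_al_h46.MemEL` -/

section
/-!
# Vectors fixed by the diagonal parts of a Zariski dense group
-/

namespace Pool.Agent.Lib.MP_d9b062_al

lemma isPolyMap_unipInv46 {N : ℕ} (ι : Type) [Fintype ι] :
    IsPolyMap (fun T : Op N => unipInv ι T) := by
  unfold unipInv
  exact IsPolyMap.sum _ fun k _ => ((IsPolyMap.const (1 : Op N)).sub IsPolyMap.id).pow k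

namespace Cell

variable {N : ℕ} {G : Subgroup (Op N)ˣ} {ι : Type} [Fintype ι] [LinearOrder ι]

lemma dD_apply46 (c : Cell G ι) {g : (Op N)ˣ} (hg : g ∈ G) (hr : Reg c.P (g : Op N)) {e : V N}
    (he : c.P c.o e = e) :
    c.P c.o (unipInv ι (yL c.P (g : Op N)) ((g : Op N) e)) = dD c.P (g : Op N) e := by
  obtain ⟨y, hy, d, hd, x, hx, h, hy', hd', hx'⟩ := c.exists_LU hg hr
  rw [← hy', ← hd']
  have h1 : unipInv ι (y : Op N) = ((y⁻¹ : (Op N)ˣ) : Op N) := by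
    rw [← hy.2.inverse_eq c.grading c.r_trans (fun i h => lt_irrefl _ (c.r_lt i i h)),
      Ring.inverse_unit]
  have h2 : (y⁻¹ : (Op N)ˣ) * g = d * x := by rw [h]; group
  have h3 : ((y⁻¹ : (Op N)ˣ) : Op N) ((g : Op N) e) = (d : Op N) ((x : Op N) e) :=
    congrArg (fun u : (Op N)ˣ => (u : Op N) e) h2
  rw [h1, h3]
  have h4 : c.P c.o ((d : Op N) ((x : Op N) e)) = (d : Op N) (c.P c.o ((x : Op N) e)) :=
    congrArg (fun T : Op N => T ((x : Op N) e)) (hd.2 c.o)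
  have h5 : c.P c.o ((x : Op N) e) = e := by
    have h6 : (c.P c.o * (x : Op N) * c.P c.o) e = c.P c.o e :=
      congrArg (fun T : Op N => T e) (hx.2.1 c.o)
    have h7 : (c.P c.o * (x : Op N) * c.P c.o) e = c.P c.o ((x : Op N) (c.P c.o e)) := rfl
    rw [h7, he] at h6
    exact h6
  rw [h4, h5]

theorem Good.mem_EL46 {c : Cell G ι} {Γ : Subgroup (Aff (V N))} (hΓ : c.Good Γ) {f : (Op N)ˣ}
    (hf : f ∈ G) {e : V N} (he : c.P c.o e = e)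
    (h : ∀ γ ∈ Γ, Reg c.P ((f⁻¹ * γ.lin * f : (Op N)ˣ) : Op N) →
      dD c.P ((f⁻¹ * γ.lin * f : (Op N)ˣ) : Op N) e = e) : e ∈ c.EL := by
  classical
  obtain ⟨D, hD, Q, hQ, -, hDr, -, hy⟩ := exists_rat c.grading c.star_P
  -- coordinates
  let b : Fin N → V N := fun k => EuclideanSpace.single k 1
  have hb : ∀ v : V N, v = ∑ k, v k • b k := by
    intro v
    ext i
    simp [b, Finset.sum_apply, Pi.single_apply]
  -- reduction to functionals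
  intro l hl
  have key : ∀ φ : Module.Dual ℝ (V N), φ ((l : Op N) e - e) = 0 := by
    intro φ
    let F : Fin N → Op N → ℝ := fun k S => φ (c.P c.o (unipInv ι S (b k)))
    have hF : ∀ k, F k ∈ PolyFun (Op N) := fun k =>
      ((IsPolyMap.const (c.P c.o)).apply ((isPolyMap_unipInv46 ι).apply (IsPolyMap.const (b k)))) φ
    have h1 : ∀ k, ∃ n : ℕ, ∃ F1 ∈ PolyFun (Op N), ∀ T, D T ≠ 0 →
        F1 T = D T ^ n * F k ((D T)⁻¹ • Q T) := fun k => PolyFun.comp_rat (hF k) hD hQ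
    choose n F1 hF1 hF1e using h1
    set m : ℕ := ∑ k, n k with hm
    have hnm : ∀ k, n k ≤ m := fun k =>
      Finset.single_le_sum (f := n) (fun _ _ => Nat.zero_le _) (Finset.mem_univ k)
    -- coordinates of `T e`
    let β : Fin N → Op N → ℝ := fun k T => T e k
    have hβ : ∀ k, β k ∈ PolyFun (Op N) := fun k =>
      (IsPolyMap.apply IsPolyMap.id (IsPolyMap.const e))
        ((LinearMap.proj k : (Fin N → ℝ) →ₗ[ℝ] ℝ) ∘ₗ
          (WithLp.linearEquiv 2 ℝ (Fin N → ℝ)).toLinearMap)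
    let H : Op N → ℝ := fun T =>
      D T * ((∑ k, β k T * (D T ^ (m - n k) * F1 k T)) - D T ^ m * φ e)
    have hH : H ∈ PolyFun (Op N) :=
      PolyFun.mul hD (PolyFun.sub (PolyFun.sum _ fun k _ => PolyFun.mul (hβ k)
        (PolyFun.mul (PolyFun.pow hD _) (hF1 k))) (PolyFun.mul (PolyFun.pow hD _)
          (PolyFun.const _)))
    have hHe : ∀ g ∈ G, D (g : Op N) ≠ 0 → H (g : Op N) =
        D (g : Op N) ^ (m + 1) * (φ (dD c.P (g : Op N) e) - φ e) := by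
      intro g hg hDg
      have hreg := (hDr _).2 hDg
      have e1 : φ (dD c.P (g : Op N) e) = ∑ k, β k (g : Op N) * F k (yL c.P (g : Op N)) := by
        rw [← c.dD_apply46 hg hreg he]
        conv_lhs => rw [hb ((g : Op N) e)]
        rw [map_sum, map_sum, map_sum]
        refine Finset.sum_congr rfl fun k _ => ?_
        rw [map_smul, map_smul, map_smul, smul_eq_mul]
      have e2 : ∀ k, D (g : Op N) ^ (m - n k) * F1 k (g : Op N) =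
          D (g : Op N) ^ m * F k (yL c.P (g : Op N)) := by
        intro k
        rw [hF1e k _ hDg, ← hy _ hreg, ← mul_assoc, ← pow_add, Nat.sub_add_cancel (hnm k)]
      change D (g : Op N) * ((∑ k, β k (g : Op N) * (D (g : Op N) ^ (m - n k) *
        F1 k (g : Op N))) - D (g : Op N) ^ m * φ e) = _
      have e3 : ∑ k, β k (g : Op N) * (D (g : Op N) ^ (m - n k) * F1 k (g : Op N)) =
          D (g : Op N) ^ m * φ (dD c.P (g : Op N) e) := by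
        rw [e1, Finset.mul_sum]
        refine Finset.sum_congr rfl fun k _ => ?_
        rw [e2 k]; ring
      rw [e3]; ring
    have hvan := hΓ.dense (fun T => H ((f⁻¹ : (Op N)ˣ) * T * f))
      (PolyFun.comp hH (((IsPolyMap.const _).mul IsPolyMap.id).mul (IsPolyMap.const _))) (by
        rintro s ⟨γ, hγ, rfl⟩
        have hmem : f⁻¹ * γ.lin * f ∈ G :=
          G.mul_mem (G.mul_mem (G.inv_mem hf) (hΓ.lin_mem γ hγ)) hf
        change H ((f⁻¹ * γ.lin * f : (Op N)ˣ) : Op N) = 0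
        by_cases hDg : D ((f⁻¹ * γ.lin * f : (Op N)ˣ) : Op N) = 0
        · exact mul_eq_zero_of_left hDg _
        · rw [hHe _ hmem hDg, h γ hγ ((hDr _).2 hDg), sub_self, mul_zero])
      (f * l * f⁻¹) (G.mul_mem (G.mul_mem hf hl.1) (G.inv_mem hf))
    have h2 : H (l : Op N) = 0 := by
      have h3 : ((f⁻¹ : (Op N)ˣ) : Op N) * ((f * l * f⁻¹ : (Op N)ˣ) : Op N) * (f : Op N) = l := by
        have : f⁻¹ * (f * l * f⁻¹) * f = l := by group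
        exact congrArg (fun u : (Op N)ˣ => (u : Op N)) this
      have h4 : H (((f⁻¹ : (Op N)ˣ) : Op N) * ((f * l * f⁻¹ : (Op N)ˣ) : Op N) * (f : Op N)) = 0 :=
        hvan
      rwa [h3] at h4
    have hlu := c.LU_val c.Nm.one_mem hl c.Np.one_mem
    rw [one_mul, mul_one] at hlu
    have hDl := (hDr _).1 hlu.1
    rw [hHe l hl.1 hDl, hlu.2.2.1] at h2
    have h3 := (mul_eq_zero.1 h2).resolve_left (pow_ne_zero _ hDl)
    rw [map_sub]
    exact h3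
  have h0 := (Module.forall_dual_apply_eq_zero_iff ℝ ((l : Op N) e - e)).1 key
  exact sub_eq_zero.1 h0

end Cell

end Pool.Agent.Lib.MP_d9b062_al

end

/-! ## from `MP_d9b062_al_h46.Words` -/

section
/-!
# Words
-/

namespace Pool.Agent.Lib.MP_d9b062_al

open Filter
open scoped Topology

namespace Aff

variable {E : Type*} [NormedAddCommGroup E] [NormedSpace ℝ E]

lemma act_mul46 (x y : Aff E) (v : E) : (x * y).act v = x.act (y.act v) := by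
  rw [act, act, act, mul_lin, mul_tr, map_add]
  change (x.lin : E →L[ℝ] E) ((y.lin : E →L[ℝ] E) v) + _ = _
  abel

lemma act_one46 (v : E) : (1 : Aff E).act v = v := by
  rw [act, one_lin, one_tr, add_zero]; rfl

lemma act_inv_act46 (x : Aff E) (v : E) : x.act (x⁻¹.act v) = v := by
  rw [← act_mul46, mul_inv_cancel, act_one46]

end Aff

namespace Cell

variable {N : ℕ} {G : Subgroup (Op N)ˣ} {ι : Type} [Fintype ι] [LinearOrder ι] (c : Cell G ι)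

lemma inner_L46 {l : (Op N)ˣ} (hl : l ∈ c.L) {e : V N} (he : e ∈ c.EL) (v : V N) :
    inner ℝ ((l : Op N) v) e = inner ℝ v e := by
  have h1 : ((star l : (Op N)ˣ) : Op N) e = e := he _ (c.star_L hl)
  have h2 : ((star l : (Op N)ˣ) : Op N) = ContinuousLinearMap.adjoint (l : Op N) := rfl
  rw [h2] at h1
  rw [← ContinuousLinearMap.adjoint_inner_right, h1]

lemma inner_mul_tr46 {D D' : Aff (V N)} (hD : D ∈ c.Mo46) {e : V N} (he : e ∈ c.EL) :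
    inner ℝ (D * D').tr e = inner ℝ D.tr e + inner ℝ D'.tr e := by
  rw [Aff.mul_tr, inner_add_left, c.inner_L46 hD.1 he]

/-- the fixed data in the construction of words -/
structure FCtx46 (Γ : Subgroup (Aff (V N))) where
  X : ι → ℝ
  hX : c.Sgn46 X
  F : Aff (V N)
  hF : F.lin ∈ G
  δ : Aff (V N)
  hδ : δ ∈ c.Mo46
  hl : (δ.lin : Op N) δ.tr = δ.tr
  hm : F * δ * F⁻¹ ∈ Γ
  C : ℝ
  hC : 0 < C
  a : ℝ
  ha : 0 < a
  hk : ∀ n : ℕ, c.kk46 X (δ ^ n) ≤ C * Real.exp (-a * n)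

variable {c} {Γ : Subgroup (Aff (V N))}

/-- words: elements of `Γ` with a good affine LU decomposition -/
structure Word46 (S : c.FCtx46 Γ) where
  Y : Aff (V N)
  D : Aff (V N)
  Z : Aff (V N)
  Y_mem : Y ∈ c.Um46 S.hX
  D_mem : D ∈ c.Mo46
  Z_mem : Z ∈ c.Up46 S.hX
  mem : S.F * (Y * D * Z) * S.F⁻¹ ∈ Γ
  hY : Y.nrm46 + c.kk46 S.X D ≤ 1 / 4
  hZ : Z.nrm46 + c.kk46 S.X D ≤ 1 / 4

namespace FCtx46

variable (S : c.FCtx46 Γ)

lemma pow_lin (n : ℕ) : (S.δ ^ n).lin = S.δ.lin ^ n := by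
  have := Aff.pow_eq46 S.δ.lin S.hl n
  have h : (⟨S.δ.lin, S.δ.tr⟩ : Aff (V N)) = S.δ := rfl
  rw [h] at this
  rw [this]

lemma pow_tr (n : ℕ) : (S.δ ^ n).tr = (n : ℝ) • S.δ.tr := by
  have := Aff.pow_eq46 S.δ.lin S.hl n
  have h : (⟨S.δ.lin, S.δ.tr⟩ : Aff (V N)) = S.δ := rfl
  rw [h] at this
  rw [this]

lemma conj_pow_mem (n : ℕ) : S.F * S.δ ^ n * S.F⁻¹ ∈ Γ := by
  have h : S.F * S.δ ^ n * S.F⁻¹ = (S.F * S.δ * S.F⁻¹) ^ n := (conj_pow).symm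
  rw [h]
  exact Γ.pow_mem S.hm n

lemma exp_le_one (n : ℕ) : Real.exp (-S.a * n) ≤ 1 := by
  apply Real.exp_le_one_iff.2
  have : 0 ≤ S.a * n := mul_nonneg S.ha.le (Nat.cast_nonneg n)
  linarith

lemma kk_pow_le (n : ℕ) : c.kk46 S.X (S.δ ^ n) ≤ S.C := by
  have h1 := S.hk n
  have h2 := S.exp_le_one n
  have := S.hC
  nlinarith

end FCtx46

namespace Word46

variable {S : c.FCtx46 Γ} (w : Word46 S)

lemma kk_le : c.kk46 S.X w.D ≤ 1 / 4 := by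
  have := w.hY
  have := Aff.nrm_nonneg46 w.Y
  linarith

lemma nY_le : w.Y.nrm46 ≤ 1 / 4 := by
  have := w.hY
  have := c.kk_pos46 S.X w.D
  linarith

lemma nZ_le : w.Z.nrm46 ≤ 1 / 4 := by
  have := w.hZ
  have := c.kk_pos46 S.X w.D
  linarith

/-- the size of a word -/
noncomputable def size : ℝ := -Real.log (c.kA46 S.X (w.D.lin : Op N))

lemma one_le_size : 1 ≤ w.size := by
  have h1 : c.kA46 S.X (w.D.lin : Op N) ≤ 1 / 4 := (c.kA_le_kk46 _ _).trans w.kk_le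
  have h2 := c.kA_pos46 S.X (w.D.lin : Op N)
  have h3 : Real.log (c.kA46 S.X (w.D.lin : Op N)) ≤ -1 := by
    rw [Real.log_le_iff_le_exp h2]
    have h4 : Real.exp (-1) = (Real.exp 1)⁻¹ := Real.exp_neg 1
    rw [h4]
    have h5 := Real.exp_one_lt_d9
    have h6 := Real.exp_pos 1
    have h7 : (1 / 4 : ℝ) ≤ (Real.exp 1)⁻¹ := by
      rw [one_div]
      exact inv_anti₀ h6 (by linarith)
    linarith
  rw [size]; linarith

end Word46

/-- sandwiching by powers of `δ` gives words -/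
lemma exists_word46 (S : c.FCtx46 Γ) {M : ℝ} (hM : 0 ≤ M) :
    ∃ n₀ : ℕ, ∀ n ≥ n₀, ∀ Y ∈ c.Um46 S.hX, ∀ D ∈ c.Mo46, ∀ Z ∈ c.Up46 S.hX,
      S.F * (Y * D * Z) * S.F⁻¹ ∈ Γ → Y.nrm46 ≤ M → c.kk46 S.X D ≤ M → Z.nrm46 ≤ M →
      ∃ w : Word46 S, w.D = S.δ ^ n * D * S.δ ^ n := by
  obtain ⟨n₀, hn₀⟩ := exists_exp_small46 (S.C * M + S.C * M * S.C) (a := S.a) (ε := 1 / 4)
    S.ha (by norm_num)
  refine ⟨n₀, fun n hn Y hY D hD Z hZ hm nY nD nZ => ?_⟩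
  have hδn : S.δ ^ n ∈ c.Mo46 := c.Mo46.pow_mem S.hδ n
  obtain ⟨hY', nY'⟩ := c.conj_Um46 S.hX hδn hY
  obtain ⟨hZ', nZ'⟩ := c.conj_Up46 S.hX hδn hZ
  have hE : 0 < Real.exp (-S.a * n) := Real.exp_pos _
  have hC := S.hC
  have hb := hn₀ n hn
  have k1 := S.hk n
  have k2 := S.kk_pow_le n
  have k3 := c.kk_pos46 S.X (S.δ ^ n)
  have k4 : c.kk46 S.X (S.δ ^ n * D * S.δ ^ n) ≤ S.C * Real.exp (-S.a * n) * M * S.C := by
    calc c.kk46 S.X (S.δ ^ n * D * S.δ ^ n)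
        ≤ c.kk46 S.X (S.δ ^ n * D) * c.kk46 S.X (S.δ ^ n) :=
          c.kk_mul46 (c.Mo46.mul_mem hδn hD) hδn
      _ ≤ (c.kk46 S.X (S.δ ^ n) * c.kk46 S.X D) * c.kk46 S.X (S.δ ^ n) :=
          mul_le_mul_of_nonneg_right (c.kk_mul46 hδn hD) k3.le
      _ ≤ (S.C * Real.exp (-S.a * n) * M) * S.C := by
          apply mul_le_mul _ k2 k3.le (by positivity)
          exact mul_le_mul k1 nD (c.kk_pos46 _ _).le (by positivity)
  have k5 : c.kk46 S.X (S.δ ^ n) * Y.nrm46 ≤ S.C * Real.exp (-S.a * n) * M :=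
    mul_le_mul k1 nY (Aff.nrm_nonneg46 _) (by positivity)
  have k6 : c.kk46 S.X (S.δ ^ n) * Z.nrm46 ≤ S.C * Real.exp (-S.a * n) * M :=
    mul_le_mul k1 nZ (Aff.nrm_nonneg46 _) (by positivity)
  refine ⟨{ Y := S.δ ^ n * Y * (S.δ ^ n)⁻¹
            D := S.δ ^ n * D * S.δ ^ n
            Z := (S.δ ^ n)⁻¹ * Z * S.δ ^ n
            Y_mem := hY'
            D_mem := c.Mo46.mul_mem (c.Mo46.mul_mem hδn hD) hδn
            Z_mem := hZ'
            mem := ?_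
            hY := ?_
            hZ := ?_ }, rfl⟩
  · have h1 := Γ.mul_mem (Γ.mul_mem (S.conj_pow_mem n) hm) (S.conj_pow_mem n)
    convert h1 using 1
    group
  · nlinarith
  · nlinarith

/-- closure of the set of words under `(p, n, w) ↦ p δⁿ w` -/
lemma exists_mul46 (S : c.FCtx46 Γ) : ∃ (K : ℝ) (n₀ : ℕ), ∀ p w : Word46 S, ∀ n ≥ n₀,
    ∃ w' : Word46 S,
      ‖w'.D.tr - (p.D.tr + (p.D.lin : Op N) ((n : ℝ) • S.δ.tr +
        ((S.δ.lin ^ n : (Op N)ˣ) : Op N) w.D.tr))‖ ≤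
          K * Real.exp (-S.a * n) * (1 + n + ‖w.D.tr‖) ∧
      (∀ e ∈ c.EL, |inner ℝ w'.D.tr e -
        (inner ℝ p.D.tr e + n * inner ℝ S.δ.tr e + inner ℝ w.D.tr e)| ≤ K * ‖e‖) ∧
      p.size + w.size ≤ w'.size := by
  obtain ⟨C', hC', n₁, hprod⟩ := c.exists_product46 S.hX S.hδ S.hC S.ha S.hk (R := 2) (by norm_num)
  obtain ⟨n₂, hn₂⟩ := exists_exp_small46 (S.C * (4 + C') + 2 * C' + S.C * C') (a := S.a) (ε := 1)
    S.ha one_pos
  refine ⟨C', max n₁ n₂, fun p w n hn => ?_⟩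
  have hE : 0 < Real.exp (-S.a * n) := Real.exp_pos _
  have hE1 := S.exp_le_one n
  have hC := S.hC
  have hb := hn₂ n ((le_max_right _ _).trans hn)
  have hδn : S.δ ^ n ∈ c.Mo46 := c.Mo46.pow_mem S.hδ n
  obtain ⟨Y1, hY1, D1, hD1, Z1, hZ1, heq, nY1, nD1, nZ1, kD1⟩ :=
    hprod n ((le_max_left _ _).trans hn) p.Y p.Y_mem p.D p.D_mem p.Z p.Z_mem
      w.Y w.Y_mem w.D w.D_mem w.Z w.Z_mem (p.nZ_le.trans (by norm_num))
      (w.nY_le.trans (by norm_num))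
      (norm_inv_le_two46 _ ((Aff.norm_lin_sub_le46 w.Y).trans (w.nY_le.trans (by norm_num))))
  set u : ℝ := Real.exp (-S.a * n) with hu
  have hCC : 0 < S.C * C' := mul_pos hC hC'
  have b1 : S.C * u * (4 + C') ≤ 1 := by nlinarith [mul_pos hC' hE, mul_pos hCC hE]
  have b2 : 2 * (C' * u) + S.C * u * C' ≤ 1 := by nlinarith [mul_pos hC hE, mul_pos hCC hE]
  have b3 : C' * u ≤ 1 := by nlinarith [mul_pos hC hE, mul_pos hCC hE, mul_pos hC' hE]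
  have b4 : S.C * u * C' ≤ 1 := by nlinarith [mul_pos hC hE, mul_pos hCC hE, mul_pos hC' hE]
  have nY1' : Y1.nrm46 ≤ 1 := nY1.trans b3
  have pD := c.kk_pos46 S.X p.D
  have wD := c.kk_pos46 S.X w.D
  have k1 := S.hk n
  have k3 := c.kk_pos46 S.X (S.δ ^ n)
  have pDδ := c.Mo46.mul_mem p.D_mem hδn
  have kD1' : c.kk46 S.X D1 ≤ 2 * C' := by
    rw [kk46]
    have : ‖D1.tr‖ ≤ 1 := (Aff.norm_tr_le46 D1).trans (nD1.trans b3)
    have h2 := c.kA_pos46 S.X (D1.lin : Op N)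
    nlinarith [norm_nonneg D1.tr]
  have kD1p := c.kk_pos46 S.X D1
  have kpδ : c.kk46 S.X (p.D * S.δ ^ n) ≤ c.kk46 S.X p.D * (S.C * u) :=
    (c.kk_mul46 p.D_mem hδn).trans (mul_le_mul_of_nonneg_left k1 pD.le)
  have kD' : c.kk46 S.X (p.D * S.δ ^ n * D1 * w.D) ≤
      c.kk46 S.X p.D * (S.C * u) * (2 * C') * c.kk46 S.X w.D := by
    calc c.kk46 S.X (p.D * S.δ ^ n * D1 * w.D)
        ≤ c.kk46 S.X (p.D * S.δ ^ n * D1) * c.kk46 S.X w.D :=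
          c.kk_mul46 (c.Mo46.mul_mem pDδ hD1) w.D_mem
      _ ≤ (c.kk46 S.X (p.D * S.δ ^ n) * c.kk46 S.X D1) * c.kk46 S.X w.D :=
          mul_le_mul_of_nonneg_right (c.kk_mul46 pDδ hD1) wD.le
      _ ≤ (c.kk46 S.X p.D * (S.C * u) * (2 * C')) * c.kk46 S.X w.D := by
          apply mul_le_mul_of_nonneg_right _ wD.le
          exact mul_le_mul kpδ kD1' kD1p.le (by positivity)
  -- the unipotent parts
  obtain ⟨hYc, nYc⟩ := c.conj_Um46 S.hX pDδ ((c.Um46 S.hX).mul_mem w.Y_mem hY1)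
  obtain ⟨hZc, nZc⟩ := c.conj_Up46 S.hX w.D_mem hZ1
  have a1 : (w.Y * Y1).nrm46 ≤ 3 / 2 := by
    have h1 := Aff.nrm_mul_le46 w.Y Y1
    have h2 := w.nY_le
    have h3 := Aff.nrm_nonneg46 w.Y
    have h4 := Aff.nrm_nonneg46 Y1
    nlinarith
  have a2 : (p.D * S.δ ^ n * (w.Y * Y1) * (p.D * S.δ ^ n)⁻¹).nrm46 ≤
      c.kk46 S.X p.D * (S.C * u) * (3 / 2) :=
    nYc.trans (mul_le_mul kpδ a1 (Aff.nrm_nonneg46 _) (by positivity))
  have a3 : (p.Y * (p.D * S.δ ^ n * (w.Y * Y1) * (p.D * S.δ ^ n)⁻¹)).nrm46 ≤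
      p.Y.nrm46 + 2 * (c.kk46 S.X p.D * (S.C * u) * (3 / 2)) := by
    refine (Aff.nrm_mul_le46 _ _).trans (add_le_add le_rfl ?_)
    exact mul_le_mul (by have := p.nY_le; linarith) a2 (Aff.nrm_nonneg46 _) (by norm_num)
  have a4 : (w.D⁻¹ * Z1 * w.D).nrm46 ≤ c.kk46 S.X w.D * (C' * u) :=
    nZc.trans (mul_le_mul_of_nonneg_left nZ1 wD.le)
  have a5 : (w.D⁻¹ * Z1 * w.D * w.Z).nrm46 ≤ w.Z.nrm46 + c.kk46 S.X w.D * (C' * u) * 2 := by
    have h1 := Aff.nrm_mul_le46 (w.D⁻¹ * Z1 * w.D) w.Z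
    have h2 := w.nZ_le
    have h3 := Aff.nrm_nonneg46 w.Z
    have h4 := Aff.nrm_nonneg46 (w.D⁻¹ * Z1 * w.D)
    nlinarith
  have p4 := p.kk_le
  have w4 := w.kk_le
  have hYfin : (p.Y * (p.D * S.δ ^ n * (w.Y * Y1) * (p.D * S.δ ^ n)⁻¹)).nrm46 +
      c.kk46 S.X (p.D * S.δ ^ n * D1 * w.D) ≤ 1 / 4 := by
    have h1 : c.kk46 S.X p.D * (S.C * u) * (2 * C') * c.kk46 S.X w.D ≤
        c.kk46 S.X p.D * (S.C * u) * (2 * C') * (1 / 4) :=
      mul_le_mul_of_nonneg_left w4 (by positivity)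
    have h2 : c.kk46 S.X p.D * (S.C * u * (4 + C')) ≤ c.kk46 S.X p.D * 1 :=
      mul_le_mul_of_nonneg_left b1 pD.le
    have h3 := p.hY
    have h4 : 0 ≤ c.kk46 S.X p.D * (S.C * u) * C' := by positivity
    have h5 : 0 ≤ c.kk46 S.X p.D * (S.C * u) := by positivity
    nlinarith
  have hZfin : (w.D⁻¹ * Z1 * w.D * w.Z).nrm46 +
      c.kk46 S.X (p.D * S.δ ^ n * D1 * w.D) ≤ 1 / 4 := by
    have h1 : c.kk46 S.X p.D * ((S.C * u) * (2 * C') * c.kk46 S.X w.D) ≤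
        (1 / 4) * ((S.C * u) * (2 * C') * c.kk46 S.X w.D) :=
      mul_le_mul_of_nonneg_right p4 (by positivity)
    have h2 : c.kk46 S.X w.D * (2 * (C' * u) + S.C * u * C') ≤ c.kk46 S.X w.D * 1 :=
      mul_le_mul_of_nonneg_left b2 wD.le
    have h3 := w.hZ
    have h4 : 0 ≤ c.kk46 S.X w.D * (S.C * u * C') := by positivity
    nlinarith
  have hmem : S.F * ((p.Y * (p.D * S.δ ^ n * (w.Y * Y1) * (p.D * S.δ ^ n)⁻¹)) *
      (p.D * S.δ ^ n * D1 * w.D) * (w.D⁻¹ * Z1 * w.D * w.Z)) * S.F⁻¹ ∈ Γ := by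
    rw [← heq]
    have h1 := Γ.mul_mem (Γ.mul_mem p.mem (S.conj_pow_mem n)) w.mem
    convert h1 using 1
    group
  refine ⟨{ Y := p.Y * (p.D * S.δ ^ n * (w.Y * Y1) * (p.D * S.δ ^ n)⁻¹)
            D := p.D * S.δ ^ n * D1 * w.D
            Z := w.D⁻¹ * Z1 * w.D * w.Z
            Y_mem := (c.Um46 S.hX).mul_mem p.Y_mem hYc
            D_mem := c.Mo46.mul_mem (c.Mo46.mul_mem pDδ hD1) w.D_mem
            Z_mem := (c.Up46 S.hX).mul_mem hZc w.Z_mem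
            mem := hmem, hY := hYfin, hZ := hZfin }, ?_, ?_, ?_⟩
  · change ‖(p.D * S.δ ^ n * D1 * w.D).tr - _‖ ≤ _
    have e1 : (p.D * S.δ ^ n * D1 * w.D).tr = p.D.tr + (p.D.lin : Op N) ((n : ℝ) • S.δ.tr +
        ((S.δ.lin ^ n : (Op N)ˣ) : Op N) (D1.tr + (D1.lin : Op N) w.D.tr)) := by
      rw [Aff.mul_tr, Aff.mul_tr, Aff.mul_tr, Aff.mul_lin, Aff.mul_lin, Aff.mul_lin, S.pow_tr,
        S.pow_lin, map_add, map_add, map_add]
      change p.D.tr + (p.D.lin : Op N) ((n : ℝ) • S.δ.tr) +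
        (p.D.lin : Op N) (((S.δ.lin ^ n : (Op N)ˣ) : Op N) D1.tr) +
        (p.D.lin : Op N) (((S.δ.lin ^ n : (Op N)ˣ) : Op N) ((D1.lin : Op N) w.D.tr)) = _
      abel
    have e2 : (p.D * S.δ ^ n * D1 * w.D).tr - (p.D.tr + (p.D.lin : Op N) ((n : ℝ) • S.δ.tr +
        ((S.δ.lin ^ n : (Op N)ˣ) : Op N) w.D.tr)) =
        (p.D.lin : Op N) (((S.δ.lin ^ n : (Op N)ˣ) : Op N)
          (D1.tr + ((D1.lin : Op N) w.D.tr - w.D.tr))) := by
      rw [e1, add_sub_add_left_eq_sub, ← map_sub, add_sub_add_left_eq_sub, ← map_sub]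
      congr 2; abel
    rw [e2]
    have hLn : S.δ.lin ^ n ∈ c.L := c.L.pow_mem S.hδ.1 n
    have o1 : c.P c.o (D1.tr + ((D1.lin : Op N) w.D.tr - w.D.tr)) =
        D1.tr + ((D1.lin : Op N) w.D.tr - w.D.tr) := by
      rw [map_add, map_sub, hD1.2, c.L_comm46 hD1.1, w.D_mem.2]
    have o2 : c.P c.o (((S.δ.lin ^ n : (Op N)ˣ) : Op N)
        (D1.tr + ((D1.lin : Op N) w.D.tr - w.D.tr))) = ((S.δ.lin ^ n : (Op N)ˣ) : Op N)
        (D1.tr + ((D1.lin : Op N) w.D.tr - w.D.tr)) := by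
      rw [c.L_comm46 hLn, o1]
    rw [c.norm_o p.D_mem.1 o2, c.norm_o hLn o1]
    have e3 : (D1.lin : Op N) w.D.tr - w.D.tr = ((D1.lin : Op N) - 1) w.D.tr := rfl
    have hn : (0 : ℝ) ≤ n := Nat.cast_nonneg n
    calc ‖D1.tr + ((D1.lin : Op N) w.D.tr - w.D.tr)‖
        ≤ ‖D1.tr‖ + ‖(D1.lin : Op N) - 1‖ * ‖w.D.tr‖ := by
          rw [e3]
          exact (norm_add_le _ _).trans (add_le_add le_rfl (ContinuousLinearMap.le_opNorm _ _))
      _ ≤ D1.nrm46 + D1.nrm46 * ‖w.D.tr‖ :=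
          add_le_add (Aff.norm_tr_le46 D1)
            (mul_le_mul_of_nonneg_right (Aff.norm_lin_sub_le46 D1) (norm_nonneg _))
      _ = D1.nrm46 * (1 + ‖w.D.tr‖) := by ring
      _ ≤ C' * u * (1 + n + ‖w.D.tr‖) := by
          apply mul_le_mul nD1 _ (by positivity) (by positivity)
          linarith
  · intro e he
    change |inner ℝ (p.D * S.δ ^ n * D1 * w.D).tr e - _| ≤ _
    rw [c.inner_mul_tr46 (c.Mo46.mul_mem pDδ hD1) he, c.inner_mul_tr46 pDδ he,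
      c.inner_mul_tr46 p.D_mem he, S.pow_tr, inner_smul_left]
    have h1 : |inner ℝ D1.tr e| ≤ C' * ‖e‖ := by
      refine (abs_real_inner_le_norm _ _).trans (mul_le_mul_of_nonneg_right ?_ (norm_nonneg _))
      have : D1.nrm46 ≤ C' := nD1.trans (by nlinarith)
      exact (Aff.norm_tr_le46 D1).trans this
    convert h1 using 2
    simp only [conj_trivial]
    ring
  · rw [Word46.size, Word46.size, Word46.size]
    change -Real.log (c.kA46 S.X (p.D.lin : Op N)) + -Real.log (c.kA46 S.X (w.D.lin : Op N)) ≤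
      -Real.log (c.kA46 S.X (((p.D.lin * (S.δ ^ n).lin * D1.lin * w.D.lin : (Op N)ˣ) : Op N)))
    have q1 := c.kA_pos46 S.X (p.D.lin : Op N)
    have q2 := c.kA_pos46 S.X (w.D.lin : Op N)
    have q3 := c.kA_pos46 S.X (D1.lin : Op N)
    have q4 := c.kA_pos46 S.X ((S.δ ^ n).lin : Op N)
    have q5 : c.kA46 S.X ((S.δ ^ n).lin : Op N) ≤ S.C * u := (c.kA_le_kk46 _ _).trans k1
    have m1 : c.kA46 S.X (((p.D.lin * (S.δ ^ n).lin * D1.lin * w.D.lin : (Op N)ˣ) : Op N)) ≤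
        c.kA46 S.X (p.D.lin : Op N) * c.kA46 S.X (w.D.lin : Op N) := by
      calc c.kA46 S.X (((p.D.lin * (S.δ ^ n).lin * D1.lin * w.D.lin : (Op N)ˣ) : Op N))
          ≤ c.kA46 S.X (((p.D.lin * (S.δ ^ n).lin * D1.lin : (Op N)ˣ) : Op N)) *
            c.kA46 S.X (w.D.lin : Op N) := c.kA_mul46 (c.Mo46.mul_mem pDδ hD1).1 w.D_mem.1
        _ ≤ (c.kA46 S.X (((p.D.lin * (S.δ ^ n).lin : (Op N)ˣ) : Op N)) *
            c.kA46 S.X (D1.lin : Op N)) * c.kA46 S.X (w.D.lin : Op N) :=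
            mul_le_mul_of_nonneg_right (c.kA_mul46 pDδ.1 hD1.1) q2.le
        _ ≤ ((c.kA46 S.X (p.D.lin : Op N) * c.kA46 S.X ((S.δ ^ n).lin : Op N)) *
            c.kA46 S.X (D1.lin : Op N)) * c.kA46 S.X (w.D.lin : Op N) := by
            apply mul_le_mul_of_nonneg_right _ q2.le
            exact mul_le_mul_of_nonneg_right (c.kA_mul46 p.D_mem.1 hδn.1) q3.le
        _ = c.kA46 S.X (p.D.lin : Op N) * c.kA46 S.X (w.D.lin : Op N) *
            (c.kA46 S.X ((S.δ ^ n).lin : Op N) * c.kA46 S.X (D1.lin : Op N)) := by ring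
        _ ≤ c.kA46 S.X (p.D.lin : Op N) * c.kA46 S.X (w.D.lin : Op N) * 1 := by
            apply mul_le_mul_of_nonneg_left _ (by positivity)
            exact (mul_le_mul q5 kD1 q3.le (by positivity)).trans b4
        _ = _ := mul_one _
    have m2 := Real.log_le_log (c.kA_pos46 S.X _) m1
    rw [Real.log_mul q1.ne' q2.ne'] at m2
    linarith

end Cell

end Pool.Agent.Lib.MP_d9b062_al

end

/-! ## from `MP_d9b062_al_h46.Final` -/

section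
/-!
# The final step: infinitely many words meeting a compact set
-/

namespace Pool.Agent.Lib.MP_d9b062_al

open Filter
open scoped Topology

namespace Cell

variable {N : ℕ} {G : Subgroup (Op N)ˣ} {ι : Type} [Fintype ι] [LinearOrder ι] (c : Cell G ι)

/-- the block `o` -/
def Eo46 : Submodule ℝ (V N) where
  carrier := {v | c.P c.o v = v}
  add_mem' := fun {v w} hv hw => by
    change c.P c.o (v + w) = v + w
    have h1 : c.P c.o v = v := hv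
    have h2 : c.P c.o w = w := hw
    rw [map_add, h1, h2]
  zero_mem' := map_zero _
  smul_mem' := fun a v hv => by
    change c.P c.o (a • v) = a • v
    have h1 : c.P c.o v = v := hv
    rw [map_smul, h1]

/-- restriction to the block `o` -/
noncomputable def resL46 (l : Op N) : c.Eo46 →L[ℝ] c.Eo46 :=
  ((c.P c.o * l).comp c.Eo46.subtypeL).codRestrict c.Eo46 (fun _ => c.P_P_apply46 _ _)

lemma coe_resL46 {l : (Op N)ˣ} (hl : l ∈ c.L) (v : c.Eo46) :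
    ((c.resL46 (l : Op N) v : c.Eo46) : V N) = (l : Op N) (v : V N) := by
  have h : c.P c.o (v : V N) = v := v.2
  change c.P c.o ((l : Op N) (v : V N)) = _
  rw [c.L_comm46 hl, h]

lemma coe_resL_pow46 {l : (Op N)ˣ} (hl : l ∈ c.L) (n : ℕ) (v : c.Eo46) :
    (((c.resL46 (l : Op N) ^ n) v : c.Eo46) : V N) = ((l ^ n : (Op N)ˣ) : Op N) (v : V N) := by
  induction n with
  | zero => rw [pow_zero, pow_zero]; rfl
  | succ n ih =>
    rw [pow_succ', pow_succ']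
    change ((c.resL46 (l : Op N) ((c.resL46 (l : Op N) ^ n) v) : c.Eo46) : V N) =
      (l : Op N) (((l ^ n : (Op N)ˣ) : Op N) (v : V N))
    rw [c.coe_resL46 hl, ih]

lemma norm_resL46 {l : (Op N)ˣ} (hl : l ∈ c.L) (v : c.Eo46) : ‖c.resL46 (l : Op N) v‖ = ‖v‖ := by
  have h : ‖((c.resL46 (l : Op N) v : c.Eo46) : V N)‖ = ‖(v : V N)‖ := by
    rw [c.coe_resL46 hl]; exact c.norm_o hl v.2
  exact h

lemma recur_L46 {l : (Op N)ˣ} (hl : l ∈ c.L) {ε : ℝ} (hε : 0 < ε) (M : ℕ) :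
    ∃ n ≥ M, ∀ v : V N, c.P c.o v = v → ‖((l ^ n : (Op N)ˣ) : Op N) v - v‖ ≤ ε * ‖v‖ := by
  let g : c.Eo46 ≃ₗᵢ[ℝ] c.Eo46 := LinearIsometry.toLinearIsometryEquiv
    ⟨(c.resL46 (l : Op N) : c.Eo46 →ₗ[ℝ] c.Eo46), c.norm_resL46 hl⟩ rfl
  have hg : ∀ v, g v = c.resL46 (l : Op N) v := fun v => rfl
  have hgn : ∀ (n : ℕ) (v : c.Eo46), (((g ^ n) v : c.Eo46) : V N) =
      ((l ^ n : (Op N)ˣ) : Op N) (v : V N) := by
    intro n
    induction n with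
    | zero => intro v; rw [pow_zero, pow_zero]; rfl
    | succ n ih =>
      intro v
      rw [pow_succ', pow_succ']
      change ((g ((g ^ n) v) : c.Eo46) : V N) = (l : Op N) (((l ^ n : (Op N)ˣ) : Op N) (v : V N))
      rw [hg, c.coe_resL46 hl, ih]
  obtain ⟨n, hn, h⟩ := Steer.recur g hε M
  refine ⟨n, hn, fun v hv => ?_⟩
  have h1 := h ⟨v, hv⟩
  have h2 : ‖(g ^ n) ⟨v, hv⟩ - ⟨v, hv⟩‖ = ‖((l ^ n : (Op N)ˣ) : Op N) v - v‖ := by
    have h3 : (((g ^ n) ⟨v, hv⟩ - ⟨v, hv⟩ : c.Eo46) : V N) =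
        ((l ^ n : (Op N)ˣ) : Op N) v - v := by
      rw [Submodule.coe_sub, hgn]
    rw [← h3]; rfl
  rw [h2] at h1
  exact h1

variable {c} {Γ : Subgroup (Aff (V N))}

lemma FCtx46.nonempty (S : c.FCtx46 Γ) : Nonempty (Word46 S) := by
  obtain ⟨n₀, hn₀⟩ := exists_word46 S (M := c.kk46 S.X 1) (c.kk_pos46 _ _).le
  obtain ⟨w, _⟩ := hn₀ n₀ le_rfl 1 (c.Um46 S.hX).one_mem 1 c.Mo46.one_mem 1 (c.Up46 S.hX).one_mem
    (by rw [one_mul, one_mul, mul_one, mul_inv_cancel]; exact Γ.one_mem)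
    (by rw [Aff.nrm_one46]; exact (c.kk_pos46 _ _).le) le_rfl
    (by rw [Aff.nrm_one46]; exact (c.kk_pos46 _ _).le)
  exact ⟨w⟩

/-- the vectors of the block `o` fixed by all words are fixed by `L` -/
lemma FCtx46.fix_mem_EL (hΓ : c.Good Γ) (S : c.FCtx46 Γ) {e : V N} (he : c.P c.o e = e)
    (h : ∀ w : Word46 S, (w.D.lin : Op N) e = e) : e ∈ c.EL := by
  apply hΓ.mem_EL46 S.hF he
  intro γ hγ hr
  set T : Aff (V N) := S.F⁻¹ * γ * S.F with hT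
  have hTl : T.lin = S.F.lin⁻¹ * γ.lin * S.F.lin := rfl
  rw [← hTl] at hr ⊢
  have hTG : T.lin ∈ G := G.mul_mem (G.mul_mem (G.inv_mem S.hF) (hΓ.lin_mem γ hγ)) S.hF
  obtain ⟨Y, hY, D, hD, Z, hZ, hTe, -, eD, -⟩ := c.exists_affLU46 S.hX hTG hr
  rw [← eD]
  have hYn := Aff.nrm_nonneg46 Y
  have hZn := Aff.nrm_nonneg46 Z
  have hDn := c.kk_pos46 S.X D
  obtain ⟨n₀, hn₀⟩ := exists_word46 S (M := Y.nrm46 + c.kk46 S.X D + Z.nrm46) (by positivity)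
  have key : ∀ n ≥ n₀, ((S.δ.lin ^ n : (Op N)ˣ) : Op N) ((D.lin : Op N)
      (((S.δ.lin ^ n : (Op N)ˣ) : Op N) e)) = e := by
    intro n hn
    obtain ⟨w, hw⟩ := hn₀ n hn Y hY D hD Z hZ
      (by rw [← hTe, hT]
          have : S.F * (S.F⁻¹ * γ * S.F) * S.F⁻¹ = γ := by group
          rw [this]; exact hγ)
      (by linarith) (by linarith) (by linarith)
    have h1 := h w
    rw [hw, Aff.mul_lin, Aff.mul_lin, S.pow_lin] at h1
    exact h1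
  have hLn : ∀ n, S.δ.lin ^ n ∈ c.L := fun n => c.L.pow_mem S.hδ.1 n
  have hle : ∀ ε : ℝ, 0 < ε → ‖(D.lin : Op N) e - e‖ ≤ 0 + ε := by
    intro ε hε
    obtain ⟨n, hn, hr⟩ := c.recur_L46 S.hδ.1 (ε := ε / (2 * (1 + ‖e‖))) (by positivity) n₀
    set s : Op N := ((S.δ.lin ^ n : (Op N)ˣ) : Op N) with hs
    have h1 : ‖s e - e‖ ≤ ε / (2 * (1 + ‖e‖)) * ‖e‖ := hr e he
    have hse : c.P c.o (s e) = s e := by rw [hs, c.L_comm46 (hLn n), he]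
    have hdse : c.P c.o ((D.lin : Op N) (s e)) = (D.lin : Op N) (s e) := by
      rw [c.L_comm46 hD.1, hse]
    have h2 : ‖s ((D.lin : Op N) (s e)) - (D.lin : Op N) (s e)‖ ≤
        ε / (2 * (1 + ‖e‖)) * ‖e‖ := by
      have := hr _ hdse
      rw [c.norm_o hD.1 hse, hs, c.norm_o (hLn n) he] at this
      exact this
    have h3 : ‖(D.lin : Op N) (s e) - (D.lin : Op N) e‖ ≤ ε / (2 * (1 + ‖e‖)) * ‖e‖ := by
      rw [← map_sub, c.norm_o hD.1]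
      · exact h1
      · rw [map_sub, hse, he]
    have h4 : ε / (2 * (1 + ‖e‖)) * ‖e‖ ≤ ε / 2 := by
      rw [div_mul_eq_mul_div, div_le_div_iff₀ (by positivity) (by norm_num)]
      nlinarith [norm_nonneg e]
    have h5 : s ((D.lin : Op N) (s e)) = e := key n hn
    rw [h5] at h2
    calc ‖(D.lin : Op N) e - e‖ = ‖-(e - (D.lin : Op N) (s e)) -
          ((D.lin : Op N) (s e) - (D.lin : Op N) e)‖ := by congr 1; abel
      _ ≤ ‖-(e - (D.lin : Op N) (s e))‖ + ‖(D.lin : Op N) (s e) - (D.lin : Op N) e‖ :=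
          norm_sub_le _ _
      _ ≤ 0 + ε := by rw [norm_neg]; linarith
  have h0 := le_of_forall_pos_le_add hle
  exact sub_eq_zero.1 (norm_le_zero_iff.1 h0)

/-- words with large translation part in a given direction -/
lemma FCtx46.exists_large (hΓ : c.Good Γ) (S : c.FCtx46 Γ) {e : V N} (he : e ∈ c.EL)
    (h₂ : ∃ δ ∈ Γ, ∃ F l t, c.ALox δ F l t ∧
      (∀ i, i ≠ c.o → 0 < sg46 (S.X i) * c.tau (l : Op N) i) ∧ 0 < inner ℝ (c.PL t) e) (R : ℝ) :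
    ∃ w : Word46 S, R ≤ inner ℝ w.D.tr e := by
  obtain ⟨δ, hδ, F', l, t, hA, hs, hin⟩ := h₂
  -- the invariant
  have hin' : 0 < inner ℝ t e := by
    have h1 : inner ℝ (c.PL t) e = inner ℝ t e := by
      have h2 : ContinuousLinearMap.adjoint c.PL = c.PL := c.PL_star
      rw [← ContinuousLinearMap.adjoint_inner_right, h2, c.PL_of_mem he]
    rwa [h1] at hin
  obtain ⟨C₂, hC₂, a₂, ha₂, hk₂⟩ := c.exists_kk_pow46 (X := S.X) hA.l_mem hA.dom hs hA.l_t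
  set δ' : Aff (V N) := ⟨l, t⟩ with hδ'
  have hδ'M : δ' ∈ c.Mo46 := ⟨hA.l_mem, hA.P_t⟩
  obtain ⟨η₁, hη₁, hr₁⟩ := hΓ.exists_reg46 (G.inv_mem S.hF) hA.F_mem
  obtain ⟨η₂, hη₂, hr₂⟩ := hΓ.exists_reg46 (G.inv_mem hA.F_mem) S.hF
  set A : Aff (V N) := S.F⁻¹ * η₁ * F' with hAdef
  set B : Aff (V N) := F'⁻¹ * η₂ * S.F with hBdef
  have hAG : A.lin ∈ G := G.mul_mem (G.mul_mem (G.inv_mem S.hF) (hΓ.lin_mem _ hη₁)) hA.F_mem
  have hBG : B.lin ∈ G := G.mul_mem (G.mul_mem (G.inv_mem hA.F_mem) (hΓ.lin_mem _ hη₂)) S.hF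
  obtain ⟨Ya, hYa, Da, hDa, Za, hZa, hAe, -⟩ := c.exists_affLU46 S.hX hAG hr₁
  obtain ⟨Yb, hYb, Db, hDb, Zb, hZb, hBe, -⟩ := c.exists_affLU46 S.hX hBG hr₂
  have nYa := Aff.nrm_nonneg46 Ya
  have nYb := Aff.nrm_nonneg46 Yb
  have nZa := Aff.nrm_nonneg46 Za
  have nZb := Aff.nrm_nonneg46 Zb
  have kDa := c.kk_pos46 S.X Da
  have kDb := c.kk_pos46 S.X Db
  have nYbi := norm_nonneg (((Yb.lin⁻¹ : (Op N)ˣ) : Op N))
  obtain ⟨C', hC', m₀, hprod⟩ := c.exists_product46 S.hX hδ'M hC₂ ha₂ hk₂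
    (R := Za.nrm46 + Yb.nrm46 + ‖((Yb.lin⁻¹ : (Op N)ˣ) : Op N)‖) (by positivity)
  -- bounds for the factors
  set M₁ : ℝ := Ya.nrm46 + (1 + Ya.nrm46) * (c.kk46 S.X Da * C₂ * (Yb.nrm46 + (1 + Yb.nrm46) * C')) with hM₁
  set M₂ : ℝ := c.kk46 S.X Da * C₂ * ((1 + C') * C') * c.kk46 S.X Db with hM₂
  set M₃ : ℝ := c.kk46 S.X Db * C' + (1 + c.kk46 S.X Db * C') * Zb.nrm46 with hM₃
  have hM₁0 : 0 ≤ M₁ := by positivity
  have hM₂0 : 0 ≤ M₂ := by positivity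
  have hM₃0 : 0 ≤ M₃ := by positivity
  obtain ⟨n₀, hn₀⟩ := exists_word46 S (M := M₁ + M₂ + M₃) (by positivity)
  have hδn : S.δ ^ n₀ ∈ c.Mo46 := c.Mo46.pow_mem S.hδ n₀
  -- choice of the exponent
  set K : ℝ := |2 * (n₀ * inner ℝ S.δ.tr e)| + |inner ℝ Da.tr e| + C' * ‖e‖ +
    |inner ℝ Db.tr e| with hK
  obtain ⟨m₁, hm₁⟩ := exists_nat_ge ((R + K) / inner ℝ t e)
  set m := max m₀ m₁ with hm
  have hmR : R + K ≤ m * inner ℝ t e := by
    rw [div_le_iff₀ hin'] at hm₁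
    have : (m₁ : ℝ) ≤ (m : ℝ) := Nat.cast_le.2 (le_max_right _ _)
    exact hm₁.trans (mul_le_mul_of_nonneg_right this hin'.le)
  have hE : 0 < Real.exp (-a₂ * m) := Real.exp_pos _
  have hE1 : Real.exp (-a₂ * m) ≤ 1 := by
    apply Real.exp_le_one_iff.2
    have : 0 ≤ a₂ * (m : ℝ) := mul_nonneg ha₂.le (Nat.cast_nonneg m)
    linarith
  obtain ⟨Y1, hY1, D1, hD1, Z1, hZ1, heq, nY1, nD1, nZ1, kD1⟩ :=
    hprod m (le_max_left _ _) Ya hYa Da hDa Za hZa Yb hYb Db hDb Zb hZb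
      (by linarith) (by linarith) (by linarith)
  have hδm : δ' ^ m ∈ c.Mo46 := c.Mo46.pow_mem hδ'M m
  have kδm : c.kk46 S.X (δ' ^ m) ≤ C₂ := (hk₂ m).trans (by nlinarith)
  have nY1' : Y1.nrm46 ≤ C' := nY1.trans (by nlinarith)
  have nD1' : D1.nrm46 ≤ C' := nD1.trans (by nlinarith)
  have nZ1' : Z1.nrm46 ≤ C' := nZ1.trans (by nlinarith)
  have kD1' : c.kk46 S.X D1 ≤ (1 + C') * C' := by
    rw [kk46]
    exact mul_le_mul (add_le_add le_rfl ((Aff.norm_tr_le46 D1).trans nD1')) kD1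
      (c.kA_pos46 _ _).le (by positivity)
  have hDaδ := c.Mo46.mul_mem hDa hδm
  have kDaδ : c.kk46 S.X (Da * δ' ^ m) ≤ c.kk46 S.X Da * C₂ :=
    (c.kk_mul46 hDa hδm).trans (mul_le_mul_of_nonneg_left kδm kDa.le)
  obtain ⟨hYc, nYc⟩ := c.conj_Um46 S.hX hDaδ ((c.Um46 S.hX).mul_mem hYb hY1)
  obtain ⟨hZc, nZc⟩ := c.conj_Up46 S.hX hDb hZ1
  have b0 : (Yb * Y1).nrm46 ≤ Yb.nrm46 + (1 + Yb.nrm46) * C' :=
    (Aff.nrm_mul_le46 _ _).trans (add_le_add le_rfl (mul_le_mul_of_nonneg_left nY1' (by positivity)))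
  have b1 : (Ya * (Da * δ' ^ m * (Yb * Y1) * (Da * δ' ^ m)⁻¹)).nrm46 ≤ M₁ := by
    refine (Aff.nrm_mul_le46 _ _).trans (add_le_add le_rfl ?_)
    apply mul_le_mul_of_nonneg_left _ (by positivity)
    exact nYc.trans (mul_le_mul kDaδ b0 (Aff.nrm_nonneg46 _) (by positivity))
  have b2 : c.kk46 S.X (Da * δ' ^ m * D1 * Db) ≤ M₂ := by
    refine (c.kk_mul46 (c.Mo46.mul_mem hDaδ hD1) hDb).trans ?_
    apply mul_le_mul_of_nonneg_right _ kDb.le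
    exact (c.kk_mul46 hDaδ hD1).trans (mul_le_mul kDaδ kD1' (c.kk_pos46 _ _).le (by positivity))
  have b3 : (Db⁻¹ * Z1 * Db * Zb).nrm46 ≤ M₃ := by
    have h1 : (Db⁻¹ * Z1 * Db).nrm46 ≤ c.kk46 S.X Db * C' :=
      nZc.trans (mul_le_mul_of_nonneg_left nZ1' kDb.le)
    refine (Aff.nrm_mul_le46 _ _).trans (add_le_add h1 ?_)
    exact mul_le_mul_of_nonneg_right (add_le_add le_rfl h1) nZb
  have hmem : S.F * ((Ya * (Da * δ' ^ m * (Yb * Y1) * (Da * δ' ^ m)⁻¹)) *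
      (Da * δ' ^ m * D1 * Db) * (Db⁻¹ * Z1 * Db * Zb)) * S.F⁻¹ ∈ Γ := by
    rw [← heq, ← hAe, ← hBe]
    have h1 := Γ.mul_mem (Γ.mul_mem hη₁ (Γ.pow_mem hδ m)) hη₂
    have h2 : δ ^ m = F' * δ' ^ m * F'⁻¹ := by
      rw [hA.eq]; exact conj_pow
    rw [h2] at h1
    convert h1 using 1
    rw [hAdef, hBdef]
    group
  obtain ⟨w, hw⟩ := hn₀ n₀ le_rfl _ ((c.Um46 S.hX).mul_mem hYa hYc) _
    (c.Mo46.mul_mem (c.Mo46.mul_mem hDaδ hD1) hDb) _ ((c.Up46 S.hX).mul_mem hZc hZb) hmem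
    (by linarith) (by linarith) (by linarith)
  refine ⟨w, ?_⟩
  rw [hw, c.inner_mul_tr46 (c.Mo46.mul_mem hδn (c.Mo46.mul_mem (c.Mo46.mul_mem hDaδ hD1) hDb)) he,
    c.inner_mul_tr46 hδn he, c.inner_mul_tr46 (c.Mo46.mul_mem hDaδ hD1) he, c.inner_mul_tr46 hDaδ he,
    c.inner_mul_tr46 hDa he, S.pow_tr, Aff.pow_eq46 l hA.l_t, inner_smul_left, inner_smul_left]
  simp only [conj_trivial]
  have q1 : |inner ℝ D1.tr e| ≤ C' * ‖e‖ :=
    (abs_real_inner_le_norm _ _).trans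
      (mul_le_mul_of_nonneg_right ((Aff.norm_tr_le46 D1).trans nD1') (norm_nonneg _))
  have q2 := neg_abs_le (inner ℝ D1.tr e)
  have q3 := neg_abs_le (inner ℝ Da.tr e)
  have q4 := neg_abs_le (inner ℝ Db.tr e)
  have q5 := neg_abs_le (2 * ((n₀ : ℝ) * inner ℝ S.δ.tr e))
  linarith

end Cell

end Pool.Agent.Lib.MP_d9b062_al

end

/-! ## from `MP_d9b062_al_h46.FinalMain` -/

section
/-!
# The theorem `Good.final`
-/

namespace Pool.Agent.Lib.MP_d9b062_al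

open Filter
open scoped Topology

namespace Cell

variable {N : ℕ} {G : Subgroup (Op N)ˣ} {ι : Type} [Fintype ι] [LinearOrder ι]
  {c : Cell G ι} {Γ : Subgroup (Aff (V N))}

/-- the steering lemma for words -/
lemma FCtx46.steer (hΓ : c.Good Γ) (S : c.FCtx46 Γ)
    (h₂ : ∀ e ∈ c.EL, e ≠ 0 → ∃ δ ∈ Γ, ∃ F l t, c.ALox δ F l t ∧
      (∀ i, i ≠ c.o → 0 < sg46 (S.X i) * c.tau (l : Op N) i) ∧ 0 < inner ℝ (c.PL t) e) :
    ∃ R : ℝ, ∀ k : ℝ, ∃ w : Word46 S, k ≤ w.size ∧ ‖w.D.tr‖ ≤ R := by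
  classical
  obtain ⟨K, n₀, h⟩ := exists_mul46 S
  choose f hf using h
  have := S.nonempty
  let FL : Submodule ℝ c.Eo46 :=
    { carrier := {v | ∀ w : Word46 S, c.resL46 (w.D.lin : Op N) v = v}
      add_mem' := fun {v w} hv hw p => by rw [map_add, hv p, hw p]
      zero_mem' := fun p => map_zero _
      smul_mem' := fun a v hv p => by rw [map_smul, hv p] }
  have hFLEL : ∀ e ∈ FL, (e : V N) ∈ c.EL := by
    intro e he
    apply S.fix_mem_EL hΓ e.2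
    intro w
    have h1 : c.resL46 (w.D.lin : Op N) e = e := he w
    rw [← c.coe_resL46 w.D_mem.1, h1]
  let b : Word46 S → c.Eo46 := fun w => ⟨w.D.tr, w.D_mem.2⟩
  let mul : Word46 S → ℕ → Word46 S → Word46 S := fun p n w =>
    if hn : n₀ ≤ n then f p w n hn else p
  have hmul : ∀ p n w (hn : n₀ ≤ n), mul p n w = f p w n hn := fun p n w hn => dif_pos hn
  obtain ⟨R, hR⟩ := steering (F := c.Eo46) (𝒲 := Word46 S) b (fun w => c.resL46 (w.D.lin : Op N))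
    Word46.size mul (c.resL46 (S.δ.lin : Op N)) ⟨S.δ.tr, S.hδ.2⟩
    (by
      apply Subtype.ext
      rw [c.coe_resL46 S.hδ.1]
      exact S.hl)
    K S.a S.ha n₀ (fun w v => c.norm_resL46 w.D_mem.1 v) (fun v => c.norm_resL46 S.hδ.1 v)
    (by
      intro p n w hn
      rw [hmul p n w hn]
      have h1 := (hf p w n hn).1
      have h2 : ((b (f p w n hn) - (b p + c.resL46 (p.D.lin : Op N) ((n : ℝ) •
          (⟨S.δ.tr, S.hδ.2⟩ : c.Eo46) + (c.resL46 (S.δ.lin : Op N) ^ n) (b w))) : c.Eo46) : V N) =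
          (f p w n hn).D.tr - (p.D.tr + (p.D.lin : Op N) ((n : ℝ) • S.δ.tr +
            ((S.δ.lin ^ n : (Op N)ˣ) : Op N) w.D.tr)) := by
        rw [Submodule.coe_sub, Submodule.coe_add, c.coe_resL46 p.D_mem.1, Submodule.coe_add,
          Submodule.coe_smul, c.coe_resL_pow46 S.hδ.1]
      have h3 : ‖b (f p w n hn) - (b p + c.resL46 (p.D.lin : Op N) ((n : ℝ) •
          (⟨S.δ.tr, S.hδ.2⟩ : c.Eo46) + (c.resL46 (S.δ.lin : Op N) ^ n) (b w)))‖ =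
          ‖(f p w n hn).D.tr - (p.D.tr + (p.D.lin : Op N) ((n : ℝ) • S.δ.tr +
            ((S.δ.lin ^ n : (Op N)ˣ) : Op N) w.D.tr))‖ := by
        rw [← h2]; rfl
      rw [h3]
      exact h1)
    FL (fun v => Iff.rfl)
    (by
      intro e he p n w hn
      rw [hmul p n w hn]
      exact (hf p w n hn).2.1 e (hFLEL e he))
    (by
      intro e he hne R
      have he' := hFLEL e he
      have hne' : (e : V N) ≠ 0 := by
        intro h0
        have : e = 0 := Subtype.ext h0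
        rw [this, norm_zero] at hne
        exact zero_ne_one hne
      obtain ⟨w, hw⟩ := S.exists_large hΓ he' (h₂ _ he' hne') R
      exact ⟨w, hw⟩)
    (by
      intro p n w hn
      rw [hmul p n w hn]
      exact (hf p w n hn).2.2)
    (fun w => w.one_le_size)
  refine ⟨R, fun k => ?_⟩
  obtain ⟨w, hw1, hw2⟩ := hR k
  exact ⟨w, hw1, hw2⟩

/-! ## TASK FINAL -/

theorem Good.final {c : Cell G ι} {Γ : Subgroup (Aff (V N))} (hΓ : c.Good Γ) {X : ι → ℝ}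
    (hX : ∀ i, i ≠ c.o → X i ≠ 0)
    (h₁ : ∃ δ ∈ Γ, ∃ F l t, c.ALox δ F l t ∧ ∀ i, i ≠ c.o → 0 < X i * c.tau (l : Op N) i)
    (h₂ : ∀ e ∈ c.EL, e ≠ 0 → ∃ δ ∈ Γ, ∃ F l t, c.ALox δ F l t ∧
        (∀ i, i ≠ c.o → 0 < X i * c.tau (l : Op N) i) ∧ 0 < inner ℝ (c.PL t) e) :
    ∃ K : Set (V N), IsCompact K ∧
      ¬ {γ : Aff (V N) | γ ∈ Γ ∧ (γ.act '' K ∩ K).Nonempty}.Finite := by
  obtain ⟨δ₀, hδ₀, F, l, t, hA, hs⟩ := h₁
  -- the sign pattern of `l`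
  have hSgn : c.Sgn46 (c.tau (l : Op N)) :=
    ⟨c.tau_o hA.l_mem, hA.vreg, hA.dom⟩
  have hsg : ∀ (l' : (Op N)ˣ), (∀ i, i ≠ c.o → 0 < X i * c.tau (l' : Op N) i) →
      ∀ i, i ≠ c.o → 0 < sg46 (c.tau (l : Op N) i) * c.tau (l' : Op N) i := by
    intro l' h i hi
    have h1 := hs i hi
    have h2 := h i hi
    rcases lt_or_gt_of_ne (hA.vreg i hi) with h3 | h3
    · rw [sg_neg46 h3]
      have h4 : X i < 0 := by
        by_contra hcon
        rw [not_lt] at hcon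
        have := mul_nonpos_of_nonneg_of_nonpos hcon h3.le
        linarith
      nlinarith [h2, h4]
    · rw [sg_pos46 h3]
      have h4 : 0 < X i := by
        by_contra hcon
        rw [not_lt] at hcon
        have := mul_nonpos_of_nonpos_of_nonneg hcon h3.le
        linarith
      rw [one_mul]
      exact (mul_pos_iff_of_pos_left h4).1 h2
  obtain ⟨C, hC, a, ha, hk⟩ := c.exists_kk_pow46 (X := c.tau (l : Op N)) hA.l_mem hA.dom
    (hsg l hs) hA.l_t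
  let S : c.FCtx46 Γ :=
    { X := c.tau (l : Op N)
      hX := hSgn
      F := F
      hF := hA.F_mem
      δ := ⟨l, t⟩
      hδ := ⟨hA.l_mem, hA.P_t⟩
      hl := hA.l_t
      hm := by rw [← hA.eq]; exact hδ₀
      C := C
      hC := hC
      a := a
      ha := ha
      hk := hk }
  obtain ⟨R, hR⟩ := S.steer hΓ (by
    intro e he hne
    obtain ⟨δ, hδ, F', l', t', h1, h2, h3⟩ := h₂ e he hne
    exact ⟨δ, hδ, F', l', t', h1, hsg l' h2, h3⟩)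
  have hR0 : 0 ≤ R := by
    obtain ⟨w, -, hw⟩ := hR 0
    exact (norm_nonneg _).trans hw
  refine ⟨F.act '' Metric.closedBall 0 (2 * R + 1), ?_, ?_⟩
  · apply (isCompact_closedBall (0 : V N) (2 * R + 1)).image
    exact (F.lin : Op N).continuous.add continuous_const
  · intro hfin
    -- the size as a function of the group element
    let φ : Aff (V N) → ℝ := fun γ =>
      -Real.log (c.kA46 S.X (dD c.P ((F.lin⁻¹ * γ.lin * F.lin : (Op N)ˣ) : Op N)))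
    obtain ⟨B, hB⟩ := (hfin.image φ).bddAbove
    obtain ⟨w, hw1, hw2⟩ := hR (B + 1)
    set γ : Aff (V N) := F * (w.Y * w.D * w.Z) * F⁻¹ with hγ
    have hφ : φ γ = w.size := by
      have h1 : F.lin⁻¹ * γ.lin * F.lin = w.Y.lin * w.D.lin * w.Z.lin := by
        rw [hγ, Aff.mul_lin, Aff.mul_lin, Aff.mul_lin, Aff.mul_lin, Aff.inv_lin]
        group
      have h2 := (c.LU_val w.Y_mem.1 w.D_mem.1 w.Z_mem.1).2.2.1
      change -Real.log (c.kA46 S.X (dD c.P ((F.lin⁻¹ * γ.lin * F.lin : (Op N)ˣ) : Op N))) = _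
      rw [h1, h2]
      rfl
    have hmem : γ ∈ {γ : Aff (V N) | γ ∈ Γ ∧
        (γ.act '' (F.act '' Metric.closedBall 0 (2 * R + 1)) ∩
          F.act '' Metric.closedBall 0 (2 * R + 1)).Nonempty} := by
      refine ⟨w.mem, F.act (w.Y.act w.D.tr), ⟨F.act (w.Z⁻¹.act 0), ⟨w.Z⁻¹.act 0, ?_, rfl⟩, ?_⟩,
        ⟨w.Y.act w.D.tr, ?_, rfl⟩⟩
      · rw [mem_closedBall_zero_iff, Aff.act, map_zero, zero_add, Aff.inv_tr, norm_neg]
        have h1 : ‖((w.Z.lin⁻¹ : (Op N)ˣ) : Op N)‖ ≤ 2 :=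
          norm_inv_le_two46 _ ((Aff.norm_lin_sub_le46 w.Z).trans (w.nZ_le.trans (by norm_num)))
        have h2 : ‖w.Z.tr‖ ≤ 1 / 4 := (Aff.norm_tr_le46 w.Z).trans w.nZ_le
        have h3 := (ContinuousLinearMap.le_opNorm ((w.Z.lin⁻¹ : (Op N)ˣ) : Op N) w.Z.tr)
        nlinarith [norm_nonneg w.Z.tr]
      · have h1 : (F⁻¹).act (F.act (w.Z⁻¹.act 0)) = w.Z⁻¹.act 0 := by
          rw [← Aff.act_mul46, inv_mul_cancel, Aff.act_one46]
        have h2 : w.D.act 0 = w.D.tr := by rw [Aff.act, map_zero, zero_add]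
        rw [hγ, Aff.act_mul46, Aff.act_mul46, h1, Aff.act_mul46, Aff.act_mul46, Aff.act_inv_act46, h2]
      · rw [mem_closedBall_zero_iff, Aff.act]
        have h1 : ‖(w.Y.lin : Op N)‖ ≤ 2 :=
          norm_le_two46 _ ((Aff.norm_lin_sub_le46 w.Y).trans (w.nY_le.trans (by norm_num)))
        have h2 : ‖w.Y.tr‖ ≤ 1 / 4 := (Aff.norm_tr_le46 w.Y).trans w.nY_le
        have h3 := (ContinuousLinearMap.le_opNorm (w.Y.lin : Op N) w.D.tr)
        have h4 := norm_add_le ((w.Y.lin : Op N) w.D.tr) w.Y.tr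
        nlinarith [norm_nonneg w.D.tr]
    have h3 := hB ⟨γ, hmem, rfl⟩
    rw [hφ] at h3
    linarith

end Cell

end Pool.Agent.Lib.MP_d9b062_al

end
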