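import Mathlib
import Pool.Agent.Lib.MP_d9b062_al_m.MBase

/-!
MP_d9b062_al: merged modules (to shorten the build).
-/

set_option autoImplicit false

/-! ## from `MP_d9b062_al_h46.LieAlg` -/

section
/-!
# Zariski closed self-adjoint groups: the Lie algebra

General finite-dimensional Euclidean space `E`.
-/

namespace Pool.Agent.Lib.MP_d9b062_al

namespace H46

open NormedSpace Filter
open scoped Topology

set_option linter.unusedSectionVars false

section Trotter

variable {𝔸 : Type*} [NormedRing 𝔸] [NormedAlgebra ℝ 𝔸] [CompleteSpace 𝔸]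

lemma norm_exp_le (h1 : ‖(1 : 𝔸)‖ ≤ 1) (x : 𝔸) : ‖exp x‖ ≤ Real.exp ‖x‖ := by
  have hs := NormedSpace.norm_expSeries_summable' (𝕂 := ℝ) x
  have hs2 : Summable fun n : ℕ => ((n.factorial : ℝ)⁻¹) * ‖x‖ ^ n := by
    have := Real.summable_pow_div_factorial ‖x‖
    refine this.congr (fun n => ?_)
    rw [div_eq_inv_mul]
  rw [NormedSpace.exp_eq_tsum ℝ]
  refine (norm_tsum_le_tsum_norm hs).trans ?_
  have h2 : Real.exp ‖x‖ = ∑' n : ℕ, ((n.factorial : ℝ)⁻¹) * ‖x‖ ^ n := by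
    rw [Real.exp_eq_exp_ℝ, NormedSpace.exp_eq_tsum ℝ]
    rfl
  rw [h2]
  refine hs.tsum_le_tsum (fun n => ?_) hs2
  rw [norm_smul, norm_inv, Real.norm_natCast]
  refine mul_le_mul_of_nonneg_left ?_ (by positivity)
  rcases n with _ | n
  · simpa using h1
  · exact norm_pow_le' x (Nat.succ_pos n)

lemma norm_pow_sub_pow_le (A B : 𝔸) {M : ℝ} (hA : ‖A‖ ≤ M) (hB : ‖B‖ ≤ M) (hM : 1 ≤ M)
    (h1 : ‖(1 : 𝔸)‖ ≤ 1) (n : ℕ) : ‖A ^ n - B ^ n‖ ≤ n * M ^ n * ‖A - B‖ := by
  have hM0 : 0 ≤ M := by linarith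
  have hpB : ∀ n : ℕ, ‖B ^ n‖ ≤ M ^ n := by
    intro n
    induction n with
    | zero => simpa using h1
    | succ n ih =>
      rw [pow_succ, pow_succ]
      exact (norm_mul_le _ _).trans (mul_le_mul ih hB (norm_nonneg _) (by positivity))
  induction n with
  | zero => simp
  | succ n ih =>
    have e : A ^ (n + 1) - B ^ (n + 1) = A * (A ^ n - B ^ n) + (A - B) * B ^ n := by
      rw [pow_succ', pow_succ']; noncomm_ring
    rw [e]
    refine (norm_add_le _ _).trans ?_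
    have h2 : ‖A * (A ^ n - B ^ n)‖ ≤ M * (n * M ^ n * ‖A - B‖) :=
      (norm_mul_le _ _).trans (mul_le_mul hA ih (norm_nonneg _) hM0)
    have h3 : ‖(A - B) * B ^ n‖ ≤ ‖A - B‖ * M ^ (n + 1) := by
      refine (norm_mul_le _ _).trans (mul_le_mul_of_nonneg_left ((hpB n).trans ?_) (norm_nonneg _))
      exact pow_le_pow_right₀ hM (Nat.le_succ n)
    have h4 : M * (n * M ^ n * ‖A - B‖) + ‖A - B‖ * M ^ (n + 1) =
        ((n + 1 : ℕ) : ℝ) * M ^ (n + 1) * ‖A - B‖ := by
      push_cast; ring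
    linarith

/-- the Lie product formula -/
lemma tendsto_trotter (h1 : ‖(1 : 𝔸)‖ ≤ 1) (X Y : 𝔸) :
    Tendsto (fun n : ℕ => (exp ((n : ℝ)⁻¹ • X) * exp ((n : ℝ)⁻¹ • Y)) ^ n) atTop
      (𝓝 (exp (X + Y))) := by
  set φ : ℝ → 𝔸 := fun s => exp (s • X) * exp (s • Y) - exp (s • (X + Y)) with hφ
  have hd : HasDerivAt φ 0 0 := by
    have hX := hasDerivAt_exp_smul_const (𝕂 := ℝ) X 0
    have hY := hasDerivAt_exp_smul_const (𝕂 := ℝ) Y 0
    have hXY := hasDerivAt_exp_smul_const (𝕂 := ℝ) (X + Y) 0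
    have h := (hX.mul hY).sub hXY
    simp only [zero_smul, exp_zero, one_mul, mul_one, sub_self] at h
    exact h
  have hd0 : φ 0 = 0 := by simp [hφ]
  have hslope : Tendsto (fun n : ℕ => (n : ℝ) * ‖φ ((n : ℝ)⁻¹)‖) atTop (𝓝 0) := by
    have h2 := hd.tendsto_slope_zero
    have h3 : Tendsto (fun n : ℕ => ((n : ℝ)⁻¹)) atTop (𝓝[≠] 0) := by
      rw [tendsto_nhdsWithin_iff]
      refine ⟨tendsto_inv_atTop_nhds_zero_nat, ?_⟩
      filter_upwards [eventually_gt_atTop 0] with n hn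
      simp only [Set.mem_compl_iff, Set.mem_singleton_iff, inv_eq_zero, Nat.cast_eq_zero]
      omega
    have h4 := (h2.comp h3).norm
    rw [norm_zero] at h4
    refine h4.congr (fun n => ?_)
    simp only [Function.comp_apply, zero_add, hd0, sub_zero, inv_inv]
    rw [norm_smul, Real.norm_natCast]
  have hn : Tendsto (fun n : ℕ => Real.exp (‖X‖ + ‖Y‖) * ((n : ℝ) * ‖φ ((n : ℝ)⁻¹)‖)) atTop (𝓝 0) := by
    have := hslope.const_mul (Real.exp (‖X‖ + ‖Y‖))
    rwa [mul_zero] at this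
  rw [tendsto_iff_norm_sub_tendsto_zero]
  refine squeeze_zero' (Eventually.of_forall fun n => norm_nonneg _) ?_ hn
  filter_upwards [eventually_gt_atTop 0] with n hn0
  have hn1 : (0 : ℝ) < n := by exact_mod_cast hn0
  have hpow : exp (X + Y) = exp ((n : ℝ)⁻¹ • (X + Y)) ^ n := by
    let _ : NormedAlgebra ℚ 𝔸 := .restrictScalars ℚ ℝ 𝔸
    rw [← NormedSpace.exp_nsmul]
    congr 1
    rw [← Nat.cast_smul_eq_nsmul ℝ, smul_smul, mul_inv_cancel₀ hn1.ne', one_smul]
  rw [hpow]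
  have hinv : 0 ≤ (n : ℝ)⁻¹ := by positivity
  have hA : ‖exp ((n : ℝ)⁻¹ • X) * exp ((n : ℝ)⁻¹ • Y)‖ ≤ Real.exp ((n : ℝ)⁻¹ * (‖X‖ + ‖Y‖)) := by
    refine (norm_mul_le _ _).trans ?_
    have h2 := norm_exp_le h1 ((n : ℝ)⁻¹ • X)
    have h3 := norm_exp_le h1 ((n : ℝ)⁻¹ • Y)
    rw [norm_smul, Real.norm_eq_abs, abs_of_nonneg hinv] at h2 h3
    rw [mul_add, Real.exp_add]
    exact mul_le_mul h2 h3 (norm_nonneg _) (Real.exp_pos _).le
  have hB : ‖exp ((n : ℝ)⁻¹ • (X + Y))‖ ≤ Real.exp ((n : ℝ)⁻¹ * (‖X‖ + ‖Y‖)) := by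
    refine (norm_exp_le h1 _).trans (Real.exp_le_exp.2 ?_)
    rw [norm_smul, Real.norm_eq_abs, abs_of_nonneg hinv]
    exact mul_le_mul_of_nonneg_left (norm_add_le _ _) hinv
  refine (norm_pow_sub_pow_le _ _ hA hB (Real.one_le_exp (by positivity)) h1 n).trans ?_
  rw [← Real.exp_nat_mul]
  have h5 : (n : ℝ) * ((n : ℝ)⁻¹ * (‖X‖ + ‖Y‖)) = ‖X‖ + ‖Y‖ := by
    rw [← mul_assoc, mul_inv_cancel₀ hn1.ne', one_mul]
  rw [h5]
  apply le_of_eq
  ring

end Trotter

section Group

variable {E : Type*} [NormedAddCommGroup E] [InnerProductSpace ℝ E] [CompleteSpace E]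
  [FiniteDimensional ℝ E]

lemma norm_one_le' : ‖(1 : E →L[ℝ] E)‖ ≤ 1 := ContinuousLinearMap.norm_id_le

/-- the exponential as a unit -/
noncomputable def expU (Z : E →L[ℝ] E) : (E →L[ℝ] E)ˣ where
  val := exp Z
  inv := exp (-Z)
  val_inv := by
    let _ : NormedAlgebra ℚ (E →L[ℝ] E) := .restrictScalars ℚ ℝ _
    rw [← exp_add_of_commute (Commute.neg_right (Commute.refl Z)), add_neg_cancel, exp_zero]
  inv_val := by
    let _ : NormedAlgebra ℚ (E →L[ℝ] E) := .restrictScalars ℚ ℝ _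
    rw [← exp_add_of_commute (Commute.neg_left (Commute.refl Z)), neg_add_cancel, exp_zero]

@[simp] lemma expU_val (Z : E →L[ℝ] E) : ((expU Z : (E →L[ℝ] E)ˣ) : E →L[ℝ] E) = exp Z := rfl

@[simp] lemma expU_inv_val (Z : E →L[ℝ] E) :
    (((expU Z)⁻¹ : (E →L[ℝ] E)ˣ) : E →L[ℝ] E) = exp (-Z) := rfl

lemma exp_add_smul (Z : E →L[ℝ] E) (s t : ℝ) :
    exp ((s + t) • Z) = exp (s • Z) * exp (t • Z) := by
  let _ : NormedAlgebra ℚ (E →L[ℝ] E) := .restrictScalars ℚ ℝ _
  rw [add_smul, exp_add_of_commute ((Commute.refl Z).smul_left s |>.smul_right t)]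

lemma exp_mul_exp_neg (Z : E →L[ℝ] E) : exp Z * exp (-Z) = 1 := (expU Z).val_inv

lemma exp_neg_mul_exp (Z : E →L[ℝ] E) : exp (-Z) * exp Z = 1 := (expU Z).inv_val

lemma exp_nsmul' (Z : E →L[ℝ] E) (n : ℕ) : exp ((n : ℝ) • Z) = exp Z ^ n := by
  let _ : NormedAlgebra ℚ (E →L[ℝ] E) := .restrictScalars ℚ ℝ _
  rw [Nat.cast_smul_eq_nsmul, exp_nsmul]

/-- Zariski closed in `GL(E)` -/
def ZClosed (G : Subgroup (E →L[ℝ] E)ˣ) : Prop :=
  ∀ g : (E →L[ℝ] E)ˣ, (∀ F ∈ PolyFun (E →L[ℝ] E), (∀ h ∈ G, F (h : E →L[ℝ] E) = 0) →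
    F (g : E →L[ℝ] E) = 0) → g ∈ G

/-- the Lie algebra -/
def lieSet (G : Subgroup (E →L[ℝ] E)ˣ) : Set (E →L[ℝ] E) :=
  {Z | ∀ t : ℝ, ∃ g ∈ G, (g : E →L[ℝ] E) = exp (t • Z)}

variable {G : Subgroup (E →L[ℝ] E)ˣ}

lemma ZClosed.mem_of_tendsto (hG : ZClosed G) {ι : Type*} {l : Filter ι} [l.NeBot]
    {g : ι → (E →L[ℝ] E)ˣ} (hg : ∀ᶠ i in l, g i ∈ G) {x : (E →L[ℝ] E)ˣ}
    (hx : Tendsto (fun i => (g i : E →L[ℝ] E)) l (𝓝 x)) : x ∈ G := by
  refine hG x (fun F hF hFG => ?_)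
  have h1 : Tendsto (fun i => F (g i : E →L[ℝ] E)) l (𝓝 (F x)) :=
    ((PolyFun.continuous hF).tendsto _).comp hx
  have h2 : Tendsto (fun i => F (g i : E →L[ℝ] E)) l (𝓝 0) := by
    refine tendsto_const_nhds.congr' ?_
    filter_upwards [hg] with i hi
    exact (hFG _ hi).symm
  exact tendsto_nhds_unique h1 h2

lemma mem_lieSet_iff {Z : E →L[ℝ] E} : Z ∈ lieSet G ↔ ∀ t : ℝ, expU (t • Z) ∈ G := by
  constructor
  · intro h t
    obtain ⟨g, hg, hgt⟩ := h t
    have : g = expU (t • Z) := Units.ext hgt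
    exact this ▸ hg
  · intro h t
    exact ⟨_, h t, rfl⟩

lemma expU_mem {Z : E →L[ℝ] E} (h : Z ∈ lieSet G) : expU Z ∈ G := by
  have := (mem_lieSet_iff.1 h) 1
  rwa [one_smul] at this

lemma smul_mem_lieSet {Z : E →L[ℝ] E} (h : Z ∈ lieSet G) (c : ℝ) : c • Z ∈ lieSet G := by
  rw [mem_lieSet_iff] at h ⊢
  intro t
  rw [smul_smul]
  exact h _

lemma zero_mem_lieSet : (0 : E →L[ℝ] E) ∈ lieSet G := by
  intro t
  exact ⟨1, G.one_mem, by rw [smul_zero, exp_zero]; rfl⟩

lemma neg_mem_lieSet {Z : E →L[ℝ] E} (h : Z ∈ lieSet G) : -Z ∈ lieSet G := by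
  have := smul_mem_lieSet h (-1)
  rwa [neg_one_smul] at this

lemma conj_mem_lieSet {Z : E →L[ℝ] E} (h : Z ∈ lieSet G) {g : (E →L[ℝ] E)ˣ} (hg : g ∈ G) :
    (g : E →L[ℝ] E) * Z * ((g⁻¹ : (E →L[ℝ] E)ˣ) : E →L[ℝ] E) ∈ lieSet G := by
  let _ : NormedAlgebra ℚ (E →L[ℝ] E) := .restrictScalars ℚ ℝ _
  intro t
  obtain ⟨k, hk, hkt⟩ := h t
  refine ⟨g * k * g⁻¹, G.mul_mem (G.mul_mem hg hk) (G.inv_mem hg), ?_⟩
  rw [Units.val_mul, Units.val_mul, hkt]
  have e : t • ((g : E →L[ℝ] E) * Z * ((g⁻¹ : (E →L[ℝ] E)ˣ) : E →L[ℝ] E)) =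
      (g : E →L[ℝ] E) * (t • Z) * ((g⁻¹ : (E →L[ℝ] E)ˣ) : E →L[ℝ] E) := by
    rw [mul_smul_comm, smul_mul_assoc]
  rw [e, exp_units_conj]

lemma add_mem_lieSet (hG : ZClosed G) {X Y : E →L[ℝ] E} (hX : X ∈ lieSet G) (hY : Y ∈ lieSet G) :
    X + Y ∈ lieSet G := by
  rw [mem_lieSet_iff] at hX hY ⊢
  intro t
  refine hG.mem_of_tendsto (l := atTop)
    (g := fun n : ℕ => (expU (((n : ℝ)⁻¹ * t) • X) * expU (((n : ℝ)⁻¹ * t) • Y)) ^ n)
    (Eventually.of_forall fun n => G.pow_mem (G.mul_mem (hX _) (hY _)) _) ?_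
  have h := tendsto_trotter norm_one_le' (t • X) (t • Y)
  rw [← smul_add] at h
  refine h.congr (fun n => ?_)
  rw [Units.val_pow_eq_pow_val, Units.val_mul, expU_val, expU_val, mul_smul, mul_smul]

lemma isClosed_lieSet (hG : ZClosed G) : IsClosed (lieSet G) := by
  rw [← isSeqClosed_iff_isClosed]
  intro u x hu hx
  rw [mem_lieSet_iff]
  intro t
  refine hG.mem_of_tendsto (l := atTop) (g := fun n => expU (t • u n))
    (Eventually.of_forall fun n => mem_lieSet_iff.1 (hu n) t) ?_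
  have h1 : Continuous (fun Z : E →L[ℝ] E => exp (t • Z)) := by
    let _ : NormedAlgebra ℚ (E →L[ℝ] E) := .restrictScalars ℚ ℝ _
    exact (NormedSpace.exp_continuous (𝔸 := E →L[ℝ] E)).comp (continuous_const_smul t)
  exact (h1.tendsto x).comp hx

/-- the Lie algebra as a subspace -/
def lieSub (hG : ZClosed G) : Submodule ℝ (E →L[ℝ] E) where
  carrier := lieSet G
  add_mem' := add_mem_lieSet hG
  zero_mem' := zero_mem_lieSet
  smul_mem' c _ h := smul_mem_lieSet h c

@[simp] lemma mem_lieSub (hG : ZClosed G) {Z : E →L[ℝ] E} : Z ∈ lieSub hG ↔ Z ∈ lieSet G := Iff.rfl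

lemma bracket_mem_lieSet (hG : ZClosed G) {X Y : E →L[ℝ] E} (hX : X ∈ lieSet G)
    (hY : Y ∈ lieSet G) : X * Y - Y * X ∈ lieSet G := by
  -- derivative at 0 of `exp (tX) Y exp (-tX)`
  have hd : HasDerivAt (fun t : ℝ => exp (t • X) * Y * exp (t • (-X))) (X * Y - Y * X) 0 := by
    have h1 := hasDerivAt_exp_smul_const (𝕂 := ℝ) X 0
    have h2 := hasDerivAt_exp_smul_const (𝕂 := ℝ) (-X) 0
    have h := (h1.mul_const Y).mul h2
    simp only [zero_smul, exp_zero, one_mul, mul_one] at h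
    have e : X * Y - Y * X = X * Y + Y * -X := by rw [mul_neg, sub_eq_add_neg]
    rw [e]
    exact h
  have hs := hd.tendsto_slope_zero
  have hcl := isClosed_lieSet hG
  refine hcl.mem_of_tendsto hs (Eventually.of_forall fun t => ?_)
  have h3 : exp ((0 + t) • X) * Y * exp ((0 + t) • (-X)) ∈ lieSet G := by
    have := conj_mem_lieSet hY (mem_lieSet_iff.1 hX (0 + t))
    rwa [expU_inv_val, expU_val, ← smul_neg] at this
  have h4 : exp ((0 : ℝ) • X) * Y * exp ((0 : ℝ) • (-X)) ∈ lieSet G := by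
    simpa using hY
  exact (lieSub hG).smul_mem _ ((lieSub hG).sub_mem h3 h4)

lemma star_mem_lieSet (hst : ∀ g ∈ G, star g ∈ G) {Z : E →L[ℝ] E} (h : Z ∈ lieSet G) :
    star Z ∈ lieSet G := by
  intro t
  obtain ⟨k, hk, hkt⟩ := h t
  refine ⟨star k, hst k hk, ?_⟩
  rw [Units.coe_star, hkt, star_exp, star_smul, star_trivial]

end Group

end H46

end Pool.Agent.Lib.MP_d9b062_al

end

/-! ## from `MP_d9b062_al_h46.Polar` -/

section
/-!
# Zariski closed self-adjoint groups: polar decomposition and the maximum principle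
-/

namespace Pool.Agent.Lib.MP_d9b062_al

namespace H46

open NormedSpace Filter
open scoped Topology

set_option linter.unusedSectionVars false

variable {E : Type*} [NormedAddCommGroup E] [InnerProductSpace ℝ E] [CompleteSpace E]
  [FiniteDimensional ℝ E]

/-! ### exponential sums -/

/-- the span of the real exponentials -/
def expSpan : Submodule ℝ (ℝ → ℝ) :=
  Submodule.span ℝ (Set.range fun ρ : ℝ => fun t : ℝ => Real.exp (ρ * t))

lemma exp_mem_expSpan (ρ : ℝ) : (fun t : ℝ => Real.exp (ρ * t)) ∈ expSpan :=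
  Submodule.subset_span ⟨ρ, rfl⟩

lemma const_mem_expSpan (c : ℝ) : (fun _ : ℝ => c) ∈ expSpan := by
  have h := expSpan.smul_mem c (exp_mem_expSpan 0)
  convert h using 1
  ext t
  simp

lemma mul_mem_expSpan {f g : ℝ → ℝ} (hf : f ∈ expSpan) (hg : g ∈ expSpan) :
    (fun t => f t * g t) ∈ expSpan := by
  have h := Submodule.mul_mem_mul hf hg
  unfold expSpan at h
  rw [Submodule.span_mul_span] at h
  refine Submodule.span_mono ?_ h
  rintro _ ⟨_, ⟨ρ, rfl⟩, _, ⟨σ, rfl⟩, rfl⟩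
  refine ⟨ρ + σ, ?_⟩
  ext t
  simp only [Pi.mul_apply]
  rw [← Real.exp_add]
  congr 1
  ring

lemma eq_zero_of_mem_expSpan {f : ℝ → ℝ} (hf : f ∈ expSpan) (h : ∀ n : ℕ, f n = 0) (t : ℝ) :
    f t = 0 := by
  classical
  unfold expSpan at hf
  rw [Finsupp.mem_span_range_iff_exists_finsupp] at hf
  obtain ⟨c, rfl⟩ := hf
  let χ : ℝ → (Multiplicative ℕ →* ℝ) := fun ρ => powersHom ℝ (Real.exp ρ)
  have hχ : Function.Injective χ := by
    intro ρ σ hρσ
    have h1 : χ ρ (Multiplicative.ofAdd 1) = χ σ (Multiplicative.ofAdd 1) := by rw [hρσ]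
    simp only [χ, powersHom_apply, toAdd_ofAdd, pow_one] at h1
    exact Real.exp_injective h1
  have hli := (linearIndependent_monoidHom (Multiplicative ℕ) ℝ).comp χ hχ
  have hc : c = 0 := by
    rw [linearIndependent_iff] at hli
    refine hli c ?_
    rw [Finsupp.linearCombination_apply]
    ext n
    have h2 := h (Multiplicative.toAdd n)
    rw [Finsupp.sum, Finset.sum_apply] at h2 ⊢
    rw [Pi.zero_apply, ← h2]
    refine Finset.sum_congr rfl (fun ρ _ => ?_)
    simp only [Pi.smul_apply, Function.comp_apply, χ, powersHom_apply]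
    rw [mul_comm ρ, Real.exp_nat_mul]
  rw [hc]
  simp

/-! ### diagonal operators -/

section Diag

variable {κ : Type*} [Fintype κ]

/-- the operator with matrix `diag c` in an orthonormal basis -/
noncomputable def diagOp (b : OrthonormalBasis κ ℝ E) (c : κ → ℝ) : E →L[ℝ] E :=
  ∑ i, c i • (innerSL ℝ (b i)).smulRight (b i)

lemma diagOp_apply (b : OrthonormalBasis κ ℝ E) (c : κ → ℝ) (v : E) :
    diagOp b c v = ∑ i, c i • (inner ℝ (b i) v • b i) := by
  simp [diagOp]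

lemma diagOp_basis [DecidableEq κ] (b : OrthonormalBasis κ ℝ E) (c : κ → ℝ) (i : κ) :
    diagOp b c (b i) = c i • b i := by
  rw [diagOp_apply, Finset.sum_eq_single i]
  · rw [orthonormal_iff_ite.1 b.orthonormal, if_pos rfl, one_smul]
  · intro j _ hj
    rw [orthonormal_iff_ite.1 b.orthonormal, if_neg hj, zero_smul, smul_zero]
  · intro h
    exact absurd (Finset.mem_univ _) h

lemma ext_basis {S T : E →L[ℝ] E} (b : OrthonormalBasis κ ℝ E) (h : ∀ i, S (b i) = T (b i)) :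
    S = T := by
  apply ContinuousLinearMap.coe_injective
  exact b.toBasis.ext (fun i => by simpa using h i)

lemma star_diagOp (b : OrthonormalBasis κ ℝ E) (c : κ → ℝ) : star (diagOp b c) = diagOp b c := by
  rw [ContinuousLinearMap.star_eq_adjoint]
  symm
  rw [ContinuousLinearMap.eq_adjoint_iff]
  intro x y
  rw [diagOp_apply, diagOp_apply, sum_inner, inner_sum]
  refine Finset.sum_congr rfl (fun i _ => ?_)
  rw [real_inner_smul_left, real_inner_smul_left, real_inner_smul_right, real_inner_smul_right,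
    real_inner_comm x (b i)]
  ring

lemma exp_apply_of_eigen {Z : E →L[ℝ] E} {v : E} {a : ℝ} (h : Z v = a • v) :
    exp Z v = Real.exp a • v := by
  have hpow : ∀ n : ℕ, (Z ^ n) v = a ^ n • v := by
    intro n
    induction n with
    | zero => simp
    | succ n ih =>
      rw [pow_succ, mul_apply_eq_comp, h, map_smul, ih, smul_smul, pow_succ, mul_comm]
  have hs := NormedSpace.exp_series_hasSum_exp' (𝕂 := ℝ) Z
  have hs2 := (ContinuousLinearMap.apply ℝ E v).hasSum hs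
  have hr := NormedSpace.exp_series_hasSum_exp' (𝕂 := ℝ) a
  have hr2 := hr.smul_const v
  rw [← Real.exp_eq_exp_ℝ] at hr2
  refine hs2.unique ?_
  convert hr2 using 1
  ext n
  simp only [ContinuousLinearMap.apply_apply, smul_eq_mul, map_smul]
  rw [hpow, smul_smul]

lemma exp_diagOp [DecidableEq κ] (b : OrthonormalBasis κ ℝ E) (c : κ → ℝ) (t : ℝ) :
    exp (t • diagOp b c) = diagOp b (fun i => Real.exp (t * c i)) := by
  refine ext_basis b (fun i => ?_)
  rw [diagOp_basis]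
  refine exp_apply_of_eigen ?_
  rw [smul_apply, diagOp_basis, smul_smul]

lemma exists_diag {T : E →L[ℝ] E} (hT : star T = T) :
    ∃ (b : OrthonormalBasis (Fin (Module.finrank ℝ E)) ℝ E)
      (c : Fin (Module.finrank ℝ E) → ℝ), T = diagOp b c := by
  have hsym : (T : E →ₗ[ℝ] E).IsSymmetric := by
    intro x y
    have := ContinuousLinearMap.adjoint_inner_left T y x
    rw [← ContinuousLinearMap.star_eq_adjoint, hT] at this
    exact this
  refine ⟨hsym.eigenvectorBasis rfl, hsym.eigenvalues rfl, ?_⟩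
  refine ext_basis (hsym.eigenvectorBasis rfl) (fun i => ?_)
  rw [diagOp_basis]
  exact hsym.apply_eigenvectorBasis rfl i

/-- polynomial functions along a one-parameter group of symmetric operators are exponential sums -/
lemma polyFun_exp_mem_expSpan [DecidableEq κ] {F : (E →L[ℝ] E) → ℝ} (hF : F ∈ PolyFun (E →L[ℝ] E))
    (b : OrthonormalBasis κ ℝ E) (c : κ → ℝ) : (fun t : ℝ => F (exp (t • diagOp b c))) ∈ expSpan := by
  refine PolyFun.induction (p := fun F => (fun t : ℝ => F (exp (t • diagOp b c))) ∈ expSpan)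
    (fun φ => ?_) (fun c => const_mem_expSpan c) (fun f g hf hg => expSpan.add_mem hf hg)
    (fun f g hf hg => mul_mem_expSpan hf hg) hF
  have h1 : (fun t : ℝ => φ (exp (t • diagOp b c))) =
      fun t => ∑ i, φ ((innerSL ℝ (b i)).smulRight (b i)) * Real.exp (c i * t) := by
    ext t
    rw [exp_diagOp, diagOp, map_sum]
    refine Finset.sum_congr rfl (fun i _ => ?_)
    rw [map_smul, smul_eq_mul, mul_comm, mul_comm t]
  rw [h1]
  have h2 : (fun t : ℝ => ∑ i, φ ((innerSL ℝ (b i)).smulRight (b i)) * Real.exp (c i * t)) =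
      ∑ i, φ ((innerSL ℝ (b i)).smulRight (b i)) • (fun t : ℝ => Real.exp (c i * t)) := by
    ext t
    simp
  rw [h2]
  exact expSpan.sum_mem (fun i _ => expSpan.smul_mem _ (exp_mem_expSpan _))

end Diag

/-! ### the polar decomposition -/

variable {G : Subgroup (E →L[ℝ] E)ˣ}

/-- a symmetric operator all of whose natural powers exponentiate into `G` is in the Lie algebra -/
lemma mem_lieSet_of_nat (hG : ZClosed G) {Y : E →L[ℝ] E} (hY : star Y = Y)
    (h : ∀ n : ℕ, expU ((n : ℝ) • Y) ∈ G) : Y ∈ lieSet G := by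
  classical
  obtain ⟨b, c, rfl⟩ := exists_diag hY
  rw [mem_lieSet_iff]
  intro t
  refine hG _ (fun F hF hFG => ?_)
  have h1 := polyFun_exp_mem_expSpan hF b c
  exact eq_zero_of_mem_expSpan h1 (fun n => hFG _ (h n)) t

/-- whatever commutes with a diagonal operator commutes with its functions -/
lemma comm_diagOp_comp {κ : Type*} [Fintype κ] [DecidableEq κ] (b : OrthonormalBasis κ ℝ E)
    (c : κ → ℝ) (f : ℝ → ℝ) {T : E →L[ℝ] E} (h : T * diagOp b c = diagOp b c * T) :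
    T * diagOp b (fun i => f (c i)) = diagOp b (fun i => f (c i)) * T := by
  have hin : ∀ (c : κ → ℝ) (v : E) (j : κ), inner ℝ (b j) (diagOp b c v) = c j * inner ℝ (b j) v := by
    intro c v j
    have h1 := star_diagOp b c
    rw [ContinuousLinearMap.star_eq_adjoint] at h1
    rw [← ContinuousLinearMap.adjoint_inner_left, h1, diagOp_basis, real_inner_smul_left]
  refine ext_basis b (fun i => ?_)
  rw [mul_apply_eq_comp, mul_apply_eq_comp, diagOp_basis, map_smul]
  refine InnerProductSpace.ext_inner_left_basis b.toBasis (fun j => ?_)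
  rw [OrthonormalBasis.coe_toBasis, real_inner_smul_right, hin]
  have h2 := congrArg (fun S : E →L[ℝ] E => inner ℝ (b j) (S (b i))) h
  simp only [mul_apply_eq_comp] at h2
  rw [diagOp_basis, map_smul, real_inner_smul_right, hin] at h2
  have h3 : (c i - c j) * inner ℝ (b j) (T (b i)) = 0 := by rw [sub_mul, h2, sub_self]
  rcases mul_eq_zero.1 h3 with h4 | h4
  · rw [sub_eq_zero.1 h4]
  · rw [h4, mul_zero, mul_zero]

/-- polar decomposition in a Zariski closed self-adjoint group -/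
theorem polar (hG : ZClosed G) (hst : ∀ g ∈ G, star g ∈ G) {g : (E →L[ℝ] E)ˣ} (hg : g ∈ G) :
    ∃ Y ∈ lieSet G, star Y = Y ∧ star (g : E →L[ℝ] E) * (g : E →L[ℝ] E) = exp ((2 : ℝ) • Y) ∧
      (∀ T : E →L[ℝ] E, T * (star (g : E →L[ℝ] E) * g) = (star (g : E →L[ℝ] E) * g) * T →
        T * Y = Y * T) ∧
      ∃ k ∈ G, star (k : E →L[ℝ] E) * (k : E →L[ℝ] E) = 1 ∧
        (g : E →L[ℝ] E) = (k : E →L[ℝ] E) * exp Y := by
  classical
  set T : E →L[ℝ] E := star (g : E →L[ℝ] E) * (g : E →L[ℝ] E) with hT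
  have hTs : star T = T := by rw [hT, star_mul, star_star]
  obtain ⟨b, c, hc⟩ := exists_diag hTs
  have hcpos : ∀ i, 0 < c i := by
    intro i
    have h1 : inner ℝ (T (b i)) (b i) = c i := by
      rw [hc, diagOp_basis, real_inner_smul_left, orthonormal_iff_ite.1 b.orthonormal,
        if_pos rfl, mul_one]
    have h2 : inner ℝ (T (b i)) (b i) = ‖(g : E →L[ℝ] E) (b i)‖ ^ 2 := by
      rw [hT, mul_apply_eq_comp, ContinuousLinearMap.star_eq_adjoint,
        ContinuousLinearMap.adjoint_inner_left, real_inner_self_eq_norm_sq]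
    have h3 : (g : E →L[ℝ] E) (b i) ≠ 0 := by
      intro h0
      have h4 : ((g⁻¹ : (E →L[ℝ] E)ˣ) : E →L[ℝ] E) ((g : E →L[ℝ] E) (b i)) = b i := by
        rw [← mul_apply_eq_comp, Units.inv_mul]; rfl
      rw [h0, map_zero] at h4
      have h5 := b.orthonormal.1 i
      rw [← h4, norm_zero] at h5
      exact zero_ne_one h5
    rw [← h1, h2]
    have := norm_pos_iff.2 h3
    positivity
  set Y : E →L[ℝ] E := diagOp b (fun i => Real.log (c i) / 2) with hYdef
  have hYs : star Y = Y := star_diagOp _ _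
  have hexp2 : exp ((2 : ℝ) • Y) = T := by
    rw [hYdef, exp_diagOp, hc]
    congr 1
    ext i
    have e : 2 * (Real.log (c i) / 2) = Real.log (c i) := by ring
    rw [e, Real.exp_log (hcpos i)]
  have hYmem : Y ∈ lieSet G := by
    have h2Y : (2 : ℝ) • Y ∈ lieSet G := by
      refine mem_lieSet_of_nat hG ?_ (fun n => ?_)
      · rw [star_smul, star_trivial, hYs]
      · have : expU ((n : ℝ) • (2 : ℝ) • Y) = (star g * g) ^ n := by
          ext1
          rw [expU_val, exp_nsmul', hexp2, Units.val_pow_eq_pow_val, Units.val_mul, Units.coe_star]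
        rw [this]
        exact G.pow_mem (G.mul_mem (hst g hg) hg) n
    have := smul_mem_lieSet h2Y (1 / 2)
    rwa [smul_smul, show (1 / 2 : ℝ) * 2 = 1 by norm_num, one_smul] at this
  refine ⟨Y, hYmem, hYs, hexp2.symm, fun S hS => ?_, g * (expU Y)⁻¹,
    G.mul_mem hg (G.inv_mem (expU_mem hYmem)), ?_, ?_⟩
  · rw [hc] at hS
    exact comm_diagOp_comp b c (fun x => Real.log x / 2) hS
  · rw [Units.val_mul, star_mul, expU_inv_val]
    have hsn : star (exp (-Y)) = exp (-Y) := by rw [star_exp, star_neg, hYs]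
    rw [hsn]
    have e : exp (-Y) * star (g : E →L[ℝ] E) * ((g : E →L[ℝ] E) * exp (-Y)) =
        exp (-Y) * T * exp (-Y) := by rw [hT]; noncomm_ring
    rw [e, ← hexp2, show (2 : ℝ) • Y = ((1 : ℝ) + 1) • Y by norm_num, exp_add_smul, one_smul,
      ← mul_assoc, exp_neg_mul_exp, one_mul, exp_mul_exp_neg]
  · rw [Units.val_mul, expU_inv_val, mul_assoc, exp_neg_mul_exp, mul_one]

/-! ### the maximum principle -/

/-- the trace, as a continuous linear functional -/
noncomputable def tr : (E →L[ℝ] E) →L[ℝ] ℝ :=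
  LinearMap.toContinuousLinearMap ((LinearMap.trace ℝ E) ∘ₗ ContinuousLinearMap.coeLM ℝ)

lemma tr_apply (T : E →L[ℝ] E) : tr T = LinearMap.trace ℝ E (T : E →ₗ[ℝ] E) := rfl

lemma tr_mul_comm (S T : E →L[ℝ] E) : tr (S * T) = tr (T * S) := by
  rw [tr_apply, tr_apply]
  exact LinearMap.trace_mul_comm ℝ (S : E →ₗ[ℝ] E) (T : E →ₗ[ℝ] E)

lemma tr_star_mul_self (T : E →L[ℝ] E) {κ : Type*} [Fintype κ] (b : OrthonormalBasis κ ℝ E) :
    tr (star T * T) = ∑ i, ‖T (b i)‖ ^ 2 := by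
  rw [tr_apply, LinearMap.trace_eq_sum_inner _ b]
  refine Finset.sum_congr rfl (fun i _ => ?_)
  have : ((star T * T : E →L[ℝ] E) : E →ₗ[ℝ] E) (b i) = star T (T (b i)) := rfl
  rw [this, ContinuousLinearMap.star_eq_adjoint, ContinuousLinearMap.adjoint_inner_right,
    real_inner_self_eq_norm_sq]

lemma tr_star_mul_self_nonneg (T : E →L[ℝ] E) : 0 ≤ tr (star T * T) := by
  rw [tr_star_mul_self T (stdOrthonormalBasis ℝ E)]
  positivity

lemma eq_zero_of_tr_star_mul_self {T : E →L[ℝ] E} (h : tr (star T * T) = 0) : T = 0 := by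
  rw [tr_star_mul_self T (stdOrthonormalBasis ℝ E)] at h
  refine ext_basis (stdOrthonormalBasis ℝ E) (fun i => ?_)
  have h1 := (Finset.sum_eq_zero_iff_of_nonneg (fun i _ => sq_nonneg _)).1 h i (Finset.mem_univ i)
  rw [pow_eq_zero_iff two_ne_zero, norm_eq_zero] at h1
  rw [h1]; rfl

/-- the maximal compact subgroup, as a set of operators -/
def kSet (G : Subgroup (E →L[ℝ] E)ˣ) : Set (E →L[ℝ] E) :=
  {k | star k * k = 1 ∧ ∃ g ∈ G, (g : E →L[ℝ] E) = k}

lemma mul_star_of_star_mul {k : E →L[ℝ] E} (h : star k * k = 1) : k * star k = 1 := by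
  have h1 : ((star k : E →L[ℝ] E) : E →ₗ[ℝ] E) * (k : E →ₗ[ℝ] E) = 1 := by
    ext v
    have := congrArg (fun T : E →L[ℝ] E => T v) h
    exact this
  have h2 := mul_eq_one_comm.1 h1
  ext v
  have := congrArg (fun T : E →ₗ[ℝ] E => T v) h2
  exact this

lemma norm_le_one_of_star_mul {k : E →L[ℝ] E} (h : star k * k = 1) : ‖k‖ ≤ 1 := by
  refine ContinuousLinearMap.opNorm_le_bound _ zero_le_one (fun v => ?_)
  have h1 : ‖k v‖ ^ 2 = ‖v‖ ^ 2 := by
    rw [← real_inner_self_eq_norm_sq, ← real_inner_self_eq_norm_sq,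
      ← ContinuousLinearMap.adjoint_inner_right, ← ContinuousLinearMap.star_eq_adjoint,
      ← mul_apply_eq_comp, h]
    rfl
  have h2 : ‖k v‖ = ‖v‖ := by
    exact (sq_eq_sq₀ (norm_nonneg _) (norm_nonneg _)).1 h1
  rw [h2, one_mul]

lemma isCompact_kSet (hG : ZClosed G) : IsCompact (kSet G) := by
  rw [Metric.isCompact_iff_isClosed_bounded]
  constructor
  · rw [← isSeqClosed_iff_isClosed]
    intro u x hu hx
    have h1 : star x * x = 1 := by
      have h2 : Tendsto (fun n => star (u n) * u n) atTop (𝓝 (star x * x)) :=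
        ((continuous_star.tendsto x).comp hx).mul hx
      have h3 : (fun n => star (u n) * u n) = fun _ => (1 : E →L[ℝ] E) := by
        ext1 n
        exact (hu n).1
      rw [h3] at h2
      exact (tendsto_nhds_unique tendsto_const_nhds h2).symm
    refine ⟨h1, ⟨x, star x, mul_star_of_star_mul h1, h1⟩, ?_, rfl⟩
    choose g hg hgu using fun n => (hu n).2
    refine hG.mem_of_tendsto (l := atTop) (g := g) (Eventually.of_forall hg) ?_
    refine hx.congr (fun n => ?_)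
    exact (hgu n).symm
  · refine (Metric.isBounded_closedBall (x := (0 : E →L[ℝ] E)) (r := 1)).subset ?_
    intro k hk
    rw [mem_closedBall_zero_iff]
    exact norm_le_one_of_star_mul hk.1

lemma one_mem_kSet : (1 : E →L[ℝ] E) ∈ kSet G := ⟨by simp, 1, G.one_mem, rfl⟩

lemma exp_skew_mem_kSet {W : E →L[ℝ] E} (hW : W ∈ lieSet G) (hWs : star W = -W) (t : ℝ) :
    exp (t • W) ∈ kSet G := by
  refine ⟨?_, expU (t • W), mem_lieSet_iff.1 hW t, rfl⟩
  rw [star_exp, star_smul, star_trivial, hWs, smul_neg, exp_neg_mul_exp]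

lemma mul_mem_kSet {k l : E →L[ℝ] E} (hk : k ∈ kSet G) (hl : l ∈ kSet G) : k * l ∈ kSet G := by
  obtain ⟨hk1, g, hg, rfl⟩ := hk
  obtain ⟨hl1, h, hh, rfl⟩ := hl
  refine ⟨?_, g * h, G.mul_mem hg hh, rfl⟩
  rw [star_mul]
  calc star (h : E →L[ℝ] E) * star (g : E →L[ℝ] E) * ((g : E →L[ℝ] E) * h)
      = star (h : E →L[ℝ] E) * (star (g : E →L[ℝ] E) * g) * h := by noncomm_ring
    _ = 1 := by rw [hk1, mul_one, hl1]

lemma star_mem_kSet (hst : ∀ g ∈ G, star g ∈ G) {k : E →L[ℝ] E} (hk : k ∈ kSet G) :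
    star k ∈ kSet G := by
  obtain ⟨hk1, g, hg, rfl⟩ := hk
  exact ⟨by rw [star_star]; exact mul_star_of_star_mul hk1, star g, hst g hg, rfl⟩

lemma conj_k_mem_lieSet {k Y : E →L[ℝ] E} (hk : k ∈ kSet G) (hY : Y ∈ lieSet G) :
    k * Y * star k ∈ lieSet G := by
  obtain ⟨hk1, g, hg, rfl⟩ := hk
  have h1 : ((g⁻¹ : (E →L[ℝ] E)ˣ) : E →L[ℝ] E) = star (g : E →L[ℝ] E) := by
    calc ((g⁻¹ : (E →L[ℝ] E)ˣ) : E →L[ℝ] E)
        = (star (g : E →L[ℝ] E) * g) * ((g⁻¹ : (E →L[ℝ] E)ˣ) : E →L[ℝ] E) := by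
          rw [hk1, one_mul]
      _ = star (g : E →L[ℝ] E) := by rw [mul_assoc, Units.mul_inv, mul_one]
  rw [← h1]
  exact conj_mem_lieSet hY hg

/-- The maximum principle: a symmetric element `Y` of the Lie algebra is conjugate under the
maximal compact group to an element commuting with `H₀` and satisfying the second order condition. -/
theorem max_principle (hG : ZClosed G) {Y H₀ : E →L[ℝ] E} (hY : Y ∈ lieSet G) (hYs : star Y = Y)
    (hH : H₀ ∈ lieSet G) (hHs : star H₀ = H₀) :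
    ∃ k ∈ kSet G, (k * Y * star k) * H₀ = H₀ * (k * Y * star k) ∧
      ∀ W ∈ lieSet G, star W = -W →
        0 ≤ tr ((W * (k * Y * star k) - (k * Y * star k) * W) * (W * H₀ - H₀ * W)) := by
  obtain ⟨k, hk, hmax⟩ := (isCompact_kSet hG).exists_isMaxOn ⟨1, one_mem_kSet⟩
    (f := fun k => tr (k * Y * star k * H₀))
    (Continuous.continuousOn (by fun_prop))
  set Z : E →L[ℝ] E := k * Y * star k with hZ
  have hZmem : Z ∈ lieSet G := conj_k_mem_lieSet hk hY
  have hZs : star Z = Z := by rw [hZ, star_mul, star_mul, star_star, hYs, mul_assoc]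
  -- the function along a one-parameter group
  have key : ∀ W ∈ lieSet G, star W = -W → tr ((W * Z - Z * W) * H₀) = 0 ∧
      tr ((W * (W * Z - Z * W) - (W * Z - Z * W) * W) * H₀) ≤ 0 := by
    intro W hW hWs
    set φ : ℝ → ℝ := fun t => tr (exp (t • W) * Z * exp (t • (-W)) * H₀) with hφ
    have hle : ∀ t, φ t ≤ φ 0 := by
      intro t
      have h1 := hmax (mul_mem_kSet (exp_skew_mem_kSet hW hWs t) hk)
      simp only [Set.mem_ofPred_eq] at h1
      have h2 : exp (t • W) * k * Y * star (exp (t • W) * k) * H₀ =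
          exp (t • W) * Z * exp (t • (-W)) * H₀ := by
        have h4 : star (exp (t • W) * k) = star k * exp (t • (-W)) := by
          rw [star_mul, star_exp, star_smul, hWs, star_trivial t]
        rw [h4, hZ]
        simp only [mul_assoc]
      have h3 : φ 0 = tr (k * Y * star k * H₀) := by
        simp [hφ, hZ]
      rw [h3]
      show tr (exp (t • W) * Z * exp (t • (-W)) * H₀) ≤ _
      rw [← h2]
      exact h1
    -- derivative of `exp (tW) X exp (-tW)`
    have hder : ∀ X : E →L[ℝ] E, ∀ t : ℝ,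
        HasDerivAt (fun t : ℝ => tr (exp (t • W) * X * exp (t • (-W)) * H₀))
          (tr (exp (t • W) * (W * X - X * W) * exp (t • (-W)) * H₀)) t := by
      intro X t
      have h1 := hasDerivAt_exp_smul_const (𝕂 := ℝ) W t
      have h2 := hasDerivAt_exp_smul_const' (𝕂 := ℝ) (-W) t
      have h := ((h1.mul_const X).mul h2).mul_const H₀
      have h3 := (tr (E := E)).hasFDerivAt.comp_hasDerivAt t h
      have e : exp (t • W) * (W * X - X * W) * exp (t • (-W)) * H₀ =
          (exp (t • W) * W * X * exp (t • (-W)) + exp (t • W) * X * (-W * exp (t • (-W)))) * H₀ := by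
        noncomm_ring
      rw [e]
      exact h3
    have hd1 : deriv φ = fun t => tr (exp (t • W) * (W * Z - Z * W) * exp (t • (-W)) * H₀) := by
      ext t
      exact (hder Z t).deriv
    have hd1' : deriv φ 0 = tr ((W * Z - Z * W) * H₀) := by
      rw [hd1]; simp
    have hd2 : deriv (deriv φ) 0 = tr ((W * (W * Z - Z * W) - (W * Z - Z * W) * W) * H₀) := by
      rw [hd1, (hder (W * Z - Z * W) 0).deriv]
      simp
    have hmaxl : IsLocalMax φ 0 := Eventually.of_forall hle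
    have hcrit : deriv φ 0 = 0 := hmaxl.deriv_eq_zero
    refine ⟨hd1' ▸ hcrit, ?_⟩
    rw [← hd2]
    by_contra hpos
    rw [not_le] at hpos
    have hmin := isLocalMin_of_deriv_deriv_pos hpos hcrit (hder Z 0).continuousAt
    have hconst : φ =ᶠ[𝓝 0] fun _ => φ 0 := by
      filter_upwards [hmin] with t ht
      exact le_antisymm (hle t) ht
    have h1 : deriv (deriv φ) 0 = 0 := by
      rw [hconst.deriv.deriv_eq]
      simp
    linarith
  have hcomm : Z * H₀ = H₀ * Z := by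
    have hW : Z * H₀ - H₀ * Z ∈ lieSet G := bracket_mem_lieSet hG hZmem hH
    have hWs : star (Z * H₀ - H₀ * Z) = -(Z * H₀ - H₀ * Z) := by
      rw [star_sub, star_mul Z, star_mul H₀, hZs, hHs]
      abel
    have h1 := (key _ hW hWs).1
    set W := Z * H₀ - H₀ * Z with hWdef
    have h2 : tr ((W * Z - Z * W) * H₀) = - tr (star W * W) := by
      have e1 : tr (W * Z * H₀) - tr (Z * W * H₀) = tr (W * Z * H₀) - tr (W * H₀ * Z) := by
        congr 1
        rw [mul_assoc Z, tr_mul_comm Z]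
      rw [sub_mul, map_sub, e1, hWs, ← map_sub, neg_mul, map_neg, neg_neg]
      congr 1
      rw [hWdef]
      noncomm_ring
    rw [h2, neg_eq_zero] at h1
    exact sub_eq_zero.1 (eq_zero_of_tr_star_mul_self h1)
  refine ⟨k, hk, hcomm, fun W hW hWs => ?_⟩
  have h1 := (key W hW hWs).2
  have h2 : tr ((W * (W * Z - Z * W) - (W * Z - Z * W) * W) * H₀) =
      - tr ((W * Z - Z * W) * (W * H₀ - H₀ * W)) := by
    set X := W * Z - Z * W
    have e1 : tr (W * X * H₀) = tr (X * H₀ * W) := by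
      rw [mul_assoc, tr_mul_comm]
    rw [sub_mul, map_sub, e1, mul_sub, map_sub]
    have e2 : X * W * H₀ = X * (W * H₀) := mul_assoc _ _ _
    have e3 : X * H₀ * W = X * (H₀ * W) := mul_assoc _ _ _
    rw [e2, e3]
    ring
  linarith

end H46

end Pool.Agent.Lib.MP_d9b062_al

end
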