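import Mathlib
import Pool.Agent.Lib.MP_d9b062_al_m.MLie
import Pool.Agent.Lib.MP_d9b062_al_m.MBase
import Pool.Agent.Lib.MP_d9b062_al_m.MWeights
import Pool.Agent.Lib.MP_d9b062_al_m.MRat

/-!
MP_d9b062_al: merged modules (to shorten the build).
-/

set_option autoImplicit false

/-! ## from `MP_d9b062_al_h46.Alg` -/

section
/-!
# The Lie algebra of a connected semisimple group (task ALG, part)
-/

namespace Pool.Agent.Lib.MP_d9b062_al

open NormedSpace Filter H46
open scoped Topology

section ALG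

variable {N : ℕ} {G : Subgroup (Op N)ˣ}

namespace Struct46

theorem polyVal_mem (p : MvPolynomial (Fin N × Fin N) ℝ) :
    (fun T : Op N => polyVal p T) ∈ PolyFun (Op N) := by
  induction p using MvPolynomial.induction_on with
  | C a =>
    have : (fun T : Op N => polyVal (MvPolynomial.C a) T) = fun _ => a := by
      ext T; simp [polyVal]
    rw [this]
    exact PolyFun.const a
  | add p q hp hq =>
    have : (fun T : Op N => polyVal (p + q) T) = fun T => polyVal p T + polyVal q T := by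
      ext T; simp [polyVal]
    rw [this]
    exact PolyFun.add hp hq
  | mul_X p ij hp =>
    have : (fun T : Op N => polyVal (p * MvPolynomial.X ij) T) =
        fun T => polyVal p T * T (EuclideanSpace.single ij.2 1) ij.1 := by
      ext T; simp [polyVal]
    rw [this]
    refine PolyFun.mul hp ?_
    let φ : Op N →ₗ[ℝ] ℝ :=
      { toFun := fun T => T (EuclideanSpace.single ij.2 1) ij.1
        map_add' := fun S T => by simp
        map_smul' := fun c T => by simp }
    exact PolyFun.linear φ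

theorem zClosed (hG : IsConnectedSemisimple G) : ZClosed G := fun g hg =>
  hG.closed g fun p hp => hg _ (polyVal_mem p) hp

theorem lieAlg_add (hG : IsConnectedSemisimple G) {Y Z : Op N} (hY : Y ∈ lieAlg G)
    (hZ : Z ∈ lieAlg G) : Y + Z ∈ lieAlg G := add_mem_lieSet (zClosed hG) hY hZ

theorem lieAlg_smul {Z : Op N} (c : ℝ) (hZ : Z ∈ lieAlg G) : c • Z ∈ lieAlg G :=
  smul_mem_lieSet hZ c

theorem lieAlg_bracket (hG : IsConnectedSemisimple G) {Y Z : Op N} (hY : Y ∈ lieAlg G)
    (hZ : Z ∈ lieAlg G) : Y * Z - Z * Y ∈ lieAlg G :=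
  bracket_mem_lieSet (zClosed hG) hY hZ

theorem lieAlg_star (hG : IsConnectedSemisimple G) {Z : Op N} (hZ : Z ∈ lieAlg G) :
    star Z ∈ lieAlg G := star_mem_lieSet hG.star_mem hZ

theorem lieAlg_conj {g : (Op N)ˣ} (hg : g ∈ G) {Z : Op N} (hZ : Z ∈ lieAlg G) :
    (g : Op N) * Z * ((g⁻¹ : (Op N)ˣ) : Op N) ∈ lieAlg G := conj_mem_lieSet hZ hg

/-- logarithm of `g* g` (the powers of a positive element of an algebraic group are in it) -/
theorem exists_log (hG : IsConnectedSemisimple G) {g : (Op N)ˣ} (hg : g ∈ G) :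
    ∃ Y ∈ lieAlg G, star Y = Y ∧ star (g : Op N) * g = exp ((2 : ℝ) • Y) ∧
      ∀ T : Op N, T * (star (g : Op N) * g) = (star (g : Op N) * g) * T → T * Y = Y * T := by
  obtain ⟨Y, hY, hs, he, hc, -⟩ := polar (zClosed hG) hG.star_mem hg
  exact ⟨Y, hY, hs, he, hc⟩

end Struct46

end ALG

end Pool.Agent.Lib.MP_d9b062_al

end

/-! ## from `MP_d9b062_al_h46.Root` -/

section
/-!
# Root components of operators
-/

namespace Pool.Agent.Lib.MP_d9b062_al

open NormedSpace Filter H46
open scoped Topology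

section

variable {N : ℕ} {G : Subgroup (Op N)ˣ} {A : Submodule ℝ (Op N)}
  {ι : Type} [Fintype ι] [LinearOrder ι] (W : WeightData A ι)

namespace H46

lemma op_smul_mul (c : ℝ) (S T : Op N) : (c • S) * T = c • (S * T) := Algebra.smul_mul_assoc c S T

lemma op_mul_smul (c : ℝ) (S T : Op N) : S * (c • T) = c • (S * T) := Algebra.mul_smul_comm c S T

lemma op_star_sub (S T : Op N) : star (S - T) = star S - star T := star_sub S T

lemma op_star_add (S T : Op N) : star (S + T) = star S + star T := star_add S T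

lemma op_star_zero : star (0 : Op N) = 0 := star_zero (Op N)

lemma op_star_smul (c : ℝ) (S : Op N) : star (c • S) = c • star S :=
  (star_smul c S).trans (by rw [star_trivial c])

lemma op_smul_cancel {a b : ℝ} {S : Op N} (h : a • S = b • S) (hS : S ≠ 0) : a = b := by
  have hex : ∃ v, S v ≠ 0 := by
    by_contra hcon
    push Not at hcon
    exact hS (ContinuousLinearMap.ext hcon)
  obtain ⟨v, hv⟩ := hex
  have h1 : a • S v = b • S v := congrArg (fun T : Op N => T v) h
  exact smul_left_injective ℝ hv h1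

end H46

lemma WeightData.A_mul_P46 (K : A) (i : ι) : (K : Op N) * W.P i = W.m K i • W.P i := by
  rw [W.eq_sum K, Finset.sum_mul, Finset.sum_eq_single i]
  · rw [op_smul_mul, W.grading.idem]
  · intro j _ hj
    rw [op_smul_mul, W.grading.orth j i hj, smul_zero]
  · intro h; exact absurd (Finset.mem_univ i) h

lemma WeightData.P_mul_A46 (K : A) (i : ι) : W.P i * (K : Op N) = W.m K i • W.P i := by
  rw [W.eq_sum K, Finset.mul_sum, Finset.sum_eq_single i]
  · rw [op_mul_smul, W.grading.idem]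
  · intro j _ hj
    rw [op_mul_smul, W.grading.orth i j hj.symm, smul_zero]
  · intro h; exact absurd (Finset.mem_univ i) h

/-- the component of `Z` with `ad H0`-eigenvalue `δ` -/
noncomputable def WeightData.compo46 (δ : ℝ) (Z : Op N) : Op N :=
  ∑ i, ∑ j, (if W.m W.H0 i - W.m W.H0 j = δ then W.P i * Z * W.P j else 0)

lemma WeightData.compo_mem46 (hG : IsConnectedSemisimple G) (hA : IsCartan G A) {Z : Op N}
    (hZ : Z ∈ lieAlg G) (δ : ℝ) : W.compo46 δ Z ∈ lieAlg G := by
  classical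
  exact W.component_mem hG hA hZ (fun x => x = δ)

lemma WeightData.block_compo46 (δ : ℝ) (Z : Op N) (a b : ι) :
    W.P a * W.compo46 δ Z * W.P b =
      if W.m W.H0 a - W.m W.H0 b = δ then W.P a * Z * W.P b else 0 := by
  classical
  unfold WeightData.compo46
  rw [Finset.mul_sum, Finset.sum_mul, Finset.sum_eq_single a]
  · rw [Finset.mul_sum, Finset.sum_mul, Finset.sum_eq_single b]
    · split_ifs with h
      · calc W.P a * (W.P a * Z * W.P b) * W.P b
            = (W.P a * W.P a) * Z * (W.P b * W.P b) := by noncomm_ring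
          _ = W.P a * Z * W.P b := by rw [W.grading.idem, W.grading.idem]
      · rw [mul_zero, zero_mul]
    · intro j _ hj
      split_ifs with h
      · calc W.P a * (W.P a * Z * W.P j) * W.P b
            = W.P a * (W.P a * Z) * (W.P j * W.P b) := by noncomm_ring
          _ = 0 := by rw [W.grading.orth j b hj, mul_zero]
      · rw [mul_zero, zero_mul]
    · intro h; exact absurd (Finset.mem_univ _) h
  · intro i _ hi
    rw [Finset.mul_sum, Finset.sum_mul]
    refine Finset.sum_eq_zero fun j _ => ?_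
    split_ifs with h
    · calc W.P a * (W.P i * Z * W.P j) * W.P b
          = (W.P a * W.P i) * Z * W.P j * W.P b := by noncomm_ring
        _ = 0 := by rw [W.grading.orth a i hi.symm]; noncomm_ring
    · rw [mul_zero, zero_mul]
  · intro h; exact absurd (Finset.mem_univ _) h

/-- `compo` is a weight vector for `A` -/
lemma WeightData.compo_bracket46 (a b : ι) (Z : Op N) (K : A) :
    (K : Op N) * W.compo46 (W.m W.H0 b - W.m W.H0 a) Z -
      W.compo46 (W.m W.H0 b - W.m W.H0 a) Z * (K : Op N) =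
      (W.m K b - W.m K a) • W.compo46 (W.m W.H0 b - W.m W.H0 a) Z := by
  refine W.grading.ext (fun i j => ?_)
  set X := W.compo46 (W.m W.H0 b - W.m W.H0 a) Z with hX
  have e1 : W.P i * ((K : Op N) * X - X * (K : Op N)) * W.P j =
      (W.P i * (K : Op N)) * X * W.P j - W.P i * X * ((K : Op N) * W.P j) := by
    simp only [mul_sub, sub_mul, mul_assoc]
  rw [e1, W.P_mul_A46, W.A_mul_P46, op_smul_mul, op_smul_mul, op_mul_smul,
    op_mul_smul, op_smul_mul, hX, W.block_compo46]
  split_ifs with h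
  · rw [← W.sep i j b a h K]
    exact (sub_smul (W.m K i) (W.m K j) (W.P i * Z * W.P j)).symm
  · have hz : ∀ c : ℝ, c • (0 : Op N) = 0 := fun c => smul_zero (A := Op N) c
    rw [hz, hz, hz, sub_zero]

lemma WeightData.star_block46 (X : Op N) (a b : ι) :
    W.P a * star X * W.P b = star (W.P b * X * W.P a) := by
  rw [star_mul, star_mul, W.star_P, W.star_P, mul_assoc]

lemma WeightData.compo_ne46 {a b : ι} {Z : Op N} (h : W.P b * Z * W.P a ≠ 0) :
    W.compo46 (W.m W.H0 b - W.m W.H0 a) Z ≠ 0 := by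
  intro h0
  apply h
  have := W.block_compo46 (W.m W.H0 b - W.m W.H0 a) Z b a
  rw [if_pos rfl, h0, mul_zero, zero_mul] at this
  exact this.symm

end

end Pool.Agent.Lib.MP_d9b062_al

end

/-! ## from `MP_d9b062_al_h46.Kak` -/

section
/-!
# Task KAK
-/

namespace Pool.Agent.Lib.MP_d9b062_al

open NormedSpace Filter H46
open scoped Topology

section KAK

variable {N : ℕ} {G : Subgroup (Op N)ˣ} {A : Submodule ℝ (Op N)} {ι : Type} [Fintype ι]
  [LinearOrder ι]

/-- every symmetric element of the Lie algebra is conjugate into the closed chamber by an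
orthogonal element of `G` -/
theorem WeightData.exists_conj_mem_chamber (W : WeightData A ι) (hG : IsConnectedSemisimple G)
    (hA : IsCartan G A) {Y : Op N} (hY : Y ∈ lieAlg G) (hs : star Y = Y) :
    ∃ k ∈ G, star (k : Op N) * k = 1 ∧ ∃ H ∈ W.Chamber G,
      (k : Op N) * Y * star (k : Op N) = (H : Op N) := by
  have hH0 : (W.H0 : Op N) ∈ lieAlg G := hA.mem_lieAlg _ W.H0.2
  obtain ⟨k, ⟨hk1, g, hg, rfl⟩, hcomm, hmax⟩ := max_principle (Struct46.zClosed hG) hY hs hH0
    (hA.symmetric _ W.H0.2)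
  set Z : Op N := (g : Op N) * Y * star (g : Op N) with hZ
  have hZmem : Z ∈ lieAlg G := conj_k_mem_lieSet ⟨hk1, g, hg, rfl⟩ hY
  have hZs : star Z = Z := by rw [hZ, star_mul, star_mul, star_star, hs, mul_assoc]
  have hZA : Z ∈ A := by
    refine hA.maximal Z hZmem hZs (fun X hX => ?_)
    exact (((W.diag_iff Z).1 (W.diag_of_H0 hcomm)) X hX).symm
  refine ⟨g, hg, hk1, ⟨Z, hZA⟩, ?_, rfl⟩
  intro a b hab
  obtain ⟨hlt, Z1, hZ1, hne⟩ := hab
  set δ := W.m W.H0 b - W.m W.H0 a with hδ
  have hδ0 : 0 < δ := sub_pos.2 (W.strictMono hlt)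
  set X := W.compo46 δ Z1 with hX
  have hXmem : X ∈ lieAlg G := W.compo_mem46 hG hA hZ1 δ
  have hsX : star X ∈ lieAlg G := Struct46.lieAlg_star hG hXmem
  set T := X - star X with hT
  have hTmem : T ∈ lieAlg G := by
    have h1 : -(star X) ∈ lieAlg G := neg_mem_lieSet hsX
    have := Struct46.lieAlg_add hG hXmem h1
    rwa [← sub_eq_add_neg] at this
  have hTs : star T = -T := by
    rw [hT, op_star_sub, star_star]; abel
  have hm := hmax T hTmem hTs
  -- brackets
  have hbr : ∀ K : A, (K : Op N) * X - X * (K : Op N) = (W.m K b - W.m K a) • X := fun K =>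
    W.compo_bracket46 a b Z1 K
  have hbr2 : ∀ K : A, T * (K : Op N) - (K : Op N) * T =
      (-(W.m K b - W.m K a)) • (X + star X) := by
    intro K
    have h1 := hbr K
    have h2 : star X * (K : Op N) - (K : Op N) * star X = (W.m K b - W.m K a) • star X := by
      have h3 := congrArg star h1
      rw [op_star_sub, star_mul, star_mul, hA.symmetric _ K.2, op_star_smul] at h3
      exact h3
    have e1 : T * (K : Op N) - (K : Op N) * T =
        -((K : Op N) * X - X * (K : Op N)) - (star X * (K : Op N) - (K : Op N) * star X) := by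
      rw [hT, sub_mul, mul_sub]; abel
    rw [e1, h1, h2]
    have e2 : (-(W.m K b - W.m K a)) • (X + star X) =
        (-(W.m K b - W.m K a)) • X + (-(W.m K b - W.m K a)) • star X :=
      smul_add _ _ _
    have e3 : ∀ (c : ℝ) (S : Op N), (-c) • S = -(c • S) := fun c S => neg_smul c S
    rw [e2, e3, e3, sub_eq_add_neg]
  have hS : star (X + star X) = X + star X := by rw [op_star_add, star_star, add_comm]
  set α := W.m ⟨Z, hZA⟩ b - W.m ⟨Z, hZA⟩ a with hα
  have h1 : tr ((T * Z - Z * T) * (T * (W.H0 : Op N) - (W.H0 : Op N) * T)) =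
      α * δ * tr (star (X + star X) * (X + star X)) := by
    have hb1 := hbr2 ⟨Z, hZA⟩
    have hb2 := hbr2 W.H0
    rw [hb1, hb2, op_smul_mul, op_mul_smul, hS]
    have e4 : tr ((-α) • ((-δ) • ((X + star X) * (X + star X)))) =
        (-α) * ((-δ) * tr ((X + star X) * (X + star X))) := by
      rw [map_smul, map_smul, smul_eq_mul, smul_eq_mul]
    refine e4.trans ?_
    ring
  have hne0 : X + star X ≠ 0 := by
    intro h0
    apply hne
    have h2 : W.P b * (X + star X) * W.P a = 0 := by rw [h0, mul_zero, zero_mul]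
    rw [mul_add, add_mul, hX, W.star_block46, W.block_compo46, W.block_compo46, if_pos rfl,
      if_neg (by intro h; linarith), op_star_zero, add_zero] at h2
    exact h2
  have hpos : 0 < tr (star (X + star X) * (X + star X)) := by
    refine lt_of_le_of_ne (tr_star_mul_self_nonneg _) (fun h => hne0 ?_)
    exact eq_zero_of_tr_star_mul_self h.symm
  have hm' : 0 ≤ α * δ * tr (star (X + star X) * (X + star X)) := by
    rw [← h1]; exact hm
  have hα0 : 0 ≤ α := by
    by_contra hneg
    rw [not_le] at hneg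
    have := mul_pos hδ0 hpos
    nlinarith
  linarith

theorem WeightData.kak (W : WeightData A ι) (hG : IsConnectedSemisimple G) (hA : IsCartan G A)
    {g : (Op N)ˣ} (hg : g ∈ G) : ∃ k ∈ G, ∃ k' ∈ G, ∃ H ∈ W.Chamber G,
      star (k : Op N) * k = 1 ∧ star (k' : Op N) * k' = 1 ∧
      (g : Op N) = k * exp (H : Op N) * k' := by
  obtain ⟨Y, hY, hYs, -, -, k1, hk1, hk1s, hgk⟩ := polar (Struct46.zClosed hG) hG.star_mem hg
  obtain ⟨k, hk, hks, H, hH, hkH⟩ := W.exists_conj_mem_chamber hG hA hY hYs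
  have hinv : ((k⁻¹ : (Op N)ˣ) : Op N) = star (k : Op N) := by
    calc ((k⁻¹ : (Op N)ˣ) : Op N)
        = (star (k : Op N) * k) * ((k⁻¹ : (Op N)ˣ) : Op N) := by rw [hks, one_mul]
      _ = star (k : Op N) := by rw [mul_assoc, Units.mul_inv, mul_one]
  refine ⟨k1 * k⁻¹, G.mul_mem hk1 (G.inv_mem hk), k, hk, H, hH, ?_, hks, ?_⟩
  · rw [Units.val_mul, star_mul, hinv, star_star]
    calc (k : Op N) * star (k1 : Op N) * ((k1 : Op N) * star (k : Op N))
        = (k : Op N) * (star (k1 : Op N) * (k1 : Op N)) * star (k : Op N) := by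
          simp only [mul_assoc]
      _ = 1 := by rw [hk1s, mul_one]; exact mul_star_of_star_mul hks
  · have h1 : exp Y = ((k⁻¹ : (Op N)ˣ) : Op N) * exp (H : Op N) * k := by
      let _ : NormedAlgebra ℚ (Op N) := .restrictScalars ℚ ℝ _
      rw [← exp_units_conj', ← hkH, hinv]
      congr 1
      calc Y = (star (k : Op N) * k) * Y * (star (k : Op N) * k) := by
            rw [hks, one_mul, mul_one]
        _ = star (k : Op N) * ((k : Op N) * Y * star (k : Op N)) * k := by
            simp only [mul_assoc]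
    rw [hgk, h1, Units.val_mul]
    simp only [mul_assoc]

theorem WeightData.conf (W : WeightData A ι) (hG : IsConnectedSemisimple G) (hA : IsCartan G A)
    {l : (Op N)ˣ} (hl : l ∈ G) (hd : Diag W.P (l : Op N)) :
    ∃ H : A, ∀ i v, ‖(l : Op N) (W.P i v)‖ = Real.exp (W.m H i) * ‖W.P i v‖ := by
  obtain ⟨Y, hY, hYs, he, hc⟩ := Struct46.exists_log hG hl
  have hlA : ∀ X ∈ A, (l : Op N) * X = X * (l : Op N) := (W.diag_iff _).1 hd
  have hslA : ∀ X ∈ A, star (l : Op N) * X = X * star (l : Op N) := by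
    intro X hX
    have := congrArg star (hlA X hX)
    rw [star_mul, star_mul, hA.symmetric X hX] at this
    exact this.symm
  have hYA : Y ∈ A := by
    refine hA.maximal Y hY hYs (fun X hX => ?_)
    refine hc X ?_
    rw [← mul_assoc, ← hslA X hX, mul_assoc, ← hlA X hX, mul_assoc]
  refine ⟨⟨Y, hYA⟩, fun i v => ?_⟩
  have h1 : (exp ((2 : ℝ) • Y)) (W.P i v) = Real.exp (2 * W.m ⟨Y, hYA⟩ i) • (W.P i v) := by
    refine exp_apply_of_eigen ?_
    have h2 := W.A_mul_P46 ⟨Y, hYA⟩ i
    have h3 : Y (W.P i v) = W.m ⟨Y, hYA⟩ i • W.P i v := by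
      have := congrArg (fun T : Op N => T v) h2
      exact this
    show (2 : ℝ) • Y (W.P i v) = _
    rw [h3, smul_smul]
  have h2 : ‖(l : Op N) (W.P i v)‖ ^ 2 = (Real.exp (W.m ⟨Y, hYA⟩ i) * ‖W.P i v‖) ^ 2 := by
    rw [← real_inner_self_eq_norm_sq, ← ContinuousLinearMap.adjoint_inner_right,
      ← ContinuousLinearMap.star_eq_adjoint]
    have h3 : star (l : Op N) ((l : Op N) (W.P i v)) =
        Real.exp (2 * W.m ⟨Y, hYA⟩ i) • (W.P i v) := by
      rw [← h1, ← he]; rfl
    rw [h3, real_inner_smul_right, real_inner_self_eq_norm_sq, mul_pow, ← Real.exp_nat_mul]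
    norm_num
  exact (sq_eq_sq₀ (norm_nonneg _) (by positivity)).1 h2

end KAK

end Pool.Agent.Lib.MP_d9b062_al

end

/-! ## from `MP_d9b062_al_h46.Weyl` -/

section
/-!
# Task WEYL
-/

namespace Pool.Agent.Lib.MP_d9b062_al

open NormedSpace Filter H46
open scoped Topology

section WEYL

variable {N : ℕ} {G : Subgroup (Op N)ˣ} {A : Submodule ℝ (Op N)} {ι : Type} [Fintype ι]
  [LinearOrder ι]

namespace Weyl46

/-- conjugation by `w⁻¹` on `A` -/
noncomputable def adw (w : (Op N)ˣ) (hw : ∀ X ∈ A, ((w⁻¹ : (Op N)ˣ) : Op N) * X * (w : Op N) ∈ A) :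
    A →ₗ[ℝ] A where
  toFun K := ⟨((w⁻¹ : (Op N)ˣ) : Op N) * (K : Op N) * (w : Op N), hw _ K.2⟩
  map_add' K L := by
    ext1
    show ((w⁻¹ : (Op N)ˣ) : Op N) * ((K : Op N) + (L : Op N)) * (w : Op N) = _
    rw [mul_add, add_mul]; rfl
  map_smul' c K := by
    ext1
    show ((w⁻¹ : (Op N)ˣ) : Op N) * (c • (K : Op N)) * (w : Op N) =
      c • (((w⁻¹ : (Op N)ˣ) : Op N) * (K : Op N) * (w : Op N))
    rw [op_mul_smul, op_smul_mul]

lemma adw_coe (w : (Op N)ˣ) (hw : ∀ X ∈ A, ((w⁻¹ : (Op N)ˣ) : Op N) * X * (w : Op N) ∈ A) (K : A) :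
    ((adw w hw K : A) : Op N) = ((w⁻¹ : (Op N)ˣ) : Op N) * (K : Op N) * (w : Op N) := rfl

lemma adw_injective (w : (Op N)ˣ)
    (hw : ∀ X ∈ A, ((w⁻¹ : (Op N)ˣ) : Op N) * X * (w : Op N) ∈ A) :
    Function.Injective (adw w hw) := by
  intro K L h
  have h1 : ((w⁻¹ : (Op N)ˣ) : Op N) * (K : Op N) * (w : Op N) =
      ((w⁻¹ : (Op N)ˣ) : Op N) * (L : Op N) * (w : Op N) := congrArg (fun x : A => (x : Op N)) h
  ext1
  have h2 : ∀ T : Op N, (w : Op N) * (((w⁻¹ : (Op N)ˣ) : Op N) * T * (w : Op N)) *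
      ((w⁻¹ : (Op N)ˣ) : Op N) = T := by
    intro T
    calc (w : Op N) * (((w⁻¹ : (Op N)ˣ) : Op N) * T * (w : Op N)) * ((w⁻¹ : (Op N)ˣ) : Op N)
        = ((w : Op N) * ((w⁻¹ : (Op N)ˣ) : Op N)) * T *
          ((w : Op N) * ((w⁻¹ : (Op N)ˣ) : Op N)) := by simp only [mul_assoc]
      _ = T := by rw [Units.mul_inv, one_mul, mul_one]
  rw [← h2 K, ← h2 L, h1]

/-- the weight functional -/
noncomputable def wt (W : WeightData A ι) (i : ι) : A →ₗ[ℝ] ℝ := (LinearMap.proj i) ∘ₗ W.m

lemma wt_apply (W : WeightData A ι) (i : ι) (K : A) : wt W i K = W.m K i := rfl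

/-- weights of eigenvectors -/
lemma block_eq_zero_or (W : WeightData A ι) {T : Op N} {ν : A →ₗ[ℝ] ℝ}
    (h : ∀ K : A, (K : Op N) * T = ν K • T) (j : ι) : W.P j * T = 0 ∨ wt W j = ν := by
  by_cases h0 : W.P j * T = 0
  · exact Or.inl h0
  · refine Or.inr (LinearMap.ext fun K => ?_)
    have h1 : W.m K j • (W.P j * T) = ν K • (W.P j * T) := by
      rw [← op_smul_mul, ← W.P_mul_A46 K j, mul_assoc, h, op_mul_smul]
    exact op_smul_cancel h1 h0

lemma wt_injective (W : WeightData A ι) {i j : ι} (h : wt W i = wt W j) : i = j :=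
  W.strictMono.injective (by
    have := congrArg (fun f : A →ₗ[ℝ] ℝ => f W.H0) h
    exact this)

/-- a root vector has a block realising the root as a positive pair -/
lemma root_pair (W : WeightData A ι) {Z : Op N} (hZ : Z ∈ lieAlg G) (hne : Z ≠ 0)
    {β : A →ₗ[ℝ] ℝ} (h : ∀ K : A, (K : Op N) * Z - Z * (K : Op N) = β K • Z) (hpos : 0 < β W.H0) :
    ∃ a b, W.Pos G a b ∧ ∀ K : A, β K = W.m K b - W.m K a := by
  have h1 : ∃ b a, W.P b * Z * W.P a ≠ 0 := by
    by_contra hcon
    push Not at hcon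
    apply hne
    refine W.grading.ext (fun i j => ?_)
    rw [hcon i j, mul_zero, zero_mul]
  obtain ⟨b, a, hba⟩ := h1
  have h2 : ∀ K : A, β K = W.m K b - W.m K a := by
    intro K
    have h3 : W.P b * ((K : Op N) * Z - Z * (K : Op N)) * W.P a =
        (W.m K b - W.m K a) • (W.P b * Z * W.P a) := by
      have e1 : W.P b * ((K : Op N) * Z - Z * (K : Op N)) * W.P a =
          (W.P b * (K : Op N)) * Z * W.P a - W.P b * Z * ((K : Op N) * W.P a) := by
        simp only [mul_sub, sub_mul, mul_assoc]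
      rw [e1, W.P_mul_A46, W.A_mul_P46, op_smul_mul, op_smul_mul, op_mul_smul]
      exact (sub_smul _ _ _).symm
    rw [h, op_mul_smul, op_smul_mul] at h3
    exact op_smul_cancel h3 hba
  refine ⟨a, b, ⟨?_, Z, hZ, hba⟩, h2⟩
  rw [h2] at hpos
  exact W.strictMono.lt_iff_lt.1 (by linarith)

/-- the negative of a root is a root -/
lemma neg_root (hG : IsConnectedSemisimple G) (hA : IsCartan G A) {Z : Op N} (hZ : Z ∈ lieAlg G)
    {β : A →ₗ[ℝ] ℝ} (h : ∀ K : A, (K : Op N) * Z - Z * (K : Op N) = β K • Z) :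
    star Z ∈ lieAlg G ∧
      ∀ K : A, (K : Op N) * star Z - star Z * (K : Op N) = (-β) K • star Z := by
  refine ⟨Struct46.lieAlg_star hG hZ, fun K => ?_⟩
  have h1 := congrArg star (h K)
  rw [op_star_sub, star_mul, star_mul, hA.symmetric _ K.2, op_star_smul] at h1
  have h2 : (K : Op N) * star Z - star Z * (K : Op N) =
      -(star Z * (K : Op N) - (K : Op N) * star Z) := by abel
  rw [h2, h1, LinearMap.neg_apply]
  exact (neg_smul (β K) (star Z)).symm

end Weyl46

open Weyl46 in
theorem WeightData.exists_perm (W : WeightData A ι) (hG : IsConnectedSemisimple G)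
    (hA : IsCartan G A) {H : A} (hpos : ∀ α : A →ₗ[ℝ] ℝ, IsRoot G A α → 0 < α H → 0 < α W.H0)
    {w : (Op N)ˣ} (hw : IsLongest G A H w) (hH : IsRegular G A H) :
    ∃ π : ι → ι, π W.o = W.o ∧ (∀ i, (w : Op N) * W.P i = W.P (π i) * w) ∧
      ∀ i j, W.r G i j → W.r G (π j) (π i) := by
  classical
  have hmneg : ∀ (x : A) (i : ι), W.m (-x) i = -(W.m x i) := fun x i => by
    have h : W.m (-x) = -(W.m x) := W.m.map_neg x
    rw [h]; rfl
  obtain ⟨hwG, hwA, hwneg⟩ := hw
  have hwinv : (w : Op N) * ((w⁻¹ : (Op N)ˣ) : Op N) = 1 := Units.mul_inv w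
  have hwinv' : ((w⁻¹ : (Op N)ˣ) : Op N) * (w : Op N) = 1 := Units.inv_mul w
  set Ad := adw w hwA with hAd
  -- `K w P_i = m_i (Ad K) w P_i`
  have hKw : ∀ (i : ι) (K : A), (K : Op N) * ((w : Op N) * W.P i) =
      (wt W i ∘ₗ Ad) K • ((w : Op N) * W.P i) := by
    intro i K
    have h1 : (K : Op N) * (w : Op N) = (w : Op N) * ((Ad K : A) : Op N) := by
      rw [hAd, adw_coe, ← mul_assoc, ← mul_assoc, hwinv, one_mul]
    rw [← mul_assoc, h1, mul_assoc, W.A_mul_P46, op_mul_smul]
    rfl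
  have hwP : ∀ i, W.P i ≠ 0 → (w : Op N) * W.P i ≠ 0 := by
    intro i hi h0
    apply hi
    calc W.P i = (((w⁻¹ : (Op N)ˣ) : Op N) * (w : Op N)) * W.P i := by rw [hwinv', one_mul]
      _ = 0 := by rw [mul_assoc, h0, mul_zero]
  have hex : ∀ i, W.P i ≠ 0 → ∃ j, wt W j = wt W i ∘ₗ Ad := by
    intro i hi
    by_contra hcon
    push Not at hcon
    apply hwP i hi
    rw [W.grading.sum_mul ((w : Op N) * W.P i)]
    refine Finset.sum_eq_zero fun j _ => ?_
    rcases block_eq_zero_or W (hKw i) j with h | h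
    · exact h
    · exact absurd h (hcon j)
  let π : ι → ι := fun i => if h : W.P i ≠ 0 then (hex i h).choose else i
  have hπ : ∀ i, W.P i ≠ 0 → wt W (π i) = wt W i ∘ₗ Ad := by
    intro i hi
    have : π i = (hex i hi).choose := dif_pos hi
    rw [this]
    exact (hex i hi).choose_spec
  have hwto : wt W W.o = 0 := LinearMap.ext fun K => W.m_o K
  have hπo : π W.o = W.o := by
    by_cases h0 : W.P W.o = 0
    · show (if h : W.P W.o ≠ 0 then _ else _) = _
      rw [dif_neg (not_not.2 h0)]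
    · apply wt_injective W
      rw [hπ _ h0, hwto, LinearMap.zero_comp]
  -- the weights, without the condition
  have hπ' : ∀ i, wt W (π i) = wt W i ∘ₗ Ad := by
    intro i
    by_cases hi : W.P i = 0
    · have hio : i = W.o := by
        by_contra hne
        exact W.P_ne i hne hi
      rw [hio, hπo, hwto, LinearMap.zero_comp]
    · exact hπ i hi
  have hAdsurj : Function.Surjective Ad :=
    @LinearMap.surjective_of_injective ℝ A _ _ _ _ Ad (adw_injective w hwA)
  have hπinj : Function.Injective π := by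
    intro i j hij
    apply wt_injective W
    have h1 : wt W i ∘ₗ Ad = wt W j ∘ₗ Ad := by rw [← hπ' i, ← hπ' j, hij]
    refine LinearMap.ext fun K => ?_
    obtain ⟨K', rfl⟩ := hAdsurj K
    exact congrArg (fun f : A →ₗ[ℝ] ℝ => f K') h1
  refine ⟨π, hπo, fun i => ?_, fun i j hij => ?_⟩
  · -- `w P_i = P_{π i} w`
    have h1 : ∀ j, j ≠ π i → W.P j * ((w : Op N) * W.P i) = 0 := by
      intro j hj
      rcases block_eq_zero_or W (hKw i) j with h | h
      · exact h
      · exact absurd (wt_injective W (h.trans (hπ' i).symm)) hj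
    have h2 : (w : Op N) * W.P i = W.P (π i) * ((w : Op N) * W.P i) := by
      conv_lhs => rw [W.grading.sum_mul ((w : Op N) * W.P i)]
      exact Finset.sum_eq_single _ (fun j _ hj => h1 j hj) (fun h => absurd (Finset.mem_univ _) h)
    have h3 : W.P (π i) * (w : Op N) = W.P (π i) * ((w : Op N) * W.P i) := by
      conv_lhs => rw [W.grading.mul_sum (W.P (π i) * (w : Op N))]
      rw [Finset.sum_eq_single i]
      · rw [mul_assoc]
      · intro j _ hj
        rw [mul_assoc]
        rcases block_eq_zero_or W (hKw j) (π i) with h | h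
        · exact h
        · exact absurd (hπinj (wt_injective W (h.trans (hπ' j).symm))) (Ne.symm hj)
      · intro h; exact absurd (Finset.mem_univ _) h
    rw [h2, ← h3]
  · -- order reversing
    intro K hK
    -- `K' = - Ad K` is in the open chamber
    have hK' : ∀ a b, W.Pos G a b → W.m (-(Ad K)) a < W.m (-(Ad K)) b := by
      intro a b hab
      obtain ⟨hlt, Z, hZ, hne⟩ := hab
      set δ := W.m W.H0 b - W.m W.H0 a with hδ
      have hδ0 : 0 < δ := sub_pos.2 (W.strictMono hlt)
      set X := W.compo46 δ Z with hX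
      have hXmem : X ∈ lieAlg G := W.compo_mem46 hG hA hZ δ
      have hXne : X ≠ 0 := W.compo_ne46 hne
      set α : A →ₗ[ℝ] ℝ := wt W b - wt W a with hα
      have hbr : ∀ K : A, (K : Op N) * X - X * (K : Op N) = α K • X := fun K =>
        W.compo_bracket46 a b Z K
      have hαH0 : 0 < α W.H0 := hδ0
      have hαroot : IsRoot G A α := by
        refine ⟨?_, X, hXmem, hXne, hbr⟩
        intro h0
        rw [h0] at hαH0
        exact lt_irrefl _ hαH0
      have hαH : 0 < α H := by
        rcases lt_or_gt_of_ne (hH α hαroot) with h | h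
        · exfalso
          obtain ⟨hs1, hs2⟩ := neg_root hG hA hXmem hbr
          have hnr : IsRoot G A (-α) := by
            refine ⟨?_, star X, hs1, ?_, hs2⟩
            · intro h0
              exact hαroot.1 (neg_eq_zero.1 h0)
            · intro h0
              apply hXne
              rw [← star_star X, h0, op_star_zero]
          have := hpos _ hnr (by rw [LinearMap.neg_apply]; linarith)
          rw [LinearMap.neg_apply] at this
          linarith
        · exact h
      -- the root `β = α ∘ Ad` with root vector `w X w⁻¹`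
      set Y : Op N := (w : Op N) * X * ((w⁻¹ : (Op N)ˣ) : Op N) with hY
      have hYmem : Y ∈ lieAlg G := Struct46.lieAlg_conj hwG hXmem
      have hYne : Y ≠ 0 := by
        intro h0
        apply hXne
        calc X = (((w⁻¹ : (Op N)ˣ) : Op N) * (w : Op N)) * X *
              (((w⁻¹ : (Op N)ˣ) : Op N) * (w : Op N)) := by rw [hwinv', one_mul, mul_one]
          _ = ((w⁻¹ : (Op N)ˣ) : Op N) * Y * (w : Op N) := by rw [hY]; simp only [mul_assoc]
          _ = 0 := by rw [h0, mul_zero, zero_mul]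
      have hbrY : ∀ K : A, (K : Op N) * Y - Y * (K : Op N) = (α ∘ₗ Ad) K • Y := by
        intro K
        have h1 : (K : Op N) * (w : Op N) = (w : Op N) * ((Ad K : A) : Op N) := by
          rw [hAd, adw_coe, ← mul_assoc, ← mul_assoc, hwinv, one_mul]
        have h2 : ((w⁻¹ : (Op N)ˣ) : Op N) * (K : Op N) =
            ((Ad K : A) : Op N) * ((w⁻¹ : (Op N)ˣ) : Op N) := by
          rw [hAd, adw_coe, mul_assoc, hwinv, mul_one]
        have h3 : (K : Op N) * Y - Y * (K : Op N) =
            (w : Op N) * (((Ad K : A) : Op N) * X - X * ((Ad K : A) : Op N)) *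
              ((w⁻¹ : (Op N)ˣ) : Op N) := by
          rw [hY, mul_sub, sub_mul]
          congr 1
          · rw [← mul_assoc, ← mul_assoc, h1]
            simp only [mul_assoc]
          · rw [mul_assoc _ _ (K : Op N), h2]
            simp only [mul_assoc]
        rw [h3, hbr, op_mul_smul, op_smul_mul]
        rfl
      obtain ⟨hs1, hs2⟩ := neg_root hG hA hYmem hbrY
      have hβH : (α ∘ₗ Ad) H < 0 := hwneg α hαroot hαH
      have hnr : IsRoot G A (-(α ∘ₗ Ad)) := by
        refine ⟨?_, star Y, hs1, ?_, hs2⟩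
        · intro h0
          have h1 : (-(α ∘ₗ Ad)) H = 0 := by rw [h0]; rfl
          rw [LinearMap.neg_apply] at h1
          linarith
        · intro h0
          apply hYne
          rw [← star_star Y, h0, op_star_zero]
      have hβH0 : 0 < (-(α ∘ₗ Ad)) W.H0 := hpos _ hnr (by rw [LinearMap.neg_apply]; linarith)
      obtain ⟨c, d, hcd, hval⟩ := root_pair W hs1 (by
        intro h0
        apply hYne
        rw [← star_star Y, h0, op_star_zero]) hs2 hβH0
      have h4 := hK c d hcd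
      have h5 := hval K
      have h6 : (α ∘ₗ Ad) K = W.m (Ad K) b - W.m (Ad K) a := rfl
      rw [LinearMap.neg_apply, h6] at h5
      rw [hmneg, hmneg]
      linarith
    have h1 := hij (-(Ad K)) hK'
    rw [hmneg, hmneg] at h1
    have h2 : ∀ i, W.m K (π i) = W.m (Ad K) i := fun i =>
      congrArg (fun f : A →ₗ[ℝ] ℝ => f K) (hπ' i)
    rw [h2, h2]
    linarith

end WEYL

end Pool.Agent.Lib.MP_d9b062_al

end

/-! ## from `MP_d9b062_al_h46.Fac` -/

section
/-!
# The factors of the block LU decomposition of an element of the group are in the group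
-/

namespace Pool.Agent.Lib.MP_d9b062_al

section

variable {N : ℕ} {G : Subgroup (Op N)ˣ} {ι : Type} [Fintype ι] [LinearOrder ι] {P : ι → Op N}
  {r : ι → ι → Prop}

/-- polynomials vanishing on `N⁻` vanish at the factor `yL` of regular elements of `G` -/
lemma yL_eq_zero46 (hP : IsGrading P) (hs : ∀ i, star (P i) = P i)
    (hr : ∀ i j, r i j → i < j)
    (hdense : ∀ F ∈ PolyFun (Op N), (∀ y ∈ G, ∀ l ∈ G, ∀ x ∈ G, Unip P r (y : Op N) →
      Diag P (l : Op N) → Unip P (fun i j => r j i) (x : Op N) → F (y * l * x) = 0) →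
        ∀ g ∈ G, F (g : Op N) = 0)
    {F : Op N → ℝ} (hF : F ∈ PolyFun (Op N))
    (h0 : ∀ y ∈ G, Unip P r (y : Op N) → F (y : Op N) = 0)
    {g : (Op N)ˣ} (hg : g ∈ G) (hreg : Reg P (g : Op N)) : F (yL P (g : Op N)) = 0 := by
  obtain ⟨D, hD, Q, hQ, -, hDr, -, hy⟩ := exists_rat hP hs
  obtain ⟨k, F1, hF1, h1⟩ := PolyFun.comp_rat hF hD hQ
  have h2 := hdense (fun T => D T * F1 T) (PolyFun.mul hD hF1) (by
    intro y hy' l _ x _ uy dl ux
    have hlu := LU_unique hP hs (y := (y : Op N)) (x := (x : Op N)) (d := l)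
      (uy.mono hr) dl (ux.mono fun i j h => hr j i h)
    have h3 : D ((y : Op N) * l * x) ≠ 0 := (hDr _).1 hlu.1
    rw [h1 _ h3, ← hy _ hlu.1, hlu.2.1, h0 y hy' uy, mul_zero, mul_zero]) g hg
  have h3 : D (g : Op N) ≠ 0 := (hDr _).1 hreg
  have h4 : F1 (g : Op N) = 0 := (mul_eq_zero.1 h2).resolve_left h3
  rw [h1 _ h3, ← hy _ hreg] at h4
  exact (mul_eq_zero.1 h4).resolve_left (pow_ne_zero _ h3)

/-- the lower unipotent factor -/
lemma exists_yL46 (hP : IsGrading P) (hs : ∀ i, star (P i) = P i)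
    (hr : ∀ i j, r i j → i < j)
    (hclosed : ∀ g : (Op N)ˣ, (∀ F ∈ PolyFun (Op N), (∀ h ∈ G, F (h : Op N) = 0) →
      F (g : Op N) = 0) → g ∈ G)
    (hdense : ∀ F ∈ PolyFun (Op N), (∀ y ∈ G, ∀ l ∈ G, ∀ x ∈ G, Unip P r (y : Op N) →
      Diag P (l : Op N) → Unip P (fun i j => r j i) (x : Op N) → F (y * l * x) = 0) →
        ∀ g ∈ G, F (g : Op N) = 0)
    {g : (Op N)ˣ} (hg : g ∈ G) (hreg : Reg P (g : Op N)) :
    ∃ y ∈ G, (y : Op N) = yL P (g : Op N) ∧ Unip P r (y : Op N) := by
  obtain ⟨y, hy⟩ := yL_isUnit hP hreg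
  refine ⟨y, ?_, hy, ?_⟩
  · apply hclosed
    intro F hF h0
    rw [hy]
    exact yL_eq_zero46 hP hs hr hdense hF (fun y hy _ => h0 y hy) hg hreg
  · rw [hy]
    refine ⟨(yL_unip hP hreg).1, fun i j hij hn => ?_⟩
    rw [← Module.forall_dual_apply_eq_zero_iff ℝ (P i * yL P (g : Op N) * P j)]
    intro φ
    have hpoly : (fun T : Op N => φ (P i * T * P j)) ∈ PolyFun (Op N) :=
      ((IsPolyMap.const (P i)).mul IsPolyMap.id).mul (IsPolyMap.const (P j)) φ
    exact yL_eq_zero46 hP hs hr hdense hpoly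
      (fun y _ hu => by rw [hu.2 i j hij hn]; exact map_zero φ) hg hreg

/-- abstract factorization theorem -/
theorem fac_of_dense (hP : IsGrading P) (hs : ∀ i, star (P i) = P i)
    (hr : ∀ i j, r i j → i < j)
    (hclosed : ∀ g : (Op N)ˣ, (∀ F ∈ PolyFun (Op N), (∀ h ∈ G, F (h : Op N) = 0) →
      F (g : Op N) = 0) → g ∈ G)
    (hstar : ∀ g ∈ G, star g ∈ G)
    (hdense : ∀ F ∈ PolyFun (Op N), (∀ y ∈ G, ∀ l ∈ G, ∀ x ∈ G, Unip P r (y : Op N) →
      Diag P (l : Op N) → Unip P (fun i j => r j i) (x : Op N) → F (y * l * x) = 0) →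
        ∀ g ∈ G, F (g : Op N) = 0)
    {g : (Op N)ˣ} (hg : g ∈ G) (hreg : Reg P (g : Op N)) :
    ∃ y ∈ G, ∃ l ∈ G, ∃ x ∈ G, Unip P r (y : Op N) ∧ Diag P (l : Op N) ∧
      Unip P (fun i j => r j i) (x : Op N) ∧ (g : Op N) = y * l * x := by
  obtain ⟨y, hyG, hy, uy⟩ := exists_yL46 hP hs hr hclosed hdense hg hreg
  have hreg' : Reg P ((star g : (Op N)ˣ) : Op N) := by
    rw [Units.coe_star]; exact hreg.star hs
  obtain ⟨x', hxG', hx', ux'⟩ := exists_yL46 hP hs hr hclosed hdense (hstar g hg) hreg'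
  have hx : ((star x' : (Op N)ˣ) : Op N) = xU P (g : Op N) := by
    rw [Units.coe_star, hx', Units.coe_star, xU]
  refine ⟨y, hyG, y⁻¹ * g * (star x')⁻¹, G.mul_mem (G.mul_mem (G.inv_mem hyG) hg)
    (G.inv_mem (hstar _ hxG')), star x', hstar _ hxG', uy, ?_, ?_, ?_⟩
  · have h := dD_diag hP hs hreg
    rw [dD, ← hy, ← hx, Ring.inverse_unit, Ring.inverse_unit] at h
    exact h
  · rw [Units.coe_star]; exact ux'.star hs
  · have h : g = y * (y⁻¹ * g * (star x')⁻¹) * star x' := by group
    exact congrArg (fun u : (Op N)ˣ => (u : Op N)) h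

end

theorem WeightData.fac {N : ℕ} {G : Subgroup (Op N)ˣ} {A : Submodule ℝ (Op N)} {ι : Type}
    [Fintype ι] [LinearOrder ι] (W : WeightData A ι) (hG : IsConnectedSemisimple G)
    (hA : IsCartan G A) {g : (Op N)ˣ} (hg : g ∈ G) (hr : Reg W.P (g : Op N)) :
    ∃ y ∈ G, ∃ l ∈ G, ∃ x ∈ G, Unip W.P (W.r G) (y : Op N) ∧ Diag W.P (l : Op N) ∧
      Unip W.P (fun i j => W.r G j i) (x : Op N) ∧ (g : Op N) = y * l * x :=
  fac_of_dense W.grading W.star_P (fun _ _ h => W.r_lt h)
    (fun g h => hG.closed g fun p hp => h _ (polyVal_mem p) hp) hG.star_mem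
    (fun _ hF h => W.omega_dense hG hA hF h) hg hr

end Pool.Agent.Lib.MP_d9b062_al

end
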