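import Mathlib
import Pool.Agent.Lib.MP_d9b062_al_m.MAlg
import Pool.Agent.Lib.MP_d9b062_al_m.MBase

/-!
MP_d9b062_al: merged modules (to shorten the build).
-/

set_option autoImplicit false

/-! ## from `MP_d9b062_al_h9.Mos0` -/

section
/-!
# Hilbert–Schmidt norm, diagonal one-parameter groups, midpoint convexity
-/

namespace Pool.Agent.Lib.MP_d9b062_al.H9

open NormedSpace Filter H64
open scoped Topology InnerProductSpace

set_option linter.unusedSectionVars false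

section conv

lemma midpoint_deriv {f : ℝ → ℝ} {f' : ℝ} (hm : ∀ s t, f ((s + t) / 2) ≤ (f s + f t) / 2)
    (hd : HasDerivAt f f' 0) : f' ≤ f 1 - f 0 := by
  have h1 : ∀ n : ℕ, f ((1 / 2 : ℝ) ^ n) - f 0 ≤ (1 / 2 : ℝ) ^ n * (f 1 - f 0) := by
    intro n
    induction n with
    | zero => simp
    | succ n ih =>
      have h2 := hm 0 ((1 / 2 : ℝ) ^ n)
      have h3 : (0 + (1 / 2 : ℝ) ^ n) / 2 = (1 / 2) ^ (n + 1) := by rw [pow_succ]; ring
      rw [h3] at h2
      have h4 : (1 / 2 : ℝ) ^ (n + 1) * (f 1 - f 0) = ((1 / 2 : ℝ) ^ n * (f 1 - f 0)) / 2 := by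
        rw [pow_succ]; ring
      rw [h4]
      linarith
  have h4 := hd.tendsto_slope
  have h5 : Tendsto (fun n : ℕ => (1 / 2 : ℝ) ^ n) atTop (𝓝[≠] 0) := by
    rw [tendsto_nhdsWithin_iff]
    refine ⟨tendsto_pow_atTop_nhds_zero_of_lt_one (by norm_num) (by norm_num), ?_⟩
    exact Eventually.of_forall fun n => by simp
  have h6 := h4.comp h5
  refine le_of_tendsto h6 (Eventually.of_forall fun n => ?_)
  have h7 : (0 : ℝ) < (1 / 2) ^ n := by positivity
  simp only [Function.comp, slope_def_field, sub_zero]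
  rw [div_le_iff₀ h7]
  linarith [h1 n]

lemma midpoint_le {a : ℝ → ℝ} (hm : ∀ s t, a ((s + t) / 2) ≤ (a s + a t) / 2)
    (h0 : a 0 ≤ a 1) (n : ℕ) : a (1 - (1 / 2 : ℝ) ^ n) ≤ a 1 := by
  induction n with
  | zero => simpa using h0
  | succ n ih =>
    have h2 := hm (1 - (1 / 2 : ℝ) ^ n) 1
    have h3 : (1 - (1 / 2 : ℝ) ^ n + 1) / 2 = 1 - (1 / 2) ^ (n + 1) := by rw [pow_succ]; ring
    rw [h3] at h2
    linarith

lemma deriv_nonpos_of_seq {β : ℝ → ℝ} {β' : ℝ} (hd : HasDerivAt β β' 1)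
    (h : ∀ n : ℕ, β 1 ≤ β (1 - (1 / 2 : ℝ) ^ n)) : β' ≤ 0 := by
  have h4 := hd.tendsto_slope
  have h5 : Tendsto (fun n : ℕ => 1 - (1 / 2 : ℝ) ^ n) atTop (𝓝[≠] 1) := by
    rw [tendsto_nhdsWithin_iff]
    constructor
    · have := (tendsto_const_nhds (x := (1 : ℝ)) (f := atTop)).sub
        (tendsto_pow_atTop_nhds_zero_of_lt_one (r := (1 / 2 : ℝ)) (by norm_num) (by norm_num))
      simpa using this
    · exact Eventually.of_forall fun n => by simp
  have h6 := h4.comp h5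
  refine le_of_tendsto h6 (Eventually.of_forall fun n => ?_)
  have h7 : (0 : ℝ) < (1 / 2) ^ n := by positivity
  simp only [Function.comp, slope_def_field]
  have h8 : (1 - (1 / 2 : ℝ) ^ n - 1) = -(1 / 2) ^ n := by ring
  rw [h8, div_neg, neg_nonpos]
  exact div_nonneg (by linarith [h n]) h7.le

end conv

variable {E : Type*} [NormedAddCommGroup E] [InnerProductSpace ℝ E] [CompleteSpace E]
  [FiniteDimensional ℝ E]

/-- the trace of an operator -/
noncomputable def tr (T : E →L[ℝ] E) : ℝ := LinearMap.trace ℝ E (T : E →ₗ[ℝ] E)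

/-- square of the Hilbert–Schmidt norm -/
noncomputable def hs2 (T : E →L[ℝ] E) : ℝ := tr (star T * T)

lemma tr_mul_comm (S T : E →L[ℝ] E) : tr (S * T) = tr (T * S) :=
  LinearMap.trace_mul_comm ℝ (S : E →ₗ[ℝ] E) (T : E →ₗ[ℝ] E)

lemma tr_add (S T : E →L[ℝ] E) : tr (S + T) = tr S + tr T := by
  unfold tr; rw [← map_add]; rfl

lemma tr_sub (S T : E →L[ℝ] E) : tr (S - T) = tr S - tr T := by
  unfold tr; rw [← map_sub]; rfl

lemma tr_smul (c : ℝ) (T : E →L[ℝ] E) : tr (c • T) = c * tr T := by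
  unfold tr; rw [← smul_eq_mul, ← map_smul]; rfl

lemma tr_eq {κ : Type*} [Fintype κ] (b : OrthonormalBasis κ ℝ E) (T : E →L[ℝ] E) :
    tr T = ∑ i, ⟪b i, T (b i)⟫_ℝ := LinearMap.trace_eq_sum_inner _ b

lemma star_inner (T : E →L[ℝ] E) (x y : E) : ⟪x, star T y⟫_ℝ = ⟪T x, y⟫_ℝ := by
  rw [ContinuousLinearMap.star_eq_adjoint, ContinuousLinearMap.adjoint_inner_right]

lemma star_inner' (T : E →L[ℝ] E) (x y : E) : ⟪star T x, y⟫_ℝ = ⟪x, T y⟫_ℝ := by
  rw [ContinuousLinearMap.star_eq_adjoint, ContinuousLinearMap.adjoint_inner_left]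

lemma hs2_eq {κ : Type*} [Fintype κ] (b : OrthonormalBasis κ ℝ E) (T : E →L[ℝ] E) :
    hs2 T = ∑ i, ‖T (b i)‖ ^ 2 := by
  rw [hs2, tr_eq b]
  refine Finset.sum_congr rfl fun i _ => ?_
  rw [opmul_apply, star_inner, real_inner_self_eq_norm_sq]

lemma hs2_star (T : E →L[ℝ] E) : hs2 (star T) = hs2 T := by
  rw [hs2, hs2, star_star, tr_mul_comm]

lemma hs2_isom_mul {k : E →L[ℝ] E} (hk : star k * k = 1) (T : E →L[ℝ] E) :
    hs2 (k * T) = hs2 T := by
  rw [hs2, hs2, star_mul, mul_assoc, ← mul_assoc (star k), hk, one_mul]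

lemma hs2_nonneg (T : E →L[ℝ] E) : 0 ≤ hs2 T := by
  rw [hs2_eq (stdOrthonormalBasis ℝ E)]
  positivity

lemma norm_sq_le_hs2 (T : E →L[ℝ] E) (v : E) : ‖T v‖ ^ 2 ≤ hs2 T * ‖v‖ ^ 2 := by
  let b := stdOrthonormalBasis ℝ E
  rw [← hs2_star, hs2_eq b, Finset.sum_mul, ← b.sum_sq_norm_inner_right (T v)]
  refine Finset.sum_le_sum fun i _ => ?_
  rw [← star_inner', ← mul_pow]
  exact pow_le_pow_left₀ (norm_nonneg _) (norm_inner_le_norm _ _) 2

lemma norm_le_sqrt_hs2 (T : E →L[ℝ] E) : ‖T‖ ≤ Real.sqrt (hs2 T) := by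
  refine ContinuousLinearMap.opNorm_le_bound _ (Real.sqrt_nonneg _) fun v => ?_
  refine le_of_sq_le_sq ?_ (by positivity)
  rw [mul_pow, Real.sq_sqrt (hs2_nonneg T)]
  exact norm_sq_le_hs2 T v

lemma hs2_mul_le (S T : E →L[ℝ] E) : hs2 (S * T) ≤ ‖S‖ ^ 2 * hs2 T := by
  let b := stdOrthonormalBasis ℝ E
  rw [hs2_eq b, hs2_eq b, Finset.mul_sum]
  refine Finset.sum_le_sum fun i _ => ?_
  rw [opmul_apply, ← mul_pow]
  exact pow_le_pow_left₀ (norm_nonneg _) (ContinuousLinearMap.le_opNorm _ _) 2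

lemma hs2_mul_le' (S T : E →L[ℝ] E) : hs2 (S * T) ≤ ‖T‖ ^ 2 * hs2 S := by
  rw [← hs2_star, star_mul, ← hs2_star S, ← norm_star T]
  exact hs2_mul_le _ _

lemma hs2_continuous : Continuous (hs2 : (E →L[ℝ] E) → ℝ) := by
  let b := stdOrthonormalBasis ℝ E
  have h : (hs2 : (E →L[ℝ] E) → ℝ) = fun T => ∑ i, ‖T (b i)‖ ^ 2 := by
    funext T; exact hs2_eq b T
  rw [h]
  refine continuous_finsetSum _ fun i _ => ?_
  exact ((ContinuousLinearMap.apply ℝ E (b i)).continuous.norm).pow 2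

lemma hs2_eq_zero {T : E →L[ℝ] E} (h : hs2 T = 0) : T = 0 := by
  have h1 := norm_le_sqrt_hs2 T
  rw [h, Real.sqrt_zero] at h1
  exact norm_le_zero_iff.1 h1

lemma hs2_smul (c : ℝ) (T : E →L[ℝ] E) : hs2 (c • T) = c ^ 2 * hs2 T := by
  let b := stdOrthonormalBasis ℝ E
  rw [hs2_eq b, hs2_eq b, Finset.mul_sum]
  refine Finset.sum_congr rfl fun i _ => ?_
  have : (c • T) (b i) = c • T (b i) := rfl
  rw [this, norm_smul, mul_pow, Real.norm_eq_abs, sq_abs]

/-! ### diagonal one-parameter groups -/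

section diag

variable {κ : Type*} [Fintype κ] (b : OrthonormalBasis κ ℝ E) (a : κ → ℝ)

/-- the one-parameter group generated by a diagonal operator -/
noncomputable def Pt (t : ℝ) : E →L[ℝ] E := dg b (fun i => Real.exp (t * a i))

lemma Pt_eq_exp (t : ℝ) : Pt b a t = exp (t • dg b a) := by
  rw [← dg_smul, dg_exp]; rfl

lemma Pt_zero : Pt b a 0 = 1 := by
  rw [← dg_one b, Pt]; congr 1; funext i; simp

lemma Pt_mul (s t : ℝ) : Pt b a s * Pt b a t = Pt b a (s + t) := by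
  rw [Pt, Pt, dg_mul, Pt]; congr 1; funext i
  rw [Pi.mul_apply, ← Real.exp_add, add_mul]

lemma Pt_star (t : ℝ) : star (Pt b a t) = Pt b a t := dg_star b _

lemma hasDerivAt_Pt : HasDerivAt (Pt b a) (dg b a) 0 := by
  have h1 : ∀ i ∈ Finset.univ, HasDerivAt
      (fun t : ℝ => Real.exp (t * a i) • (innerSL ℝ (b i)).smulRight (b i))
      (a i • (innerSL ℝ (b i)).smulRight (b i)) 0 := by
    intro i _
    have h2 : HasDerivAt (fun t : ℝ => Real.exp (t * a i)) (a i) 0 := by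
      have := ((hasDerivAt_id (0 : ℝ)).mul_const (a i)).exp
      simpa using this
    exact h2.smul_const ((innerSL ℝ (b i)).smulRight (b i) : E →L[ℝ] E)
  exact HasDerivAt.fun_sum h1

lemma det_dg (f : κ → ℝ) : LinearMap.det (dg b f : E →ₗ[ℝ] E) = ∏ i, f i := by
  classical
  rw [← LinearMap.det_toMatrix b.toBasis]
  have : LinearMap.toMatrix b.toBasis b.toBasis (dg b f : E →ₗ[ℝ] E) = Matrix.diagonal f := by
    ext i j
    rw [LinearMap.toMatrix_apply]
    have h1 : (dg b f : E →ₗ[ℝ] E) (b.toBasis j) = f j • b.toBasis j := by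
      simpa using dg_basis b f j
    rw [h1, map_smul, Finsupp.smul_apply, Module.Basis.repr_self, Finsupp.single_apply,
      Matrix.diagonal_apply]
    by_cases hij : j = i
    · subst hij; simp
    · rw [if_neg hij, if_neg (Ne.symm hij), smul_zero]
  rw [this, Matrix.det_diagonal]

lemma det_Pt (t : ℝ) : LinearMap.det (Pt b a t : E →ₗ[ℝ] E) = Real.exp (t * ∑ i, a i) := by
  rw [Pt, det_dg, ← Real.exp_sum, Finset.mul_sum]

lemma tr_dg (f : κ → ℝ) : tr (dg b f) = ∑ i, f i := by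
  rw [tr_eq b]
  refine Finset.sum_congr rfl fun i _ => ?_
  rw [dg_basis, inner_smul_right, real_inner_self_eq_norm_sq, b.norm_eq_one]; simp

lemma hs2_Pt_mul (t : ℝ) (g : E →L[ℝ] E) :
    hs2 (Pt b a t * g) = ∑ i, Real.exp (2 * t * a i) * ‖star g (b i)‖ ^ 2 := by
  rw [← hs2_star, star_mul, Pt_star, hs2_eq b]
  refine Finset.sum_congr rfl fun i _ => ?_
  rw [opmul_apply, Pt, dg_basis, map_smul, norm_smul, mul_pow, Real.norm_eq_abs,
    abs_of_pos (Real.exp_pos _), ← Real.exp_nat_mul]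
  congr 2
  push_cast; ring

lemma tr_dg_mul (g : E →L[ℝ] E) :
    tr (dg b a * (g * star g)) = ∑ i, a i * ‖star g (b i)‖ ^ 2 := by
  rw [tr_mul_comm, tr_eq b]
  refine Finset.sum_congr rfl fun i _ => ?_
  rw [opmul_apply, dg_basis, map_smul, inner_smul_right, opmul_apply, ← star_inner',
    real_inner_self_eq_norm_sq]

lemma hasDerivAt_hs2_Pt (t : ℝ) (g : E →L[ℝ] E) :
    HasDerivAt (fun t => hs2 (Pt b a t * g))
      (∑ i, 2 * a i * Real.exp (2 * t * a i) * ‖star g (b i)‖ ^ 2) t := by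
  have h : (fun t => hs2 (Pt b a t * g)) =
      fun t => ∑ i, Real.exp (2 * t * a i) * ‖star g (b i)‖ ^ 2 := by
    funext t; exact hs2_Pt_mul b a t g
  rw [h]
  have h1 : ∀ i ∈ Finset.univ, HasDerivAt (fun t => Real.exp (2 * t * a i) * ‖star g (b i)‖ ^ 2)
      (2 * a i * Real.exp (2 * t * a i) * ‖star g (b i)‖ ^ 2) t := by
    intro i _
    have h2 : HasDerivAt (fun t : ℝ => 2 * t * a i) (2 * a i) t := by
      have := ((hasDerivAt_id t).const_mul 2).mul_const (a i)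
      simpa using this
    have h3 := (h2.exp).mul_const (‖star g (b i)‖ ^ 2)
    have h4 : 2 * a i * Real.exp (2 * t * a i) * ‖star g (b i)‖ ^ 2 =
        Real.exp (2 * t * a i) * (2 * a i) * ‖star g (b i)‖ ^ 2 := by ring
    rw [h4]
    exact h3
  exact HasDerivAt.fun_sum h1

lemma hs2_Pt_midpoint (g : E →L[ℝ] E) (s t : ℝ) :
    hs2 (Pt b a ((s + t) / 2) * g) ≤ (hs2 (Pt b a s * g) + hs2 (Pt b a t * g)) / 2 := by
  rw [hs2_Pt_mul, hs2_Pt_mul, hs2_Pt_mul, ← Finset.sum_add_distrib, Finset.sum_div]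
  refine Finset.sum_le_sum fun i _ => ?_
  have h1 : Real.exp (2 * ((s + t) / 2) * a i) = Real.exp (s * a i) * Real.exp (t * a i) := by
    rw [← Real.exp_add]; congr 1; ring
  have h2 : ∀ s : ℝ, Real.exp (2 * s * a i) = Real.exp (s * a i) ^ 2 := by
    intro s; rw [← Real.exp_nat_mul]; congr 1; push_cast; ring
  rw [h1, h2, h2]
  nlinarith [mul_nonneg (sq_nonneg (Real.exp (s * a i) - Real.exp (t * a i)))
    (sq_nonneg ‖star g (b i)‖)]

end diag

/-- polar decomposition in `GL` -/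
lemma polarGL (g : (E →L[ℝ] E)ˣ) :
    ∃ (b : OrthonormalBasis (Fin (Module.finrank ℝ E)) ℝ E) (a : Fin (Module.finrank ℝ E) → ℝ)
      (k : E →L[ℝ] E), star k * k = 1 ∧ k * star k = 1 ∧ (g : E →L[ℝ] E) = k * Pt b a 1 := by
  set P : E →L[ℝ] E := star (g : E →L[ℝ] E) * g with hPdef
  have hsym : star P = P := by rw [hPdef, star_mul, star_star]
  have hs : LinearMap.IsSymmetric (P : E →ₗ[ℝ] E) := by
    rw [← ContinuousLinearMap.isSelfAdjoint_iff_isSymmetric]
    exact hsym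
  have hpos : ∀ v : E, v ≠ 0 → 0 < ⟪P v, v⟫_ℝ := by
    intro v hv
    rw [hPdef, opmul_apply, star_inner', real_inner_self_eq_norm_sq]
    have : (g : E →L[ℝ] E) v ≠ 0 := by
      intro h
      apply hv
      have h2 : ((g⁻¹ : (E →L[ℝ] E)ˣ) : E →L[ℝ] E) ((g : E →L[ℝ] E) v) = v := by
        rw [← opmul_apply, Units.inv_mul]; rfl
      rw [← h2, h, map_zero]
    positivity
  set b := hs.eigenvectorBasis rfl with hb
  set d := hs.eigenvalues rfl with hd
  have hbd : ∀ i, P (b i) = d i • b i := fun i => hs.apply_eigenvectorBasis rfl i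
  have hdpos : ∀ i, 0 < d i := by
    intro i
    have h1 := hpos (b i) (by
      intro h
      have := b.norm_eq_one i
      rw [h, norm_zero] at this
      exact zero_ne_one this)
    rw [hbd, inner_smul_left, real_inner_self_eq_norm_sq, b.norm_eq_one] at h1
    simpa using h1
  have hP : P = Pt b (fun i => Real.log (d i) / 2) 2 := by
    apply dg_ext b
    intro j
    rw [hbd, Pt, dg_basis]
    congr 1
    rw [show (2 : ℝ) * (Real.log (d j) / 2) = Real.log (d j) by ring, Real.exp_log (hdpos j)]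
  set a : Fin (Module.finrank ℝ E) → ℝ := fun i => Real.log (d i) / 2 with ha
  refine ⟨b, a, (g : E →L[ℝ] E) * Pt b a (-1), ?_, ?_, ?_⟩
  · calc star ((g : E →L[ℝ] E) * Pt b a (-1)) * ((g : E →L[ℝ] E) * Pt b a (-1))
        = Pt b a (-1) * (star (g : E →L[ℝ] E) * g) * Pt b a (-1) := by
          rw [star_mul, Pt_star]; simp only [mul_assoc]
      _ = 1 := by
          rw [← hPdef, hP, Pt_mul, Pt_mul]
          have : (-1 + 2 + -1 : ℝ) = 0 := by norm_num
          rw [this, Pt_zero]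
  · have h1 : star (g : E →L[ℝ] E) * g = Pt b a 2 := by rw [← hPdef, hP]
    have h3 : star (((g⁻¹ : (E →L[ℝ] E)ˣ) : E →L[ℝ] E)) * star (g : E →L[ℝ] E) = 1 := by
      rw [← star_mul, Units.mul_inv, star_one]
    have h2 : (g : E →L[ℝ] E) = star (((g⁻¹ : (E →L[ℝ] E)ˣ) : E →L[ℝ] E)) * Pt b a 2 := by
      rw [← h1, ← mul_assoc, h3, one_mul]
    have h4 : (g : E →L[ℝ] E) * Pt b a (-2) = star (((g⁻¹ : (E →L[ℝ] E)ˣ) : E →L[ℝ] E)) := by
      conv_lhs => rw [h2]
      rw [mul_assoc, Pt_mul]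
      have : (2 + -2 : ℝ) = 0 := by norm_num
      rw [this, Pt_zero, mul_one]
    calc (g : E →L[ℝ] E) * Pt b a (-1) * star ((g : E →L[ℝ] E) * Pt b a (-1))
        = (g : E →L[ℝ] E) * (Pt b a (-1) * Pt b a (-1)) * star (g : E →L[ℝ] E) := by
          rw [star_mul, Pt_star]; simp only [mul_assoc]
      _ = 1 := by
          rw [Pt_mul]
          have : (-1 + -1 : ℝ) = -2 := by norm_num
          rw [this, h4, h3]
  · rw [mul_assoc, Pt_mul]
    have : (-1 + 1 : ℝ) = 0 := by norm_num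
    rw [this, Pt_zero, mul_one]

/-- linear functionals on operators are given by the trace form -/
lemma exists_trace_repr (ℓ : (E →L[ℝ] E) →ₗ[ℝ] ℝ) :
    ∃ M : E →L[ℝ] E, ∀ X, ℓ X = tr (X * M) := by
  let B : (E →L[ℝ] E) →ₗ[ℝ] Module.Dual ℝ (E →L[ℝ] E) :=
    LinearMap.mk₂ ℝ (fun M X => tr (X * M))
      (fun M M' X => by rw [mul_add, tr_add])
      (fun c M X => by rw [mul_smul_comm, tr_smul, smul_eq_mul])
      (fun M X X' => by rw [add_mul, tr_add])
      (fun c M X => by rw [smul_mul_assoc, tr_smul, smul_eq_mul])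
  have hB : Function.Injective B := by
    rw [← LinearMap.ker_eq_bot, LinearMap.ker_eq_bot']
    intro M hM
    have h1 : tr (star M * M) = 0 := LinearMap.congr_fun hM (star M)
    exact hs2_eq_zero h1
  have hS : Function.Surjective B :=
    (LinearMap.injective_iff_surjective_of_finrank_eq_finrank
      (Subspace.dual_finrank_eq (K := ℝ) (V := E →L[ℝ] E)).symm).1 hB
  obtain ⟨M, hM⟩ := hS ℓ
  exact ⟨M, fun X => by rw [← hM]; rfl⟩

end Pool.Agent.Lib.MP_d9b062_al.H9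

end

/-! ## from `MP_d9b062_al_h9.Mos1` -/

section
/-!
# Minimal vectors: minimality over the commutant of `A` implies minimality over `SL`
-/

namespace Pool.Agent.Lib.MP_d9b062_al.H9

open NormedSpace Filter H64
open scoped Topology InnerProductSpace

set_option linter.unusedSectionVars false

variable {E : Type*} [NormedAddCommGroup E] [InnerProductSpace ℝ E] [CompleteSpace E]
  [FiniteDimensional ℝ E]
variable {E' : Type*} [NormedAddCommGroup E'] [InnerProductSpace ℝ E'] [CompleteSpace E']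
  [FiniteDimensional ℝ E']

/-- the determinant -/
noncomputable def dt (T : E →L[ℝ] E) : ℝ := LinearMap.det (T : E →ₗ[ℝ] E)

lemma dt_mul (S T : E →L[ℝ] E) : dt (S * T) = dt S * dt T :=
  map_mul LinearMap.det (S : E →ₗ[ℝ] E) (T : E →ₗ[ℝ] E)

lemma dt_one : dt (1 : E →L[ℝ] E) = 1 := map_one LinearMap.det

lemma dt_star (T : E →L[ℝ] E) : dt (star T) = dt T := by
  classical
  let b := stdOrthonormalBasis ℝ E
  have h1 := LinearMap.toMatrix_adjoint b b (T : E →ₗ[ℝ] E)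
  have h2 : ((star T : E →L[ℝ] E) : E →ₗ[ℝ] E) = LinearMap.adjoint (T : E →ₗ[ℝ] E) := by
    rw [ContinuousLinearMap.star_eq_adjoint]; rfl
  unfold dt
  rw [h2, ← LinearMap.det_toMatrix b.toBasis, h1, Matrix.det_conjTranspose,
    LinearMap.det_toMatrix b.toBasis]
  simp

lemma dt_continuous : Continuous (dt : (E →L[ℝ] E) → ℝ) := ContinuousLinearMap.continuous_det

lemma dt_isom {k : E →L[ℝ] E} (hk : star k * k = 1) : dt k = 1 ∨ dt k = -1 := by
  have h := congrArg dt hk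
  rw [dt_mul, dt_star, dt_one] at h
  exact mul_self_eq_one_iff.1 h

lemma dt_Pt {κ : Type*} [Fintype κ] (b : OrthonormalBasis κ ℝ E) (a : κ → ℝ) (t : ℝ) :
    dt (Pt b a t) = Real.exp (t * ∑ i, a i) := det_Pt b a t

/-- in the polar decomposition of an element of `SL`, both factors are in `SL` -/
lemma polar_det {κ : Type*} [Fintype κ] {b : OrthonormalBasis κ ℝ E} {a : κ → ℝ}
    {k g : E →L[ℝ] E} (hk : star k * k = 1) (hg : g = k * Pt b a 1) (hd : dt g = 1) :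
    dt k = 1 ∧ ∑ i, a i = 0 := by
  have h1 : dt g = dt k * Real.exp (∑ i, a i) := by rw [hg, dt_mul, dt_Pt, one_mul]
  rw [hd] at h1
  have h2 := Real.exp_pos (∑ i, a i)
  rcases dt_isom hk with h | h
  · refine ⟨h, ?_⟩
    rw [h, one_mul] at h1
    exact (Real.exp_eq_one_iff _).1 h1.symm
  · rw [h] at h1
    exfalso
    linarith

lemma exists_unit_of_dt {g : E →L[ℝ] E} (h : dt g ≠ 0) : IsUnit g := by
  have h1 : IsUnit (LinearMap.det (g : E →ₗ[ℝ] E)) := isUnit_iff_ne_zero.2 h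
  have h2 : IsUnit (g : E →ₗ[ℝ] E) := (LinearMap.isUnit_iff_isUnit_det _).2 h1
  have h3 : IsUnit ((LinearMap.toContinuousLinearMap : (E →ₗ[ℝ] E) ≃ₗ[ℝ] (E →L[ℝ] E))
      (g : E →ₗ[ℝ] E)) := by
    obtain ⟨u, hu⟩ := h2
    refine ⟨⟨LinearMap.toContinuousLinearMap (u : E →ₗ[ℝ] E),
      LinearMap.toContinuousLinearMap ((u⁻¹ : (E →ₗ[ℝ] E)ˣ) : E →ₗ[ℝ] E), ?_, ?_⟩, ?_⟩
    · ext v
      exact LinearMap.congr_fun (Units.mul_inv u) v
    · ext v
      exact LinearMap.congr_fun (Units.inv_mul u) v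
    · rw [← hu]
  exact h3

variable (R : (E →L[ℝ] E) →* (E' →L[ℝ] E')) (w : E')

/-- the function to be minimized -/
noncomputable def Phi (ε : ℝ) (g : E →L[ℝ] E) : ℝ := ‖R g w‖ ^ 2 + ε * hs2 g

variable {R}

section

variable (hRs : ∀ T, R (star T) = star (R T))

include hRs

lemma R_isom {k : E →L[ℝ] E} (hk : star k * k = 1) (v : E') : ‖R k v‖ = ‖v‖ := by
  have h1 : ‖R k v‖ ^ 2 = ‖v‖ ^ 2 := by
    rw [← real_inner_self_eq_norm_sq, ← star_inner, ← hRs, ← opmul_apply, ← map_mul, hk, map_one,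
      one_apply_eq_self, real_inner_self_eq_norm_sq]
  exact (sq_eq_sq₀ (norm_nonneg _) (norm_nonneg _)).1 h1

variable {κ : Type*} [Fintype κ] (b : OrthonormalBasis κ ℝ E) (a : κ → ℝ)

lemma R_inner (v : E') (s t : ℝ) :
    ⟪R (Pt b a s) v, R (Pt b a t) v⟫_ℝ = ⟪v, R (Pt b a (s + t)) v⟫_ℝ := by
  rw [← star_inner, ← hRs, Pt_star, ← opmul_apply, ← map_mul, Pt_mul]

lemma R_midpoint (v : E') (s t : ℝ) :
    ‖R (Pt b a ((s + t) / 2)) v‖ ^ 2 ≤ (‖R (Pt b a s) v‖ ^ 2 + ‖R (Pt b a t) v‖ ^ 2) / 2 := by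
  have h1 : ‖R (Pt b a ((s + t) / 2)) v‖ ^ 2 = ⟪R (Pt b a s) v, R (Pt b a t) v⟫_ℝ := by
    rw [R_inner hRs, ← real_inner_self_eq_norm_sq, R_inner hRs]
    congr 3
    ring_nf
  rw [h1]
  have h2 := real_inner_le_norm (R (Pt b a s) v) (R (Pt b a t) v)
  nlinarith [sq_nonneg (‖R (Pt b a s) v‖ - ‖R (Pt b a t) v‖)]

lemma Phi_isom (ε : ℝ) {k : E →L[ℝ] E} (hk : star k * k = 1) (g : E →L[ℝ] E) :
    Phi R w ε (k * g) = Phi R w ε g := by
  rw [Phi, Phi, hs2_isom_mul hk, map_mul, opmul_apply, R_isom hRs hk]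

lemma Phi_midpoint {ε : ℝ} (hε : 0 ≤ ε) (g : E →L[ℝ] E) (s t : ℝ) :
    Phi R w ε (Pt b a ((s + t) / 2) * g) ≤
      (Phi R w ε (Pt b a s * g) + Phi R w ε (Pt b a t * g)) / 2 := by
  have h1 := R_midpoint hRs b a (R g w) s t
  have h2 := mul_le_mul_of_nonneg_left (hs2_Pt_midpoint b a g s t) hε
  simp only [Phi, map_mul, opmul_apply]
  linarith

end

section

variable {κ : Type*} [Fintype κ] (b : OrthonormalBasis κ ℝ E) (a : κ → ℝ)

lemma R_hasDerivAt (hRd : DifferentiableAt ℝ (R : (E →L[ℝ] E) → (E' →L[ℝ] E')) 1) (v : E') :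
    HasDerivAt (fun t => ‖R (Pt b a t) v‖ ^ 2)
      (2 * ⟪v, fderiv ℝ (R : (E →L[ℝ] E) → (E' →L[ℝ] E')) 1 (dg b a) v⟫_ℝ) 0 := by
  have h1 : HasFDerivAt (R : (E →L[ℝ] E) → (E' →L[ℝ] E'))
      (fderiv ℝ (R : (E →L[ℝ] E) → (E' →L[ℝ] E')) 1) (Pt b a 0) := by
    rw [Pt_zero]; exact hRd.hasFDerivAt
  have h2 := h1.comp_hasDerivAt (0 : ℝ) (hasDerivAt_Pt b a)
  have h3 : HasDerivAt (fun t => R (Pt b a t) v)
      (fderiv ℝ (R : (E →L[ℝ] E) → (E' →L[ℝ] E')) 1 (dg b a) v) 0 :=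
    (ContinuousLinearMap.apply ℝ E' v).hasFDerivAt.comp_hasDerivAt (0 : ℝ) h2
  have h4 := h3.norm_sq
  have h5 : R (Pt b a 0) v = v := by rw [Pt_zero, map_one]; rfl
  rwa [h5] at h4

lemma Phi_hasDerivAt (hRd : DifferentiableAt ℝ (R : (E →L[ℝ] E) → (E' →L[ℝ] E')) 1) (ε : ℝ)
    (g : E →L[ℝ] E) : HasDerivAt (fun t => Phi R w ε (Pt b a t * g))
      (2 * ⟪R g w, fderiv ℝ (R : (E →L[ℝ] E) → (E' →L[ℝ] E')) 1 (dg b a) (R g w)⟫_ℝ +
        2 * ε * tr (dg b a * (g * star g))) 0 := by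
  have h1 := R_hasDerivAt b a hRd (R g w)
  have h2 := (hasDerivAt_hs2_Pt b a 0 g).const_mul ε
  have h3 := h1.add h2
  have h4 : (fun t => Phi R w ε (Pt b a t * g)) =
      fun t => ‖R (Pt b a t) (R g w)‖ ^ 2 + ε * hs2 (Pt b a t * g) := by
    funext t
    rw [Phi, map_mul, opmul_apply]
  have h5 : 2 * ε * tr (dg b a * (g * star g)) =
      ε * ∑ i, 2 * a i * Real.exp (2 * 0 * a i) * ‖star g (b i)‖ ^ 2 := by
    rw [tr_dg_mul, Finset.mul_sum, Finset.mul_sum]
    refine Finset.sum_congr rfl fun i _ => ?_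
    rw [mul_zero, zero_mul, Real.exp_zero]
    ring
  rw [h4, h5]
  exact h3

end

/-- Kempf–Ness type argument: a minimum over the commutant of `A` is a global minimum. -/
theorem Phi_min [Nontrivial E] (hRs : ∀ T, R (star T) = star (R T))
    (hRd : DifferentiableAt ℝ (R : (E →L[ℝ] E) → (E' →L[ℝ] E')) 1)
    {A : Set (E →L[ℝ] E)} (hAs : ∀ X ∈ A, star X = X)
    (hfix : ∀ X ∈ A, ∀ t : ℝ, R (exp (t • X)) w = w) {ε : ℝ} (hε : 0 ≤ ε) {g : E →L[ℝ] E}
    (hdet : dt g = 1) (hgA : ∀ X ∈ A, g * X = X * g)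
    (hmin : ∀ h, dt h = 1 → (∀ X ∈ A, h * X = X * h) → Phi R w ε g ≤ Phi R w ε h) :
    ∀ h, dt h = 1 → Phi R w ε g ≤ Phi R w ε h := by
  set R' := fderiv ℝ (R : (E →L[ℝ] E) → (E' →L[ℝ] E')) 1 with hR'
  set v := R g w with hv
  let ℓ : (E →L[ℝ] E) →ₗ[ℝ] ℝ :=
    { toFun := fun X => 2 * ⟪v, R' X v⟫_ℝ + 2 * ε * tr (X * (g * star g))
      map_add' := fun X Y => by
        have h1 : R' (X + Y) v = R' X v + R' Y v := by rw [map_add]; rfl
        rw [h1, inner_add_right, add_mul, tr_add]; ring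
      map_smul' := fun c X => by
        have h1 : R' (c • X) v = c • R' X v := by rw [map_smul]; rfl
        rw [h1, inner_smul_right, smul_mul_assoc, tr_smul, RingHom.id_apply, smul_eq_mul]; ring }
  have hℓ : ∀ X, ℓ X = 2 * ⟪v, R' X v⟫_ℝ + 2 * ε * tr (X * (g * star g)) := fun X => rfl
  -- diagonalisation of symmetric operators
  have hdiag : ∀ X : E →L[ℝ] E, star X = X →
      ∃ (b : OrthonormalBasis (Fin (Module.finrank ℝ E)) ℝ E)
        (a : Fin (Module.finrank ℝ E) → ℝ), X = dg b a := by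
    intro X hX
    have hs : LinearMap.IsSymmetric (X : E →ₗ[ℝ] E) := by
      rw [← ContinuousLinearMap.isSelfAdjoint_iff_isSymmetric]
      exact hX
    refine ⟨hs.eigenvectorBasis rfl, hs.eigenvalues rfl, ?_⟩
    apply dg_ext (hs.eigenvectorBasis rfl)
    intro j
    rw [dg_basis]
    exact hs.apply_eigenvectorBasis rfl j
  -- stationarity in the directions commuting with `A`
  have h1 : ∀ X : E →L[ℝ] E, star X = X → (∀ H ∈ A, X * H = H * X) → tr X = 0 → ℓ X = 0 := by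
    intro X hX hXA hXt
    obtain ⟨b, a, rfl⟩ := hdiag X hX
    rw [tr_dg] at hXt
    have h2 := Phi_hasDerivAt w b a hRd ε g
    refine IsLocalMin.hasDerivAt_eq_zero (f := fun t => Phi R w ε (Pt b a t * g)) ?_ h2
    refine Eventually.of_forall fun t => ?_
    show Phi R w ε (Pt b a 0 * g) ≤ Phi R w ε (Pt b a t * g)
    rw [Pt_zero, one_mul]
    refine hmin _ ?_ ?_
    · rw [dt_mul, hdet, dt_Pt, hXt, mul_zero, Real.exp_zero, one_mul]
    · intro H hH
      have h3 : Pt b a t * H = H * Pt b a t := by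
        rw [Pt_eq_exp]
        have h4 : Commute (t • dg b a) H := by
          show (t • dg b a) * H = H * (t • dg b a)
          rw [smul_mul_assoc, mul_smul_comm, hXA H hH]
        exact h4.exp_left.eq
      rw [mul_assoc, hgA H hH, ← mul_assoc, h3, mul_assoc]
  -- Riesz
  obtain ⟨M, hM⟩ := exists_trace_repr ℓ
  -- `M` commutes with `A`
  have h2 : ∀ H ∈ A, M * H = H * M := by
    intro H hH
    have h3 : ∀ t : ℝ, exp (t • H) * M = M * exp (t • H) := by
      intro t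
      set u : E →L[ℝ] E := exp (t • H) with hu
      set u' : E →L[ℝ] E := exp ((-t) • H) with hu'
      obtain ⟨b, a, hab⟩ := hdiag H (hAs H hH)
      have hup : u = Pt b a t := by rw [hu, hab, Pt_eq_exp]
      have hup' : u' = Pt b a (-t) := by rw [hu', hab, Pt_eq_exp]
      have huu' : u * u' = 1 := by rw [hup, hup', Pt_mul, add_neg_cancel, Pt_zero]
      have hu'u : u' * u = 1 := by rw [hup, hup', Pt_mul, neg_add_cancel, Pt_zero]
      have hus : star u = u := by rw [hup, Pt_star]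
      have hgu : g * u = u * g := by
        have h4 : Commute (t • H) g := by
          show (t • H) * g = g * (t • H)
          rw [smul_mul_assoc, mul_smul_comm, hgA H hH]
        exact h4.exp_left.eq.symm
      have hgsu : star g * u = u * star g := by
        have h4 := congrArg star hgu
        rw [star_mul, star_mul, hus] at h4
        exact h4.symm
      have hRv : R u v = v := by
        rw [hv, ← opmul_apply, ← map_mul, ← hgu, map_mul, opmul_apply, hfix H hH t]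
      have hRv' : R u' v = v := by
        conv_lhs => rw [← hRv]
        rw [← opmul_apply, ← map_mul, hu'u, map_one]; rfl
      -- derivative of `R` along conjugation
      have hconj : ∀ X, R' (u * X * u') = R u * R' X * R u' := by
        intro X
        have e1 : (R : (E →L[ℝ] E) → (E' →L[ℝ] E')) ∘ (fun T => u * T * u') =
            fun T => R u * R T * R u' := by
          funext T; simp [map_mul]
        have e2 : HasFDerivAt (fun T : E →L[ℝ] E => u * T * u')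
            (((ContinuousLinearMap.mul ℝ (E →L[ℝ] E)).flip u').comp
              (ContinuousLinearMap.mul ℝ (E →L[ℝ] E) u)) 1 :=
          (((ContinuousLinearMap.mul ℝ (E →L[ℝ] E)).flip u').comp
              (ContinuousLinearMap.mul ℝ (E →L[ℝ] E) u)).hasFDerivAt
        have e3 : HasFDerivAt (R : (E →L[ℝ] E) → (E' →L[ℝ] E')) R' (u * 1 * u') := by
          rw [mul_one, huu']; exact hRd.hasFDerivAt
        have e4 := HasFDerivAt.comp (1 : E →L[ℝ] E) e3 e2
        rw [e1] at e4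
        have e5 : HasFDerivAt (fun T : E →L[ℝ] E => R u * R T * R u')
            ((((ContinuousLinearMap.mul ℝ (E' →L[ℝ] E')).flip (R u')).comp
              (ContinuousLinearMap.mul ℝ (E' →L[ℝ] E') (R u))).comp R') 1 :=
          HasFDerivAt.comp (1 : E →L[ℝ] E)
            (((ContinuousLinearMap.mul ℝ (E' →L[ℝ] E')).flip (R u')).comp
              (ContinuousLinearMap.mul ℝ (E' →L[ℝ] E') (R u))).hasFDerivAt hRd.hasFDerivAt
        have e6 := e4.unique e5
        have e7 := congrArg (fun L : (E →L[ℝ] E) →L[ℝ] (E' →L[ℝ] E') => L X) e6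
        exact e7
      have hinv : ∀ X, ℓ (u * X * u') = ℓ X := by
        intro X
        rw [hℓ, hℓ, hconj]
        have f1 : ⟪v, (R u * R' X * R u') v⟫_ℝ = ⟪v, R' X v⟫_ℝ := by
          rw [opmul_apply, opmul_apply, hRv']
          have : R u = star (R u) := by rw [← hRs, hus]
          rw [this, star_inner, hRv]
        have f2 : tr (u * X * u' * (g * star g)) = tr (X * (g * star g)) := by
          have f3 : u' * (g * star g) * u = g * star g := by
            rw [mul_assoc, mul_assoc, hgsu, ← mul_assoc g, hgu, ← mul_assoc, ← mul_assoc, hu'u,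
              one_mul]
          calc tr (u * X * u' * (g * star g)) = tr (u * (X * u' * (g * star g))) := by
                simp only [mul_assoc]
            _ = tr (X * (u' * (g * star g) * u)) := by
                rw [tr_mul_comm]; simp only [mul_assoc]
            _ = _ := by rw [f3]
        rw [f1, f2]
      have hM2 : ∀ X, tr (X * (u' * M * u - M)) = 0 := by
        intro X
        have f1 := hinv X
        rw [hM, hM] at f1
        have f2 : tr (u * X * u' * M) = tr (X * (u' * M * u)) := by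
          calc tr (u * X * u' * M) = tr (u * (X * u' * M)) := by simp only [mul_assoc]
            _ = _ := by rw [tr_mul_comm]; simp only [mul_assoc]
        rw [mul_sub, tr_sub, ← f2, f1, sub_self]
      have hM3 : u' * M * u - M = 0 := hs2_eq_zero (hM2 _)
      rw [sub_eq_zero] at hM3
      calc u * M = u * (u' * M * u) := by rw [hM3]
        _ = (u * u') * M * u := by simp only [mul_assoc]
        _ = M * u := by rw [huu', one_mul]
    -- differentiate
    have h4 : HasDerivAt (fun t : ℝ => exp (t • H)) H 0 := by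
      obtain ⟨b, a, hab⟩ := hdiag H (hAs H hH)
      have h5 := hasDerivAt_Pt b a
      have h6 : Pt b a = fun t : ℝ => exp (t • H) := by
        funext t; rw [Pt_eq_exp, hab]
      rw [h6, ← hab] at h5
      exact h5
    have h5 : HasDerivAt (fun t : ℝ => exp (t • H) * M) (H * M) 0 := h4.mul_const M
    have h6 : HasDerivAt (fun t : ℝ => exp (t • H) * M) (M * H) 0 := by
      have h7 : (fun t : ℝ => exp (t • H) * M) = fun t : ℝ => M * exp (t • H) := by
        funext t; exact h3 t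
      rw [h7]
      exact h4.const_mul M
    exact h6.unique h5
  -- the symmetric part of `M` is scalar
  set M' : E →L[ℝ] E := M + star M with hM'
  have hM's : star M' = M' := by rw [hM', star_add, star_star, add_comm]
  have hM'A : ∀ H ∈ A, M' * H = H * M' := by
    intro H hH
    have h3 := congrArg star (h2 H hH)
    rw [star_mul, star_mul, hAs H hH] at h3
    rw [hM', add_mul, mul_add, h2 H hH, ← h3]
  have hsymM : ∀ X : E →L[ℝ] E, star X = X → ℓ X = tr (X * M') / 2 := by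
    intro X hX
    have h3 : tr (X * star M) = tr (X * M) := by
      have h4 : tr (star (M * X)) = tr (M * X) := by
        let b := stdOrthonormalBasis ℝ E
        rw [tr_eq b, tr_eq b]
        refine Finset.sum_congr rfl fun i _ => ?_
        rw [star_inner, real_inner_comm]
      rw [star_mul, hX] at h4
      rw [h4, tr_mul_comm]
    rw [hM, hM', mul_add, tr_add, h3]; ring
  have hn : (0 : ℝ) < (Module.finrank ℝ E : ℝ) := by
    exact_mod_cast Module.finrank_pos (R := ℝ) (M := E)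
  have htr1 : tr (1 : E →L[ℝ] E) = Module.finrank ℝ E := LinearMap.trace_one ℝ E
  set c : ℝ := tr M' / Module.finrank ℝ E with hc
  set X₀ : E →L[ℝ] E := M' - c • (1 : E →L[ℝ] E) with hX₀
  have hX₀s : star X₀ = X₀ := by rw [hX₀, star_sub, star_smul, hM's, star_one]; simp
  have hX₀t : tr X₀ = 0 := by
    rw [hX₀, tr_sub, tr_smul, htr1, hc, div_mul_cancel₀ _ hn.ne', sub_self]
  have hX₀A : ∀ H ∈ A, X₀ * H = H * X₀ := by
    intro H hH
    rw [hX₀, sub_mul, mul_sub, hM'A H hH, smul_mul_assoc, mul_smul_comm, one_mul, mul_one]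
  have h3 : tr (X₀ * M') = 0 := by
    have := h1 X₀ hX₀s hX₀A hX₀t
    rw [hsymM X₀ hX₀s] at this
    linarith
  have h4 : X₀ = 0 := by
    apply hs2_eq_zero
    rw [hs2, hX₀s]
    have : X₀ * X₀ = X₀ * M' - c • X₀ := by
      conv_lhs => rw [hX₀]
      rw [← hX₀, mul_sub, mul_smul_comm, mul_one]
    rw [this, tr_sub, tr_smul, h3, hX₀t, mul_zero, sub_zero]
  have h5 : M' = c • (1 : E →L[ℝ] E) := sub_eq_zero.1 (hX₀ ▸ h4)
  have h6 : ∀ X : E →L[ℝ] E, star X = X → tr X = 0 → ℓ X = 0 := by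
    intro X hX hXt
    rw [hsymM X hX, h5, mul_smul_comm, mul_one, tr_smul, hXt]; ring
  -- conclusion by convexity
  intro h hh
  obtain ⟨gu, hgu⟩ := exists_unit_of_dt (g := g) (by rw [hdet]; exact one_ne_zero)
  obtain ⟨hu, hhu⟩ := exists_unit_of_dt (g := h) (by rw [hh]; exact one_ne_zero)
  obtain ⟨b, a, k, hk, -, hka⟩ := polarGL (hu * gu⁻¹)
  have hd1 : dt ((hu * gu⁻¹ : (E →L[ℝ] E)ˣ) : E →L[ℝ] E) = 1 := by
    have h7 : dt (((hu * gu⁻¹ : (E →L[ℝ] E)ˣ) : E →L[ℝ] E) * g) = dt h := by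
      rw [← hgu, ← hhu, ← Units.val_mul, inv_mul_cancel_right]
    rw [dt_mul, hdet, mul_one, hh] at h7
    exact h7
  obtain ⟨hdk, hsum⟩ := polar_det hk hka hd1
  have h7 : h = k * (Pt b a 1 * g) := by
    rw [← mul_assoc, ← hka, ← hgu, ← hhu, ← Units.val_mul, inv_mul_cancel_right]
  rw [h7, Phi_isom w hRs ε hk]
  have h8 := Phi_hasDerivAt w b a hRd ε g
  have h9 := midpoint_deriv (f := fun t => Phi R w ε (Pt b a t * g))
    (fun s t => Phi_midpoint w hRs b a hε g s t) h8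
  have h10 : ℓ (dg b a) = 0 := h6 _ (dg_star b a) (by rw [tr_dg, hsum])
  rw [hℓ] at h10
  rw [h10] at h9
  simp only [Pt_zero, one_mul] at h9
  linarith

end Pool.Agent.Lib.MP_d9b062_al.H9

end

/-! ## from `MP_d9b062_al_h9.Mos2` -/

section
/-!
# Minimal vectors: existence and limits of minimizers, Mostow's theorem
-/

namespace Pool.Agent.Lib.MP_d9b062_al.H9

open NormedSpace Filter H64
open scoped Topology InnerProductSpace

set_option linter.unusedSectionVars false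

variable {E : Type*} [NormedAddCommGroup E] [InnerProductSpace ℝ E] [CompleteSpace E]
  [FiniteDimensional ℝ E]
variable {E' : Type*} [NormedAddCommGroup E'] [InnerProductSpace ℝ E'] [CompleteSpace E']
  [FiniteDimensional ℝ E']
variable {R : (E →L[ℝ] E) →* (E' →L[ℝ] E')} (w : E')

lemma Phi_continuous (hRc : Continuous R) (ε : ℝ) : Continuous (Phi R w ε) := by
  have h1 : Continuous fun g : E →L[ℝ] E => R g w :=
    (ContinuousLinearMap.apply ℝ E' w).continuous.comp hRc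
  exact ((h1.norm).pow 2).add (continuous_const.mul hs2_continuous)

lemma exists_minimizer (hRc : Continuous R) (A : Set (E →L[ℝ] E)) {ε : ℝ} (hε : 0 < ε) :
    ∃ g : E →L[ℝ] E, dt g = 1 ∧ (∀ X ∈ A, g * X = X * g) ∧
      ∀ h, dt h = 1 → (∀ X ∈ A, h * X = X * h) → Phi R w ε g ≤ Phi R w ε h := by
  set B := Phi R w ε 1 with hB
  set K : Set (E →L[ℝ] E) := {g | dt g = 1 ∧ (∀ X ∈ A, g * X = X * g) ∧ hs2 g ≤ B / ε} with hK
  have hcl : IsClosed K := by
    have h1 : IsClosed {g : E →L[ℝ] E | dt g = 1} := isClosed_eq dt_continuous continuous_const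
    have h2 : IsClosed {g : E →L[ℝ] E | ∀ X ∈ A, g * X = X * g} := by
      have : {g : E →L[ℝ] E | ∀ X ∈ A, g * X = X * g} =
          ⋂ X ∈ A, {g : E →L[ℝ] E | g * X = X * g} := by
        ext g; simp
      rw [this]
      refine isClosed_biInter fun X _ => ?_
      exact isClosed_eq (continuous_id.mul continuous_const) (continuous_const.mul continuous_id)
    have h3 : IsClosed {g : E →L[ℝ] E | hs2 g ≤ B / ε} :=
      isClosed_le hs2_continuous continuous_const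
    exact h1.inter (h2.inter h3)
  have hbd : Bornology.IsBounded K := by
    refine (Metric.isBounded_closedBall (x := (0 : E →L[ℝ] E))
      (r := Real.sqrt (B / ε))).subset fun g hg => ?_
    rw [mem_closedBall_zero_iff]
    exact (norm_le_sqrt_hs2 g).trans (Real.sqrt_le_sqrt hg.2.2)
  have hKc : IsCompact K := Metric.isCompact_of_isClosed_isBounded hcl hbd
  have hone : (1 : E →L[ℝ] E) ∈ K := by
    refine ⟨dt_one, fun X _ => by rw [one_mul, mul_one], ?_⟩
    rw [le_div_iff₀ hε, hB, Phi]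
    have : 0 ≤ ‖R (1 : E →L[ℝ] E) w‖ ^ 2 := by positivity
    linarith
  obtain ⟨g, hg, hmin⟩ := hKc.exists_isMinOn ⟨1, hone⟩ (Phi_continuous w hRc ε).continuousOn
  refine ⟨g, hg.1, hg.2.1, fun h h1 h2 => ?_⟩
  by_cases h3 : hs2 h ≤ B / ε
  · exact hmin ⟨h1, h2, h3⟩
  · rw [not_le, div_lt_iff₀ hε] at h3
    have h4 : Phi R w ε g ≤ B := hmin hone
    have h5 : 0 ≤ ‖R h w‖ ^ 2 := by positivity
    have h6 : Phi R w ε h = ‖R h w‖ ^ 2 + ε * hs2 h := rfl
    linarith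

lemma neg_mul_exp_le (x : ℝ) : -(x * Real.exp (2 * x)) ≤ 1 := by
  rcases le_or_gt 0 x with h | h
  · have := mul_nonneg h (Real.exp_pos (2 * x)).le
    linarith
  · have h1 := Real.add_one_le_exp (-x)
    have h2 : Real.exp (2 * x) * Real.exp (-x) ≤ 1 := by
      rw [← Real.exp_add, Real.exp_le_one_iff]; linarith
    have h3 := Real.exp_pos (2 * x)
    nlinarith

/-- the key estimate -/
lemma key_estimate (hRs : ∀ T, R (star T) = star (R T)) {ε : ℝ} (hε : 0 < ε) {g : E →L[ℝ] E}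
    (hdet : dt g = 1) (hmin : ∀ h, dt h = 1 → Phi R w ε g ≤ Phi R w ε h)
    (γ : (E →L[ℝ] E)ˣ) (hγ : R (γ : E →L[ℝ] E) w = w) (hγd : dt (γ : E →L[ℝ] E) = 1)
    {r : ℝ} (hr : 0 < r) (v : E) :
    ‖g ((γ : E →L[ℝ] E) v)‖ ^ 2 ≤ Real.exp (2 * r) * ‖g v‖ ^ 2 +
      ‖(γ : E →L[ℝ] E)‖ ^ 2 * ‖((γ⁻¹ : (E →L[ℝ] E)ˣ) : E →L[ℝ] E)‖ ^ 2 / r * hs2 g * ‖v‖ ^ 2 := by
  classical
  obtain ⟨gu, hgu⟩ := exists_unit_of_dt (g := g) (by rw [hdet]; exact one_ne_zero)
  obtain ⟨b, a, k, hk, hk', hka⟩ := polarGL (gu * γ * gu⁻¹)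
  set γi : E →L[ℝ] E := ((γ⁻¹ : (E →L[ℝ] E)ˣ) : E →L[ℝ] E) with hγi
  have hγγi : (γ : E →L[ℝ] E) * γi = 1 := Units.mul_inv γ
  have hγiγ : γi * (γ : E →L[ℝ] E) = 1 := Units.inv_mul γ
  have hgγ : g * γ = k * Pt b a 1 * g := by
    rw [← hka, ← hgu, ← Units.val_mul, ← Units.val_mul, inv_mul_cancel_right]
  have hRγi : R γi w = w := by
    conv_lhs => rw [← hγ]
    rw [← opmul_apply, ← map_mul, hγiγ, map_one]; rfl
  have hdγi : dt γi = 1 := by
    have := congrArg dt hγγi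
    rwa [dt_mul, hγd, one_mul, dt_one] at this
  have hdgu : dt ((gu * γ * gu⁻¹ : (E →L[ℝ] E)ˣ) : E →L[ℝ] E) = 1 := by
    have h7 : dt (((gu * γ * gu⁻¹ : (E →L[ℝ] E)ˣ) : E →L[ℝ] E) * g) = dt (g * (γ : E →L[ℝ] E)) := by
      rw [← hgu, ← Units.val_mul, inv_mul_cancel_right, Units.val_mul]
    rw [dt_mul, dt_mul, hdet, mul_one, hγd, mul_one] at h7
    exact h7
  obtain ⟨hdk, hsum⟩ := polar_det hk hka hdgu
  set u := R g w with hu
  -- the function `a`
  have hA1 : ‖R (Pt b a 1) u‖ = ‖u‖ := by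
    rw [← R_isom hRs hk (R (Pt b a 1) u), hu, ← opmul_apply, ← opmul_apply, ← map_mul, ← map_mul,
      ← hgγ, map_mul, opmul_apply, hγ]
  have hA0 : R (Pt b a 0) u = u := by rw [Pt_zero, map_one]; rfl
  have hA : ∀ n : ℕ, ‖R (Pt b a (1 - (1 / 2 : ℝ) ^ n)) u‖ ^ 2 ≤ ‖u‖ ^ 2 := by
    intro n
    have := midpoint_le (a := fun t => ‖R (Pt b a t) u‖ ^ 2)
      (fun s t => R_midpoint hRs b a u s t) (by simp only [hA1, hA0, le_refl]) n
    simpa only [hA1] using this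
  -- the function `β`
  have hβ1 : hs2 (Pt b a 1 * (g * γi)) = hs2 g := by
    have h1 : Pt b a 1 * (g * γi) = star k * g := by
      have h2 : k * (Pt b a 1 * (g * γi)) = g := by
        rw [← mul_assoc, ← mul_assoc, ← hgγ, mul_assoc, hγγi, mul_one]
      rw [← h2, ← mul_assoc (star k), hk, one_mul, h2]
    rw [h1, hs2_isom_mul (by rw [star_star, hk'])]
  have hβ : ∀ n : ℕ, hs2 (Pt b a 1 * (g * γi)) ≤
      hs2 (Pt b a (1 - (1 / 2 : ℝ) ^ n) * (g * γi)) := by
    intro n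
    set t := 1 - (1 / 2 : ℝ) ^ n with ht
    have h1 := hmin (Pt b a t * (g * γi)) (by
      rw [dt_mul, dt_mul, hdet, hdγi, dt_Pt, hsum, mul_zero, Real.exp_zero, one_mul, one_mul])
    have h2 : Phi R w ε (Pt b a t * (g * γi)) =
        ‖R (Pt b a t) u‖ ^ 2 + ε * hs2 (Pt b a t * (g * γi)) := by
      rw [Phi, map_mul, map_mul, opmul_apply, opmul_apply, hRγi]
    have h3 : Phi R w ε g = ‖u‖ ^ 2 + ε * hs2 g := rfl
    rw [h2, h3] at h1
    rw [hβ1]
    have h4 := hA n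
    have h5 : ε * hs2 g ≤ ε * hs2 (Pt b a t * (g * γi)) := by linarith
    exact le_of_mul_le_mul_left h5 hε
  have hder := deriv_nonpos_of_seq (β := fun t => hs2 (Pt b a t * (g * γi)))
    (hasDerivAt_hs2_Pt b a 1 (g * γi)) hβ
  set vv : Fin (Module.finrank ℝ E) → ℝ := fun i => ‖star (g * γi) (b i)‖ ^ 2 with hvv
  have hvv0 : ∀ i, 0 ≤ vv i := fun i => by positivity
  have hS1 : ∑ i, a i * Real.exp (2 * a i) * vv i ≤ 0 := by
    have h1 : ∑ i, 2 * a i * Real.exp (2 * 1 * a i) * ‖star (g * γi) (b i)‖ ^ 2 =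
        2 * ∑ i, a i * Real.exp (2 * a i) * vv i := by
      rw [Finset.mul_sum]
      refine Finset.sum_congr rfl fun i _ => ?_
      rw [mul_one]; ring
    rw [h1] at hder
    linarith
  have hS2 : ∑ i, vv i ≤ ‖γi‖ ^ 2 * hs2 g := by
    rw [hvv, ← hs2_eq b, hs2_star]
    exact hs2_mul_le' g γi
  have hS3 : r * ∑ i, (if r < a i then Real.exp (2 * a i) * vv i else 0) ≤
      ‖γi‖ ^ 2 * hs2 g := by
    have h1 : r * ∑ i, (if r < a i then Real.exp (2 * a i) * vv i else 0) ≤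
        ∑ i, (a i * Real.exp (2 * a i) * vv i + vv i) := by
      rw [Finset.mul_sum]
      refine Finset.sum_le_sum fun i _ => ?_
      have h2 := neg_mul_exp_le (a i)
      have h3 := Real.exp_pos (2 * a i)
      have h4 := hvv0 i
      split_ifs with h5
      · have h6 : r * (Real.exp (2 * a i) * vv i) ≤ a i * (Real.exp (2 * a i) * vv i) :=
          mul_le_mul_of_nonneg_right h5.le (mul_nonneg h3.le h4)
        nlinarith
      · rw [mul_zero]
        nlinarith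
    rw [Finset.sum_add_distrib] at h1
    linarith
  -- conclusion
  have h1 : ‖g ((γ : E →L[ℝ] E) v)‖ ^ 2 = ∑ i, Real.exp (2 * a i) * ⟪b i, g v⟫_ℝ ^ 2 := by
    have h2 : g ((γ : E →L[ℝ] E) v) = k (Pt b a 1 (g v)) := by
      rw [← opmul_apply, hgγ]; rfl
    have h3 : ‖k (Pt b a 1 (g v))‖ ^ 2 = ‖Pt b a 1 (g v)‖ ^ 2 := by
      generalize Pt b a 1 (g v) = x
      have h4 : star k (k x) = x := by rw [← opmul_apply, hk]; rfl
      rw [← real_inner_self_eq_norm_sq, ← star_inner, h4, real_inner_self_eq_norm_sq]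
    rw [h2, h3, ← b.sum_sq_norm_inner_right]
    refine Finset.sum_congr rfl fun i _ => ?_
    rw [← star_inner', Pt_star, Pt, dg_basis, inner_smul_left, norm_mul, mul_pow]
    simp only [RCLike.conj_to_real, Real.norm_eq_abs, sq_abs]
    congr 1
    rw [← Real.exp_nat_mul]; congr 1; push_cast; ring
  have h2 : ∀ i, Real.exp (2 * a i) * ⟪b i, g v⟫_ℝ ^ 2 ≤
      Real.exp (2 * r) * ‖⟪b i, g v⟫_ℝ‖ ^ 2 + ‖(γ : E →L[ℝ] E)‖ ^ 2 * ‖v‖ ^ 2 *
        (if r < a i then Real.exp (2 * a i) * vv i else 0) := by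
    intro i
    rw [Real.norm_eq_abs, sq_abs]
    split_ifs with h5
    · have h3 : ⟪b i, g v⟫_ℝ ^ 2 ≤ ‖(γ : E →L[ℝ] E)‖ ^ 2 * vv i * ‖v‖ ^ 2 := by
        have h4 : star g = star (γ : E →L[ℝ] E) * star (g * γi) := by
          rw [← star_mul, mul_assoc, hγiγ, mul_one]
        have h5 : ‖star g (b i)‖ ≤ ‖(γ : E →L[ℝ] E)‖ * ‖star (g * γi) (b i)‖ := by
          rw [h4, opmul_apply, ← norm_star (γ : E →L[ℝ] E)]
          exact ContinuousLinearMap.le_opNorm _ _
        have h6 : |⟪b i, g v⟫_ℝ| ≤ ‖(γ : E →L[ℝ] E)‖ * ‖star (g * γi) (b i)‖ * ‖v‖ := by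
          rw [← star_inner']
          exact (abs_real_inner_le_norm _ _).trans
            (mul_le_mul_of_nonneg_right h5 (norm_nonneg _))
        have h7 := pow_le_pow_left₀ (abs_nonneg _) h6 2
        rw [sq_abs, mul_pow, mul_pow] at h7
        exact h7
      have h4 := Real.exp_pos (2 * a i)
      have h6 := mul_le_mul_of_nonneg_left h3 h4.le
      have h7 : 0 ≤ Real.exp (2 * r) * ⟪b i, g v⟫_ℝ ^ 2 := by positivity
      nlinarith
    · rw [mul_zero, add_zero]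
      refine mul_le_mul_of_nonneg_right ?_ (sq_nonneg _)
      rw [Real.exp_le_exp]
      linarith [not_lt.1 h5]
  rw [h1]
  refine (Finset.sum_le_sum fun i _ => h2 i).trans ?_
  rw [Finset.sum_add_distrib, ← Finset.mul_sum, ← Finset.mul_sum, b.sum_sq_norm_inner_right]
  have h3 : ∑ i, (if r < a i then Real.exp (2 * a i) * vv i else 0) ≤
      ‖γi‖ ^ 2 * hs2 g / r := by
    rw [le_div_iff₀ hr, mul_comm]; exact hS3
  have h4 : 0 ≤ ‖(γ : E →L[ℝ] E)‖ ^ 2 * ‖v‖ ^ 2 := by positivity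
  have h5 := mul_le_mul_of_nonneg_left h3 h4
  have h6 : ‖(γ : E →L[ℝ] E)‖ ^ 2 * ‖v‖ ^ 2 * (‖γi‖ ^ 2 * hs2 g / r) =
      ‖(γ : E →L[ℝ] E)‖ ^ 2 * ‖γi‖ ^ 2 / r * hs2 g * ‖v‖ ^ 2 := by ring
  rw [h6] at h5
  linarith

/-- a sequence of elements of `SL` satisfying the key estimate for an irreducible group does not
tend to infinity -/
lemma not_tendsto [Nontrivial E] {G : Subgroup (E →L[ℝ] E)ˣ}
    (hirr : ∀ W : Submodule ℝ E, (∀ g ∈ G, ∀ v ∈ W, (g : E →L[ℝ] E) v ∈ W) → W = ⊥ ∨ W = ⊤)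
    (g : ℕ → (E →L[ℝ] E)) (hd : ∀ n, dt (g n) = 1)
    (hest : ∀ γ ∈ G, ∃ C : ℝ, ∀ n, ∀ r : ℝ, 0 < r → ∀ v,
      ‖g n ((γ : E →L[ℝ] E) v)‖ ^ 2 ≤ Real.exp (2 * r) * ‖g n v‖ ^ 2 +
        C / r * hs2 (g n) * ‖v‖ ^ 2) :
    ¬ Tendsto (fun n => hs2 (g n)) atTop atTop := by
  intro hT
  set s : ℕ → ℝ := fun n => Real.sqrt (hs2 (g n)) with hs
  have hsT : Tendsto s atTop atTop := Real.tendsto_sqrt_atTop.comp hT
  have hspos : ∀ᶠ n in atTop, 0 < s n := hsT.eventually_gt_atTop 0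
  have hs2eq : ∀ n, s n ^ 2 = hs2 (g n) := fun n => Real.sq_sqrt (hs2_nonneg _)
  set G' : ℕ → (E →L[ℝ] E) := fun n => (s n)⁻¹ • g n with hG'
  have hbd : ∀ n, G' n ∈ Metric.closedBall (0 : E →L[ℝ] E) 1 := by
    intro n
    rw [mem_closedBall_zero_iff]
    have h1 : ‖G' n‖ = |(s n)⁻¹| * ‖g n‖ := norm_smul _ _
    rw [h1, abs_of_nonneg (inv_nonneg.2 (Real.sqrt_nonneg _))]
    have h2 := norm_le_sqrt_hs2 (g n)
    rcases eq_or_lt_of_le (Real.sqrt_nonneg (hs2 (g n))) with h3 | h3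
    · have : (s n)⁻¹ = 0 := by rw [hs]; simp only; rw [← h3, inv_zero]
      rw [this, zero_mul]; exact zero_le_one
    · have h4 : 0 < s n := h3
      rw [inv_mul_le_iff₀ h4, mul_one]
      exact h2
  obtain ⟨T, -, φ, hφ, hlim⟩ := tendsto_subseq_of_bounded Metric.isBounded_closedBall hbd
  have hφT : Tendsto φ atTop atTop := hφ.tendsto_atTop
  have hspos' : ∀ᶠ n in atTop, 0 < s (φ n) := hφT.eventually hspos
  -- `T ≠ 0`
  have hT1 : hs2 T = 1 := by
    have h1 : Tendsto (fun n => hs2 (G' (φ n))) atTop (𝓝 (hs2 T)) :=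
      (hs2_continuous.tendsto T).comp hlim
    have h2 : (fun n => hs2 (G' (φ n))) =ᶠ[atTop] fun _ => (1 : ℝ) := by
      filter_upwards [hspos'] with n hn
      have : hs2 (G' (φ n)) = ((s (φ n))⁻¹) ^ 2 * hs2 (g (φ n)) := hs2_smul _ _
      rw [this, ← hs2eq, ← mul_pow, inv_mul_cancel₀ hn.ne', one_pow]
    exact tendsto_nhds_unique h1 (tendsto_const_nhds.congr' h2.symm)
  -- `det T = 0`
  have hT0 : dt T = 0 := by
    have h1 : Tendsto (fun n => dt (G' (φ n))) atTop (𝓝 (dt T)) :=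
      (dt_continuous.tendsto T).comp hlim
    have h2 : (fun n => dt (G' (φ n))) = fun n => ((s (φ n))⁻¹) ^ (Module.finrank ℝ E) := by
      funext n
      have h3 : dt (G' (φ n)) = ((s (φ n))⁻¹) ^ (Module.finrank ℝ E) * dt (g (φ n)) := by
        have := LinearMap.det_smul ((s (φ n))⁻¹) ((g (φ n) : E →L[ℝ] E) : E →ₗ[ℝ] E)
        exact this
      rw [h3, hd, mul_one]
    rw [h2] at h1
    have h4 : Tendsto (fun n => (s (φ n))⁻¹) atTop (𝓝 0) :=
      tendsto_inv_atTop_zero.comp (hsT.comp hφT)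
    have h5 := h4.pow (Module.finrank ℝ E)
    rw [zero_pow (Module.finrank_pos (R := ℝ) (M := E)).ne'] at h5
    exact tendsto_nhds_unique h1 h5
  -- the kernel is invariant
  have hker := hirr (LinearMap.ker (T : E →ₗ[ℝ] E)) (by
    intro γ hγ v hv
    rw [LinearMap.mem_ker] at hv ⊢
    have hv' : T v = 0 := hv
    show T ((γ : E →L[ℝ] E) v) = 0
    obtain ⟨C, hC⟩ := hest γ hγ
    have h1 : ∀ r : ℝ, 0 < r → ‖T ((γ : E →L[ℝ] E) v)‖ ^ 2 ≤ C / r * ‖v‖ ^ 2 := by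
      intro r hr
      have h2 : ∀ᶠ n in atTop, ‖G' (φ n) ((γ : E →L[ℝ] E) v)‖ ^ 2 ≤
          Real.exp (2 * r) * ‖G' (φ n) v‖ ^ 2 + C / r * ‖v‖ ^ 2 := by
        filter_upwards [hspos'] with n hn
        have h3 := hC (φ n) r hr v
        have h4 : ∀ x, ‖G' (φ n) x‖ ^ 2 = ((s (φ n))⁻¹) ^ 2 * ‖g (φ n) x‖ ^ 2 := by
          intro x
          have h5 : G' (φ n) x = (s (φ n))⁻¹ • g (φ n) x := rfl
          rw [h5, norm_smul, mul_pow, Real.norm_eq_abs, sq_abs]
        rw [h4, h4]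
        have h5 : ((s (φ n))⁻¹) ^ 2 * hs2 (g (φ n)) = 1 := by
          rw [← hs2eq, ← mul_pow, inv_mul_cancel₀ hn.ne', one_pow]
        have h6 := mul_le_mul_of_nonneg_left h3 (sq_nonneg ((s (φ n))⁻¹))
        calc _ ≤ _ := h6
          _ = Real.exp (2 * r) * ((s (φ n))⁻¹ ^ 2 * ‖g (φ n) v‖ ^ 2) +
              C / r * (((s (φ n))⁻¹) ^ 2 * hs2 (g (φ n))) * ‖v‖ ^ 2 := by ring
          _ = _ := by rw [h5, mul_one]
      have h3 : ∀ x, Tendsto (fun n => ‖G' (φ n) x‖ ^ 2) atTop (𝓝 (‖T x‖ ^ 2)) := by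
        intro x
        have h4 := ((ContinuousLinearMap.apply ℝ E x).continuous.tendsto T).comp hlim
        exact (h4.norm).pow 2
      have h4 := le_of_tendsto_of_tendsto (h3 _) (((h3 v).const_mul _).add_const _) h2
      rw [hv'] at h4
      simpa using h4
    have h2 : ‖T ((γ : E →L[ℝ] E) v)‖ ^ 2 ≤ 0 := by
      have h3 : Tendsto (fun r : ℝ => C / r * ‖v‖ ^ 2) atTop (𝓝 (0 * ‖v‖ ^ 2)) :=
        (tendsto_const_nhds.div_atTop tendsto_id).mul_const _
      rw [zero_mul] at h3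
      refine ge_of_tendsto h3 ?_
      filter_upwards [eventually_gt_atTop 0] with r hr
      exact h1 r hr
    have h3 : ‖T ((γ : E →L[ℝ] E) v)‖ = 0 := by
      have := sq_nonneg ‖T ((γ : E →L[ℝ] E) v)‖
      exact pow_eq_zero_iff (two_ne_zero) |>.1 (le_antisymm h2 this)
    exact norm_eq_zero.1 h3)
  rcases hker with h | h
  · have h1 : LinearMap.det (T : E →ₗ[ℝ] E) ≠ 0 := by
      intro h2
      have := LinearMap.bot_lt_ker_of_det_eq_zero h2
      rw [h] at this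
      exact lt_irrefl _ this
    exact h1 hT0
  · have h1 : T = 0 := by
      ext v
      have : v ∈ LinearMap.ker (T : E →ₗ[ℝ] E) := by rw [h]; trivial
      exact this
    rw [h1] at hT1
    have : hs2 (0 : E →L[ℝ] E) = 0 := by
      have := hs2_smul (0 : ℝ) (0 : E →L[ℝ] E)
      simpa using this
    rw [this] at hT1
    exact zero_ne_one hT1

/-- Mostow's theorem by minimal vectors -/
theorem mostow [Nontrivial E] {G : Subgroup (E →L[ℝ] E)ˣ}
    (hirr : ∀ W : Submodule ℝ E, (∀ g ∈ G, ∀ v ∈ W, (g : E →L[ℝ] E) v ∈ W) → W = ⊥ ∨ W = ⊤)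
    (hdet : ∀ g ∈ G, dt (g : E →L[ℝ] E) = 1)
    (hRs : ∀ T, R (star T) = star (R T)) (hRc : Continuous R)
    (hRd : DifferentiableAt ℝ (R : (E →L[ℝ] E) → (E' →L[ℝ] E')) 1)
    (hw : ∀ g ∈ G, R (g : E →L[ℝ] E) w = w)
    (hG : ∀ g : (E →L[ℝ] E)ˣ, R (g : E →L[ℝ] E) w = w → g ∈ G)
    (A : Set (E →L[ℝ] E)) (hAG : ∀ X ∈ A, ∀ t : ℝ, ∃ g ∈ G, (g : E →L[ℝ] E) = exp (t • X))
    (hAs : ∀ X ∈ A, star X = X) :
    ∃ g₀ : (E →L[ℝ] E)ˣ, (∀ X ∈ A, (g₀ : E →L[ℝ] E) * X = X * (g₀ : E →L[ℝ] E)) ∧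
      ∀ g ∈ G, g₀⁻¹ * star (g₀ * g * g₀⁻¹) * g₀ ∈ G := by
  have hfix : ∀ X ∈ A, ∀ t : ℝ, R (exp (t • X)) w = w := by
    intro X hX t
    obtain ⟨g, hg, hge⟩ := hAG X hX t
    rw [← hge]
    exact hw g hg
  -- minimizers
  have hex : ∀ n : ℕ, ∃ g : E →L[ℝ] E, dt g = 1 ∧ (∀ X ∈ A, g * X = X * g) ∧
      ∀ h, dt h = 1 → Phi R w (1 / ((n : ℝ) + 1)) g ≤ Phi R w (1 / ((n : ℝ) + 1)) h := by
    intro n
    have hε : (0 : ℝ) < 1 / ((n : ℝ) + 1) := by positivity
    obtain ⟨g, h1, h2, h3⟩ := exists_minimizer w hRc A hε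
    exact ⟨g, h1, h2, Phi_min w hRs hRd hAs hfix hε.le h1 h2 h3⟩
  choose g hg1 hg2 hg3 using hex
  have hnt := not_tendsto hirr g hg1 (by
    intro γ hγ
    refine ⟨‖(γ : E →L[ℝ] E)‖ ^ 2 * ‖((γ⁻¹ : (E →L[ℝ] E)ˣ) : E →L[ℝ] E)‖ ^ 2,
      fun n r hr v => ?_⟩
    exact key_estimate w hRs (by positivity) (hg1 n) (hg3 n) γ (hw γ hγ) (hdet γ hγ) hr v)
  -- a bounded subsequence
  have hfr : ∃ B : ℝ, ∃ᶠ n in atTop, hs2 (g n) ≤ B := by
    by_contra hcon
    push Not at hcon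
    apply hnt
    rw [tendsto_atTop]
    intro B
    filter_upwards [hcon B] with n hn
    exact hn.le
  obtain ⟨B, hB⟩ := hfr
  obtain ⟨φ, hφ, hφB⟩ := extraction_of_frequently_atTop hB
  have hbd : ∀ n, g (φ n) ∈ Metric.closedBall (0 : E →L[ℝ] E) (Real.sqrt B) := by
    intro n
    rw [mem_closedBall_zero_iff]
    exact (norm_le_sqrt_hs2 _).trans (Real.sqrt_le_sqrt (hφB n))
  obtain ⟨T, -, ψ, hψ, hlim⟩ := tendsto_subseq_of_bounded Metric.isBounded_closedBall hbd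
  have hlim' : Tendsto (fun n => g (φ (ψ n))) atTop (𝓝 T) := hlim
  have hT1 : dt T = 1 := by
    have h1 : Tendsto (fun n => dt (g (φ (ψ n)))) atTop (𝓝 (dt T)) :=
      (dt_continuous.tendsto T).comp hlim'
    refine tendsto_nhds_unique h1 ?_
    simp only [hg1]
    exact tendsto_const_nhds
  have hTA : ∀ X ∈ A, T * X = X * T := by
    intro X hX
    have h1 : Tendsto (fun n => g (φ (ψ n)) * X) atTop (𝓝 (T * X)) := hlim'.mul_const X
    have h2 : Tendsto (fun n => g (φ (ψ n)) * X) atTop (𝓝 (X * T)) := by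
      have h3 : (fun n => g (φ (ψ n)) * X) = fun n => X * g (φ (ψ n)) := by
        funext n; exact hg2 _ X hX
      rw [h3]
      exact hlim'.const_mul X
    exact tendsto_nhds_unique h1 h2
  have hTmin : ∀ h, dt h = 1 → ‖R T w‖ ^ 2 ≤ ‖R h w‖ ^ 2 := by
    intro h hh
    have h1 : Tendsto (fun n => ‖R (g (φ (ψ n))) w‖ ^ 2) atTop (𝓝 (‖R T w‖ ^ 2)) := by
      have h2 : Continuous fun T : E →L[ℝ] E => ‖R T w‖ ^ 2 :=
        (((ContinuousLinearMap.apply ℝ E' w).continuous.comp hRc).norm).pow 2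
      exact (h2.tendsto T).comp hlim'
    have h2 : Tendsto (fun n => ‖R h w‖ ^ 2 + 1 / (((φ (ψ n) : ℕ) : ℝ) + 1) * hs2 h) atTop
        (𝓝 (‖R h w‖ ^ 2 + 0 * hs2 h)) := by
      refine tendsto_const_nhds.add (Tendsto.mul_const _ ?_)
      exact tendsto_one_div_add_atTop_nhds_zero_nat.comp
        (hφ.tendsto_atTop.comp hψ.tendsto_atTop)
    rw [zero_mul, add_zero] at h2
    refine le_of_tendsto_of_tendsto' h1 h2 fun n => ?_
    have h3 := hg3 (φ (ψ n)) h hh
    have h4 : 0 ≤ 1 / (((φ (ψ n) : ℕ) : ℝ) + 1) * hs2 (g (φ (ψ n))) :=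
      mul_nonneg (by positivity) (hs2_nonneg _)
    unfold Phi at h3
    linarith
  obtain ⟨g₀, hg₀⟩ := exists_unit_of_dt (g := T) (by rw [hT1]; exact one_ne_zero)
  refine ⟨g₀, by rw [hg₀]; exact hTA, ?_⟩
  intro γ hγ
  obtain ⟨b, a, k, hk, hk', hka⟩ := polarGL (g₀ * γ * g₀⁻¹)
  have hdg : dt ((g₀ * γ * g₀⁻¹ : (E →L[ℝ] E)ˣ) : E →L[ℝ] E) = 1 := by
    have h7 : dt (((g₀ * γ * g₀⁻¹ : (E →L[ℝ] E)ˣ) : E →L[ℝ] E) * T) = dt (T * (γ : E →L[ℝ] E)) := by
      rw [← hg₀, ← Units.val_mul, inv_mul_cancel_right, Units.val_mul]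
    rw [dt_mul, dt_mul, hT1, mul_one, hdet γ hγ, mul_one] at h7
    exact h7
  obtain ⟨hdk, hsum⟩ := polar_det hk hka hdg
  set w' := R T w with hw'
  have hfix' : R ((g₀ * γ * g₀⁻¹ : (E →L[ℝ] E)ˣ) : E →L[ℝ] E) w' = w' := by
    rw [hw', ← opmul_apply, ← map_mul]
    have h1 : ((g₀ * γ * g₀⁻¹ : (E →L[ℝ] E)ˣ) : E →L[ℝ] E) * T = T * γ := by
      rw [← hg₀, ← Units.val_mul, inv_mul_cancel_right, Units.val_mul]
    rw [h1, map_mul, opmul_apply, hw γ hγ]
  rw [hka, map_mul, opmul_apply] at hfix'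
  have hn1 : ‖R (Pt b a 1) w'‖ = ‖w'‖ := by
    rw [← R_isom hRs hk (R (Pt b a 1) w'), hfix']
  have hn2 : ‖w'‖ ^ 2 ≤ ‖R (Pt b a (1 / 2)) w'‖ ^ 2 := by
    have h1 := hTmin (Pt b a (1 / 2) * T) (by
      rw [dt_mul, dt_Pt, hsum, mul_zero, Real.exp_zero, one_mul, hT1])
    rwa [map_mul, opmul_apply] at h1
  have hn3 : R (Pt b a 1) w' = w' := by
    have h1 : ‖R (Pt b a (1 / 2)) w'‖ ^ 2 = ⟪w', R (Pt b a 1) w'⟫_ℝ := by
      rw [← real_inner_self_eq_norm_sq, R_inner hRs]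
      congr 3
      norm_num
    have h2 : ‖R (Pt b a 1) w' - w'‖ ^ 2 ≤ 0 := by
      rw [@norm_sub_sq_real, hn1, real_inner_comm, ← h1]
      linarith
    have h3 : ‖R (Pt b a 1) w' - w'‖ = 0 :=
      (pow_eq_zero_iff (two_ne_zero)).1 (le_antisymm h2 (sq_nonneg _))
    exact sub_eq_zero.1 (norm_eq_zero.1 h3)
  rw [hn3] at hfix'
  have hk1 : R (star k) w' = w' := by
    conv_lhs => rw [← hfix']
    rw [← opmul_apply, ← map_mul, hk, map_one]; rfl
  apply hG
  have h1 : R ((star (g₀ * γ * g₀⁻¹) : (E →L[ℝ] E)ˣ) : E →L[ℝ] E) w' = w' := by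
    have h2 : ((star (g₀ * γ * g₀⁻¹) : (E →L[ℝ] E)ˣ) : E →L[ℝ] E) = Pt b a 1 * star k := by
      rw [Units.coe_star, hka, star_mul, Pt_star]
    rw [h2, map_mul, opmul_apply, hk1, hn3]
  have h2 : R (g₀⁻¹ : (E →L[ℝ] E)ˣ) w' = w := by
    rw [hw', ← hg₀, ← opmul_apply, ← map_mul, Units.inv_mul, map_one]; rfl
  rw [Units.val_mul, Units.val_mul, map_mul, map_mul, opmul_apply, opmul_apply]
  have h3 : R (g₀ : E →L[ℝ] E) w = w' := by rw [hw', hg₀]
  rw [h3, h1, h2]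

end Pool.Agent.Lib.MP_d9b062_al.H9

end

/-! ## from `MP_d9b062_al_h9.Mos` -/

section
/-!
# Task MOS3: Mostow's theorem
-/

namespace Pool.Agent.Lib.MP_d9b062_al

open NormedSpace Filter
open scoped Topology

/-- polynomial maps are smooth -/
theorem IsPolyMap.contDiff {E F : Type*} [NormedAddCommGroup E] [NormedSpace ℝ E]
    [FiniteDimensional ℝ E] [NormedAddCommGroup F] [NormedSpace ℝ F] [FiniteDimensional ℝ F]
    {f : E → F} (hf : IsPolyMap f) {n : WithTop ℕ∞} : ContDiff ℝ n f := by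
  let b := Module.finBasis ℝ F
  have h : f = fun x => ∑ i, b.coord i (f x) • b i := by
    funext x
    conv_lhs => rw [← b.sum_repr (f x)]
    rfl
  rw [h]
  exact ContDiff.sum fun i _ => (PolyFun.contDiff (hf (b.coord i))).smul contDiff_const

/-- Mostow's theorem, with a given space of commuting symmetric operators kept symmetric. -/
theorem exists_selfadjoint_conj {N m : ℕ} (hN : 0 < N) {G : Subgroup (Op N)ˣ}
    (hirr : ∀ W : Submodule ℝ (V N), (∀ g ∈ G, ∀ v ∈ W, (g : Op N) v ∈ W) → W = ⊥ ∨ W = ⊤)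
    (hdet : ∀ g ∈ G, LinearMap.det ((g : Op N) : V N →ₗ[ℝ] V N) = 1)
    (R : Op N →* Op m) (hstar : ∀ T, R (star T) = star (R T))
    (hR : IsPolyMap (R : Op N → Op m)) (w : V m)
    (hw : ∀ g ∈ G, R (g : Op N) w = w)
    (hG : ∀ g : (Op N)ˣ, R (g : Op N) w = w → g ∈ G)
    (A : Submodule ℝ (Op N)) (hAG : ∀ X ∈ A, X ∈ lieAlg G) (hAs : ∀ X ∈ A, star X = X) :
    ∃ g₀ : (Op N)ˣ, (∀ X ∈ A, (g₀ : Op N) * X = X * (g₀ : Op N)) ∧
      ∀ g ∈ G, g₀⁻¹ * star (g₀ * g * g₀⁻¹) * g₀ ∈ G := by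
  have : Nontrivial (V N) := by
    apply Module.nontrivial_of_finrank_pos (R := ℝ)
    rw [finrank_euclideanSpace_fin]; exact hN
  have hc : ContDiff ℝ 1 (R : Op N → Op m) := IsPolyMap.contDiff hR
  exact H9.mostow w hirr hdet hstar hc.continuous
    ((hc.differentiable (by norm_num)).differentiableAt) hw hG (A : Set (Op N)) hAG hAs

end Pool.Agent.Lib.MP_d9b062_al

end
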