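import Mathlib
import Pool.Agent.Lib.MP_d9b062_al_m.MBase
import Pool.Agent.Lib.MP_d9b062_al_m.MAlg

/-!
MP_d9b062_al: merged modules (to shorten the build).
-/

set_option autoImplicit false

/-! ## from `MP_d9b062_al_h19.Mos2` -/

section
/-!
# MOS2: semisimple groups have no characters
-/

set_option linter.unusedSectionVars false

namespace Pool.Agent.Lib.MP_d9b062_al

open NormedSpace Filter
open scoped Topology InnerProductSpace

namespace H19

lemma lie_top_eq_top {L : Type*} [LieRing L] [LieAlgebra ℝ L] [LieAlgebra.IsSemisimple ℝ L] :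
    ⁅(⊤ : LieIdeal ℝ L), (⊤ : LieIdeal ℝ L)⁆ = ⊤ := by
  rw [eq_top_iff, ← LieAlgebra.IsSemisimple.sSup_atoms_eq_top (R := ℝ) (L := L)]
  refine sSup_le fun I hI => ?_
  have h1 : ⁅I, I⁆ ≤ I := LieSubmodule.lie_le_right I I
  have h2 : ⁅I, I⁆ ≠ ⊥ := fun h => LieAlgebra.IsSemisimple.non_abelian_of_isAtom I hI
    ((LieSubmodule.lie_abelian_iff_lie_self_eq_bot I).2 h)
  have h3 : ⁅I, I⁆ = I := ((IsAtom.le_iff hI).1 h1).resolve_left h2
  conv_lhs => rw [← h3]
  exact LieSubmodule.mono_lie (le_sSup hI) (le_sSup hI)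

/-- A linear functional which vanishes on all brackets vanishes on a semisimple Lie algebra. -/
lemma eq_zero_of_bracket {L : Type*} [LieRing L] [LieAlgebra ℝ L] [LieAlgebra.IsSemisimple ℝ L]
    (f : L →ₗ[ℝ] ℝ) (h : ∀ x y : L, f ⁅x, y⁆ = 0) : f = 0 := by
  have h1 : (⊤ : Submodule ℝ L) ≤ LinearMap.ker f := by
    have h2 := LieSubmodule.lieIdeal_oper_eq_linear_span' (I := (⊤ : LieIdeal ℝ L))
      (N := (⊤ : LieIdeal ℝ L))
    rw [lie_top_eq_top] at h2
    have h3 : (LieSubmodule.toSubmodule (⊤ : LieIdeal ℝ L)) = ⊤ := rfl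
    rw [h3] at h2
    rw [h2, Submodule.span_le]
    rintro _ ⟨x, _, y, _, rfl⟩
    exact h x y
  ext x
  exact h1 (Submodule.mem_top (x := x))

/-- A semisimple Lie algebra has trivial centre. -/
lemma eq_zero_of_central {L : Type*} [LieRing L] [LieAlgebra ℝ L] [LieAlgebra.IsSemisimple ℝ L]
    {z : L} (h : ∀ x : L, ⁅x, z⁆ = 0) : z = 0 := by
  have h1 : z ∈ LieAlgebra.center ℝ L := (LieModule.mem_maxTrivSubmodule ℝ L L z).2 h
  rw [LieAlgebra.center_eq_bot] at h1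
  exact (LieSubmodule.mem_bot _).1 h1

section char

variable {E F : Type*} [NormedAddCommGroup E] [InnerProductSpace ℝ E] [CompleteSpace E]
  [FiniteDimensional ℝ E] [NormedAddCommGroup F] [InnerProductSpace ℝ F] [CompleteSpace F]
  [FiniteDimensional ℝ F]

lemma hasDerivAt_exp0 (X : E →L[ℝ] E) :
    HasDerivAt (fun s : ℝ => (exp (s • X) : E →L[ℝ] E)) X 0 := by
  have h1 := hasDerivAt_exp_smul_const (𝕂 := ℝ) X (0 : ℝ)
  simpa using h1

lemma hasDerivAt_conj_exp (X Y : E →L[ℝ] E) :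
    HasDerivAt (fun s : ℝ => exp (s • X) * Y * exp (s • (-X))) (X * Y - Y * X) 0 := by
  have h3 := ((hasDerivAt_exp0 X).mul_const Y).mul (hasDerivAt_exp0 (-X))
  refine h3.congr_deriv ?_
  simp [sub_eq_add_neg]

variable {G : Subgroup (E →L[ℝ] E)ˣ} (R : (E →L[ℝ] E) →* (F →L[ℝ] F)) (w : F)

/-- the eigenvalue of `R T` on `w` -/
noncomputable def chi (T : E →L[ℝ] E) : ℝ := (‖w‖ ^ 2)⁻¹ * ⟪w, R T w⟫_ℝ

variable {R w}

lemma chi_polyFun (hR : IsPolyMap (R : (E →L[ℝ] E) → (F →L[ℝ] F))) :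
    chi R w ∈ PolyFun (E →L[ℝ] E) := by
  let φ : (F →L[ℝ] F) →ₗ[ℝ] ℝ := (‖w‖ ^ 2)⁻¹ •
    ((innerSL ℝ w : F →L[ℝ] ℝ) : F →ₗ[ℝ] ℝ) ∘ₗ
      ((ContinuousLinearMap.apply ℝ F w : (F →L[ℝ] F) →L[ℝ] F) : (F →L[ℝ] F) →ₗ[ℝ] F)
  exact hR φ

lemma chi_eq (hw : w ≠ 0) {T : E →L[ℝ] E} {a : ℝ} (h : R T w = a • w) : chi R w T = a := by
  have : ‖w‖ ≠ 0 := norm_ne_zero_iff.2 hw
  rw [chi, h, inner_smul_right, real_inner_self_eq_norm_sq]
  field_simp

lemma apply_eq_chi (hw : w ≠ 0) {T : E →L[ℝ] E} (h : ∃ a : ℝ, R T w = a • w) :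
    R T w = chi R w T • w := by
  obtain ⟨a, ha⟩ := h
  rw [chi_eq hw ha, ha]

lemma chi_mul (hw : w ≠ 0) {S T : E →L[ℝ] E} (hS : ∃ a : ℝ, R S w = a • w)
    (hT : ∃ a : ℝ, R T w = a • w) : chi R w (S * T) = chi R w S * chi R w T := by
  apply chi_eq hw
  rw [map_mul]
  change R S (R T w) = _
  rw [apply_eq_chi hw hT, map_smul, apply_eq_chi hw hS, smul_smul, mul_comm]

lemma chi_one (hw : w ≠ 0) : chi R w 1 = 1 := by
  apply chi_eq hw
  rw [map_one, one_smul]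
  rfl

/-- the derivative of `chi` at `1` -/
noncomputable def lam (R : (E →L[ℝ] E) →* (F →L[ℝ] F)) (w : F) : (E →L[ℝ] E) →L[ℝ] ℝ :=
  fderiv ℝ (chi R w) 1

lemma hasDerivAt_chi (hR : IsPolyMap (R : (E →L[ℝ] E) → (F →L[ℝ] F))) (Z : E →L[ℝ] E) :
    HasDerivAt (fun t : ℝ => chi R w (exp (t • Z))) (lam R w Z) 0 := by
  have h0 : Differentiable ℝ (chi R w) := H64.PolyFun.differentiable (chi_polyFun hR)
  have h1 : HasFDerivAt (chi R w) (lam R w) 1 := (h0 1).hasFDerivAt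
  have e : (1 : E →L[ℝ] E) = exp ((0 : ℝ) • Z) := by rw [zero_smul, exp_zero]
  have h3 : HasFDerivAt (chi R w) (lam R w) (exp ((0 : ℝ) • Z)) := e ▸ h1
  exact HasFDerivAt.comp_hasDerivAt (0 : ℝ) h3 (hasDerivAt_exp0 Z)

lemma exp_add' (Z : E →L[ℝ] E) (s t : ℝ) : exp ((s + t) • Z) = exp (s • Z) * exp (t • Z) := by
  rw [add_smul]
  exact H64.exp_add_op (by rw [smul_mul_smul_comm, smul_mul_smul_comm, mul_comm])

lemma chi_exp_eq_one (hw : w ≠ 0) (hR : IsPolyMap (R : (E →L[ℝ] E) → (F →L[ℝ] F)))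
    (h : ∀ g ∈ G, ∃ a : ℝ, R (g : E →L[ℝ] E) w = a • w) {Z : E →L[ℝ] E} (hZ : Z ∈ H64.lieA G)
    (h0 : lam R w Z = 0) (t : ℝ) : chi R w (exp (t • Z)) = 1 := by
  have hl : ∀ t : ℝ, ∃ a : ℝ, R (exp (t • Z)) w = a • w := by
    intro t
    obtain ⟨g, hg, e⟩ := hZ t
    rw [← e]
    exact h g hg
  have h1 : ∀ t : ℝ, HasDerivAt (fun t : ℝ => chi R w (exp (t • Z))) 0 t := by
    intro t
    have h2 := hasDerivAt_chi (w := w) hR Z
    rw [h0] at h2
    have h3 : HasDerivAt (fun s : ℝ => chi R w (exp ((s - t) • Z))) 0 t := by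
      have h5 : HasDerivAt (fun t : ℝ => chi R w (exp (t • Z))) 0 (t - t) := by
        rw [sub_self]; exact h2
      have := h5.comp_sub_const t t
      exact this
    have h4 := h3.const_mul (chi R w (exp (t • Z)))
    rw [mul_zero] at h4
    refine h4.congr_of_eventuallyEq (Filter.Eventually.of_forall fun s => ?_)
    have e : s = t + (s - t) := by ring
    change chi R w (exp (s • Z)) = _
    conv_lhs => rw [e, exp_add', chi_mul hw (hl t) (hl (s - t))]
  have h2 : chi R w (exp (t • Z)) = chi R w (exp ((0 : ℝ) • Z)) :=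
    is_const_of_deriv_eq_zero (f := fun t : ℝ => chi R w (exp (t • Z)))
      (fun t => (h1 t).differentiableAt) (fun t => (h1 t).deriv) t 0
  rw [h2, zero_smul, exp_zero, chi_one hw]

lemma lam_conj (hw : w ≠ 0) (hR : IsPolyMap (R : (E →L[ℝ] E) → (F →L[ℝ] F)))
    (h : ∀ g ∈ G, ∃ a : ℝ, R (g : E →L[ℝ] E) w = a • w) {Y : E →L[ℝ] E} (hY : Y ∈ H64.lieA G)
    {g : (E →L[ℝ] E)ˣ} (hg : g ∈ G) :
    lam R w ((g : E →L[ℝ] E) * Y * ((g⁻¹ : (E →L[ℝ] E)ˣ) : E →L[ℝ] E)) = lam R w Y := by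
  have h1 := hasDerivAt_chi (w := w) hR ((g : E →L[ℝ] E) * Y * ((g⁻¹ : (E →L[ℝ] E)ˣ) : E →L[ℝ] E))
  have h2 := hasDerivAt_chi (w := w) hR Y
  refine h1.unique (h2.congr_of_eventuallyEq (Filter.Eventually.of_forall fun t => ?_))
  change chi R w (exp (t • ((g : E →L[ℝ] E) * Y * ((g⁻¹ : (E →L[ℝ] E)ˣ) : E →L[ℝ] E)))) =
    chi R w (exp (t • Y))
  have e1 : t • ((g : E →L[ℝ] E) * Y * ((g⁻¹ : (E →L[ℝ] E)ˣ) : E →L[ℝ] E)) =
      (g : E →L[ℝ] E) * (t • Y) * ((g⁻¹ : (E →L[ℝ] E)ˣ) : E →L[ℝ] E) := by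
    rw [mul_smul_comm, smul_mul_assoc]
  obtain ⟨k, hk, ek⟩ := hY t
  have e3 : chi R w ((g : E →L[ℝ] E) * k) = chi R w (g : E →L[ℝ] E) * chi R w (k : E →L[ℝ] E) :=
    chi_mul hw (h _ hg) (h _ hk)
  have e4 : chi R w (g : E →L[ℝ] E) * chi R w ((g⁻¹ : (E →L[ℝ] E)ˣ) : E →L[ℝ] E) = 1 := by
    rw [← chi_mul hw (h _ hg) (h _ (G.inv_mem hg)), ← Units.val_mul, mul_inv_cancel,
      Units.val_one, chi_one hw]
  have e5 := h _ (G.mul_mem hg hk)
  rw [Units.val_mul] at e5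
  rw [e1, H64.exp_conj_op, ← ek, chi_mul hw e5 (h _ (G.inv_mem hg)), e3,
    mul_right_comm, e4, one_mul]

lemma lam_bracket (hw : w ≠ 0) (hR : IsPolyMap (R : (E →L[ℝ] E) → (F →L[ℝ] F)))
    (h : ∀ g ∈ G, ∃ a : ℝ, R (g : E →L[ℝ] E) w = a • w) {X Y : E →L[ℝ] E} (hX : X ∈ H64.lieA G)
    (hY : Y ∈ H64.lieA G) : lam R w (X * Y - Y * X) = 0 := by
  have h1 := (lam R w).hasFDerivAt.comp_hasDerivAt (0 : ℝ) (hasDerivAt_conj_exp X Y)
  refine h1.unique ((hasDerivAt_const (0 : ℝ) (lam R w Y)).congr_of_eventuallyEq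
    (Filter.Eventually.of_forall fun s => ?_))
  have h2 := H64.mem_lieA.1 hX s
  have h3 := lam_conj hw hR h hY h2
  rw [H64.uexp_inv_val, H64.uexp_val, H64.uexp_val] at h3
  change lam R w (exp (s • X) * Y * exp (s • (-X))) = lam R w Y
  rw [smul_neg]
  exact h3

end char

section final

attribute [local instance 100] LieRing.ofAssociativeRing

variable {N m : ℕ} {G : Subgroup (Op N)ˣ}

lemma lam_eq_zero (hG : IsSemisimpleIrr G) {R : Op N →* Op m} {w : V m} (hw : w ≠ 0)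
    (hR : IsPolyMap (R : Op N → Op m))
    (h : ∀ g ∈ G, ∃ a : ℝ, R (g : Op N) w = a • w) {Z : Op N} (hZ : Z ∈ lieAlg G) :
    lam R w Z = 0 := by
  obtain ⟨𝔤, h𝔤, hs⟩ := hG.semisimple
  let f : 𝔤 →ₗ[ℝ] ℝ :=
    { toFun := fun x => lam R w (x : Op N)
      map_add' := fun x y => map_add (lam R w) (x : Op N) y
      map_smul' := fun c x => map_smul (lam R w) c (x : Op N) }
  have hf : f = 0 := by
    apply eq_zero_of_bracket
    intro x y
    have hx : (x : Op N) ∈ lieAlg G := h𝔤 ▸ x.2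
    have hy : (y : Op N) ∈ lieAlg G := h𝔤 ▸ y.2
    exact lam_bracket hw hR h hx hy
  have hZ' : Z ∈ 𝔤 := by
    have : Z ∈ (𝔤 : Set (Op N)) := h𝔤 ▸ hZ
    exact this
  exact congrArg (fun f : 𝔤 →ₗ[ℝ] ℝ => f ⟨Z, hZ'⟩) hf

/-- `R` fixes `w` on products of exponentials of elements of the Lie algebra. -/
lemma fixes_list (hG : IsSemisimpleIrr G) {R : Op N →* Op m} {w : V m} (hw : w ≠ 0)
    (hR : IsPolyMap (R : Op N → Op m))
    (h : ∀ g ∈ G, ∃ a : ℝ, R (g : Op N) w = a • w) (l : List (Op N))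
    (hl : ∀ Z ∈ l, Z ∈ lieAlg G) : R (l.map exp).prod w = w := by
  induction l with
  | nil => simp only [List.map_nil, List.prod_nil, map_one]; rfl
  | cons Z l ih =>
    have h1 := ih fun Z' h' => hl Z' (List.mem_cons_of_mem _ h')
    have hZ := hl Z List.mem_cons_self
    have h2 := chi_exp_eq_one hw hR h hZ (lam_eq_zero hG hw hR h hZ) 1
    rw [one_smul] at h2
    obtain ⟨g, hg, e⟩ := hZ 1
    rw [one_smul] at e
    have h3 := apply_eq_chi hw (h g hg)
    rw [e, h2, one_smul] at h3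
    rw [List.map_cons, List.prod_cons, map_mul]
    change R (exp Z) (R (l.map exp).prod w) = w
    rw [h1, h3]

end final

end H19

section final

attribute [local instance 100] LieRing.ofAssociativeRing

/-- Semisimple groups have no characters. -/
theorem fixes_of_line {N m : ℕ} {G : Subgroup (Op N)ˣ} (hG : IsSemisimpleIrr G)
    (R : Op N →* Op m) (hR : IsPolyMap (R : Op N → Op m)) (w : V m)
    (h : ∀ g ∈ G, ∃ a : ℝ, R (g : Op N) w = a • w) : ∀ g ∈ G, R (g : Op N) w = w := by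
  intro g hg
  by_cases hw : w = 0
  · rw [hw, map_zero]
  · have key : ∀ φ : V m →ₗ[ℝ] ℝ, φ (R (g : Op N) w - w) = 0 := by
      intro φ
      let ψ : Op m →ₗ[ℝ] ℝ := φ ∘ₗ
        ((ContinuousLinearMap.apply ℝ (V m) w : Op m →L[ℝ] V m) : Op m →ₗ[ℝ] V m)
      have hF : (fun T : Op N => ψ (R T) - φ w) ∈ PolyFun (Op N) :=
        PolyFun.sub (hR ψ) (PolyFun.const _)
      obtain ⟨p, hp⟩ := exists_polyVal hF
      have h1 := hG.connected p (fun l hl => by
        rw [← hp]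
        have := H19.fixes_list hG hw hR h l hl
        change φ (R (l.map exp).prod w) - φ w = 0
        rw [this, sub_self]) g hg
      rw [← hp] at h1
      rw [map_sub]
      exact h1
    have h2 := (Module.forall_dual_apply_eq_zero_iff ℝ (R (g : Op N) w - w)).1 key
    exact sub_eq_zero.1 h2

/-- the determinant as a polynomial function -/
lemma det_polyFun {N : ℕ} :
    (fun T : Op N => LinearMap.det (T : V N →ₗ[ℝ] V N)) ∈ PolyFun (Op N) := by
  classical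
  let b := (EuclideanSpace.basisFun (Fin N) ℝ).toBasis
  have e : (fun T : Op N => LinearMap.det (T : V N →ₗ[ℝ] V N)) = fun T : Op N =>
      ∑ σ : Equiv.Perm (Fin N), ((Equiv.Perm.sign σ : ℤ) : ℝ) *
        ∏ i, LinearMap.toMatrix b b (T : V N →ₗ[ℝ] V N) (σ i) i := by
    ext T
    rw [← LinearMap.det_toMatrix b, Matrix.det_apply']
  rw [e]
  refine PolyFun.sum _ fun σ _ => PolyFun.mul (PolyFun.const _) (PolyFun.prod _ fun i _ => ?_)
  let φ : Op N →ₗ[ℝ] ℝ := (Matrix.entryLinearMap ℝ ℝ (σ i) i) ∘ₗ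
    (LinearMap.toMatrix b b).toLinearMap ∘ₗ (ContinuousLinearMap.coeLM ℝ)
  exact PolyFun.linear φ

theorem det_eq_one {N : ℕ} {G : Subgroup (Op N)ˣ} (hG : IsSemisimpleIrr G) :
    ∀ g ∈ G, LinearMap.det ((g : Op N) : V N →ₗ[ℝ] V N) = 1 := by
  intro g hg
  let R : Op N →* Op 1 :=
    { toFun := fun T => LinearMap.det (T : V N →ₗ[ℝ] V N) • (1 : Op 1)
      map_one' := by
        have : ((1 : Op N) : V N →ₗ[ℝ] V N) = LinearMap.id := rfl
        simp only [this, LinearMap.det_id, one_smul]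
      map_mul' := fun S T => by
        have : ((S * T : Op N) : V N →ₗ[ℝ] V N) = (S : V N →ₗ[ℝ] V N) * (T : V N →ₗ[ℝ] V N) := rfl
        rw [this, map_mul]
        ext v i
        simp only [ContinuousLinearMap.smul_apply, ContinuousLinearMap.one_apply,
          PiLp.smul_apply, smul_eq_mul, ContinuousLinearMap.mul_apply, map_smul]
        ring }
  have hR : IsPolyMap (R : Op N → Op 1) := IsPolyMap.smul det_polyFun (IsPolyMap.const _)
  have hv : ∀ (T : Op N) (w : V 1), R T w = LinearMap.det (T : V N →ₗ[ℝ] V N) • w :=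
    fun T w => rfl
  have h1 := fixes_of_line hG R hR (EuclideanSpace.single 0 (1 : ℝ)) (fun g _ => ⟨_, hv g _⟩) g hg
  rw [hv] at h1
  have h2 := congrArg (fun v : V 1 => v 0) h1
  simpa using h2

/-- a Lie algebra of operators which is semisimple has trivial centre (needed to build
`IsConnectedSemisimple`) -/
theorem center_trivial {N : ℕ} {G : Subgroup (Op N)ˣ} (hG : IsSemisimpleIrr G) :
    ∀ Z ∈ lieAlg G, (∀ X ∈ lieAlg G, Z * X = X * Z) → Z = 0 := by
  intro Z hZ hc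
  obtain ⟨𝔤, h𝔤, hs⟩ := hG.semisimple
  have hZ' : Z ∈ 𝔤 := by
    have : Z ∈ (𝔤 : Set (Op N)) := h𝔤 ▸ hZ
    exact this
  have h1 : (⟨Z, hZ'⟩ : 𝔤) = 0 := by
    apply H19.eq_zero_of_central
    intro x
    have hx : (x : Op N) ∈ lieAlg G := h𝔤 ▸ x.2
    apply Subtype.ext
    change (x : Op N) * Z - Z * (x : Op N) = 0
    rw [hc _ hx, sub_self]
  exact congrArg (fun z : 𝔤 => (z : Op N)) h1

end final

end Pool.Agent.Lib.MP_d9b062_al

end

/-! ## from `MP_d9b062_al_h20.Rep` -/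

section
/-!
# General representations
-/

namespace Pool.Agent.Lib.MP_d9b062_al

namespace RepAux

variable {N : ℕ}

/-- matrix entry -/
noncomputable def ent (T : Op N) (i j : Fin N) : ℝ := T (EuclideanSpace.single j 1) i

lemma ent_mul (S T : Op N) (i j : Fin N) : ent (S * T) i j = ∑ k, ent S i k * ent T k j := by
  have h : T (EuclideanSpace.single j 1) =
      ∑ k, ent T k j • (EuclideanSpace.single k (1 : ℝ) : V N) := by
    ext l
    simp [ent, Pi.single_apply]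
  change S (T (EuclideanSpace.single j 1)) i = _
  rw [h, map_sum]
  simp only [map_smul]
  rw [show (∑ k, ent T k j • S (EuclideanSpace.single k 1) : V N) i =
    ∑ k, ent T k j * S (EuclideanSpace.single k 1) i by simp]
  exact Finset.sum_congr rfl fun k _ => mul_comm _ _

/-- translates of polynomials are polynomials -/
lemma exists_translate (p : MvPolynomial (Fin N × Fin N) ℝ) (A B : Op N) :
    ∃ q : MvPolynomial (Fin N × Fin N) ℝ, ∀ T : Op N, polyVal q T = polyVal p (A * T * B) := by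
  refine ⟨MvPolynomial.bind₁ (fun ij => ∑ k, ∑ l, MvPolynomial.C (ent A ij.1 k * ent B l ij.2) *
    MvPolynomial.X (k, l)) p, fun T => ?_⟩
  unfold polyVal
  rw [← MvPolynomial.coe_aeval_eq_eval, ← MvPolynomial.coe_aeval_eq_eval]
  simp only [RingHom.coe_coe]
  rw [MvPolynomial.aeval_bind₁]
  congr 2
  ext ij
  have h : (A * T * B) (EuclideanSpace.single ij.2 1) ij.1 = ent (A * T * B) ij.1 ij.2 := rfl
  rw [h, ent_mul]
  simp only [ent_mul, map_sum, map_mul, MvPolynomial.aeval_C, MvPolynomial.aeval_X]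
  rw [Finset.sum_comm]
  refine Finset.sum_congr rfl fun l _ => ?_
  rw [Finset.sum_mul]
  refine Finset.sum_congr rfl fun k _ => ?_
  change ent A ij.1 k * ent B l ij.2 * ent T k l = _
  ring

end RepAux

open RepAux

/-- `A` is a Cartan subspace of the Lie algebra of `G`: a maximal commuting space of hyperbolic
(that is, `ℝ`-diagonalizable) elements of the Lie algebra. -/
structure IsCartanSubspace {N : ℕ} (G : Subgroup (Op N)ˣ) (A : Submodule ℝ (Op N)) : Prop where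
  mem_lieAlg : ∀ X ∈ A, X ∈ lieAlg G
  hyperbolic : ∀ X ∈ A, IsHyperbolic X
  commute : ∀ X ∈ A, ∀ Y ∈ A, X * Y = Y * X
  maximal : ∀ B : Submodule ℝ (Op N), A ≤ B → (∀ X ∈ B, X ∈ lieAlg G ∧ IsHyperbolic X) →
    (∀ X ∈ B, ∀ Y ∈ B, X * Y = Y * X) → B ≤ A

namespace RepAux

/-- The points of the Zariski closure of `S`. -/
def InClosure {N : ℕ} (S : Subgroup (Op N)ˣ) (g : (Op N)ˣ) : Prop :=
  ∀ p : MvPolynomial (Fin N × Fin N) ℝ,
    (∀ h ∈ S, polyVal p (h : Op N) = 0) → polyVal p (g : Op N) = 0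

lemma inClosure_mul {N : ℕ} {S : Subgroup (Op N)ˣ} {g h : (Op N)ˣ}
    (hg : InClosure S g) (hh : InClosure S h) : InClosure S (g * h) := by
  intro p hp
  have h1 : ∀ s ∈ S, polyVal p ((s : Op N) * (h : Op N)) = 0 := by
    intro s hs
    obtain ⟨q, hq⟩ := exists_translate p (s : Op N) 1
    have h2 := hh q fun t ht => by
      rw [hq, mul_one, ← Units.val_mul]
      exact hp _ (S.mul_mem hs ht)
    rwa [hq, mul_one] at h2
  obtain ⟨q, hq⟩ := exists_translate p 1 (h : Op N)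
  have h2 := hg q fun t ht => by
    rw [hq, one_mul]
    exact h1 t ht
  rw [hq, one_mul] at h2
  rwa [Units.val_mul]

lemma inClosure_inv {N : ℕ} {S : Subgroup (Op N)ˣ} {g : (Op N)ˣ}
    (hg : InClosure S g) : InClosure S g⁻¹ := by
  let I : ℕ → Ideal (MvPolynomial (Fin N × Fin N) ℝ) := fun n =>
    { carrier := {p | ∀ h, InClosure S h → polyVal p ((g ^ n * h : (Op N)ˣ) : Op N) = 0}
      add_mem' := fun {a b} ha hb h hh => by
        have h1 := ha h hh
        have h2 := hb h hh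
        unfold polyVal at h1 h2 ⊢
        rw [map_add, h1, h2, add_zero]
      zero_mem' := fun h hh => by
        unfold polyVal
        rw [map_zero]
      smul_mem' := fun c a ha h hh => by
        have h1 := ha h hh
        unfold polyVal at h1 ⊢
        rw [smul_eq_mul, map_mul, h1, mul_zero] }
  have hmono : Monotone I := by
    refine monotone_nat_of_le_succ fun n p hp h hh => ?_
    have h1 := hp (g * h) (inClosure_mul hg hh)
    rwa [← mul_assoc, ← pow_succ] at h1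
  obtain ⟨n, hn⟩ := monotone_stabilizes_iff_noetherian.2
    (inferInstance : IsNoetherianRing (MvPolynomial (Fin N × Fin N) ℝ)) ⟨I, hmono⟩
  have hI : I (n + 1) = I n := (hn (n + 1) (Nat.le_succ n)).symm
  intro p hp
  obtain ⟨q, hq⟩ := exists_translate p (((g ^ (n + 1))⁻¹ : (Op N)ˣ) : Op N) 1
  have h1 : q ∈ I (n + 1) := by
    intro h hh
    rw [hq, mul_one, ← Units.val_mul, inv_mul_cancel_left]
    exact hh p hp
  rw [hI] at h1
  have h2 := h1 1 (fun p hp => hp 1 S.one_mem)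
  rw [hq, mul_one, mul_one, ← Units.val_mul] at h2
  have h3 : (g ^ (n + 1))⁻¹ * g ^ n = g⁻¹ := by
    rw [pow_succ', mul_inv_rev]
    group
  rwa [h3] at h2

end RepAux

/-- The Zariski closure in `GL_N(ℝ)` of a group of invertible operators. -/
def zariskiClosure {N : ℕ} (S : Subgroup (Op N)ˣ) : Subgroup (Op N)ˣ where
  carrier := {g | ∀ p : MvPolynomial (Fin N × Fin N) ℝ,
    (∀ h ∈ S, polyVal p (h : Op N) = 0) → polyVal p (g : Op N) = 0}
  mul_mem' := fun hg hh => inClosure_mul hg hh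
  one_mem' := fun _ hp => hp 1 S.one_mem
  inv_mem' := fun hg => inClosure_inv hg

/-- The group `𝒢 ⋉ ℝ^N` attached to a representation `ρ` of `𝒢` on `ℝ^N`. -/
@[ext]
structure AffRep {𝒢 : Type*} [Group 𝒢] {N : ℕ} (ρ : 𝒢 →* (Op N)ˣ) where
  /-- the linear part -/
  lin : 𝒢
  /-- the translation part -/
  tr : V N

namespace AffRep

variable {𝒢 : Type*} [Group 𝒢] {N : ℕ} {ρ : 𝒢 →* (Op N)ˣ}

noncomputable instance : One (AffRep ρ) := ⟨⟨1, 0⟩⟩
noncomputable instance : Mul (AffRep ρ) :=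
  ⟨fun x y => ⟨x.lin * y.lin, x.tr + (ρ x.lin : Op N) y.tr⟩⟩
noncomputable instance : Inv (AffRep ρ) :=
  ⟨fun x => ⟨x.lin⁻¹, -((ρ x.lin⁻¹ : Op N) x.tr)⟩⟩

@[simp] lemma one_lin : (1 : AffRep ρ).lin = 1 := rfl
@[simp] lemma one_tr : (1 : AffRep ρ).tr = 0 := rfl
@[simp] lemma mul_lin (x y : AffRep ρ) : (x * y).lin = x.lin * y.lin := rfl
@[simp] lemma mul_tr (x y : AffRep ρ) : (x * y).tr = x.tr + (ρ x.lin : Op N) y.tr := rfl
@[simp] lemma inv_lin (x : AffRep ρ) : (x⁻¹).lin = x.lin⁻¹ := rfl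
@[simp] lemma inv_tr (x : AffRep ρ) : (x⁻¹).tr = -((ρ x.lin⁻¹ : Op N) x.tr) := rfl

noncomputable instance : Group (AffRep ρ) where
  mul_assoc x y z := by
    refine AffRep.ext (mul_assoc _ _ _) ?_
    simp only [mul_tr, mul_lin, map_mul, map_add, Units.val_mul]
    rw [add_assoc]
    rfl
  one_mul x := by
    refine AffRep.ext (one_mul _) ?_
    simp
  mul_one x := by
    refine AffRep.ext (mul_one _) ?_
    simp
  inv_mul_cancel x := by
    refine AffRep.ext (inv_mul_cancel _) ?_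
    simp

/-- The affine map of `ℝ^N` given by an element of `𝒢 ⋉ ℝ^N`. -/
noncomputable def act (x : AffRep ρ) (v : V N) : V N := (ρ x.lin : Op N) v + x.tr

/-- the affine transformation as an element of `GL ⋉ ℝ^N` -/
noncomputable def toAff (ρ : 𝒢 →* (Op N)ˣ) : AffRep ρ →* Aff (V N) where
  toFun x := ⟨ρ x.lin, x.tr⟩
  map_one' := by
    refine Aff.ext ?_ rfl
    change ρ 1 = 1
    exact map_one ρ
  map_mul' x y := by
    refine Aff.ext ?_ rfl
    change ρ (x.lin * y.lin) = ρ x.lin * ρ y.lin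
    exact map_mul ρ _ _

end AffRep

/-- The representation `ρ` of `𝒢` on `ℝ^N` is *Milnor*: no subgroup `Γ` of `𝒢 ⋉ ℝ^N` is non-abelian
free, has linear part Zariski dense in `ρ(𝒢)`, and acts properly discontinuously on `ℝ^N`. -/
def IsMilnorRep {𝒢 : Type*} [Group 𝒢] {N : ℕ} (ρ : 𝒢 →* (Op N)ˣ) : Prop :=
  ¬ ∃ Γ : Subgroup (AffRep ρ),
    (∃ (κ : Type) (_ : Nontrivial κ), Nonempty (Γ ≃* FreeGroup κ)) ∧
    (∀ p : MvPolynomial (Fin N × Fin N) ℝ,
      (∀ γ ∈ Γ, polyVal p (ρ γ.lin : Op N) = 0) → ∀ g, polyVal p (ρ g : Op N) = 0) ∧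
    (∀ K : Set (V N), IsCompact K → {γ : AffRep ρ | γ ∈ Γ ∧ (γ.act '' K ∩ K).Nonempty}.Finite)

/-- Condition (S) for the representation `ρ` of `𝒢`, the Cartan subspace `A` and the representative
`w` of the longest element: some vector fixed by the centralizer of `A` is not fixed by `w`. -/
def CondSRep {𝒢 : Type*} [Group 𝒢] {N : ℕ} (ρ : 𝒢 →* (Op N)ˣ) (A : Submodule ℝ (Op N)) (w : 𝒢) :
    Prop :=
  ∃ v : V N, (∀ l : 𝒢, (∀ X ∈ A, (ρ l : Op N) * X = X * (ρ l : Op N)) → (ρ l : Op N) v = v) ∧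
    (ρ w : Op N) v ≠ v

/-- Reduction of representations to linear groups. -/
theorem isMilnorRep_of_isMilnor {𝒢 : Type*} [Group 𝒢] {N : ℕ} (ρ : 𝒢 →* (Op N)ˣ)
    (A : Submodule ℝ (Op N)) (w : 𝒢) (hS : ¬ CondSRep ρ A w)
    (hmain : ¬ CondS (zariskiClosure ρ.range) A (ρ w) → IsMilnor (zariskiClosure ρ.range)) :
    IsMilnorRep ρ := by
  have hsub : ∀ g, ρ g ∈ zariskiClosure ρ.range := fun g p hp => hp _ ⟨g, rfl⟩
  have hM : IsMilnor (zariskiClosure ρ.range) := by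
    apply hmain
    rintro ⟨v, hv, hw⟩
    exact hS ⟨v, fun l hl => hv _ ⟨hsub l, hl⟩, hw⟩
  rintro ⟨Γ, ⟨κ, hκ, ⟨e⟩⟩, hdense, hprop⟩
  apply hM
  let φ := AffRep.toAff ρ
  have hact : ∀ x : AffRep ρ, (φ x).act = x.act := fun x => rfl
  let ψ : Γ →* Aff (V N) := φ.comp Γ.subtype
  -- the kernel is trivial
  have hinj : Function.Injective ψ := by
    rw [injective_iff_map_eq_one]
    intro γ hγ
    have hfin := hprop {0} isCompact_singleton
    have hpow : ∀ n : ℕ, φ ((γ ^ n : Γ) : AffRep ρ) = 1 := by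
      intro n
      have h1 : φ (γ : AffRep ρ) = 1 := hγ
      rw [Subgroup.coe_pow, map_pow, h1, one_pow]
    have hmem : ∀ n : ℕ, ((γ ^ n : Γ) : AffRep ρ) ∈
        {γ : AffRep ρ | γ ∈ Γ ∧ (γ.act '' {0} ∩ {0}).Nonempty} := by
      intro n
      refine ⟨(γ ^ n).2, 0, ⟨0, rfl, ?_⟩, rfl⟩
      rw [← hact, hpow]
      simp [Aff.act]
    by_contra hne
    have hinj' : Function.Injective fun n : ℕ => ((γ ^ n : Γ) : AffRep ρ) := by
      intro a b hab
      have h1 : γ ^ a = γ ^ b := Subtype.ext hab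
      have h2 : (e γ) ^ a = (e γ) ^ b := by rw [← map_pow, ← map_pow, h1]
      have h3 : e γ ≠ 1 := fun h => hne (by
        have := congrArg e.symm h
        simpa using this)
      exact (injective_pow_iff_not_isOfFinOrder.2 (not_isOfFinOrder_of_isMulTorsionFree h3)) h2
    exact (Set.infinite_of_injective_forall_mem hinj' hmem) hfin
  refine ⟨ψ.range, ⟨κ, hκ, ⟨(MonoidHom.ofInjective hinj).symm.trans e⟩⟩, ?_, ?_, ?_⟩
  · rintro _ ⟨γ, rfl⟩
    exact hsub _
  · intro p hp g hg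
    refine hg p ?_
    rintro _ ⟨x, rfl⟩
    refine hdense p (fun γ hγ => ?_) x
    exact hp (ψ ⟨γ, hγ⟩) ⟨⟨γ, hγ⟩, rfl⟩
  · intro K hK
    refine ((hprop K hK).image φ).subset ?_
    rintro _ ⟨⟨γ, rfl⟩, hne⟩
    exact ⟨(γ : AffRep ρ), ⟨γ.2, hne⟩, rfl⟩

end Pool.Agent.Lib.MP_d9b062_al

end
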