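import Mathlib
import Pool.Agent.Lib.MP_d9b062_al_m.MBasic

/-!
MP_d9b062_al: merged modules (to shorten the build).
-/

set_option autoImplicit false

/-! ## from `MP_d9b062_al_h11.LR` -/

section
/-!
# Lemma LR: normal form of a strongly contracting element times a regular one
-/

set_option linter.unusedSectionVars false
set_option linter.unusedVariables false

namespace Pool.Agent.Lib.MP_d9b062_al

open Filter
open scoped Topology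

namespace H11

/-- a fixed point theorem for maps of closed sets of units -/
lemma exists_fixed_unit {R : Type*} [NormedRing R] [CompleteSpace R] (S : Set Rˣ)
    (hS : ∀ u : ℕ → Rˣ, (∀ n, u n ∈ S) → ∀ T : R, Tendsto (fun n => (u n : R)) atTop (𝓝 T) →
      ∃ g ∈ S, (g : R) = T)
    (Φ : Rˣ → Rˣ) (hΦ : ∀ u ∈ S, Φ u ∈ S)
    (hc : ∀ u ∈ S, ∀ v ∈ S, ‖(Φ u : R) - Φ v‖ ≤ 1 / 2 * ‖(u : R) - v‖) {u₀ : Rˣ}
    (h₀ : u₀ ∈ S) : ∃ u ∈ S, Φ u = u := by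
  have hmem : ∀ n, Φ^[n] u₀ ∈ S := by
    intro n
    induction n with
    | zero => exact h₀
    | succ n ih => rw [Function.iterate_succ_apply']; exact hΦ _ ih
  have hd : ∀ n, dist ((Φ^[n] u₀ : Rˣ) : R) ((Φ^[n + 1] u₀ : Rˣ) : R) ≤
      ‖(u₀ : R) - Φ u₀‖ * (1 / 2) ^ n := by
    intro n
    induction n with
    | zero => rw [dist_eq_norm]; simp
    | succ n ih =>
      rw [dist_eq_norm] at ih ⊢
      rw [Function.iterate_succ_apply' Φ (n + 1), Function.iterate_succ_apply' Φ n]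
      have h1 := hc _ (hmem n) _ (hmem (n + 1))
      rw [← Function.iterate_succ_apply' Φ n] at h1 ⊢
      refine h1.trans ?_
      rw [pow_succ]
      have := mul_le_mul_of_nonneg_left ih (by norm_num : (0 : ℝ) ≤ 1 / 2)
      refine this.trans (le_of_eq ?_)
      ring
  have hcs : CauchySeq (fun n => ((Φ^[n] u₀ : Rˣ) : R)) :=
    cauchySeq_of_le_geometric (1 / 2) _ (by norm_num) hd
  obtain ⟨T, hT⟩ := cauchySeq_tendsto_of_complete hcs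
  obtain ⟨g, hg, hgT⟩ := hS _ hmem T hT
  refine ⟨g, hg, ?_⟩
  rw [← hgT] at hT
  have h1 : Tendsto (fun n => ((Φ^[n + 1] u₀ : Rˣ) : R)) atTop (𝓝 (g : R)) :=
    hT.comp (tendsto_add_atTop_nat 1)
  have h2 : Tendsto (fun n => ((Φ^[n + 1] u₀ : Rˣ) : R)) atTop (𝓝 (Φ g : R)) := by
    rw [tendsto_iff_norm_sub_tendsto_zero]
    have h3 : Tendsto (fun n => 1 / 2 * ‖((Φ^[n] u₀ : Rˣ) : R) - g‖) atTop (𝓝 0) := by
      have := (tendsto_iff_norm_sub_tendsto_zero.mp hT).const_mul (1 / 2)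
      rwa [mul_zero] at this
    refine squeeze_zero (fun n => norm_nonneg _) (fun n => ?_) h3
    rw [Function.iterate_succ_apply']
    exact hc _ (hmem n) _ hg
  exact Units.ext (tendsto_nhds_unique h2 h1)

lemma unip_of_tendsto {R : Type*} [NormedRing R] {ι : Type*} {P : ι → R} {s : ι → ι → Prop}
    {u : ℕ → R} (hu : ∀ n, Unip P s (u n)) {T : R} (h : Tendsto u atTop (𝓝 T)) :
    Unip P s T := by
  have key : ∀ i j, Tendsto (fun n => P i * u n * P j) atTop (𝓝 (P i * T * P j)) :=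
    fun i j => (h.const_mul (P i)).mul_const (P j)
  constructor
  · intro i
    have h1 := key i i
    simp only [(hu _).1 i] at h1
    exact (tendsto_nhds_unique h1 tendsto_const_nhds)
  · intro i j hij hn
    have h1 := key i j
    simp only [(hu _).2 i j hij hn] at h1
    exact (tendsto_nhds_unique h1 tendsto_const_nhds)

lemma sub_supp {R : Type*} [Ring R] {ι : Type*} [Fintype ι] {P : ι → R} {s : ι → ι → Prop}
    {S T : R} (hS : Unip P s S) (hT : Unip P s T) : Supp P s (S - T) := by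
  intro i j hn
  rw [mul_sub, sub_mul]
  by_cases hij : i = j
  · subst hij; rw [hS.1, hT.1, sub_self]
  · rw [hS.2 i j hij hn, hT.2 i j hij hn, sub_self]

end H11

namespace Cell

variable {N : ℕ} {G : Subgroup (Op N)ˣ} {ι : Type} [Fintype ι] [LinearOrder ι] (c : Cell G ι)

/-- The data of Lemma LR. -/
structure LRSol (h l Y z y d x : (Op N)ˣ) (C : ℝ) : Prop where
  Y_mem : Y ∈ c.Nm
  z_mem : z ∈ c.Np
  y_mem : y ∈ c.Nm
  d_mem : d ∈ c.L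
  x_mem : x ∈ c.Np
  eq₁ : h * Y = y * d * x
  eq₂ : l * y = Y * l
  eq₃ : l * d * x * z = z * (l * d)
  eq₄ : l * h = (Y * z) * (l * d) * (Y * z)⁻¹
  norm_Y : ‖(Y : Op N) - 1‖ ≤ C * c.kap l
  norm_Yinv : ‖((Y⁻¹ : (Op N)ˣ) : Op N) - 1‖ ≤ C * c.kap l
  norm_z : ‖(z : Op N) - Ring.inverse (xU c.P (h : Op N))‖ ≤ C * c.kap l
  norm_zinv : ‖((z⁻¹ : (Op N)ˣ) : Op N) - xU c.P (h : Op N)‖ ≤ C * c.kap l
  norm_y : ‖(y : Op N) - yL c.P (h : Op N)‖ ≤ C * c.kap l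
  norm_d : ‖(d : Op N) - dD c.P (h : Op N)‖ ≤ C * c.kap l
  bound_yinv : ‖((y⁻¹ : (Op N)ˣ) : Op N)‖ ≤ C
  bound_z : ‖(z : Op N)‖ ≤ C
  bound_zinv : ‖((z⁻¹ : (Op N)ˣ) : Op N)‖ ≤ C
  bound_d : ‖(d : Op N)‖ ≤ C
  bound_dinv : ‖((d⁻¹ : (Op N)ˣ) : Op N)‖ ≤ C
  bound_tau : ‖c.tau (d : Op N)‖ ≤ C

lemma h11_closed_Nm (a : Op N) (ρ : ℝ) (u : ℕ → (Op N)ˣ)
    (hu : ∀ n, u n ∈ {g : (Op N)ˣ | g ∈ c.Nm ∧ ‖(g : Op N) - a‖ ≤ ρ}) (T : Op N)
    (hT : Tendsto (fun n => (u n : Op N)) atTop (𝓝 T)) :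
    ∃ g ∈ {g : (Op N)ˣ | g ∈ c.Nm ∧ ‖(g : Op N) - a‖ ≤ ρ}, (g : Op N) = T := by
  have h1 : Unip c.P c.r T := H11.unip_of_tendsto (fun n => (hu n).1.2) hT
  obtain ⟨g, hg⟩ := h1.isUnit c.grading c.r_trans (fun i h => lt_irrefl _ (c.r_lt i i h))
  rw [← hg] at hT h1
  refine ⟨g, ⟨⟨c.mem_of_tendsto (fun n => (hu n).1.1) hT, h1⟩, ?_⟩, hg⟩
  exact le_of_tendsto (hT.sub_const a).norm (Eventually.of_forall fun n => (hu n).2)

lemma h11_closed_Np (a : Op N) (ρ : ℝ) (u : ℕ → (Op N)ˣ)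
    (hu : ∀ n, u n ∈ {g : (Op N)ˣ | g ∈ c.Np ∧ ‖(g : Op N) - a‖ ≤ ρ}) (T : Op N)
    (hT : Tendsto (fun n => (u n : Op N)) atTop (𝓝 T)) :
    ∃ g ∈ {g : (Op N)ˣ | g ∈ c.Np ∧ ‖(g : Op N) - a‖ ≤ ρ}, (g : Op N) = T := by
  have h1 : Unip c.P (fun i j => c.r j i) T := H11.unip_of_tendsto (fun n => (hu n).1.2) hT
  obtain ⟨g, hg⟩ := h1.isUnit c.grading (fun i j k h h' => c.r_trans k j i h' h)
    (fun i h => lt_irrefl _ (c.r_lt i i h))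
  rw [← hg] at hT h1
  refine ⟨g, ⟨⟨c.mem_of_tendsto (fun n => (hu n).1.1) hT, h1⟩, ?_⟩, hg⟩
  exact le_of_tendsto (hT.sub_const a).norm (Eventually.of_forall fun n => (hu n).2)

lemma h11_conj_Nm {l y : (Op N)ˣ} (hl : l ∈ c.L) (hy : y ∈ c.Nm) : l * y * l⁻¹ ∈ c.Nm :=
  ⟨G.mul_mem (G.mul_mem hl.1 hy.1) (G.inv_mem hl.1), hy.2.conj hl.2⟩

lemma h11_conj_Np {l y : (Op N)ˣ} (hl : l ∈ c.L) (hy : y ∈ c.Np) : l⁻¹ * y * l ∈ c.Np := by
  have hl' : l⁻¹ ∈ c.L := c.L.inv_mem hl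
  refine ⟨G.mul_mem (G.mul_mem hl'.1 hy.1) hl.1, ?_⟩
  have := hy.2.conj hl'.2
  rwa [inv_inv] at this

lemma h11_norm_one_le : ‖(1 : Op N)‖ ≤ 1 := ContinuousLinearMap.norm_id_le

/-- norm of a product with a difference -/
lemma h11_norm_mul_sub {T S : Op N} : ‖T * S - T‖ ≤ ‖T‖ * ‖S - 1‖ := by
  have : T * S - T = T * (S - 1) := by rw [mul_sub, mul_one]
  rw [this]; exact norm_mul_le _ _

lemma h11_tau_bound {d : (Op N)ˣ} (hd : d ∈ c.L) {M : ℝ} (h1 : ‖(d : Op N)‖ ≤ M)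
    (h2 : ‖((d⁻¹ : (Op N)ˣ) : Op N)‖ ≤ M) (hM : 0 < M) : ‖c.tau (d : Op N)‖ ≤ M := by
  have key : ∀ e : (Op N)ˣ, e ∈ c.L → ‖(e : Op N)‖ ≤ M → ∀ i, c.tau (e : Op N) i ≤ M := by
    intro e he hM' i
    by_cases hi : c.P i = 0
    · rw [c.tau_of_P_eq hi]; exact hM.le
    · have h3 := c.norm_mul_P he hi
      have h4 : Real.exp (c.tau (e : Op N) i) ≤ M := by
        rw [← h3]
        calc ‖(e : Op N) * c.P i‖ ≤ ‖(e : Op N)‖ * ‖c.P i‖ := norm_mul_le _ _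
          _ ≤ M * 1 := mul_le_mul hM' (c.norm_P_le i) (norm_nonneg _) hM.le
          _ = M := mul_one _
      have h5 := Real.add_one_le_exp (c.tau (e : Op N) i)
      linarith
  rw [pi_norm_le_iff_of_nonneg hM.le]
  intro i
  rw [Real.norm_eq_abs, abs_le]
  have h3 := key d hd h1 i
  have h4 := key d⁻¹ (c.L.inv_mem hd) h2 i
  rw [c.tau_inv hd, Pi.neg_apply] at h4
  exact ⟨by linarith, h3⟩

lemma h11_kap_bound {T : Op N} {M : ℝ} (h : ‖c.tau T‖ ≤ M) :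
    c.kap T ≤ ∑ _i : ι, ∑ _j : ι, Real.exp (2 * M) := by
  classical
  unfold Cell.kap
  refine Finset.sum_le_sum fun i _ => Finset.sum_le_sum fun j _ => ?_
  split_ifs with hij
  · apply Real.exp_le_exp.2
    have h1 := (norm_le_pi_norm (c.tau T) i).trans h
    have h2 := (norm_le_pi_norm (c.tau T) j).trans h
    rw [Real.norm_eq_abs] at h1 h2
    have h3 := abs_le.1 h1
    have h4 := abs_le.1 h2
    linarith [h3.1, h3.2, h4.1, h4.2]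
  · exact (Real.exp_pos _).le


/-- the uniform bounds near a regular element -/
def H11Lip (T₀ : Op N) (M δ₀ : ℝ) : Prop :=
  ∀ T T' : Op N, ‖T - T₀‖ < δ₀ → ‖T' - T₀‖ < δ₀ →
      Reg c.P T ∧ ∀ k, ‖H11.F6 c.P T k - H11.F6 c.P T' k‖ ≤ M * ‖T - T'‖ ∧ ‖H11.F6 c.P T k‖ ≤ M

lemma h11_exists_Y {h l : (Op N)ˣ} (hh : h ∈ G) (hl : l ∈ c.L) {T₀ : Op N} {M H r δ₀ : ℝ}
    (hM : 0 ≤ M) (hlip : c.H11Lip T₀ M δ₀) (hH : ‖(h : Op N)‖ ≤ H)
    (hball : ∀ Y : Op N, ‖Y - 1‖ ≤ r → ‖(h : Op N) * Y - T₀‖ < δ₀) (hr : 0 ≤ r)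
    (h1 : c.kap l * (M + 1) ≤ r) (h2 : c.kap l * (M * H) ≤ 1 / 2) :
    ∃ Y ∈ c.Nm, ∃ y ∈ c.Nm, ∃ d ∈ c.L, ∃ x ∈ c.Np, ‖(Y : Op N) - 1‖ ≤ r ∧
      h * Y = y * d * x ∧ Y = l * y * l⁻¹ ∧ (y : Op N) = yL c.P ((h : Op N) * Y) ∧
      (d : Op N) = dD c.P ((h : Op N) * Y) ∧ (x : Op N) = xU c.P ((h : Op N) * Y) := by
  have hk := c.kap_nonneg (l : Op N)
  have key : ∀ u ∈ {g : (Op N)ˣ | g ∈ c.Nm ∧ ‖(g : Op N) - 1‖ ≤ r},
      ∃ y ∈ c.Nm, (y : Op N) = yL c.P ((h : Op N) * u) ∧ ‖(y : Op N)‖ ≤ M := by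
    intro u hu
    have hb := hball u hu.2
    obtain ⟨hreg, hF⟩ := hlip _ _ hb hb
    obtain ⟨y, hy, d, hd, x, hx, he, hy', hd', hx'⟩ := c.exists_LU (g := h * u)
      (G.mul_mem hh hu.1.1) hreg
    refine ⟨y, hy, hy', ?_⟩
    have := (hF 0).2
    rw [hy']
    exact this
  choose! yy hyy1 hyy2 hyy3 using key
  obtain ⟨Y, hY, hfix⟩ := H11.exists_fixed_unit {g : (Op N)ˣ | g ∈ c.Nm ∧ ‖(g : Op N) - 1‖ ≤ r}
    (c.h11_closed_Nm 1 r) (fun u => l * yy u * l⁻¹) (by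
      intro u hu
      refine ⟨c.h11_conj_Nm hl (hyy1 u hu), ?_⟩
      have h3 := c.conj_Nm hl (hyy1 u hu).2
      have h4 : ‖(yy u : Op N) - 1‖ ≤ M + 1 := by
        refine (norm_sub_le _ _).trans ?_
        have := hyy3 u hu
        linarith [h11_norm_one_le (N := N)]
      calc ‖((l * yy u * l⁻¹ : (Op N)ˣ) : Op N) - 1‖ ≤ c.kap l * ‖(yy u : Op N) - 1‖ := h3
        _ ≤ c.kap l * (M + 1) := mul_le_mul_of_nonneg_left h4 hk
        _ ≤ r := h1) (by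
      intro u hu v hv
      have hbu := hball u hu.2
      have hbv := hball v hv.2
      have h3 := c.norm_conj_le hl (H11.sub_supp (hyy1 u hu).2 (hyy1 v hv).2)
      have h4 : ((l * yy u * l⁻¹ : (Op N)ˣ) : Op N) - ((l * yy v * l⁻¹ : (Op N)ˣ) : Op N) =
          (l : Op N) * ((yy u : Op N) - yy v) * ((l⁻¹ : (Op N)ˣ) : Op N) := by
        rw [mul_sub, sub_mul]; rfl
      rw [h4]
      refine h3.trans ?_
      have h5 : ‖(yy u : Op N) - yy v‖ ≤ M * ‖(h : Op N) * u - h * v‖ := by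
        rw [hyy2 u hu, hyy2 v hv]
        exact ((hlip _ _ hbu hbv).2 0).1
      have h6 : ‖(h : Op N) * u - h * v‖ ≤ H * ‖(u : Op N) - v‖ := by
        rw [← mul_sub]
        exact (norm_mul_le _ _).trans (mul_le_mul_of_nonneg_right hH (norm_nonneg _))
      calc c.kap l * ‖(yy u : Op N) - yy v‖
          ≤ c.kap l * (M * (H * ‖(u : Op N) - v‖)) :=
            mul_le_mul_of_nonneg_left (h5.trans (mul_le_mul_of_nonneg_left h6 hM)) hk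
        _ = c.kap l * (M * H) * ‖(u : Op N) - v‖ := by ring
        _ ≤ 1 / 2 * ‖(u : Op N) - v‖ := mul_le_mul_of_nonneg_right h2 (norm_nonneg _))
    (u₀ := 1) ⟨c.Nm.one_mem, by rw [Units.val_one, sub_self, norm_zero]; exact hr⟩
  have hb := hball Y hY.2
  obtain ⟨hreg, -⟩ := hlip _ _ hb hb
  obtain ⟨y, hy, d, hd, x, hx, he, hy', hd', hx'⟩ := c.exists_LU (g := h * Y)
      (G.mul_mem hh hY.1.1) hreg
  refine ⟨Y, hY.1, y, hy, d, hd, x, hx, hY.2, he, ?_, hy', hd', hx'⟩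
  have hyY : yy Y = y := Units.ext ((hyy2 Y hY).trans hy'.symm)
  rw [← hyY]
  exact hfix.symm

lemma h11_exists_z {l x : (Op N)ˣ} (hl : l ∈ c.L) (hx : x ∈ c.Np) {M : ℝ} (hM : 0 ≤ M)
    (hxi : ‖((x⁻¹ : (Op N)ˣ) : Op N)‖ ≤ M)
    (h1 : c.kap l * (2 * M + 2) ≤ 1) (h2 : M * c.kap l ≤ 1 / 2) :
    ∃ z ∈ c.Np, ‖(z : Op N)‖ ≤ 2 * M + 1 ∧ z = x⁻¹ * (l⁻¹ * z * l) := by
  have hk := c.kap_nonneg (l : Op N)
  obtain ⟨z, hz, hfix⟩ := H11.exists_fixed_unit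
    {g : (Op N)ˣ | g ∈ c.Np ∧ ‖(g : Op N) - 0‖ ≤ 2 * M + 1}
    (c.h11_closed_Np 0 (2 * M + 1)) (fun u => x⁻¹ * (l⁻¹ * u * l)) (by
      intro u hu
      refine ⟨c.Np.mul_mem (c.Np.inv_mem hx) (c.h11_conj_Np hl hu.1), ?_⟩
      have h3 := c.conj_Np hl hu.1.2
      have hu2 := hu.2
      rw [sub_zero] at hu2 ⊢
      have h4 : ‖(u : Op N) - 1‖ ≤ 2 * M + 2 := by
        refine (norm_sub_le _ _).trans ?_
        linarith [h11_norm_one_le (N := N)]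
      have h5 : ‖((l⁻¹ : (Op N)ˣ) : Op N) * u * (l : Op N) - 1‖ ≤ 1 :=
        h3.trans ((mul_le_mul_of_nonneg_left h4 hk).trans h1)
      have h6 : ‖((l⁻¹ : (Op N)ˣ) : Op N) * u * (l : Op N)‖ ≤ 2 := by
        have h7 := norm_add_le (((l⁻¹ : (Op N)ˣ) : Op N) * u * (l : Op N) - 1) 1
        rw [sub_add_cancel] at h7
        linarith [h11_norm_one_le (N := N)]
      calc ‖((x⁻¹ * (l⁻¹ * u * l) : (Op N)ˣ) : Op N)‖
          = ‖((x⁻¹ : (Op N)ˣ) : Op N) * (((l⁻¹ : (Op N)ˣ) : Op N) * u * (l : Op N))‖ := rfl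
        _ ≤ ‖((x⁻¹ : (Op N)ˣ) : Op N)‖ * ‖((l⁻¹ : (Op N)ˣ) : Op N) * u * (l : Op N)‖ :=
            norm_mul_le _ _
        _ ≤ M * 2 := mul_le_mul hxi h6 (norm_nonneg _) hM
        _ ≤ 2 * M + 1 := by linarith) (by
      intro u hu v hv
      have h3 := c.norm_conj_le' hl (H11.sub_supp hu.1.2 hv.1.2)
      have h4 : ((x⁻¹ * (l⁻¹ * u * l) : (Op N)ˣ) : Op N) -
            ((x⁻¹ * (l⁻¹ * v * l) : (Op N)ˣ) : Op N) = ((x⁻¹ : (Op N)ˣ) : Op N) *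
          (((l⁻¹ : (Op N)ˣ) : Op N) * ((u : Op N) - v) * (l : Op N)) := by
        rw [mul_sub, sub_mul, mul_sub]; rfl
      rw [h4]
      calc ‖((x⁻¹ : (Op N)ˣ) : Op N) * (((l⁻¹ : (Op N)ˣ) : Op N) * ((u : Op N) - v) * (l : Op N))‖
          ≤ ‖((x⁻¹ : (Op N)ˣ) : Op N)‖ *
            ‖((l⁻¹ : (Op N)ˣ) : Op N) * ((u : Op N) - v) * (l : Op N)‖ := norm_mul_le _ _
        _ ≤ M * (c.kap l * ‖(u : Op N) - v‖) := mul_le_mul hxi h3 (norm_nonneg _) hM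
        _ = M * c.kap l * ‖(u : Op N) - v‖ := by ring
        _ ≤ 1 / 2 * ‖(u : Op N) - v‖ := mul_le_mul_of_nonneg_right h2 (norm_nonneg _))
    (u₀ := 1) ⟨c.Np.one_mem, by
      rw [Units.val_one, sub_zero]; linarith [h11_norm_one_le (N := N)]⟩
  have h3 := hz.2
  rw [sub_zero] at h3
  exact ⟨z, hz.1, h3, hfix.symm⟩



lemma h11_LR_aux {h l : (Op N)ˣ} (hh : h ∈ G) (hl : l ∈ c.L) {T₀ : Op N}
    {M H B C r δ₀ κ : ℝ} (hκ : c.kap (l : Op N) = κ)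
    (hM1 : 1 ≤ M) (hlip : c.H11Lip T₀ M δ₀) (hH : 1 ≤ H) (hHh : ‖(h : Op N)‖ ≤ H)
    (hball : ∀ Y : Op N, ‖Y - 1‖ ≤ r → ‖(h : Op N) * Y - T₀‖ < δ₀)
    (hh0 : ‖(h : Op N) - T₀‖ < δ₀) (hr : 0 ≤ r)
    (hB0 : 0 ≤ B) (hB : ∀ T : Op N, ‖c.tau T‖ ≤ M → c.kap T ≤ B)
    (k1 : κ * (M + 1) ≤ r) (k2 : κ * (M * H) ≤ 1 / 2)
    (k3 : κ * (B + 1) * (2 * M + 2) ≤ 1) (k4 : M * (κ * (B + 1)) ≤ 1 / 2)
    (hC : C = (M + 1) + M * H * (M + 1) + M * B * (2 * M + 2) + M * B * (4 * M + 1) + 4 * M +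
      (2 * M + 1)) :
    ∃ Y z y d x, c.LRSol h l Y z y d x C := by
  have hM0 : 0 ≤ M := by linarith
  have hMpos : 0 < M := by linarith
  have hH0 : 0 ≤ H := by linarith
  have e1 : 0 ≤ M * H * (M + 1) := mul_nonneg (mul_nonneg hM0 hH0) (by linarith)
  have e2 : 0 ≤ M * B * (2 * M + 2) := mul_nonneg (mul_nonneg hM0 hB0) (by linarith)
  have e3 : 0 ≤ M * B * (4 * M + 1) := mul_nonneg (mul_nonneg hM0 hB0) (by linarith)
  have one_le := h11_norm_one_le (N := N)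
  have hk0 : 0 ≤ κ := by rw [← hκ]; exact c.kap_nonneg (l : Op N)
  have hkB0 : 0 ≤ κ * B := mul_nonneg hk0 hB0
  obtain ⟨Y, hY, y, hy, d, hd, x, hx, hYr, he, hYy, hyL, hdD, hxU⟩ :=
    c.h11_exists_Y hh hl hM0 hlip hHh hball hr (by rw [hκ]; exact k1) (by rw [hκ]; exact k2)
  have hbY := hball Y hYr
  obtain ⟨-, hF⟩ := hlip _ _ hbY hh0
  have hyi : ((y⁻¹ : (Op N)ˣ) : Op N) = Ring.inverse (yL c.P ((h : Op N) * Y)) := by
    rw [← hyL, Ring.inverse_unit]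
  have hxi : ((x⁻¹ : (Op N)ˣ) : Op N) = Ring.inverse (xU c.P ((h : Op N) * Y)) := by
    rw [← hxU, Ring.inverse_unit]
  have hdi : ((d⁻¹ : (Op N)ˣ) : Op N) = Ring.inverse (dD c.P ((h : Op N) * Y)) := by
    rw [← hdD, Ring.inverse_unit]
  have by1 : ‖(y : Op N)‖ ≤ M := by rw [hyL]; exact (hF 0).2
  have by2 : ‖((y⁻¹ : (Op N)ˣ) : Op N)‖ ≤ M := by rw [hyi]; exact (hF 1).2
  have bx1 : ‖(x : Op N)‖ ≤ M := by rw [hxU]; exact (hF 2).2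
  have bx2 : ‖((x⁻¹ : (Op N)ˣ) : Op N)‖ ≤ M := by rw [hxi]; exact (hF 3).2
  have bd1 : ‖(d : Op N)‖ ≤ M := by rw [hdD]; exact (hF 4).2
  have bd2 : ‖((d⁻¹ : (Op N)ˣ) : Op N)‖ ≤ M := by rw [hdi]; exact (hF 5).2
  have btau : ‖c.tau (d : Op N)‖ ≤ M := c.h11_tau_bound hd bd1 bd2 hMpos
  have hkd : c.kap (d : Op N) ≤ B := hB _ btau
  have hld : l * d ∈ c.L := c.L.mul_mem hl hd
  obtain ⟨κ', hκ'⟩ : ∃ κ', c.kap ((l * d : (Op N)ˣ) : Op N) = κ' := ⟨_, rfl⟩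
  have hkld : κ' ≤ κ * B := by
    have h1 := c.kap_mul hl hd
    rw [hκ] at h1
    rw [← hκ']
    exact h1.trans (mul_le_mul_of_nonneg_left hkd hk0)
  have hkld0 : 0 ≤ κ' := by rw [← hκ']; exact c.kap_nonneg ((l * d : (Op N)ˣ) : Op N)
  have hkB : κ * B ≤ κ * (B + 1) := mul_le_mul_of_nonneg_left (by linarith) hk0
  have k5 : κ' * (2 * M + 2) ≤ 1 :=
    (mul_le_mul_of_nonneg_right (hkld.trans hkB) (by linarith)).trans k3
  have k6 : M * κ' ≤ 1 / 2 :=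
    (mul_le_mul_of_nonneg_left (hkld.trans hkB) hM0).trans k4
  obtain ⟨z, hz, hzR, hzfix⟩ := c.h11_exists_z hld hx hM0 bx2 (by rw [hκ']; exact k5)
    (by rw [hκ']; exact k6)
  -- estimates
  have n1 : ‖(y : Op N) - 1‖ ≤ M + 1 := (norm_sub_le _ _).trans (by linarith)
  have n2 : ‖((y⁻¹ : (Op N)ˣ) : Op N) - 1‖ ≤ M + 1 := (norm_sub_le _ _).trans (by linarith)
  have nY : ‖(Y : Op N) - 1‖ ≤ κ * (M + 1) := by
    rw [hYy, ← hκ]
    exact (c.conj_Nm hl hy.2).trans (mul_le_mul_of_nonneg_left n1 (c.kap_nonneg _))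
  have nYi : ‖((Y⁻¹ : (Op N)ˣ) : Op N) - 1‖ ≤ κ * (M + 1) := by
    have h1 : Y⁻¹ = l * y⁻¹ * l⁻¹ := by rw [hYy]; group
    rw [h1, ← hκ]
    exact (c.conj_Nm hl (c.Nm.inv_mem hy).2).trans (mul_le_mul_of_nonneg_left n2 (c.kap_nonneg _))
  have nhY : ‖(h : Op N) * Y - h‖ ≤ H * (κ * (M + 1)) :=
    h11_norm_mul_sub.trans (mul_le_mul hHh nY (norm_nonneg _) hH0)
  have nF : ∀ k, ‖H11.F6 c.P ((h : Op N) * Y) k - H11.F6 c.P (h : Op N) k‖ ≤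
      M * H * (M + 1) * κ := by
    intro k
    refine ((hF k).1.trans (mul_le_mul_of_nonneg_left nhY hM0)).trans (le_of_eq (by ring))
  -- the element w
  obtain ⟨w, hw⟩ : ∃ w : (Op N)ˣ, w = (l * d)⁻¹ * z * (l * d) := ⟨_, rfl⟩
  rw [← hw] at hzfix
  have hwi : w⁻¹ = (l * d)⁻¹ * z⁻¹ * (l * d) := by rw [hw]; group
  have hxz : x * z = (l * d)⁻¹ * z * (l * d) := by
    rw [← hw]; nth_rewrite 1 [hzfix]; group
  have hzi : z⁻¹ = w⁻¹ * x := by rw [hzfix]; group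
  have nz1 : ‖(z : Op N) - 1‖ ≤ 2 * M + 2 := (norm_sub_le _ _).trans (by linarith)
  have nw : ‖(w : Op N) - 1‖ ≤ κ * B * (2 * M + 2) := by
    rw [hw]
    have h1 := c.conj_Np hld hz.2
    rw [hκ'] at h1
    exact h1.trans (mul_le_mul hkld nz1 (norm_nonneg _) hkB0)
  -- bound on z⁻¹
  obtain ⟨b, hb⟩ : ∃ b : ℝ, ‖((z⁻¹ : (Op N)ˣ) : Op N)‖ = b := ⟨_, rfl⟩
  have hb0 : 0 ≤ b := by rw [← hb]; exact norm_nonneg _
  have nzi1 : ‖((z⁻¹ : (Op N)ˣ) : Op N) - 1‖ ≤ b + 1 :=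
    (norm_sub_le _ _).trans (by linarith)
  have nwi : ‖((w⁻¹ : (Op N)ˣ) : Op N) - 1‖ ≤ κ' * (b + 1) := by
    rw [hwi]
    have h1 := c.conj_Np hld (c.Np.inv_mem hz).2
    rw [hκ'] at h1
    exact h1.trans (mul_le_mul_of_nonneg_left nzi1 hkld0)
  have nwi2 : ‖((w⁻¹ : (Op N)ˣ) : Op N)‖ ≤ 1 + κ' * (b + 1) := by
    have h7 := norm_add_le (((w⁻¹ : (Op N)ˣ) : Op N) - 1) 1
    rw [sub_add_cancel] at h7
    linarith
  have hb4 : b ≤ 4 * M := by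
    have h1 : b ≤ (1 + κ' * (b + 1)) * M := by
      have h2 : ((z⁻¹ : (Op N)ˣ) : Op N) = ((w⁻¹ : (Op N)ˣ) : Op N) * x := by rw [hzi]; rfl
      have h3 : ‖((w⁻¹ : (Op N)ˣ) : Op N) * x‖ ≤ (1 + κ' * (b + 1)) * M :=
        (norm_mul_le _ _).trans (mul_le_mul nwi2 bx1 (norm_nonneg _)
          (add_nonneg zero_le_one (mul_nonneg hkld0 (by linarith))))
      rw [← h2, hb] at h3
      exact h3
    have h3 : (1 + κ' * (b + 1)) * M = M + M * κ' * b + M * κ' := by ring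
    have h4 : M * κ' * b ≤ 1 / 2 * b := mul_le_mul_of_nonneg_right k6 hb0
    rw [h3] at h1
    linarith
  have nwi3 : ‖((w⁻¹ : (Op N)ˣ) : Op N) - 1‖ ≤ κ * B * (4 * M + 1) :=
    nwi.trans (mul_le_mul hkld (by linarith) (by linarith) hkB0)
  have leC : ∀ a : ℝ, a ≤ C → a * κ ≤ C * κ := fun a ha => mul_le_mul_of_nonneg_right ha hk0
  have hly : l * y = Y * l := by rw [hYy]; group
  have hz1 : ‖(z : Op N) - ((x⁻¹ : (Op N)ˣ) : Op N)‖ ≤ M * B * (2 * M + 2) * κ := by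
    have h2 : (z : Op N) = ((x⁻¹ : (Op N)ˣ) : Op N) * w := congrArg Units.val hzfix
    rw [h2]
    refine (h11_norm_mul_sub.trans (mul_le_mul bx2 nw (norm_nonneg _) hM0)).trans
      (le_of_eq (by ring))
  have hz2 : ‖((x⁻¹ : (Op N)ˣ) : Op N) - Ring.inverse (xU c.P (h : Op N))‖ ≤
      M * H * (M + 1) * κ := by
    rw [hxi]; exact nF 3
  have hz3 : ‖((z⁻¹ : (Op N)ˣ) : Op N) - (x : Op N)‖ ≤ M * B * (4 * M + 1) * κ := by
    have h2 : ((z⁻¹ : (Op N)ˣ) : Op N) - (x : Op N) =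
        (((w⁻¹ : (Op N)ˣ) : Op N) - 1) * x := by
      rw [hzi, sub_mul, one_mul]; rfl
    rw [h2]
    refine ((norm_mul_le _ _).trans (mul_le_mul nwi3 bx1 (norm_nonneg _)
      (mul_nonneg hkB0 (by linarith)))).trans (le_of_eq (by ring))
  have hz4 : ‖(x : Op N) - xU c.P (h : Op N)‖ ≤ M * H * (M + 1) * κ := by
    rw [hxU]; exact nF 2
  refine ⟨Y, z, y, d, x, ?_⟩
  constructor
  · exact hY
  · exact hz
  · exact hy
  · exact hd
  · exact hx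
  · exact he
  · exact hly
  · calc l * d * x * z = l * d * (x * z) := by group
      _ = z * (l * d) := by rw [hxz]; group
  · rw [eq_mul_inv_iff_mul_eq]
    calc l * h * (Y * z) = l * (h * Y) * z := by group
      _ = (l * y) * d * (x * z) := by rw [he]; group
      _ = Y * l * d * ((l * d)⁻¹ * z * (l * d)) := by rw [hly, hxz]
      _ = Y * z * (l * d) := by group
  · rw [hκ]; exact nY.trans (by rw [mul_comm]; exact leC _ (by linarith))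
  · rw [hκ]; exact nYi.trans (by rw [mul_comm]; exact leC _ (by linarith))
  · rw [hκ]
    have h3 := norm_add_le ((z : Op N) - ((x⁻¹ : (Op N)ˣ) : Op N))
      (((x⁻¹ : (Op N)ˣ) : Op N) - Ring.inverse (xU c.P (h : Op N)))
    rw [sub_add_sub_cancel] at h3
    refine h3.trans ((add_le_add hz1 hz2).trans ?_)
    rw [← add_mul]
    exact leC _ (by linarith)
  · rw [hκ]
    have h3 := norm_add_le (((z⁻¹ : (Op N)ˣ) : Op N) - (x : Op N))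
      ((x : Op N) - xU c.P (h : Op N))
    rw [sub_add_sub_cancel] at h3
    refine h3.trans ((add_le_add hz3 hz4).trans ?_)
    rw [← add_mul]
    exact leC _ (by linarith)
  · rw [hκ, hyL]; exact (nF 0).trans (leC _ (by linarith))
  · rw [hκ, hdD]; exact (nF 4).trans (leC _ (by linarith))
  · linarith
  · linarith
  · linarith
  · linarith
  · linarith
  · linarith

theorem LR {h₀ : (Op N)ˣ} (hh₀ : h₀ ∈ G) (hreg : Reg c.P (h₀ : Op N)) :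
    ∃ C > 0, ∃ δ > 0, ∀ h ∈ G, ‖(h : Op N) - h₀‖ < δ → ∀ l ∈ c.L, c.kap l < δ →
      Reg c.P (h : Op N) ∧ ∃ Y z y d x, c.LRSol h l Y z y d x C := by
  obtain ⟨K, hK, δ₀, hδ₀, hlip0⟩ := H11.exists_lip6 c.grading c.star_P hreg ⟨h₀, rfl⟩
  obtain ⟨M, hMdef⟩ : ∃ M : ℝ, M = K + 1 := ⟨_, rfl⟩
  have hM1 : 1 ≤ M := by linarith
  have hMpos : 0 < M := by linarith
  have hlip : c.H11Lip (h₀ : Op N) M δ₀ := by
    intro T T' hT hT'
    obtain ⟨h1, h2⟩ := hlip0 T T' hT hT'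
    refine ⟨h1, fun k => ⟨(h2 k).1.trans ?_, (h2 k).2.trans (by linarith)⟩⟩
    exact mul_le_mul_of_nonneg_right (by linarith) (norm_nonneg _)
  obtain ⟨H, hHdef⟩ : ∃ H : ℝ, H = ‖(h₀ : Op N)‖ + 1 := ⟨_, rfl⟩
  have hH1 : 1 ≤ H := by have := norm_nonneg (h₀ : Op N); linarith
  have hHpos : 0 < H := by linarith
  obtain ⟨B, hBdef⟩ : ∃ B : ℝ, B = ∑ _i : ι, ∑ _j : ι, Real.exp (2 * M) := ⟨_, rfl⟩
  have hB0 : 0 ≤ B := by
    rw [hBdef]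
    exact Finset.sum_nonneg fun _ _ => Finset.sum_nonneg fun _ _ => (Real.exp_pos _).le
  obtain ⟨r, hrdef⟩ : ∃ r : ℝ, r = δ₀ / (2 * H) := ⟨_, rfl⟩
  have hr : 0 < r := by rw [hrdef]; positivity
  have hHr : H * r = δ₀ / 2 := by rw [hrdef]; field_simp
  obtain ⟨δ, hδdef⟩ : ∃ δ : ℝ, δ = min (min 1 (δ₀ / 2)) (min (r / (M + 1))
    (min (1 / (2 * (M * H))) (min (1 / ((B + 1) * (2 * M + 2))) (1 / (2 * (M * (B + 1))))))) :=
    ⟨_, rfl⟩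
  have hδ : 0 < δ := by
    rw [hδdef]
    refine lt_min (lt_min one_pos (by positivity)) (lt_min (by positivity) (lt_min (by positivity)
      (lt_min (by positivity) (by positivity))))
  have d1 : δ ≤ 1 := by rw [hδdef]; exact (min_le_left _ _).trans (min_le_left _ _)
  have d2 : δ ≤ δ₀ / 2 := by rw [hδdef]; exact (min_le_left _ _).trans (min_le_right _ _)
  have d3 : δ ≤ r / (M + 1) := by rw [hδdef]; exact (min_le_right _ _).trans (min_le_left _ _)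
  have d4 : δ ≤ 1 / (2 * (M * H)) := by
    rw [hδdef]; exact (min_le_right _ _).trans ((min_le_right _ _).trans (min_le_left _ _))
  have d5 : δ ≤ 1 / ((B + 1) * (2 * M + 2)) := by
    rw [hδdef]
    exact (min_le_right _ _).trans ((min_le_right _ _).trans
      ((min_le_right _ _).trans (min_le_left _ _)))
  have d6 : δ ≤ 1 / (2 * (M * (B + 1))) := by
    rw [hδdef]
    exact (min_le_right _ _).trans ((min_le_right _ _).trans
      ((min_le_right _ _).trans (min_le_right _ _)))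
  refine ⟨(M + 1) + M * H * (M + 1) + M * B * (2 * M + 2) + M * B * (4 * M + 1) + 4 * M +
      (2 * M + 1), by positivity, δ, hδ, fun h hh hhδ l hl hkδ => ?_⟩
  have hk0 := c.kap_nonneg (l : Op N)
  have hHh : ‖(h : Op N)‖ ≤ H := by
    have := norm_add_le ((h : Op N) - h₀) h₀
    rw [sub_add_cancel] at this
    linarith
  have hh0 : ‖(h : Op N) - h₀‖ < δ₀ := by linarith
  refine ⟨(hlip _ _ hh0 hh0).1, ?_⟩
  refine c.h11_LR_aux hh hl rfl hM1 hlip hH1 hHh (r := r) ?_ hh0 hr.le hB0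
    (fun T hT => by rw [hBdef]; exact c.h11_kap_bound hT) ?_ ?_ ?_ ?_ rfl
  · intro Y hY
    have h1 : (h : Op N) * Y - h₀ = (h : Op N) * (Y - 1) + ((h : Op N) - h₀) := by
      rw [mul_sub, mul_one]; abel
    have h2 : ‖(h : Op N) * (Y - 1)‖ ≤ H * r :=
      (norm_mul_le _ _).trans (mul_le_mul hHh hY (norm_nonneg _) hHpos.le)
    have h3 := norm_add_le ((h : Op N) * (Y - 1)) ((h : Op N) - h₀)
    rw [h1]
    linarith
  · exact (le_div_iff₀ (by linarith : (0:ℝ) < M + 1)).mp (hkδ.le.trans d3)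
  · have := (le_div_iff₀ (by positivity : (0:ℝ) < 2 * (M * H))).mp (hkδ.le.trans d4)
    linarith
  · have := (le_div_iff₀ (by positivity : (0:ℝ) < (B + 1) * (2 * M + 2))).mp (hkδ.le.trans d5)
    linarith
  · have := (le_div_iff₀ (by positivity : (0:ℝ) < 2 * (M * (B + 1)))).mp (hkδ.le.trans d6)
    linarith

end Cell

end Pool.Agent.Lib.MP_d9b062_al

end

/-! ## from `MP_d9b062_al_h75.Blocks` -/

section
/-!
# One block and two blocks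
-/

set_option linter.unusedSectionVars false
set_option linter.unusedVariables false

namespace Pool.Agent.Lib.MP_d9b062_al

open Filter
open scoped Topology

namespace Cell

section Blocks

variable {N : ℕ} {G : Subgroup (Op N)ˣ} {ι : Type} [Fintype ι] [LinearOrder ι] (c : Cell G ι)

lemma PL_unit_apply {l : (Op N)ˣ} (hl : l ∈ c.L) (v : V N) : c.PL ((l : Op N) v) = c.PL v :=
  congrArg (fun T : Op N => T v) (c.PL_mul_l hl)

lemma PL_unip_apply {s : ι → ι → Prop} {y : Op N} (hy : Unip c.P s y) {v : V N}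
    (hv : c.P c.o v = v) : c.PL (y v) = c.PL v := by
  have h : c.PL (y (c.P c.o v)) = c.PL v := congrArg (fun T : Op N => T v) (c.PL_unip hy)
  rwa [hv] at h

lemma norm_PL_apply_le (v : V N) : ‖c.PL v‖ ≤ ‖v‖ := by
  calc ‖c.PL v‖ ≤ ‖c.PL‖ * ‖v‖ := c.PL.le_opNorm v
    _ ≤ 1 * ‖v‖ := mul_le_mul_of_nonneg_right c.norm_PL_le (norm_nonneg _)
    _ = ‖v‖ := one_mul _

lemma kap_le_of_tau {T : Op N} {C : ℝ} (h : ‖c.tau T‖ ≤ C) :
    c.kap T ≤ ∑ _i : ι, ∑ _j : ι, Real.exp (2 * C) := by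
  classical
  unfold Cell.kap
  refine Finset.sum_le_sum fun i _ => Finset.sum_le_sum fun j _ => ?_
  split_ifs with hij
  · apply Real.exp_le_exp.2
    have h1 := (norm_le_pi_norm (c.tau T) i).trans h
    have h2 := (norm_le_pi_norm (c.tau T) j).trans h
    rw [Real.norm_eq_abs] at h1 h2
    have h3 := abs_le.1 h1
    have h4 := abs_le.1 h2
    linarith [h3.1, h3.2, h4.1, h4.2]
  · exact (Real.exp_pos _).le

lemma n_mul_exp_le {a : ℝ} (ha : 0 < a) (n : ℕ) : (n : ℝ) * Real.exp (-a * n) ≤ 1 / a := by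
  have h1 : a * n + 1 ≤ Real.exp (a * n) := Real.add_one_le_exp _
  have h2 : Real.exp (-a * n) * Real.exp (a * n) = 1 := by
    rw [← Real.exp_add]; simp
  have h3 : 0 < Real.exp (-a * n) := Real.exp_pos _
  rw [le_div_iff₀ ha]
  nlinarith

lemma tendsto_n_mul_exp {a : ℝ} (ha : 0 < a) :
    Tendsto (fun n : ℕ => (n : ℝ) * Real.exp (-a * n)) atTop (𝓝 0) := by
  have h1 := Real.tendsto_pow_mul_exp_neg_atTop_nhds_zero 1
  have h2 : Tendsto (fun n : ℕ => a * (n : ℝ)) atTop atTop :=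
    tendsto_natCast_atTop_atTop.const_mul_atTop ha
  have h3 := (h1.comp h2).const_mul (1 / a)
  rw [mul_zero] at h3
  refine h3.congr fun n => ?_
  simp only [Function.comp, pow_one]
  rw [neg_mul]
  field_simp

lemma tendsto_exp_neg' {a : ℝ} (ha : 0 < a) :
    Tendsto (fun n : ℕ => Real.exp (-a * n)) atTop (𝓝 0) := by
  have h2 : Tendsto (fun n : ℕ => a * (n : ℝ)) atTop atTop :=
    tendsto_natCast_atTop_atTop.const_mul_atTop ha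
  have h3 := Real.tendsto_exp_neg_atTop_nhds_zero.comp h2
  refine h3.congr fun n => ?_
  simp only [Function.comp]
  rw [neg_mul]

lemma tendsto_apply {α : Type*} {F : Filter α} {A : α → Op N} {A₀ : Op N} {v : α → V N}
    {v₀ : V N} (hA : Tendsto A F (𝓝 A₀)) (hv : Tendsto v F (𝓝 v₀)) :
    Tendsto (fun a => A a (v a)) F (𝓝 (A₀ v₀)) := by
  have h := (isBoundedBilinearMap_apply (𝕜 := ℝ) (E := V N) (F := V N)).continuous.tendsto
    (A₀, v₀)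
  exact h.comp (hA.prodMk_nhds hv)

/-- one block: powers of a dominant element times a regular one -/
theorem one_block {l h : (Op N)ˣ} (hl : l ∈ c.L) (hd : c.Dom (l : Op N)) {t : V N}
    (ht : c.P c.o t = t) (hlt : (l : Op N) t = t) (hh : h ∈ G) (hreg : Reg c.P (h : Op N))
    (u : V N) :
    ∃ f l' : ℕ → (Op N)ˣ, (∀ᶠ n in atTop, c.LinLox (l ^ n * h) (f n) (l' n)) ∧
      Tendsto (fun n : ℕ => c.tau (l' n : Op N) - (n : ℝ) • c.tau (l : Op N)) atTop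
        (𝓝 (c.tau (dD c.P (h : Op N)))) ∧
      Tendsto (fun n : ℕ => c.T (f n) ((⟨l ^ n, (n : ℝ) • t⟩ : Aff (V N)) * ⟨h, u⟩)
          - (n : ℝ) • c.PL t) atTop
        (𝓝 (c.PL (Ring.inverse (yL c.P (h : Op N)) u))) := by
  classical
  obtain ⟨y, hy, d, hdL, x, hx, hfac, hyL, hdD, hxU⟩ := c.exists_LU hh hreg
  obtain ⟨C, hC, δ, hδ, hLR⟩ := c.LR hh hreg
  obtain ⟨K, hK, a, ha, hkap⟩ := c.kap_pow hl hd
  have hln : ∀ n : ℕ, l ^ n ∈ c.L := fun n => c.L.pow_mem hl n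
  have hkap' : ∀ n : ℕ, c.kap ((l ^ n : (Op N)ˣ) : Op N) ≤ K * Real.exp (-a * n) := by
    intro n
    rw [Units.val_pow_eq_pow_val]
    exact hkap n
  have hk0 : Tendsto (fun n : ℕ => c.kap ((l ^ n : (Op N)ˣ) : Op N)) atTop (𝓝 0) := by
    refine squeeze_zero (fun n => c.kap_nonneg _) hkap' ?_
    have := (tendsto_exp_neg' ha).const_mul K
    rwa [mul_zero] at this
  have hsol : ∀ n : ℕ, ∃ q : (Op N)ˣ × (Op N)ˣ × (Op N)ˣ × (Op N)ˣ × (Op N)ˣ,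
      c.kap ((l ^ n : (Op N)ˣ) : Op N) < δ →
        c.LRSol h (l ^ n) q.1 q.2.1 q.2.2.1 q.2.2.2.1 q.2.2.2.2 C := by
    intro n
    by_cases hn : c.kap ((l ^ n : (Op N)ˣ) : Op N) < δ
    · obtain ⟨-, Y, z, y', d', x', hq⟩ := hLR h hh (by rw [sub_self, norm_zero]; exact hδ)
        (l ^ n) (hln n) hn
      exact ⟨(Y, z, y', d', x'), fun _ => hq⟩
    · exact ⟨1, fun h => absurd h hn⟩
  choose q hq using hsol
  have hev : ∀ᶠ n : ℕ in atTop, c.kap ((l ^ n : (Op N)ˣ) : Op N) < δ :=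
    hk0.eventually_lt_const hδ
  set B : ℝ := ∑ _i : ι, ∑ _j : ι, Real.exp (2 * C) with hB
  have hB0 : 0 ≤ B := Finset.sum_nonneg fun _ _ => Finset.sum_nonneg fun _ _ =>
    (Real.exp_pos _).le
  have hev1 : ∀ᶠ n : ℕ in atTop, c.kap ((l ^ n : (Op N)ˣ) : Op N) * B < 1 := by
    have := hk0.mul_const B
    rw [zero_mul] at this
    exact this.eventually_lt_const one_pos
  have hkC : Tendsto (fun n : ℕ => C * c.kap ((l ^ n : (Op N)ˣ) : Op N)) atTop (𝓝 0) := by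
    have := hk0.const_mul C
    rwa [mul_zero] at this
  refine ⟨fun n => (q n).1 * (q n).2.1, fun n => l ^ n * (q n).2.2.2.1, ?_, ?_, ?_⟩
  · filter_upwards [hev, hev1] with n hn hn1
    have hs := hq n hn
    refine ⟨G.mul_mem hs.Y_mem.1 hs.z_mem.1, c.L.mul_mem (hln n) hs.d_mem, ?_, hs.eq₄⟩
    apply c.dom_of_kap
    have h1 := c.kap_mul (hln n) hs.d_mem
    have h2 := c.kap_le_of_tau hs.bound_tau
    rw [Units.val_mul]
    calc _ ≤ _ := h1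
      _ ≤ c.kap ((l ^ n : (Op N)ˣ) : Op N) * B :=
        mul_le_mul_of_nonneg_left h2 (c.kap_nonneg _)
      _ < 1 := hn1
  · have h1 : Tendsto (fun n : ℕ => ((q n).2.2.2.1 : Op N)) atTop (𝓝 (d : Op N)) := by
      rw [tendsto_iff_norm_sub_tendsto_zero]
      refine squeeze_zero' (Eventually.of_forall fun n => norm_nonneg _) ?_ hkC
      filter_upwards [hev] with n hn
      have := (hq n hn).norm_d
      rwa [← hdD] at this
    have h2 := (c.tau_continuousAt hdL).tendsto.comp h1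
    rw [hdD] at h2
    refine h2.congr' ?_
    filter_upwards [hev] with n hn
    have hs := hq n hn
    change c.tau ((q n).2.2.2.1 : Op N) = c.tau ((l ^ n * (q n).2.2.2.1 : (Op N)ˣ) : Op N) - _
    rw [Units.val_mul, c.tau_mul (hln n) hs.d_mem, Units.val_pow_eq_pow_val, c.tau_pow hl]
    rw [add_sub_cancel_left]
  · -- the translation part
    have hY : Tendsto (fun n : ℕ => (((q n).1⁻¹ : (Op N)ˣ) : Op N)) atTop (𝓝 1) := by
      rw [tendsto_iff_norm_sub_tendsto_zero]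
      refine squeeze_zero' (Eventually.of_forall fun n => norm_nonneg _) ?_ hkC
      filter_upwards [hev] with n hn
      exact (hq n hn).norm_Yinv
    have hz : Tendsto (fun n : ℕ => (((q n).2.1⁻¹ : (Op N)ˣ) : Op N)) atTop (𝓝 (x : Op N)) := by
      rw [tendsto_iff_norm_sub_tendsto_zero]
      refine squeeze_zero' (Eventually.of_forall fun n => norm_nonneg _) ?_ hkC
      filter_upwards [hev] with n hn
      have := (hq n hn).norm_zinv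
      rwa [← hxU] at this
    -- the limit of the `u` part
    have hlim : Tendsto (fun n : ℕ => c.PL ((((q n).2.1⁻¹ : (Op N)ˣ) : Op N)
        ((((q n).1⁻¹ : (Op N)ˣ) : Op N) (((h⁻¹ : (Op N)ˣ) : Op N) u)))) atTop
        (𝓝 (c.PL (Ring.inverse (yL c.P (h : Op N)) u))) := by
      have h1 : Tendsto (fun n : ℕ => c.PL ((((q n).2.1⁻¹ : (Op N)ˣ) : Op N)
        ((((q n).1⁻¹ : (Op N)ˣ) : Op N) (((h⁻¹ : (Op N)ˣ) : Op N) u)))) atTop
        (𝓝 (c.PL ((x : Op N) ((1 : Op N) (((h⁻¹ : (Op N)ˣ) : Op N) u))))) :=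
        (c.PL.continuous.tendsto _).comp (tendsto_apply hz (tendsto_apply hY tendsto_const_nhds))
      have h2 : (x : Op N) ((1 : Op N) (((h⁻¹ : (Op N)ˣ) : Op N) u)) =
          ((d⁻¹ : (Op N)ˣ) : Op N) (((y⁻¹ : (Op N)ˣ) : Op N) u) := by
        have h3 : x * h⁻¹ = d⁻¹ * y⁻¹ := by rw [hfac]; group
        have h4 := congrArg (fun g : (Op N)ˣ => (g : Op N) u) h3
        exact h4
      rw [h2, c.PL_unit_apply (c.L.inv_mem hdL)] at h1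
      rw [← hyL, Ring.inverse_unit]
      exact h1
    -- the error of the `t` part
    have herr : Tendsto (fun n : ℕ => (n : ℝ) • c.PL ((((q n).2.1⁻¹ : (Op N)ˣ) : Op N)
        (((((q n).1⁻¹ : (Op N)ˣ) : Op N) - 1) t))) atTop (𝓝 0) := by
      rw [tendsto_zero_iff_norm_tendsto_zero]
      have hb : Tendsto (fun n : ℕ => C * (C * K * ‖t‖) * ((n : ℝ) * Real.exp (-a * n))) atTop
          (𝓝 0) := by
        have := (tendsto_n_mul_exp ha).const_mul (C * (C * K * ‖t‖))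
        rwa [mul_zero] at this
      refine squeeze_zero' (Eventually.of_forall fun n => norm_nonneg _) ?_ hb
      filter_upwards [hev] with n hn
      have hs := hq n hn
      rw [norm_smul, Real.norm_natCast]
      have h1 : ‖c.PL ((((q n).2.1⁻¹ : (Op N)ˣ) : Op N)
          (((((q n).1⁻¹ : (Op N)ˣ) : Op N) - 1) t))‖ ≤
          C * (C * (K * Real.exp (-a * n)) * ‖t‖) := by
        refine (c.norm_PL_apply_le _).trans ?_
        refine (ContinuousLinearMap.le_opNorm _ _).trans ?_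
        refine mul_le_mul hs.bound_zinv ?_ (norm_nonneg _) hC.le
        refine (ContinuousLinearMap.le_opNorm _ _).trans ?_
        refine mul_le_mul_of_nonneg_right ?_ (norm_nonneg _)
        exact hs.norm_Yinv.trans (mul_le_mul_of_nonneg_left (hkap' n) hC.le)
      calc (n : ℝ) * ‖c.PL ((((q n).2.1⁻¹ : (Op N)ˣ) : Op N)
          (((((q n).1⁻¹ : (Op N)ˣ) : Op N) - 1) t))‖
          ≤ (n : ℝ) * (C * (C * (K * Real.exp (-a * n)) * ‖t‖)) :=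
            mul_le_mul_of_nonneg_left h1 (Nat.cast_nonneg n)
        _ = C * (C * K * ‖t‖) * ((n : ℝ) * Real.exp (-a * n)) := by ring
    have hsum := herr.add hlim
    rw [zero_add] at hsum
    refine hsum.congr' ?_
    filter_upwards [hev] with n hn
    have hs := hq n hn
    have hT : c.T ((q n).1 * (q n).2.1) ((⟨l ^ n, (n : ℝ) • t⟩ : Aff (V N)) * ⟨h, u⟩) =
        c.PL (((((q n).1 * (q n).2.1)⁻¹ : (Op N)ˣ) : Op N)
          ((n : ℝ) • t + ((l ^ n : (Op N)ˣ) : Op N) u)) := rfl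
    rw [hT, map_add, map_add, map_smul, map_smul]
    have e1 : c.PL (((((q n).1 * (q n).2.1)⁻¹ : (Op N)ˣ) : Op N)
        (((l ^ n : (Op N)ˣ) : Op N) u)) = c.PL ((((q n).2.1⁻¹ : (Op N)ˣ) : Op N)
        ((((q n).1⁻¹ : (Op N)ˣ) : Op N) (((h⁻¹ : (Op N)ˣ) : Op N) u))) := by
      have h3 : ((q n).1 * (q n).2.1)⁻¹ * l ^ n =
          (l ^ n * (q n).2.2.2.1) * ((q n).2.1⁻¹ * (q n).1⁻¹ * h⁻¹) := by
        have h4 := hs.eq₄
        have h5 : l ^ n = ((q n).1 * (q n).2.1) * (l ^ n * (q n).2.2.2.1) *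
            ((q n).1 * (q n).2.1)⁻¹ * h⁻¹ := by rw [← h4]; group
        calc ((q n).1 * (q n).2.1)⁻¹ * l ^ n = ((q n).1 * (q n).2.1)⁻¹ *
            (((q n).1 * (q n).2.1) * (l ^ n * (q n).2.2.2.1) *
            ((q n).1 * (q n).2.1)⁻¹ * h⁻¹) := by rw [← h5]
          _ = _ := by
            simp only [mul_inv_rev, mul_assoc, inv_mul_cancel_left]
      have h6 : (((((q n).1 * (q n).2.1)⁻¹ : (Op N)ˣ) : Op N)
          (((l ^ n : (Op N)ˣ) : Op N) u)) = ((l ^ n * (q n).2.2.2.1 : (Op N)ˣ) : Op N)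
          ((((q n).2.1⁻¹ : (Op N)ˣ) : Op N)
          ((((q n).1⁻¹ : (Op N)ˣ) : Op N) (((h⁻¹ : (Op N)ˣ) : Op N) u))) :=
        congrArg (fun g : (Op N)ˣ => (g : Op N) u) h3
      rw [h6, c.PL_unit_apply (c.L.mul_mem (hln n) hs.d_mem)]
    have e2 : c.PL (((((q n).1 * (q n).2.1)⁻¹ : (Op N)ˣ) : Op N) t) =
        c.PL ((((q n).2.1⁻¹ : (Op N)ˣ) : Op N) (((((q n).1⁻¹ : (Op N)ˣ) : Op N) - 1) t)) +
          c.PL t := by
      have h1 : c.PL ((((q n).2.1⁻¹ : (Op N)ˣ) : Op N) t) = c.PL t :=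
        c.PL_unip_apply (c.Np.inv_mem hs.z_mem).2 ht
      have h2 : ((((q n).1 * (q n).2.1)⁻¹ : (Op N)ˣ) : Op N) t =
          (((q n).2.1⁻¹ : (Op N)ˣ) : Op N) ((((q n).1⁻¹ : (Op N)ˣ) : Op N) t) := by
        have h3 : ((q n).1 * (q n).2.1)⁻¹ = (q n).2.1⁻¹ * (q n).1⁻¹ := by group
        exact congrArg (fun g : (Op N)ˣ => (g : Op N) t) h3
      have h3 : ((((q n).1⁻¹ : (Op N)ˣ) : Op N) - 1) t =
          (((q n).1⁻¹ : (Op N)ˣ) : Op N) t - t := rfl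
      rw [h2, h3, map_sub, map_sub, h1]
      abel
    rw [e1, e2, smul_add]
    abel

lemma grp1 {H : Type*} [Group H] {a b y d x h' Y z d'' : H}
    (e4 : (a * d * b) * ((b⁻¹ * x * b) * h' * (a * y * a⁻¹)) =
      (Y * z) * ((a * d * b) * d'') * (Y * z)⁻¹) :
    a * (y * d * x) * b * h' =
      ((a * y * a⁻¹) * Y * z) * ((a * d * b) * d'') * ((a * y * a⁻¹) * Y * z)⁻¹ := by
  calc a * (y * d * x) * b * h' =
      (a * y * a⁻¹) * ((a * d * b) * ((b⁻¹ * x * b) * h' * (a * y * a⁻¹))) *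
        (a * y * a⁻¹)⁻¹ := by group
    _ = _ := by rw [e4]; group

lemma grp2 {H : Type*} [Group H] {a b y d Y z y'' : H}
    (e2 : (a * d * b) * y'' = Y * (a * d * b)) :
    ((a * y * a⁻¹) * Y * z)⁻¹ * a =
      a * ((a⁻¹ * z⁻¹ * a) * (d * ((b * y''⁻¹ * b⁻¹) * (d⁻¹ * y⁻¹)))) := by
  have : Y = (a * d * b) * y'' * (a * d * b)⁻¹ := by rw [e2]; group
  rw [this]; group

lemma norm_one_Op_le : ‖(1 : Op N)‖ ≤ 1 := ContinuousLinearMap.norm_id_le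

lemma norm_le_one_add (A : Op N) : ‖A‖ ≤ 1 + ‖A - 1‖ := by
  calc ‖A‖ = ‖1 + (A - 1)‖ := by rw [add_sub_cancel]
    _ ≤ ‖(1 : Op N)‖ + ‖A - 1‖ := norm_add_le _ _
    _ ≤ 1 + ‖A - 1‖ := by linarith [norm_one_Op_le (N := N)]

lemma norm_sub_one_le {A : Op N} {C : ℝ} (h : ‖A‖ ≤ C) : ‖A - 1‖ ≤ C + 1 := by
  calc ‖A - 1‖ ≤ ‖A‖ + ‖(1 : Op N)‖ := norm_sub_le _ _
    _ ≤ C + 1 := add_le_add h norm_one_Op_le

lemma norm_apply_le_of_le {A : Op N} {C B : ℝ} {v : V N} (hA : ‖A‖ ≤ C) (hv : ‖v‖ ≤ B) :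
    ‖A v‖ ≤ C * B := by
  refine (A.le_opNorm v).trans ?_
  exact mul_le_mul hA hv (norm_nonneg _) ((norm_nonneg _).trans hA)

/-- the translation estimate for two blocks -/
lemma two_block_T {a b d y x h' Y z y'' d'' x'' : (Op N)ˣ} (ha : a ∈ c.L) (hb : b ∈ c.L)
    (hd : d ∈ c.L) (hy : y ∈ c.Nm) (hx : x ∈ c.Np) {C : ℝ} (hC : 0 < C)
    (hs : c.LRSol ((b⁻¹ * x * b) * h' * (a * y * a⁻¹)) (a * d * b) Y z y'' d'' x'' C)
    (hka : c.kap a ≤ 1) (hkb : c.kap b ≤ 1) {n m N₁ N₂ N₃ : ℝ} (hn : 0 ≤ n) (hm : 0 ≤ m)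
    (h1 : n * c.kap a ≤ N₁) (h2 : m * c.kap a ≤ N₂) (h3 : m * c.kap b ≤ N₃)
    {t₁ t₂ : V N} (ht₁ : c.P c.o t₁ = t₁) (ht₂ : c.P c.o t₂ = t₂) (u u' : V N) {M₁ : ℝ}
    (hM₁ : M₁ = C * c.kap d * (1 + ‖((y⁻¹ : (Op N)ˣ) : Op N) - 1‖) +
      ‖((y⁻¹ : (Op N)ˣ) : Op N) - 1‖) :
    ‖c.T ((a * y * a⁻¹) * Y * z) ((⟨a, n • t₁⟩ : Aff (V N)) * ⟨y * d * x, u⟩ * ⟨b, m • t₂⟩ *
      ⟨h', u'⟩) - (n • c.PL t₁ + m • c.PL t₂)‖ ≤
    N₁ * (C * (M₁ * ‖t₁‖)) +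
    (C + 2) * (‖(d : Op N)‖ * ((C + 2) * ‖((d⁻¹ * y⁻¹ : (Op N)ˣ) : Op N) u‖)) +
    (N₂ * ((C + 1) * (‖(d : Op N)‖ * ((C + 2) * ‖(x : Op N) t₂‖))) +
      N₃ * ((C + 1) * ‖(x : Op N) t₂‖)) +
    C * ((1 + M₁) * ‖((h'⁻¹ : (Op N)ˣ) : Op N) u'‖) := by
  set v : (Op N)ˣ := a * y * a⁻¹ with hv
  set l : (Op N)ˣ := a * d * b with hl
  have hlL : l ∈ c.L := c.L.mul_mem (c.L.mul_mem ha hd) hb
  have hldL : l * d'' ∈ c.L := c.L.mul_mem hlL hs.d_mem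
  have hka0 := c.kap_nonneg (a : Op N)
  have hkb0 := c.kap_nonneg (b : Op N)
  have hkd0 := c.kap_nonneg (d : Op N)
  have hN₁ : 0 ≤ N₁ := (mul_nonneg hn hka0).trans h1
  have hN₂ : 0 ≤ N₂ := (mul_nonneg hm hka0).trans h2
  have hN₃ : 0 ≤ N₃ := (mul_nonneg hm hkb0).trans h3
  have hkl : c.kap (l : Op N) ≤ c.kap a * c.kap d := by
    rw [hl, Units.val_mul]
    calc _ ≤ c.kap ((a * d : (Op N)ˣ) : Op N) * c.kap b := c.kap_mul (c.L.mul_mem ha hd) hb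
      _ ≤ c.kap ((a * d : (Op N)ˣ) : Op N) * 1 :=
        mul_le_mul_of_nonneg_left hkb (c.kap_nonneg _)
      _ = c.kap ((a : Op N) * d) := by rw [mul_one, Units.val_mul]
      _ ≤ _ := c.kap_mul ha hd
  have hM₁0 : 0 ≤ M₁ := by
    rw [hM₁]; positivity
  -- the operator `Y⁻¹ v⁻¹`
  have hvinv : ‖((v⁻¹ : (Op N)ˣ) : Op N) - 1‖ ≤ c.kap a * ‖((y⁻¹ : (Op N)ˣ) : Op N) - 1‖ := by
    have h4 : v⁻¹ = a * y⁻¹ * a⁻¹ := by rw [hv]; group
    rw [h4, Units.val_mul, Units.val_mul]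
    exact c.conj_Nm ha (c.Nm.inv_mem hy).2
  have hQ : ‖((Y⁻¹ * v⁻¹ : (Op N)ˣ) : Op N) - 1‖ ≤ c.kap a * M₁ := by
    have e : ((Y⁻¹ * v⁻¹ : (Op N)ˣ) : Op N) - 1 =
        (((Y⁻¹ : (Op N)ˣ) : Op N) - 1) * ((v⁻¹ : (Op N)ˣ) : Op N) +
          (((v⁻¹ : (Op N)ˣ) : Op N) - 1) := by
      rw [Units.val_mul, sub_mul, one_mul]; abel
    have e2 : ‖((v⁻¹ : (Op N)ˣ) : Op N)‖ ≤ 1 + ‖((y⁻¹ : (Op N)ˣ) : Op N) - 1‖ := by
      refine (norm_le_one_add _).trans ?_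
      have : c.kap a * ‖((y⁻¹ : (Op N)ˣ) : Op N) - 1‖ ≤ 1 * ‖((y⁻¹ : (Op N)ˣ) : Op N) - 1‖ :=
        mul_le_mul_of_nonneg_right hka (norm_nonneg _)
      linarith
    have e3 : ‖((Y⁻¹ : (Op N)ˣ) : Op N) - 1‖ ≤ C * (c.kap a * c.kap d) :=
      hs.norm_Yinv.trans (mul_le_mul_of_nonneg_left hkl hC.le)
    rw [e]
    calc _ ≤ ‖(((Y⁻¹ : (Op N)ˣ) : Op N) - 1) * ((v⁻¹ : (Op N)ˣ) : Op N)‖ +
          ‖((v⁻¹ : (Op N)ˣ) : Op N) - 1‖ := norm_add_le _ _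
      _ ≤ (C * (c.kap a * c.kap d)) * (1 + ‖((y⁻¹ : (Op N)ˣ) : Op N) - 1‖) +
          c.kap a * ‖((y⁻¹ : (Op N)ˣ) : Op N) - 1‖ := by
        refine add_le_add ((norm_mul_le _ _).trans ?_) hvinv
        exact mul_le_mul e3 e2 (norm_nonneg _) (by positivity)
      _ = c.kap a * M₁ := by rw [hM₁]; ring
  have hQn : ‖((Y⁻¹ * v⁻¹ : (Op N)ˣ) : Op N)‖ ≤ 1 + M₁ := by
    refine (norm_le_one_add _).trans ?_
    have : c.kap a * M₁ ≤ 1 * M₁ := mul_le_mul_of_nonneg_right hka hM₁0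
    linarith
  -- the conjugates
  have hZt : ‖((a⁻¹ * z⁻¹ * a : (Op N)ˣ) : Op N) - 1‖ ≤ c.kap a * (C + 1) := by
    rw [Units.val_mul, Units.val_mul]
    refine (c.conj_Np ha (c.Np.inv_mem hs.z_mem).2).trans ?_
    exact mul_le_mul_of_nonneg_left (norm_sub_one_le hs.bound_zinv) hka0
  have hYt : ‖((b * y''⁻¹ * b⁻¹ : (Op N)ˣ) : Op N) - 1‖ ≤ c.kap b * (C + 1) := by
    rw [Units.val_mul, Units.val_mul]
    refine (c.conj_Nm hb (c.Nm.inv_mem hs.y_mem).2).trans ?_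
    exact mul_le_mul_of_nonneg_left (norm_sub_one_le hs.bound_yinv) hkb0
  have hZtn : ‖((a⁻¹ * z⁻¹ * a : (Op N)ˣ) : Op N)‖ ≤ C + 2 := by
    refine (norm_le_one_add _).trans ?_
    have : c.kap a * (C + 1) ≤ 1 * (C + 1) := mul_le_mul_of_nonneg_right hka (by linarith)
    linarith
  have hYtn : ‖((b * y''⁻¹ * b⁻¹ : (Op N)ˣ) : Op N)‖ ≤ C + 2 := by
    refine (norm_le_one_add _).trans ?_
    have : c.kap b * (C + 1) ≤ 1 * (C + 1) := mul_le_mul_of_nonneg_right hkb (by linarith)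
    linarith
  set F : (Op N)ˣ := v * Y * z with hF
  set Q : (Op N)ˣ := Y⁻¹ * v⁻¹ with hQd
  set Zt : (Op N)ˣ := a⁻¹ * z⁻¹ * a with hZtd
  set Yt : (Op N)ˣ := b * y''⁻¹ * b⁻¹ with hYtd
  have hFQ : F⁻¹ = z⁻¹ * Q := by rw [hF, hQd]; group
  have hFa : F⁻¹ * a = a * (Zt * (d * (Yt * (d⁻¹ * y⁻¹)))) := grp2 hs.eq₂
  have hFh : F⁻¹ * (a * (y * d * x)) = a * (Zt * (d * (Yt * x))) := by
    calc F⁻¹ * (a * (y * d * x)) = (F⁻¹ * a) * (y * d * x) := by group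
      _ = (a * (Zt * (d * (Yt * (d⁻¹ * y⁻¹))))) * (y * d * x) := by rw [hFa]
      _ = _ := by group
  have hFb : F⁻¹ * (a * (y * d * x) * b) = (l * d'') * (z⁻¹ * (Q * h'⁻¹)) := by
    have h4 : a * (y * d * x) * b * h' = F * (l * d'') * F⁻¹ := grp1 hs.eq₄
    calc F⁻¹ * (a * (y * d * x) * b) = F⁻¹ * (a * (y * d * x) * b * h') * h'⁻¹ := by group
      _ = F⁻¹ * (F * (l * d'') * F⁻¹) * h'⁻¹ := by rw [h4]
      _ = (l * d'') * (F⁻¹ * h'⁻¹) := by group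
      _ = _ := by rw [hFQ]; group
  -- the four terms
  have E1 : c.PL ((F⁻¹ : (Op N)ˣ).val t₁) =
      c.PL t₁ + c.PL ((z⁻¹ : (Op N)ˣ).val ((Q.val - 1) t₁)) := by
    have e1 : (F⁻¹ : (Op N)ˣ).val t₁ = (z⁻¹ : (Op N)ˣ).val (Q.val t₁) :=
      congrArg (fun g : (Op N)ˣ => (g : Op N) t₁) hFQ
    have e2 : (Q.val - 1) t₁ = Q.val t₁ - t₁ := rfl
    have e3 : c.PL ((z⁻¹ : (Op N)ˣ).val t₁) = c.PL t₁ :=
      c.PL_unip_apply (c.Np.inv_mem hs.z_mem).2 ht₁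
    rw [e1, e2, map_sub, map_sub, e3]
    abel
  have E2 : c.PL ((F⁻¹ : (Op N)ˣ).val (a.val u)) =
      c.PL (Zt.val (d.val (Yt.val ((d⁻¹ * y⁻¹ : (Op N)ˣ).val u)))) := by
    have e1 : (F⁻¹ : (Op N)ˣ).val (a.val u) =
        a.val (Zt.val (d.val (Yt.val ((d⁻¹ * y⁻¹ : (Op N)ˣ).val u)))) :=
      congrArg (fun g : (Op N)ˣ => (g : Op N) u) hFa
    rw [e1, c.PL_unit_apply ha]
  have E3 : c.PL ((F⁻¹ : (Op N)ˣ).val ((a * (y * d * x) : (Op N)ˣ).val t₂)) =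
      c.PL t₂ + (c.PL ((Zt.val - 1) (d.val (Yt.val (x.val t₂)))) +
        c.PL ((Yt.val - 1) (x.val t₂))) := by
    have e1 : (F⁻¹ : (Op N)ˣ).val ((a * (y * d * x) : (Op N)ˣ).val t₂) =
        a.val (Zt.val (d.val (Yt.val (x.val t₂)))) :=
      congrArg (fun g : (Op N)ˣ => (g : Op N) t₂) hFh
    have e2 : (Zt.val - 1) (d.val (Yt.val (x.val t₂))) =
        Zt.val (d.val (Yt.val (x.val t₂))) - d.val (Yt.val (x.val t₂)) := rfl
    have e3 : (Yt.val - 1) (x.val t₂) = Yt.val (x.val t₂) - x.val t₂ := rfl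
    have e4 : c.PL (x.val t₂) = c.PL t₂ := c.PL_unip_apply hx.2 ht₂
    rw [e1, c.PL_unit_apply ha, e2, e3, map_sub, map_sub, c.PL_unit_apply hd, e4]
    abel
  have E4 : c.PL ((F⁻¹ : (Op N)ˣ).val ((a * (y * d * x) * b : (Op N)ˣ).val u')) =
      c.PL ((z⁻¹ : (Op N)ˣ).val (Q.val ((h'⁻¹ : (Op N)ˣ).val u'))) := by
    have e1 : (F⁻¹ : (Op N)ˣ).val ((a * (y * d * x) * b : (Op N)ˣ).val u') =
        (l * d'').val ((z⁻¹ : (Op N)ˣ).val (Q.val ((h'⁻¹ : (Op N)ˣ).val u'))) :=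
      congrArg (fun g : (Op N)ˣ => (g : Op N) u') hFb
    rw [e1, c.PL_unit_apply hldL]
  have hT : c.T F ((⟨a, n • t₁⟩ : Aff (V N)) * ⟨y * d * x, u⟩ * ⟨b, m • t₂⟩ * ⟨h', u'⟩) =
      c.PL ((F⁻¹ : (Op N)ˣ).val (n • t₁ + a.val u + (a * (y * d * x) : (Op N)ˣ).val (m • t₂) +
        (a * (y * d * x) * b : (Op N)ˣ).val u')) := rfl
  have hD : c.T F ((⟨a, n • t₁⟩ : Aff (V N)) * ⟨y * d * x, u⟩ * ⟨b, m • t₂⟩ * ⟨h', u'⟩) -
      (n • c.PL t₁ + m • c.PL t₂) =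
      n • c.PL ((z⁻¹ : (Op N)ˣ).val ((Q.val - 1) t₁)) +
      c.PL (Zt.val (d.val (Yt.val ((d⁻¹ * y⁻¹ : (Op N)ˣ).val u)))) +
      (m • c.PL ((Zt.val - 1) (d.val (Yt.val (x.val t₂)))) +
        m • c.PL ((Yt.val - 1) (x.val t₂))) +
      c.PL ((z⁻¹ : (Op N)ˣ).val (Q.val ((h'⁻¹ : (Op N)ˣ).val u'))) := by
    rw [hT]
    simp only [map_add, map_smul]
    rw [E1, E2, E3, E4]
    simp only [smul_add]
    abel
  rw [hD]
  refine (norm_add_le _ _).trans (add_le_add ((norm_add_le _ _).trans (add_le_add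
    ((norm_add_le _ _).trans (add_le_add ?_ ?_))
    ((norm_add_le _ _).trans (add_le_add ?_ ?_)))) ?_)
  · rw [norm_smul, Real.norm_of_nonneg hn]
    have e1 : ‖c.PL ((z⁻¹ : (Op N)ˣ).val ((Q.val - 1) t₁))‖ ≤
        C * ((c.kap a * M₁) * ‖t₁‖) :=
      (c.norm_PL_apply_le _).trans (norm_apply_le_of_le hs.bound_zinv
        (norm_apply_le_of_le hQ le_rfl))
    calc n * ‖c.PL ((z⁻¹ : (Op N)ˣ).val ((Q.val - 1) t₁))‖ ≤
        n * (C * ((c.kap a * M₁) * ‖t₁‖)) := mul_le_mul_of_nonneg_left e1 hn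
      _ = (n * c.kap a) * (C * (M₁ * ‖t₁‖)) := by ring
      _ ≤ _ := mul_le_mul_of_nonneg_right h1 (by positivity)
  · exact (c.norm_PL_apply_le _).trans (norm_apply_le_of_le hZtn
      (norm_apply_le_of_le le_rfl (norm_apply_le_of_le hYtn le_rfl)))
  · rw [norm_smul, Real.norm_of_nonneg hm]
    have e1 : ‖c.PL ((Zt.val - 1) (d.val (Yt.val (x.val t₂))))‖ ≤
        (c.kap a * (C + 1)) * (‖(d : Op N)‖ * ((C + 2) * ‖(x : Op N) t₂‖)) :=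
      (c.norm_PL_apply_le _).trans (norm_apply_le_of_le hZt
        (norm_apply_le_of_le le_rfl (norm_apply_le_of_le hYtn le_rfl)))
    calc m * ‖c.PL ((Zt.val - 1) (d.val (Yt.val (x.val t₂))))‖ ≤
        m * ((c.kap a * (C + 1)) * (‖(d : Op N)‖ * ((C + 2) * ‖(x : Op N) t₂‖))) :=
          mul_le_mul_of_nonneg_left e1 hm
      _ = (m * c.kap a) * ((C + 1) * (‖(d : Op N)‖ * ((C + 2) * ‖(x : Op N) t₂‖))) := by ring
      _ ≤ _ := mul_le_mul_of_nonneg_right h2 (by positivity)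
  · rw [norm_smul, Real.norm_of_nonneg hm]
    have e1 : ‖c.PL ((Yt.val - 1) (x.val t₂))‖ ≤ (c.kap b * (C + 1)) * ‖(x : Op N) t₂‖ :=
      (c.norm_PL_apply_le _).trans (norm_apply_le_of_le hYt le_rfl)
    calc m * ‖c.PL ((Yt.val - 1) (x.val t₂))‖ ≤
        m * ((c.kap b * (C + 1)) * ‖(x : Op N) t₂‖) := mul_le_mul_of_nonneg_left e1 hm
      _ = (m * c.kap b) * ((C + 1) * ‖(x : Op N) t₂‖) := by ring
      _ ≤ _ := mul_le_mul_of_nonneg_right h3 (by positivity)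
  · exact (c.norm_PL_apply_le _).trans (norm_apply_le_of_le hs.bound_zinv
      (norm_apply_le_of_le hQn le_rfl))


lemma norm_mul_mul_sub_le {w h v : Op N} {p q : ℝ} (hp : ‖w - 1‖ ≤ p) (hq : ‖v - 1‖ ≤ q)
    (hq1 : q ≤ 1) : ‖w * h * v - h‖ ≤ p * (‖h‖ * 2) + ‖h‖ * q := by
  have hp0 : 0 ≤ p := (norm_nonneg _).trans hp
  have e : w * h * v - h = (w - 1) * (h * v) + h * (v - 1) := by
    rw [sub_mul, mul_sub, one_mul, mul_one, mul_assoc]; abel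
  have hv : ‖v‖ ≤ 2 := (norm_le_one_add v).trans (by linarith)
  rw [e]
  refine (norm_add_le _ _).trans (add_le_add ((norm_mul_le _ _).trans ?_)
    ((norm_mul_le _ _).trans ?_))
  · exact mul_le_mul hp ((norm_mul_le _ _).trans
      (mul_le_mul_of_nonneg_left hv (norm_nonneg _))) (norm_nonneg _) hp0
  · exact mul_le_mul_of_nonneg_left hq (norm_nonneg _)

/-- two blocks -/
theorem two_block {l₁ l₂ h h' : (Op N)ˣ} (hl₁ : l₁ ∈ c.L) (hd₁ : c.Dom (l₁ : Op N))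
    (hl₂ : l₂ ∈ c.L) (hd₂ : c.Dom (l₂ : Op N)) {t₁ t₂ : V N}
    (ht₁ : c.P c.o t₁ = t₁) (hlt₁ : (l₁ : Op N) t₁ = t₁)
    (ht₂ : c.P c.o t₂ = t₂) (hlt₂ : (l₂ : Op N) t₂ = t₂)
    (hh : h ∈ G) (hreg : Reg c.P (h : Op N)) (hh' : h' ∈ G) (hreg' : Reg c.P (h' : Op N))
    (u u' : V N) {ρ : ℝ} (hρ : 0 < ρ) :
    ∃ (C : ℝ) (n₀ : ℕ), ∀ n m : ℕ, n₀ ≤ n → n₀ ≤ m → ρ * n ≤ m → ρ * m ≤ n →
      ∃ f l : (Op N)ˣ, c.LinLox (l₁ ^ n * h * l₂ ^ m * h') f l ∧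
        ‖c.tau (l : Op N) - ((n : ℝ) • c.tau (l₁ : Op N) + (m : ℝ) • c.tau (l₂ : Op N))‖ ≤ C ∧
        ‖c.T f ((⟨l₁ ^ n, (n : ℝ) • t₁⟩ : Aff (V N)) * ⟨h, u⟩ * ⟨l₂ ^ m, (m : ℝ) • t₂⟩ *
          ⟨h', u'⟩) - ((n : ℝ) • c.PL t₁ + (m : ℝ) • c.PL t₂)‖ ≤ C := by
  classical
  obtain ⟨y, hy, d, hdL, x, hx, hfac, -, -, -⟩ := c.exists_LU hh hreg
  obtain ⟨C, hC, δ, hδ, hLR⟩ := c.LR hh' hreg'
  obtain ⟨K₁, hK₁, a₁, ha₁, hkap₁⟩ := c.kap_pow hl₁ hd₁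
  obtain ⟨K₂, hK₂, a₂, ha₂, hkap₂⟩ := c.kap_pow hl₂ hd₂
  have hk₁ : ∀ n : ℕ, c.kap ((l₁ ^ n : (Op N)ˣ) : Op N) ≤ K₁ * Real.exp (-a₁ * n) := fun n => by
    rw [Units.val_pow_eq_pow_val]
    exact hkap₁ n
  have hk₂ : ∀ n : ℕ, c.kap ((l₂ ^ n : (Op N)ˣ) : Op N) ≤ K₂ * Real.exp (-a₂ * n) := fun n => by
    rw [Units.val_pow_eq_pow_val]
    exact hkap₂ n
  have hz₁ : Tendsto (fun n : ℕ => c.kap ((l₁ ^ n : (Op N)ˣ) : Op N)) atTop (𝓝 0) := by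
    refine squeeze_zero (fun n => c.kap_nonneg _) hk₁ ?_
    have := (tendsto_exp_neg' ha₁).const_mul K₁
    rwa [mul_zero] at this
  have hz₂ : Tendsto (fun n : ℕ => c.kap ((l₂ ^ n : (Op N)ˣ) : Op N)) atTop (𝓝 0) := by
    refine squeeze_zero (fun n => c.kap_nonneg _) hk₂ ?_
    have := (tendsto_exp_neg' ha₂).const_mul K₂
    rwa [mul_zero] at this
  have hzc₁ : ∀ B : ℝ, Tendsto (fun n : ℕ => c.kap ((l₁ ^ n : (Op N)ˣ) : Op N) * B) atTop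
      (𝓝 0) := fun B => by
    have := hz₁.mul_const B
    rwa [zero_mul] at this
  have hzc₂ : ∀ B : ℝ, Tendsto (fun n : ℕ => c.kap ((l₂ ^ n : (Op N)ˣ) : Op N) * B) atTop
      (𝓝 0) := fun B => by
    have := hz₂.mul_const B
    rwa [zero_mul] at this
  set B : ℝ := ∑ _i : ι, ∑ _j : ι, Real.exp (2 * C) with hB
  have hB0 : 0 ≤ B := Finset.sum_nonneg fun _ _ => Finset.sum_nonneg fun _ _ =>
    (Real.exp_pos _).le
  set ny : ℝ := ‖(y : Op N) - 1‖ with hny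
  set nx : ℝ := ‖(x : Op N) - 1‖ with hnx
  have hev : ∀ᶠ n : ℕ in atTop, c.kap ((l₁ ^ n : (Op N)ˣ) : Op N) ≤ 1 ∧
      c.kap ((l₂ ^ n : (Op N)ˣ) : Op N) ≤ 1 ∧
      c.kap ((l₁ ^ n : (Op N)ˣ) : Op N) * ny ≤ 1 ∧
      c.kap ((l₁ ^ n : (Op N)ˣ) : Op N) * (ny * ‖(h' : Op N)‖) < δ / 2 ∧
      c.kap ((l₂ ^ n : (Op N)ˣ) : Op N) * (nx * (‖(h' : Op N)‖ * 2)) < δ / 2 ∧
      c.kap ((l₁ ^ n : (Op N)ˣ) : Op N) * c.kap (d : Op N) < δ ∧
      c.kap ((l₁ ^ n : (Op N)ˣ) : Op N) * (c.kap (d : Op N) * B) < 1 := by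
    filter_upwards [hz₁.eventually_lt_const one_pos, hz₂.eventually_lt_const one_pos,
      (hzc₁ ny).eventually_lt_const one_pos,
      (hzc₁ (ny * ‖(h' : Op N)‖)).eventually_lt_const (half_pos hδ),
      (hzc₂ (nx * (‖(h' : Op N)‖ * 2))).eventually_lt_const (half_pos hδ),
      (hzc₁ (c.kap (d : Op N))).eventually_lt_const hδ,
      (hzc₁ (c.kap (d : Op N) * B)).eventually_lt_const one_pos] with n e1 e2 e3 e4 e5 e6 e7
    exact ⟨e1.le, e2.le, e3.le, e4, e5, e6, e7⟩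
  obtain ⟨n₀, hn₀⟩ := eventually_atTop.1 hev
  set M₁ : ℝ := C * c.kap d * (1 + ‖((y⁻¹ : (Op N)ˣ) : Op N) - 1‖) +
      ‖((y⁻¹ : (Op N)ˣ) : Op N) - 1‖ with hM₁
  set C' : ℝ := (K₁ / a₁) * (C * (M₁ * ‖t₁‖)) +
    (C + 2) * (‖(d : Op N)‖ * ((C + 2) * ‖((d⁻¹ * y⁻¹ : (Op N)ˣ) : Op N) u‖)) +
    ((K₁ / a₁ / ρ) * ((C + 1) * (‖(d : Op N)‖ * ((C + 2) * ‖(x : Op N) t₂‖))) +
      (K₂ / a₂) * ((C + 1) * ‖(x : Op N) t₂‖)) +
    C * ((1 + M₁) * ‖((h'⁻¹ : (Op N)ˣ) : Op N) u'‖) with hC'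
  refine ⟨max C' (‖c.tau (d : Op N)‖ + C), n₀, fun n m hn hm hnm hmn => ?_⟩
  obtain ⟨e1, -, e3, e4, -, e6, e7⟩ := hn₀ n hn
  obtain ⟨-, f2, -, -, f5, -, -⟩ := hn₀ m hm
  have haL : l₁ ^ n ∈ c.L := c.L.pow_mem hl₁ n
  have hbL : l₂ ^ m ∈ c.L := c.L.pow_mem hl₂ m
  generalize hae : l₁ ^ n = a at *
  generalize hbe : l₂ ^ m = b at *
  have hlL : a * d * b ∈ c.L := c.L.mul_mem (c.L.mul_mem haL hdL) hbL
  have hkl : c.kap ((a * d * b : (Op N)ˣ) : Op N) ≤ c.kap a * c.kap d := by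
    rw [Units.val_mul]
    calc _ ≤ c.kap ((a * d : (Op N)ˣ) : Op N) * c.kap b := c.kap_mul (c.L.mul_mem haL hdL) hbL
      _ ≤ c.kap ((a * d : (Op N)ˣ) : Op N) * 1 :=
        mul_le_mul_of_nonneg_left f2 (c.kap_nonneg _)
      _ = c.kap ((a : Op N) * d) := by rw [mul_one, Units.val_mul]
      _ ≤ _ := c.kap_mul haL hdL
  have hv : ‖((a * y * a⁻¹ : (Op N)ˣ) : Op N) - 1‖ ≤ c.kap a * ny := by
    rw [Units.val_mul, Units.val_mul]
    exact c.conj_Nm haL hy.2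
  have hw : ‖((b⁻¹ * x * b : (Op N)ˣ) : Op N) - 1‖ ≤ c.kap b * nx := by
    rw [Units.val_mul, Units.val_mul]
    exact c.conj_Np hbL hx.2
  have hG : (b⁻¹ * x * b) * h' * (a * y * a⁻¹) ∈ G :=
    G.mul_mem (G.mul_mem (G.mul_mem (G.mul_mem (G.inv_mem hbL.1) hx.1) hbL.1) hh')
      (G.mul_mem (G.mul_mem haL.1 hy.1) (G.inv_mem haL.1))
  have hclose : ‖(((b⁻¹ * x * b) * h' * (a * y * a⁻¹) : (Op N)ˣ) : Op N) - h'‖ < δ := by
    rw [Units.val_mul (b⁻¹ * x * b * h'), Units.val_mul (b⁻¹ * x * b)]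
    refine (norm_mul_mul_sub_le hw hv e3).trans_lt ?_
    have : c.kap b * nx * (‖(h' : Op N)‖ * 2) + ‖(h' : Op N)‖ * (c.kap a * ny) =
        c.kap b * (nx * (‖(h' : Op N)‖ * 2)) + c.kap a * (ny * ‖(h' : Op N)‖) := by ring
    rw [this]
    linarith
  obtain ⟨-, Y, z, y'', d'', x'', hs⟩ := hLR _ hG hclose (a * d * b) hlL (hkl.trans_lt e6)
  have hna : (n : ℝ) * c.kap a ≤ K₁ / a₁ := by
    have h1 := hk₁ n
    rw [hae] at h1
    calc (n : ℝ) * c.kap a ≤ n * (K₁ * Real.exp (-a₁ * n)) :=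
          mul_le_mul_of_nonneg_left h1 (Nat.cast_nonneg n)
      _ = K₁ * (n * Real.exp (-a₁ * n)) := by ring
      _ ≤ K₁ * (1 / a₁) := mul_le_mul_of_nonneg_left (n_mul_exp_le ha₁ n) hK₁.le
      _ = K₁ / a₁ := by ring
  have hmb : (m : ℝ) * c.kap b ≤ K₂ / a₂ := by
    have h1 := hk₂ m
    rw [hbe] at h1
    calc (m : ℝ) * c.kap b ≤ m * (K₂ * Real.exp (-a₂ * m)) :=
          mul_le_mul_of_nonneg_left h1 (Nat.cast_nonneg m)
      _ = K₂ * (m * Real.exp (-a₂ * m)) := by ring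
      _ ≤ K₂ * (1 / a₂) := mul_le_mul_of_nonneg_left (n_mul_exp_le ha₂ m) hK₂.le
      _ = K₂ / a₂ := by ring
  have hma : (m : ℝ) * c.kap a ≤ K₁ / a₁ / ρ := by
    rw [le_div_iff₀ hρ]
    calc (m : ℝ) * c.kap a * ρ = (ρ * m) * c.kap a := by ring
      _ ≤ n * c.kap a := mul_le_mul_of_nonneg_right hmn (c.kap_nonneg _)
      _ ≤ _ := hna
  refine ⟨(a * y * a⁻¹) * Y * z, (a * d * b) * d'', ⟨?_, ?_, ?_, ?_⟩, ?_, ?_⟩
  · exact G.mul_mem (G.mul_mem (G.mul_mem (G.mul_mem haL.1 hy.1) (G.inv_mem haL.1)) hs.Y_mem.1)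
      hs.z_mem.1
  · exact c.L.mul_mem hlL hs.d_mem
  · apply c.dom_of_kap
    rw [Units.val_mul]
    calc _ ≤ c.kap ((a * d * b : (Op N)ˣ) : Op N) * c.kap d'' := c.kap_mul hlL hs.d_mem
      _ ≤ (c.kap a * c.kap d) * B := mul_le_mul hkl (c.kap_le_of_tau hs.bound_tau)
          (c.kap_nonneg _) (mul_nonneg (c.kap_nonneg _) (c.kap_nonneg _))
      _ = c.kap a * (c.kap d * B) := by ring
      _ < 1 := e7
  · rw [hfac]
    exact grp1 hs.eq₄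
  · refine le_trans ?_ (le_max_right _ _)
    have t1 : c.tau ((a * d * b * d'' : (Op N)ˣ) : Op N) =
        c.tau (a : Op N) + c.tau (d : Op N) + c.tau (b : Op N) + c.tau (d'' : Op N) := by
      rw [Units.val_mul, c.tau_mul hlL hs.d_mem, Units.val_mul, c.tau_mul
        (c.L.mul_mem haL hdL) hbL, Units.val_mul, c.tau_mul haL hdL]
    have t2 : c.tau (a : Op N) = (n : ℝ) • c.tau (l₁ : Op N) := by
      rw [← hae, Units.val_pow_eq_pow_val, c.tau_pow hl₁]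
    have t3 : c.tau (b : Op N) = (m : ℝ) • c.tau (l₂ : Op N) := by
      rw [← hbe, Units.val_pow_eq_pow_val, c.tau_pow hl₂]
    have t4 : c.tau ((a * d * b * d'' : (Op N)ˣ) : Op N) -
        ((n : ℝ) • c.tau (l₁ : Op N) + (m : ℝ) • c.tau (l₂ : Op N)) =
        c.tau (d : Op N) + c.tau (d'' : Op N) := by
      rw [t1, t2, t3]; abel
    rw [t4]
    exact (norm_add_le _ _).trans (add_le_add le_rfl hs.bound_tau)
  · refine le_trans ?_ (le_max_left _ _)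
    rw [hfac]
    exact c.two_block_T haL hbL hdL hy hx hC hs e1 f2 (Nat.cast_nonneg n) (Nat.cast_nonneg m)
      hna hma hmb ht₁ ht₂ u u' hM₁


end Blocks

end Cell

end Pool.Agent.Lib.MP_d9b062_al

end
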