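import Mathlib
import Pool.Agent.Lib.MP_d9b062_al_m.MBase

/-!
MP_d9b062_al: merged modules (to shorten the build).
-/

set_option autoImplicit false

/-! ## from `MP_d9b062_al_h20.Lox1` -/

section
/-!
# Determinants of the leading compressions
-/

namespace Pool.Agent.Lib.MP_d9b062_al

namespace Lox

open NormedSpace Filter
open scoped Topology Matrix

variable {N : ℕ}

/-- determinant -/
noncomputable def dt (T : Op N) : ℝ := LinearMap.det (T : V N →ₗ[ℝ] V N)

lemma dt_mul (S T : Op N) : dt (S * T) = dt S * dt T := by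
  unfold dt
  rw [← map_mul]
  rfl

lemma dt_one : dt (1 : Op N) = 1 := by
  unfold dt
  exact map_one _

lemma isUnit_of_dt {T : Op N} (h : dt T ≠ 0) : IsUnit T := by
  have h1 : IsUnit (T : V N →ₗ[ℝ] V N) := by
    rw [LinearMap.isUnit_iff_isUnit_det]
    exact isUnit_iff_ne_zero.2 h
  have h2 := h1.map (Module.End.toContinuousLinearMap (V N)).toRingEquiv.toRingHom
  have h3 : (Module.End.toContinuousLinearMap (V N)).toRingEquiv.toRingHom
      (T : V N →ₗ[ℝ] V N) = T := by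
    ext v
    rfl
  rwa [h3] at h2

lemma dt_unip {ι : Type*} [Fintype ι] {P : ι → Op N} (hP : IsGrading P) {s : ι → ι → Prop}
    (hs : ∀ i j k, s i j → s j k → s i k) (hi : ∀ i, ¬ s i i) {T : Op N} (hT : Unip P s T) :
    dt T = 1 := by
  have h0 := (hT.supp hP hi).pow_zero_of_card hP hs hi
  have hnil : IsNilpotent ((1 - T : Op N) : V N →ₗ[ℝ] V N) := by
    refine ⟨Fintype.card ι + 1, ?_⟩
    have := congrArg (fun A : Op N => (A : V N →ₗ[ℝ] V N)) h0
    simpa using this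
  have h1 := hnil.charpoly_eq_X_pow_finrank
  have h2 := congrArg (Polynomial.eval 1) h1
  rw [LinearMap.eval_charpoly] at h2
  simp only [Polynomial.eval_pow, Polynomial.eval_X, one_pow] at h2
  unfold dt
  rw [← h2]
  congr 1
  ext v
  simp

lemma dt_polyFun : (fun T : Op N => dt T) ∈ PolyFun (Op N) := by
  let b := (EuclideanSpace.basisFun (Fin N) ℝ).toBasis
  have h : (fun T : Op N => dt T) = fun T : Op N => ∑ σ : Equiv.Perm (Fin N),
      ((Equiv.Perm.sign σ : ℤ) : ℝ) * ∏ i, (LinearMap.toMatrix b b (T : V N →ₗ[ℝ] V N)) (σ i) i := by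
    ext T
    rw [dt, ← LinearMap.det_toMatrix b, Matrix.det_apply']
  rw [h]
  refine PolyFun.sum _ fun σ _ => PolyFun.mul (PolyFun.const _) (PolyFun.prod _ fun i _ => ?_)
  let φ : Op N →ₗ[ℝ] ℝ := (Matrix.entryLinearMap ℝ ℝ (σ i) i) ∘ₗ
    (LinearMap.toMatrix b b).toLinearMap ∘ₗ (ContinuousLinearMap.coeLM ℝ)
  exact PolyFun.linear φ

lemma det_one_add_self_mul_conjTranspose {n : Type*} [Fintype n] [DecidableEq n]
    (M : Matrix n n ℝ) : 1 ≤ (1 + M * Mᴴ).det ∧ ((1 + M * Mᴴ).det = 1 → M = 0) := by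
  have hps := Matrix.posSemidef_self_mul_conjTranspose M
  have hB := hps.isHermitian
  have h1 := congrArg (Polynomial.eval (-1)) hB.charpoly_eq
  rw [Matrix.eval_charpoly, Polynomial.eval_prod] at h1
  have h2 : (Matrix.scalar n (-1 : ℝ) - M * Mᴴ) = -(1 + M * Mᴴ) := by
    rw [map_neg, map_one]; abel
  rw [h2, Matrix.det_neg] at h1
  have h3 : ∏ j, Polynomial.eval (-1 : ℝ) (Polynomial.X - Polynomial.C (hB.eigenvalues j : ℝ)) =
      (-1) ^ Fintype.card n * ∏ j, (1 + hB.eigenvalues j) := by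
    have : ∀ j, Polynomial.eval (-1 : ℝ) (Polynomial.X - Polynomial.C (hB.eigenvalues j : ℝ)) =
        (-1) * (1 + hB.eigenvalues j) := by
      intro j; simp; ring
    rw [Finset.prod_congr rfl fun j _ => this j, Finset.prod_mul_distrib]
    simp
  have h4 : (1 + M * Mᴴ).det = ∏ j, (1 + hB.eigenvalues j) := by
    have h5 : ((-1 : ℝ)) ^ Fintype.card n ≠ 0 := pow_ne_zero _ (by norm_num)
    refine mul_left_cancel₀ h5 ?_
    rw [← h3]
    exact h1
  have hnn : ∀ j, 0 ≤ hB.eigenvalues j := hps.eigenvalues_nonneg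
  refine ⟨?_, fun h => ?_⟩
  · rw [h4]
    exact Finset.one_le_prod fun k _ => by linarith [hnn k]
  rw [h4] at h
  have h6 : hB.eigenvalues = 0 := by
    funext j
    by_contra hj
    have hpos : 0 < hB.eigenvalues j := lt_of_le_of_ne (hnn j) (Ne.symm hj)
    have : 1 < ∏ j, (1 + hB.eigenvalues j) := by
      rw [← Finset.prod_erase_mul _ _ (Finset.mem_univ j)]
      have h7 : 1 ≤ ∏ k ∈ Finset.univ.erase j, (1 + hB.eigenvalues k) :=
        Finset.one_le_prod fun k _ => by linarith [hnn k]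
      nlinarith
    linarith
  rw [hB.eigenvalues_eq_zero_iff] at h6
  exact Matrix.self_mul_conjTranspose_eq_zero.1 h6

lemma dt_one_add (S : Op N) : 1 ≤ dt (1 + S * star S) ∧ (dt (1 + S * star S) = 1 → S = 0) := by
  let b := EuclideanSpace.basisFun (Fin N) ℝ
  let M := LinearMap.toMatrixOrthonormal b (S : V N →ₗ[ℝ] V N)
  have h1 : LinearMap.toMatrixOrthonormal b ((1 + S * star S : Op N) : V N →ₗ[ℝ] V N) =
      1 + M * Mᴴ := by
    have e : ((1 + S * star S : Op N) : V N →ₗ[ℝ] V N) =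
        1 + (S : V N →ₗ[ℝ] V N) * star (S : V N →ₗ[ℝ] V N) := by
      ext v
      rfl
    rw [e, map_add, map_one, map_mul, map_star]
    rfl
  have h2 : dt (1 + S * star S) = (1 + M * Mᴴ).det := by
    rw [← h1, dt, ← LinearMap.det_toMatrix b.toBasis]
    rfl
  have h3 := det_one_add_self_mul_conjTranspose M
  rw [h2]
  refine ⟨h3.1, fun h => ?_⟩
  have h4 : (S : V N →ₗ[ℝ] V N) = 0 := by
    have := (LinearMap.toMatrixOrthonormal b).injective ((h3.2 h).trans (map_zero _).symm)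
    exact this
  refine ContinuousLinearMap.ext fun v => ?_
  have := congrArg (fun A : V N →ₗ[ℝ] V N => A v) h4
  simpa using this

lemma st_add (S T : Op N) : star (S + T) = star S + star T := star_add S T

lemma st_zero : star (0 : Op N) = 0 := star_zero (Op N)

lemma st_sum {κ : Type*} (s : Finset κ) (S : κ → Op N) :
    star (∑ i ∈ s, S i) = ∑ i ∈ s, star (S i) := by
  classical
  induction s using Finset.induction_on with
  | empty => simpa using st_zero
  | insert a s ha ih => rw [Finset.sum_insert ha, Finset.sum_insert ha, st_add, ih]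

lemma star_unip {ι : Type*} {P : ι → Op N} (hs : ∀ i, star (P i) = P i) {s : ι → ι → Prop}
    {T : Op N} (hT : Unip P s T) : Unip P (fun i j => s j i) (star T) := by
  constructor
  · intro i
    have := congrArg star (hT.1 i)
    simpa [star_mul, hs, mul_assoc] using this
  · intro i j hij hn
    have := congrArg star (hT.2 j i (Ne.symm hij) hn)
    rw [st_zero] at this
    simpa [star_mul, hs, mul_assoc] using this

section DD

variable {ι : Type*} [Fintype ι] [LinearOrder ι] {P : ι → Op N}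

lemma Mi_mul_left (hP : IsGrading P) {y T : Op N} {i : ι} (h : Qge P i * y * Qlt P i = 0) :
    Mi P i (y * T) = Mi P i y * Mi P i T := by
  have h1 : Qge P i * y = Qge P i * y * Qge P i := by
    calc Qge P i * y = Qge P i * y * (Qge P i + Qlt P i) := by rw [hP.Q_add, mul_one]
      _ = _ := by rw [mul_add, h, add_zero]
  have e1 : Qge P i * (y * T) * Qge P i = (Qge P i * y * Qge P i) * (Qge P i * T * Qge P i) := by
    calc Qge P i * (y * T) * Qge P i = (Qge P i * y) * T * Qge P i := by simp only [mul_assoc]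
      _ = (Qge P i * y * Qge P i) * T * Qge P i := by rw [← h1]
      _ = (Qge P i * y * (Qge P i * Qge P i)) * T * Qge P i := by rw [hP.Qge_idem]
      _ = _ := by simp only [mul_assoc]
  have e2 : Qge P i * y * Qge P i * Qlt P i = 0 := by rw [mul_assoc, hP.Qge_Qlt, mul_zero]
  have e3 : Qlt P i * (Qge P i * T * Qge P i) = 0 := by
    rw [← mul_assoc, ← mul_assoc, hP.Qlt_Qge, zero_mul, zero_mul]
  simp only [Mi]
  rw [e1, add_mul, mul_add, mul_add, e2, e3, hP.Qlt_idem, add_zero, zero_add]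

lemma Mi_mul_right (hP : IsGrading P) {x T : Op N} {i : ι} (h : Qlt P i * x * Qge P i = 0) :
    Mi P i (T * x) = Mi P i T * Mi P i x := by
  have h1 : x * Qge P i = Qge P i * x * Qge P i := by
    calc x * Qge P i = (Qge P i + Qlt P i) * x * Qge P i := by rw [hP.Q_add, one_mul]
      _ = _ := by rw [add_mul, add_mul, h, add_zero]
  have e1 : Qge P i * (T * x) * Qge P i = (Qge P i * T * Qge P i) * (Qge P i * x * Qge P i) := by
    calc Qge P i * (T * x) * Qge P i = (Qge P i * T) * (x * Qge P i) := by simp only [mul_assoc]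
      _ = (Qge P i * T) * (Qge P i * x * Qge P i) := by rw [← h1]
      _ = (Qge P i * T) * ((Qge P i * Qge P i) * x * Qge P i) := by rw [hP.Qge_idem]
      _ = _ := by simp only [mul_assoc]
  have e2 : Qge P i * T * Qge P i * Qlt P i = 0 := by rw [mul_assoc, hP.Qge_Qlt, mul_zero]
  have e3 : Qlt P i * (Qge P i * x * Qge P i) = 0 := by
    rw [← mul_assoc, ← mul_assoc, hP.Qlt_Qge, zero_mul, zero_mul]
  simp only [Mi]
  rw [e1, add_mul, mul_add, mul_add, e2, e3, hP.Qlt_idem, add_zero, zero_add]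

/-- the product of the leading minors -/
noncomputable def D (P : ι → Op N) (T : Op N) : ℝ := ∏ i, dt (Mi P i T)

lemma D_left (hP : IsGrading P) {y T : Op N} (h : ∀ i, Qge P i * y * Qlt P i = 0) :
    D P (y * T) = D P y * D P T := by
  rw [D, D, D, ← Finset.prod_mul_distrib]
  exact Finset.prod_congr rfl fun i _ => by rw [Mi_mul_left hP (h i), dt_mul]

lemma D_right (hP : IsGrading P) {x T : Op N} (h : ∀ i, Qlt P i * x * Qge P i = 0) :
    D P (T * x) = D P T * D P x := by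
  rw [D, D, D, ← Finset.prod_mul_distrib]
  exact Finset.prod_congr rfl fun i _ => by rw [Mi_mul_right hP (h i), dt_mul]

lemma D_one (hP : IsGrading P) : D P 1 = 1 := by
  refine Finset.prod_eq_one fun i _ => ?_
  rw [Mi, mul_one, hP.Qge_idem, hP.Q_add, dt_one]

lemma D_unip (hP : IsGrading P) {s : ι → ι → Prop}
    (hs : ∀ i j k, s i j → s j k → s i k) (hi : ∀ i, ¬ s i i) {T : Op N} (hT : Unip P s T) :
    D P T = 1 :=
  Finset.prod_eq_one fun i _ => dt_unip hP hs hi (hT.Mi_unip hP i)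

lemma reg_of_D {T : Op N} (h : D P T ≠ 0) : Reg P T := fun i =>
  isUnit_of_dt (Finset.prod_ne_zero_iff.1 h i (Finset.mem_univ i))

lemma D_polyFun : (fun T : Op N => D P T) ∈ PolyFun (Op N) := by
  unfold D
  refine PolyFun.prod _ fun i _ => ?_
  have h : IsPolyMap (fun T : Op N => Mi P i T) :=
    ((IsPolyMap.const (Qge P i)).mul IsPolyMap.id).mul (IsPolyMap.const (Qge P i)) |>.add
      (IsPolyMap.const (Qlt P i))
  exact PolyFun.comp dt_polyFun h

lemma star_Qge (hs : ∀ i, star (P i) = P i) (i : ι) : star (Qge P i) = Qge P i := by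
  rw [Qge, st_sum]
  exact Finset.sum_congr rfl fun j _ => hs j

lemma star_Qlt (hs : ∀ i, star (P i) = P i) (i : ι) : star (Qlt P i) = Qlt P i := by
  rw [Qlt, st_sum]
  exact Finset.sum_congr rfl fun j _ => hs j

/-- `D (x x*) = 1` only for `x = 1` -/
lemma eq_one_of_D (hP : IsGrading P) (hs : ∀ i, star (P i) = P i) {x : Op N}
    (hx : Unip P (fun i j => j < i) x) (h : D P (x * star x) = 1) : x = 1 := by
  have key : ∀ i, ∃ S : Op N, dt (Mi P i (x * star x)) = dt (1 + S * star S) ∧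
      (S = 0 → Qge P i * x * Qlt P i = 0) := by
    intro i
    have hu := hx.Mi_unip hP i
    have hu1 : dt (Mi P i x) = 1 := dt_unip hP gt_trans' (fun i => lt_irrefl i) hu
    have hu2 : dt (star (Mi P i x)) = 1 :=
      dt_unip hP lt_trans' (fun i => lt_irrefl i) (star_unip hs hu)
    obtain ⟨u, hu3⟩ := hu.isUnit hP gt_trans' (fun i => lt_irrefl i)
    refine ⟨((u⁻¹ : (Op N)ˣ) : Op N) * (Qge P i * x * Qlt P i), ?_, ?_⟩
    · have e : Mi P i (x * star x) = (u : Op N) * (1 + ((u⁻¹ : (Op N)ˣ) : Op N) *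
          (Qge P i * x * Qlt P i) * star (((u⁻¹ : (Op N)ˣ) : Op N) * (Qge P i * x * Qlt P i))) *
          star (u : Op N) := by
        have e1 : (u : Op N) * (1 + ((u⁻¹ : (Op N)ˣ) : Op N) *
          (Qge P i * x * Qlt P i) * star (((u⁻¹ : (Op N)ˣ) : Op N) * (Qge P i * x * Qlt P i))) *
          star (u : Op N) = (u : Op N) * star (u : Op N) + (Qge P i * x * Qlt P i) *
            star (Qge P i * x * Qlt P i) := by
          have e2 : star ((u⁻¹ : (Op N)ˣ) : Op N) * star (u : Op N) = 1 := by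
            rw [← star_mul, Units.mul_inv, star_one]
          calc (u : Op N) * (1 + ((u⁻¹ : (Op N)ˣ) : Op N) *
              (Qge P i * x * Qlt P i) * star (((u⁻¹ : (Op N)ˣ) : Op N) *
                (Qge P i * x * Qlt P i))) * star (u : Op N)
              = (u : Op N) * star (u : Op N) + ((u : Op N) * ((u⁻¹ : (Op N)ˣ) : Op N)) *
                (Qge P i * x * Qlt P i) * star (Qge P i * x * Qlt P i) *
                (star ((u⁻¹ : (Op N)ˣ) : Op N) * star (u : Op N)) := by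
                rw [star_mul]; noncomm_ring
            _ = _ := by rw [e2, Units.mul_inv, one_mul, mul_one]
        rw [e1, hu3]
        simp only [Mi, st_add, star_mul, star_Qge hs, star_Qlt hs]
        have a1 := hP.Qge_idem i
        have a2 := hP.Qlt_idem i
        have a3 := hP.Qge_Qlt i
        have a4 := hP.Qlt_Qge i
        have a5 := hP.Q_add i
        have b1 : Qge P i * x * Qge P i * (Qge P i * (star x * Qge P i)) =
            Qge P i * x * Qge P i * (star x * Qge P i) := by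
          rw [← mul_assoc (Qge P i * x * Qge P i), mul_assoc (Qge P i * x), a1]
        have b2 : Qge P i * x * Qlt P i * (Qlt P i * (star x * Qge P i)) =
            Qge P i * x * Qlt P i * (star x * Qge P i) := by
          rw [← mul_assoc (Qge P i * x * Qlt P i), mul_assoc (Qge P i * x), a2]
        have b3 : Qge P i * x * Qge P i * Qlt P i = 0 := by rw [mul_assoc, a3, mul_zero]
        have b4 : Qlt P i * (Qge P i * (star x * Qge P i)) = 0 := by
          rw [← mul_assoc, a4, zero_mul]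
        rw [add_mul, mul_add, mul_add, b1, b2, b3, b4, a2, add_zero, zero_add]
        have : Qge P i * (x * star x) * Qge P i = Qge P i * x * (Qge P i + Qlt P i) *
            (star x * Qge P i) := by
          rw [a5, mul_one]; simp only [mul_assoc]
        rw [this, mul_add, add_mul]
        abel
      rw [e, dt_mul, dt_mul, hu3, hu2, hu1, one_mul, mul_one]
    · intro h0
      have := congrArg ((u : Op N) * ·) h0
      simpa [← mul_assoc] using this
  choose S hS1 hS2 using key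
  have h1 : ∀ i, dt (1 + S i * star (S i)) = 1 := by
    intro i
    by_contra hne
    have hgt : 1 < dt (1 + S i * star (S i)) :=
      lt_of_le_of_ne (dt_one_add (S i)).1 (Ne.symm hne)
    have : 1 < D P (x * star x) := by
      rw [D, ← Finset.prod_erase_mul _ _ (Finset.mem_univ i), hS1 i]
      have h7 : 1 ≤ ∏ k ∈ Finset.univ.erase i, dt (Mi P k (x * star x)) :=
        Finset.one_le_prod fun k _ => by rw [hS1 k]; exact (dt_one_add (S k)).1
      nlinarith
    linarith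
  refine hP.ext fun i j => ?_
  rcases eq_or_ne i j with rfl | hij
  · rw [hx.1, mul_one, hP.idem]
  rw [mul_one, hP.orth i j hij]
  by_cases hlt : j < i
  · have h2 := hS2 i ((dt_one_add (S i)).2 (h1 i))
    have h3 : P i * Qge P i = P i := by rw [hP.P_Qge, if_pos le_rfl]
    have h4 : Qlt P i * P j = P j := by rw [hP.Qlt_P, if_neg (not_le.2 hlt)]
    calc P i * x * P j = P i * Qge P i * x * (Qlt P i * P j) := by rw [h3, h4]
      _ = P i * (Qge P i * x * Qlt P i) * P j := by simp only [mul_assoc]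
      _ = 0 := by rw [h2, mul_zero, zero_mul]
  · exact hx.2 i j hij hlt

end DD

end Lox

end Pool.Agent.Lib.MP_d9b062_al

end

/-! ## from `MP_d9b062_al_h20.Lox2` -/

section
/-!
# The representation spanned by the translates of a polynomial function
-/

namespace Pool.Agent.Lib.MP_d9b062_al

namespace Lox

open NormedSpace Filter
open scoped Topology

variable {N : ℕ}

/-- the right translates of a polynomial function span a finite-dimensional space -/
lemma fg_translates {F : Op N → ℝ} (hF : F ∈ PolyFun (Op N)) :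
    ∃ U : Submodule ℝ (Op N → ℝ), U.FG ∧ ∀ T : Op N, (fun h => F (h * T)) ∈ U := by
  refine PolyFun.induction (p := fun F => ∃ U : Submodule ℝ (Op N → ℝ), U.FG ∧
    ∀ T : Op N, (fun h => F (h * T)) ∈ U) ?_ ?_ ?_ ?_ hF
  · intro φ
    let L : (Op N →ₗ[ℝ] ℝ) →ₗ[ℝ] (Op N → ℝ) :=
      { toFun := fun ψ => ψ, map_add' := fun _ _ => rfl, map_smul' := fun _ _ => rfl }
    refine ⟨LinearMap.range L, ?_, fun T => ⟨{
      toFun := fun h => φ (h * T)
      map_add' := fun a b => by rw [add_mul, map_add]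
      map_smul' := fun c a => by
        rw [show (c • a) * T = c • (a * T) from rfl, map_smul, RingHom.id_apply] }, ?_⟩⟩
    · have h1 : (⊤ : Submodule ℝ (Op N →ₗ[ℝ] ℝ)).FG := Module.Finite.fg_top
      have := h1.map L
      rwa [Submodule.map_top] at this
    · ext h; rfl
  · intro c
    refine ⟨Submodule.span ℝ {fun _ => c}, Submodule.fg_span_singleton _, fun T => ?_⟩
    exact Submodule.mem_span_singleton_self _
  · rintro f g ⟨U, hU, hf⟩ ⟨U', hU', hg⟩
    exact ⟨U ⊔ U', hU.sup hU', fun T => Submodule.add_mem_sup (hf T) (hg T)⟩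
  · rintro f g ⟨U, hU, hf⟩ ⟨U', hU', hg⟩
    exact ⟨U * U', hU.mul hU', fun T => Submodule.mul_mem_mul (hf T) (hg T)⟩

/-- the space spanned by the right translates, as a representation of `G` -/
theorem exists_rep (G : Subgroup (Op N)ˣ) {F : Op N → ℝ} (hF : F ∈ PolyFun (Op N)) :
    ∃ (d : ℕ) (ρ : G →* ((Fin d → ℝ) →L[ℝ] (Fin d → ℝ))) (val : (Fin d → ℝ) →ₗ[ℝ] (G → ℝ))
      (w0 : Fin d → ℝ), Function.Injective val ∧ (∀ g w h, val (ρ g w) h = val w (h * g)) ∧
      (∀ h : G, val w0 h = F ((h : (Op N)ˣ) : Op N)) ∧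
      (∀ U : Submodule ℝ (Fin d → ℝ), (∀ g, ρ g w0 ∈ U) → U = ⊤) ∧
      (∀ w, ∃ F' ∈ PolyFun (Op N), ∀ h : G, val w h = F' ((h : (Op N)ˣ) : Op N)) := by
  -- the functions on `G`
  let res : (Op N → ℝ) →ₗ[ℝ] (G → ℝ) := LinearMap.funLeft ℝ ℝ (fun g : G => ((g : (Op N)ˣ) : Op N))
  let R : G → ((G → ℝ) →ₗ[ℝ] (G → ℝ)) := fun g => LinearMap.funLeft ℝ ℝ (fun h => h * g)
  have hR : ∀ g f h, R g f h = f (h * g) := fun g f h => rfl
  let f0 : G → ℝ := res F
  let W0 : Submodule ℝ (G → ℝ) := Submodule.span ℝ (Set.range fun g => R g f0)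
  obtain ⟨U, hU, hUF⟩ := fg_translates hF
  have hW0 : FiniteDimensional ℝ W0 := by
    have h1 : W0 ≤ U.map res := by
      refine Submodule.span_le.2 ?_
      rintro _ ⟨g, rfl⟩
      refine ⟨_, hUF ((g : (Op N)ˣ) : Op N), ?_⟩
      ext h
      rfl
    have h2 : FiniteDimensional ℝ (U.map res) := Module.Finite.iff_fg.2 (hU.map res)
    exact Submodule.finiteDimensional_of_le h1
  have hstab : ∀ g, ∀ f ∈ W0, R g f ∈ W0 := by
    intro g f hf
    have : W0 ≤ W0.comap (R g) := by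
      refine Submodule.span_le.2 ?_
      rintro _ ⟨g', rfl⟩
      refine Submodule.subset_span ⟨g * g', ?_⟩
      ext h
      simp only [hR, mul_assoc]
    exact this hf
  have hpoly : ∀ f ∈ W0, ∃ F' ∈ PolyFun (Op N), ∀ h : G, f h = F' ((h : (Op N)ˣ) : Op N) := by
    intro f hf
    refine Submodule.span_induction (p := fun f _ => ∃ F' ∈ PolyFun (Op N), ∀ h : G,
      f h = F' ((h : (Op N)ˣ) : Op N)) ?_ ?_ ?_ ?_ hf
    · rintro _ ⟨g, rfl⟩
      exact ⟨_, PolyFun.comp hF (IsPolyMap.id.mul (IsPolyMap.const ((g : (Op N)ˣ) : Op N))),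
        fun h => rfl⟩
    · exact ⟨_, PolyFun.const 0, fun h => rfl⟩
    · rintro f g _ _ ⟨F', h1, h2⟩ ⟨F'', h3, h4⟩
      exact ⟨_, PolyFun.add h1 h3, fun h => by rw [Pi.add_apply, h2, h4]⟩
    · rintro a f _ ⟨F', h1, h2⟩
      exact ⟨_, PolyFun.mul (PolyFun.const a) h1, fun h => by
        rw [Pi.smul_apply, h2, smul_eq_mul]⟩
  let b := Module.finBasis ℝ W0
  let e : W0 ≃ₗ[ℝ] (Fin (Module.finrank ℝ W0) → ℝ) := b.equivFun
  let val : (Fin (Module.finrank ℝ W0) → ℝ) →ₗ[ℝ] (G → ℝ) := W0.subtype ∘ₗ e.symm.toLinearMap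
  have hval : Function.Injective val := W0.injective_subtype.comp e.symm.injective
  let r : G → ((Fin (Module.finrank ℝ W0) → ℝ) →L[ℝ] (Fin (Module.finrank ℝ W0) → ℝ)) :=
    fun g => LinearMap.toContinuousLinearMap
      (e.toLinearMap ∘ₗ ((R g).restrict (hstab g)) ∘ₗ e.symm.toLinearMap)
  have hr : ∀ g w h, val (r g w) h = val w (h * g) := by
    intro g w h
    change W0.subtype (e.symm (e ((R g).restrict (hstab g) (e.symm w)))) h = _
    rw [e.symm_apply_apply]
    rfl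
  have hr' : ∀ g w, val (r g w) = fun h => val w (h * g) := fun g w => funext (hr g w)
  refine ⟨Module.finrank ℝ W0, { toFun := r, map_one' := ?_, map_mul' := ?_ }, val,
    e ⟨f0, Submodule.subset_span ⟨1, by ext h; simp [hR]⟩⟩, hval, hr, ?_, ?_, ?_⟩
  · refine ContinuousLinearMap.ext fun w => hval ?_
    rw [hr']
    ext h
    simp
  · intro g g'
    refine ContinuousLinearMap.ext fun w => hval ?_
    change val (r (g * g') w) = val (r g (r g' w))
    rw [hr', hr', hr']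
    ext h
    simp only [mul_assoc]
  · intro h
    change W0.subtype (e.symm (e _)) h = _
    rw [e.symm_apply_apply]
    rfl
  · intro U hUg
    have h1 : W0 ≤ (U.comap e.toLinearMap).map W0.subtype := by
      refine Submodule.span_le.2 ?_
      rintro _ ⟨g, rfl⟩
      have hm : R g f0 ∈ W0 := Submodule.subset_span ⟨g, rfl⟩
      refine ⟨⟨R g f0, hm⟩, ?_, rfl⟩
      have := hUg g
      have h2 : e ⟨R g f0, hm⟩ = r g (e ⟨f0, Submodule.subset_span ⟨1, by ext h; simp [hR]⟩⟩) := by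
        refine hval ?_
        rw [hr']
        ext h
        change W0.subtype (e.symm (e _)) h = W0.subtype (e.symm (e _)) (h * g)
        rw [e.symm_apply_apply, e.symm_apply_apply]
        rfl
      change e ⟨R g f0, hm⟩ ∈ U
      rw [h2]
      exact this
    rw [eq_top_iff]
    intro w _
    obtain ⟨v, hv, hvw⟩ := h1 (e.symm w).2
    have h3 : v = e.symm w := Subtype.ext hvw
    rw [h3] at hv
    have h4 : e (e.symm w) ∈ U := hv
    rwa [e.apply_symm_apply] at h4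
  · intro w
    exact hpoly _ (e.symm w).2

end Lox

end Pool.Agent.Lib.MP_d9b062_al

end

/-! ## from `MP_d9b062_al.GM` -/

section
/-!
# The Goldsheid-Margulis theorem
-/

namespace Pool.Agent.Lib.MP_d9b062_al

open Filter Asymptotics
open scoped Topology

section InvForm

variable {r : ℕ}

private lemma continuous_star_op : Continuous
    (fun h : EuclideanSpace ℝ (Fin r) →L[ℝ] EuclideanSpace ℝ (Fin r) => star h) :=
  (ContinuousLinearMap.adjoint (𝕜 := ℝ) (E := EuclideanSpace ℝ (Fin r))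
    (F := EuclideanSpace ℝ (Fin r))).continuous

private instance instCS :
    ContinuousStar (EuclideanSpace ℝ (Fin r) →L[ℝ] EuclideanSpace ℝ (Fin r)) :=
  ⟨continuous_star_op⟩

private lemma conj_smul
    (A B X : EuclideanSpace ℝ (Fin r) →L[ℝ] EuclideanSpace ℝ (Fin r)) (c : ℝ) :
    A * (c • X) * B = c • (A * X * B) := by
  apply ContinuousLinearMap.ext
  intro v
  change A (c • X (B v)) = c • A (X (B v))
  rw [map_smul]

/-- Hilbert-Schmidt square norm. -/
private noncomputable def hs (X : EuclideanSpace ℝ (Fin r) →L[ℝ] EuclideanSpace ℝ (Fin r)) : ℝ :=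
  ∑ i, ‖X (EuclideanSpace.single i (1 : ℝ))‖ ^ 2

private lemma hs_continuous : Continuous (hs (r := r)) := by
  unfold hs
  fun_prop

private lemma hs_pos {X : EuclideanSpace ℝ (Fin r) →L[ℝ] EuclideanSpace ℝ (Fin r)} (h : X ≠ 0) :
    0 < hs X := by
  by_contra hcon
  apply h
  have h0 : hs X = 0 := le_antisymm (not_lt.mp hcon) (Finset.sum_nonneg fun i _ => by positivity)
  have h1 : ∀ i, X (EuclideanSpace.single i (1 : ℝ)) = 0 := by
    intro i
    have := (Finset.sum_eq_zero_iff_of_nonneg (fun i _ => by positivity)).1 h0 i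
      (Finset.mem_univ i)
    simpa using this
  apply ContinuousLinearMap.coe_injective
  refine (EuclideanSpace.basisFun (Fin r) ℝ).toBasis.ext fun i => ?_
  simpa using h1 i

private lemma hs_mid (X Y : EuclideanSpace ℝ (Fin r) →L[ℝ] EuclideanSpace ℝ (Fin r)) :
    hs ((1/2 : ℝ) • X + (1/2 : ℝ) • Y) = (hs X + hs Y) / 2 - hs (X - Y) / 4 := by
  unfold hs
  rw [← Finset.sum_add_distrib, Finset.sum_div, Finset.sum_div, ← Finset.sum_sub_distrib]
  refine Finset.sum_congr rfl fun i _ => ?_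
  set x := X (EuclideanSpace.single i (1 : ℝ))
  set y := Y (EuclideanSpace.single i (1 : ℝ))
  have h1 : ((1/2 : ℝ) • X + (1/2 : ℝ) • Y) (EuclideanSpace.single i (1 : ℝ)) =
    (1/2 : ℝ) • (x + y) := by simp [x, y]
  have h2 : (X - Y) (EuclideanSpace.single i (1 : ℝ)) = x - y := by simp [x, y]
  rw [h1, h2, norm_smul, mul_pow]
  have := parallelogram_law_with_norm ℝ x y
  norm_num
  nlinarith [this]

/-- A compact semigroup of invertible operators preserves a positive definite form. -/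
theorem exists_invariant_form (M : Set (EuclideanSpace ℝ (Fin r) →L[ℝ] EuclideanSpace ℝ (Fin r)))
    (hM : IsCompact M) (h1 : 1 ∈ M) (hmul : ∀ x ∈ M, ∀ y ∈ M, x * y ∈ M)
    (hinv : ∀ x ∈ M, IsUnit x) :
    ∃ X : EuclideanSpace ℝ (Fin r) →L[ℝ] EuclideanSpace ℝ (Fin r),
      (∀ v, v ≠ 0 → 0 < inner ℝ (X v) v) ∧ ∀ h ∈ M, star h * X * h = X := by
  classical
  set K := closure (convexHull ℝ ((fun h => star h * h) '' M)) with hKdef
  have hKc : IsCompact K := by
    have : Bornology.IsBounded (convexHull ℝ ((fun h => star h * h) '' M)) := by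
      rw [isBounded_convexHull]
      exact (hM.image (by fun_prop)).isBounded
    exact this.isCompact_closure
  have hKconv : Convex ℝ K := (convex_convexHull ℝ _).closure
  have hKne : K.Nonempty := by
    refine ⟨star 1 * 1, subset_closure (subset_convexHull ℝ _ ⟨1, h1, rfl⟩)⟩
  -- invariance of `K`
  have hKinv : ∀ h ∈ M, ∀ X ∈ K, star h * X * h ∈ K := by
    intro h hh X hX
    have hcont : Continuous
        (fun X : EuclideanSpace ℝ (Fin r) →L[ℝ] EuclideanSpace ℝ (Fin r) => star h * X * h) := by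
      fun_prop
    have hmaps : Set.MapsTo (fun X => star h * X * h)
        (convexHull ℝ ((fun h => star h * h) '' M)) (convexHull ℝ ((fun h => star h * h) '' M)) := by
      intro Y hY
      have hlin : IsLinearMap ℝ
        (fun X : EuclideanSpace ℝ (Fin r) →L[ℝ] EuclideanSpace ℝ (Fin r) => star h * X * h) :=
        ⟨by intro x y; simp only [mul_add, add_mul],
          by intro c x; rw [conj_smul]⟩
      have : (fun X => star h * X * h) '' (convexHull ℝ ((fun h => star h * h) '' M)) ⊆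
          convexHull ℝ ((fun h => star h * h) '' M) := by
        rw [hlin.image_convexHull]
        apply convexHull_mono
        rintro _ ⟨_, ⟨g, hg, rfl⟩, rfl⟩
        refine ⟨g * h, hmul g hg h hh, ?_⟩
        simp [mul_assoc]
      exact this ⟨Y, hY, rfl⟩
    exact hmaps.closure hcont hX
  -- the invariant norm
  set N : (EuclideanSpace ℝ (Fin r) →L[ℝ] EuclideanSpace ℝ (Fin r)) → ℝ :=
    fun X => sSup ((fun h => hs (star h * X * h)) '' M) with hNdef
  have hFc : Continuous (fun p : (EuclideanSpace ℝ (Fin r) →L[ℝ] EuclideanSpace ℝ (Fin r)) ×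
      (EuclideanSpace ℝ (Fin r) →L[ℝ] EuclideanSpace ℝ (Fin r)) =>
      hs (star p.2 * p.1 * p.2)) := by
    refine hs_continuous.comp ?_
    fun_prop
  have hNc : Continuous N :=
    hM.continuous_sSup (f := fun X h => hs (star h * X * h)) hFc
  have hNle : ∀ X, ∀ h ∈ M, hs (star h * X * h) ≤ N X := by
    intro X h hh
    refine le_csSup ?_ ⟨h, hh, rfl⟩
    exact hM.bddAbove_image (hFc.comp (Continuous.prodMk_right X)).continuousOn
  have hNat : ∀ X, ∃ h ∈ M, N X = hs (star h * X * h) := by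
    intro X
    obtain ⟨h, hh, h2⟩ := hM.exists_sSup_image_eq ⟨1, h1⟩
      (hFc.comp (Continuous.prodMk_right X)).continuousOn
    exact ⟨h, hh, h2⟩
  obtain ⟨X0, hX0K, hX0⟩ := hKc.exists_isMinOn hKne hNc.continuousOn
  refine ⟨X0, ?_, ?_⟩
  · -- positivity
    intro v hv
    obtain ⟨h0, hh0, hmin⟩ := hM.exists_isMinOn ⟨1, h1⟩
      (f := fun h : EuclideanSpace ℝ (Fin r) →L[ℝ] EuclideanSpace ℝ (Fin r) => ‖h v‖ ^ 2)
      (by fun_prop)
    have hpos : 0 < ‖h0 v‖ ^ 2 := by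
      have : h0 v ≠ 0 := by
        intro h
        apply hv
        obtain ⟨u, hu⟩ := hinv h0 hh0
        have : (↑u⁻¹ * (u : EuclideanSpace ℝ (Fin r) →L[ℝ] EuclideanSpace ℝ (Fin r))) v = 0 := by
          rw [mul_apply_eq_comp, hu, h, map_zero]
        simpa using this
      positivity
    have hsub : K ⊆ {X | ‖h0 v‖ ^ 2 ≤ inner ℝ (X v) v} := by
      refine closure_minimal (convexHull_min ?_ ?_) ?_
      · rintro _ ⟨g, hg, rfl⟩
        have : inner ℝ ((star g * g) v) v = ‖g v‖ ^ 2 := by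
          rw [mul_apply_eq_comp, ContinuousLinearMap.star_eq_adjoint,
            ContinuousLinearMap.adjoint_inner_left, real_inner_self_eq_norm_sq]
        simp only [Set.mem_ofPred_eq]
        rw [this]
        exact hmin hg
      · have : IsLinearMap ℝ
            (fun X : EuclideanSpace ℝ (Fin r) →L[ℝ] EuclideanSpace ℝ (Fin r) =>
              inner ℝ (X v) v) :=
          ⟨by intro x y; simp [inner_add_left], by intro c x; simp [inner_smul_left]⟩
        exact convex_halfSpace_ge this _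
      · exact isClosed_le continuous_const (by fun_prop)
    exact lt_of_lt_of_le hpos (hsub hX0K)
  · intro h hh
    by_contra hne
    set Y := star h * X0 * h with hY
    have hYK : Y ∈ K := hKinv h hh X0 hX0K
    have hNY : N Y ≤ N X0 := by
      obtain ⟨g, hg, hgN⟩ := hNat Y
      rw [hgN]
      have : star g * Y * g = star (h * g) * X0 * (h * g) := by
        rw [hY, star_mul]; simp only [mul_assoc]
      rw [this]
      exact hNle X0 _ (hmul h hh g hg)
    have hZK : (1/2 : ℝ) • X0 + (1/2 : ℝ) • Y ∈ K :=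
      hKconv hX0K hYK (by norm_num) (by norm_num) (by norm_num)
    obtain ⟨g, hg, hgN⟩ := hNat ((1/2 : ℝ) • X0 + (1/2 : ℝ) • Y)
    have e1 : star g * ((1/2 : ℝ) • X0 + (1/2 : ℝ) • Y) * g =
        (1/2 : ℝ) • (star g * X0 * g) + (1/2 : ℝ) • (star g * Y * g) := by
      rw [mul_add, add_mul, conj_smul, conj_smul]
    rw [e1, hs_mid] at hgN
    have hne2 : star g * X0 * g - star g * Y * g ≠ 0 := by
      rw [← sub_mul, ← mul_sub]
      intro h0
      have hgu := hinv g hg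
      have h3 := (hgu.mul_left_eq_zero).1 h0
      have h4 := (hgu.star.mul_right_eq_zero).1 h3
      exact hne (sub_eq_zero.1 h4).symm
    have h5 := hs_pos hne2
    have h6 := hNle X0 g hg
    have h7 := hNle Y g hg
    have h8 : N X0 ≤ N ((1/2 : ℝ) • X0 + (1/2 : ℝ) • Y) := hX0 hZK
    linarith

end InvForm

section GM

variable {W : Type*} [NormedAddCommGroup W] [NormedSpace ℝ W] [FiniteDimensional ℝ W]
  {𝒢 : Type*} [Group 𝒢]

/-- rank of an operator -/
private noncomputable def rk (A : W →L[ℝ] W) : ℕ :=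
  Module.finrank ℝ (LinearMap.range (A : W →ₗ[ℝ] W))

/-- The closed cone over `ρ(S)`. -/
private def cone (ρ : 𝒢 →* (W →L[ℝ] W)) (S : Subgroup 𝒢) : Set (W →L[ℝ] W) :=
  closure {A | ∃ c : ℝ, ∃ s ∈ S, A = c • ρ s}

omit [FiniteDimensional ℝ W] in
private lemma cone_mul {ρ : 𝒢 →* (W →L[ℝ] W)} {S : Subgroup 𝒢} {A B : W →L[ℝ] W}
    (hA : A ∈ cone ρ S) (hB : B ∈ cone ρ S) : A * B ∈ cone ρ S := by
  refine map_mem_closure₂ continuous_mul hA hB ?_
  rintro _ ⟨c, s, hs, rfl⟩ _ ⟨d, t, ht, rfl⟩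
  refine ⟨c * d, s * t, S.mul_mem hs ht, ?_⟩
  rw [map_mul]
  apply ContinuousLinearMap.ext
  intro v
  change c • ρ s (d • ρ t v) = (c * d) • ρ s (ρ t v)
  rw [map_smul, mul_smul]

omit [FiniteDimensional ℝ W] in
private lemma cone_smul {ρ : 𝒢 →* (W →L[ℝ] W)} {S : Subgroup 𝒢} {A : W →L[ℝ] W}
    (hA : A ∈ cone ρ S) (c : ℝ) : c • A ∈ cone ρ S := by
  refine map_mem_closure (continuous_const_smul c) hA ?_
  rintro _ ⟨d, s, hs, rfl⟩
  exact ⟨c * d, s, hs, by rw [smul_smul]⟩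

omit [FiniteDimensional ℝ W] in
private lemma cone_mem {ρ : 𝒢 →* (W →L[ℝ] W)} {S : Subgroup 𝒢} {s : 𝒢} (hs : s ∈ S) :
    ρ s ∈ cone ρ S := subset_closure ⟨1, s, hs, by rw [one_smul]⟩

/-- Factorization of an operator of rank `r` through `ℝ^r`. -/
private lemma exists_factor (p : W →L[ℝ] W) :
    ∃ (a : W →L[ℝ] EuclideanSpace ℝ (Fin (rk p))) (b : EuclideanSpace ℝ (Fin (rk p)) →L[ℝ] W),
      Function.Surjective a ∧ Function.Injective b ∧ p = b ∘L a := by
  let e : LinearMap.range (p : W →ₗ[ℝ] W) ≃L[ℝ] EuclideanSpace ℝ (Fin (rk p)) :=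
    ContinuousLinearEquiv.ofFinrankEq (by rw [finrank_euclideanSpace_fin]; rfl)
  let a0 : W →L[ℝ] LinearMap.range (p : W →ₗ[ℝ] W) :=
    LinearMap.toContinuousLinearMap (LinearMap.rangeRestrict (p : W →ₗ[ℝ] W))
  refine ⟨e.toContinuousLinearMap ∘L a0,
    (Submodule.subtypeL (LinearMap.range (p : W →ₗ[ℝ] W))) ∘L e.symm.toContinuousLinearMap,
    ?_, ?_, ?_⟩
  · have h0 : Function.Surjective a0 := LinearMap.surjective_rangeRestrict (p : W →ₗ[ℝ] W)
    exact e.surjective.comp h0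
  · exact Subtype.val_injective.comp e.symm.injective
  · apply ContinuousLinearMap.ext
    intro v
    simp [a0]

/-- Descending step of the Goldsheid-Margulis theorem: the elements of minimal rank. -/
private theorem gm_step (ρ : 𝒢 →* (W →L[ℝ] W)) (S : Subgroup 𝒢)
    (hZ : ∀ F ∈ PolyFun (W →L[ℝ] W), (∀ s ∈ S, F (ρ s) = 0) → ∀ g, F (ρ g) = 0)
    (hirr : ∀ U : Submodule ℝ W, (∀ g, ∀ v ∈ U, ρ g v ∈ U) → U = ⊥ ∨ U = ⊤)
    (π : W →L[ℝ] W) (hπ : π ∈ closure {A | ∃ c : ℝ, ∃ g : 𝒢, A = c • ρ g}) (hπ0 : π ≠ 0)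
    (hπr : rk π ≤ 1)
    (r : ℕ) (hr : 2 ≤ r) (a : W →L[ℝ] EuclideanSpace ℝ (Fin r))
    (b : EuclideanSpace ℝ (Fin r) →L[ℝ] W) (ha : Function.Surjective a)
    (hb : Function.Injective b) (hp : b ∘L a ∈ cone ρ S)
    (hmin : ∀ q ∈ cone ρ S, q ≠ 0 → r ≤ rk q) : False := by
  classical
  set Θ : (W →L[ℝ] W) → (EuclideanSpace ℝ (Fin r) →L[ℝ] EuclideanSpace ℝ (Fin r)) :=
    fun A => a ∘L A ∘L b with hΘ
  have hΘc : Continuous Θ := by
    rw [hΘ]; fun_prop
  set H := closure (Θ '' cone ρ S) with hH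
  have hHmul : ∀ x ∈ H, ∀ y ∈ H, x * y ∈ H := by
    intro x hx y hy
    refine map_mem_closure₂ continuous_mul hx hy ?_
    rintro _ ⟨A, hA, rfl⟩ _ ⟨B, hB, rfl⟩
    exact ⟨A * (b ∘L a) * B, cone_mul (cone_mul hA hp) hB, rfl⟩
  have hHsmul : ∀ x ∈ H, ∀ c : ℝ, c • x ∈ H := by
    intro x hx c
    refine map_mem_closure (continuous_const_smul c) hx ?_
    rintro _ ⟨A, hA, rfl⟩
    refine ⟨c • A, cone_smul hA c, ?_⟩
    apply ContinuousLinearMap.ext
    intro v
    change a (c • A (b v)) = c • a (A (b v))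
    rw [map_smul]
  have hHι : ∀ x ∈ H, b ∘L x ∘L a ∈ cone ρ S := by
    intro x hx
    have hc : Continuous (fun x : EuclideanSpace ℝ (Fin r) →L[ℝ] EuclideanSpace ℝ (Fin r) =>
        b ∘L x ∘L a) := by fun_prop
    have hcl : IsClosed (cone ρ S) := isClosed_closure
    have hsub : H ⊆ (fun x => b ∘L x ∘L a) ⁻¹' cone ρ S := by
      refine closure_minimal ?_ (hcl.preimage hc)
      rintro _ ⟨A, hA, rfl⟩
      exact cone_mul (cone_mul hp hA) hp
    exact hsub hx
  have hHunit : ∀ x ∈ H, x ≠ 0 → IsUnit x := by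
    intro x hx hx0
    have h1 : b ∘L x ∘L a ≠ 0 := by
      intro h0
      apply hx0
      apply ContinuousLinearMap.ext
      intro v
      obtain ⟨w, rfl⟩ := ha v
      apply hb
      have := congrArg (fun T : W →L[ℝ] W => T w) h0
      simpa using this
    have h2 := hmin _ (hHι x hx) h1
    have h3 : rk (b ∘L x ∘L a) ≤ Module.finrank ℝ (LinearMap.range
        (x : EuclideanSpace ℝ (Fin r) →ₗ[ℝ] EuclideanSpace ℝ (Fin r))) := by
      unfold rk
      have : LinearMap.range ((b ∘L x ∘L a : W →L[ℝ] W) : W →ₗ[ℝ] W) ≤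
          (LinearMap.range (x : EuclideanSpace ℝ (Fin r) →ₗ[ℝ] EuclideanSpace ℝ (Fin r))).map
            (b : EuclideanSpace ℝ (Fin r) →ₗ[ℝ] W) := by
        rintro _ ⟨w, rfl⟩
        exact ⟨x (a w), ⟨a w, rfl⟩, rfl⟩
      exact (Submodule.finrank_mono this).trans (Submodule.finrank_map_le _ _)
    have h4 : LinearMap.range (x : EuclideanSpace ℝ (Fin r) →ₗ[ℝ] EuclideanSpace ℝ (Fin r)) =
        ⊤ := by
      apply Submodule.eq_top_of_finrank_eq
      apply le_antisymm (Submodule.finrank_le _)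
      rw [finrank_euclideanSpace_fin]
      exact h2.trans h3
    have h5 : Function.Surjective x := LinearMap.range_eq_top.1 h4
    have h6 : Function.Injective x :=
      (LinearMap.injective_iff_surjective
        (f := (x : EuclideanSpace ℝ (Fin r) →ₗ[ℝ] EuclideanSpace ℝ (Fin r)))).2 h5
    exact ContinuousLinearMap.isUnit_iff_bijective.2 ⟨h6, h5⟩
  have hdet : ∀ x ∈ H, x ≠ 0 → x.det ≠ 0 := by
    intro x hx hx0 h0
    have h1 := hHunit x hx hx0
    have h2 : IsUnit (LinearMap.det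
      (x : EuclideanSpace ℝ (Fin r) →ₗ[ℝ] EuclideanSpace ℝ (Fin r))) := by
      apply LinearMap.isUnit_det
      obtain ⟨u, rfl⟩ := h1
      refine ⟨⟨((u : EuclideanSpace ℝ (Fin r) →L[ℝ] EuclideanSpace ℝ (Fin r)) : _ →ₗ[ℝ] _),
        ((u⁻¹ : (EuclideanSpace ℝ (Fin r) →L[ℝ] EuclideanSpace ℝ (Fin r))ˣ) : _ →ₗ[ℝ] _),
        ?_, ?_⟩, rfl⟩
      · ext v : 1
        have := congrArg (fun T : EuclideanSpace ℝ (Fin r) →L[ℝ] EuclideanSpace ℝ (Fin r) => T v)
          u.mul_inv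
        exact this
      · ext v : 1
        have := congrArg (fun T : EuclideanSpace ℝ (Fin r) →L[ℝ] EuclideanSpace ℝ (Fin r) => T v)
          u.inv_mul
        exact this
    exact h2.ne_zero h0
  have hdetc : Continuous
      (fun x : EuclideanSpace ℝ (Fin r) →L[ℝ] EuclideanSpace ℝ (Fin r) => x.det) :=
    ContinuousLinearMap.continuous_det
  have hdetsmul : ∀ (c : ℝ) (x : EuclideanSpace ℝ (Fin r) →L[ℝ] EuclideanSpace ℝ (Fin r)),
      (c • x).det = c ^ r * x.det := by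
    intro c x
    have := LinearMap.det_smul c (x : EuclideanSpace ℝ (Fin r) →ₗ[ℝ] EuclideanSpace ℝ (Fin r))
    rw [finrank_euclideanSpace_fin] at this
    exact this
  have hdetmul : ∀ (x y : EuclideanSpace ℝ (Fin r) →L[ℝ] EuclideanSpace ℝ (Fin r)),
      (x * y).det = x.det * y.det := fun x y =>
    LinearMap.det_comp (x : EuclideanSpace ℝ (Fin r) →ₗ[ℝ] EuclideanSpace ℝ (Fin r))
      (y : EuclideanSpace ℝ (Fin r) →ₗ[ℝ] EuclideanSpace ℝ (Fin r))
  -- lower bound for the determinant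
  obtain ⟨δ, hδ, hδb⟩ : ∃ δ > 0, ∀ x ∈ H, δ * ‖x‖ ^ r ≤ |x.det| := by
    rcases (H ∩ Metric.sphere 0 1).eq_empty_or_nonempty with hem | hne
    · refine ⟨1, one_pos, ?_⟩
      intro x hx
      have hx0 : x = 0 := by
        by_contra hx0
        have : ‖x‖⁻¹ • x ∈ H ∩ Metric.sphere 0 1 := by
          refine ⟨hHsmul x hx _, ?_⟩
          rw [mem_sphere_zero_iff_norm, norm_smul, norm_inv, norm_norm,
            inv_mul_cancel₀ (norm_ne_zero_iff.2 hx0)]
        rw [hem] at this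
        exact this
      rw [hx0, norm_zero, zero_pow (by omega), mul_zero]
      exact abs_nonneg _
    · have hcomp : IsCompact (H ∩ Metric.sphere 0 1) :=
        (isCompact_sphere 0 1).inter_left isClosed_closure
      obtain ⟨x0, hx0, hx0min⟩ := hcomp.exists_isMinOn hne
        (f := fun x : EuclideanSpace ℝ (Fin r) →L[ℝ] EuclideanSpace ℝ (Fin r) => |x.det|)
        (hdetc.abs.continuousOn)
      refine ⟨|x0.det|, ?_, ?_⟩
      · rw [gt_iff_lt, abs_pos]
        apply hdet x0 hx0.1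
        intro h
        have := hx0.2
        rw [mem_sphere_zero_iff_norm, h, norm_zero] at this
        exact zero_ne_one this
      · intro x hx
        by_cases hx0' : x = 0
        · rw [hx0', norm_zero, zero_pow (by omega), mul_zero]
          exact abs_nonneg _
        · have hxn : 0 < ‖x‖ := norm_pos_iff.2 hx0'
          have h1 : ‖x‖⁻¹ • x ∈ H ∩ Metric.sphere 0 1 := by
            refine ⟨hHsmul x hx _, ?_⟩
            rw [mem_sphere_zero_iff_norm, norm_smul, norm_inv, norm_norm,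
              inv_mul_cancel₀ hxn.ne']
          have h2 : |x0.det| ≤ |(‖x‖⁻¹ • x).det| := hx0min h1
          rw [hdetsmul, abs_mul, abs_of_pos (by positivity : (0:ℝ) < ‖x‖⁻¹ ^ r), inv_pow] at h2
          have h3 : (‖x‖ ^ r)⁻¹ * |x.det| * ‖x‖ ^ r = |x.det| := by
            field_simp
          calc |x0.det| * ‖x‖ ^ r ≤ (‖x‖ ^ r)⁻¹ * |x.det| * ‖x‖ ^ r := by gcongr
            _ = |x.det| := h3
  -- the compact semigroup
  set M : Set (EuclideanSpace ℝ (Fin r) →L[ℝ] EuclideanSpace ℝ (Fin r)) :=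
    insert 1 (H ∩ {x | |x.det| = 1}) with hM
  have hdet1 : (1 : EuclideanSpace ℝ (Fin r) →L[ℝ] EuclideanSpace ℝ (Fin r)).det = 1 :=
    LinearMap.det_id
  have hMc : IsCompact M := by
    refine IsCompact.insert ?_ 1
    have hcl : IsClosed (H ∩ {x | |x.det| = 1}) :=
      isClosed_closure.inter (isClosed_eq hdetc.abs continuous_const)
    refine Metric.isCompact_of_isClosed_isBounded hcl ?_
    rw [isBounded_iff_forall_norm_le]
    refine ⟨max 1 (1 / δ), ?_⟩
    rintro x ⟨hx, hx1⟩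
    have hx1' : |x.det| = 1 := hx1
    have h1 := hδb x hx
    rw [hx1'] at h1
    by_contra hcon
    push Not at hcon
    have h2 : 1 < ‖x‖ := (le_max_left _ _).trans_lt hcon
    have h3 : 1 / δ < ‖x‖ := (le_max_right _ _).trans_lt hcon
    have h4 : ‖x‖ ≤ ‖x‖ ^ r := le_self_pow₀ h2.le (by omega)
    have h5 : 1 < δ * ‖x‖ := by
      rw [div_lt_iff₀ hδ] at h3
      linarith
    have h6 : δ * ‖x‖ ≤ δ * ‖x‖ ^ r := by gcongr
    linarith
  have hMmul : ∀ x ∈ M, ∀ y ∈ M, x * y ∈ M := by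
    rintro x (rfl | ⟨hx, hx1⟩) y (rfl | ⟨hy, hy1⟩)
    · rw [one_mul]; exact Or.inl rfl
    · rw [one_mul]; exact Or.inr ⟨hy, hy1⟩
    · rw [mul_one]; exact Or.inr ⟨hx, hx1⟩
    · refine Or.inr ⟨hHmul x hx y hy, ?_⟩
      have hx1' : |x.det| = 1 := hx1
      have hy1' : |y.det| = 1 := hy1
      change |(x * y).det| = 1
      rw [hdetmul, abs_mul, hx1', hy1', one_mul]
  have hMinv : ∀ x ∈ M, IsUnit x := by
    rintro x (rfl | ⟨hx, hx1⟩)
    · exact isUnit_one
    · apply hHunit x hx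
      rintro rfl
      have hx1' : |(0 : EuclideanSpace ℝ (Fin r) →L[ℝ] EuclideanSpace ℝ (Fin r)).det| = 1 := hx1
      have h0 : (0 : EuclideanSpace ℝ (Fin r) →L[ℝ] EuclideanSpace ℝ (Fin r)).det = 0 := by
        have h00 : (0 : ℝ) • (0 : EuclideanSpace ℝ (Fin r) →L[ℝ] EuclideanSpace ℝ (Fin r)) = 0 := by
          apply ContinuousLinearMap.ext
          intro v
          exact smul_zero (0 : ℝ)
        have := hdetsmul 0 0
        rw [h00, zero_pow (by omega), zero_mul] at this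
        exact this
      rw [h0, abs_zero] at hx1'
      exact zero_ne_one hx1'
  obtain ⟨X, hXpos, hXinv⟩ := exists_invariant_form M hMc (Or.inl rfl) hMmul hMinv
  set q : EuclideanSpace ℝ (Fin r) → ℝ := fun v => inner ℝ (X v) v with hq
  -- every element of `H` is a similarity of `q`
  have hsim : ∀ h ∈ H, ∀ x y, q (h x) * q y = q (h y) * q x := by
    intro h hh x y
    by_cases h0 : h = 0
    · simp [h0, hq]
    have hd := hdet h hh h0
    have hdp : 0 < |h.det| := abs_pos.2 hd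
    set c : ℝ := (|h.det|⁻¹) ^ ((r : ℝ)⁻¹) with hc
    have hc0 : 0 < c := Real.rpow_pos_of_pos (inv_pos.2 hdp) _
    have hcr : c ^ r = |h.det|⁻¹ :=
      Real.rpow_inv_natCast_pow (inv_pos.2 hdp).le (by omega)
    have hcM : c • h ∈ M := by
      refine Or.inr ⟨hHsmul h hh c, ?_⟩
      change |(c • h).det| = 1
      rw [hdetsmul, abs_mul, abs_of_pos (pow_pos hc0 r), hcr, inv_mul_cancel₀ hdp.ne']
    have h1 := hXinv _ hcM
    have h2 : ∀ v, c ^ 2 * q (h v) = q v := by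
      intro v
      have : inner ℝ ((star (c • h) * X * (c • h)) v) v = c ^ 2 * q (h v) := by
        rw [mul_apply_eq_comp, mul_apply_eq_comp, ContinuousLinearMap.star_eq_adjoint,
          ContinuousLinearMap.adjoint_inner_left]
        simp only [hq, smul_apply, map_smul, inner_smul_left,
          inner_smul_right, conj_trivial]
        ring
      rw [← this, h1]
    have hc2 : c ^ 2 ≠ 0 := by positivity
    have h3 := h2 x
    have h4 := h2 y
    rw [← h3, ← h4]
    ring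
  -- hence, by Zariski density, so are all `Θ (ρ g)`
  have hpolyq : ∀ x, (fun A : W →L[ℝ] W => q (Θ A x)) ∈ PolyFun (W →L[ℝ] W) := by
    intro x
    let L : (W →L[ℝ] W) →ₗ[ℝ] EuclideanSpace ℝ (Fin r) :=
      { toFun := fun A => a (A (b x))
        map_add' := fun A B => by simp
        map_smul' := fun c A => by simp }
    let B : EuclideanSpace ℝ (Fin r) →ₗ[ℝ] EuclideanSpace ℝ (Fin r) →ₗ[ℝ] ℝ :=
      LinearMap.mk₂ ℝ (fun v w => inner ℝ (X v) w) (by intros; simp [inner_add_left])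
        (by intros; simp [inner_smul_left]) (by intros; simp [inner_add_right])
        (by intros; simp [inner_smul_right])
    have := IsPolyMap.bilin B (IsPolyMap.linear L) (IsPolyMap.linear L)
    exact this.polyFun
  have hsimg : ∀ (g : 𝒢) x y, q (Θ (ρ g) x) * q y = q (Θ (ρ g) y) * q x := by
    intro g x y
    have hP : (fun A : W →L[ℝ] W => q (Θ A x) * q y - q (Θ A y) * q x) ∈ PolyFun (W →L[ℝ] W) :=
      PolyFun.sub (PolyFun.mul (hpolyq x) (PolyFun.const _))
        (PolyFun.mul (hpolyq y) (PolyFun.const _))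
    have := hZ _ hP (fun s hs => by
      rw [sub_eq_zero]
      exact hsim _ (subset_closure ⟨ρ s, cone_mem hs, rfl⟩) x y) g
    exact sub_eq_zero.1 this
  have hsimcl : ∀ A ∈ closure {A | ∃ c : ℝ, ∃ g : 𝒢, A = c • ρ g}, ∀ x y,
      q (Θ A x) * q y = q (Θ A y) * q x := by
    intro A hA x y
    have hcl : IsClosed {A : W →L[ℝ] W | q (Θ A x) * q y = q (Θ A y) * q x} := by
      refine isClosed_eq ?_ ?_
      · exact (PolyFun.continuous (hpolyq x)).mul continuous_const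
      · exact (PolyFun.continuous (hpolyq y)).mul continuous_const
    refine closure_minimal ?_ hcl hA
    rintro _ ⟨c, g, rfl⟩
    have h1 : ∀ v, q (Θ (c • ρ g) v) = c ^ 2 * q (Θ (ρ g) v) := by
      intro v
      have : Θ (c • ρ g) v = c • Θ (ρ g) v := by simp [hΘ]
      rw [this]
      simp only [hq, map_smul, inner_smul_left, inner_smul_right, conj_trivial]
      ring
    change q (Θ (c • ρ g) x) * q y = q (Θ (c • ρ g) y) * q x
    rw [h1, h1, mul_assoc, hsimg g x y, mul_assoc]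
  -- so `Θ` kills the rank one limits
  have hq0 : q 0 = 0 := by simp [hq]
  have hqz : ∀ v, q v = 0 → v = 0 := by
    intro v hv
    by_contra h
    exact (hXpos v h).ne' hv
  have hkill : ∀ A ∈ closure {A | ∃ c : ℝ, ∃ g : 𝒢, A = c • ρ g}, rk A ≤ 1 → Θ A = 0 := by
    intro A hA hAr
    have hninj : ¬ Function.Injective (Θ A) := by
      intro hinj
      have h1 : Module.finrank ℝ (LinearMap.range
          (Θ A : EuclideanSpace ℝ (Fin r) →ₗ[ℝ] EuclideanSpace ℝ (Fin r))) = r := by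
        have := LinearMap.finrank_range_of_inj
          (f := (Θ A : EuclideanSpace ℝ (Fin r) →ₗ[ℝ] EuclideanSpace ℝ (Fin r))) hinj
        rw [this, finrank_euclideanSpace_fin]
      have h2 : LinearMap.range
          (Θ A : EuclideanSpace ℝ (Fin r) →ₗ[ℝ] EuclideanSpace ℝ (Fin r)) ≤
          (LinearMap.range (A : W →ₗ[ℝ] W)).map (a : W →ₗ[ℝ] EuclideanSpace ℝ (Fin r)) := by
        rintro _ ⟨w, rfl⟩
        exact ⟨A (b w), ⟨b w, rfl⟩, rfl⟩
      have h3 := (Submodule.finrank_mono h2).trans (Submodule.finrank_map_le _ _)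
      rw [h1] at h3
      have h4 : r ≤ 1 := h3.trans hAr
      omega
    obtain ⟨x, hx, hx0⟩ : ∃ x, Θ A x = 0 ∧ x ≠ 0 := by
      by_contra hcon
      push Not at hcon
      exact hninj ((injective_iff_map_eq_zero (Θ A)).2 hcon)
    apply ContinuousLinearMap.ext
    intro y
    have h1 := hsimcl A hA x y
    rw [hx, hq0, zero_mul] at h1
    have h2 : q x ≠ 0 := fun h => hx0 (hqz x h)
    have h3 : q (Θ A y) = 0 := by
      rcases mul_eq_zero.1 h1.symm with h | h
      · exact h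
      · exact absurd h h2
    exact hqz _ h3
  have hkill2 : ∀ g g' : 𝒢, ∀ v, a (ρ g (π (ρ g' (b v)))) = 0 := by
    intro g g' v
    have h1 : ρ g * π * ρ g' ∈ closure {A | ∃ c : ℝ, ∃ g : 𝒢, A = c • ρ g} := by
      have hc : Continuous (fun A : W →L[ℝ] W => ρ g * A * ρ g') := by fun_prop
      refine map_mem_closure (f := fun A : W →L[ℝ] W => ρ g * A * ρ g') hc hπ ?_
      rintro _ ⟨c, k, rfl⟩
      refine ⟨c, g * k * g', ?_⟩
      rw [map_mul, map_mul]
      apply ContinuousLinearMap.ext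
      intro v
      change ρ g (c • ρ k (ρ g' v)) = c • ρ g (ρ k (ρ g' v))
      rw [map_smul]
    have h2 : rk (ρ g * π * ρ g') ≤ 1 := by
      refine le_trans ?_ hπr
      have : LinearMap.range ((ρ g * π * ρ g' : W →L[ℝ] W) : W →ₗ[ℝ] W) ≤
          (LinearMap.range (π : W →ₗ[ℝ] W)).map (ρ g : W →ₗ[ℝ] W) := by
        rintro _ ⟨w, rfl⟩
        exact ⟨π (ρ g' w), ⟨ρ g' w, rfl⟩, rfl⟩
      exact (Submodule.finrank_mono this).trans (Submodule.finrank_map_le _ _)
    have h3 := hkill _ h1 h2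
    have := congrArg (fun T : EuclideanSpace ℝ (Fin r) →L[ℝ] EuclideanSpace ℝ (Fin r) => T v) h3
    exact this
  -- irreducibility, twice
  have hspan : ∀ (P : W → Prop), (∀ x y, P x → P y → P (x + y)) → (∀ (c : ℝ) x, P x → P (c • x)) →
      P 0 → (∀ g x, P x → P (ρ g x)) → (∃ x, x ≠ 0 ∧ P x) → ∀ x, P x := by
    intro P hadd hsmul h0 hg hex x
    let U : Submodule ℝ W :=
      { carrier := {x | P x}
        add_mem' := fun {x y} hx hy => hadd x y hx hy
        zero_mem' := h0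
        smul_mem' := fun c x hx => hsmul c x hx }
    rcases hirr U (fun g v hv => hg g v hv) with hU | hU
    · obtain ⟨x, hx0, hx⟩ := hex
      have : x ∈ U := hx
      rw [hU] at this
      exact absurd ((Submodule.mem_bot ℝ).1 this) hx0
    · have : x ∈ U := by rw [hU]; trivial
      exact this
  have hr0 : ∃ v : EuclideanSpace ℝ (Fin r), v ≠ 0 := by
    have : Nontrivial (EuclideanSpace ℝ (Fin r)) := by
      have : Nonempty (Fin r) := ⟨⟨0, by omega⟩⟩
      infer_instance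
    exact exists_ne 0
  obtain ⟨v0, hv0⟩ := hr0
  have hbv0 : b v0 ≠ 0 := fun h => hv0 (hb (by rw [h, map_zero]))
  have hk1 : ∀ w : W, ∀ g g' : 𝒢, a (ρ g (π (ρ g' w))) = 0 := by
    refine hspan (fun w => ∀ g g' : 𝒢, a (ρ g (π (ρ g' w))) = 0) ?_ ?_ ?_ ?_ ⟨b v0, hbv0, ?_⟩
    · intro x y hx hy g g'
      simp [hx g g', hy g g']
    · intro c x hx g g'
      simp [hx g g']
    · intro g g'; simp
    · intro k x hx g g'
      have := hx g (g' * k)
      rw [map_mul] at this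
      exact this
    · intro g g'; exact hkill2 g g' v0
  obtain ⟨w0, hw0⟩ : ∃ w, π w ≠ 0 := by
    by_contra hcon
    push Not at hcon
    exact hπ0 (ContinuousLinearMap.ext hcon)
  have hk2 : ∀ w : W, ∀ g : 𝒢, a (ρ g w) = 0 := by
    refine hspan (fun w => ∀ g : 𝒢, a (ρ g w) = 0) ?_ ?_ ?_ ?_ ⟨π w0, hw0, ?_⟩
    · intro x y hx hy g
      simp [hx g, hy g]
    · intro c x hx g
      simp [hx g]
    · intro g; simp
    · intro k x hx g
      have := hx (g * k)
      rw [map_mul] at this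
      exact this
    · intro g
      have := hk1 w0 g 1
      rw [map_one] at this
      exact this
  obtain ⟨w1, hw1⟩ := ha v0
  have := hk2 w1 1
  rw [map_one] at this
  exact hv0 (hw1 ▸ this)

/-- Let `ρ` be an irreducible representation of a group `𝒢` on a finite-dimensional space `W`, and
`S` a subgroup which is Zariski dense (for polynomials on `End W`).  If some sequence in `ρ(𝒢)`,
suitably normalized, converges to an operator of rank one, then so does some sequence in `ρ(S)`. -/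
theorem exists_rank_one_limit {W : Type*} [NormedAddCommGroup W] [NormedSpace ℝ W]
    [FiniteDimensional ℝ W] {𝒢 : Type*} [Group 𝒢] (ρ : 𝒢 →* (W →L[ℝ] W)) (S : Subgroup 𝒢)
    (hZ : ∀ F ∈ PolyFun (W →L[ℝ] W), (∀ s ∈ S, F (ρ s) = 0) → ∀ g, F (ρ g) = 0)
    (hirr : ∀ U : Submodule ℝ W, (∀ g, ∀ v ∈ U, ρ g v ∈ U) → U = ⊥ ∨ U = ⊤)
    (hprox : ∃ (g : ℕ → 𝒢) (c : ℕ → ℝ) (p : W →L[ℝ] W),
      Tendsto (fun n => c n • ρ (g n)) atTop (𝓝 p) ∧ p ≠ 0 ∧
      Module.finrank ℝ (LinearMap.range (p : W →ₗ[ℝ] W)) ≤ 1) :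
    ∃ (s : ℕ → 𝒢) (c : ℕ → ℝ) (p : W →L[ℝ] W), (∀ n, s n ∈ S) ∧
      Tendsto (fun n => c n • ρ (s n)) atTop (𝓝 p) ∧ p ≠ 0 ∧
      Module.finrank ℝ (LinearMap.range (p : W →ₗ[ℝ] W)) ≤ 1 := by
  classical
  obtain ⟨g, c, π, hlim, hπ0, hπr⟩ := hprox
  have hπ : π ∈ closure {A | ∃ c : ℝ, ∃ g : 𝒢, A = c • ρ g} :=
    mem_closure_of_tendsto hlim (Eventually.of_forall fun n => ⟨c n, g n, rfl⟩)
  have hne : Nontrivial (W →L[ℝ] W) := ⟨⟨π, 0, hπ0⟩⟩
  obtain ⟨p, ⟨hpc, hp0⟩, hmin⟩ := (measure (rk (W := W))).wf.has_min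
    {A | A ∈ cone ρ S ∧ A ≠ 0} ⟨1, by
      have := cone_mem (ρ := ρ) S.one_mem
      rwa [map_one] at this, one_ne_zero⟩
  have hmin' : ∀ q ∈ cone ρ S, q ≠ 0 → rk p ≤ rk q := by
    intro q hq hq0
    exact not_lt.1 (hmin q ⟨hq, hq0⟩)
  rcases le_or_gt (rk p) 1 with hr | hr
  · obtain ⟨x, hx, hxl⟩ := mem_closure_iff_seq_limit.1 hpc
    choose d s hs hxe using hx
    refine ⟨s, d, p, hs, ?_, hp0, hr⟩
    have : x = fun n => d n • ρ (s n) := funext hxe
    rwa [this] at hxl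
  · exfalso
    obtain ⟨a, b, ha, hb, hpab⟩ := exists_factor p
    exact gm_step ρ S hZ hirr π hπ hπ0 hπr (rk p) hr a b ha hb (hpab ▸ hpc) hmin'

end GM

end Pool.Agent.Lib.MP_d9b062_al

end

/-! ## from `MP_d9b062_al_h20.Lox` -/

section
/-!
# The first loxodromic sequence
-/

namespace Pool.Agent.Lib.MP_d9b062_al

namespace Lox

open NormedSpace Filter
open scoped Topology

variable {N : ℕ}

/-! ### functionals separating points -/

lemma dual_span {E : Type*} [AddCommGroup E] [Module ℝ E] [FiniteDimensional ℝ E] {K : Type*}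
    (L : K → Module.Dual ℝ E) (h : ∀ v, (∀ k, L k v = 0) → v = 0) :
    Submodule.span ℝ (Set.range L) = ⊤ := by
  have h1 : (Submodule.span ℝ (Set.range L)).dualCoannihilator = ⊥ := by
    rw [Submodule.eq_bot_iff]
    intro v hv
    refine h v fun k => ?_
    rw [Submodule.mem_dualCoannihilator] at hv
    exact hv _ (Submodule.subset_span ⟨k, rfl⟩)
  have h2 := Subspace.dualCoannihilator_dualAnnihilator_eq
    (W := Submodule.span ℝ (Set.range L))
  rw [← h2, h1, Submodule.dualAnnihilator_bot]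

section Emb

variable {d : ℕ} {X : Type*}

/-- matrix coefficients -/
def coef (val : X → (Fin d → ℝ) →ₗ[ℝ] ℝ) :
    ((Fin d → ℝ) →L[ℝ] (Fin d → ℝ)) →ₗ[ℝ] ((Fin d → ℝ) × X → ℝ) where
  toFun A p := val p.2 (A p.1)
  map_add' A B := by ext p; simp
  map_smul' a A := by ext p; simp

lemma coef_embedding {val : X → (Fin d → ℝ) →ₗ[ℝ] ℝ} (h : ∀ w, (∀ x, val x w = 0) → w = 0) :
    Topology.IsClosedEmbedding (coef val) := by
  refine LinearMap.isClosedEmbedding_of_injective ?_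
  rw [LinearMap.ker_eq_bot']
  intro A hA
  refine ContinuousLinearMap.ext fun w => h _ fun x => ?_
  exact congrFun hA (w, x)

lemma coef_tendsto {val : X → (Fin d → ℝ) →ₗ[ℝ] ℝ} (h : ∀ w, (∀ x, val x w = 0) → w = 0)
    {κ : Type*} {l : Filter κ} {A : κ → ((Fin d → ℝ) →L[ℝ] (Fin d → ℝ))}
    {B : (Fin d → ℝ) →L[ℝ] (Fin d → ℝ)}
    (hA : ∀ w x, Tendsto (fun n => val x (A n w)) l (𝓝 (val x (B w)))) : Tendsto A l (𝓝 B) := by
  rw [(coef_embedding h).isInducing.tendsto_nhds_iff, tendsto_pi_nhds]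
  rintro ⟨w, x⟩
  exact hA w x

lemma coef_apply_tendsto (val : X → (Fin d → ℝ) →ₗ[ℝ] ℝ)
    {κ : Type*} {l : Filter κ} {A : κ → ((Fin d → ℝ) →L[ℝ] (Fin d → ℝ))}
    {B : (Fin d → ℝ) →L[ℝ] (Fin d → ℝ)} (hA : Tendsto A l (𝓝 B)) (w : Fin d → ℝ) (x : X) :
    Tendsto (fun n => val x (A n w)) l (𝓝 (val x (B w))) := by
  have h1 : Continuous fun A : (Fin d → ℝ) →L[ℝ] (Fin d → ℝ) => val x (A w) :=
    ((val x).continuous_of_finiteDimensional).comp
      (ContinuousLinearMap.apply ℝ (Fin d → ℝ) w).continuous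
  exact (h1.tendsto B).comp hA

lemma coef_subseq {val : X → (Fin d → ℝ) →ₗ[ℝ] ℝ} (h : ∀ w, (∀ x, val x w = 0) → w = 0)
    {A : ℕ → ((Fin d → ℝ) →L[ℝ] (Fin d → ℝ))}
    (hA : ∀ w x, ∃ C : ℝ, ∀ n, |val x (A n w)| ≤ C) :
    ∃ B : (Fin d → ℝ) →L[ℝ] (Fin d → ℝ), ∃ φ : ℕ → ℕ, StrictMono φ ∧
      Tendsto (A ∘ φ) atTop (𝓝 B) := by
  choose C hC using hA
  have h1 : IsCompact (Set.pi Set.univ fun p : (Fin d → ℝ) × X => Set.Icc (-C p.1 p.2) (C p.1 p.2)) :=
    isCompact_univ_pi fun p => isCompact_Icc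
  have h2 := (coef_embedding h).isCompact_preimage h1
  obtain ⟨B, -, φ, hφ, hB⟩ := h2.tendsto_subseq (x := A) fun n p _ => by
    have := hC p.1 p.2 n
    rw [abs_le] at this
    exact this
  exact ⟨B, φ, hφ, hB⟩

end Emb

section Rep

variable {G : Subgroup (Op N)ˣ} {d : ℕ} {ρ : G →* ((Fin d → ℝ) →L[ℝ] (Fin d → ℝ))}
  {val : (Fin d → ℝ) →ₗ[ℝ] (G → ℝ)} {w0 : Fin d → ℝ}

/-- evaluation at points of `X` -/
def ev (val : (Fin d → ℝ) →ₗ[ℝ] (G → ℝ)) (X : Set G) : X → (Fin d → ℝ) →ₗ[ℝ] ℝ :=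
  fun x => (LinearMap.proj (x : G)) ∘ₗ val

lemma rho_poly (hinj : Function.Injective val) (hr : ∀ g w h, val (ρ g w) h = val w (h * g))
    (hp : ∀ w, ∃ F' ∈ PolyFun (Op N), ∀ h : G, val w h = F' ((h : (Op N)ˣ) : Op N))
    {F : ((Fin d → ℝ) →L[ℝ] (Fin d → ℝ)) → ℝ}
    (hF : F ∈ PolyFun ((Fin d → ℝ) →L[ℝ] (Fin d → ℝ))) :
    ∃ F' ∈ PolyFun (Op N), ∀ g : G, F (ρ g) = F' ((g : (Op N)ˣ) : Op N) := by
  refine PolyFun.induction (p := fun F => ∃ F' ∈ PolyFun (Op N), ∀ g : G,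
    F (ρ g) = F' ((g : (Op N)ˣ) : Op N)) ?_ ?_ ?_ ?_ hF
  · intro φ
    let L : ((Fin d → ℝ) × G) → Module.Dual ℝ ((Fin d → ℝ) →L[ℝ] (Fin d → ℝ)) := fun p =>
      (LinearMap.proj p) ∘ₗ (coef (fun x : G => (LinearMap.proj x) ∘ₗ val))
    have hL : ∀ p A, L p A = val (A p.1) p.2 := fun p A => rfl
    have htop := dual_span L (fun A hA => by
      refine ContinuousLinearMap.ext fun w => hinj ?_
      ext h
      have := hA (w, h)
      rw [hL] at this
      simpa using this)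
    have hφ : φ ∈ Submodule.span ℝ (Set.range L) := by rw [htop]; trivial
    refine Submodule.span_induction (p := fun φ _ => ∃ F' ∈ PolyFun (Op N), ∀ g : G,
      φ (ρ g) = F' ((g : (Op N)ˣ) : Op N)) ?_ ?_ ?_ ?_ hφ
    · rintro _ ⟨⟨w, h⟩, rfl⟩
      obtain ⟨F', h1, h2⟩ := hp w
      refine ⟨_, PolyFun.comp h1 ((IsPolyMap.const ((h : (Op N)ˣ) : Op N)).mul IsPolyMap.id),
        fun g => ?_⟩
      rw [hL]
      simp only [hr, h2]
      rfl
    · exact ⟨_, PolyFun.const 0, fun g => rfl⟩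
    · rintro f g _ _ ⟨F', h1, h2⟩ ⟨F'', h3, h4⟩
      exact ⟨_, PolyFun.add h1 h3, fun h => by rw [LinearMap.add_apply, h2, h4]⟩
    · rintro a f _ ⟨F', h1, h2⟩
      exact ⟨_, PolyFun.mul (PolyFun.const a) h1, fun h => by
        rw [LinearMap.smul_apply, h2, smul_eq_mul]⟩
  · intro c
    exact ⟨_, PolyFun.const c, fun g => rfl⟩
  · rintro f g ⟨F', h1, h2⟩ ⟨F'', h3, h4⟩
    exact ⟨_, PolyFun.add h1 h3, fun h => by
      change f (ρ h) + g (ρ h) = _
      rw [h2, h4]⟩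
  · rintro f g ⟨F', h1, h2⟩ ⟨F'', h3, h4⟩
    exact ⟨_, PolyFun.mul h1 h3, fun h => by
      change f (ρ h) * g (ρ h) = _
      rw [h2, h4]⟩

lemma rho_tendsto (hinj : Function.Injective val) (hr : ∀ g w h, val (ρ g w) h = val w (h * g))
    (hp : ∀ w, ∃ F' ∈ PolyFun (Op N), ∀ h : G, val w h = F' ((h : (Op N)ˣ) : Op N))
    {κ : Type*} {l : Filter κ} {g : κ → G} {g' : G}
    (hg : Tendsto (fun n => ((g n : (Op N)ˣ) : Op N)) l (𝓝 ((g' : (Op N)ˣ) : Op N))) :
    Tendsto (fun n => ρ (g n)) l (𝓝 (ρ g')) := by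
  refine coef_tendsto (val := fun x : G => (LinearMap.proj x) ∘ₗ val) (fun w hw => hinj ?_) ?_
  · ext h
    have := hw h
    simpa using this
  · intro w x
    obtain ⟨F', h1, h2⟩ := hp w
    have h3 : ∀ g : G, ((LinearMap.proj x) ∘ₗ val) (ρ g w) =
        F' (((x : (Op N)ˣ) : Op N) * ((g : (Op N)ˣ) : Op N)) := by
      intro g
      change val (ρ g w) x = _
      rw [hr, h2]
      rfl
    simp only [h3]
    exact ((PolyFun.continuous h1).tendsto _).comp (tendsto_const_nhds.mul hg)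

/-- transformation rule of the functions under left translation -/
lemma val_left {F : Op N → ℝ} (hr : ∀ g w h, val (ρ g w) h = val w (h * g))
    (h0 : ∀ h : G, val w0 h = F ((h : (Op N)ˣ) : Op N))
    (hspan : ∀ U : Submodule ℝ (Fin d → ℝ), (∀ g, ρ g w0 ∈ U) → U = ⊤) {y : G} {χ : ℝ}
    (hy : ∀ T : Op N, F (((y : (Op N)ˣ) : Op N) * T) = χ * F T) (w : Fin d → ℝ) (h : G) :
    val w (y * h) = χ * val w h := by
  let U : Submodule ℝ (Fin d → ℝ) :=
    { carrier := {w | ∀ h, val w (y * h) = χ * val w h}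
      add_mem' := fun {a b} ha hb h => by
        have ha' : val a (y * h) = χ * val a h := ha h
        have hb' : val b (y * h) = χ * val b h := hb h
        rw [map_add, Pi.add_apply, Pi.add_apply, ha', hb', mul_add]
      zero_mem' := fun h => by simp
      smul_mem' := fun c a ha h => by
        have ha' : val a (y * h) = χ * val a h := ha h
        rw [map_smul, Pi.smul_apply, Pi.smul_apply, ha', smul_eq_mul, smul_eq_mul]
        ring }
  have hU : U = ⊤ := by
    refine hspan U fun g h => ?_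
    rw [hr, hr, h0, h0, ← hy]
    simp only [Subgroup.coe_mul, Units.val_mul, mul_assoc]
  have : w ∈ U := by rw [hU]; trivial
  exact this h

end Rep

/-! ### conjugation by torus elements -/

section Torus

variable {ι : Type} [Fintype ι] {P : ι → Op N}

lemma smul_mul' (a : ℝ) (S T : Op N) : (a • S) * T = a • (S * T) := rfl

lemma mul_smul' (a : ℝ) (S T : Op N) : S * (a • T) = a • (S * T) :=
  ContinuousLinearMap.ext fun v => map_smul S a (T v)

/-- the torus element -/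
noncomputable def tor (P : ι → Op N) (m : ι → ℝ) : Op N := ∑ i, Real.exp (m i) • P i

lemma tor_P (hP : IsGrading P) (m : ι → ℝ) (i : ι) : tor P m * P i = Real.exp (m i) • P i := by
  rw [tor, Finset.sum_mul, Finset.sum_eq_single i]
  · rw [smul_mul', hP.idem]
  · intro k _ hk; rw [smul_mul', hP.orth k i hk, smul_zero]
  · intro h; exact absurd (Finset.mem_univ i) h

lemma P_tor (hP : IsGrading P) (m : ι → ℝ) (i : ι) : P i * tor P m = Real.exp (m i) • P i := by
  rw [tor, Finset.mul_sum, Finset.sum_eq_single i]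
  · rw [mul_smul', hP.idem]
  · intro k _ hk; rw [mul_smul', hP.orth i k (Ne.symm hk), smul_zero]
  · intro h; exact absurd (Finset.mem_univ i) h

lemma tor_diag (hP : IsGrading P) (m : ι → ℝ) : Diag P (tor P m) := fun i => by
  rw [tor_P hP, P_tor hP]

/-- the conjugate of `T` by the inverse of a torus element -/
noncomputable def cj (P : ι → Op N) (m : ι → ℝ) (T : Op N) : Op N :=
  ∑ i, ∑ j, Real.exp (m j - m i) • (P i * T * P j)

lemma tor_cj (hP : IsGrading P) (m : ι → ℝ) (T : Op N) : tor P m * cj P m T = T * tor P m := by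
  have h1 : ∀ i j, tor P m * (Real.exp (m j - m i) • (P i * T * P j)) =
      Real.exp (m j) • (P i * T * P j) := by
    intro i j
    rw [mul_smul', mul_assoc (P i), ← mul_assoc (tor P m), tor_P hP, smul_mul', smul_smul,
      ← Real.exp_add, sub_add_cancel]
  rw [cj, Finset.mul_sum]
  simp only [Finset.mul_sum, h1]
  rw [Finset.sum_comm]
  conv_rhs => rw [tor, Finset.mul_sum]
  refine Finset.sum_congr rfl fun j _ => ?_
  rw [mul_smul', ← Finset.smul_sum]
  congr 1
  conv_rhs => rw [hP.sum_mul (T * P j)]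
  exact Finset.sum_congr rfl fun i _ => by rw [mul_assoc]

lemma P_cj_P (hP : IsGrading P) (m : ι → ℝ) (T : Op N) (i j : ι) :
    P i * cj P m T * P j = Real.exp (m j - m i) • (P i * T * P j) := by
  rw [cj, Finset.mul_sum, Finset.sum_mul, Finset.sum_eq_single i]
  · rw [Finset.mul_sum, Finset.sum_mul, Finset.sum_eq_single j]
    · rw [mul_smul', smul_mul']
      congr 1
      rw [← mul_assoc, ← mul_assoc, hP.idem, mul_assoc (P i * T), hP.idem]
    · intro k _ hk
      rw [mul_smul', smul_mul', mul_assoc (P i), mul_assoc (P i * T), hP.orth k j hk, mul_zero,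
        mul_zero, smul_zero]
    · intro h; exact absurd (Finset.mem_univ j) h
  · intro k _ hk
    rw [Finset.mul_sum, Finset.sum_mul]
    refine Finset.sum_eq_zero fun l _ => ?_
    rw [mul_smul', smul_mul', ← mul_assoc, ← mul_assoc, hP.orth i k (Ne.symm hk), zero_mul,
      zero_mul, zero_mul, smul_zero]
  · intro h; exact absurd (Finset.mem_univ i) h

lemma cj_norm_le {r : ι → ι → Prop} {m : ι → ℝ} (hm : ∀ i j, r i j → m i ≤ m j) {x : Op N}
    (hx : Unip P (fun i j => r j i) x) : ‖cj P m x‖ ≤ ∑ i, ∑ j, ‖P i * x * P j‖ := by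
  unfold cj
  refine (norm_sum_le _ _).trans (Finset.sum_le_sum fun i _ => ?_)
  refine (norm_sum_le _ _).trans (Finset.sum_le_sum fun j _ => ?_)
  rcases eq_or_ne i j with rfl | hij
  · rw [sub_self, Real.exp_zero, one_smul]
  by_cases hr : r j i
  · rw [norm_smul, Real.norm_eq_abs, abs_of_pos (Real.exp_pos _)]
    have : Real.exp (m j - m i) ≤ 1 := Real.exp_le_one_iff.2 (by linarith [hm j i hr])
    exact mul_le_of_le_one_left (norm_nonneg _) this
  · rw [hx.2 i j hij hr, smul_zero]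

lemma cj_tendsto (hP : IsGrading P) {r : ι → ι → Prop} {κ : Type*} {l : Filter κ}
    {m : κ → ι → ℝ} {x : Op N} (hx : Unip P (fun i j => r j i) x)
    (h : ∀ i j, r j i → Tendsto (fun n => Real.exp (m n j - m n i)) l (𝓝 0)) :
    Tendsto (fun n => cj P (m n) x) l (𝓝 1) := by
  have h1 : (1 : Op N) = ∑ i, ∑ j, P i * 1 * P j := by
    conv_lhs => rw [hP.sum_mul 1]
    refine Finset.sum_congr rfl fun i _ => ?_
    rw [← hP.mul_sum]
  rw [h1]
  unfold cj
  refine tendsto_finsetSum _ fun i _ => tendsto_finsetSum _ fun j _ => ?_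
  rcases eq_or_ne i j with rfl | hij
  · simp only [sub_self, Real.exp_zero, one_smul]
    rw [hx.1, mul_one, hP.idem]
    exact tendsto_const_nhds
  rw [mul_one, hP.orth i j hij]
  by_cases hr : r j i
  · have h3 := (h i j hr).smul_const (P i * x * P j)
    convert h3 using 2
    exact (zero_smul ℝ (P i * x * P j)).symm
  · rw [hx.2 i j hij hr]
    simp only [smul_zero]
    exact tendsto_const_nhds

end Torus

/-! ### compactness of the orthogonal elements -/

section Compact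

lemma norm_le_one {T : Op N} (h : star T * T = 1) : ‖T‖ ≤ 1 := by
  refine ContinuousLinearMap.opNorm_le_bound T zero_le_one fun v => ?_
  have h1 := ContinuousLinearMap.apply_norm_sq_eq_inner_adjoint_left T v
  have h2 : (ContinuousLinearMap.adjoint T * T) v = v := by
    have := congrArg (fun A : Op N => A v) h
    exact this
  have h3 : ‖T v‖ ^ 2 = ‖v‖ ^ 2 := by
    rw [h1]
    have h4 : (ContinuousLinearMap.adjoint T ∘L T) v = v := h2
    rw [h4]
    simp
  rw [one_mul]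
  exact le_of_eq ((sq_eq_sq₀ (norm_nonneg _) (norm_nonneg _)).1 h3)

lemma mem_of_tendsto {G : Subgroup (Op N)ˣ} (hcl : ∀ g : (Op N)ˣ, (∀ F ∈ PolyFun (Op N),
    (∀ h ∈ G, F (h : Op N) = 0) → F (g : Op N) = 0) → g ∈ G) {g : ℕ → (Op N)ˣ}
    (hg : ∀ n, g n ∈ G) {T : Op N} (hT : IsUnit T)
    (hlim : Tendsto (fun n => (g n : Op N)) atTop (𝓝 T)) : ∃ u ∈ G, (u : Op N) = T := by
  obtain ⟨u, hu⟩ := hT
  refine ⟨u, hcl u fun F hF hFG => ?_, hu⟩
  have h1 := ((PolyFun.continuous hF).tendsto T).comp hlim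
  have h2 : (F ∘ fun n => (g n : Op N)) = fun _ => (0 : ℝ) := by
    ext n
    exact hFG _ (hg n)
  rw [h2] at h1
  rw [hu]
  exact (tendsto_nhds_unique h1 tendsto_const_nhds)

lemma orth_subseq {G : Subgroup (Op N)ˣ} (hcl : ∀ g : (Op N)ˣ, (∀ F ∈ PolyFun (Op N),
    (∀ h ∈ G, F (h : Op N) = 0) → F (g : Op N) = 0) → g ∈ G) {k : ℕ → (Op N)ˣ}
    (hk : ∀ n, k n ∈ G) (ho : ∀ n, star (k n : Op N) * (k n : Op N) = 1) :
    ∃ u ∈ G, star (u : Op N) * (u : Op N) = 1 ∧ ∃ φ : ℕ → ℕ, StrictMono φ ∧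
      Tendsto (fun n => (k (φ n) : Op N)) atTop (𝓝 (u : Op N)) := by
  obtain ⟨T, -, φ, hφ, hT⟩ := tendsto_subseq_of_bounded
    (Metric.isBounded_closedBall (x := (0 : Op N)) (r := 1))
    (x := fun n => (k n : Op N)) fun n => by
      rw [mem_closedBall_zero_iff]
      exact norm_le_one (ho n)
  have h1 : star T * T = 1 := by
    have h2 : Tendsto (fun n => star (k (φ n) : Op N) * (k (φ n) : Op N)) atTop
        (𝓝 (star T * T)) := by
      refine Tendsto.mul ?_ hT
      exact (continuous_star.tendsto T).comp hT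
    have h3 : (fun n => star (k (φ n) : Op N) * (k (φ n) : Op N)) = fun _ => 1 := by
      ext1 n
      exact ho _
    rw [h3] at h2
    exact (tendsto_nhds_unique h2 tendsto_const_nhds)
  have h4 : dt T ≠ 0 := by
    intro h0
    have := congrArg dt h1
    rw [dt_mul, h0, mul_zero, dt_one] at this
    exact zero_ne_one this
  obtain ⟨u, hu, huT⟩ := mem_of_tendsto hcl (fun n => hk (φ n)) (isUnit_of_dt h4) hT
  exact ⟨u, hu, by rw [huT, h1], φ, hφ, by rw [huT]; exact hT⟩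

end Compact

end Lox

end Pool.Agent.Lib.MP_d9b062_al

end

/-! ## from `MP_d9b062_al_h20.LoxMain` -/

section
/-!
# The first loxodromic sequence: main argument
-/

namespace Pool.Agent.Lib.MP_d9b062_al

namespace Lox

open NormedSpace Filter
open scoped Topology

variable {N : ℕ}

/-- the representation spanned by the translates of `F` -/
structure RepD (G : Subgroup (Op N)ˣ) (F : Op N → ℝ) where
  d : ℕ
  ρ : G →* ((Fin d → ℝ) →L[ℝ] (Fin d → ℝ))
  val : (Fin d → ℝ) →ₗ[ℝ] (G → ℝ)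
  w0 : Fin d → ℝ
  inj : Function.Injective val
  hr : ∀ g w h, val (ρ g w) h = val w (h * g)
  h0 : ∀ h : G, val w0 h = F ((h : (Op N)ˣ) : Op N)
  hspan : ∀ U : Submodule ℝ (Fin d → ℝ), (∀ g, ρ g w0 ∈ U) → U = ⊤
  hp : ∀ w, ∃ F' ∈ PolyFun (Op N), ∀ h : G, val w h = F' ((h : (Op N)ˣ) : Op N)

lemma nonempty_repD (G : Subgroup (Op N)ˣ) {F : Op N → ℝ} (hF : F ∈ PolyFun (Op N)) :
    Nonempty (RepD G F) := by
  obtain ⟨d, ρ, val, w0, h1, h2, h3, h4, h5⟩ := exists_rep G hF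
  exact ⟨⟨d, ρ, val, w0, h1, h2, h3, h4, h5⟩⟩

variable {G : Subgroup (Op N)ˣ} {ι : Type} [Fintype ι] [LinearOrder ι]

/-- the upper unipotent elements -/
def NP (c : Cell G ι) : Set G := {x | Unip c.P (fun i j => c.r j i) ((x : (Op N)ˣ) : Op N)}

lemma r_irrefl (c : Cell G ι) (i : ι) : ¬ c.r i i := fun h => lt_irrefl _ (c.r_lt i i h)

lemma lower_Q (c : Cell G ι) {y : Op N} (hy : Unip c.P c.r y) (i : ι) :
    Qge c.P i * y * Qlt c.P i = 0 :=
  (hy.mono c.r_lt).Qge_mul c.grading i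

lemma upper_Q (c : Cell G ι) {x : Op N} (hx : Unip c.P (fun i j => c.r j i) x) (i : ι) :
    Qlt c.P i * x * Qge c.P i = 0 :=
  (hx.mono (s' := fun i j => j < i) fun i j h => c.r_lt j i h).Qlt_mul c.grading i

lemma diag_Q (c : Cell G ι) {l : Op N} (hl : Diag c.P l) (i : ι) :
    Qge c.P i * l * Qlt c.P i = 0 ∧ Qlt c.P i * l * Qge c.P i = 0 := by
  rw [c.grading.diag_Qge hl, c.grading.diag_Qlt hl, mul_assoc, mul_assoc, c.grading.Qge_Qlt,
    c.grading.Qlt_Qge, mul_zero]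
  exact ⟨rfl, rfl⟩

lemma D_lower (c : Cell G ι) {y : Op N} (hy : Unip c.P c.r y) : D c.P y = 1 :=
  D_unip c.grading c.r_trans (r_irrefl c) hy

lemma D_upper (c : Cell G ι) {x : Op N} (hx : Unip c.P (fun i j => c.r j i) x) : D c.P x = 1 :=
  D_unip c.grading (fun i j k h h' => c.r_trans k j i h' h) (r_irrefl c) hx

lemma D_diag_ne (c : Cell G ι) {l : G} (hl : Diag c.P ((l : (Op N)ˣ) : Op N)) :
    D c.P ((l : (Op N)ˣ) : Op N) ≠ 0 := by
  intro h
  have h1 := D_left (T := ((l⁻¹ : G) : (Op N)ˣ)) c.grading fun i => (diag_Q c hl i).1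
  rw [h, zero_mul] at h1
  have h2 : ((l : (Op N)ˣ) : Op N) * (((l⁻¹ : G) : (Op N)ˣ) : Op N) = 1 := by
    rw [← Units.val_mul, ← Subgroup.coe_mul, mul_inv_cancel]
    rfl
  rw [h2, D_one c.grading] at h1
  exact one_ne_zero h1

variable {c : Cell G ι} (R : RepD G (D c.P))

include R

lemma RepD.val_y (w : Fin R.d → ℝ) {y : G} (hy : Unip c.P c.r ((y : (Op N)ˣ) : Op N)) (h : G) :
    R.val w (y * h) = R.val w h := by
  have := val_left (F := D c.P) R.hr R.h0 R.hspan (y := y) (χ := 1) (fun T => by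
    rw [D_left c.grading (lower_Q c hy), D_lower c hy]) w h
  rwa [one_mul] at this

lemma RepD.val_l (w : Fin R.d → ℝ) {l : G} (hl : Diag c.P ((l : (Op N)ˣ) : Op N)) (h : G) :
    R.val w (l * h) = D c.P ((l : (Op N)ˣ) : Op N) * R.val w h :=
  val_left (F := D c.P) R.hr R.h0 R.hspan (fun T => by
    rw [D_left c.grading (fun i => (diag_Q c hl i).1)]) w h

/-- the functions are determined by their values at the upper unipotent elements -/
lemma RepD.sep (w : Fin R.d → ℝ) (hw : ∀ x : NP c, R.val w x = 0) : w = 0 := by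
  obtain ⟨F', h1, h2⟩ := R.hp w
  have h3 : ∀ g ∈ G, F' (g : Op N) * D c.P (g : Op N) = 0 := by
    intro g hg
    by_cases hD : D c.P (g : Op N) = 0
    · rw [hD, mul_zero]
    obtain ⟨y, hy, l, hl, x, hx, hyu, hld, hxu, hgx⟩ := c.fac g hg (reg_of_D hD)
    have e : (⟨g, hg⟩ : G) = ⟨y, hy⟩ * (⟨l, hl⟩ * ⟨x, hx⟩) := by
      refine Subtype.ext (Units.ext ?_)
      change (g : Op N) = (y : Op N) * ((l : Op N) * (x : Op N))
      rw [hgx, mul_assoc]
    have h4 : F' (g : Op N) = R.val w ⟨g, hg⟩ := (h2 ⟨g, hg⟩).symm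
    rw [h4, e, R.val_y w hyu, R.val_l w hld, hw ⟨⟨x, hx⟩, hxu⟩, mul_zero, zero_mul]
  rcases c.zirr F' h1 (D c.P) D_polyFun h3 with h5 | h5
  · refine R.inj ?_
    ext h
    rw [h2, h5 _ h.2]
    simp
  · exfalso
    have := h5 1 G.one_mem
    rw [Units.val_one, D_one c.grading] at this
    exact one_ne_zero this

/-- the evaluations at upper unipotent elements -/
noncomputable def RepD.evp (x : NP c) : (Fin R.d → ℝ) →ₗ[ℝ] ℝ :=
  (LinearMap.proj (x : G)) ∘ₗ R.val

lemma RepD.evp_sep (w : Fin R.d → ℝ) (hw : ∀ x : NP c, R.evp x w = 0) : w = 0 :=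
  R.sep w hw

omit R in
lemma exists_tor {m : ι → ℝ} (hm : m ∈ c.C) : ∃ a : G, ((a : (Op N)ˣ) : Op N) = tor c.P m := by
  obtain ⟨g, hg, hgm⟩ := c.C_exp m hm
  exact ⟨⟨g, hg⟩, hgm⟩

omit R in
lemma conj_mem {m : ι → ℝ} {a x : G} (ha : ((a : (Op N)ˣ) : Op N) = tor c.P m)
    (hx : x ∈ NP c) : a⁻¹ * x * a ∈ NP c ∧
      (((a⁻¹ * x * a : G) : (Op N)ˣ) : Op N) = cj c.P m ((x : (Op N)ˣ) : Op N) := by
  have hd : Diag c.P ((a : (Op N)ˣ) : Op N) := by rw [ha]; exact tor_diag c.grading m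
  constructor
  · have h1 := Unip.conj (l := ((a⁻¹ : G) : (Op N)ˣ)) hx (Diag.inv hd)
    have h2 : ((((a⁻¹ : G) : (Op N)ˣ)⁻¹ : (Op N)ˣ) : Op N) = ((a : (Op N)ˣ) : Op N) := by
      rw [Subgroup.coe_inv, inv_inv]
    rw [h2] at h1
    exact h1
  · have h1 : ((a : (Op N)ˣ) : Op N) * (((a⁻¹ * x * a : G) : (Op N)ˣ) : Op N) =
        ((a : (Op N)ˣ) : Op N) * cj c.P m ((x : (Op N)ˣ) : Op N) := by
      have e1 : a * (a⁻¹ * x * a) = x * a := by group
      have e2 : ((a : (Op N)ˣ) : Op N) * (((a⁻¹ * x * a : G) : (Op N)ˣ) : Op N) =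
          (((x * a : G) : (Op N)ˣ) : Op N) := by
        rw [← e1]; rfl
      rw [e2]
      change ((x : (Op N)ˣ) : Op N) * ((a : (Op N)ˣ) : Op N) = _
      rw [ha, tor_cj c.grading]
    have h2 := congrArg ((((a : (Op N)ˣ)⁻¹ : (Op N)ˣ) : Op N) * ·) h1
    simpa [← mul_assoc] using h2

/-- normalized action of a torus element -/
noncomputable def RepD.B (a : G) : (Fin R.d → ℝ) →L[ℝ] (Fin R.d → ℝ) :=
  (D c.P ((a : (Op N)ˣ) : Op N))⁻¹ • R.ρ a

lemma RepD.B_val {m : ι → ℝ} {a : G} (ha : ((a : (Op N)ˣ) : Op N) = tor c.P m)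
    (w : Fin R.d → ℝ) (x : NP c) :
    R.evp x (R.B a w) = R.val w (a⁻¹ * (x : G) * a) := by
  have hd : Diag c.P ((a : (Op N)ˣ) : Op N) := by rw [ha]; exact tor_diag c.grading m
  change R.val ((D c.P ((a : (Op N)ˣ) : Op N))⁻¹ • R.ρ a w) x = _
  rw [map_smul, Pi.smul_apply, R.hr]
  have e1 : (x : G) * a = a * (a⁻¹ * x * a) := by group
  rw [e1, R.val_l w hd, smul_eq_mul, ← mul_assoc, inv_mul_cancel₀ (D_diag_ne c hd), one_mul]

lemma RepD.B_w0 {m : ι → ℝ} {a : G} (ha : ((a : (Op N)ˣ) : Op N) = tor c.P m) :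
    R.B a R.w0 = R.w0 := by
  rw [← sub_eq_zero]
  refine R.evp_sep _ fun x => ?_
  rw [map_sub, R.B_val ha, R.h0, (conj_mem ha x.2).2, sub_eq_zero]
  change _ = R.val R.w0 x
  have h1 := (conj_mem ha x.2).1
  rw [R.h0, ← (conj_mem ha x.2).2, D_upper c h1, D_upper c x.2]

omit R in
lemma one_mem_NP : (1 : G) ∈ NP c := by
  change Unip c.P (fun i j => c.r j i) (((1 : G) : (Op N)ˣ) : Op N)
  exact Unip.one c.grading

lemma RepD.w0_one : R.val R.w0 1 = 1 := by
  rw [R.h0]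
  exact D_one c.grading

/-- the limit of the normalized action of `exp (n μ)` -/
noncomputable def RepD.p : (Fin R.d → ℝ) →L[ℝ] (Fin R.d → ℝ) :=
  (LinearMap.toContinuousLinearMap ((LinearMap.proj (1 : G)) ∘ₗ R.val)).smulRight R.w0

lemma RepD.p_apply (w : Fin R.d → ℝ) : R.p w = R.val w 1 • R.w0 := rfl

lemma RepD.exists_p : ∃ a : ℕ → G, Tendsto (fun n => R.B (a n)) atTop (𝓝 R.p) := by
  have hmem : ∀ n : ℕ, ((n : ℝ) • c.μ) ∈ c.C := fun n => c.μ_mem n (Nat.cast_nonneg n)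
  choose a ha using fun n => exists_tor (c := c) (hmem n)
  refine ⟨a, coef_tendsto R.evp_sep fun w x => ?_⟩
  simp only [R.B_val (ha _)]
  obtain ⟨F', h1, h2⟩ := R.hp w
  have e : ∀ n, R.val w ((a n)⁻¹ * (x : G) * a n) =
      F' (cj c.P ((n : ℝ) • c.μ) (((x : G) : (Op N)ˣ) : Op N)) := fun n => by
    rw [h2, (conj_mem (ha n) x.2).2]
  simp only [e]
  have h3 : Tendsto (fun n : ℕ => cj c.P ((n : ℝ) • c.μ) (((x : G) : (Op N)ˣ) : Op N)) atTop
      (𝓝 1) := by
    refine cj_tendsto c.grading x.2 fun i j hij => ?_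
    have hlt : c.μ j - c.μ i < 0 := by
      have := c.μ_mono (c.r_lt j i hij)
      linarith
    have h4 : Tendsto (fun n : ℕ => (n : ℝ) * (c.μ j - c.μ i)) atTop atBot :=
      tendsto_natCast_atTop_atTop.atTop_mul_const_of_neg hlt
    refine (Real.tendsto_exp_atBot.comp h4).congr fun n => ?_
    simp only [Function.comp, Pi.smul_apply, smul_eq_mul]
    congr 1
    ring
  have h5 : R.evp x (R.p w) = F' 1 := by
    change R.val (R.val w 1 • R.w0) x = _
    rw [map_smul, Pi.smul_apply, R.h0, D_upper c x.2, smul_eq_mul, mul_one, h2]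
    rfl
  rw [h5]
  exact ((PolyFun.continuous h1).tendsto 1).comp h3

lemma RepD.irr (U : Submodule ℝ (Fin R.d → ℝ)) (hU : ∀ g, ∀ v ∈ U, R.ρ g v ∈ U) :
    U = ⊥ ∨ U = ⊤ := by
  by_cases hb : U = ⊥
  · exact Or.inl hb
  right
  obtain ⟨w, hw, hw0⟩ := (Submodule.ne_bot_iff U).1 hb
  have h1 : ∃ g, R.val w g ≠ 0 := by
    by_contra hcon
    push Not at hcon
    apply hw0
    refine R.inj ?_
    ext g
    rw [hcon g]
    simp
  obtain ⟨g, hg⟩ := h1
  have h2 : R.val (R.ρ g w) 1 ≠ 0 := by rwa [R.hr, one_mul]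
  have h3 : R.ρ g w ∈ U := hU g w hw
  obtain ⟨a, ha⟩ := R.exists_p
  have h4 : Tendsto (fun n => R.B (a n) (R.ρ g w)) atTop (𝓝 (R.p (R.ρ g w))) := by
    have hc : Continuous fun A : (Fin R.d → ℝ) →L[ℝ] (Fin R.d → ℝ) => A (R.ρ g w) :=
      (ContinuousLinearMap.apply ℝ (Fin R.d → ℝ) (R.ρ g w)).continuous
    exact (hc.tendsto _).comp ha
  have h5 : R.p (R.ρ g w) ∈ U := by
    refine (Submodule.closed_of_finiteDimensional U).mem_of_tendsto h4
      (Eventually.of_forall fun n => ?_)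
    exact U.smul_mem _ (hU _ _ h3)
  rw [R.p_apply] at h5
  have h6 : R.w0 ∈ U := by
    have := U.smul_mem (R.val (R.ρ g w) 1)⁻¹ h5
    rwa [smul_smul, inv_mul_cancel₀ h2, one_smul] at this
  exact R.hspan U fun g => hU g _ h6

lemma RepD.exists_seq {S : Subgroup (Op N)ˣ} (hS : S ≤ G) (hz : ZDense (S : Set (Op N)ˣ) G) :
    ∃ (s : ℕ → G) (e : ℕ → ℝ) (p : (Fin R.d → ℝ) →L[ℝ] (Fin R.d → ℝ)),
      (∀ n, ((s n : G) : (Op N)ˣ) ∈ S) ∧
      Tendsto (fun n => e n • R.ρ (s n)) atTop (𝓝 p) ∧ p ≠ 0 ∧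
      Module.finrank ℝ (LinearMap.range (p : (Fin R.d → ℝ) →ₗ[ℝ] (Fin R.d → ℝ))) ≤ 1 := by
  obtain ⟨a, ha⟩ := R.exists_p
  have := exists_rank_one_limit R.ρ (S.subgroupOf G) ?_ R.irr
    ⟨a, fun n => (D c.P (((a n) : (Op N)ˣ) : Op N))⁻¹, R.p, ha, ?_, ?_⟩
  · obtain ⟨s, e, p, h1, h2, h3, h4⟩ := this
    exact ⟨s, e, p, fun n => Subgroup.mem_subgroupOf.1 (h1 n), h2, h3, h4⟩
  · intro F hF hFS g
    obtain ⟨F', h1, h2⟩ := rho_poly R.inj R.hr R.hp hF
    rw [h2]
    refine hz F' h1 (fun s hs => ?_) _ g.2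
    have h3 := hFS ⟨s, hS hs⟩ (Subgroup.mem_subgroupOf.2 hs)
    rw [h2] at h3
    exact h3
  · intro h0
    have h1 : R.p R.w0 = 0 := by rw [h0]; rfl
    rw [R.p_apply, R.w0_one, one_smul] at h1
    have h2 := R.w0_one
    rw [h1, map_zero] at h2
    exact zero_ne_one h2
  · have h1 : LinearMap.range (R.p : (Fin R.d → ℝ) →ₗ[ℝ] (Fin R.d → ℝ)) ≤
        Submodule.span ℝ {R.w0} := by
      rintro _ ⟨w, rfl⟩
      exact Submodule.mem_span_singleton.2 ⟨R.val w 1, rfl⟩
    exact (Submodule.finrank_mono h1).trans ((finrank_span_le_card _).trans (by simp))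

omit R in
/-- the range is spanned by one vector -/
lemma rank_one_form {d : ℕ} {p : (Fin d → ℝ) →L[ℝ] (Fin d → ℝ)}
    (h : Module.finrank ℝ (LinearMap.range (p : (Fin d → ℝ) →ₗ[ℝ] (Fin d → ℝ))) ≤ 1) :
    ∃ v, ∀ w, ∃ t : ℝ, p w = t • v := by
  obtain ⟨v, hv⟩ := finrank_le_one_iff.1 h
  refine ⟨(v : Fin d → ℝ), fun w => ?_⟩
  obtain ⟨t, ht⟩ := hv ⟨p w, ⟨w, rfl⟩⟩
  exact ⟨t, (congrArg Subtype.val ht).symm⟩

omit R in
lemma cj_mem_ball {m : ι → ℝ} (hm : m ∈ c.C) {x : Op N}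
    (hx : Unip c.P (fun i j => c.r j i) x) :
    cj c.P m x ∈ Metric.closedBall (0 : Op N) (∑ i, ∑ j, ‖c.P i * x * c.P j‖) := by
  rw [mem_closedBall_zero_iff]
  exact cj_norm_le (c.C_le m hm) hx

/-- Convergence of the normalized torus part. -/
lemma RepD.torus_limit {s : ℕ → G} {e : ℕ → ℝ} {p : (Fin R.d → ℝ) →L[ℝ] (Fin R.d → ℝ)}
    (hp : Tendsto (fun n => e n • R.ρ (s n)) atTop (𝓝 p)) (hp0 : p ≠ 0)
    (hp1 : Module.finrank ℝ (LinearMap.range (p : (Fin R.d → ℝ) →ₗ[ℝ] (Fin R.d → ℝ))) ≤ 1)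
    {k k' a : ℕ → G} {m : ℕ → ι → ℝ} (hm : ∀ n, m n ∈ c.C)
    (ha : ∀ n, (((a n) : (Op N)ˣ) : Op N) = tor c.P (m n)) (hs : ∀ n, s n = k n * a n * k' n)
    (ho : ∀ n, star (((k n) : (Op N)ˣ) : Op N) * (((k n) : (Op N)ˣ) : Op N) = 1)
    (ho' : ∀ n, star (((k' n) : (Op N)ˣ) : Op N) * (((k' n) : (Op N)ˣ) : Op N) = 1) :
    ∃ φ : ℕ → ℕ, StrictMono φ ∧ Tendsto (fun n => R.B (a (φ n))) atTop (𝓝 R.p) := by
  obtain ⟨u, hu, huo, φ₁, hφ₁, hlim₁⟩ := orth_subseq c.closed (fun n => (k n).2) ho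
  obtain ⟨u', hu', huo', φ₂, hφ₂, hlim₂⟩ := orth_subseq c.closed (fun n => (k' (φ₁ n)).2)
    (fun n => ho' (φ₁ n))
  -- boundedness
  have hbd : ∀ w, ∀ x : NP c, ∃ C : ℝ, ∀ n, |R.evp x (R.B (a (φ₁ (φ₂ n))) w)| ≤ C := by
    intro w x
    obtain ⟨F', h1, h2⟩ := R.hp w
    obtain ⟨C, hC⟩ := (isCompact_closedBall (0 : Op N)
      (∑ i, ∑ j, ‖c.P i * (((x : G) : (Op N)ˣ) : Op N) * c.P j‖)).exists_bound_of_continuousOn
      (PolyFun.continuous h1).continuousOn
    refine ⟨C, fun n => ?_⟩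
    rw [R.B_val (ha _), h2, (conj_mem (ha _) x.2).2]
    exact hC _ (cj_mem_ball (hm _) x.2)
  obtain ⟨Bi, ψ, hψ, hBi⟩ := coef_subseq R.evp_sep (A := fun n => R.B (a (φ₁ (φ₂ n)))) hbd
  refine ⟨fun n => φ₁ (φ₂ (ψ n)), hφ₁.comp (hφ₂.comp hψ), ?_⟩
  have hBi' : Tendsto (fun n => R.B (a (φ₁ (φ₂ (ψ n))))) atTop (𝓝 Bi) := hBi
  suffices hBp : Bi = R.p by rwa [← hBp]
  -- inverses of the orthogonal parts
  have hinv : ∀ {g : G}, star ((g : (Op N)ˣ) : Op N) * ((g : (Op N)ˣ) : Op N) = 1 →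
      (((g⁻¹ : G) : (Op N)ˣ) : Op N) = star ((g : (Op N)ˣ) : Op N) := by
    intro g hg
    have h1 : ((g : (Op N)ˣ) : Op N) * (((g⁻¹ : G) : (Op N)ˣ) : Op N) = 1 := by
      rw [← Units.val_mul, ← Subgroup.coe_mul, mul_inv_cancel]
      rfl
    calc (((g⁻¹ : G) : (Op N)ˣ) : Op N)
        = (star ((g : (Op N)ˣ) : Op N) * ((g : (Op N)ˣ) : Op N)) *
          (((g⁻¹ : G) : (Op N)ˣ) : Op N) := by rw [hg, one_mul]
      _ = star ((g : (Op N)ˣ) : Op N) := by rw [mul_assoc, h1, mul_one]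
  have t1 : Tendsto (fun n => R.ρ ((k (φ₁ (φ₂ (ψ n))))⁻¹)) atTop (𝓝 (R.ρ (⟨u, hu⟩⁻¹ : G))) := by
    refine rho_tendsto R.inj R.hr R.hp ?_
    rw [hinv (g := ⟨u, hu⟩) huo]
    have h1 : (fun n => ((((k (φ₁ (φ₂ (ψ n))))⁻¹ : G) : (Op N)ˣ) : Op N)) =
        fun n => star (((k (φ₁ (φ₂ (ψ n)))) : (Op N)ˣ) : Op N) := by
      ext1 n
      exact hinv (ho _)
    rw [h1]
    have h2 := (continuous_star.tendsto (u : Op N)).comp
      (hlim₁.comp (hφ₂.comp hψ).tendsto_atTop)
    exact h2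
  have t2 : Tendsto (fun n => R.ρ ((k' (φ₁ (φ₂ (ψ n))))⁻¹)) atTop (𝓝 (R.ρ (⟨u', hu'⟩⁻¹ : G))) := by
    refine rho_tendsto R.inj R.hr R.hp ?_
    rw [hinv (g := ⟨u', hu'⟩) huo']
    have h1 : (fun n => ((((k' (φ₁ (φ₂ (ψ n))))⁻¹ : G) : (Op N)ˣ) : Op N)) =
        fun n => star (((k' (φ₁ (φ₂ (ψ n)))) : (Op N)ˣ) : Op N) := by
      ext1 n
      exact hinv (ho' _)
    rw [h1]
    have h2 := (continuous_star.tendsto (u' : Op N)).comp (hlim₂.comp hψ.tendsto_atTop)
    exact h2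
  have hmono : StrictMono fun n => φ₁ (φ₂ (ψ n)) := hφ₁.comp (hφ₂.comp hψ)
  have t3 : Tendsto (fun n => e (φ₁ (φ₂ (ψ n))) • R.ρ (s (φ₁ (φ₂ (ψ n))))) atTop (𝓝 p) :=
    hp.comp hmono.tendsto_atTop
  set q := R.ρ (⟨u, hu⟩⁻¹ : G) * p * R.ρ (⟨u', hu'⟩⁻¹ : G) with hq
  have t4 : Tendsto (fun n => (e (φ₁ (φ₂ (ψ n))) *
      D c.P (((a (φ₁ (φ₂ (ψ n)))) : (Op N)ˣ) : Op N)) • R.B (a (φ₁ (φ₂ (ψ n))))) atTop (𝓝 q) := by
    refine ((t1.mul t3).mul t2).congr fun n => ?_
    set j := φ₁ (φ₂ (ψ n))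
    have hd : Diag c.P (((a j) : (Op N)ˣ) : Op N) := by rw [ha]; exact tor_diag c.grading _
    have hD := D_diag_ne c hd
    have h1 : R.ρ (s j) = R.ρ (k j) * R.ρ (a j) * R.ρ (k' j) := by rw [hs, map_mul, map_mul]
    have h2 : R.ρ ((k j)⁻¹) * R.ρ (k j) = 1 := by rw [← map_mul, inv_mul_cancel, map_one]
    have h3 : R.ρ (k' j) * R.ρ ((k' j)⁻¹) = 1 := by rw [← map_mul, mul_inv_cancel, map_one]
    have h4 : R.ρ ((k j)⁻¹) * (e j • R.ρ (s j)) * R.ρ ((k' j)⁻¹) = e j • R.ρ (a j) := by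
      rw [h1]
      refine ContinuousLinearMap.ext fun w => ?_
      have h2' : ∀ v, R.ρ ((k j)⁻¹) (R.ρ (k j) v) = v := fun v =>
        congrArg (fun A : (Fin R.d → ℝ) →L[ℝ] (Fin R.d → ℝ) => A v) h2
      have h3' : ∀ v, R.ρ (k' j) (R.ρ ((k' j)⁻¹) v) = v := fun v =>
        congrArg (fun A : (Fin R.d → ℝ) →L[ℝ] (Fin R.d → ℝ) => A v) h3
      change R.ρ ((k j)⁻¹) (e j • R.ρ (k j) (R.ρ (a j) (R.ρ (k' j) (R.ρ ((k' j)⁻¹) w)))) =
        e j • R.ρ (a j) w
      rw [h3', map_smul, h2']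
    rw [h4, RepD.B, smul_smul, mul_assoc, mul_inv_cancel₀ hD, mul_one]
  have hq0 : q ≠ 0 := by
    intro h0
    apply hp0
    have h2 : R.ρ (⟨u, hu⟩ : G) * R.ρ (⟨u, hu⟩⁻¹ : G) = 1 := by
      rw [← map_mul, mul_inv_cancel, map_one]
    have h3 : R.ρ (⟨u', hu'⟩⁻¹ : G) * R.ρ (⟨u', hu'⟩ : G) = 1 := by
      rw [← map_mul, inv_mul_cancel, map_one]
    calc p = (R.ρ (⟨u, hu⟩ : G) * R.ρ (⟨u, hu⟩⁻¹ : G)) * p *
          (R.ρ (⟨u', hu'⟩⁻¹ : G) * R.ρ (⟨u', hu'⟩ : G)) := by rw [h2, h3, one_mul, mul_one]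
      _ = R.ρ (⟨u, hu⟩ : G) * q * R.ρ (⟨u', hu'⟩ : G) := by rw [hq]; simp only [mul_assoc]
      _ = 0 := by rw [h0, mul_zero, zero_mul]
  obtain ⟨v, hv⟩ := rank_one_form hp1
  have hqv : ∀ w, ∃ t : ℝ, q w = t • R.ρ (⟨u, hu⟩⁻¹ : G) v := by
    intro w
    obtain ⟨t, ht⟩ := hv (R.ρ (⟨u', hu'⟩⁻¹ : G) w)
    refine ⟨t, ?_⟩
    change R.ρ (⟨u, hu⟩⁻¹ : G) (p (R.ρ (⟨u', hu'⟩⁻¹ : G) w)) = _
    rw [ht, map_smul]
  -- values at the identity
  have happ : ∀ {A : ℕ → ((Fin R.d → ℝ) →L[ℝ] (Fin R.d → ℝ))}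
      {A' : (Fin R.d → ℝ) →L[ℝ] (Fin R.d → ℝ)}, Tendsto A atTop (𝓝 A') →
      ∀ w, ∀ x : NP c, Tendsto (fun n => R.evp x (A n w)) atTop (𝓝 (R.evp x (A' w))) :=
    fun h w x => coef_apply_tendsto R.evp h w x
  let x1 : NP c := ⟨1, one_mem_NP⟩
  have hBval : ∀ w, R.evp x1 (Bi w) = R.val w 1 := by
    intro w
    refine tendsto_nhds_unique (happ hBi' w x1) ?_
    have : ∀ n, R.evp x1 (R.B (a (φ₁ (φ₂ (ψ n)))) w) = R.val w 1 := by
      intro n
      have e5 : (a (φ₁ (φ₂ (ψ n))))⁻¹ * (x1 : G) * a (φ₁ (φ₂ (ψ n))) = 1 := by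
        change (a (φ₁ (φ₂ (ψ n))))⁻¹ * 1 * a (φ₁ (φ₂ (ψ n))) = 1
        group
      rw [R.B_val (ha _), e5]
    simp only [this]
    exact tendsto_const_nhds
  have hBw0 : Bi R.w0 = R.w0 := by
    have hc : Continuous fun A : (Fin R.d → ℝ) →L[ℝ] (Fin R.d → ℝ) => A R.w0 :=
      (ContinuousLinearMap.apply ℝ (Fin R.d → ℝ) R.w0).continuous
    refine tendsto_nhds_unique ((hc.tendsto _).comp hBi') ?_
    refine tendsto_const_nhds.congr fun n => ?_
    exact (R.B_w0 (ha _)).symm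
  -- the scalars converge
  set lam := R.evp x1 (q R.w0) with hlam
  have hg : Tendsto (fun n => e (φ₁ (φ₂ (ψ n))) *
      D c.P (((a (φ₁ (φ₂ (ψ n)))) : (Op N)ˣ) : Op N)) atTop (𝓝 lam) := by
    refine (happ t4 R.w0 x1).congr fun n => ?_
    change R.evp x1 ((e (φ₁ (φ₂ (ψ n))) *
      D c.P (((a (φ₁ (φ₂ (ψ n)))) : (Op N)ˣ) : Op N)) • R.B (a (φ₁ (φ₂ (ψ n)))) R.w0) = _
    rw [R.B_w0 (ha _), map_smul]
    change _ • R.val R.w0 1 = _
    rw [R.w0_one, smul_eq_mul, mul_one]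
  have hqB : q = lam • Bi := tendsto_nhds_unique t4 (hg.smul hBi')
  have hlam0 : lam ≠ 0 := by
    intro h0
    rw [h0, zero_smul] at hqB
    exact hq0 hqB
  refine ContinuousLinearMap.ext fun w => ?_
  obtain ⟨t0, ht0⟩ := hqv R.w0
  obtain ⟨t, ht⟩ := hqv w
  set v' := R.ρ (⟨u, hu⟩⁻¹ : G) v
  have e0 : R.w0 = (lam⁻¹ * t0) • v' := by
    have : q R.w0 = lam • R.w0 := by
      rw [hqB]
      change lam • Bi R.w0 = _
      rw [hBw0]
    rw [mul_smul, ← ht0, this, smul_smul, inv_mul_cancel₀ hlam0, one_smul]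
  have e1 : Bi w = (lam⁻¹ * t) • v' := by
    have : q w = lam • Bi w := by
      rw [hqB]
      rfl
    rw [mul_smul, ← ht, this, smul_smul, inv_mul_cancel₀ hlam0, one_smul]
  have ht00 : lam⁻¹ * t0 ≠ 0 := by
    intro h0
    rw [h0, zero_smul] at e0
    have h2 := R.w0_one
    rw [e0, map_zero] at h2
    exact zero_ne_one h2
  have e2 : Bi w = ((lam⁻¹ * t) * (lam⁻¹ * t0)⁻¹) • R.w0 := by
    rw [e1]
    conv_rhs => rw [e0]
    rw [smul_smul, mul_assoc, inv_mul_cancel₀ ht00, mul_one]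
  have e3 := hBval w
  rw [e2, map_smul] at e3
  have e4 : R.evp x1 R.w0 = 1 := R.w0_one
  rw [e4, smul_eq_mul, mul_one] at e3
  rw [e2, e3, R.p_apply]

omit R [Fintype ι] [LinearOrder ι] in
lemma unip_of_tendsto {P : ι → Op N} {r : ι → ι → Prop} {T : ℕ → Op N} {T' : Op N}
    (hT : ∀ n, Unip P r (T n)) (h : Tendsto T atTop (𝓝 T')) : Unip P r T' := by
  have hc : ∀ i j, Tendsto (fun n => P i * T n * P j) atTop (𝓝 (P i * T' * P j)) := fun i j =>
    (tendsto_const_nhds.mul h).mul tendsto_const_nhds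
  constructor
  · intro i
    refine tendsto_nhds_unique (hc i i) (tendsto_const_nhds.congr fun n => ((hT n).1 i).symm)
  · intro i j hij hn
    refine tendsto_nhds_unique (hc i j) (tendsto_const_nhds.congr fun n =>
      ((hT n).2 i j hij hn).symm)

/-- If the normalized torus part converges to `p`, conjugation contracts the unipotent
elements. -/
lemma RepD.contract {a : ℕ → G} {m : ℕ → ι → ℝ} (hm : ∀ n, m n ∈ c.C)
    (ha : ∀ n, (((a n) : (Op N)ˣ) : Op N) = tor c.P (m n))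
    (hB : Tendsto (fun n => R.B (a n)) atTop (𝓝 R.p)) (x : NP c) :
    Tendsto (fun n => cj c.P (m n) (((x : G) : (Op N)ˣ) : Op N)) atTop (𝓝 1) := by
  refine tendsto_of_subseq_tendsto fun ns hns => ?_
  obtain ⟨T, -, ms, hms, hT⟩ := tendsto_subseq_of_bounded
    (Metric.isBounded_closedBall (x := (0 : Op N))
      (r := ∑ i, ∑ j, ‖c.P i * (((x : G) : (Op N)ˣ) : Op N) * c.P j‖))
    (x := fun n => cj c.P (m (ns n)) (((x : G) : (Op N)ˣ) : Op N))
    (fun n => cj_mem_ball (hm _) x.2)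
  refine ⟨ms, ?_⟩
  have hz : ∀ n, (((((a (ns (ms n)))⁻¹ * (x : G) * a (ns (ms n)) : G)) : (Op N)ˣ) : Op N) =
      cj c.P (m (ns (ms n))) (((x : G) : (Op N)ˣ) : Op N) := fun n => (conj_mem (ha _) x.2).2
  have hT' : Tendsto (fun n => cj c.P (m (ns (ms n))) (((x : G) : (Op N)ˣ) : Op N)) atTop
      (𝓝 T) := hT
  have hTu : Unip c.P (fun i j => c.r j i) T := by
    refine unip_of_tendsto (fun n => ?_) hT'
    rw [← hz]
    exact (conj_mem (ha _) x.2).1
  have hunit : IsUnit T :=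
    hTu.isUnit c.grading (fun i j k h h' => c.r_trans k j i h' h) (r_irrefl c)
  obtain ⟨u, hu, huT⟩ := mem_of_tendsto c.closed
    (fun n => ((a (ns (ms n)))⁻¹ * (x : G) * a (ns (ms n)) : G).2) hunit
    (hT'.congr fun n => (hz n).symm)
  -- all functions agree at `u` and `1`
  have hval : ∀ w, R.val w ⟨u, hu⟩ = R.val w 1 := by
    intro w
    obtain ⟨F', h1, h2⟩ := R.hp w
    have h3 : Tendsto (fun n => R.evp x (R.B (a (ns (ms n))) w)) atTop (𝓝 (R.evp x (R.p w))) :=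
      coef_apply_tendsto R.evp (hB.comp (hns.comp hms.tendsto_atTop)) w x
    have h4 : Tendsto (fun n => R.evp x (R.B (a (ns (ms n))) w)) atTop (𝓝 (F' T)) := by
      refine (((PolyFun.continuous h1).tendsto T).comp hT').congr fun n => ?_
      rw [R.B_val (ha _), h2, hz]
      rfl
    have h5 : R.evp x (R.p w) = R.val w 1 := by
      change R.val (R.val w 1 • R.w0) x = _
      rw [map_smul, Pi.smul_apply, R.h0, D_upper c x.2, smul_eq_mul, mul_one]
    rw [h5] at h3
    rw [h2 ⟨u, hu⟩]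
    change F' (u : Op N) = _
    rw [huT]
    exact tendsto_nhds_unique h4 h3
  have hus : star u ∈ G := c.star_mem u hu
  have h6 := hval (R.ρ ⟨star u, hus⟩ R.w0)
  rw [R.hr, R.hr, R.h0, R.h0, one_mul] at h6
  have h7 : ((((⟨u, hu⟩ * ⟨star u, hus⟩ : G)) : (Op N)ˣ) : Op N) = T * star T := by
    rw [← huT]
    rfl
  have h8 : (((⟨star u, hus⟩ : G) : (Op N)ˣ) : Op N) = star T := by
    rw [← huT]
    rfl
  rw [h7, h8, D_unip (s := c.r) c.grading c.r_trans (r_irrefl c) (star_unip c.star_P hTu)] at h6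
  have h9 : T = 1 := eq_one_of_D c.grading c.star_P
    (hTu.mono (s' := fun i j => j < i) fun i j h => c.r_lt j i h) h6
  rw [h9] at hT'
  exact hT'

end Lox

open Lox Filter Topology in
open scoped Topology in
/-- A Zariski dense subgroup contains a sequence whose Cartan projections go to infinity away from
the walls. -/
theorem Cell.exists_seq {N : ℕ} {G : Subgroup (Op N)ˣ} {ι : Type} [Fintype ι] [LinearOrder ι]
    (c : Cell G ι) {S : Subgroup (Op N)ˣ} (hS : S ≤ G) (hz : ZDense (S : Set (Op N)ˣ) G) :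
    ∃ (γ k k' : ℕ → (Op N)ˣ) (m : ℕ → ι → ℝ), (∀ n, γ n ∈ S ∧ k n ∈ G ∧ k' n ∈ G ∧ m n ∈ c.C ∧
      star (k n : Op N) * k n = 1 ∧ star (k' n : Op N) * k' n = 1 ∧
      (γ n : Op N) = k n * (∑ i, Real.exp (m n i) • c.P i) * k' n) ∧
      ∀ i j, c.r i j → Tendsto (fun n => m n j - m n i) atTop atTop := by
  obtain ⟨R⟩ := nonempty_repD G (F := D c.P) D_polyFun
  obtain ⟨s, e, p, hsS, hlim, hp0, hp1⟩ := R.exists_seq hS hz
  have hkak := fun n => c.kak ((s n : G) : (Op N)ˣ) (s n).2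
  choose k hk k' hk' m hm ho ho' hs using hkak
  choose a ha using fun n => exists_tor (c := c) (hm n)
  have hs' : ∀ n, s n = (⟨k n, hk n⟩ : G) * a n * (⟨k' n, hk' n⟩ : G) := by
    intro n
    refine Subtype.ext (Units.ext ?_)
    change (((s n : G) : (Op N)ˣ) : Op N) = (k n : Op N) * (((a n) : (Op N)ˣ) : Op N) * k' n
    rw [hs n, ha n]
    rfl
  obtain ⟨φ, hφ, hB⟩ := R.torus_limit hlim hp0 hp1 (k := fun n => ⟨k n, hk n⟩)
    (k' := fun n => ⟨k' n, hk' n⟩) hm ha hs' ho ho'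
  have hcon := fun x => R.contract (fun n => hm (φ n)) (fun n => ha (φ n)) hB x
  refine ⟨fun n => ((s (φ n) : G) : (Op N)ˣ), fun n => k (φ n), fun n => k' (φ n),
    fun n => m (φ n), fun n => ⟨hsS _, hk _, hk' _, hm _, ho _, ho' _, hs _⟩, ?_⟩
  obtain ⟨c0, hc0, hroot⟩ := c.C_root
  intro i j hij
  rw [tendsto_atTop]
  intro b
  have hR : 0 ≤ max 0 (b / c0) := le_max_left _ _
  have hev : ∀ i' j', ∀ᶠ n in atTop, i' ≠ j' → (∃ x ∈ G, Unip c.P (fun i j => c.r j i)
      (x : Op N) ∧ c.P j' * (x : Op N) * c.P i' ≠ 0) → max 0 (b / c0) ≤ m (φ n) j' - m (φ n) i' := by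
    intro i' j'
    by_cases hne : i' = j'
    · exact Eventually.of_forall fun n h => absurd hne h
    by_cases hx : ∃ x ∈ G, Unip c.P (fun i j => c.r j i) (x : Op N) ∧
        c.P j' * (x : Op N) * c.P i' ≠ 0
    · obtain ⟨x, hxG, hxu, hx0⟩ := hx
      have h1 := hcon ⟨⟨x, hxG⟩, hxu⟩
      have h2 : Tendsto (fun n => c.P j' * cj c.P (m (φ n)) (x : Op N) * c.P i') atTop
          (𝓝 (c.P j' * 1 * c.P i')) := (tendsto_const_nhds.mul h1).mul tendsto_const_nhds
      rw [mul_one, c.grading.orth j' i' (Ne.symm hne)] at h2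
      have h3 : Tendsto (fun n => Real.exp (m (φ n) i' - m (φ n) j') *
          ‖c.P j' * (x : Op N) * c.P i'‖) atTop (𝓝 0) := by
        have h4 := h2.norm
        rw [norm_zero] at h4
        refine h4.congr fun n => ?_
        rw [P_cj_P c.grading, norm_smul, Real.norm_eq_abs, abs_of_pos (Real.exp_pos _)]
      have hpos : 0 < ‖c.P j' * (x : Op N) * c.P i'‖ := norm_pos_iff.2 hx0
      have h5 : ∀ᶠ n in atTop, Real.exp (m (φ n) i' - m (φ n) j') *
          ‖c.P j' * (x : Op N) * c.P i'‖ <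
            Real.exp (-max 0 (b / c0)) * ‖c.P j' * (x : Op N) * c.P i'‖ :=
        h3.eventually_lt_const (mul_pos (Real.exp_pos _) hpos)
      refine h5.mono fun n hn _ _ => ?_
      have h6 := lt_of_mul_lt_mul_right hn hpos.le
      have h7 := Real.exp_lt_exp.1 h6
      linarith
    · exact Eventually.of_forall fun n _ h => absurd h hx
  have hev' : ∀ᶠ n in atTop, ∀ i' j', i' ≠ j' → (∃ x ∈ G, Unip c.P (fun i j => c.r j i)
      (x : Op N) ∧ c.P j' * (x : Op N) * c.P i' ≠ 0) →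
      max 0 (b / c0) ≤ m (φ n) j' - m (φ n) i' :=
    eventually_all.2 fun i' => eventually_all.2 fun j' => hev i' j'
  refine hev'.mono fun n hn => ?_
  have h1 := hroot (m (φ n)) (hm _) _ hR hn i j hij
  have h2 : b ≤ c0 * max 0 (b / c0) := by
    have h3 : c0 * (b / c0) = b := by field_simp
    calc b = c0 * (b / c0) := h3.symm
      _ ≤ c0 * max 0 (b / c0) := mul_le_mul_of_nonneg_left (le_max_right _ _) hc0.le
  exact h2.trans h1

end Pool.Agent.Lib.MP_d9b062_al

end
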