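import Mathlib
import Pool.Agent.Lib.MP_d9b062_al_m.MBlocks
import Pool.Agent.Lib.MP_d9b062_al_m.MLox
import Pool.Agent.Lib.MP_d9b062_al_m.MRat
import Pool.Agent.Lib.MP_d9b062_al_m.MAsy
import Pool.Agent.Lib.MP_d9b062_al_m.MBasic
import Pool.Agent.Lib.MP_d9b062_al_m.MGeneric

/-!
MP_d9b062_al: merged modules (to shorten the build).
-/

set_option autoImplicit false

/-! ## from `MP_d9b062_al_h75.First` -/

section
/-!
# First loxodromic elements, transversal elements, `V`-regular elements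
-/

set_option linter.unusedSectionVars false
set_option linter.unusedVariables false

namespace Pool.Agent.Lib.MP_d9b062_al

open Filter
open scoped Topology

/-- the linear part as a group homomorphism -/
noncomputable def Aff.linHom (N : ℕ) : Aff (V N) →* (Op N)ˣ where
  toFun := Aff.lin
  map_one' := rfl
  map_mul' _ _ := rfl

lemma Aff.lin_pow {N : ℕ} (x : Aff (V N)) (n : ℕ) : (x ^ n).lin = x.lin ^ n :=
  map_pow (Aff.linHom N) x n

lemma IsGrading.sum_smul_mul {R : Type*} [Ring R] [Algebra ℝ R] {ι : Type*} [Fintype ι]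
    {P : ι → R} (hP : IsGrading P) (a : ι → ℝ) (j : ι) : (∑ i, a i • P i) * P j = a j • P j := by
  rw [Finset.sum_mul, Finset.sum_eq_single j]
  · rw [smul_mul_assoc, hP.idem]
  · intro i _ hi
    rw [smul_mul_assoc, hP.orth i j hi, smul_zero]
  · intro h; exact absurd (Finset.mem_univ j) h

namespace Cell

variable {N : ℕ} {G : Subgroup (Op N)ˣ} {ι : Type} [Fintype ι] [LinearOrder ι]

/-- transversal elements -/
theorem Good.exists_reg {c : Cell G ι} {Γ : Subgroup (Aff (V N))} (hΓ : c.Good Γ)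
    {f f' : (Op N)ˣ} (hf : f ∈ G) (hf' : f' ∈ G) :
    ∃ η ∈ Γ, Reg c.P ((f * η.lin * f' : (Op N)ˣ) : Op N) := by
  obtain ⟨D, hD, hD1, hreg⟩ := c.exists_reg_poly
  by_contra hcon
  push Not at hcon
  have hpoly : (fun T : Op N => D ((f : Op N) * T * (f' : Op N))) ∈ PolyFun (Op N) :=
    PolyFun.comp hD (((IsPolyMap.const (f : Op N)).mul IsPolyMap.id).mul
      (IsPolyMap.const (f' : Op N)))
  have h1 := hΓ.dense _ hpoly (by
    rintro s ⟨γ, hγ, rfl⟩
    by_contra hne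
    exact hcon γ hγ ((hreg _).2 hne))
  have h2 := h1 (f⁻¹ * f'⁻¹) (G.mul_mem (G.inv_mem hf) (G.inv_mem hf'))
  apply hD1
  have h3 : (f : Op N) * ((f⁻¹ * f'⁻¹ : (Op N)ˣ) : Op N) * (f' : Op N) = 1 := by
    have : f * (f⁻¹ * f'⁻¹) * f' = 1 := by group
    exact congrArg Units.val this
  have h4 : D ((f : Op N) * ((f⁻¹ * f'⁻¹ : (Op N)ˣ) : Op N) * (f' : Op N)) = 0 := h2
  rwa [h3] at h4

/-- elements of the form `∑ exp (m i) P i` -/
lemma exp_diag_mem (c : Cell G ι) {m : ι → ℝ} (hm : m ∈ c.C) :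
    ∃ a ∈ c.L, (a : Op N) = ∑ i, Real.exp (m i) • c.P i := by
  obtain ⟨g, hg, hgm⟩ := c.C_exp m hm
  refine ⟨g, ⟨hg, ?_⟩, hgm⟩
  rw [hgm]
  apply Diag.sum
  intro i _
  apply Diag.smul
  intro j
  by_cases hij : i = j
  · subst hij; rfl
  · rw [c.grading.orth i j hij, c.grading.orth j i (Ne.symm hij)]

lemma tau_exp_diag (c : Cell G ι) {a : (Op N)ˣ} (ha : a ∈ c.L) {m : ι → ℝ} (hmo : m c.o = 0)
    (ham : (a : Op N) = ∑ i, Real.exp (m i) • c.P i) : c.tau (a : Op N) = m := by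
  ext i
  by_cases hi : c.P i = 0
  · have hio : i = c.o := by
      by_contra h
      exact c.P_ne i h hi
    rw [hio, c.tau_o ha, hmo]
  · obtain ⟨v, hv⟩ : ∃ v, c.P i v ≠ 0 := by
      by_contra hcon
      push Not at hcon
      exact hi (ContinuousLinearMap.ext hcon)
    have h1 := c.tau_spec ha i v
    have h2 : (a : Op N) (c.P i v) = Real.exp (m i) • c.P i v := by
      have h3 : (a : Op N) * c.P i = Real.exp (m i) • c.P i := by
        rw [ham]
        exact c.grading.sum_smul_mul _ i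
      exact congrArg (fun T : Op N => T v) h3
    rw [h2, norm_smul, Real.norm_of_nonneg (Real.exp_pos _).le] at h1
    have h3 : 0 < ‖c.P i v‖ := norm_pos_iff.2 hv
    have h4 := mul_right_cancel₀ h3.ne' h1
    exact (Real.exp_injective h4).symm

lemma continuous_star_Op (N : ℕ) : Continuous (fun T : Op N => star T) :=
  (ContinuousLinearMap.adjoint (𝕜 := ℝ) (E := V N) (F := V N)).continuous

/-- `G` is closed -/
lemma mem_of_tendsto' (c : Cell G ι) {u : ℕ → (Op N)ˣ} (hu : ∀ n, u n ∈ G) {g : (Op N)ˣ}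
    (h : Tendsto (fun n => (u n : Op N)) atTop (𝓝 (g : Op N))) : g ∈ G := by
  refine c.closed g fun F hF hF0 => ?_
  have h1 := ((PolyFun.continuous hF).tendsto (g : Op N)).comp h
  have h2 : Tendsto (fun _ : ℕ => (0 : ℝ)) atTop (𝓝 (F (g : Op N))) :=
    h1.congr fun n => hF0 _ (hu n)
  exact (tendsto_nhds_unique h2 tendsto_const_nhds)

lemma isCompact_orthogonal (N : ℕ) : IsCompact {T : Op N | star T * T = 1} := by
  have hpr : ProperSpace (Op N) := FiniteDimensional.proper ℝ _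
  apply Metric.isCompact_of_isClosed_isBounded
  · exact isClosed_eq ((continuous_star_Op N).mul continuous_id) continuous_const
  · rw [isBounded_iff_forall_norm_le]
    refine ⟨1, fun T hT => ?_⟩
    have h1 := CStarRing.norm_star_mul_self (x := T)
    have h2 : star T * T = 1 := hT
    rw [h2] at h1
    have h3 := norm_one_Op_le (N := N)
    have h4 := norm_nonneg T
    nlinarith

/-- a sequence of orthogonal elements of `G` subconverges in `G` -/
lemma exists_subseq_orthogonal (c : Cell G ι) {k k' : ℕ → (Op N)ˣ} (hk : ∀ n, k n ∈ G)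
    (hk' : ∀ n, k' n ∈ G) (ho : ∀ n, star (k n : Op N) * k n = 1)
    (ho' : ∀ n, star (k' n : Op N) * k' n = 1) :
    ∃ κ ∈ G, ∃ κ' ∈ G, ∃ φ : ℕ → ℕ, StrictMono φ ∧
      Tendsto (fun n => (k (φ n) : Op N)) atTop (𝓝 (κ : Op N)) ∧
      Tendsto (fun n => (k' (φ n) : Op N)) atTop (𝓝 (κ' : Op N)) := by
  obtain ⟨p, hp, φ, hφ, hlim⟩ := ((isCompact_orthogonal N).prod
    (isCompact_orthogonal N)).tendsto_subseq
    (x := fun n => ((k n : Op N), (k' n : Op N))) (fun n => ⟨ho n, ho' n⟩)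
  have h1 : Tendsto (fun n => (k (φ n) : Op N)) atTop (𝓝 p.1) :=
    (continuous_fst.tendsto p).comp hlim
  have h2 : Tendsto (fun n => (k' (φ n) : Op N)) atTop (𝓝 p.2) :=
    (continuous_snd.tendsto p).comp hlim
  have key : ∀ {u : ℕ → (Op N)ˣ} {T : Op N}, (∀ n, star (u n : Op N) * u n = 1) →
      Tendsto (fun n => (u (φ n) : Op N)) atTop (𝓝 T) → T * star T = 1 := by
    intro u T hu hT
    have h3 : ∀ n, (u (φ n) : Op N) * star (u (φ n) : Op N) = 1 := by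
      intro n
      have h4 : star (u (φ n) : Op N) = ((u (φ n))⁻¹ : (Op N)ˣ) := by
        have h5 := hu (φ n)
        calc star (u (φ n) : Op N) = star (u (φ n) : Op N) * (u (φ n)) *
            ((u (φ n))⁻¹ : (Op N)ˣ) := by
              rw [mul_assoc, Units.mul_inv, mul_one]
          _ = _ := by rw [h5, one_mul]
      rw [h4, Units.mul_inv]
    have h4 : Tendsto (fun n => (u (φ n) : Op N) * star (u (φ n) : Op N)) atTop
        (𝓝 (T * star T)) := hT.mul (((continuous_star_Op N).tendsto T).comp hT)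
    simp only [h3] at h4
    exact (tendsto_nhds_unique h4 tendsto_const_nhds)
  let κ : (Op N)ˣ := ⟨p.1, star p.1, key ho h1, hp.1⟩
  let κ' : (Op N)ˣ := ⟨p.2, star p.2, key ho' h2, hp.2⟩
  refine ⟨κ, mem_of_tendsto' c (fun n => hk (φ n)) (g := κ) h1, κ',
    mem_of_tendsto' c (fun n => hk' (φ n)) (g := κ') h2, φ, hφ, h1, h2⟩

lemma tendsto_kap_exp (c : Cell G ι) {a : ℕ → (Op N)ˣ} (ha : ∀ n, a n ∈ c.L)
    {m : ℕ → ι → ℝ} (hm : ∀ n, c.tau (a n : Op N) = m n)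
    (h : ∀ i j, c.r i j → Tendsto (fun n => m n j - m n i) atTop atTop) :
    Tendsto (fun n => c.kap (a n : Op N)) atTop (𝓝 0) := by
  classical
  have key : ∀ i j : ι, Tendsto (fun n => if c.r i j then
      Real.exp (c.tau (a n : Op N) i - c.tau (a n : Op N) j) else 0) atTop (𝓝 0) := by
    intro i j
    by_cases hij : c.r i j
    · have h1 := Real.tendsto_exp_neg_atTop_nhds_zero.comp (h i j hij)
      refine h1.congr fun n => ?_
      simp only [Function.comp, hij, if_true, hm]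
      congr 1
      ring
    · simp only [hij, if_false]
      exact tendsto_const_nhds
  have h1 : Tendsto (fun n => ∑ i, ∑ j, if c.r i j then
      Real.exp (c.tau (a n : Op N) i - c.tau (a n : Op N) j) else 0) atTop
      (𝓝 (∑ _i : ι, ∑ _j : ι, (0 : ℝ))) :=
    tendsto_finsetSum _ fun i _ => tendsto_finsetSum _ fun j _ => key i j
  rw [Finset.sum_const_zero, Finset.sum_const_zero] at h1
  refine h1.congr fun n => ?_
  unfold Cell.kap
  refine Finset.sum_congr rfl fun i _ => Finset.sum_congr rfl fun j _ => ?_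
  by_cases hij : c.r i j
  · simp only [hij, if_true]
  · simp only [hij, if_false]

theorem Good.exists_linLox {c : Cell G ι} {Γ : Subgroup (Aff (V N))} (hΓ : c.Good Γ) :
    ∃ γ ∈ Γ, ∃ f l, c.LinLox γ.lin f l := by
  classical
  set S : Subgroup (Op N)ˣ := Γ.map (Aff.linHom N) with hS
  have hSG : S ≤ G := by
    rintro _ ⟨γ, hγ, rfl⟩
    exact hΓ.lin_mem γ hγ
  have hSd : ZDense (S : Set (Op N)ˣ) G := by
    intro F hF h g hg
    refine hΓ.dense F hF ?_ g hg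
    rintro s ⟨γ, hγ, rfl⟩
    exact h _ ⟨γ, hγ, rfl⟩
  obtain ⟨γ, k, k', m, hγ, hm⟩ := c.exists_seq hSG hSd
  obtain ⟨κ, hκ, κ', hκ', φ, hφ, hlim, hlim'⟩ := exists_subseq_orthogonal c
    (fun n => (hγ n).2.1) (fun n => (hγ n).2.2.1) (fun n => (hγ n).2.2.2.2.1)
    (fun n => (hγ n).2.2.2.2.2.1)
  obtain ⟨η, hη, hreg⟩ := hΓ.exists_reg hκ' hκ
  have hh₀ : κ' * η.lin * κ ∈ G := G.mul_mem (G.mul_mem hκ' (hΓ.lin_mem η hη)) hκ
  obtain ⟨C, hC, δ, hδ, hLR⟩ := c.LR hh₀ hreg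
  have hex : ∀ n, ∃ a ∈ c.L, (a : Op N) = ∑ i, Real.exp (m n i) • c.P i :=
    fun n => exp_diag_mem c (hγ n).2.2.2.1
  choose a ha ham using hex
  have htau : ∀ n, c.tau (a n : Op N) = m n := fun n =>
    tau_exp_diag c (ha n) (c.C_o _ (hγ n).2.2.2.1) (ham n)
  have hkap : Tendsto (fun n => c.kap (a n : Op N)) atTop (𝓝 0) :=
    tendsto_kap_exp c ha htau hm
  have hkap' : Tendsto (fun n => c.kap (a (φ n) : Op N)) atTop (𝓝 0) :=
    hkap.comp hφ.tendsto_atTop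
  have hh : Tendsto (fun n => ((k' (φ n) * η.lin * k (φ n) : (Op N)ˣ) : Op N)) atTop
      (𝓝 ((κ' * η.lin * κ : (Op N)ˣ) : Op N)) := by
    simp only [Units.val_mul]
    exact (hlim'.mul tendsto_const_nhds).mul hlim
  set B : ℝ := ∑ _i : ι, ∑ _j : ι, Real.exp (2 * C) with hB
  have hev1 : ∀ᶠ n in atTop, c.kap (a (φ n) : Op N) < δ := hkap'.eventually_lt_const hδ
  have hev2 : ∀ᶠ n in atTop, c.kap (a (φ n) : Op N) * B < 1 := by
    have := hkap'.mul_const B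
    rw [zero_mul] at this
    exact this.eventually_lt_const one_pos
  have hev3 : ∀ᶠ n in atTop, ‖((k' (φ n) * η.lin * k (φ n) : (Op N)ˣ) : Op N) -
      ((κ' * η.lin * κ : (Op N)ˣ) : Op N)‖ < δ :=
    (tendsto_iff_norm_sub_tendsto_zero.1 hh).eventually_lt_const hδ
  obtain ⟨n, hn1, hn2, hn3⟩ := (hev1.and (hev2.and hev3)).exists
  obtain ⟨ζ, hζ, hζl⟩ := (hγ (φ n)).1
  have hhn : k' (φ n) * η.lin * k (φ n) ∈ G :=
    G.mul_mem (G.mul_mem (hγ (φ n)).2.2.1 (hΓ.lin_mem η hη)) (hγ (φ n)).2.1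
  obtain ⟨-, Y, z, y, d, x, hs⟩ := hLR _ hhn hn3 (a (φ n)) (ha _) hn1
  refine ⟨ζ * η, Γ.mul_mem hζ hη, k (φ n) * (Y * z), a (φ n) * d, ?_, ?_, ?_, ?_⟩
  · exact G.mul_mem (hγ (φ n)).2.1 (G.mul_mem hs.Y_mem.1 hs.z_mem.1)
  · exact c.L.mul_mem (ha _) hs.d_mem
  · apply c.dom_of_kap
    rw [Units.val_mul]
    calc _ ≤ c.kap (a (φ n) : Op N) * c.kap d := c.kap_mul (ha _) hs.d_mem
      _ ≤ c.kap (a (φ n) : Op N) * B :=
        mul_le_mul_of_nonneg_left (c.kap_le_of_tau hs.bound_tau) (c.kap_nonneg _)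
      _ < 1 := hn2
  · have e1 : γ (φ n) = k (φ n) * a (φ n) * k' (φ n) := by
      apply Units.ext
      rw [(hγ (φ n)).2.2.2.2.2.2, Units.val_mul, Units.val_mul, ham]
    have e2 : (ζ * η).lin = γ (φ n) * η.lin := by
      rw [← hζl]; rfl
    rw [e2, e1]
    calc k (φ n) * a (φ n) * k' (φ n) * η.lin =
        k (φ n) * (a (φ n) * (k' (φ n) * η.lin * k (φ n))) * (k (φ n))⁻¹ := by group
      _ = _ := by rw [hs.eq₄]; group

lemma LinLox.pow {c : Cell G ι} {g f l : (Op N)ˣ} (h : c.LinLox g f l) (n : ℕ) :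
    g ^ n = f * l ^ n * f⁻¹ := by
  rw [h.eq, conj_pow]

lemma norm_smul_apply_sq {T : Op N} {a : ℝ} {w : V N} :
    inner ℝ ((a • T) w) ((a • T) w) = a ^ 2 * ‖T w‖ ^ 2 := by
  rw [real_inner_self_eq_norm_sq]
  have : (a • T) w = a • T w := rfl
  rw [this, norm_smul, mul_pow, Real.norm_eq_abs, sq_abs]

/-- for each `i ≠ o` some loxodromic element has `τ i ≠ 0` -/
lemma Good.exists_tau_ne {c : Cell G ι} {Γ : Subgroup (Aff (V N))} (hΓ : c.Good Γ) {i : ι}
    (hi : i ≠ c.o) : ∃ γ ∈ Γ, ∃ f l, c.LinLox γ.lin f l ∧ c.tau (l : Op N) i ≠ 0 := by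
  classical
  by_contra hcon
  push Not at hcon
  obtain ⟨γ, hγ, f, l, hl⟩ := hΓ.exists_linLox
  have hl0 : c.tau (l : Op N) i = 0 := hcon γ hγ f l hl
  have h1 : ∀ η ∈ Γ, Reg c.P ((f⁻¹ * η.lin * f : (Op N)ˣ) : Op N) →
      c.tau (dD c.P ((f⁻¹ * η.lin * f : (Op N)ˣ) : Op N)) i = 0 := by
    intro η hη hreg
    have hhG : f⁻¹ * η.lin * f ∈ G :=
      G.mul_mem (G.mul_mem (G.inv_mem hl.f_mem) (hΓ.lin_mem η hη)) hl.f_mem
    obtain ⟨fn, ln, hlox, htau, -⟩ := c.one_block hl.l_mem hl.dom (t := 0) (map_zero _)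
      (map_zero _) hhG hreg 0
    have h2 : ∀ᶠ n in atTop, c.tau (ln n : Op N) i = 0 := by
      filter_upwards [hlox] with n hn
      refine hcon (γ ^ n * η) (Γ.mul_mem (Γ.pow_mem hγ n) hη) (f * fn n) (ln n)
        ⟨G.mul_mem hl.f_mem hn.f_mem, hn.l_mem, hn.dom, ?_⟩
      rw [Aff.mul_lin, Aff.lin_pow, hl.pow]
      calc f * l ^ n * f⁻¹ * η.lin = f * (l ^ n * (f⁻¹ * η.lin * f)) * f⁻¹ := by group
        _ = _ := by rw [hn.eq]; group
    have h4 := ((continuous_apply i).tendsto _).comp htau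
    refine tendsto_nhds_unique h4 ?_
    refine tendsto_const_nhds.congr' ?_
    filter_upwards [h2] with n hn
    have : ((fun x : ι → ℝ => x i) ∘ fun n : ℕ => c.tau (ln n : Op N) -
        (n : ℝ) • c.tau (l : Op N)) n = c.tau (ln n : Op N) i - (n : ℝ) * c.tau (l : Op N) i := rfl
    rw [this, hn, hl0, mul_zero, sub_zero]
  -- the polynomial
  obtain ⟨D, hD, hregD, k, Q, hQ, hQD⟩ := exists_rat_dD c.grading c.star_P
  obtain ⟨v, hv⟩ : ∃ v, c.P i v ≠ 0 := by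
    by_contra hcon
    push Not at hcon
    exact c.P_ne i hi (ContinuousLinearMap.ext hcon)
  set w := c.P i v with hw
  have hw0 : 0 < ‖w‖ := norm_pos_iff.2 hv
  have hdD : ∀ g ∈ G, Reg c.P (g : Op N) →
      ‖dD c.P (g : Op N) w‖ = Real.exp (c.tau (dD c.P (g : Op N)) i) * ‖w‖ := by
    intro g hg hreg
    obtain ⟨y, -, d, hd, x, -, -, -, hdD, -⟩ := c.exists_LU hg hreg
    rw [← hdD]
    exact c.tau_spec hd i v
  set F : Op N → ℝ := fun T => D T * (innerₗ (V N) (Q T w) (Q T w) - (D T ^ k) ^ 2 * ‖w‖ ^ 2)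
    with hF
  have hQw : IsPolyMap (fun T => Q T w) := hQ.apply (IsPolyMap.const w)
  have hFp : F ∈ PolyFun (Op N) :=
    PolyFun.mul hD (PolyFun.sub (IsPolyMap.bilin (innerₗ (V N)) hQw hQw).polyFun
      (PolyFun.mul (PolyFun.pow (PolyFun.pow hD k) 2) (PolyFun.const _)))
  have hFval : ∀ g ∈ G, Reg c.P (g : Op N) → F (g : Op N) =
      D (g : Op N) * ((D (g : Op N) ^ k) ^ 2 * ‖w‖ ^ 2) *
        (Real.exp (c.tau (dD c.P (g : Op N)) i) ^ 2 - 1) := by
    intro g hg hreg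
    have h2 : innerₗ (V N) (Q (g : Op N) w) (Q (g : Op N) w) =
        (D (g : Op N) ^ k) ^ 2 * ‖dD c.P (g : Op N) w‖ ^ 2 := by
      rw [hQD _ hreg]
      exact norm_smul_apply_sq
    simp only [hF]
    rw [h2, hdD g hg hreg]
    ring
  have hF0 : ∀ g ∈ G, F (((f⁻¹ : (Op N)ˣ) : Op N) * (g : Op N) * (f : Op N)) = 0 := by
    refine hΓ.dense (fun T => F (((f⁻¹ : (Op N)ˣ) : Op N) * T * (f : Op N))) ?_ ?_
    · exact PolyFun.comp hFp (((IsPolyMap.const _).mul IsPolyMap.id).mul (IsPolyMap.const _))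
    · rintro s ⟨η, hη, rfl⟩
      change F (((f⁻¹ * η.lin * f : (Op N)ˣ) : Op N)) = 0
      by_cases hreg : Reg c.P ((f⁻¹ * η.lin * f : (Op N)ˣ) : Op N)
      · rw [hFval _ (G.mul_mem (G.mul_mem (G.inv_mem hl.f_mem) (hΓ.lin_mem η hη)) hl.f_mem) hreg,
          h1 η hη hreg, Real.exp_zero]
        ring
      · have h3 : D ((f⁻¹ * η.lin * f : (Op N)ˣ) : Op N) = 0 := by
          by_contra h4
          exact hreg ((hregD _).2 h4)
        simp only [hF]
        rw [h3, zero_mul]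
  -- a diagonal element
  obtain ⟨a, ha, ham⟩ := exp_diag_mem c (c.μ_mem 1 zero_le_one)
  have hta := tau_exp_diag c ha (by rw [one_smul, c.μ_o]) ham
  obtain ⟨hra, -, hda, -⟩ := c.LU_val c.Nm.one_mem ha c.Np.one_mem
  rw [one_mul, mul_one] at hra hda
  have h5 : F (a : Op N) = 0 := by
    have h6 := hF0 (f * a * f⁻¹) (G.mul_mem (G.mul_mem hl.f_mem ha.1) (G.inv_mem hl.f_mem))
    have h7 : ((f⁻¹ : (Op N)ˣ) : Op N) * ((f * a * f⁻¹ : (Op N)ˣ) : Op N) * (f : Op N) = a := by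
      have : f⁻¹ * (f * a * f⁻¹) * f = a := by group
      exact congrArg Units.val this
    rwa [h7] at h6
  rw [hFval a ha.1 hra, hda, hta] at h5
  have hDa : D (a : Op N) ≠ 0 := (hregD _).1 hra
  have hμi : c.μ i ≠ 0 := by
    rw [← c.μ_o]
    exact fun h => hi (c.μ_mono.injective h)
  have h8 : Real.exp (((1 : ℝ) • c.μ) i) ^ 2 - 1 = 0 := by
    rcases mul_eq_zero.1 h5 with h9 | h9
    · exfalso
      have : D (a : Op N) * ((D (a : Op N) ^ k) ^ 2 * ‖w‖ ^ 2) ≠ 0 := by positivity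
      exact this h9
    · exact h9
  rw [one_smul] at h8
  have h9 : Real.exp (c.μ i) = 1 := by
    have h10 : 0 < Real.exp (c.μ i) := Real.exp_pos _
    nlinarith
  exact hμi (Real.exp_eq_one_iff _ |>.1 h9)

lemma eventually_mul_add_ne {x y : ℝ} (h : x ≠ 0 ∨ y ≠ 0) :
    ∀ᶠ a : ℕ in atTop, (a : ℝ) * x + y ≠ 0 := by
  by_cases hx : x = 0
  · subst hx
    refine Eventually.of_forall fun a => ?_
    rw [mul_zero, zero_add]
    exact h.resolve_left (fun h => h rfl)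
  · filter_upwards [tendsto_natCast_atTop_atTop.eventually_gt_atTop (-y / x)] with a ha h0
    have : (a : ℝ) = -y / x := by
      rw [eq_div_iff hx]; linarith
    exact absurd this ha.ne'

/-- `V`-regularity on a finite set of indices -/
lemma Good.exists_tau_ne_finset {c : Cell G ι} {Γ : Subgroup (Aff (V N))} (hΓ : c.Good Γ)
    (s : Finset ι) (hs : ∀ i ∈ s, i ≠ c.o) :
    ∃ γ ∈ Γ, ∃ f l, c.LinLox γ.lin f l ∧ ∀ i ∈ s, c.tau (l : Op N) i ≠ 0 := by
  classical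
  induction s using Finset.induction_on with
  | empty =>
    obtain ⟨γ, hγ, f, l, hl⟩ := hΓ.exists_linLox
    exact ⟨γ, hγ, f, l, hl, fun i hi => absurd hi (Finset.notMem_empty i)⟩
  | insert j s hj ih =>
    obtain ⟨γ₁, hγ₁, f₁, l₁, h₁, ht₁⟩ := ih fun i hi => hs i (Finset.mem_insert_of_mem hi)
    obtain ⟨γ₂, hγ₂, f₂, l₂, h₂, ht₂⟩ := hΓ.exists_tau_ne (hs j (Finset.mem_insert_self j s))
    obtain ⟨η, hη, hreg⟩ := hΓ.exists_reg (G.inv_mem h₁.f_mem) h₂.f_mem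
    obtain ⟨η', hη', hreg'⟩ := hΓ.exists_reg (G.inv_mem h₂.f_mem) h₁.f_mem
    have hhG : f₁⁻¹ * η.lin * f₂ ∈ G :=
      G.mul_mem (G.mul_mem (G.inv_mem h₁.f_mem) (hΓ.lin_mem η hη)) h₂.f_mem
    have hhG' : f₂⁻¹ * η'.lin * f₁ ∈ G :=
      G.mul_mem (G.mul_mem (G.inv_mem h₂.f_mem) (hΓ.lin_mem η' hη')) h₁.f_mem
    have hev : ∀ᶠ a : ℕ in atTop, ∀ i ∈ insert j s,
        (a : ℝ) * c.tau (l₁ : Op N) i + c.tau (l₂ : Op N) i ≠ 0 := by
      rw [Filter.eventually_all_finset]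
      intro i hi
      apply eventually_mul_add_ne
      rcases Finset.mem_insert.1 hi with h | h
      · right; rw [h]; exact ht₂
      · left; exact ht₁ i h
    obtain ⟨a, ha, ha1⟩ := (hev.and (eventually_ge_atTop 1)).exists
    have ha1' : (1 : ℝ) ≤ a := by exact_mod_cast ha1
    obtain ⟨C, n₀, hblock⟩ := c.two_block h₁.l_mem h₁.dom h₂.l_mem h₂.dom (t₁ := 0) (t₂ := 0)
      (map_zero _) (map_zero _) (map_zero _) (map_zero _) hhG hreg hhG' hreg' 0 0
      (ρ := 1 / a) (by positivity)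
    have hev2 : ∀ᶠ K : ℕ in atTop, ∀ i ∈ insert j s,
        C < (K : ℝ) * |(a : ℝ) * c.tau (l₁ : Op N) i + c.tau (l₂ : Op N) i| := by
      rw [Filter.eventually_all_finset]
      intro i hi
      exact (tendsto_natCast_atTop_atTop.atTop_mul_const
        (abs_pos.2 (ha i hi))).eventually_gt_atTop C
    obtain ⟨K, hK, hKn⟩ := (hev2.and (eventually_ge_atTop n₀)).exists
    obtain ⟨f, l, hlox, htau, -⟩ := hblock (K * a) K (hKn.trans (Nat.le_mul_of_pos_right K ha1))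
      hKn (by
        push_cast
        have : (1 : ℝ) / a * (K * a) = K := by field_simp
        rw [this]) (by
        push_cast
        have e1 : (1 : ℝ) / a ≤ 1 := by
          rw [div_le_one (by linarith)]; exact ha1'
        have e2 : (0 : ℝ) ≤ K := Nat.cast_nonneg K
        nlinarith)
    refine ⟨γ₁ ^ (K * a) * η * γ₂ ^ K * η',
      Γ.mul_mem (Γ.mul_mem (Γ.mul_mem (Γ.pow_mem hγ₁ _) hη) (Γ.pow_mem hγ₂ _)) hη',
      f₁ * f, l, ⟨G.mul_mem h₁.f_mem hlox.f_mem, hlox.l_mem, hlox.dom, ?_⟩, ?_⟩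
    · rw [Aff.mul_lin, Aff.mul_lin, Aff.mul_lin, Aff.lin_pow, Aff.lin_pow, h₁.pow, h₂.pow]
      calc f₁ * l₁ ^ (K * a) * f₁⁻¹ * η.lin * (f₂ * l₂ ^ K * f₂⁻¹) * η'.lin =
          f₁ * (l₁ ^ (K * a) * (f₁⁻¹ * η.lin * f₂) * l₂ ^ K * (f₂⁻¹ * η'.lin * f₁)) * f₁⁻¹ := by
            group
        _ = _ := by rw [hlox.eq]; group
    · intro i hi h0
      have h3 := (norm_le_pi_norm _ i).trans htau
      have h4 : (c.tau (l : Op N) - (((K * a : ℕ) : ℝ) • c.tau (l₁ : Op N) +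
          (K : ℝ) • c.tau (l₂ : Op N))) i = c.tau (l : Op N) i -
          (((K * a : ℕ) : ℝ) * c.tau (l₁ : Op N) i + (K : ℝ) * c.tau (l₂ : Op N) i) := rfl
      rw [h4, h0] at h3
      have h5 : (0 : ℝ) - (((K * a : ℕ) : ℝ) * c.tau (l₁ : Op N) i +
          (K : ℝ) * c.tau (l₂ : Op N) i) =
          -(K * ((a : ℝ) * c.tau (l₁ : Op N) i + c.tau (l₂ : Op N) i)) := by
        push_cast; ring
      rw [h5, norm_neg, norm_mul, Real.norm_natCast, Real.norm_eq_abs] at h3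
      exact absurd h3 (not_le.2 (hK i hi))

theorem Good.exists_alox {c : Cell G ι} {Γ : Subgroup (Aff (V N))} (hΓ : c.Good Γ) :
    ∃ γ ∈ Γ, ∃ F l t, c.ALox γ F l t := by
  classical
  obtain ⟨γ, hγ, f, l, hl, htau⟩ := hΓ.exists_tau_ne_finset (Finset.univ.filter (· ≠ c.o))
    (fun i hi => (Finset.mem_filter.1 hi).2)
  obtain ⟨F, t, -, h⟩ := c.exists_alox hl
    (fun i hi => htau i (Finset.mem_filter.2 ⟨Finset.mem_univ i, hi⟩))
  exact ⟨γ, hγ, F, l, t, h⟩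

end Cell

end Pool.Agent.Lib.MP_d9b062_al

end

/-! ## from `MP_d9b062_al_h94.Iso` -/

section
/-!
# The isometric part of a block diagonal element

(Part of task NOREL of the `MP_d9b062_al` project.)
-/

set_option linter.unusedSectionVars false

namespace Pool.Agent.Lib.MP_d9b062_al

open Filter Asymptotics
open scoped Topology

section Pyth

variable {N : ℕ} {ι : Type} [Fintype ι] {P : ι → Op N}

lemma inner_star {T : Op N} (v w : V N) : inner ℝ (T v) w = inner ℝ v ((star T) w) := by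
  rw [ContinuousLinearMap.star_eq_adjoint, ContinuousLinearMap.adjoint_inner_right]

lemma norm_sq_grading (hP : IsGrading P) (hs : ∀ i, star (P i) = P i) (v : V N) :
    ‖v‖ ^ 2 = ∑ i, ‖P i v‖ ^ 2 := by
  have h1 : v = ∑ i, P i v := by
    have h : (∑ i, P i) v = (1 : Op N) v := by rw [hP.sum_eq]
    rw [_root_.sum_apply] at h
    exact h.symm
  have h2 : ∀ i, ‖P i v‖ ^ 2 = inner ℝ (P i v) v := by
    intro i
    rw [← real_inner_self_eq_norm_sq, inner_star (T := P i) v (P i v), hs]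
    have : P i (P i v) = P i v := by
      have h := congrArg (fun T : Op N => T v) (hP.idem i)
      exact h
    rw [this, real_inner_comm]
  simp only [h2]
  rw [← sum_inner, ← h1, real_inner_self_eq_norm_sq]

end Pyth

namespace Cell

variable {N : ℕ} {G : Subgroup (Op N)ˣ} {ι : Type} [Fintype ι] [LinearOrder ι] (c : Cell G ι)

/-- the isometric part of a block diagonal element -/
noncomputable def iso (l : Op N) : Op N := ∑ i, Real.exp (-c.tau l i) • (l * c.P i)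

variable {l : (Op N)ˣ}

lemma iso_mul_P (l : Op N) (i : ι) : c.iso l * c.P i = Real.exp (-c.tau l i) • (l * c.P i) := by
  rw [iso, Finset.sum_mul, Finset.sum_eq_single i]
  · rw [smul_mul_assoc, mul_assoc, c.grading.idem]
  · intro j _ hj
    rw [smul_mul_assoc, mul_assoc, c.grading.orth j i hj, mul_zero, smul_zero]
  · intro h
    exact absurd (Finset.mem_univ i) h

lemma P_mul_iso (hl : Diag c.P (l : Op N)) (i : ι) :
    c.P i * c.iso (l : Op N) = c.iso (l : Op N) * c.P i := by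
  rw [iso, Finset.sum_mul, Finset.mul_sum]
  refine Finset.sum_congr rfl fun j _ => ?_
  have h1 : c.P i * ((l : Op N) * c.P j) = (l : Op N) * c.P j * c.P i := by
    rw [← mul_assoc, hl i, mul_assoc, mul_assoc, c.grading.diag j i]
  rw [mul_smul_comm, smul_mul_assoc, h1]

lemma l_mul_P (l : Op N) (i : ι) : l * c.P i = Real.exp (c.tau l i) • (c.iso l * c.P i) := by
  rw [iso_mul_P, smul_smul, ← Real.exp_add, add_neg_cancel, Real.exp_zero, one_smul]

lemma pow_mul_P (hl : Diag c.P (l : Op N)) (n : ℕ) (i : ι) :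
    (l : Op N) ^ n * c.P i = Real.exp (c.tau (l : Op N) i * n) • (c.iso (l : Op N) ^ n * c.P i) := by
  induction n with
  | zero => simp
  | succ n ih =>
    calc (l : Op N) ^ (n + 1) * c.P i = (l : Op N) ^ n * ((l : Op N) * c.P i) := by
          rw [pow_succ, mul_assoc]
      _ = Real.exp (c.tau (l : Op N) i) • (((l : Op N) ^ n * c.P i) * c.iso (l : Op N)) := by
          rw [l_mul_P, ← c.P_mul_iso hl i, mul_smul_comm, mul_assoc]
      _ = Real.exp (c.tau (l : Op N) i * (n + 1 : ℕ)) •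
            (c.iso (l : Op N) ^ (n + 1) * c.P i) := by
          rw [ih, smul_mul_assoc, smul_smul, mul_assoc, c.P_mul_iso hl i, ← mul_assoc, ← pow_succ,
            ← Real.exp_add]
          congr 2
          push_cast
          ring

lemma norm_iso (hl : l ∈ c.L) (v : V N) : ‖c.iso (l : Op N) v‖ = ‖v‖ := by
  have h : ‖c.iso (l : Op N) v‖ ^ 2 = ‖v‖ ^ 2 := by
    rw [norm_sq_grading c.grading c.star_P, norm_sq_grading c.grading c.star_P v]
    refine Finset.sum_congr rfl fun i _ => ?_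
    have h1 : c.P i (c.iso (l : Op N) v) = Real.exp (-c.tau (l : Op N) i) •
        ((l : Op N) (c.P i v)) := by
      have h2 : (c.P i * c.iso (l : Op N)) v = (Real.exp (-c.tau (l : Op N) i) •
        ((l : Op N) * c.P i)) v := by
        rw [c.P_mul_iso hl.2, iso_mul_P]
      exact h2
    rw [h1, norm_smul, c.tau_spec hl, ← mul_assoc, Real.norm_of_nonneg (Real.exp_pos _).le,
      ← Real.exp_add, neg_add_cancel, Real.exp_zero, one_mul]
  exact (pow_left_inj₀ (norm_nonneg _) (norm_nonneg _) two_ne_zero).1 h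

lemma star_iso (hl : l ∈ c.L) : star (c.iso (l : Op N)) * c.iso (l : Op N) = 1 := by
  have h := (ContinuousLinearMap.norm_map_iff_adjoint_comp_self (c.iso (l : Op N))).1
    (c.norm_iso hl)
  rw [ContinuousLinearMap.star_eq_adjoint]
  exact h

lemma iso_inv (hl : l ∈ c.L) :
    c.iso ((l⁻¹ : (Op N)ˣ) : Op N) = star (c.iso (l : Op N)) := by
  have hl' : l⁻¹ ∈ c.L := c.L.inv_mem hl
  -- `iso l⁻¹ * iso l = 1`
  have key : ∀ {l : (Op N)ˣ}, l ∈ c.L → c.iso ((l⁻¹ : (Op N)ˣ) : Op N) * c.iso (l : Op N) = 1 := by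
    intro l hl
    have hτ := c.tau_inv hl
    have : c.iso (l : Op N) = ∑ i, Real.exp (-c.tau (l : Op N) i) • (c.P i * l) := by
      rw [iso]
      exact Finset.sum_congr rfl fun i _ => by rw [hl.2 i]
    rw [this, Finset.mul_sum]
    have h1 : ∀ i, c.iso ((l⁻¹ : (Op N)ˣ) : Op N) * (Real.exp (-c.tau (l : Op N) i) •
        (c.P i * l)) = c.P i := by
      intro i
      rw [mul_smul_comm, ← mul_assoc, iso_mul_P, hτ, smul_mul_assoc, smul_smul, ← Real.exp_add,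
        Pi.neg_apply, neg_neg, neg_add_cancel, Real.exp_zero, one_smul, mul_assoc, hl.2 i,
        ← mul_assoc, Units.inv_mul, one_mul]
    rw [Finset.sum_congr rfl fun i _ => h1 i, c.grading.sum_eq]
  have h1 := c.star_iso hl
  have h2 := key hl'
  rw [inv_inv] at h2
  calc c.iso ((l⁻¹ : (Op N)ˣ) : Op N)
      = (star (c.iso (l : Op N)) * c.iso (l : Op N)) * c.iso ((l⁻¹ : (Op N)ˣ) : Op N) := by
        rw [h1, one_mul]
    _ = star (c.iso (l : Op N)) := by rw [mul_assoc, h2, mul_one]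

/-- the powers of a block diagonal element have an exponential expansion -/
lemma expSum_pow (hl : l ∈ c.L) :
    ExpSum (c.iso (l : Op N)) (fun n => (l : Op N) ^ n) := by
  refine ExpSum.of_index Finset.univ (fun i => c.tau (l : Op N) i) (fun i x => x * c.P i)
    (fun i => continuous_id.mul continuous_const) fun n => ?_
  rw [c.grading.mul_sum ((l : Op N) ^ n)]
  exact Finset.sum_congr rfl fun i _ => c.pow_mul_P hl.2 n i

lemma expSum_inv_pow (hl : l ∈ c.L) :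
    ExpSum (c.iso (l : Op N)) (fun n => ((l⁻¹ : (Op N)ˣ) : Op N) ^ n) := by
  refine ExpSum.of_index Finset.univ (fun i => c.tau ((l⁻¹ : (Op N)ˣ) : Op N) i)
    (fun i x => star x * c.P i)
    (fun i => continuous_star.mul continuous_const) fun n => ?_
  rw [c.grading.mul_sum (((l⁻¹ : (Op N)ˣ) : Op N) ^ n)]
  refine Finset.sum_congr rfl fun i _ => ?_
  rw [c.pow_mul_P (c.L.inv_mem hl).2 n i, c.iso_inv hl, star_pow]

end Cell

end Pool.Agent.Lib.MP_d9b062_al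

end

/-! ## from `MP_d9b062_al_h94.Rel1` -/

section
/-!
# A linear relation between the invariants, first consequences

(Part of task NOREL of the `MP_d9b062_al` project.)
-/

set_option linter.unusedSectionVars false

namespace Pool.Agent.Lib.MP_d9b062_al

open Filter Asymptotics
open scoped Topology

namespace Cell

variable {N : ℕ} {G : Subgroup (Op N)ˣ} {ι : Type} [Fintype ι] [LinearOrder ι] {c : Cell G ι}

lemma aff_pow {l : (Op N)ˣ} {t : V N} (ht : (l : Op N) t = t) (n : ℕ) :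
    (⟨l, t⟩ : Aff (V N)) ^ n = ⟨l ^ n, (n : ℝ) • t⟩ := by
  induction n with
  | zero =>
    rw [pow_zero, pow_zero]
    ext1
    · rfl
    · simp
  | succ n ih =>
    rw [pow_succ', ih]
    ext1
    · rw [Aff.mul_lin, pow_succ']
    · rw [Aff.mul_tr]
      change t + (l : Op N) ((n : ℝ) • t) = ((n + 1 : ℕ) : ℝ) • t
      rw [map_smul, ht]
      push_cast
      rw [add_smul, one_smul, add_comm]

lemma conj_lin_mem {Γ : Subgroup (Aff (V N))} (hΓ : c.Good Γ) {F η : Aff (V N)}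
    (hF : F.lin ∈ G) (hη : F * η * F⁻¹ ∈ Γ) : η.lin ∈ G := by
  have h := hΓ.lin_mem _ hη
  have h1 : η.lin = F.lin⁻¹ * (F * η * F⁻¹).lin * F.lin := by
    rw [Aff.mul_lin, Aff.mul_lin, Aff.inv_lin]
    group
  rw [h1]
  exact G.mul_mem (G.mul_mem (G.inv_mem hF) h) hF

/-- the linear relation for a regular element, in the coordinates of a loxodromic element -/
theorem Good.rel_of_reg {Γ : Subgroup (Aff (V N))} (hΓ : c.Good Γ) {e : V N}
    (φ : (ι → ℝ) →ₗ[ℝ] ℝ)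
    (h : ∀ γ ∈ Γ, ∀ F l t, c.ALox γ F l t → inner ℝ (c.PL t) e = φ (c.tau (l : Op N)))
    {γ₀ F : Aff (V N)} {l : (Op N)ˣ} {t : V N} (hγ₀ : γ₀ ∈ Γ) (hlox : c.ALox γ₀ F l t)
    {η : Aff (V N)} (hη : F * η * F⁻¹ ∈ Γ) (hreg : Reg c.P (η.lin : Op N)) :
    inner ℝ (c.PL (Ring.inverse (yL c.P (η.lin : Op N)) η.tr)) e =
      φ (c.tau (dD c.P (η.lin : Op N))) := by
  have hηG := conj_lin_mem hΓ hlox.F_mem hη
  obtain ⟨f, l', hlin, htau, hT⟩ := c.one_block hlox.l_mem hlox.dom hlox.P_t hlox.l_t hηG hreg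
    η.tr
  -- the elements `l' n` are `V`-regular for large `n`
  have hvreg : ∀ᶠ n in atTop, c.VReg (l' n : Op N) := by
    have h1 : ∀ i : ι, i ≠ c.o → ∀ᶠ n in atTop, c.tau (l' n : Op N) i ≠ 0 := by
      intro i hi
      have hne := hlox.vreg i hi
      have h2 : Tendsto (fun n : ℕ => c.tau (l' n : Op N) i - (n : ℝ) * c.tau (l : Op N) i) atTop
          (𝓝 (c.tau (dD c.P (η.lin : Op N)) i)) := by
        have := ((continuous_apply i).tendsto _).comp htau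
        exact this
      have h3 : ∀ᶠ n : ℕ in atTop,
          |c.tau (l' n : Op N) i - (n : ℝ) * c.tau (l : Op N) i| <
            |c.tau (dD c.P (η.lin : Op N)) i| + 1 :=
        h2.abs.eventually (gt_mem_nhds (lt_add_one _))
      have h4 : ∀ᶠ n : ℕ in atTop, |c.tau (dD c.P (η.lin : Op N)) i| + 1 <
          (n : ℝ) * |c.tau (l : Op N) i| :=
        (tendsto_natCast_atTop_atTop.atTop_mul_const (abs_pos.2 hne)).eventually_gt_atTop _
      filter_upwards [h3, h4] with n h3 h4 h5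
      rw [h5, zero_sub, abs_neg, abs_mul, Nat.abs_cast] at h3
      linarith
    have h2 : ∀ᶠ n in atTop, ∀ i : ι, i ≠ c.o → c.tau (l' n : Op N) i ≠ 0 := by
      rw [eventually_all]
      intro i
      by_cases hi : i = c.o
      · exact Eventually.of_forall fun n hi' => absurd hi hi'
      · filter_upwards [h1 i hi] with n hn _
        exact hn
    exact h2
  -- the relation for `γ₀ ^ n * η`
  have hrel : ∀ᶠ n : ℕ in atTop,
      inner ℝ (c.T (f n) ((⟨l ^ n, (n : ℝ) • t⟩ : Aff (V N)) * ⟨η.lin, η.tr⟩)) e =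
        φ (c.tau (l' n : Op N)) := by
    filter_upwards [hlin, hvreg] with n hn hv
    set γ' : Aff (V N) := (⟨l ^ n, (n : ℝ) • t⟩ : Aff (V N)) * ⟨η.lin, η.tr⟩ with hγ'
    have hn' : c.LinLox γ'.lin (f n) (l' n) := hn
    obtain ⟨F', t', hF', hA⟩ := c.exists_alox hn' hv
    have hT' := c.T_eq hA
    rw [hF'] at hT'
    rw [hT']
    have hmem : F * γ' * F⁻¹ ∈ Γ := by
      have h1 : F * γ' * F⁻¹ = γ₀ ^ n * (F * η * F⁻¹) := by
        have h2 : γ₀ ^ n = F * (⟨l ^ n, (n : ℝ) • t⟩ : Aff (V N)) * F⁻¹ := by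
          rw [← aff_pow hlox.l_t, hlox.eq, conj_pow]
        rw [h2, hγ']
        group
      rw [h1]
      exact Γ.mul_mem (Γ.pow_mem hγ₀ n) hη
    refine h _ hmem (F * F') (l' n) t' ⟨?_, hA.l_mem, hA.dom, hA.vreg, hA.P_t, hA.l_t, ?_⟩
    · rw [Aff.mul_lin]
      exact G.mul_mem hlox.F_mem hA.F_mem
    · rw [hA.eq]
      group
  have h0 := h γ₀ hγ₀ F l t hlox
  have hL : Tendsto (fun n : ℕ => inner ℝ (c.T (f n) ((⟨l ^ n, (n : ℝ) • t⟩ : Aff (V N)) *
      ⟨η.lin, η.tr⟩) - (n : ℝ) • c.PL t) e) atTop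
      (𝓝 (inner ℝ (c.PL (Ring.inverse (yL c.P (η.lin : Op N)) η.tr)) e)) :=
    hT.inner tendsto_const_nhds
  have hφ : Continuous φ := φ.continuous_of_finiteDimensional
  have hR : Tendsto (fun n : ℕ => φ (c.tau (l' n : Op N) - (n : ℝ) • c.tau (l : Op N))) atTop
      (𝓝 (φ (c.tau (dD c.P (η.lin : Op N))))) := (hφ.tendsto _).comp htau
  refine tendsto_nhds_unique hL (hR.congr' ?_)
  filter_upwards [hrel] with n hn
  rw [inner_sub_left, hn, inner_smul_left, h0, map_sub, map_smul, smul_eq_mul]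
  simp

end Cell

end Pool.Agent.Lib.MP_d9b062_al

end

/-! ## from `MP_d9b062_al_h94.Rel2` -/

section
/-!
# A linear relation between the invariants: the asymptotic argument

(Part of task NOREL of the `MP_d9b062_al` project.)
-/

set_option linter.unusedSectionVars false

namespace Pool.Agent.Lib.MP_d9b062_al

open Filter Asymptotics
open scoped Topology

section Poly

variable {N : ℕ}

/-- `D ^ K` times the inverse of `D⁻¹ • Q`, for `D⁻¹ • Q` unipotent -/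
noncomputable def yInv (K : ℕ) (D : Op N → ℝ) (Q : Op N → Op N) (T : Op N) : Op N :=
  ∑ k ∈ Finset.range (K + 1), D T ^ (K - k) • (D T • (1 : Op N) - Q T) ^ k

lemma isPolyMap_yInv (K : ℕ) {D : Op N → ℝ} {Q : Op N → Op N} (hD : D ∈ PolyFun (Op N))
    (hQ : IsPolyMap Q) : IsPolyMap (yInv K D Q) := by
  unfold yInv
  refine IsPolyMap.sum _ fun k _ => IsPolyMap.smul (PolyFun.pow hD (K - k)) ?_
  exact IsPolyMap.pow (IsPolyMap.sub (IsPolyMap.smul hD (IsPolyMap.const 1)) hQ) k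

lemma yInv_eq {ι : Type} [Fintype ι] [LinearOrder ι] {P : ι → Op N} (hP : IsGrading P)
    {D : Op N → ℝ} {Q : Op N → Op N} (hDreg : ∀ T, Reg P T ↔ D T ≠ 0)
    (hyL : ∀ T, Reg P T → yL P T = (D T)⁻¹ • Q T) {T : Op N} (h : Reg P T) :
    yInv (Fintype.card ι) D Q T = D T ^ (Fintype.card ι) • Ring.inverse (yL P T) := by
  have hD := (hDreg T).1 h
  rw [(yL_unip hP h).inverse_eq hP lt_trans' (fun i => lt_irrefl i), unipInv, Finset.smul_sum,
    yInv]
  refine Finset.sum_congr rfl fun k hk => ?_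
  have hk' : k ≤ Fintype.card ι := Nat.lt_succ_iff.1 (Finset.mem_range.1 hk)
  have h1 : (1 : Op N) - yL P T = (D T)⁻¹ • (D T • (1 : Op N) - Q T) := by
    rw [hyL T h, smul_sub, smul_smul, inv_mul_cancel₀ hD, one_smul]
  rw [h1, smul_pow, smul_smul]
  congr 1
  rw [inv_pow, ← div_eq_mul_inv, eq_div_iff (pow_ne_zero _ hD), ← pow_add,
    Nat.sub_add_cancel hk']

end Poly

section Asy

variable {E : Type*} [NormedAddCommGroup E] [InnerProductSpace ℝ E] [CompleteSpace E]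
  [FiniteDimensional ℝ E] {m : E →L[ℝ] E} {N : ℕ}

lemma Asy.apply (hm : Star.star m * m = 1) {f : ℕ → Op N} {g : ℕ → V N} (hf : Asy m f)
    (hg : Asy m g) : Asy m (fun n => f n (g n)) :=
  Asy.bilin hm (ContinuousLinearMap.id ℝ (V N →L[ℝ] V N)) hf hg

lemma Asy.inner (hm : Star.star m * m = 1) {f g : ℕ → V N} (hf : Asy m f)
    (hg : Asy m g) : Asy m (fun n => Inner.inner ℝ (f n) (g n)) :=
  Asy.bilin hm (innerSL ℝ) hf hg

end Asy

namespace Cell

variable {N : ℕ} {G : Subgroup (Op N)ˣ} {ι : Type} [Fintype ι] [LinearOrder ι] {c : Cell G ι}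

lemma exists_unit_vec {i : ι} (hi : c.P i ≠ 0) : ∃ v : V N, c.P i v = v ∧ ‖v‖ = 1 := by
  have h : ∃ v, c.P i v ≠ 0 := by
    by_contra hcon
    push Not at hcon
    exact hi (ContinuousLinearMap.ext hcon)
  obtain ⟨v, hv⟩ := h
  have hidem : ∀ w, c.P i (c.P i w) = c.P i w := fun w =>
    congrArg (fun T : Op N => T w) (c.grading.idem i)
  refine ⟨‖c.P i v‖⁻¹ • c.P i v, ?_, ?_⟩
  · rw [map_smul, hidem]
  · rw [norm_smul, norm_inv, norm_norm, inv_mul_cancel₀ (norm_ne_zero_iff.2 hv)]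

lemma tau_eq_log {l : (Op N)ˣ} (hl : l ∈ c.L) {i : ι} {v : V N} (hv : c.P i v = v)
    (hv1 : ‖v‖ = 1) :
    c.tau (l : Op N) i = (1 / 2) * Real.log |inner ℝ ((l : Op N) v) ((l : Op N) v)| := by
  have h1 := c.tau_spec hl i v
  rw [hv, hv1, mul_one] at h1
  rw [real_inner_self_eq_norm_sq, h1, ← Real.exp_nat_mul, abs_of_pos (Real.exp_pos _),
    Real.log_exp]
  push_cast
  ring

variable {m : V N →L[ℝ] V N}

/-- expansion of the weights of the diagonal part -/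
lemma tau_asy (hm : star m * m = 1) {T : ℕ → (Op N)ˣ} (hT : ∀ n, T n ∈ G)
    (hA : Asy m (fun n => (T n : Op N))) {h₂ : (Op N)ˣ} (hh₂ : h₂ ∈ G)
    (hr : Reg c.P (h₂ : Op N)) {a : ℝ} (ha : a < 0)
    (hlim : (fun n => (T n : Op N) - h₂) =O[atTop] fun n : ℕ => Real.exp (a * n)) (i : ι) :
    Asy m (fun n => c.tau (dD c.P (T n : Op N)) i) := by
  by_cases hi : c.P i = 0
  · refine (Asy.const (0 : ℝ)).congr' (Eventually.of_forall fun n => ?_)
    rw [tau, if_pos hi]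
  obtain ⟨v, hv, hv1⟩ := exists_unit_vec hi
  have hd : Asy m (fun n => dD c.P (T n : Op N) v) :=
    Asy.apply hm (Asy.dD hm c.grading c.star_P hA hr ha hlim) (Asy.const v)
  have hs := Asy.inner hm hd hd
  obtain ⟨K, hK, δ, hδ, hLip⟩ := exists_lipschitz c.grading c.star_P hr
  have htend := tendsto_of_isBigO_exp ha hlim
  have hclose : ∀ᶠ n in atTop, ‖(T n : Op N) - h₂‖ < δ := by
    have h1 : Tendsto (fun n => ‖(T n : Op N) - h₂‖) atTop (𝓝 0) := by
      have := (htend.sub_const (h₂ : Op N)).norm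
      simpa using this
    exact h1.eventually (gt_mem_nhds hδ)
  have hdlim : (fun n => dD c.P (T n : Op N) v - dD c.P (h₂ : Op N) v) =O[atTop]
      fun n : ℕ => Real.exp (a * n) := by
    refine IsBigO.trans (g := fun n => (T n : Op N) - h₂) ?_ hlim
    refine IsBigO.of_bound K ?_
    filter_upwards [hclose] with n hn
    have h1 := (hLip (T n) h₂ hn (by simpa using hδ)).2.2.2
    calc ‖dD c.P (T n : Op N) v - dD c.P (h₂ : Op N) v‖
        = ‖(dD c.P (T n : Op N) - dD c.P (h₂ : Op N)) v‖ := rfl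
      _ ≤ ‖dD c.P (T n : Op N) - dD c.P (h₂ : Op N)‖ * ‖v‖ := ContinuousLinearMap.le_opNorm _ _
      _ ≤ K * ‖(T n : Op N) - h₂‖ := by rw [hv1, mul_one]; exact h1
  obtain ⟨y, hy, d, hd', x, hx, -, -, hdd, -⟩ := c.exists_LU hh₂ hr
  have hne : inner ℝ (dD c.P (h₂ : Op N) v) (dD c.P (h₂ : Op N) v) ≠ (0 : ℝ) := by
    rw [← hdd, real_inner_self_eq_norm_sq]
    have h1 := c.tau_spec hd' i v
    rw [hv, hv1, mul_one] at h1
    rw [h1]
    positivity
  have hslim : (fun n => inner ℝ (dD c.P (T n : Op N) v) (dD c.P (T n : Op N) v) -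
      inner ℝ (dD c.P (h₂ : Op N) v) (dD c.P (h₂ : Op N) v)) =O[atTop]
      fun n : ℕ => Real.exp (a * n) := by
    have hb : (fun n => dD c.P (T n : Op N) v) =O[atTop] fun _ : ℕ => (1 : ℝ) :=
      (tendsto_of_isBigO_exp ha hdlim).isBigO_one ℝ
    have hb' : (fun _ : ℕ => dD c.P (h₂ : Op N) v) =O[atTop] fun _ : ℕ => (1 : ℝ) :=
      isBigO_const_one ℝ _ _
    have key : ∀ {f g : ℕ → V N} {f' g' : ℕ → ℝ}, f =O[atTop] f' → g =O[atTop] g' →
        (fun n => inner ℝ (f n) (g n)) =O[atTop] fun n => f' n * g' n := by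
      intro f g f' g' hf hg
      refine IsBigO.trans ?_ (hf.norm_left.mul hg.norm_left)
      refine IsBigO.of_bound 1 (Eventually.of_forall fun n => ?_)
      rw [one_mul, norm_mul, norm_norm, norm_norm]
      exact norm_inner_le_norm _ _
    have h1 := (key hdlim hb).add (key hb' hdlim |>.congr_right fun n => mul_comm _ _)
    refine (h1.congr_left fun n => ?_).congr_right fun n => by rw [mul_one]
    rw [inner_sub_left, inner_sub_right]
    ring
  have hlog := Asy.log hm hs hne ha hslim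
  refine ((Asy.const (1 / 2 : ℝ)).mul hm hlog).congr' ?_
  filter_upwards [eventually_reg hr htend] with n hn
  obtain ⟨y', hy', d', hd'', x', hx', -, -, hdd', -⟩ := c.exists_LU (hT n) hn
  rw [← hdd', tau_eq_log hd'' hv hv1]

lemma phi_tau_asy (hm : star m * m = 1) (φ : (ι → ℝ) →ₗ[ℝ] ℝ) {T : ℕ → (Op N)ˣ}
    (hT : ∀ n, T n ∈ G)
    (hA : Asy m (fun n => (T n : Op N))) {h₂ : (Op N)ˣ} (hh₂ : h₂ ∈ G)
    (hr : Reg c.P (h₂ : Op N)) {a : ℝ} (ha : a < 0)
    (hlim : (fun n => (T n : Op N) - h₂) =O[atTop] fun n : ℕ => Real.exp (a * n)) :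
    Asy m (fun n => φ (c.tau (dD c.P (T n : Op N)))) := by
  have h1 : ∀ X : ι → ℝ, φ X = ∑ i, X i * φ (fun j => if i = j then 1 else 0) := by
    intro X
    rw [LinearMap.pi_apply_eq_sum_univ φ X]
    rfl
  have h2 : (fun n => φ (c.tau (dD c.P (T n : Op N)))) = fun n =>
      ∑ i, c.tau (dD c.P (T n : Op N)) i * φ (fun j => if i = j then 1 else 0) :=
    funext fun n => h1 _
  rw [h2]
  exact Asy.sum _ fun i _ => (tau_asy hm hT hA hh₂ hr ha hlim i).mul_const hm _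

end Cell

end Pool.Agent.Lib.MP_d9b062_al

end

/-! ## from `MP_d9b062_al_h94.Rel3` -/

section
/-!
# A linear relation between the invariants: the polynomial identity

(Part of task NOREL of the `MP_d9b062_al` project.)
-/

set_option linter.unusedSectionVars false

namespace Pool.Agent.Lib.MP_d9b062_al

open Filter Asymptotics
open scoped Topology

namespace Cell

variable {N : ℕ} {G : Subgroup (Op N)ˣ} {ι : Type} [Fintype ι] [LinearOrder ι] {c : Cell G ι}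

/-- `u_n = l⁻ⁿ x lⁿ` -/
noncomputable def un (l x : (Op N)ˣ) (n : ℕ) : (Op N)ˣ := (l ^ n)⁻¹ * x * l ^ n

lemma un_val (l x : (Op N)ˣ) (n : ℕ) :
    (un l x n : Op N) = ((l⁻¹ : (Op N)ˣ) : Op N) ^ n * x * (l : Op N) ^ n := by
  rw [un, Units.val_mul, Units.val_mul, ← inv_pow, Units.val_pow_eq_pow_val,
    Units.val_pow_eq_pow_val]

lemma un_zero (l x : (Op N)ˣ) : un l x 0 = x := by
  rw [un, pow_zero, inv_one, one_mul, mul_one]

lemma un_mem {l x : (Op N)ˣ} (hl : l ∈ c.L) (hx : x ∈ c.Np) (n : ℕ) : un l x n ∈ G :=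
  G.mul_mem (G.mul_mem (G.inv_mem (G.pow_mem hl.1 n)) hx.1) (G.pow_mem hl.1 n)

lemma expSum_un {l : (Op N)ˣ} (hl : l ∈ c.L) (x : (Op N)ˣ) :
    ExpSum (c.iso (l : Op N)) (fun n => (un l x n : Op N)) := by
  simp only [un_val]
  exact ((c.expSum_inv_pow hl).mul (ExpSum.const _)).mul (c.expSum_pow hl)

lemma isBigO_un {l x : (Op N)ˣ} (hl : l ∈ c.L) (hd : c.Dom (l : Op N)) (hx : x ∈ c.Np) :
    ∃ a < 0, (fun n : ℕ => (un l x n : Op N) - 1) =O[atTop] fun n : ℕ => Real.exp (a * n) := by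
  obtain ⟨C, hC, a, ha, hk⟩ := c.kap_pow hl hd
  refine ⟨-a, neg_neg_of_pos ha, IsBigO.of_bound (C * ‖(x : Op N) - 1‖)
    (Eventually.of_forall fun n => ?_)⟩
  have h1 := c.conj_Np (c.L.pow_mem hl n) hx.2
  have h2 := hk n
  rw [Real.norm_of_nonneg (Real.exp_pos _).le]
  have h3 : (un l x n : Op N) = (((l ^ n)⁻¹ : (Op N)ˣ) : Op N) * x * ((l ^ n : (Op N)ˣ) : Op N) := by
    rw [un, Units.val_mul, Units.val_mul]
  rw [h3]
  refine h1.trans ?_
  rw [Units.val_pow_eq_pow_val]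
  calc c.kap ((l : Op N) ^ n) * ‖(x : Op N) - 1‖
      ≤ (C * Real.exp (-a * n)) * ‖(x : Op N) - 1‖ :=
        mul_le_mul_of_nonneg_right h2 (norm_nonneg _)
    _ = C * ‖(x : Op N) - 1‖ * Real.exp (-a * n) := by ring

lemma l_pow_t {l : (Op N)ˣ} {t : V N} (ht : (l : Op N) t = t) (n : ℕ) :
    ((l ^ n : (Op N)ˣ) : Op N) t = t := by
  induction n with
  | zero => rw [pow_zero]; rfl
  | succ n ih =>
    rw [pow_succ, Units.val_mul]
    change ((l ^ n : (Op N)ˣ) : Op N) ((l : Op N) t) = t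
    rw [ht, ih]

/-- the exact identity for `η₁ γⁿ η₂` -/
theorem Good.rel_product {Γ : Subgroup (Aff (V N))} (hΓ : c.Good Γ) {e : V N}
    (φ : (ι → ℝ) →ₗ[ℝ] ℝ)
    (h : ∀ γ ∈ Γ, ∀ F l t, c.ALox γ F l t → inner ℝ (c.PL t) e = φ (c.tau (l : Op N)))
    {γ₀ F : Aff (V N)} {l : (Op N)ˣ} {t : V N} (hγ₀ : γ₀ ∈ Γ) (hlox : c.ALox γ₀ F l t)
    {η₁ η₂ : Aff (V N)} (hη₁ : F * η₁ * F⁻¹ ∈ Γ) (hη₂ : F * η₂ * F⁻¹ ∈ Γ)
    {y d x : (Op N)ˣ} (hy : y ∈ c.Nm) (hd : d ∈ c.L) (hx : x ∈ c.Np)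
    (h₁ : η₁.lin = y * d * x) (n : ℕ)
    (hreg : Reg c.P ((un l x n * η₂.lin : (Op N)ˣ) : Op N)) :
    (n : ℝ) * (inner ℝ (c.PL (Ring.inverse (yL c.P ((un l x n * η₂.lin : (Op N)ˣ) : Op N))
        ((un l x n : Op N) t))) e - inner ℝ (c.PL t) e) +
      (inner ℝ (c.PL (Ring.inverse (yL c.P ((un l x n * η₂.lin : (Op N)ˣ) : Op N))
        ((((l⁻¹ : (Op N)ˣ) : Op N) ^ n) (((d⁻¹ * y⁻¹ : (Op N)ˣ) : Op N) η₁.tr) +
          (un l x n : Op N) η₂.tr))) e - φ (c.tau (d : Op N)) -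
        φ (c.tau (dD c.P ((un l x n * η₂.lin : (Op N)ˣ) : Op N)))) = 0 := by
  have hη₂G := conj_lin_mem hΓ hlox.F_mem hη₂
  have hTG : un l x n * η₂.lin ∈ G := G.mul_mem (un_mem hlox.l_mem hx n) hη₂G
  obtain ⟨y', hy', d', hd', x', hx', hfac, hyL, hdD, -⟩ := c.exists_LU hTG hreg
  have hln : l ^ n ∈ c.L := c.L.pow_mem hlox.l_mem n
  have hdl : d * l ^ n ∈ c.L := c.L.mul_mem hd hln
  -- the product
  set η : Aff (V N) := η₁ * (⟨l ^ n, (n : ℝ) • t⟩ : Aff (V N)) * η₂ with hη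
  have hηΓ : F * η * F⁻¹ ∈ Γ := by
    have h1 : F * η * F⁻¹ = (F * η₁ * F⁻¹) * γ₀ ^ n * (F * η₂ * F⁻¹) := by
      have h2 : γ₀ ^ n = F * (⟨l ^ n, (n : ℝ) • t⟩ : Aff (V N)) * F⁻¹ := by
        rw [← aff_pow hlox.l_t, hlox.eq, conj_pow]
      rw [h2, hη]
      group
    rw [h1]
    exact Γ.mul_mem (Γ.mul_mem hη₁ (Γ.pow_mem hγ₀ n)) hη₂
  -- its factorization
  have hyc : (d * l ^ n) * y' * (d * l ^ n)⁻¹ ∈ c.Nm := by
    refine ⟨G.mul_mem (G.mul_mem hdl.1 hy'.1) (G.inv_mem hdl.1), ?_⟩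
    have := hy'.2.conj hdl.2
    rw [Units.val_mul, Units.val_mul]
    exact this
  have hlin : η.lin = (y * ((d * l ^ n) * y' * (d * l ^ n)⁻¹)) * (d * l ^ n * d') * x' := by
    have h1 : η.lin = y * d * x * l ^ n * η₂.lin := by
      rw [hη, Aff.mul_lin, Aff.mul_lin, h₁]
    have h2 : x * l ^ n * η₂.lin = l ^ n * (un l x n * η₂.lin) := by
      rw [un]
      group
    calc η.lin = y * d * (x * l ^ n * η₂.lin) := by rw [h1]; group
      _ = y * d * (l ^ n * (y' * d' * x')) := by rw [h2, hfac]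
      _ = _ := by group
  obtain ⟨hr, hyv, hdv, -⟩ := c.LU_val (c.Nm.mul_mem hy hyc) (c.L.mul_mem hdl hd') hx'
  rw [← hlin] at hr hyv hdv
  have hrel := hΓ.rel_of_reg φ h hγ₀ hlox hηΓ hr
  rw [hdv, hyv, Ring.inverse_unit] at hrel
  -- the weights
  have htau : c.tau ((d * l ^ n * d' : (Op N)ˣ) : Op N) =
      c.tau (d : Op N) + (n : ℝ) • c.tau (l : Op N) + c.tau (d' : Op N) := by
    rw [Units.val_mul, c.tau_mul hdl hd', Units.val_mul, c.tau_mul hd hln,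
      Units.val_pow_eq_pow_val, c.tau_pow hlox.l_mem]
  rw [htau, map_add, map_add, map_smul, smul_eq_mul, ← h γ₀ hγ₀ F l t hlox] at hrel
  -- the translation part
  have hPL : ∀ v : V N, c.PL (((d * l ^ n : (Op N)ˣ) : Op N) v) = c.PL v := by
    intro v
    have := congrArg (fun T : Op N => T v) (c.PL_mul_l hdl)
    exact this
  have htr : η.tr = η₁.tr + (η₁.lin : Op N) ((n : ℝ) • t) +
      ((η₁.lin * l ^ n : (Op N)ˣ) : Op N) η₂.tr := by
    rw [hη]
    rfl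
  have hA : (((y * ((d * l ^ n) * y' * (d * l ^ n)⁻¹))⁻¹ : (Op N)ˣ) : Op N) η.tr =
      ((d * l ^ n : (Op N)ˣ) : Op N) (((y'⁻¹ : (Op N)ˣ) : Op N)
        ((((l ^ n)⁻¹ * (d⁻¹ * y⁻¹) : (Op N)ˣ) : Op N) η.tr)) := by
    have h1 : (y * ((d * l ^ n) * y' * (d * l ^ n)⁻¹))⁻¹ =
        (d * l ^ n) * (y'⁻¹ * ((l ^ n)⁻¹ * (d⁻¹ * y⁻¹))) := by
      group
    rw [h1, Units.val_mul, Units.val_mul]
    rfl
  have hB : (((l ^ n)⁻¹ * (d⁻¹ * y⁻¹) : (Op N)ˣ) : Op N) η.tr =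
      (n : ℝ) • ((un l x n : Op N) t) + ((((l⁻¹ : (Op N)ˣ) : Op N) ^ n)
        (((d⁻¹ * y⁻¹ : (Op N)ˣ) : Op N) η₁.tr) + (un l x n : Op N) η₂.tr) := by
    have e1 : (((l ^ n)⁻¹ * (d⁻¹ * y⁻¹) : (Op N)ˣ) : Op N) η₁.tr =
        (((l⁻¹ : (Op N)ˣ) : Op N) ^ n) (((d⁻¹ * y⁻¹ : (Op N)ˣ) : Op N) η₁.tr) := by
      rw [Units.val_mul, ← inv_pow, Units.val_pow_eq_pow_val]
      rfl
    have e2 : (((l ^ n)⁻¹ * (d⁻¹ * y⁻¹) : (Op N)ˣ) : Op N) ((η₁.lin : Op N) ((n : ℝ) • t)) =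
        (n : ℝ) • ((un l x n : Op N) t) := by
      have h1 : (((l ^ n)⁻¹ * (d⁻¹ * y⁻¹) : (Op N)ˣ) : Op N) ((η₁.lin : Op N) ((n : ℝ) • t)) =
          (((l ^ n)⁻¹ * (d⁻¹ * y⁻¹) * η₁.lin : (Op N)ˣ) : Op N) ((n : ℝ) • t) := by
        rw [Units.val_mul ((l ^ n)⁻¹ * (d⁻¹ * y⁻¹))]
        rfl
      have h2 : (l ^ n)⁻¹ * (d⁻¹ * y⁻¹) * η₁.lin = (l ^ n)⁻¹ * x := by
        rw [h₁]
        group
      rw [h1, h2, map_smul]
      congr 1
      have h3 : ((un l x n : (Op N)ˣ) : Op N) t =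
          (((l ^ n)⁻¹ * x : (Op N)ˣ) : Op N) (((l ^ n : (Op N)ˣ) : Op N) t) := by
        rw [un, Units.val_mul ((l ^ n)⁻¹ * x)]
        rfl
      rw [h3, l_pow_t hlox.l_t]
    have e3 : (((l ^ n)⁻¹ * (d⁻¹ * y⁻¹) : (Op N)ˣ) : Op N)
        (((η₁.lin * l ^ n : (Op N)ˣ) : Op N) η₂.tr) = (un l x n : Op N) η₂.tr := by
      have h1 : (((l ^ n)⁻¹ * (d⁻¹ * y⁻¹) : (Op N)ˣ) : Op N)
          (((η₁.lin * l ^ n : (Op N)ˣ) : Op N) η₂.tr) =
          (((l ^ n)⁻¹ * (d⁻¹ * y⁻¹) * (η₁.lin * l ^ n) : (Op N)ˣ) : Op N) η₂.tr := by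
        rw [Units.val_mul ((l ^ n)⁻¹ * (d⁻¹ * y⁻¹)) (η₁.lin * l ^ n)]
        rfl
      have h2 : (l ^ n)⁻¹ * (d⁻¹ * y⁻¹) * (η₁.lin * l ^ n) = un l x n := by
        rw [h₁, un]
        group
      rw [h1, h2]
    rw [htr, map_add, map_add, e1, e2, e3]
    abel
  rw [hA, hPL, hB] at hrel
  rw [← hyL, Ring.inverse_unit, ← hdD]
  rw [map_add, map_smul, map_add, map_smul, inner_add_left, inner_smul_left] at hrel
  simp only [conj_trivial] at hrel
  linear_combination hrel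

/-- the polynomial `⟪PL y(x g)⁻¹ x t, e⟫ - ⟪PL t, e⟫`, times a power of `D` -/
noncomputable def Psi (c : Cell G ι) (D : Op N → ℝ) (Q : Op N → Op N) (t e : V N)
    (x g : Op N) : ℝ :=
  inner ℝ (c.PL (yInv (Fintype.card ι) D Q (x * g) (x t))) e -
    D (x * g) ^ (Fintype.card ι) * inner ℝ (c.PL t) e

lemma polyFun_Psi {D : Op N → ℝ} {Q : Op N → Op N} (hD : D ∈ PolyFun (Op N))
    (hQ : IsPolyMap Q) (t e : V N) {W : Type*} [AddCommGroup W] [Module ℝ W] {f g : W → Op N}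
    (hf : IsPolyMap f) (hg : IsPolyMap g) :
    (fun T => c.Psi D Q t e (f T) (g T)) ∈ PolyFun W := by
  unfold Psi
  have hfg : IsPolyMap (fun T => f T * g T) := hf.mul hg
  refine PolyFun.sub ?_ (PolyFun.mul (PolyFun.pow (PolyFun.comp hD hfg) _) (PolyFun.const _))
  have h1 : IsPolyMap (fun T => yInv (Fintype.card ι) D Q (f T * g T) (f T t)) :=
    IsPolyMap.apply ((isPolyMap_yInv _ hD hQ).comp hfg) (IsPolyMap.apply hf (IsPolyMap.const t))
  have h2 := h1 (((innerSL ℝ e) ∘L c.PL : V N →L[ℝ] ℝ) : V N →ₗ[ℝ] ℝ)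
  refine (congrArg (· ∈ PolyFun W) (funext fun T => ?_)).mp h2
  change inner ℝ e (c.PL (yInv (Fintype.card ι) D Q (f T * g T) (f T t))) =
    inner ℝ (c.PL (yInv (Fintype.card ι) D Q (f T * g T) (f T t))) e
  exact real_inner_comm _ _

lemma Psi_of_reg {D : Op N → ℝ} {Q : Op N → Op N} (hDreg : ∀ T, Reg c.P T ↔ D T ≠ 0)
    (hyL : ∀ T, Reg c.P T → yL c.P T = (D T)⁻¹ • Q T) (t e : V N) {x g : Op N}
    (h : Reg c.P (x * g)) :
    c.Psi D Q t e x g = D (x * g) ^ (Fintype.card ι) *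
      (inner ℝ (c.PL (Ring.inverse (yL c.P (x * g)) (x t))) e - inner ℝ (c.PL t) e) := by
  rw [Psi, yInv_eq c.grading hDreg hyL h, mul_sub]
  congr 1
  change inner ℝ (c.PL (D (x * g) ^ Fintype.card ι •
    (Ring.inverse (yL c.P (x * g)) (x t)))) e = _
  rw [map_smul, inner_smul_left]
  simp

/-- the conclusion of the asymptotic argument -/
theorem Good.Psi_eq_zero {Γ : Subgroup (Aff (V N))} (hΓ : c.Good Γ) {e : V N}
    (φ : (ι → ℝ) →ₗ[ℝ] ℝ)
    (h : ∀ γ ∈ Γ, ∀ F l t, c.ALox γ F l t → inner ℝ (c.PL t) e = φ (c.tau (l : Op N)))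
    {γ₀ F : Aff (V N)} {l : (Op N)ˣ} {t : V N} (hγ₀ : γ₀ ∈ Γ) (hlox : c.ALox γ₀ F l t)
    {η₁ η₂ : Aff (V N)} (hη₁ : F * η₁ * F⁻¹ ∈ Γ) (hη₂ : F * η₂ * F⁻¹ ∈ Γ)
    {D : Op N → ℝ} {Q : Op N → Op N} (hD : D ∈ PolyFun (Op N))
    (hQ : IsPolyMap Q) (hDreg : ∀ T, Reg c.P T ↔ D T ≠ 0)
    (hyL : ∀ T, Reg c.P T → yL c.P T = (D T)⁻¹ • Q T)
    (hr₁ : Reg c.P (η₁.lin : Op N)) (hr₂ : Reg c.P (η₂.lin : Op N)) :
    c.Psi D Q t e (xU c.P (η₁.lin : Op N)) (η₂.lin : Op N) = 0 := by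
  have hη₁G := conj_lin_mem hΓ hlox.F_mem hη₁
  have hη₂G := conj_lin_mem hΓ hlox.F_mem hη₂
  obtain ⟨y, hy, d, hd, x, hx, hfac, -, -, hxU⟩ := c.exists_LU hη₁G hr₁
  rw [← hxU]
  set m : Op N := c.iso (l : Op N) with hm'
  have hm : star m * m = 1 := c.star_iso hlox.l_mem
  -- the sequence
  set T : ℕ → (Op N)ˣ := fun n => un l x n * η₂.lin with hT
  have hTG : ∀ n, T n ∈ G := fun n => G.mul_mem (un_mem hlox.l_mem hx n) hη₂G
  have hun : ExpSum m (fun n => (un l x n : Op N)) := expSum_un hlox.l_mem x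
  have hTval : ∀ n, (T n : Op N) = (un l x n : Op N) * (η₂.lin : Op N) := fun n =>
    Units.val_mul _ _
  have hTE : ExpSum m (fun n => (T n : Op N)) := by
    simp only [hTval]
    exact hun.mul (ExpSum.const _)
  obtain ⟨a, ha, hlim⟩ := isBigO_un hlox.l_mem hlox.dom hx
  have hTlim : (fun n => (T n : Op N) - η₂.lin) =O[atTop] fun n : ℕ => Real.exp (a * n) := by
    have h1 : (fun n => (T n : Op N) - η₂.lin) = fun n =>
        ((un l x n : Op N) - 1) * (η₂.lin : Op N) := by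
      funext n
      rw [hTval, sub_mul, one_mul]
    rw [h1]
    have h2 : (fun _ : ℕ => (η₂.lin : Op N)) =O[atTop] fun _ : ℕ => (1 : ℝ) :=
      isBigO_const_one ℝ _ _
    simpa only [mul_one] using hlim.mul h2
  have htend := tendsto_of_isBigO_exp ha hTlim
  have hreg := eventually_reg hr₂ htend
  have hyA : Asy m (fun n => Ring.inverse (yL c.P (T n : Op N))) :=
    Asy.yL_inverse hm c.grading hTE.asy hr₂ ha hTlim
  -- the coefficient of `n`
  have hinner : ∀ {v : ℕ → V N}, Asy m v →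
      Asy m (fun n => inner ℝ (c.PL (Ring.inverse (yL c.P (T n : Op N)) (v n))) e) := by
    intro v hv
    exact Asy.inner hm (Asy.apply hm (Asy.const c.PL) (Asy.apply hm hyA hv)) (Asy.const e)
  have hf : Asy m (fun n => inner ℝ (c.PL (Ring.inverse (yL c.P (T n : Op N))
      ((un l x n : Op N) t))) e - inner ℝ (c.PL t) e) :=
    (hinner (Asy.apply hm hun.asy (Asy.const t))).sub (Asy.const _)
  have hg : Asy m (fun n => inner ℝ (c.PL (Ring.inverse (yL c.P (T n : Op N))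
      ((((l⁻¹ : (Op N)ˣ) : Op N) ^ n) (((d⁻¹ * y⁻¹ : (Op N)ˣ) : Op N) η₁.tr) +
          (un l x n : Op N) η₂.tr))) e - φ (c.tau (d : Op N)) -
        φ (c.tau (dD c.P (T n : Op N)))) := by
    refine ((hinner (Asy.add ?_ ?_)).sub (Asy.const _)).sub ?_
    · exact Asy.apply hm (c.expSum_inv_pow hlox.l_mem).asy (Asy.const _)
    · exact Asy.apply hm hun.asy (Asy.const _)
    · exact phi_tau_asy hm φ hTG hTE.asy hη₂G hr₂ ha hTlim
  have hzero : ∀ᶠ n : ℕ in atTop,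
      (n : ℝ) * (inner ℝ (c.PL (Ring.inverse (yL c.P (T n : Op N))
        ((un l x n : Op N) t))) e - inner ℝ (c.PL t) e) +
      (inner ℝ (c.PL (Ring.inverse (yL c.P (T n : Op N))
        ((((l⁻¹ : (Op N)ˣ) : Op N) ^ n) (((d⁻¹ * y⁻¹ : (Op N)ˣ) : Op N) η₁.tr) +
          (un l x n : Op N) η₂.tr))) e - φ (c.tau (d : Op N)) -
        φ (c.tau (dD c.P (T n : Op N)))) = 0 := by
    filter_upwards [hreg] with n hn
    exact hΓ.rel_product φ h hγ₀ hlox hη₁ hη₂ hy hd hx hfac n hn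
  have hsmall := Asy.unique hm hf hg hzero
  -- the polynomial is an `ExpSum` which decays faster than all exponentials
  have hPE : ExpSum m (fun n => c.Psi D Q t e (un l x n : Op N) (η₂.lin : Op N)) :=
    ExpSum.polyFun (Q := fun S => c.Psi D Q t e S (η₂.lin : Op N))
      (polyFun_Psi hD hQ t e IsPolyMap.id (IsPolyMap.const _)) hun
  have hDb : (fun n => D (T n : Op N) ^ Fintype.card ι) =O[atTop] fun _ : ℕ => (1 : ℝ) := by
    have h1 : Tendsto (fun n => D (T n : Op N) ^ Fintype.card ι) atTop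
        (𝓝 (D (η₂.lin : Op N) ^ Fintype.card ι)) :=
      (((PolyFun.continuous hD).tendsto _).comp htend).pow _
    exact h1.isBigO_one ℝ
  have hPs : ∀ b : ℝ, (fun n => c.Psi D Q t e (un l x n : Op N) (η₂.lin : Op N)) =O[atTop]
      fun n : ℕ => Real.exp (b * n) := by
    intro b
    have h1 := hDb.mul (hsmall b)
    refine (h1.congr_right fun n => one_mul _).congr' ?_ EventuallyEq.rfl
    filter_upwards [hreg] with n hn
    rw [hTval] at hn
    rw [Psi_of_reg hDreg hyL t e hn, hTval]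
  have h0 := ExpSum.eq_zero hm hPE hPs 0
  rw [un_zero] at h0
  exact h0

end Cell

end Pool.Agent.Lib.MP_d9b062_al

end

/-! ## from `MP_d9b062_al_h94.NoRel` -/

section
/-!
# There is no linear relation between the invariants

(Task NOREL of the `MP_d9b062_al` project.)
-/

set_option linter.unusedSectionVars false

namespace Pool.Agent.Lib.MP_d9b062_al

open Filter Asymptotics
open scoped Topology

namespace Cell

variable {N : ℕ} {G : Subgroup (Op N)ˣ} {ι : Type} [Fintype ι] [LinearOrder ι] {c : Cell G ι}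

lemma isPolyMap_star : IsPolyMap (fun T : Op N => star T) := by
  have := IsPolyMap.linear ((starL' ℝ : Op N ≃L[ℝ] Op N) : Op N →ₗ[ℝ] Op N)
  exact this

lemma inner_PL {e : V N} (he : e ∈ c.EL) (v : V N) : inner ℝ (c.PL v) e = inner ℝ v e := by
  rw [inner_star, c.PL_star, c.PL_of_mem he]

/-- density in the coordinates of a frame -/
lemma Good.conj_dense {Γ : Subgroup (Aff (V N))} (hΓ : c.Good Γ) {F : Aff (V N)}
    (hF : F.lin ∈ G) {p : Op N → ℝ} (hp : p ∈ PolyFun (Op N))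
    (h : ∀ η : Aff (V N), F * η * F⁻¹ ∈ Γ → p (η.lin : Op N) = 0) :
    ∀ g ∈ G, p (g : Op N) = 0 := by
  have h1 : (fun T : Op N => p (((F.lin⁻¹ : (Op N)ˣ) : Op N) * T * (F.lin : Op N))) ∈
      PolyFun (Op N) :=
    PolyFun.comp hp (((IsPolyMap.const _).mul IsPolyMap.id).mul (IsPolyMap.const _))
  have h2 := hΓ.dense _ h1 (by
    rintro s ⟨γ, hγ, rfl⟩
    have h3 := h (F⁻¹ * γ * F) (by
      have : F * (F⁻¹ * γ * F) * F⁻¹ = γ := by group
      rw [this]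
      exact hγ)
    have h4 : (((F⁻¹ * γ * F).lin : (Op N)ˣ) : Op N) =
        ((F.lin⁻¹ : (Op N)ˣ) : Op N) * (γ.lin : Op N) * (F.lin : Op N) := by
      rw [Aff.mul_lin, Aff.mul_lin, Aff.inv_lin, Units.val_mul, Units.val_mul]
    rw [h4] at h3
    exact h3)
  intro g hg
  have h3 := h2 (F.lin * g * F.lin⁻¹) (G.mul_mem (G.mul_mem hF hg) (G.inv_mem hF))
  have h4 : ((F.lin⁻¹ : (Op N)ˣ) : Op N) * ((F.lin * g * F.lin⁻¹ : (Op N)ˣ) : Op N) *
      (F.lin : Op N) = (g : Op N) := by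
    rw [← Units.val_mul, ← Units.val_mul]
    congr 1
    group
  simp only [h4] at h3
  exact h3

theorem Good.no_rel {Γ : Subgroup (Aff (V N))} (hΓ : c.Good Γ) {e : V N}
    (he : e ∈ c.EL) (φ : (ι → ℝ) →ₗ[ℝ] ℝ)
    (h : ∀ γ ∈ Γ, ∀ F l t, c.ALox γ F l t → inner ℝ (c.PL t) e = φ (c.tau (l : Op N))) :
    e = 0 := by
  obtain ⟨γ₀, hγ₀, F, l, t, hlox⟩ := hΓ.exists_alox
  obtain ⟨D, hD, Q, hQ, hD1, hDreg, -, hyL⟩ := exists_rat c.grading c.star_P
  have hDne : ¬ ∀ g ∈ G, D (g : Op N) = 0 := by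
    intro hcon
    have := hcon 1 G.one_mem
    rw [Units.val_one, hD1] at this
    exact one_ne_zero this
  -- density in the second variable
  have stepA : ∀ η₁ : Aff (V N), F * η₁ * F⁻¹ ∈ Γ → Reg c.P (η₁.lin : Op N) → ∀ g ∈ G,
      c.Psi D Q t e (xU c.P (η₁.lin : Op N)) (g : Op N) = 0 := by
    intro η₁ hη₁ hr₁
    have hPsi : (fun g : Op N => c.Psi D Q t e (xU c.P (η₁.lin : Op N)) g) ∈ PolyFun (Op N) :=
      polyFun_Psi hD hQ t e (IsPolyMap.const _) IsPolyMap.id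
    have h1 := hΓ.conj_dense hlox.F_mem (PolyFun.mul hD hPsi) (by
      intro η₂ hη₂
      by_cases hz : D (η₂.lin : Op N) = 0
      · exact mul_eq_zero_of_left hz _
      · exact mul_eq_zero_of_right _ (hΓ.Psi_eq_zero φ h hγ₀ hlox hη₁ hη₂ hD hQ hDreg hyL hr₁
          ((hDreg _).2 hz)))
    rcases c.zirr _ hD _ hPsi h1 with h2 | h2
    · exact absurd h2 hDne
    · exact h2
  -- density in the first variable
  have hself : ∀ x ∈ c.Np, Reg c.P (x : Op N) ∧ xU c.P (x : Op N) = x := by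
    intro x hx
    obtain ⟨h1, -, -, h2⟩ := c.LU_val c.Nm.one_mem c.L.one_mem hx
    rw [one_mul, one_mul] at h1 h2
    exact ⟨h1, h2⟩
  have stepB : ∀ x ∈ c.Np, ∀ g ∈ G, c.Psi D Q t e (x : Op N) (g : Op N) = 0 := by
    intro x hx g hg
    have hFg : (fun S : Op N => c.Psi D Q t e (star S) (g : Op N)) ∈ PolyFun (Op N) :=
      polyFun_Psi hD hQ t e isPolyMap_star (IsPolyMap.const _)
    obtain ⟨k, F₁, hF₁, hF₁'⟩ := PolyFun.comp_rat hFg hD hQ
    have hp : (fun T : Op N => D (star T) * F₁ (star T)) ∈ PolyFun (Op N) :=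
      PolyFun.mul (PolyFun.comp hD isPolyMap_star) (PolyFun.comp hF₁ isPolyMap_star)
    have h1 := hΓ.conj_dense hlox.F_mem hp (by
      intro η₁ hη₁
      by_cases hz : D (star (η₁.lin : Op N)) = 0
      · exact mul_eq_zero_of_left hz _
      · have hr := (hDreg _).2 hz
        have hr' : Reg c.P (η₁.lin : Op N) := by
          have := hr.star c.star_P
          rwa [star_star] at this
        refine mul_eq_zero_of_right _ ?_
        rw [hF₁' _ hz, ← hyL _ hr]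
        exact mul_eq_zero_of_right _ (stepA η₁ hη₁ hr' g hg))
    have h2 := h1 x hx.1
    obtain ⟨hrx, hxx⟩ := hself x hx
    have hrx' := hrx.star c.star_P
    have hz := (hDreg _).1 hrx'
    have h3 := (mul_eq_zero.1 h2).resolve_left hz
    rw [hF₁' _ hz, ← hyL _ hrx'] at h3
    have h4 := (mul_eq_zero.1 h3).resolve_left (pow_ne_zero _ hz)
    have h5 : star (yL c.P (star (x : Op N))) = x := hxx
    rw [h5] at h4
    exact h4
  have stepC : ∀ y ∈ c.Nm, ∀ x ∈ c.Np,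
      inner ℝ (c.PL (((y⁻¹ : (Op N)ˣ) : Op N) ((x : Op N) t))) e = inner ℝ (c.PL t) e := by
    intro y hy x hx
    obtain ⟨h1, h2, -, -⟩ := c.LU_val hy c.L.one_mem c.Np.one_mem
    rw [mul_one, mul_one] at h1 h2
    have h3 := stepB x hx (x⁻¹ * y) (G.mul_mem (G.inv_mem hx.1) hy.1)
    have h4 : (x : Op N) * ((x⁻¹ * y : (Op N)ˣ) : Op N) = (y : Op N) := by
      rw [← Units.val_mul]
      congr 1
      group
    have h5 : Reg c.P ((x : Op N) * ((x⁻¹ * y : (Op N)ˣ) : Op N)) := by rw [h4]; exact h1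
    rw [Psi_of_reg hDreg hyL t e h5, h4, h2, Ring.inverse_unit] at h3
    have h6 := (mul_eq_zero.1 h3).resolve_left (pow_ne_zero _ ((hDreg _).1 h1))
    exact sub_eq_zero.1 h6
  have stepD : ∀ g ∈ G, Reg c.P (g : Op N) →
      inner ℝ (c.PL ((g : Op N) t)) e = inner ℝ (c.PL t) e := by
    intro g hg hr
    obtain ⟨y, hy, d, hd, x, hx, hfac, -, -, -⟩ := c.exists_LU hg hr
    have hy' : (d⁻¹ * y * d)⁻¹ ∈ c.Nm := by
      refine c.Nm.inv_mem ⟨G.mul_mem (G.mul_mem (G.inv_mem hd.1) hy.1) hd.1, ?_⟩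
      have := hy.2.conj (l := d⁻¹) hd.2.inv
      rw [Units.val_mul, Units.val_mul]
      rw [inv_inv] at this
      exact this
    have h1 := stepC _ hy' x hx
    rw [inv_inv] at h1
    rw [← h1]
    have h2 : g = d * (d⁻¹ * y * d * x) := by rw [hfac]; group
    have h3 : (g : Op N) t = (d : Op N) (((d⁻¹ * y * d : (Op N)ˣ) : Op N) ((x : Op N) t)) := by
      rw [h2, Units.val_mul, Units.val_mul (d⁻¹ * y * d) x]
      rfl
    have h4 : ∀ v : V N, c.PL ((d : Op N) v) = c.PL v := fun v =>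
      congrArg (fun T : Op N => T v) (c.PL_mul_l hd)
    rw [h3, h4]
  have stepE : ∀ g ∈ G, inner ℝ ((g : Op N) t) e = inner ℝ t e := by
    have hp : (fun T : Op N => inner ℝ (T t) e - inner ℝ t e) ∈ PolyFun (Op N) := by
      refine PolyFun.sub ?_ (PolyFun.const _)
      have h1 : IsPolyMap (fun T : Op N => T t) :=
        IsPolyMap.apply IsPolyMap.id (IsPolyMap.const t)
      have h2 := h1 ((innerSL ℝ e : V N →L[ℝ] ℝ) : V N →ₗ[ℝ] ℝ)
      refine (congrArg (· ∈ PolyFun (Op N)) (funext fun T => ?_)).mp h2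
      change inner ℝ e (T t) = inner ℝ (T t) e
      exact real_inner_comm _ _
    have h1 : ∀ g ∈ G, D (g : Op N) * (inner ℝ ((g : Op N) t) e - inner ℝ t e) = 0 := by
      intro g hg
      by_cases hz : D (g : Op N) = 0
      · exact mul_eq_zero_of_left hz _
      · refine mul_eq_zero_of_right _ (sub_eq_zero.2 ?_)
        have := stepD g hg ((hDreg _).2 hz)
        rwa [inner_PL he, inner_PL he] at this
    rcases c.zirr _ hD _ hp h1 with h2 | h2
    · exact absurd h2 hDne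
    · intro g hg
      exact sub_eq_zero.1 (h2 g hg)
  -- irreducibility
  let W : Submodule ℝ (V N) :=
    { carrier := {v | ∀ g ∈ G, inner ℝ ((g : Op N) v) e = (0 : ℝ)}
      add_mem' := fun {v w} hv hw g hg => by
        rw [map_add, inner_add_left, hv g hg, hw g hg, add_zero]
      zero_mem' := fun g _ => by rw [map_zero, inner_zero_left]
      smul_mem' := fun a v hv g hg => by
        rw [map_smul, inner_smul_left, hv g hg, mul_zero] }
  have hW : ∀ g ∈ G, ∀ v ∈ W, (g : Op N) v ∈ W := by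
    intro g hg v hv g' hg'
    have := hv (g' * g) (G.mul_mem hg' hg)
    rw [Units.val_mul] at this
    exact this
  rcases c.irr W hW with hbot | htop
  · exfalso
    have hfix : ∀ g ∈ G, (g : Op N) t = t := by
      intro g hg
      have hmem : (g : Op N) t - t ∈ W := by
        intro g' hg'
        have h1 := stepE (g' * g) (G.mul_mem hg' hg)
        rw [Units.val_mul] at h1
        have h2 := stepE g' hg'
        rw [map_sub, inner_sub_left, h2]
        exact sub_eq_zero.2 h1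
      rw [hbot, Submodule.mem_bot] at hmem
      exact sub_eq_zero.1 hmem
    have hspan : ∀ g ∈ G, ∀ v ∈ Submodule.span ℝ {t}, (g : Op N) v ∈ Submodule.span ℝ {t} := by
      intro g hg v hv
      obtain ⟨a, rfl⟩ := Submodule.mem_span_singleton.1 hv
      rw [map_smul, hfix g hg]
      exact Submodule.smul_mem _ _ (Submodule.mem_span_singleton_self t)
    have ht0 : t ≠ 0 := hΓ.nofix γ₀ hγ₀ F l t hlox
    rcases c.irr _ hspan with h1 | h1
    · exact ht0 (Submodule.span_singleton_eq_bot.1 h1)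
    · obtain ⟨i, hi⟩ := c.exists_ne
      apply c.P_ne i hi
      refine ContinuousLinearMap.ext fun v => ?_
      have hv : v ∈ Submodule.span ℝ {t} := by rw [h1]; exact Submodule.mem_top
      obtain ⟨a, rfl⟩ := Submodule.mem_span_singleton.1 hv
      have h2 : c.P i t = 0 := by
        have h3 : c.P i (c.P c.o t) = 0 :=
          congrArg (fun T : Op N => T t) (c.grading.orth i c.o hi)
        rwa [hlox.P_t] at h3
      rw [map_smul, h2, smul_zero]
      rfl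
  · have h1 : e ∈ W := by rw [htop]; exact Submodule.mem_top
    have h2 := h1 1 G.one_mem
    rw [Units.val_one] at h2
    exact inner_self_eq_zero.1 h2

end Cell

end Pool.Agent.Lib.MP_d9b062_al

end

/-! ## from `MP_d9b062_al_helper62.Cone` -/

section
/-!
# Task CONE: all signs of translation invariants occur
-/

set_option autoImplicit false

namespace Pool.Agent.Lib.MP_d9b062_al

open Filter
open scoped Topology

namespace Cell

variable {N : ℕ} {G : Subgroup (Op N)ˣ} {ι : Type} [Fintype ι] [LinearOrder ι] (c : Cell G ι)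

/-- the translation data of the group `Γ` -/
def Dat (Γ : Subgroup (Aff (V N))) : Set ((ι → ℝ) × V N) :=
  {p | ∃ γ ∈ Γ, ∃ F l t, c.ALox γ F l t ∧ p = (c.tau (l : Op N), c.PL t)}

namespace CONE

theorem inv_apply_self (u : (Op N)ˣ) (v : V N) :
    ((u⁻¹ : (Op N)ˣ) : Op N) ((u : Op N) v) = v := by
  have := congrArg (fun T : Op N => T v) (Units.inv_mul u)
  exact this

theorem apply_inv_self (u : (Op N)ˣ) (v : V N) :
    (u : Op N) (((u⁻¹ : (Op N)ˣ) : Op N) v) = v := by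
  have := congrArg (fun T : Op N => T v) (Units.mul_inv u)
  exact this

theorem pow_fix {l : (Op N)ˣ} {t : V N} (h : (l : Op N) t = t) (n : ℕ) :
    ((l ^ n : (Op N)ˣ) : Op N) t = t := by
  induction n with
  | zero => rfl
  | succ n ih =>
    rw [pow_succ, Units.val_mul]
    show ((l ^ n : (Op N)ˣ) : Op N) ((l : Op N) t) = t
    rw [h, ih]

theorem aff_pow {l : (Op N)ˣ} {t : V N} (h : (l : Op N) t = t) (n : ℕ) :
    (⟨l, t⟩ : Aff (V N)) ^ n = ⟨l ^ n, (n : ℝ) • t⟩ := by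
  induction n with
  | zero => ext1 <;> simp
  | succ n ih =>
    rw [pow_succ, ih]
    ext1
    · show l ^ n * l = l ^ (n + 1)
      rw [pow_succ]
    · show (n : ℝ) • t + ((l ^ n : (Op N)ˣ) : Op N) t = ((n + 1 : ℕ) : ℝ) • t
      rw [pow_fix h]
      push_cast
      rw [add_smul, one_smul]

theorem linLox_conj {f l : (Op N)ˣ} {P A : Aff (V N)} (hA : A.lin ∈ G)
    (hP : c.LinLox P.lin f l) : c.LinLox (A * P * A⁻¹).lin (A.lin * f) l where
  f_mem := G.mul_mem hA hP.f_mem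
  l_mem := hP.l_mem
  dom := hP.dom
  eq := by
    show A.lin * P.lin * A.lin⁻¹ = A.lin * f * l * (A.lin * f)⁻¹
    rw [hP.eq]
    group

theorem PL_l {l : (Op N)ˣ} (hl : l ∈ c.L) (v : V N) : c.PL ((l : Op N) v) = c.PL v := by
  have := congrArg (fun T : Op N => T v) (c.PL_mul_l hl)
  exact this

theorem T_conj {f l : (Op N)ˣ} {P : Aff (V N)} (hP : c.LinLox P.lin f l) (A : Aff (V N)) :
    c.T (A.lin * f) (A * P * A⁻¹) = c.T f P := by
  have e1 : (((A.lin * f)⁻¹ : (Op N)ˣ) : Op N) (A * P * A⁻¹).tr =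
      ((f⁻¹ : (Op N)ˣ) : Op N) P.tr +
        (((f⁻¹ : (Op N)ˣ) : Op N) (((A.lin⁻¹ : (Op N)ˣ) : Op N) A.tr) -
          (l : Op N) (((f⁻¹ : (Op N)ˣ) : Op N) (((A.lin⁻¹ : (Op N)ˣ) : Op N) A.tr))) := by
    have h1 : (A * P * A⁻¹).tr = A.tr + (A.lin : Op N) P.tr +
        (A.lin : Op N) ((P.lin : Op N) (-(((A.lin⁻¹ : (Op N)ˣ) : Op N) A.tr))) := rfl
    have h2 : ∀ v : V N, (((A.lin * f)⁻¹ : (Op N)ˣ) : Op N) v =
        ((f⁻¹ : (Op N)ˣ) : Op N) (((A.lin⁻¹ : (Op N)ˣ) : Op N) v) := by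
      intro v
      rw [mul_inv_rev]
      rfl
    have h3 : ∀ v : V N, ((f⁻¹ : (Op N)ˣ) : Op N) ((P.lin : Op N) v) =
        (l : Op N) (((f⁻¹ : (Op N)ˣ) : Op N) v) := by
      intro v
      have h4 : f⁻¹ * P.lin = l * f⁻¹ := by rw [hP.eq]; group
      have := congrArg (fun u : (Op N)ˣ => (u : Op N) v) h4
      exact this
    rw [h1, h2]
    simp only [map_add, map_neg, inv_apply_self, h3]
    abel
  unfold T
  rw [e1, map_add, map_sub, PL_l c hP.l_mem, sub_self, add_zero]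

theorem sum_mem {c : Cell G ι} {Γ : Subgroup (Aff (V N))} (hΓ : c.Good Γ)
    {p p' : (ι → ℝ) × V N} (hp : p ∈ c.Dat Γ) (hp' : p' ∈ c.Dat Γ) {n m : ℕ} (hn : 0 < n)
    (hm : 0 < m) (hne : ∀ i, i ≠ c.o → (n : ℝ) * p.1 i + (m : ℝ) * p'.1 i ≠ 0) :
    (n : ℝ) • p + (m : ℝ) • p' ∈ closure (Pool.Agent.Lib.MP_d9b062_al.CONE.cone (c.Dat Γ)) := by
  obtain ⟨γ₁, hγ₁, F₁, l₁, t₁, h₁, rfl⟩ := hp
  obtain ⟨γ₂, hγ₂, F₂, l₂, t₂, h₂, rfl⟩ := hp'
  obtain ⟨η, hη, hreg⟩ := hΓ.exists_reg (G.inv_mem h₁.F_mem) h₂.F_mem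
  obtain ⟨η', hη', hreg'⟩ := hΓ.exists_reg (G.inv_mem h₂.F_mem) h₁.F_mem
  set h : (Op N)ˣ := F₁.lin⁻¹ * η.lin * F₂.lin with hh
  set h' : (Op N)ˣ := F₂.lin⁻¹ * η'.lin * F₁.lin with hh'
  have hhG : h ∈ G := G.mul_mem (G.mul_mem (G.inv_mem h₁.F_mem) (hΓ.lin_mem η hη)) h₂.F_mem
  have hhG' : h' ∈ G :=
    G.mul_mem (G.mul_mem (G.inv_mem h₂.F_mem) (hΓ.lin_mem η' hη')) h₁.F_mem
  have hnR : (0 : ℝ) < n := by exact_mod_cast hn
  have hmR : (0 : ℝ) < m := by exact_mod_cast hm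
  have hn1 : (1 : ℝ) ≤ n := by exact_mod_cast hn
  have hm1 : (1 : ℝ) ≤ m := by exact_mod_cast hm
  obtain ⟨C, n₀, hblock⟩ := c.two_block h₁.l_mem h₁.dom h₂.l_mem h₂.dom h₁.P_t h₁.l_t h₂.P_t
    h₂.l_t hhG hreg hhG' hreg' (F₁⁻¹ * η * F₂).tr (F₂⁻¹ * η' * F₁).tr
    (ρ := 1 / ((n : ℝ) * m)) (by positivity)
  rw [Metric.mem_closure_iff]
  intro ε hε
  -- choose `k`
  have hev : ∀ᶠ k : ℕ in atTop, n₀ ≤ k ∧ 1 ≤ k ∧ C < k * ε ∧ ∀ i, i ≠ c.o →
      C < k * |(n : ℝ) * c.tau (l₁ : Op N) i + (m : ℝ) * c.tau (l₂ : Op N) i| := by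
    have ht : ∀ x : ℝ, 0 < x → ∀ᶠ k : ℕ in atTop, C < k * x := fun x hx =>
      (tendsto_natCast_atTop_atTop.atTop_mul_const hx).eventually_gt_atTop C
    refine (eventually_ge_atTop n₀).and ((eventually_ge_atTop 1).and ((ht ε hε).and ?_))
    rw [eventually_all]
    intro i
    by_cases hi : i = c.o
    · exact Eventually.of_forall fun k hk => absurd hi hk
    · filter_upwards [ht _ (abs_pos.mpr (hne i hi))] with k hk _
      exact hk
  obtain ⟨k, hk0, hk1, hkε, hkne⟩ := hev.exists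
  have hkR : (0 : ℝ) < k := by exact_mod_cast hk1
  obtain ⟨f, l, hlox, htau, hT⟩ := hblock (n * k) (m * k)
    (hk0.trans (Nat.le_mul_of_pos_left k hn)) (hk0.trans (Nat.le_mul_of_pos_left k hm))
    (by
      push_cast
      have : 1 / ((n : ℝ) * m) * (n * k) = k / m := by field_simp
      rw [this, div_le_iff₀ hmR]
      have h1 : (1 : ℝ) ≤ m * m := by nlinarith
      nlinarith [mul_le_mul_of_nonneg_right h1 hkR.le])
    (by
      push_cast
      have : 1 / ((n : ℝ) * m) * (m * k) = k / n := by field_simp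
      rw [this, div_le_iff₀ hnR]
      have h1 : (1 : ℝ) ≤ n * n := by nlinarith
      nlinarith [mul_le_mul_of_nonneg_right h1 hkR.le])
  set P : Aff (V N) := (⟨l₁ ^ (n * k), ((n * k : ℕ) : ℝ) • t₁⟩ : Aff (V N)) *
    ⟨h, (F₁⁻¹ * η * F₂).tr⟩ * ⟨l₂ ^ (m * k), ((m * k : ℕ) : ℝ) • t₂⟩ *
    ⟨h', (F₂⁻¹ * η' * F₁).tr⟩ with hP
  have hlox' : c.LinLox P.lin f l := hlox
  have hγ : F₁ * P * F₁⁻¹ ∈ Γ := by
    have e1 : (⟨h, (F₁⁻¹ * η * F₂).tr⟩ : Aff (V N)) = F₁⁻¹ * η * F₂ := rfl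
    have e2 : (⟨h', (F₂⁻¹ * η' * F₁).tr⟩ : Aff (V N)) = F₂⁻¹ * η' * F₁ := rfl
    have e3 : F₁ * P * F₁⁻¹ = γ₁ ^ (n * k) * η * γ₂ ^ (m * k) * η' := by
      rw [hP, e1, e2, ← aff_pow h₁.l_t, ← aff_pow h₂.l_t]
      have g1 : γ₁ ^ (n * k) = F₁ * (⟨l₁, t₁⟩ : Aff (V N)) ^ (n * k) * F₁⁻¹ := by
        rw [h₁.eq, conj_pow]
      have g2 : γ₂ ^ (m * k) = F₂ * (⟨l₂, t₂⟩ : Aff (V N)) ^ (m * k) * F₂⁻¹ := by
        rw [h₂.eq, conj_pow]
      rw [g1, g2]
      group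
    rw [e3]
    exact Γ.mul_mem (Γ.mul_mem (Γ.mul_mem (Γ.pow_mem hγ₁ _) hη) (Γ.pow_mem hγ₂ _)) hη'
  have htau' : ∀ i, |c.tau (l : Op N) i -
      k * ((n : ℝ) * c.tau (l₁ : Op N) i + (m : ℝ) * c.tau (l₂ : Op N) i)| ≤ C := by
    intro i
    have h3 := (norm_le_pi_norm _ i).trans htau
    rw [Real.norm_eq_abs] at h3
    have e : (c.tau (l : Op N) - (((n * k : ℕ) : ℝ) • c.tau (l₁ : Op N) +
        ((m * k : ℕ) : ℝ) • c.tau (l₂ : Op N))) i = c.tau (l : Op N) i -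
      k * ((n : ℝ) * c.tau (l₁ : Op N) i + (m : ℝ) * c.tau (l₂ : Op N) i) := by
      simp only [Pi.sub_apply, Pi.add_apply, Pi.smul_apply, smul_eq_mul]
      push_cast
      ring
    rwa [e] at h3
  have hC : 0 ≤ C := (norm_nonneg _).trans htau
  have hv : c.VReg (l : Op N) := by
    intro i hi h0
    have h3 := htau' i
    rw [h0, zero_sub, abs_neg, abs_mul, abs_of_pos hkR] at h3
    exact absurd (hkne i hi) (not_lt.mpr h3)
  obtain ⟨F, t, hF, hA⟩ := c.exists_alox (linLox_conj c h₁.F_mem hlox') hv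
  have hTeq := c.T_eq hA
  rw [hF, T_conj c hlox'] at hTeq
  refine ⟨(k : ℝ)⁻¹ • (c.tau (l : Op N), c.PL t), ⟨(k : ℝ)⁻¹, inv_pos.mpr hkR, _,
    ⟨_, hγ, F, l, t, hA, rfl⟩, rfl⟩, ?_⟩
  have hfin : (k : ℝ)⁻¹ * C < ε := by
    rw [inv_mul_lt_iff₀ hkR]
    exact hkε
  rw [Prod.dist_eq, max_lt_iff]
  constructor
  · refine lt_of_le_of_lt ?_ hfin
    show dist ((n : ℝ) • c.tau (l₁ : Op N) + (m : ℝ) • c.tau (l₂ : Op N))
      ((k : ℝ)⁻¹ • c.tau (l : Op N)) ≤ _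
    rw [dist_eq_norm]
    have e : (n : ℝ) • c.tau (l₁ : Op N) + (m : ℝ) • c.tau (l₂ : Op N) -
        (k : ℝ)⁻¹ • c.tau (l : Op N) = -((k : ℝ)⁻¹ • (c.tau (l : Op N) -
          (((n * k : ℕ) : ℝ) • c.tau (l₁ : Op N) + ((m * k : ℕ) : ℝ) • c.tau (l₂ : Op N)))) := by
      funext i
      simp only [Pi.sub_apply, Pi.add_apply, Pi.smul_apply, Pi.neg_apply, smul_eq_mul]
      push_cast
      field_simp
      ring
    rw [e, norm_neg, norm_smul, norm_inv, Real.norm_of_nonneg hkR.le]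
    exact mul_le_mul_of_nonneg_left htau (inv_pos.mpr hkR).le
  · refine lt_of_le_of_lt ?_ hfin
    show dist ((n : ℝ) • c.PL t₁ + (m : ℝ) • c.PL t₂) ((k : ℝ)⁻¹ • c.PL t) ≤ _
    rw [dist_eq_norm, ← hTeq]
    have e : (n : ℝ) • c.PL t₁ + (m : ℝ) • c.PL t₂ - (k : ℝ)⁻¹ • c.T f P =
        -((k : ℝ)⁻¹ • (c.T f P -
          (((n * k : ℕ) : ℝ) • c.PL t₁ + ((m * k : ℕ) : ℝ) • c.PL t₂))) := by
      have e1 : ((n * k : ℕ) : ℝ) = k * n := by push_cast; ring
      have e2 : ((m * k : ℕ) : ℝ) = k * m := by push_cast; ring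
      rw [e1, e2, smul_sub, smul_add, smul_smul, smul_smul, ← mul_assoc, ← mul_assoc,
        inv_mul_cancel₀ hkR.ne', one_mul, one_mul]
      abel
    rw [e, norm_neg, norm_smul, norm_inv, Real.norm_of_nonneg hkR.le]
    exact mul_le_mul_of_nonneg_left hT (inv_pos.mpr hkR).le

theorem π_ne {i : ι} (hi : i ≠ c.o) : c.π i ≠ c.o := by
  intro h
  apply c.P_ne i hi
  have h1 := c.w_P i
  have h2 := c.w_P c.o
  rw [h] at h1
  rw [c.π_o] at h2
  have h3 : (c.w : Op N) * c.P i = (c.w : Op N) * c.P c.o := h1.trans h2.symm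
  have h4 : c.P i = c.P c.o := by
    have : ((c.w⁻¹ : (Op N)ˣ) : Op N) * ((c.w : Op N) * c.P i) =
        ((c.w⁻¹ : (Op N)ˣ) : Op N) * ((c.w : Op N) * c.P c.o) := by rw [h3]
    rwa [← mul_assoc, ← mul_assoc, Units.inv_mul, one_mul, one_mul] at this
  have h5 := c.grading.idem i
  have h6 := c.grading.orth i c.o hi
  rw [← h4, h5] at h6
  exact h6

theorem tau_conj {l : (Op N)ˣ} (hl : l ∈ c.L) (i : ι) :
    c.tau ((c.w⁻¹ * l⁻¹ * c.w : (Op N)ˣ) : Op N) i = -c.tau (l : Op N) (c.π i) := by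
  obtain ⟨h1, h2⟩ := c.w_conj_mem hl
  by_cases hi : i = c.o
  · subst hi
    rw [c.tau_o h1, c.π_o, c.tau_o hl, neg_zero]
  · exact h2 i (c.P_ne i hi)

theorem inv_fix {u : (Op N)ˣ} {v : V N} (h : (u : Op N) v = v) :
    ((u⁻¹ : (Op N)ˣ) : Op N) v = v := by
  have := inv_apply_self u v
  rwa [h] at this

theorem alox_inv {γ F : Aff (V N)} {l : (Op N)ˣ} {t : V N} (h : c.ALox γ F l t) :
    c.ALox γ⁻¹ (F * ⟨c.w, 0⟩) (c.w⁻¹ * l⁻¹ * c.w) (-(((c.w⁻¹ : (Op N)ˣ) : Op N) t)) where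
  F_mem := G.mul_mem h.F_mem c.w_mem
  l_mem := (c.w_conj_mem h.l_mem).1
  dom := by
    intro i j hij
    rw [tau_conj c h.l_mem, tau_conj c h.l_mem]
    exact neg_lt_neg (h.dom _ _ (c.π_anti i j hij))
  vreg := by
    intro i hi
    rw [tau_conj c h.l_mem]
    exact neg_ne_zero.mpr (h.vreg _ (π_ne c hi))
  P_t := by
    rw [map_neg]
    congr 1
    have h2 := c.w_P c.o
    rw [c.π_o] at h2
    have h3 : ((c.w⁻¹ : (Op N)ˣ) : Op N) * c.P c.o = c.P c.o * ((c.w⁻¹ : (Op N)ˣ) : Op N) := by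
      calc ((c.w⁻¹ : (Op N)ˣ) : Op N) * c.P c.o
          = ((c.w⁻¹ : (Op N)ˣ) : Op N) * (c.P c.o * (c.w : Op N)) *
              ((c.w⁻¹ : (Op N)ˣ) : Op N) := by
            rw [mul_assoc, mul_assoc, Units.mul_inv, mul_one]
        _ = ((c.w⁻¹ : (Op N)ˣ) : Op N) * ((c.w : Op N) * c.P c.o) *
              ((c.w⁻¹ : (Op N)ˣ) : Op N) := by rw [h2]
        _ = _ := by rw [← mul_assoc, Units.inv_mul, one_mul]
    have h4 := congrArg (fun T : Op N => T t) h3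
    have h5 : ((c.w⁻¹ : (Op N)ˣ) : Op N) (c.P c.o t) =
        c.P c.o (((c.w⁻¹ : (Op N)ˣ) : Op N) t) := h4
    rw [← h5, h.P_t]
  l_t := by
    rw [map_neg]
    congr 1
    show ((c.w⁻¹ : (Op N)ˣ) : Op N) (((l⁻¹ : (Op N)ˣ) : Op N)
      ((c.w : Op N) (((c.w⁻¹ : (Op N)ˣ) : Op N) t))) = _
    rw [apply_inv_self, inv_fix h.l_t]
  eq := by
    have e1 : (⟨c.w⁻¹ * l⁻¹ * c.w, -(((c.w⁻¹ : (Op N)ˣ) : Op N) t)⟩ : Aff (V N)) =
        (⟨c.w, 0⟩ : Aff (V N))⁻¹ * (⟨l, t⟩ : Aff (V N))⁻¹ * ⟨c.w, 0⟩ := by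
      ext1
      · rfl
      · show -(((c.w⁻¹ : (Op N)ˣ) : Op N) t) =
          -(((c.w⁻¹ : (Op N)ˣ) : Op N) 0) + ((c.w⁻¹ : (Op N)ˣ) : Op N)
            (-(((l⁻¹ : (Op N)ˣ) : Op N) t)) +
          ((c.w⁻¹ * l⁻¹ : (Op N)ˣ) : Op N) 0
        rw [inv_fix h.l_t, map_zero, map_zero, neg_zero, zero_add, add_zero, map_neg]
    rw [e1, h.eq]
    group

theorem PL_winv (v : V N) : c.PL (((c.w⁻¹ : (Op N)ˣ) : Op N) v) = c.PL v := by
  have h1 := congrArg (fun T : Op N => T (((c.w⁻¹ : (Op N)ˣ) : Op N) v)) c.PL_mul_w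
  have h2 : c.PL ((c.w : Op N) (((c.w⁻¹ : (Op N)ˣ) : Op N) v)) =
      c.PL (((c.w⁻¹ : (Op N)ˣ) : Op N) v) := h1
  rw [apply_inv_self] at h2
  exact h2.symm

theorem data {c : Cell G ι} {Γ : Subgroup (Aff (V N))} (hΓ : c.Good Γ) :
    Pool.Agent.Lib.MP_d9b062_al.CONE.Data c.o c.EL (c.Dat Γ) where
  ne := by
    obtain ⟨γ, hγ, F, l, t, h⟩ := hΓ.exists_alox
    exact ⟨_, γ, hγ, F, l, t, h, rfl⟩
  el := by
    rintro _ ⟨γ, hγ, F, l, t, h, rfl⟩
    exact c.PL_mem t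
  reg := by
    rintro _ ⟨γ, hγ, F, l, t, h, rfl⟩ i hi
    exact h.vreg i hi
  sum := fun p hp p' hp' n m hn hm hne => sum_mem hΓ hp hp' hn hm hne
  sigma := by
    rintro _ ⟨γ, hγ, F, l, t, h, rfl⟩
    refine ⟨_, γ⁻¹, Γ.inv_mem hγ, _, _, _, alox_inv c h, Prod.ext rfl ?_⟩
    show -c.PL t = c.PL (-(((c.w⁻¹ : (Op N)ˣ) : Op N) t))
    rw [map_neg, PL_winv]
  norel := by
    intro e he φ h
    refine hΓ.no_rel he φ fun γ hγ F l t hA => ?_
    exact h _ ⟨γ, hγ, F, l, t, hA, rfl⟩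

end CONE

theorem Good.exists_sign {c : Cell G ι} {Γ : Subgroup (Aff (V N))} (hΓ : c.Good Γ) :
    ∃ X : ι → ℝ, (∀ i, i ≠ c.o → X i ≠ 0) ∧
      (∃ δ ∈ Γ, ∃ F l t, c.ALox δ F l t ∧ ∀ i, i ≠ c.o → 0 < X i * c.tau (l : Op N) i) ∧
      ∀ e ∈ c.EL, e ≠ 0 → ∃ δ ∈ Γ, ∃ F l t, c.ALox δ F l t ∧
        (∀ i, i ≠ c.o → 0 < X i * c.tau (l : Op N) i) ∧ 0 < inner ℝ (c.PL t) e := by
  obtain ⟨X, hX, ⟨_, ⟨δ, hδ, F, l, t, h, rfl⟩, h1⟩, h2⟩ := (CONE.data hΓ).conclusion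
  refine ⟨X, hX, ⟨δ, hδ, F, l, t, h, h1⟩, fun e he he0 => ?_⟩
  obtain ⟨_, ⟨δ, hδ, F, l, t, h, rfl⟩, h3, h4⟩ := h2 e he he0
  exact ⟨δ, hδ, F, l, t, h, h3, h4⟩

end Cell

end Pool.Agent.Lib.MP_d9b062_al

end
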