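import Mathlib
import Pool.Agent.Lib.MP_d9b062_al_m.MBase
import Pool.Agent.Lib.MP_d9b062_al_m.MWeights
import Pool.Agent.Lib.MP_d9b062_al_m.MKak
import Pool.Agent.Lib.MP_d9b062_al_m.MGens
import Pool.Agent.Lib.MP_d9b062_al_m.MAsy
import Pool.Agent.Lib.MP_d9b062_al_m.MRel
import Pool.Agent.Lib.MP_d9b062_al_m.MAlg
import Pool.Agent.Lib.MP_d9b062_al_m.MMostow2
import Pool.Agent.Lib.MP_d9b062_al_m.MChev
import Pool.Agent.Lib.MP_d9b062_al_m.MMostow
import Pool.Agent.Lib.MP_d9b062_al_m.MStmt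

/-!
MP_d9b062_al: merged modules (to shorten the build).
-/

set_option autoImplicit false

/-! ## from `MP_d9b062_al.Assembly1` -/

section
/-!
# Assembly: the self-adjoint case
-/

namespace Pool.Agent.Lib.MP_d9b062_al

open NormedSpace Filter
open scoped Topology

theorem exists_cell {N : ℕ} {G : Subgroup (Op N)ˣ} (hG : IsConnectedSemisimple G)
    {A : Submodule ℝ (Op N)} (hA : IsCartan G A) (hne : A ≠ ⊥) {H : A} (hH : IsRegular G A H)
    {w : (Op N)ˣ} (hw : IsLongest G A H w) (hS : ¬ CondS G A w) :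
    ∃ (ι : Type) (_ : Fintype ι) (_ : LinearOrder ι), Nonempty (Cell G ι) := by
  obtain ⟨ι, i1, i2, W, hpos⟩ := exists_weightData (G := G) hA.symmetric hA.commute H hH
  refine ⟨ι, i1, i2, ?_⟩
  obtain ⟨π, hπo, hwP, hπ⟩ := W.exists_perm hG hA hpos hw hH
  refine ⟨{
    P := W.P
    o := W.o
    r := W.r G
    μ := W.m W.H0
    C := {m | ∃ K ∈ W.Chamber G, m = W.m K}
    w := w
    π := π
    grading := W.grading
    star_P := W.star_P
    P_ne := W.P_ne
    exists_ne := ?_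
    r_lt := fun i j h => W.r_lt h
    r_trans := fun i j k h h' => W.r_trans h h'
    μ_o := W.m_o _
    μ_mono := W.strictMono
    μ_mem := ?_
    C_o := ?_
    C_exp := ?_
    C_le := ?_
    C_root := ?_
    closed := ?_
    star_mem := hG.star_mem
    irr := hG.irreducible.2
    zirr := fun F hF F' hF' h => zariski_irreducible hG hF hF' h
    conf := ?_
    fac := fun g hg hr => W.fac hG hA hg hr
    kak := ?_
    w_mem := hw.1
    w_P := hwP
    π_o := hπo
    π_anti := hπ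
    w_fix := ?_ }⟩
  · -- a nonzero weight exists
    by_contra hcon
    push Not at hcon
    apply hne
    rw [Submodule.eq_bot_iff]
    intro X hX
    have h1 := W.eq_sum ⟨X, hX⟩
    have h2 : ∀ i, W.m ⟨X, hX⟩ i = 0 := fun i => by rw [hcon i]; exact W.m_o _
    rw [show X = ∑ i, W.m ⟨X, hX⟩ i • W.P i from h1]
    exact Finset.sum_eq_zero fun i _ => by rw [h2 i]; exact zero_smul ℝ (W.P i)
  · intro t ht
    refine ⟨t • W.H0, ?_, by rw [map_smul]⟩
    intro a b hab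
    have := W.H0_mem (G := G) a b hab
    simp only [map_smul, Pi.smul_apply, smul_eq_mul]
    exact mul_le_mul_of_nonneg_left this ht
  · rintro m ⟨K, hK, rfl⟩
    exact W.m_o K
  · rintro m ⟨K, hK, rfl⟩
    obtain ⟨g, hg, hgK⟩ := hA.mem_lieAlg K K.2 1
    exact ⟨g, hg, by rw [hgK, one_smul, W.exp_eq]⟩
  · rintro m ⟨K, hK, rfl⟩ i j hij
    exact W.chamber_le hK hij
  · obtain ⟨c, hc, h⟩ := W.chamber_root hG hA
    refine ⟨c, hc, ?_⟩
    rintro m ⟨K, hK, rfl⟩ R hR hroot i j hij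
    exact h K hK R hR hroot i j hij
  · exact fun g hg => hG.closed g fun p hp => hg _ (polyVal_mem p) hp
  · intro l hl hd
    obtain ⟨K, hK⟩ := W.conf hG hA hl hd
    exact ⟨W.m K, W.m_o K, hK⟩
  · intro g hg
    obtain ⟨k, hk, k', hk', K, hK, h1, h2, h3⟩ := W.kak hG hA hg
    exact ⟨k, hk, k', hk', W.m K, ⟨K, hK, rfl⟩, h1, h2, by rw [h3, W.exp_eq]⟩
  · intro v hv
    by_contra hne'
    apply hS
    refine ⟨v, fun l hl => hv l hl.1 ?_, hne'⟩
    exact (W.diag_iff _).2 hl.2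

/-- powers of a conjugate of `(l, 0)` -/
lemma aff_conj_pow {N : ℕ} (F : Aff (V N)) (l : (Op N)ˣ) (n : ℕ) :
    (F * ⟨l, 0⟩ * F⁻¹) ^ n = F * ⟨l ^ n, 0⟩ * F⁻¹ := by
  induction n with
  | zero =>
    have : (⟨l ^ 0, 0⟩ : Aff (V N)) = 1 := by
      apply Aff.ext
      · exact pow_zero l
      · rfl
    rw [pow_zero, this, mul_one, mul_inv_cancel]
  | succ n ih =>
    have : (⟨l ^ (n + 1), 0⟩ : Aff (V N)) = ⟨l ^ n, 0⟩ * ⟨l, 0⟩ := by
      apply Aff.ext
      · exact pow_succ l n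
      · change (0 : V N) = 0 + ((l ^ n : (Op N)ˣ) : Op N) 0
        rw [map_zero, add_zero]
    rw [pow_succ, ih, this]
    group

lemma aff_conj_fix {N : ℕ} (F : Aff (V N)) (l : (Op N)ˣ) :
    (F * ⟨l, 0⟩ * F⁻¹).act F.tr = F.tr := by
  have h1 : ∀ (a b : Aff (V N)) (v : V N), (a * b).act v = a.act (b.act v) := by
    intro a b v
    simp only [Aff.act, Aff.mul_lin, Aff.mul_tr, Units.val_mul, map_add]
    change (a.lin : Op N) ((b.lin : Op N) v) + (a.tr + (a.lin : Op N) b.tr) = _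
    abel
  have h2 : (F⁻¹).act F.tr = 0 := by
    change ((F.lin⁻¹ : (Op N)ˣ) : Op N) F.tr + -(((F.lin⁻¹ : (Op N)ˣ) : Op N) F.tr) = 0
    exact add_neg_cancel _
  rw [h1, h1, h2]
  change (F.lin : Op N) ((l : Op N) 0 + 0) + F.tr = F.tr
  rw [map_zero, add_zero, map_zero, zero_add]

/-- a properly discontinuous Zariski dense group is `Good` -/
theorem good_of_proper {N : ℕ} {G : Subgroup (Op N)ˣ} {ι : Type} [Fintype ι] [LinearOrder ι]
    (c : Cell G ι) {Γ : Subgroup (Aff (V N))} (hlin : ∀ γ ∈ Γ, γ.lin ∈ G)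
    (hz : ∀ p : MvPolynomial (Fin N × Fin N) ℝ,
      (∀ γ ∈ Γ, polyVal p (γ.lin : Op N) = 0) → ∀ g ∈ G, polyVal p (g : Op N) = 0)
    (hpd : ∀ K : Set (V N), IsCompact K →
      {γ : Aff (V N) | γ ∈ Γ ∧ (γ.act '' K ∩ K).Nonempty}.Finite) : c.Good Γ where
  lin_mem := hlin
  dense := by
    intro F hF h g hg
    obtain ⟨p, hp⟩ := exists_polyVal hF
    rw [hp]
    exact hz p (fun γ hγ => by rw [← hp]; exact h _ ⟨γ, hγ, rfl⟩) g hg
  nofix := by
    rintro γ hγ F l t hlox rfl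
    have hfin := hpd {F.tr} isCompact_singleton
    have hpow : ∀ n : ℕ, γ ^ n = F * ⟨l ^ n, 0⟩ * F⁻¹ := by
      intro n
      rw [hlox.eq, aff_conj_pow]
    -- the powers of `γ` are distinct
    have hinj : Function.Injective (fun n : ℕ => γ ^ n) := by
      intro n m hnm
      simp only [hpow] at hnm
      have h1 : (⟨l ^ n, 0⟩ : Aff (V N)) = ⟨l ^ m, 0⟩ := by
        have := mul_right_cancel hnm
        exact mul_left_cancel this
      have h2 : l ^ n = l ^ m := congrArg Aff.lin h1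
      obtain ⟨i, hi⟩ := c.exists_ne
      have h3 : (n : ℝ) • c.tau (l : Op N) = (m : ℝ) • c.tau (l : Op N) := by
        rw [← c.tau_pow hlox.l_mem, ← c.tau_pow hlox.l_mem, ← Units.val_pow_eq_pow_val,
          ← Units.val_pow_eq_pow_val, h2]
      have h4 := congrFun h3 i
      simp only [Pi.smul_apply, smul_eq_mul] at h4
      have h5 := mul_right_cancel₀ (hlox.vreg i hi) h4
      exact_mod_cast h5
    refine Set.infinite_of_injective_forall_mem hinj (s := {γ : Aff (V N) | γ ∈ Γ ∧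
      (γ.act '' {F.tr} ∩ {F.tr}).Nonempty}) ?_ hfin
    intro n
    refine ⟨Γ.pow_mem hγ n, F.tr, ?_, rfl⟩
    refine ⟨F.tr, rfl, ?_⟩
    rw [hpow, aff_conj_fix]

/-- The theorem for self-adjoint groups. -/
theorem isMilnor_of_selfAdjoint {N : ℕ} {G : Subgroup (Op N)ˣ} (hG : IsConnectedSemisimple G)
    {A : Submodule ℝ (Op N)} (hA : IsCartan G A) {H : A} (hH : IsRegular G A H)
    {w : (Op N)ˣ} (hw : IsLongest G A H w) (hS : ¬ CondS G A w) : IsMilnor G := by
  rintro ⟨Γ, hfree, hlin, hz, hpd⟩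
  by_cases hne : A = ⊥
  · -- compact case
    refine no_free_isometric Γ hfree ?_ hpd
    intro γ hγ v
    obtain ⟨Y, hY, hYs, hexp, -⟩ := exists_log hG (hlin γ hγ)
    have hY0 : Y ∈ A := hA.maximal Y hY hYs fun X hX => by
      rw [hne, Submodule.mem_bot] at hX
      rw [hX, zero_mul, mul_zero]
    rw [hne, Submodule.mem_bot] at hY0
    rw [hY0, smul_zero, exp_zero] at hexp
    have h1 : ‖(γ.lin : Op N) v‖ ^ 2 = ‖v‖ ^ 2 := by
      rw [← real_inner_self_eq_norm_sq, ← real_inner_self_eq_norm_sq]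
      have h2 : inner ℝ ((γ.lin : Op N) v) ((γ.lin : Op N) v) =
          inner ℝ ((star (γ.lin : Op N) * (γ.lin : Op N)) v) v := by
        change _ = inner ℝ (star (γ.lin : Op N) ((γ.lin : Op N) v)) v
        rw [ContinuousLinearMap.star_eq_adjoint, ContinuousLinearMap.adjoint_inner_left]
      rw [h2, hexp]
      rfl
    exact (sq_eq_sq₀ (norm_nonneg _) (norm_nonneg _)).mp h1
  · obtain ⟨ι, i1, i2, ⟨c⟩⟩ := exists_cell hG hA hne hH hw hS
    have hgood := good_of_proper c hlin hz hpd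
    obtain ⟨X, hX, h1, h2⟩ := hgood.exists_sign
    obtain ⟨K, hK, hinf⟩ := hgood.final hX h1 h2
    exact hinf (hpd K hK)

end Pool.Agent.Lib.MP_d9b062_al

end

/-! ## from `MP_d9b062_al.Assembly2` -/

section
/-!
# Assembly: the general case, by Mostow's theorem
-/

namespace Pool.Agent.Lib.MP_d9b062_al

open NormedSpace Filter
open scoped Topology

variable {N : ℕ}

lemma cj_smul_mul (c : ℝ) (S T : Op N) : (c • S) * T = c • (S * T) := Algebra.smul_mul_assoc c S T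
lemma cj_mul_smul (c : ℝ) (S T : Op N) : S * (c • T) = c • (S * T) := Algebra.mul_smul_comm c S T
lemma cj_star_add (S T : Op N) : star (S + T) = star S + star T := star_add S T
lemma cj_star_smul (c : ℝ) (S : Op N) : star (c • S) = c • star S := by
  rw [star_smul, star_trivial]

/-- symmetric operators are hyperbolic -/
lemma isHyperbolic_of_symm {T : Op N} (h : star T = T) : IsHyperbolic T := by
  have hT : (T : V N →ₗ[ℝ] V N).IsSymmetric := by
    rw [ContinuousLinearMap.star_eq_adjoint] at h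
    intro v w
    change inner ℝ (T v) w = inner ℝ v (T w)
    conv_lhs => rw [← h]
    rw [ContinuousLinearMap.adjoint_inner_left]
  have hn : Module.finrank ℝ (V N) = N := by simp
  refine ⟨(hT.eigenvectorBasis hn).toBasis, fun i => ⟨hT.eigenvalues hn i, ?_⟩⟩
  rw [OrthonormalBasis.coe_toBasis]
  exact hT.apply_eigenvectorBasis hn i

lemma IsHyperbolic.cj {T : Op N} (h : IsHyperbolic T) (g : (Op N)ˣ) : IsHyperbolic (cjL g T) := by
  obtain ⟨b, hb⟩ := h
  let e : V N ≃ₗ[ℝ] V N := LinearEquiv.ofLinear ((g : Op N) : V N →ₗ[ℝ] V N)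
    (((g⁻¹ : (Op N)ˣ) : Op N) : V N →ₗ[ℝ] V N)
    (by
      ext1 v
      have : ((g : Op N) * ((g⁻¹ : (Op N)ˣ) : Op N)) v = v := by rw [Units.mul_inv]; rfl
      exact this)
    (by
      ext1 v
      have : (((g⁻¹ : (Op N)ˣ) : Op N) * (g : Op N)) v = v := by rw [Units.inv_mul]; rfl
      exact this)
  refine ⟨b.map e, fun i => ?_⟩
  obtain ⟨a, ha⟩ := hb i
  refine ⟨a, ?_⟩
  have h1 : ((g⁻¹ : (Op N)ˣ) : Op N) ((g : Op N) (b i)) = b i := by
    have : (((g⁻¹ : (Op N)ˣ) : Op N) * (g : Op N)) (b i) = b i := by rw [Units.inv_mul]; rfl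
    exact this
  rw [Module.Basis.map_apply]
  change (g : Op N) (T (((g⁻¹ : (Op N)ˣ) : Op N) ((g : Op N) (b i)))) = a • (g : Op N) (b i)
  rw [h1, ha, map_smul]

lemma cjL_mul_units (g h : (Op N)ˣ) (T : Op N) : cjL (g * h) T = cjL g (cjL h T) := by
  simp only [cjL_apply, mul_inv_rev, Units.val_mul]
  noncomm_ring

lemma mem_cjG_mul {g h : (Op N)ˣ} {G : Subgroup (Op N)ˣ} {x : (Op N)ˣ} :
    x ∈ cjG (g * h) G ↔ g⁻¹ * x * g ∈ cjG h G := by
  rw [mem_cjG, mem_cjG]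
  have : (g * h)⁻¹ * x * (g * h) = h⁻¹ * (g⁻¹ * x * g) * h := by group
  rw [this]

/-- conjugation of affine maps: freeness, density and properness are preserved -/
theorem isMilnor_of_cjG {G : Subgroup (Op N)ˣ} (g : (Op N)ˣ) (h : IsMilnor (cjG g G)) :
    IsMilnor G := by
  rintro ⟨Γ, ⟨κ, hκ, ⟨e⟩⟩, hlin, hz, hpd⟩
  apply h
  set F : Aff (V N) := ⟨g, 0⟩ with hF
  have hact : ∀ (a b : Aff (V N)) (v : V N), (a * b).act v = a.act (b.act v) := by
    intro a b v
    simp only [Aff.act, Aff.mul_lin, Aff.mul_tr, Units.val_mul, map_add]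
    change (a.lin : Op N) ((b.lin : Op N) v) + (a.tr + (a.lin : Op N) b.tr) = _
    abel
  have hlinF : ∀ γ : Aff (V N), ((MulAut.conj F).toMonoidHom γ).lin = g * γ.lin * g⁻¹ := by
    intro γ
    change (F * γ * F⁻¹).lin = _
    rw [Aff.mul_lin, Aff.mul_lin, Aff.inv_lin]
  refine ⟨Γ.map (MulAut.conj F).toMonoidHom, ⟨κ, hκ, ⟨?_⟩⟩, ?_, ?_, ?_⟩
  · exact (Γ.equivMapOfInjective _ (MulAut.conj F).injective).symm.trans e
  · intro x hx
    obtain ⟨γ, hγ, hγx⟩ := Subgroup.mem_map.mp hx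
    have hx' : x.lin = g * γ.lin * g⁻¹ := by rw [← hγx]; exact hlinF γ
    rw [hx']
    exact conj_mem_cjG (hlin γ hγ)
  · intro p hp x hx
    obtain ⟨q, hq⟩ := exists_polyVal_conj g p
    have h0 : ∀ γ ∈ Γ, polyVal q (γ.lin : Op N) = 0 := by
      intro γ hγ
      have h2 := hp ((MulAut.conj F).toMonoidHom γ) (Subgroup.mem_map_of_mem _ hγ)
      rw [hlinF γ] at h2
      rw [← hq, cjL_apply]
      rw [Units.val_mul, Units.val_mul] at h2
      exact h2
    have h1 := hz q h0 _ (mem_cjG.mp hx)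
    rw [← hq, Units.val_mul, Units.val_mul] at h1
    have h2 : cjL g (((g⁻¹ : (Op N)ˣ) : Op N) * (x : Op N) * (g : Op N)) = (x : Op N) := by
      have := cjL_inv' g (x : Op N)
      rw [cjL_apply g⁻¹, inv_inv] at this
      exact this
    rwa [h2] at h1
  · intro K hK
    have hK' : IsCompact ((fun v : V N => ((g⁻¹ : (Op N)ˣ) : Op N) v) '' K) :=
      hK.image (ContinuousLinearMap.continuous _)
    have hFi : ∀ x : V N, (F⁻¹).act x = ((g⁻¹ : (Op N)ˣ) : Op N) x := by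
      intro x
      change ((g⁻¹ : (Op N)ˣ) : Op N) x + -(((g⁻¹ : (Op N)ˣ) : Op N) 0) = _
      rw [map_zero, neg_zero, add_zero]
    refine ((hpd _ hK').image (fun γ => F * γ * F⁻¹)).subset ?_
    intro x hx
    obtain ⟨⟨γ, hγ, hγx⟩, v, ⟨u, hu, huv⟩, hv⟩ := hx
    have hx' : x = F * γ * F⁻¹ := hγx.symm
    refine ⟨γ, ⟨hγ, ?_⟩, hx'.symm⟩
    refine ⟨((g⁻¹ : (Op N)ˣ) : Op N) v, ?_, ⟨v, hv, rfl⟩⟩
    refine ⟨((g⁻¹ : (Op N)ˣ) : Op N) u, ⟨u, hu, rfl⟩, ?_⟩
    have huv' : (F * γ * F⁻¹).act u = v := by rw [← hx']; exact huv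
    rw [← huv', ← hFi u, ← hFi, ← hact, ← hact]
    congr 1
    group

/-- The main theorem for linear groups. -/
theorem isMilnor_main {G : Subgroup (Op N)ˣ} (hG : IsSemisimpleIrr G)
    {A : Submodule ℝ (Op N)} (hA : IsCartanSubspace G A) {H : A} (hH : IsRegular G A H)
    {w : (Op N)ˣ} (hw : IsLongest G A H w) (hS : ¬ CondS G A w) : IsMilnor G := by
  -- make `A` symmetric
  obtain ⟨g₁, hg₁⟩ := exists_symmetrizing A hA.hyperbolic hA.commute
  have hcl₁ := closed_cjG (g := g₁) hG.closed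
  obtain ⟨m, R, w₁, hw₁, hRs, hRp, hRG⟩ := exists_chevalley (cjG g₁ G) hcl₁
  -- `R ∘ conj` fixes the line of `w₁` on `G`
  let Rg : Op N →* Op m :=
    { toFun := fun T => R (cjL g₁ T)
      map_one' := by
        rw [cjL_apply, mul_one, Units.mul_inv, map_one]
      map_mul' := fun S T => by rw [cjL_mul, map_mul] }
  have hRgp : IsPolyMap (Rg : Op N → Op m) := hRp.comp (IsPolyMap.linear (cjL g₁))
  have hfix := fixes_of_line hG Rg hRgp w₁ (fun x hx => by
    have := (hRG (g₁ * x * g₁⁻¹)).mp (conj_mem_cjG hx)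
    simpa [Rg, cjL_apply, Units.val_mul] using this)
  have hfix₁ : ∀ x ∈ cjG g₁ G, R (x : Op N) w₁ = w₁ := by
    intro x hx
    have h1 := hfix _ (mem_cjG.mp hx)
    have h2 : cjL g₁ (((g₁⁻¹ * x * g₁ : (Op N)ˣ)) : Op N) = (x : Op N) := by
      rw [Units.val_mul, Units.val_mul]
      have := cjL_inv' g₁ (x : Op N)
      rw [cjL_apply g₁⁻¹, inv_inv] at this
      exact this
    change R (cjL g₁ _) w₁ = w₁ at h1
    rwa [h2] at h1
  have hdet₁ : ∀ x ∈ cjG g₁ G, LinearMap.det ((x : Op N) : V N →ₗ[ℝ] V N) = 1 := by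
    intro x hx
    have h1 := det_eq_one hG _ (mem_cjG.mp hx)
    have h2 : (((g₁⁻¹ * x * g₁ : (Op N)ˣ) : Op N) : V N →ₗ[ℝ] V N) =
        (((g₁⁻¹ : (Op N)ˣ) : Op N) : V N →ₗ[ℝ] V N) ∘ₗ ((x : Op N) : V N →ₗ[ℝ] V N) ∘ₗ
          ((g₁ : Op N) : V N →ₗ[ℝ] V N) := rfl
    rw [h2, LinearMap.det_comp, LinearMap.det_comp] at h1
    have h3 : LinearMap.det (((g₁⁻¹ : (Op N)ˣ) : Op N) : V N →ₗ[ℝ] V N) *
        LinearMap.det ((g₁ : Op N) : V N →ₗ[ℝ] V N) = 1 := by
      rw [← LinearMap.det_comp]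
      have : (((g₁⁻¹ : (Op N)ˣ) : Op N) : V N →ₗ[ℝ] V N) ∘ₗ ((g₁ : Op N) : V N →ₗ[ℝ] V N) =
          LinearMap.id := by
        ext1 v
        have : (((g₁⁻¹ : (Op N)ˣ) : Op N) * (g₁ : Op N)) v = v := by rw [Units.inv_mul]; rfl
        exact this
      rw [this, LinearMap.det_id]
    calc LinearMap.det ((x : Op N) : V N →ₗ[ℝ] V N)
        = (LinearMap.det (((g₁⁻¹ : (Op N)ˣ) : Op N) : V N →ₗ[ℝ] V N) *
            LinearMap.det ((g₁ : Op N) : V N →ₗ[ℝ] V N)) *
            LinearMap.det ((x : Op N) : V N →ₗ[ℝ] V N) := by rw [h3, one_mul]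
      _ = 1 := by rw [← h1]; ring
  obtain ⟨g₀, hg₀A, hg₀⟩ := exists_selfadjoint_conj hG.irreducible.1
    (irreducible_cjG (g := g₁) hG.irreducible.2) hdet₁ R hRs hRp w₁ hfix₁
    (fun x hx => (hRG x).mpr ⟨1, by rw [hx, one_smul]⟩) (cjA g₁ A)
    (by
      rintro _ ⟨X, hX, rfl⟩
      exact lieAlg_cjG.mpr (hA.mem_lieAlg X hX))
    (by
      rintro _ ⟨X, hX, rfl⟩
      exact hg₁ X hX)
  set g := g₀ * g₁ with hgdef
  have hsymm : ∀ X ∈ A, star (cjL g X) = cjL g X := by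
    intro X hX
    have h1 : cjL g X = cjL g₁ X := by
      rw [hgdef, cjL_mul_units, cjL_apply g₀, hg₀A _ (cjL_mem_cjA hX), mul_assoc, Units.mul_inv,
        mul_one]
    rw [h1]
    exact hg₁ X hX
  have hG' : IsConnectedSemisimple (cjG g G) :=
    { closed := closed_cjG hG.closed
      connected := connected_cjG hG.connected
      star_mem := by
        intro x hx
        rw [mem_cjG_mul] at hx ⊢
        have := hg₀ _ hx
        have e : g₀ * (g₀⁻¹ * x * g₀) * g₀⁻¹ = x := by group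
        rwa [e] at this
      irreducible := ⟨hG.irreducible.1, irreducible_cjG hG.irreducible.2⟩
      semisimple := by
        intro Z hZ hc
        have h1 := center_trivial hG _ (lieAlg_cjG'.mp hZ) (fun X hX => by
          apply cjL_injective g
          rw [cjL_mul, cjL_mul, cjL_inv']
          exact hc _ (lieAlg_cjG.mpr hX))
        rw [← cjL_inv' g Z, h1, map_zero] }
  have hA' : IsCartan (cjG g G) (cjA g A) :=
    { mem_lieAlg := by
        rintro _ ⟨X, hX, rfl⟩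
        exact lieAlg_cjG.mpr (hA.mem_lieAlg X hX)
      symmetric := by
        rintro _ ⟨X, hX, rfl⟩
        exact hsymm X hX
      commute := by
        rintro _ ⟨X, hX, rfl⟩ _ ⟨Y, hY, rfl⟩
        rw [← cjL_mul, hA.commute X hX Y hY, cjL_mul]
      maximal := by
        intro Y hY hYs hYc
        rw [mem_cjA]
        -- the enlarged space, pulled back
        let Y₀ : Op N := cjL g⁻¹ Y
        have hY₀ : cjL g Y₀ = Y := cjL_inv' g Y
        have hB : A ⊔ Submodule.span ℝ {Y₀} ≤ A := by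
          apply hA.maximal _ le_sup_left
          · intro X hX
            obtain ⟨X₁, hX₁, X₂, hX₂, rfl⟩ := Submodule.mem_sup.mp hX
            obtain ⟨a, rfl⟩ := Submodule.mem_span_singleton.mp hX₂
            constructor
            · rw [← lieAlg_cjG (g := g), map_add, map_smul, hY₀]
              exact lieAlg_add hG' (lieAlg_cjG.mpr (hA.mem_lieAlg _ hX₁)) (lieAlg_smul a hY)
            · have h1 : star (cjL g (X₁ + a • Y₀)) = cjL g (X₁ + a • Y₀) := by
                rw [map_add, map_smul, hY₀, cj_star_add, cj_star_smul, hsymm X₁ hX₁, hYs]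
              have h2 := (isHyperbolic_of_symm h1).cj g⁻¹
              rwa [cjL_inv] at h2
          · intro X hX X' hX'
            obtain ⟨X₁, hX₁, X₂, hX₂, rfl⟩ := Submodule.mem_sup.mp hX
            obtain ⟨a, rfl⟩ := Submodule.mem_span_singleton.mp hX₂
            obtain ⟨X₁', hX₁', X₂', hX₂', rfl⟩ := Submodule.mem_sup.mp hX'
            obtain ⟨a', rfl⟩ := Submodule.mem_span_singleton.mp hX₂'
            have hc1 : X₁ * X₁' = X₁' * X₁ := hA.commute _ hX₁ _ hX₁'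
            have hcY : ∀ X ∈ A, X * Y₀ = Y₀ * X := by
              intro X hX
              apply cjL_injective g
              rw [cjL_mul, cjL_mul, hY₀]
              exact hYc _ (cjL_mem_cjA hX)
            simp only [mul_add, add_mul]
            simp only [cj_mul_smul, cj_smul_mul]
            rw [hc1, hcY X₁ hX₁, ← hcY X₁' hX₁', smul_comm a a']
            abel
        exact hB (Submodule.mem_sup_right (Submodule.mem_span_singleton_self _)) }
  have hH' : IsRegular (cjG g G) (cjA g A) (cjE g A H) := by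
    intro α hα
    exact hH _ (isRoot_cj hα)
  have hwc : ∀ X : Op N, ((((g * w * g⁻¹)⁻¹ : (Op N)ˣ)) : Op N) * cjL g X *
      ((g * w * g⁻¹ : (Op N)ˣ) : Op N) = cjL g (((w⁻¹ : (Op N)ˣ) : Op N) * X * (w : Op N)) := by
    intro X
    have e1 : (((g * w * g⁻¹)⁻¹ : (Op N)ˣ) : Op N) = cjL g ((w⁻¹ : (Op N)ˣ) : Op N) := by
      rw [cjL_apply, ← Units.val_mul, ← Units.val_mul]
      have : (g * w * g⁻¹)⁻¹ = g * w⁻¹ * g⁻¹ := by group
      rw [this]
    have e2 : ((g * w * g⁻¹ : (Op N)ˣ) : Op N) = cjL g (w : Op N) := by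
      rw [cjL_apply, ← Units.val_mul, ← Units.val_mul]
    rw [e1, e2, ← cjL_mul, ← cjL_mul]
  have hw' : IsLongest (cjG g G) (cjA g A) (cjE g A H) (g * w * g⁻¹) := by
    obtain ⟨hwG, hwA, hwα⟩ := hw
    refine ⟨conj_mem_cjG hwG, ?_, ?_⟩
    · rintro _ ⟨X, hX, rfl⟩
      rw [hwc]
      exact cjL_mem_cjA (hwA X hX)
    · intro α hα hpos
      have h1 := hwα _ (isRoot_cj hα) hpos
      have h2 : (⟨(((g * w * g⁻¹)⁻¹ : (Op N)ˣ) : Op N) * ((cjE g A H : cjA g A) : Op N) *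
          ((g * w * g⁻¹ : (Op N)ˣ) : Op N), by
            rw [cjE_apply, hwc]; exact cjL_mem_cjA (hwA H H.2)⟩ : cjA g A) =
          cjE g A ⟨((w⁻¹ : (Op N)ˣ) : Op N) * (H : Op N) * (w : Op N), hwA H H.2⟩ := by
        apply Subtype.ext
        exact hwc H
      rw [h2]
      exact h1
  have hS' : ¬ CondS (cjG g G) (cjA g A) (g * w * g⁻¹) := by
    rintro ⟨v, hv, hne⟩
    apply hS
    have hgg : ∀ v, ((g⁻¹ : (Op N)ˣ) : Op N) ((g : Op N) v) = v := by
      intro v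
      have : (((g⁻¹ : (Op N)ˣ) : Op N) * (g : Op N)) v = v := by rw [Units.inv_mul]; rfl
      exact this
    have hgg' : ∀ v, (g : Op N) (((g⁻¹ : (Op N)ˣ) : Op N) v) = v := by
      intro v
      have : ((g : Op N) * ((g⁻¹ : (Op N)ˣ) : Op N)) v = v := by rw [Units.mul_inv]; rfl
      exact this
    refine ⟨((g⁻¹ : (Op N)ˣ) : Op N) v, ?_, ?_⟩
    · intro l hl
      have h1 := hv (g * l * g⁻¹) ⟨conj_mem_cjG hl.1, by
        rintro _ ⟨X, hX, rfl⟩
        have e2 : ((g * l * g⁻¹ : (Op N)ˣ) : Op N) = cjL g (l : Op N) := by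
          rw [cjL_apply, ← Units.val_mul, ← Units.val_mul]
        rw [e2, ← cjL_mul, hl.2 X hX, cjL_mul]⟩
      have h2 : (g : Op N) ((l : Op N) (((g⁻¹ : (Op N)ˣ) : Op N) v)) = v := h1
      rw [← hgg ((l : Op N) (((g⁻¹ : (Op N)ˣ) : Op N) v)), h2]
    · intro h1
      apply hne
      change (g : Op N) ((w : Op N) (((g⁻¹ : (Op N)ˣ) : Op N) v)) = v
      rw [h1, hgg']
  exact isMilnor_of_cjG g (isMilnor_of_selfAdjoint hG' hA' hH' hw' hS')

end Pool.Agent.Lib.MP_d9b062_al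

end

/-! ## from `MP_d9b062_al.Transfer` -/

section
/-!
# From matrices to operators
-/

namespace Pool.Agent.Lib.MP_d9b062_al.Stmt

open NormedSpace Matrix

attribute [local instance 100] LieRing.ofAssociativeRing

variable {N : ℕ}

/-- matrices as operators -/
noncomputable def Φ (N : ℕ) : Matrix (Fin N) (Fin N) ℝ ≃ₐ[ℝ] Op N :=
  (Matrix.toEuclideanCLM (n := Fin N) (𝕜 := ℝ)).toAlgEquiv

lemma Φ_toLp (T : Matrix (Fin N) (Fin N) ℝ) (v : Fin N → ℝ) :
    Φ N T (WithLp.toLp 2 v) = WithLp.toLp 2 (T *ᵥ v) := rfl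

lemma ofLp_Φ (T : Matrix (Fin N) (Fin N) ℝ) (v : V N) :
    WithLp.ofLp (Φ N T v) = T *ᵥ WithLp.ofLp v := rfl

lemma polyVal_Φ (p : MvPolynomial (Fin N × Fin N) ℝ) (T : Matrix (Fin N) (Fin N) ℝ) :
    MP_d9b062_al.polyVal p (Φ N T) = polyVal p T := by
  unfold MP_d9b062_al.polyVal polyVal
  congr 2
  funext ij
  have h : (EuclideanSpace.single ij.2 (1 : ℝ) : V N) = WithLp.toLp 2 (Pi.single ij.2 1) := rfl
  rw [h, Φ_toLp]
  simp

lemma Φ_continuous : Continuous (Φ N) :=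
  (Φ N).toLinearMap.continuous_of_finiteDimensional

lemma Φ_exp (T : Matrix (Fin N) (Fin N) ℝ) : Φ N (exp T) = exp (Φ N T) := by
  let _ : NormedRing (Matrix (Fin N) (Fin N) ℝ) := Matrix.linftyOpNormedRing
  let _ : NormedAlgebra ℝ (Matrix (Fin N) (Fin N) ℝ) := Matrix.linftyOpNormedAlgebra
  let _ : NormedAlgebra ℚ (Matrix (Fin N) (Fin N) ℝ) := .restrictScalars ℚ ℝ _
  exact map_exp (Φ N) Φ_continuous T

/-- matrices as operators, on the units -/
noncomputable def ΦU (N : ℕ) : GL (Fin N) ℝ ≃* (Op N)ˣ :=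
  Units.mapEquiv (Φ N).toMulEquiv

lemma coe_ΦU (g : GL (Fin N) ℝ) : ((ΦU N g : (Op N)ˣ) : Op N) = Φ N g.1 := rfl

lemma coe_ΦU_inv (g : GL (Fin N) ℝ) : (((ΦU N g)⁻¹ : (Op N)ˣ) : Op N) = Φ N g⁻¹.1 := rfl

/-- the operator version of a representation -/
noncomputable def opRep {𝒢 : Type*} [Group 𝒢] (ρ : 𝒢 →* GL (Fin N) ℝ) : 𝒢 →* (Op N)ˣ :=
  (ΦU N).toMonoidHom.comp ρ

lemma coe_opRep {𝒢 : Type*} [Group 𝒢] (ρ : 𝒢 →* GL (Fin N) ℝ) (g : 𝒢) :
    ((opRep ρ g : (Op N)ˣ) : Op N) = Φ N (ρ g).1 := rfl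

/-- the operator version of a space of matrices -/
noncomputable def opSub (A : Submodule ℝ (Matrix (Fin N) (Fin N) ℝ)) : Submodule ℝ (Op N) :=
  A.map (Φ N).toLinearMap

lemma Φ_mem_opSub {A : Submodule ℝ (Matrix (Fin N) (Fin N) ℝ)} {X : Matrix (Fin N) (Fin N) ℝ} :
    Φ N X ∈ opSub A ↔ X ∈ A := by
  constructor
  · rintro ⟨Y, hY, h⟩
    rwa [← (Φ N).injective h]
  · intro h
    exact ⟨X, h, rfl⟩

lemma exists_of_opSub {A : Submodule ℝ (Matrix (Fin N) (Fin N) ℝ)} {Z : Op N} (h : Z ∈ opSub A) :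
    ∃ X ∈ A, Φ N X = Z := h

/-- the operator version of an element of `A` -/
noncomputable def opE (A : Submodule ℝ (Matrix (Fin N) (Fin N) ℝ)) : A →ₗ[ℝ] opSub A :=
  (Φ N).toLinearMap.restrict (fun _ h => Φ_mem_opSub.mpr h)

lemma coe_opE (A : Submodule ℝ (Matrix (Fin N) (Fin N) ℝ)) (X : A) :
    ((opE A X : opSub A) : Op N) = Φ N X.1 := rfl

lemma opE_surj (A : Submodule ℝ (Matrix (Fin N) (Fin N) ℝ)) (Z : opSub A) :
    ∃ X : A, opE A X = Z := by
  obtain ⟨X, hX, h⟩ := Z.2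
  exact ⟨⟨X, hX⟩, Subtype.ext h⟩

/-- hyperbolic matrices -/
lemma isHyperbolic_Φ {X : Matrix (Fin N) (Fin N) ℝ} :
    MP_d9b062_al.IsHyperbolic (Φ N X) ↔ IsHyperbolic X := by
  constructor
  · rintro ⟨b, hb⟩
    choose d hd using hb
    let e := EuclideanSpace.basisFun (Fin N) ℝ
    -- the matrix whose columns are the `b j`
    let P : Matrix (Fin N) (Fin N) ℝ := e.toBasis.toMatrix b
    let Q : Matrix (Fin N) (Fin N) ℝ := b.toMatrix e.toBasis
    have hPQ : P * Q = 1 := Module.Basis.toMatrix_mul_toMatrix_flip _ _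
    have hQP : Q * P = 1 := Module.Basis.toMatrix_mul_toMatrix_flip _ _
    refine ⟨⟨P, Q, hPQ, hQP⟩, d, ?_⟩
    have hP : ∀ i j, P i j = b j i := by
      intro i j
      rfl
    have hXP : X * P = P * diagonal d := by
      ext i j
      rw [Matrix.mul_diagonal, hP]
      have h1 := congrArg (fun v : V N => v i) (hd j)
      have h2 : (Φ N X (b j)) i = (X *ᵥ WithLp.ofLp (b j)) i := rfl
      simp only [h2] at h1
      change (X *ᵥ WithLp.ofLp (b j)) i = b j i * d j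
      rw [h1]
      change d j * b j i = _
      exact mul_comm _ _
    change X = P * diagonal d * Q
    rw [← hXP, mul_assoc, hPQ, mul_one]
  · rintro ⟨P, d, hX⟩
    let e : V N ≃ₗ[ℝ] V N := LinearEquiv.ofLinearMap (Φ N P.1 : V N →ₗ[ℝ] V N)
      (Φ N P⁻¹.1 : V N →ₗ[ℝ] V N)
      (by
        ext1 v
        have : (Φ N P.1 * Φ N P⁻¹.1) v = v := by
          rw [← map_mul, ← Units.val_mul, mul_inv_cancel, Units.val_one, map_one]; rfl
        exact this)
      (by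
        ext1 v
        have : (Φ N P⁻¹.1 * Φ N P.1) v = v := by
          rw [← map_mul, ← Units.val_mul, inv_mul_cancel, Units.val_one, map_one]; rfl
        exact this)
    have hXP : X * P.1 = P.1 * diagonal d := by
      rw [hX, mul_assoc, ← Units.val_mul, inv_mul_cancel, Units.val_one, mul_one]
    refine ⟨(EuclideanSpace.basisFun (Fin N) ℝ).toBasis.map e, fun i => ⟨d i, ?_⟩⟩
    rw [Module.Basis.map_apply]
    have h1 : (EuclideanSpace.basisFun (Fin N) ℝ).toBasis i = WithLp.toLp 2 (Pi.single i 1) := by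
      simp
    rw [h1]
    change Φ N X (Φ N P.1 (WithLp.toLp 2 (Pi.single i 1))) =
      d i • Φ N P.1 (WithLp.toLp 2 (Pi.single i 1))
    have h2 : Φ N X (Φ N P.1 (WithLp.toLp 2 (Pi.single i 1))) =
        Φ N (X * P.1) (WithLp.toLp 2 (Pi.single i 1)) := by
      rw [map_mul]; rfl
    rw [h2, hXP, map_mul]
    change Φ N P.1 (Φ N (diagonal d) (WithLp.toLp 2 (Pi.single i 1))) = _
    rw [Φ_toLp (diagonal d), ← map_smul]
    congr 1
    rw [← WithLp.toLp_smul]
    congr 1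
    ext j
    rw [Matrix.mulVec_diagonal]
    by_cases h : j = i
    · subst h; simp
    · simp [h]

lemma exists_Φ (Z : Op N) : ∃ X, Φ N X = Z := (Φ N).surjective Z

end Pool.Agent.Lib.MP_d9b062_al.Stmt

end

/-! ## from `MP_d9b062_al.Transfer2` -/

section
/-!
# From matrices to operators: the theorem
-/

namespace Pool.Agent.Lib.MP_d9b062_al.Stmt

open NormedSpace Matrix

attribute [local instance 100] LieRing.ofAssociativeRing

section

variable {𝒢 : Type*} [Group 𝒢] {N : ℕ} {ρ : 𝒢 →* GL (Fin N) ℝ}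
  {𝔤 : LieSubalgebra ℝ (Matrix (Fin N) (Fin N) ℝ)}

/-- the exponential as a unit -/
noncomputable def expU (X : Op N) : (Op N)ˣ :=
  { val := exp X
    inv := exp (-X)
    val_inv := by
      let _ : NormedAlgebra ℚ (Op N) := .restrictScalars ℚ ℝ _
      rw [← exp_add_of_commute (Commute.neg_right (Commute.refl X)), add_neg_cancel, exp_zero]
    inv_val := by
      let _ : NormedAlgebra ℚ (Op N) := .restrictScalars ℚ ℝ _
      rw [← exp_add_of_commute (Commute.neg_left (Commute.refl X)), neg_add_cancel, exp_zero] }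

lemma mem_closure_iff {g : (Op N)ˣ} : g ∈ zariskiClosure (opRep ρ).range ↔
    ∀ p : MvPolynomial (Fin N × Fin N) ℝ, (∀ x : 𝒢, polyVal p (ρ x).1 = 0) →
      MP_d9b062_al.polyVal p (g : Op N) = 0 := by
  constructor
  · intro h p hp
    refine h p ?_
    rintro _ ⟨x, rfl⟩
    rw [coe_opRep, polyVal_Φ]
    exact hp x
  · intro h p hp
    refine h p fun x => ?_
    rw [← polyVal_Φ, ← coe_opRep]
    exact hp _ ⟨x, rfl⟩

lemma opRep_mem (x : 𝒢) : opRep ρ x ∈ zariskiClosure (opRep ρ).range :=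
  fun _ hp => hp _ ⟨x, rfl⟩

lemma mem_lieAlg_of_mem (hρ : SameZariskiClosure ρ 𝔤) {X : Matrix (Fin N) (Fin N) ℝ}
    (hX : X ∈ 𝔤) : Φ N X ∈ lieAlg (zariskiClosure (opRep ρ).range) := by
  intro t
  refine ⟨expU (t • Φ N X), mem_closure_iff.mpr fun p hp => ?_, rfl⟩
  have h1 := (hρ p).mp hp [t • X] (fun Y hY => by
    rw [List.mem_singleton.mp hY]
    exact 𝔤.smul_mem t hX)
  rw [List.map_singleton, List.prod_singleton, ← polyVal_Φ, Φ_exp, map_smul] at h1
  exact h1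

lemma mem_of_mem_lieAlg (hρ : SameZariskiClosure ρ 𝔤)
    (hmem : ∀ X, (∀ t : ℝ, InZcl 𝔤 (exp (t • X))) → X ∈ 𝔤) {X : Matrix (Fin N) (Fin N) ℝ}
    (hX : Φ N X ∈ lieAlg (zariskiClosure (opRep ρ).range)) : X ∈ 𝔤 := by
  apply hmem
  intro t p hp
  obtain ⟨g, hg, hge⟩ := hX t
  have h1 := mem_closure_iff.mp hg p ((hρ p).mpr hp)
  rw [hge, ← map_smul, ← Φ_exp, polyVal_Φ] at h1
  exact h1

lemma mem_lieAlg_iff (hρ : SameZariskiClosure ρ 𝔤)
    (hmem : ∀ X, (∀ t : ℝ, InZcl 𝔤 (exp (t • X))) → X ∈ 𝔤) {X : Matrix (Fin N) (Fin N) ℝ} :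
    Φ N X ∈ lieAlg (zariskiClosure (opRep ρ).range) ↔ X ∈ 𝔤 :=
  ⟨mem_of_mem_lieAlg hρ hmem, mem_lieAlg_of_mem hρ⟩

lemma Φ_lie (X Y : Matrix (Fin N) (Fin N) ℝ) : Φ N ⁅X, Y⁆ = ⁅Φ N X, Φ N Y⁆ := by
  rw [LieRing.of_associative_ring_bracket, LieRing.of_associative_ring_bracket, map_sub, map_mul,
    map_mul]

/-- `Φ` as an isomorphism of Lie algebras -/
noncomputable def ΦL (N : ℕ) : Matrix (Fin N) (Fin N) ℝ ≃ₗ⁅ℝ⁆ Op N :=
  { (Φ N).toLinearEquiv with
    map_lie' := fun {X Y} => Φ_lie X Y }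

theorem isSemisimpleIrr (hirr : IsIrreducible ρ) [LieAlgebra.IsSemisimple ℝ 𝔤]
    (hρ : SameZariskiClosure ρ 𝔤)
    (hmem : ∀ X, (∀ t : ℝ, InZcl 𝔤 (exp (t • X))) → X ∈ 𝔤) :
    IsSemisimpleIrr (zariskiClosure (opRep ρ).range) where
  closed := by
    intro g hg p hp
    exact hg p fun h hh => hh p hp
  connected := by
    intro p hp g hg
    refine mem_closure_iff.mp hg p ((hρ p).mpr fun l hl => ?_)
    have h1 := hp (l.map (Φ N)) (by
      intro Z hZ
      obtain ⟨X, hX, rfl⟩ := List.mem_map.mp hZ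
      exact mem_lieAlg_of_mem hρ (hl X hX))
    have h2 : ((l.map (Φ N)).map exp).prod = Φ N (l.map exp).prod := by
      rw [map_list_prod, List.map_map, List.map_map]
      congr 1
      apply List.map_congr_left
      intro X _
      exact (Φ_exp X).symm
    rw [h2, polyVal_Φ] at h1
    exact h1
  irreducible := by
    refine ⟨hirr.1, fun W hW => ?_⟩
    let e : V N ≃ₗ[ℝ] (Fin N → ℝ) := WithLp.linearEquiv 2 ℝ (Fin N → ℝ)
    have h1 := hirr.2 (W.map e.toLinearMap) (by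
      rintro g _ ⟨v, hv, rfl⟩
      exact ⟨Φ N (ρ g).1 v, hW _ (opRep_mem g) v hv, rfl⟩)
    rcases h1 with h1 | h1
    · left
      rw [Submodule.eq_bot_iff]
      intro v hv
      have h2 : e v ∈ W.map e.toLinearMap := ⟨v, hv, rfl⟩
      rw [h1, Submodule.mem_bot] at h2
      exact e.injective (by rw [h2, map_zero])
    · right
      have := congrArg (Submodule.comap e.toLinearMap) h1
      rwa [Submodule.comap_map_eq_of_injective e.injective, Submodule.comap_top] at this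
  semisimple := by
    refine ⟨𝔤.map (ΦL N).toLieHom, ?_, ?_⟩
    · ext Z
      obtain ⟨X, rfl⟩ := exists_Φ Z
      rw [mem_lieAlg_iff hρ hmem]
      constructor
      · rintro ⟨Y, hY, h⟩
        have : Y = X := (Φ N).injective h
        rwa [← this]
      · intro h
        exact ⟨X, h, rfl⟩
    · have hK : LieAlgebra.IsKilling ℝ 𝔤 := inferInstance
      have e := (ΦL N).lieSubalgebraMap 𝔤
      have : LieAlgebra.IsKilling ℝ (𝔤.map (ΦL N).toLieHom) := LieAlgebra.isKilling_of_equiv e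
      infer_instance

theorem isCartanSubspace_op (hρ : SameZariskiClosure ρ 𝔤)
    (hmem : ∀ X, (∀ t : ℝ, InZcl 𝔤 (exp (t • X))) → X ∈ 𝔤)
    {A : Submodule ℝ (Matrix (Fin N) (Fin N) ℝ)} (hA : IsCartanSubspace 𝔤 A) :
    MP_d9b062_al.IsCartanSubspace (zariskiClosure (opRep ρ).range) (opSub A) where
  mem_lieAlg := by
    rintro _ ⟨X, hX, rfl⟩
    exact mem_lieAlg_of_mem hρ (hA.mem X hX)
  hyperbolic := by
    rintro _ ⟨X, hX, rfl⟩
    exact isHyperbolic_Φ.mpr (hA.hyperbolic X hX)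
  commute := by
    rintro _ ⟨X, hX, rfl⟩ _ ⟨Y, hY, rfl⟩
    change Φ N X * Φ N Y = Φ N Y * Φ N X
    rw [← map_mul, hA.commute X hX Y hY, map_mul]
  maximal := by
    intro B hAB hB hBc
    have h1 := hA.maximal (B.comap (Φ N).toLinearMap) (fun X hX => hAB (Φ_mem_opSub.mpr hX))
      (fun X hX => ⟨mem_of_mem_lieAlg hρ hmem (hB _ hX).1, isHyperbolic_Φ.mp (hB _ hX).2⟩)
      (fun X hX Y hY => (Φ N).injective (by
        rw [map_mul, map_mul]
        exact hBc _ hX _ hY))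
    intro Z hZ
    obtain ⟨X, rfl⟩ := exists_Φ Z
    exact Φ_mem_opSub.mpr (h1 hZ)

theorem isRoot_op (hρ : SameZariskiClosure ρ 𝔤)
    (hmem : ∀ X, (∀ t : ℝ, InZcl 𝔤 (exp (t • X))) → X ∈ 𝔤)
    {A : Submodule ℝ (Matrix (Fin N) (Fin N) ℝ)} {α : opSub A →ₗ[ℝ] ℝ}
    (hα : MP_d9b062_al.IsRoot (zariskiClosure (opRep ρ).range) (opSub A) α) :
    IsRoot 𝔤 A (α ∘ₗ opE A) := by
  obtain ⟨hne, Z, hZ, hZ0, h⟩ := hα
  obtain ⟨Z, rfl⟩ := exists_Φ Z
  refine ⟨?_, Z, mem_of_mem_lieAlg hρ hmem hZ, ?_, ?_⟩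
  · intro h0
    apply hne
    ext X
    obtain ⟨Y, rfl⟩ := opE_surj A X
    exact LinearMap.congr_fun h0 Y
  · rintro rfl
    exact hZ0 (map_zero _)
  · intro X
    apply (Φ N).injective
    rw [map_sub, map_mul, map_mul, map_smul]
    exact h (opE A X)

theorem isLongest_op (hρ : SameZariskiClosure ρ 𝔤)
    (hmem : ∀ X, (∀ t : ℝ, InZcl 𝔤 (exp (t • X))) → X ∈ 𝔤)
    {A : Submodule ℝ (Matrix (Fin N) (Fin N) ℝ)} {H : A} {w : 𝒢}
    (hw : IsLongest 𝔤 A H (ρ w)) :
    MP_d9b062_al.IsLongest (zariskiClosure (opRep ρ).range) (opSub A) (opE A H) (opRep ρ w) := by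
  have hcj : ∀ X : Matrix (Fin N) (Fin N) ℝ,
      (((opRep ρ w)⁻¹ : (Op N)ˣ) : Op N) * Φ N X * ((opRep ρ w : (Op N)ˣ) : Op N) =
        Φ N ((ρ w)⁻¹.1 * X * (ρ w).1) := by
    intro X
    rw [map_mul, map_mul]
    rfl
  refine ⟨opRep_mem w, ?_, ?_⟩
  · rintro _ ⟨X, hX, rfl⟩
    have := Φ_mem_opSub.mpr (hw.1 X hX)
    rw [← hcj] at this
    exact this
  · intro α hα hpos
    refine lt_of_eq_of_lt ?_ (hw.2 _ (isRoot_op hρ hmem hα) hpos ⟨_, hw.1 H.1 H.2⟩ rfl)
    change α _ = α _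
    congr 1
    apply Subtype.ext
    exact hcj H.1

theorem isMilnor_of_op (h : IsMilnorRep (opRep ρ)) : IsMilnor ρ := by
  rintro ⟨κ, hκ, φ, u, hu, hinj, hdense, hprop⟩
  apply h
  have hu1 : u 1 = 0 := by
    have := hu 1 1
    rw [mul_one, map_one, map_one, Units.val_one, one_mulVec] at this
    simpa using this
  let ψ : FreeGroup κ →* AffRep (opRep ρ) :=
    { toFun := fun x => ⟨φ x, WithLp.toLp 2 (u x)⟩
      map_one' := by
        refine AffRep.ext (map_one φ) ?_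
        change WithLp.toLp 2 (u 1) = 0
        rw [hu1]; rfl
      map_mul' := fun x y => by
        refine AffRep.ext (map_mul φ x y) ?_
        change WithLp.toLp 2 (u (x * y)) = _
        rw [hu]
        rfl }
  have hψ : Function.Injective ψ := by
    intro x y hxy
    apply hinj
    have h1 := congrArg AffRep.lin hxy
    have h2 := congrArg (fun z : AffRep (opRep ρ) => WithLp.ofLp z.tr) hxy
    exact Prod.ext h1 h2
  refine ⟨ψ.range, ⟨κ, hκ, ⟨(MonoidHom.ofInjective hψ).symm⟩⟩, ?_, ?_⟩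
  · intro p hp g
    rw [coe_opRep, polyVal_Φ]
    refine hdense p (fun x => ?_) g
    have := hp (ψ x) ⟨x, rfl⟩
    rw [coe_opRep, polyVal_Φ] at this
    exact this
  · intro K hK
    have hK' : IsCompact ((fun v : V N => (WithLp.ofLp v : Fin N → ℝ)) '' K) :=
      hK.image (PiLp.continuous_ofLp 2 _)
    refine ((hprop _ hK').image ψ).subset ?_
    rintro _ ⟨⟨x, rfl⟩, z, ⟨v, hv, hvz⟩, hz⟩
    refine ⟨x, ⟨WithLp.ofLp v, ⟨v, hv, rfl⟩, z, hz, ?_⟩, rfl⟩
    rw [← hvz]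
    rfl

/-- The final theorem, from the algebraicity of `𝔤`. -/
theorem isMilnor_of_mem (hirr : IsIrreducible ρ) [LieAlgebra.IsSemisimple ℝ 𝔤]
    (hρ : SameZariskiClosure ρ 𝔤)
    (hmem : ∀ X, (∀ t : ℝ, InZcl 𝔤 (exp (t • X))) → X ∈ 𝔤)
    {A : Submodule ℝ (Matrix (Fin N) (Fin N) ℝ)} (hA : IsCartanSubspace 𝔤 A)
    {H : A} (hH : IsRegular 𝔤 A H) {w : 𝒢} (hw : IsLongest 𝔤 A H (ρ w))
    (hS : ¬ CondS ρ A w) : IsMilnor ρ := by
  apply isMilnor_of_op
  refine isMilnorRep_of_isMilnor (opRep ρ) (opSub A) w ?_ fun h =>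
    isMilnor_main (isSemisimpleIrr hirr hρ hmem) (isCartanSubspace_op hρ hmem hA)
      (H := opE A H) (fun α hα => hH _ (isRoot_op hρ hmem hα)) (isLongest_op hρ hmem hw) h
  rintro ⟨v, hv, hwv⟩
  apply hS
  refine ⟨WithLp.ofLp v, fun l hl => ?_, fun h => hwv ?_⟩
  · have h1 := hv l (by
      rintro _ ⟨X, hX, rfl⟩
      rw [coe_opRep]
      change Φ N (ρ l).1 * Φ N X = Φ N X * Φ N (ρ l).1
      rw [← map_mul, hl X hX, map_mul])
    exact congrArg WithLp.ofLp h1
  · exact congrArg (WithLp.toLp 2) h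

/-- Schur's lemma for `𝔤` -/
theorem schur (hirr : IsIrreducible ρ) (hρ : SameZariskiClosure ρ 𝔤)
    (T : Matrix (Fin N) (Fin N) ℝ) (hT : ∀ X ∈ 𝔤, T * X = X * T) : T = 0 ∨ IsUnit T := by
  have h1 : ∀ l : List (Matrix (Fin N) (Fin N) ℝ), (∀ X ∈ l, X ∈ 𝔤) →
      T * (l.map exp).prod = (l.map exp).prod * T := by
    intro l
    induction l with
    | nil => intro _; simp
    | cons X l ih =>
      intro hl
      have h2 : Commute T (exp X) :=
        Commute.exp_right (hT X (hl X List.mem_cons_self))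
      have h3 := ih fun Y hY => hl Y (List.mem_cons_of_mem _ hY)
      rw [List.map_cons, List.prod_cons, ← mul_assoc, h2.eq, mul_assoc, h3, mul_assoc]
  have h2 : ∀ g : 𝒢, T * (ρ g).1 = (ρ g).1 * T := by
    intro g
    ext i j
    rw [Matrix.mul_apply, Matrix.mul_apply, ← sub_eq_zero]
    let p : MvPolynomial (Fin N × Fin N) ℝ :=
      ∑ k, MvPolynomial.C (T i k) * MvPolynomial.X (k, j) -
        ∑ k, MvPolynomial.X (i, k) * MvPolynomial.C (T k j)
    have hp : ∀ M : Matrix (Fin N) (Fin N) ℝ,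
        polyVal p M = ∑ k, T i k * M k j - ∑ k, M i k * T k j := by
      intro M
      simp [p, polyVal]
    have h3 : polyVal p (ρ g).1 = 0 := by
      refine (hρ p).mpr (fun l hl => ?_) g
      rw [hp, ← Matrix.mul_apply, ← Matrix.mul_apply, h1 l hl, sub_self]
    rw [← hp]
    exact h3
  rcases hirr.2 (LinearMap.ker T.mulVecLin) (by
    intro g v hv
    rw [LinearMap.mem_ker, Matrix.mulVecLin_apply] at hv ⊢
    rw [Matrix.mulVec_mulVec, h2, ← Matrix.mulVec_mulVec, hv, Matrix.mulVec_zero]) with h | h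
  · right
    rw [← Matrix.mulVec_injective_iff_isUnit]
    rw [LinearMap.ker_eq_bot] at h
    exact h
  · left
    rw [LinearMap.ker_eq_top] at h
    ext i j
    have := congrFun (LinearMap.congr_fun h (Pi.single j 1)) i
    simpa using this

end

end Pool.Agent.Lib.MP_d9b062_al.Stmt

end
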