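import Mathlib

/-!
MP_d9b062_al: merged modules (to shorten the build).
-/

set_option autoImplicit false

/-! ## from `MP_d9b062_al.Stmt` -/

section
/-!
# Milnor representations of semisimple groups: definitions

A representation of a group `𝒢` on `ℝ^N` is a homomorphism `ρ : 𝒢 →* GL (Fin N) ℝ`.  The semisimple
Lie algebra `𝔤` acting on `ℝ^N` is a Lie subalgebra of the matrix algebra.
-/

namespace Pool.Agent.Lib.MP_d9b062_al.Stmt

open NormedSpace Matrix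

attribute [local instance 100] LieRing.ofAssociativeRing

/-- The value of a polynomial in `N × N` variables at the entries of a matrix. -/
noncomputable def polyVal {N : ℕ} (p : MvPolynomial (Fin N × Fin N) ℝ)
    (T : Matrix (Fin N) (Fin N) ℝ) : ℝ :=
  MvPolynomial.eval (fun ij => T ij.1 ij.2) p

/-- `ρ(𝒢)` has the same Zariski closure as the connected Lie group with Lie algebra `𝔤`, whose
elements are the products `exp X₁ ⋯ exp Xₙ` with all `Xᵢ` in `𝔤`.  (When `𝒢` is a connected Lie group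
and `𝔤` the image of its Lie algebra under the differential of `ρ`, `ρ(𝒢)` is that group.) -/
def SameZariskiClosure {𝒢 : Type*} [Group 𝒢] {N : ℕ} (ρ : 𝒢 →* GL (Fin N) ℝ)
    (𝔤 : LieSubalgebra ℝ (Matrix (Fin N) (Fin N) ℝ)) : Prop :=
  ∀ p : MvPolynomial (Fin N × Fin N) ℝ, (∀ g : 𝒢, polyVal p (ρ g).1 = 0) ↔
    ∀ l : List (Matrix (Fin N) (Fin N) ℝ), (∀ X ∈ l, X ∈ 𝔤) → polyVal p (l.map exp).prod = 0

/-- `ρ` is irreducible: `ℝ^N` is not zero and its only invariant subspaces are `0` and `ℝ^N`. -/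
def IsIrreducible {𝒢 : Type*} [Group 𝒢] {N : ℕ} (ρ : 𝒢 →* GL (Fin N) ℝ) : Prop :=
  0 < N ∧ ∀ W : Submodule ℝ (Fin N → ℝ), (∀ g : 𝒢, ∀ v ∈ W, (ρ g).1 *ᵥ v ∈ W) → W = ⊥ ∨ W = ⊤

/-- `X` is hyperbolic: diagonalizable over `ℝ`. -/
def IsHyperbolic {N : ℕ} (X : Matrix (Fin N) (Fin N) ℝ) : Prop :=
  ∃ (P : GL (Fin N) ℝ) (d : Fin N → ℝ), X = P.1 * diagonal d * P⁻¹.1

/-- `A` is a Cartan subspace of `𝔤`: a maximal commuting subspace made of hyperbolic elements. -/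
structure IsCartanSubspace {N : ℕ} (𝔤 : LieSubalgebra ℝ (Matrix (Fin N) (Fin N) ℝ))
    (A : Submodule ℝ (Matrix (Fin N) (Fin N) ℝ)) : Prop where
  mem : ∀ X ∈ A, X ∈ 𝔤
  hyperbolic : ∀ X ∈ A, IsHyperbolic X
  commute : ∀ X ∈ A, ∀ Y ∈ A, X * Y = Y * X
  maximal : ∀ B : Submodule ℝ (Matrix (Fin N) (Fin N) ℝ), A ≤ B →
    (∀ X ∈ B, X ∈ 𝔤 ∧ IsHyperbolic X) → (∀ X ∈ B, ∀ Y ∈ B, X * Y = Y * X) → B ≤ A

/-- `α` is a restricted root: `α ≠ 0` and some nonzero `Z ∈ 𝔤` satisfies `[X, Z] = α(X) Z` for all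
`X ∈ A`. -/
def IsRoot {N : ℕ} (𝔤 : LieSubalgebra ℝ (Matrix (Fin N) (Fin N) ℝ))
    (A : Submodule ℝ (Matrix (Fin N) (Fin N) ℝ)) (α : A →ₗ[ℝ] ℝ) : Prop :=
  α ≠ 0 ∧ ∃ Z ∈ 𝔤, Z ≠ 0 ∧ ∀ X : A, X.1 * Z - Z * X.1 = α X • Z

/-- `H ∈ A` is regular: no restricted root vanishes at `H`.  The positive restricted roots are then
those which are positive at `H`; every positive system is of this form. -/
def IsRegular {N : ℕ} (𝔤 : LieSubalgebra ℝ (Matrix (Fin N) (Fin N) ℝ))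
    (A : Submodule ℝ (Matrix (Fin N) (Fin N) ℝ)) (H : A) : Prop :=
  ∀ α : A →ₗ[ℝ] ℝ, IsRoot 𝔤 A α → α H ≠ 0

/-- `w` represents the longest element `w₀` of the restricted Weyl group: it normalizes `A`, and
every positive restricted root `α` is mapped by it to a negative one,
`(w₀ α)(H) = α (w⁻¹ H w) < 0`. -/
def IsLongest {N : ℕ} (𝔤 : LieSubalgebra ℝ (Matrix (Fin N) (Fin N) ℝ))
    (A : Submodule ℝ (Matrix (Fin N) (Fin N) ℝ)) (H : A) (w : GL (Fin N) ℝ) : Prop :=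
  (∀ X ∈ A, w⁻¹.1 * X * w.1 ∈ A) ∧
    ∀ α : A →ₗ[ℝ] ℝ, IsRoot 𝔤 A α → 0 < α H → ∀ Y : A, Y.1 = w⁻¹.1 * H.1 * w.1 → α Y < 0

/-- Condition (S) for the representative `w ∈ 𝒢` of `w₀`: some vector `v` which is fixed by the
centralizer `L` of `A` is not fixed by `w`. -/
def CondS {𝒢 : Type*} [Group 𝒢] {N : ℕ} (ρ : 𝒢 →* GL (Fin N) ℝ)
    (A : Submodule ℝ (Matrix (Fin N) (Fin N) ℝ)) (w : 𝒢) : Prop :=
  ∃ v : Fin N → ℝ, (∀ l : 𝒢, (∀ X ∈ A, (ρ l).1 * X = X * (ρ l).1) → (ρ l).1 *ᵥ v = v) ∧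
    (ρ w).1 *ᵥ v ≠ v

/-- `ρ` is Milnor: no subgroup `Γ` of `𝒢 ⋉ ℝ^N` is isomorphic to a nonabelian free group, has a
Zariski dense linear part, and acts properly discontinuously on `ℝ^N`.  Here `Γ` is given as the
image of an injective homomorphism `x ↦ (φ x, u x)` from a free group `F` on at least two
generators to `𝒢 ⋉ ℝ^N`; `x ∈ F` acts on `ℝ^N` by `v ↦ ρ (φ x) v + u x`. -/
def IsMilnor {𝒢 : Type*} [Group 𝒢] {N : ℕ} (ρ : 𝒢 →* GL (Fin N) ℝ) : Prop :=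
  ¬ ∃ (κ : Type) (_ : Nontrivial κ) (φ : FreeGroup κ →* 𝒢) (u : FreeGroup κ → Fin N → ℝ),
    (∀ x y, u (x * y) = u x + (ρ (φ x)).1 *ᵥ u y) ∧
    Function.Injective (fun x => (φ x, u x)) ∧
    (∀ p : MvPolynomial (Fin N × Fin N) ℝ,
      (∀ x, polyVal p (ρ (φ x)).1 = 0) → ∀ g : 𝒢, polyVal p (ρ g).1 = 0) ∧
    ∀ K : Set (Fin N → ℝ), IsCompact K → {x | ∃ v ∈ K, (ρ (φ x)).1 *ᵥ v + u x ∈ K}.Finite

end Pool.Agent.Lib.MP_d9b062_al.Stmt

end

/-! ## from `MP_d9b062_al.AlgDefs` -/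

section
/-!
# Algebraicity of semisimple Lie algebras: interface
-/

namespace Pool.Agent.Lib.MP_d9b062_al.Stmt

open NormedSpace Matrix

attribute [local instance 100] LieRing.ofAssociativeRing

/-- `T` is in the Zariski closure (in the space of matrices) of the group generated by `exp 𝔤` -/
def InZcl {N : ℕ} (𝔤 : LieSubalgebra ℝ (Matrix (Fin N) (Fin N) ℝ))
    (T : Matrix (Fin N) (Fin N) ℝ) : Prop :=
  ∀ p : MvPolynomial (Fin N × Fin N) ℝ,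
    (∀ l : List (Matrix (Fin N) (Fin N) ℝ), (∀ X ∈ l, X ∈ 𝔤) → polyVal p (l.map exp).prod = 0) →
    polyVal p T = 0

end Pool.Agent.Lib.MP_d9b062_al.Stmt

end
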