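import Mathlib
import Pool.Agent.Lib.MP_d9b062_al_m.MStmt

/-!
MP_d9b062_al: merged modules (to shorten the build).
-/

set_option autoImplicit false

/-! ## from `MP_d9b062_al.Mem` -/

section
namespace Pool.Agent.Lib.MP_d9b062_al.Stmt

open NormedSpace Matrix

attribute [local instance 100] LieRing.ofAssociativeRing

variable {N : ℕ} {𝔤 : LieSubalgebra ℝ (Matrix (Fin N) (Fin N) ℝ)}

theorem mem_of_inZcl [LieAlgebra.IsSemisimple ℝ 𝔤]
    (hmul : ∀ S T : Matrix (Fin N) (Fin N) ℝ, InZcl 𝔤 S → InZcl 𝔤 T → InZcl 𝔤 (S * T))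
    (hbr : ∀ X : Matrix (Fin N) (Fin N) ℝ, (∀ t : ℝ, InZcl 𝔤 (exp (t • X))) →
      ∀ Y ∈ 𝔤, X * Y - Y * X ∈ 𝔤)
    (hcen : ∀ z : Matrix (Fin N) (Fin N) ℝ, (∀ t : ℝ, InZcl 𝔤 (exp (t • z))) →
      (∀ X ∈ 𝔤, z * X = X * z) → z = 0)
    {X : Matrix (Fin N) (Fin N) ℝ} (hX : ∀ t : ℝ, InZcl 𝔤 (exp (t • X))) : X ∈ 𝔤 := by
  have hK : LieAlgebra.IsKilling ℝ 𝔤 := inferInstance
  let D : LieDerivation ℝ 𝔤 𝔤 :=
    { toFun := fun Y => ⟨X * Y.1 - Y.1 * X, hbr X hX Y.1 Y.2⟩
      map_add' := fun Y Z => Subtype.ext (by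
        change X * (Y.1 + Z.1) - (Y.1 + Z.1) * X = (X * Y.1 - Y.1 * X) + (X * Z.1 - Z.1 * X)
        rw [mul_add, add_mul]; abel)
      map_smul' := fun a Y => Subtype.ext (by
        change X * (a • Y.1) - (a • Y.1) * X = a • (X * Y.1 - Y.1 * X)
        rw [mul_smul_comm, smul_mul_assoc, smul_sub])
      leibniz' := fun Y Z => Subtype.ext (by
        change X * (Y.1 * Z.1 - Z.1 * Y.1) - (Y.1 * Z.1 - Z.1 * Y.1) * X =
          (Y.1 * (X * Z.1 - Z.1 * X) - (X * Z.1 - Z.1 * X) * Y.1) -
            (Z.1 * (X * Y.1 - Y.1 * X) - (X * Y.1 - Y.1 * X) * Z.1)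
        noncomm_ring) }
  obtain ⟨Y₀, hY₀⟩ := LieDerivation.IsKilling.exists_eq_ad D
  have h1 : ∀ Y ∈ 𝔤, X * Y - Y * X = Y₀.1 * Y - Y * Y₀.1 := by
    intro Y hY
    have h2 := congrArg (fun E : LieDerivation ℝ 𝔤 𝔤 => (E ⟨Y, hY⟩).1) hY₀
    simp only [LieDerivation.ad_apply_apply] at h2
    exact h2.symm
  have hc : ∀ Y ∈ 𝔤, (X - Y₀.1) * Y = Y * (X - Y₀.1) := by
    intro Y hY
    have := h1 Y hY
    rw [sub_mul, mul_sub, sub_eq_sub_iff_sub_eq_sub]
    exact this
  have hc0 : Commute X (-Y₀.1) := by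
    have := hc Y₀.1 Y₀.2
    rw [sub_mul, mul_sub, sub_left_inj] at this
    exact Commute.neg_right this
  have h3 : X - Y₀.1 = 0 := by
    refine hcen _ (fun t => ?_) hc
    have h4 : t • (X - Y₀.1) = t • X + t • (-Y₀.1) := by
      rw [← smul_add, sub_eq_add_neg]
    rw [h4, Matrix.exp_add_of_commute _ _ ((hc0.smul_left t).smul_right t)]
    refine hmul _ _ (hX t) fun p hp => ?_
    have := hp [t • (-Y₀.1)] (fun Y hY => by
      rw [List.mem_singleton.mp hY]
      exact 𝔤.smul_mem t (𝔤.neg_mem_iff.mpr Y₀.2))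
    rwa [List.map_singleton, List.prod_singleton] at this
  rw [sub_eq_zero] at h3
  rw [h3]
  exact Y₀.2

end Pool.Agent.Lib.MP_d9b062_al.Stmt

end

/-! ## from `MP_d9b062_al.Central` -/

section
/-!
# The centralizer of `𝔤` in its algebraic hull
-/

namespace Pool.Agent.Lib.MP_d9b062_al.Stmt

open NormedSpace Matrix

attribute [local instance 100] LieRing.ofAssociativeRing

variable {N : ℕ} {𝔤 : LieSubalgebra ℝ (Matrix (Fin N) (Fin N) ℝ)}

/-- complexification of matrices -/
noncomputable def cpx (N : ℕ) : Matrix (Fin N) (Fin N) ℝ →+* Matrix (Fin N) (Fin N) ℂ :=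
  Complex.ofRealHom.mapMatrix

lemma cpx_apply (T : Matrix (Fin N) (Fin N) ℝ) : cpx N T = T.map Complex.ofReal := rfl

lemma cpx_smul (a : ℝ) (T : Matrix (Fin N) (Fin N) ℝ) : cpx N (a • T) = (a : ℂ) • cpx N T := by
  ext i j
  simp [cpx_apply]

lemma cpx_continuous : Continuous (cpx N) :=
  Continuous.matrix_map continuous_id Complex.continuous_ofReal

lemma cpx_exp (T : Matrix (Fin N) (Fin N) ℝ) : cpx N (exp T) = exp (cpx N T) := by
  let _ : NormedRing (Matrix (Fin N) (Fin N) ℝ) := Matrix.linftyOpNormedRing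
  let _ : NormedAlgebra ℝ (Matrix (Fin N) (Fin N) ℝ) := Matrix.linftyOpNormedAlgebra
  let _ : NormedAlgebra ℚ (Matrix (Fin N) (Fin N) ℝ) := .restrictScalars ℚ ℝ _
  let _ : NormedRing (Matrix (Fin N) (Fin N) ℂ) := Matrix.linftyOpNormedRing
  let _ : NormedAlgebra ℂ (Matrix (Fin N) (Fin N) ℂ) := Matrix.linftyOpNormedAlgebra
  let _ : NormedAlgebra ℚ (Matrix (Fin N) (Fin N) ℂ) := .restrictScalars ℚ ℂ _
  exact map_exp (cpx N) cpx_continuous T

lemma exp_mul_of_eigen {Y P : Matrix (Fin N) (Fin N) ℂ} {μ : ℂ} (h : Y * P = μ • P) :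
    exp Y * P = Complex.exp μ • P := by
  let _ : NormedRing (Matrix (Fin N) (Fin N) ℂ) := Matrix.linftyOpNormedRing
  let _ : NormedAlgebra ℂ (Matrix (Fin N) (Fin N) ℂ) := Matrix.linftyOpNormedAlgebra
  let _ : NormedAlgebra ℚ (Matrix (Fin N) (Fin N) ℂ) := .restrictScalars ℚ ℂ _
  have hp : ∀ n : ℕ, Y ^ n * P = μ ^ n • P := by
    intro n
    induction n with
    | zero => simp
    | succ n ih => rw [pow_succ, mul_assoc, h, mul_smul_comm, ih, smul_smul, pow_succ, mul_comm]
  have h1 : HasSum (fun n : ℕ => ((n.factorial : ℚ)⁻¹ • Y ^ n) * P) (exp Y * P) :=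
    (NormedSpace.exp_series_hasSum_exp' (𝕂 := ℚ) Y).mul_right P
  have h2 : HasSum (fun n : ℕ => ((n.factorial : ℂ)⁻¹ • μ ^ n) • P) (Complex.exp μ • P) := by
    rw [Complex.exp_eq_exp_ℂ]
    exact (NormedSpace.exp_series_hasSum_exp' (𝕂 := ℂ) μ).smul_const P
  have h3 : (fun n : ℕ => ((n.factorial : ℚ)⁻¹ • Y ^ n) * P) =
      fun n : ℕ => ((n.factorial : ℂ)⁻¹ • μ ^ n) • P := by
    funext n
    rw [smul_mul_assoc, hp, smul_eq_mul, mul_smul, ← Rat.cast_smul_eq_qsmul ℂ]
    push_cast
    rfl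
  rw [h3] at h1
  exact h1.unique h2

lemma infinite_exp {μ : ℂ} (hμ : μ ≠ 0) :
    (Set.range fun t : ℝ => Complex.exp ((t : ℂ) * μ)).Infinite := by
  have hinj : Set.InjOn (fun t : ℝ => Complex.exp ((t : ℂ) * μ)) (Set.Ioo 0 (1 / ‖μ‖)) := by
    intro s hs t ht hst
    obtain ⟨n, hn⟩ := Complex.exp_eq_exp_iff_exists_int.mp hst
    have h1 : ((s - t : ℝ) : ℂ) * μ = n * (2 * Real.pi * Complex.I) := by
      push_cast
      linear_combination hn
    have h2 := congrArg norm h1
    rw [norm_mul, norm_mul, Complex.norm_real, Complex.norm_intCast] at h2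
    have h3 : ‖(2 * Real.pi * Complex.I : ℂ)‖ = 2 * Real.pi := by
      simp [abs_of_pos Real.pi_pos]
    rw [h3] at h2
    have hμ' : 0 < ‖μ‖ := norm_pos_iff.mpr hμ
    have h4 : ‖s - t‖ * ‖μ‖ < 1 := by
      have : ‖s - t‖ < 1 / ‖μ‖ := by
        rw [Real.norm_eq_abs, abs_lt]
        constructor <;> linarith [hs.1, hs.2, ht.1, ht.2]
      rwa [lt_div_iff₀ hμ'] at this
    have h5 : n = 0 := by
      by_contra hne
      have h6 : (1 : ℝ) ≤ |(n : ℝ)| := by exact_mod_cast Int.one_le_abs hne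
      have h7 := Real.pi_gt_three
      nlinarith
    rw [h5] at h1
    simp only [Int.cast_zero, zero_mul, mul_eq_zero, hμ, or_false] at h1
    have h8 : s - t = 0 := by exact_mod_cast h1
    linarith
  have hinf : (Set.Ioo (0 : ℝ) (1 / ‖μ‖)).Infinite :=
    Set.Ioo_infinite (one_div_pos.mpr (norm_pos_iff.mpr hμ))
  exact (hinf.image hinj).mono (Set.image_subset_range _ _)

lemma block_contra {P : Matrix (Fin N) (Fin N) ℂ} (hP : P * P = P) (hP0 : P ≠ 0) {μ : ℂ}
    (hμ : μ ≠ 0) (h : ∀ t : ℝ, (Complex.exp ((t : ℂ) * μ) • P + (1 - P)).det = 1) : False := by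
  let q : Polynomial ℂ := Matrix.det ((Polynomial.X : Polynomial ℂ) • P.map Polynomial.C +
    (1 - P).map Polynomial.C)
  have hq : ∀ c : ℂ, q.eval c = (c • P + (1 - P)).det := by
    intro c
    have h1 := RingHom.map_det (Polynomial.evalRingHom c)
      ((Polynomial.X : Polynomial ℂ) • P.map Polynomial.C + (1 - P).map Polynomial.C)
    rw [Polynomial.coe_evalRingHom] at h1
    change Polynomial.eval c (Matrix.det _) = _
    rw [h1]
    congr 1
    ext i j
    simp only [RingHom.mapMatrix_apply, Matrix.map_apply, Matrix.add_apply, Matrix.smul_apply,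
      smul_eq_mul, Polynomial.coe_evalRingHom, Polynomial.eval_add, Polynomial.eval_mul,
      Polynomial.eval_X, Polynomial.eval_C]
  have hq1 : q = Polynomial.C 1 := by
    refine Polynomial.eq_of_infinite_eval_eq q _ ((infinite_exp hμ).mono ?_)
    rintro _ ⟨t, rfl⟩
    change q.eval _ = Polynomial.eval _ _
    rw [hq, Polynomial.eval_C]
    exact h t
  have h0 := hq 0
  rw [hq1, Polynomial.eval_C, zero_smul, zero_add] at h0
  apply hP0
  have hu : IsUnit (1 - P) := by
    rw [Matrix.isUnit_iff_isUnit_det, ← h0]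
    exact isUnit_one
  have h1 : (1 - P) * P = (1 - P) * 0 := by
    rw [sub_mul, one_mul, hP, sub_self, mul_zero]
  exact hu.mul_left_cancel h1

theorem central_eq_zero (hN : 0 < N)
    (hdet : ∀ P : Matrix (Fin N) (Fin N) ℂ, P * P = P →
      (∀ X ∈ 𝔤, X.map Complex.ofReal * P = P * X.map Complex.ofReal) →
      ∀ T : Matrix (Fin N) (Fin N) ℝ, InZcl 𝔤 T → (T.map Complex.ofReal * P + (1 - P)).det = 1)
    (hschur : ∀ T : Matrix (Fin N) (Fin N) ℝ, (∀ X ∈ 𝔤, T * X = X * T) → T = 0 ∨ IsUnit T)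
    {z : Matrix (Fin N) (Fin N) ℝ} (hz : ∀ t : ℝ, InZcl 𝔤 (exp (t • z)))
    (hc : ∀ X ∈ 𝔤, z * X = X * z) : z = 0 := by
  by_contra hz0
  have : Nonempty (Fin N) := ⟨⟨0, hN⟩⟩
  obtain ⟨μ, hμ⟩ := IsAlgClosed.exists_root (cpx N z).charpoly (by
    rw [Matrix.charpoly_degree_eq_dim]
    simp [hN.ne'])
  rw [Polynomial.IsRoot.def, Matrix.eval_charpoly] at hμ
  obtain ⟨a, b, rfl⟩ : ∃ a b : ℝ, μ = ⟨a, b⟩ := ⟨μ.re, μ.im, rfl⟩
  have hab : (⟨a, b⟩ : ℂ) = (a : ℂ) + (b : ℂ) * Complex.I := by
    apply Complex.ext <;> simp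
  rw [hab] at hμ
  -- the real quadratic polynomial in `z`
  have hT : (z - a • 1) * (z - a • 1) + (b * b) • 1 = 0 := by
    refine (hschur _ fun X hX => ?_).resolve_right fun hu => ?_
    · have h1 := hc X hX
      simp only [sub_mul, mul_sub, add_mul, mul_add, smul_mul_assoc, mul_smul_comm, one_mul,
        mul_one]
      rw [mul_assoc z z X, h1, ← mul_assoc, h1, mul_assoc]
    · have h1 : cpx N ((z - a • 1) * (z - a • 1) + (b * b) • 1) =
          (Matrix.scalar (Fin N) ((a : ℂ) + (b : ℂ) * Complex.I) - cpx N z) *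
            (Matrix.scalar (Fin N) ((a : ℂ) - (b : ℂ) * Complex.I) - cpx N z) := by
        rw [map_add, map_mul, map_sub, cpx_smul, cpx_smul, map_one]
        have e1 : ∀ c : ℂ, Matrix.scalar (Fin N) c = c • (1 : Matrix (Fin N) (Fin N) ℂ) := by
          intro c
          ext i j
          simp [Matrix.one_apply, Matrix.diagonal_apply]
        rw [e1, e1]
        simp only [sub_mul, mul_sub, smul_mul_assoc, mul_smul_comm, one_mul, mul_one]
        have e2 : ((b * b : ℝ) : ℂ) = -((b : ℂ) * Complex.I) * ((b : ℂ) * Complex.I) := by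
          push_cast
          linear_combination ((b : ℂ) * b) * Complex.I_mul_I
        rw [e2]
        module
      have h2 : IsUnit (cpx N ((z - a • 1) * (z - a • 1) + (b * b) • 1)) := hu.map (cpx N)
      rw [Matrix.isUnit_iff_isUnit_det, h1, Matrix.det_mul, hμ, zero_mul] at h2
      exact not_isUnit_zero h2
  by_cases hb : b = 0
  · -- `z` is a scalar
    subst hb
    have h1 : z - a • 1 = 0 := by
      refine (hschur _ fun X hX => ?_).resolve_right fun hu => ?_
      · rw [sub_mul, mul_sub, hc X hX, smul_mul_assoc, mul_smul_comm, one_mul, mul_one]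
      · have h2 := hu.mul hu
        rw [mul_zero, zero_smul, add_zero] at hT
        rw [hT] at h2
        exact not_isUnit_zero h2
    have hza : z = a • 1 := sub_eq_zero.mp h1
    have ha : a ≠ 0 := by
      rintro rfl
      apply hz0
      rw [hza, zero_smul]
    refine block_contra (P := (1 : Matrix (Fin N) (Fin N) ℂ)) (one_mul 1) one_ne_zero
      (μ := (a : ℂ)) (by exact_mod_cast ha) fun t => ?_
    have h3 := hdet 1 (one_mul 1) (fun X _ => by rw [mul_one, one_mul]) _ (hz t)
    rw [← cpx_apply] at h3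
    rw [cpx_exp, exp_mul_of_eigen (μ := (t : ℂ) * a)] at h3
    · exact h3
    · rw [mul_one, cpx_smul, hza, cpx_smul, map_one, smul_smul]
  · -- a complex structure commuting with `𝔤`
    set J : Matrix (Fin N) (Fin N) ℝ := b⁻¹ • (z - a • 1) with hJ
    have hzJ : z = a • 1 + b • J := by
      rw [hJ, smul_smul, mul_inv_cancel₀ hb, one_smul]
      abel
    have hJJ : J * J = -1 := by
      have h1 : (z - a • 1) * (z - a • 1) = -((b * b) • (1 : Matrix (Fin N) (Fin N) ℝ)) :=
        eq_neg_of_add_eq_zero_left hT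
      rw [hJ, smul_mul_assoc, mul_smul_comm, h1, smul_smul, smul_neg, smul_smul]
      have : b⁻¹ * b⁻¹ * (b * b) = 1 := by field_simp
      rw [this, one_smul]
    have hJc : cpx N J * cpx N J = -1 := by
      rw [← map_mul, hJJ, map_neg, map_one]
    set P : Matrix (Fin N) (Fin N) ℂ := (1 / 2 : ℂ) • (1 - Complex.I • cpx N J) with hPdef
    have hP : P * P = P := by
      rw [hPdef]
      simp only [smul_mul_assoc, mul_smul_comm, sub_mul, mul_sub, one_mul, mul_one, hJc, smul_neg,
        smul_smul, smul_sub]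
      have e : (1 / 2 * Complex.I * (1 / 2 * Complex.I) : ℂ) = -(1 / 4) := by
        linear_combination (1 / 4 : ℂ) * Complex.I_mul_I
      rw [e]
      module
    have hJP : cpx N J * P = Complex.I • P := by
      rw [hPdef]
      simp only [mul_smul_comm, mul_sub, mul_one, hJc, smul_neg, smul_smul, smul_sub]
      have e : Complex.I * (1 / 2 * Complex.I) = -(1 / 2) := by
        linear_combination (1 / 2 : ℂ) * Complex.I_mul_I
      rw [e]
      module
    have hP0 : P ≠ 0 := by
      intro h0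
      have h1 : (1 : Matrix (Fin N) (Fin N) ℂ) - Complex.I • cpx N J = 0 := by
        have := congrArg (fun M => (2 : ℂ) • M) h0
        rw [hPdef] at this
        simpa [smul_smul] using this
      have h2 := congrFun (congrFun h1 ⟨0, hN⟩) ⟨0, hN⟩
      have h3 : (1 : ℂ) - Complex.I * (J ⟨0, hN⟩ ⟨0, hN⟩ : ℂ) = 0 := by
        simpa [cpx_apply] using h2
      have h4 := congrArg Complex.re h3
      simp at h4
    have hμ0 : (a : ℂ) + (b : ℂ) * Complex.I ≠ 0 := by
      intro h0
      have := congrArg Complex.im h0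
      simp at this
      exact hb this
    have hzP : cpx N z * P = ((a : ℂ) + (b : ℂ) * Complex.I) • P := by
      rw [hzJ, map_add, cpx_smul, cpx_smul, map_one, add_mul, smul_mul_assoc, smul_mul_assoc,
        one_mul, hJP, add_smul, mul_smul]
    have hJX : ∀ X ∈ 𝔤, J * X = X * J := by
      intro X hX
      rw [hJ, smul_mul_assoc, mul_smul_comm, sub_mul, mul_sub, hc X hX, smul_mul_assoc,
        mul_smul_comm, one_mul, mul_one]
    refine block_contra hP hP0 hμ0 fun t => ?_
    have h3 := hdet P hP (fun X hX => by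
      rw [← cpx_apply, hPdef, mul_smul_comm, smul_mul_assoc, mul_sub, sub_mul, mul_smul_comm,
        smul_mul_assoc, mul_one, one_mul, ← map_mul, ← map_mul, hJX X hX]) _ (hz t)
    rw [← cpx_apply, cpx_exp, exp_mul_of_eigen
      (μ := (t : ℂ) * ((a : ℂ) + (b : ℂ) * Complex.I))] at h3
    · exact h3
    · rw [cpx_smul, smul_mul_assoc, hzP, smul_smul]

end Pool.Agent.Lib.MP_d9b062_al.Stmt

end

/-! ## from `MP_d9b062_al_helper19.DetOne` -/

section
/-!
# The block determinant is `1` on the Zariski closure of the group generated by `exp 𝔤`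
-/

namespace Pool.Agent.Lib.MP_d9b062_al.Stmt

open NormedSpace Matrix

attribute [local instance 100] LieRing.ofAssociativeRing

namespace H19

lemma lie_top_eq_top {L : Type*} [LieRing L] [LieAlgebra ℝ L] [LieAlgebra.IsSemisimple ℝ L] :
    ⁅(⊤ : LieIdeal ℝ L), (⊤ : LieIdeal ℝ L)⁆ = ⊤ := by
  rw [eq_top_iff, ← LieAlgebra.IsSemisimple.sSup_atoms_eq_top (R := ℝ) (L := L)]
  refine sSup_le fun I hI => ?_
  have h1 : ⁅I, I⁆ ≤ I := LieSubmodule.lie_le_right I I
  have h2 : ⁅I, I⁆ ≠ ⊥ := fun h => LieAlgebra.IsSemisimple.non_abelian_of_isAtom I hI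
    ((LieSubmodule.lie_abelian_iff_lie_self_eq_bot I).2 h)
  have h3 : ⁅I, I⁆ = I := ((IsAtom.le_iff hI).1 h1).resolve_left h2
  conv_lhs => rw [← h3]
  exact LieSubmodule.mono_lie (le_sSup hI) (le_sSup hI)

/-- A linear map which vanishes on all brackets vanishes on a semisimple Lie algebra. -/
lemma eq_zero_of_bracket {L M : Type*} [LieRing L] [LieAlgebra ℝ L] [LieAlgebra.IsSemisimple ℝ L]
    [AddCommGroup M] [Module ℝ M] (f : L →ₗ[ℝ] M) (h : ∀ x y : L, f ⁅x, y⁆ = 0) : f = 0 := by
  have h1 : (⊤ : Submodule ℝ L) ≤ LinearMap.ker f := by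
    have h2 := LieSubmodule.lieIdeal_oper_eq_linear_span' (I := (⊤ : LieIdeal ℝ L))
      (N := (⊤ : LieIdeal ℝ L))
    rw [lie_top_eq_top] at h2
    have h3 : (LieSubmodule.toSubmodule (⊤ : LieIdeal ℝ L)) = ⊤ := rfl
    rw [h3] at h2
    rw [h2, Submodule.span_le]
    rintro _ ⟨x, _, y, _, rfl⟩
    exact h x y
  ext x
  exact h1 (Submodule.mem_top (x := x))

variable {N : ℕ}

/-- the determinant of the block of `T` cut out by the idempotent `P` -/
noncomputable def chi (P : Matrix (Fin N) (Fin N) ℂ) (T : Matrix (Fin N) (Fin N) ℝ) : ℂ :=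
  (T.map Complex.ofReal * P + (1 - P)).det

lemma re_im_poly {σ : Type*} (q : MvPolynomial σ ℂ) : ∃ a b : MvPolynomial σ ℝ, ∀ x : σ → ℝ,
    MvPolynomial.eval (fun i => (x i : ℂ)) q =
      (MvPolynomial.eval x a : ℝ) + (MvPolynomial.eval x b : ℝ) * Complex.I := by
  induction q using MvPolynomial.induction_on with
  | C c =>
    refine ⟨MvPolynomial.C c.re, MvPolynomial.C c.im, fun x => ?_⟩
    simp
  | add p q hp hq =>
    obtain ⟨a, b, h⟩ := hp
    obtain ⟨a', b', h'⟩ := hq
    refine ⟨a + a', b + b', fun x => ?_⟩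
    simp only [map_add, h, h', Complex.ofReal_add]
    ring
  | mul_X p i hp =>
    obtain ⟨a, b, h⟩ := hp
    refine ⟨a * MvPolynomial.X i, b * MvPolynomial.X i, fun x => ?_⟩
    simp only [map_mul, MvPolynomial.eval_X, h, Complex.ofReal_mul]
    ring

lemma chi_poly (P : Matrix (Fin N) (Fin N) ℂ) : ∃ q : MvPolynomial (Fin N × Fin N) ℂ,
    ∀ T : Matrix (Fin N) (Fin N) ℝ,
      MvPolynomial.eval (fun ij : Fin N × Fin N => ((T ij.1 ij.2 : ℝ) : ℂ)) q = chi P T := by
  refine ⟨((Matrix.of fun i j => MvPolynomial.X (i, j)) * P.map MvPolynomial.C +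
    (1 - P).map MvPolynomial.C).det, fun T => ?_⟩
  rw [RingHom.map_det, chi]
  congr 1
  ext i j
  simp [Matrix.mul_apply, map_sum]

lemma chi_one (P : Matrix (Fin N) (Fin N) ℂ) : chi P 1 = 1 := by
  have : (1 : Matrix (Fin N) (Fin N) ℝ).map Complex.ofReal = 1 := by
    ext i j
    simp only [Matrix.map_apply, Matrix.one_apply]
    split_ifs <;> simp
  rw [chi, this, one_mul, add_sub_cancel, Matrix.det_one]

lemma cmap_mul (S T : Matrix (Fin N) (Fin N) ℝ) :
    (S * T).map Complex.ofReal = S.map Complex.ofReal * T.map Complex.ofReal := by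
  ext i j
  simp [Matrix.mul_apply]

lemma chi_mul {P : Matrix (Fin N) (Fin N) ℂ} (hP : P * P = P) (S : Matrix (Fin N) (Fin N) ℝ)
    {T : Matrix (Fin N) (Fin N) ℝ}
    (hT : T.map Complex.ofReal * P = P * T.map Complex.ofReal) :
    chi P (S * T) = chi P S * chi P T := by
  rw [chi, chi, chi, ← Matrix.det_mul, cmap_mul]
  congr 1
  set A := S.map Complex.ofReal
  set B := T.map Complex.ofReal
  have h1 : A * P * (B * P) = A * B * P := by
    rw [hT, mul_assoc A P, ← mul_assoc P P, hP, ← hT, mul_assoc]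
  have h2 : A * P * (1 - P) = 0 := by
    rw [mul_sub, mul_one, mul_assoc, hP, sub_self]
  have h3 : (1 - P) * (B * P) = 0 := by
    rw [sub_mul, one_mul, hT, ← mul_assoc, hP, sub_self]
  have h4 : (1 - P) * (1 - P) = 1 - P := by
    rw [mul_sub, mul_one, sub_mul, one_mul, hP, sub_self, sub_zero]
  rw [add_mul, mul_add, mul_add, h1, h2, h3, h4, add_zero, zero_add]

section analysis

open scoped Matrix.Norms.Operator

lemma entry_differentiable (i j : Fin N) :
    Differentiable ℝ (fun M : Matrix (Fin N) (Fin N) ℂ => M i j) := by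
  let L : Matrix (Fin N) (Fin N) ℂ →ₗ[ℝ] ℂ :=
    { toFun := fun M => M i j, map_add' := fun _ _ => rfl, map_smul' := fun _ _ => rfl }
  have h : Continuous L := LinearMap.continuous_of_finiteDimensional L
  exact (⟨L, h⟩ : Matrix (Fin N) (Fin N) ℂ →L[ℝ] ℂ).differentiable

lemma det_differentiable :
    Differentiable ℝ (fun M : Matrix (Fin N) (Fin N) ℂ => M.det) := by
  simp only [Matrix.det_apply']
  refine Differentiable.fun_sum fun σ _ => ?_
  refine Differentiable.const_mul ?_ _
  have key : ∀ s : Finset (Fin N),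
      Differentiable ℝ (fun M : Matrix (Fin N) (Fin N) ℂ => ∏ i ∈ s, M (σ i) i) := by
    intro s
    induction s using Finset.induction_on with
    | empty => simp only [Finset.prod_empty]; exact differentiable_const _
    | insert a s ha ih =>
      simp only [Finset.prod_insert ha]
      exact (entry_differentiable _ _).mul ih
  exact key _

lemma hasDerivAt_det_line (A : Matrix (Fin N) (Fin N) ℂ) :
    HasDerivAt (fun t : ℝ => (1 + t • A).det) A.trace 0 := by
  have h : ∀ t : ℝ, (1 + t • A).det = 1 + A.trace * (t : ℂ) +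
      (det (1 + (Polynomial.X : Polynomial ℂ) • A.map Polynomial.C)).divX.divX.eval (t : ℂ) *
        (t : ℂ) ^ 2 := by
    intro t
    rw [← Matrix.det_one_add_smul]
    rfl
  simp only [h]
  set q := (det (1 + (Polynomial.X : Polynomial ℂ) • A.map Polynomial.C)).divX.divX
  have h1 : HasDerivAt (fun z : ℂ => 1 + A.trace * z + q.eval z * z ^ 2)
      (A.trace * 1 + (q.derivative.eval (0 : ℂ) * (0 : ℂ) ^ 2 + q.eval (0 : ℂ) * (2 * (0 : ℂ)))) 0 := by
    refine HasDerivAt.add ?_ ?_
    · exact ((hasDerivAt_id (0 : ℂ)).const_mul A.trace).const_add 1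
    · refine (q.hasDerivAt 0).mul ?_
      simpa using hasDerivAt_pow 2 (0 : ℂ)
  have h2 := HasDerivAt.comp_ofReal (z := 0) (by simpa using h1)
  simpa using h2

lemma fderiv_det (A : Matrix (Fin N) (Fin N) ℂ) :
    fderiv ℝ (fun M : Matrix (Fin N) (Fin N) ℂ => M.det) 1 A = A.trace := by
  have h1 : HasDerivAt (fun t : ℝ => (1 + t • A)) A 0 := by
    have h := ((hasDerivAt_id (0 : ℝ)).smul_const A).const_add (1 : Matrix (Fin N) (Fin N) ℂ)
    rw [one_smul] at h
    exact h
  have h2 : HasFDerivAt (fun M : Matrix (Fin N) (Fin N) ℂ => M.det)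
      (fderiv ℝ (fun M : Matrix (Fin N) (Fin N) ℂ => M.det) 1) (1 + (0 : ℝ) • A) := by
    rw [zero_smul, add_zero]
    exact (det_differentiable 1).hasFDerivAt
  exact (HasFDerivAt.comp_hasDerivAt (0 : ℝ) h2 h1).unique (hasDerivAt_det_line A)

set_option backward.isDefEq.respectTransparency false in
lemma hasDerivAt_exp0 (X : Matrix (Fin N) (Fin N) ℝ) :
    HasDerivAt (fun s : ℝ => (exp (s • X) : Matrix (Fin N) (Fin N) ℝ)) X 0 := by
  have h1 := hasDerivAt_exp_smul_const (𝕂 := ℝ) X (0 : ℝ)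
  rw [zero_smul, exp_zero, one_mul] at h1
  exact h1

lemma hasDerivAt_chi_exp (P : Matrix (Fin N) (Fin N) ℂ) (X : Matrix (Fin N) (Fin N) ℝ) :
    HasDerivAt (fun t : ℝ => chi P (exp (t • X))) (X.map Complex.ofReal * P).trace 0 := by
  let L : Matrix (Fin N) (Fin N) ℝ →ₗ[ℝ] Matrix (Fin N) (Fin N) ℂ :=
    { toFun := fun M => M.map Complex.ofReal * P
      map_add' := fun A B => by
        rw [← add_mul]; congr 1; ext i j; simp
      map_smul' := fun c A => by
        rw [RingHom.id_apply, ← smul_mul_assoc]; congr 1; ext i j; simp }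
  have hL : Continuous L := LinearMap.continuous_of_finiteDimensional L
  let L' : Matrix (Fin N) (Fin N) ℝ →L[ℝ] Matrix (Fin N) (Fin N) ℂ := ⟨L, hL⟩
  have h1 : HasDerivAt (fun t : ℝ => L' (exp (t • X)) + (1 - P)) (L' X) 0 :=
    (L'.hasFDerivAt.comp_hasDerivAt (0 : ℝ) (hasDerivAt_exp0 X)).add_const _
  have e : (fun t : ℝ => L' (exp (t • X)) + (1 - P)) 0 = 1 := by
    have := chi_one P
    change (exp ((0 : ℝ) • X)).map Complex.ofReal * P + (1 - P) = 1
    rw [zero_smul, exp_zero]
    have : (1 : Matrix (Fin N) (Fin N) ℝ).map Complex.ofReal = 1 := by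
      ext i j
      simp only [Matrix.map_apply, Matrix.one_apply]
      split_ifs <;> simp
    rw [this, one_mul, add_sub_cancel]
  have h2 : HasFDerivAt (fun M : Matrix (Fin N) (Fin N) ℂ => M.det)
      (fderiv ℝ (fun M : Matrix (Fin N) (Fin N) ℂ => M.det) 1)
      ((fun t : ℝ => L' (exp (t • X)) + (1 - P)) 0) := by
    rw [e]
    exact (det_differentiable 1).hasFDerivAt
  have h3 := HasFDerivAt.comp_hasDerivAt (0 : ℝ) h2 h1
  exact h3.congr_deriv (fderiv_det (L' X))

end analysis

lemma chi_exp_eq_one {P : Matrix (Fin N) (Fin N) ℂ} (hP : P * P = P)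
    {X : Matrix (Fin N) (Fin N) ℝ}
    (hX : ∀ t : ℝ, (exp (t • X)).map Complex.ofReal * P = P * (exp (t • X)).map Complex.ofReal)
    (h0 : (X.map Complex.ofReal * P).trace = 0) (t : ℝ) : chi P (exp (t • X)) = 1 := by
  have h1 : ∀ t : ℝ, HasDerivAt (fun t : ℝ => chi P (exp (t • X))) 0 t := by
    intro t
    have h2 := hasDerivAt_chi_exp P X
    rw [h0] at h2
    have h3 : HasDerivAt (fun s : ℝ => chi P (exp ((s - t) • X))) 0 t := by
      have h5 : HasDerivAt (fun t : ℝ => chi P (exp (t • X))) 0 (t - t) := by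
        rw [sub_self]; exact h2
      have := h5.comp_sub_const t t
      exact this
    have h4 := h3.const_mul (chi P (exp (t • X)))
    rw [mul_zero] at h4
    refine h4.congr_of_eventuallyEq (Filter.Eventually.of_forall fun s => ?_)
    have e : s = t + (s - t) := by ring
    change chi P (exp (s • X)) = _
    conv_lhs => rw [e, add_smul, Matrix.exp_add_of_commute _ _
      (((Commute.refl X).smul_left _).smul_right _), chi_mul hP _ (hX (s - t))]
  have h2 : chi P (exp (t • X)) = chi P (exp ((0 : ℝ) • X)) :=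
    is_const_of_deriv_eq_zero (f := fun t : ℝ => chi P (exp (t • X)))
      (fun t => (h1 t).differentiableAt) (fun t => (h1 t).deriv) t 0
  rw [h2, zero_smul, exp_zero, chi_one]

section commute

open scoped Matrix.Norms.Operator

set_option backward.isDefEq.respectTransparency false in
lemma map_exp_real (X : Matrix (Fin N) (Fin N) ℝ) :
    (exp X).map Complex.ofReal = exp (X.map Complex.ofReal) := by
  let f : Matrix (Fin N) (Fin N) ℝ →+* Matrix (Fin N) (Fin N) ℂ := Complex.ofRealHom.mapMatrix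
  have hf : Continuous f := Continuous.matrix_map continuous_id Complex.continuous_ofReal
  exact map_exp f hf X

end commute

lemma exp_commutes {P : Matrix (Fin N) (Fin N) ℂ} {X : Matrix (Fin N) (Fin N) ℝ}
    (h : X.map Complex.ofReal * P = P * X.map Complex.ofReal) :
    (exp X).map Complex.ofReal * P = P * (exp X).map Complex.ofReal := by
  rw [map_exp_real]
  have h1 : Commute (X.map Complex.ofReal) P := h
  exact h1.exp_left

end H19

variable {N : ℕ} {𝔤 : LieSubalgebra ℝ (Matrix (Fin N) (Fin N) ℝ)}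

theorem det_block_eq_one [LieAlgebra.IsSemisimple ℝ 𝔤] {P : Matrix (Fin N) (Fin N) ℂ}
    (hP : P * P = P) (hc : ∀ X ∈ 𝔤, X.map Complex.ofReal * P = P * X.map Complex.ofReal)
    {T : Matrix (Fin N) (Fin N) ℝ} (hT : InZcl 𝔤 T) :
    (T.map Complex.ofReal * P + (1 - P)).det = 1 := by
  -- the trace of `X P` vanishes on `𝔤`
  let tr : 𝔤 →ₗ[ℝ] ℂ :=
    { toFun := fun X => (X.1.map Complex.ofReal * P).trace
      map_add' := fun A B => by
        have : ((A + B : 𝔤).1).map Complex.ofReal = A.1.map Complex.ofReal + B.1.map Complex.ofReal := by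
          ext i j; simp
        rw [this, add_mul, Matrix.trace_add]
      map_smul' := fun c A => by
        have : ((c • A : 𝔤).1).map Complex.ofReal = c • A.1.map Complex.ofReal := by
          ext i j; simp
        rw [this, smul_mul_assoc, Matrix.trace_smul, RingHom.id_apply] }
  have htr : tr = 0 := by
    refine H19.eq_zero_of_bracket tr fun A B => ?_
    change (((⁅A, B⁆ : 𝔤).1).map Complex.ofReal * P).trace = 0
    have e : ((⁅A, B⁆ : 𝔤).1).map Complex.ofReal =
        A.1.map Complex.ofReal * B.1.map Complex.ofReal -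
          B.1.map Complex.ofReal * A.1.map Complex.ofReal := by
      rw [LieSubalgebra.coe_bracket, LieRing.of_associative_ring_bracket, ← H19.cmap_mul,
        ← H19.cmap_mul]
      ext i j; simp
    rw [e, sub_mul, Matrix.trace_sub, mul_assoc, hc B.1 B.2, ← mul_assoc, Matrix.trace_mul_comm,
      ← mul_assoc, sub_self]
  have h0 : ∀ X ∈ 𝔤, (X.map Complex.ofReal * P).trace = 0 := by
    intro X hX
    have := LinearMap.congr_fun htr ⟨X, hX⟩
    exact this
  have h1 : ∀ X ∈ 𝔤, H19.chi P (exp X) = 1 := by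
    intro X hX
    have := H19.chi_exp_eq_one (X := X) hP
      (fun t => H19.exp_commutes (hc _ (𝔤.smul_mem t hX))) (h0 X hX) 1
    rwa [one_smul] at this
  have h2 : ∀ l : List (Matrix (Fin N) (Fin N) ℝ), (∀ X ∈ l, X ∈ 𝔤) →
      (l.map exp).prod.map Complex.ofReal * P = P * (l.map exp).prod.map Complex.ofReal ∧
      H19.chi P (l.map exp).prod = 1 := by
    intro l
    induction l with
    | nil =>
      intro _
      refine ⟨?_, ?_⟩
      · have : (1 : Matrix (Fin N) (Fin N) ℝ).map Complex.ofReal = 1 := by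
          ext i j
          simp only [Matrix.map_apply, Matrix.one_apply]
          split_ifs <;> simp
        rw [List.map_nil, List.prod_nil, this, one_mul, mul_one]
      · rw [List.map_nil, List.prod_nil, H19.chi_one]
    | cons X l ih =>
      intro h
      obtain ⟨i1, i2⟩ := ih fun Y hY => h Y (List.mem_cons_of_mem _ hY)
      have hX := h X List.mem_cons_self
      rw [List.map_cons, List.prod_cons]
      refine ⟨?_, ?_⟩
      · rw [H19.cmap_mul, mul_assoc, i1, ← mul_assoc, H19.exp_commutes (hc X hX), mul_assoc]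
      · rw [H19.chi_mul hP _ i1, h1 X hX, i2, one_mul]
  obtain ⟨q, hq⟩ := H19.chi_poly P
  obtain ⟨a, b, hab⟩ := H19.re_im_poly q
  have h3 : ∀ S : Matrix (Fin N) (Fin N) ℝ,
      H19.chi P S = ((polyVal a S : ℝ) : ℂ) + ((polyVal b S : ℝ) : ℂ) * Complex.I := by
    intro S
    rw [← hq S]
    exact hab fun ij => S ij.1 ij.2
  have h4 : ∀ l : List (Matrix (Fin N) (Fin N) ℝ), (∀ X ∈ l, X ∈ 𝔤) →
      polyVal a (l.map exp).prod = 1 ∧ polyVal b (l.map exp).prod = 0 := by
    intro l hl
    have := (h2 l hl).2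
    rw [h3] at this
    have r := congrArg Complex.re this
    have i := congrArg Complex.im this
    simp at r i
    exact ⟨r, i⟩
  have h5 : polyVal (a - 1) T = 0 := by
    refine hT _ fun l hl => ?_
    rw [polyVal, map_sub, map_one]
    have := (h4 l hl).1
    rw [polyVal] at this
    rw [this, sub_self]
  have h6 : polyVal b T = 0 := hT _ fun l hl => (h4 l hl).2
  have h7 : polyVal a T = 1 := by
    rw [polyVal, map_sub, map_one] at h5
    rw [polyVal]
    linarith
  have := h3 T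
  rw [h6, h7] at this
  rw [H19.chi] at this
  rw [this]
  simp

end Pool.Agent.Lib.MP_d9b062_al.Stmt

end
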